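import Pool.Agent.V11211.TS4

namespace Pool.Agent.V11211.TS
open Finset

variable {n : ℕ}

lemma exists_parent (G : SimpleGraph (Fin n)) (hG : G.Connected) (root : Fin n) :
    ∃ p : Fin n → Fin n, ∀ v, v ≠ root → G.Adj v (p v) ∧ G.dist (p v) root + 1 = G.dist v root := by
  classical
  have h : ∀ v, ∃ w, v ≠ root → G.Adj v w ∧ G.dist w root + 1 = G.dist v root := by
    intro v
    by_cases hv : v = root
    · exact ⟨v, fun h => absurd hv h⟩
    · obtain ⟨q, hq⟩ := hG.exists_walk_length_eq_dist v root
      cases q with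
      | nil => exact absurd rfl hv
      | @cons _ w _ hadj q' =>
        refine ⟨w, fun _ => ⟨hadj, ?_⟩⟩
        have h1 : G.dist w root ≤ q'.length := SimpleGraph.dist_le q'
        have h2 : G.dist v root ≤ G.dist v w + G.dist w root := hG.dist_triangle
        have h3 : G.dist v w = 1 := SimpleGraph.dist_eq_one_iff_adj.2 hadj
        rw [SimpleGraph.Walk.length_cons] at hq
        omega
  choose p hp using h
  exact ⟨p, hp⟩

lemma comp_bound (G : SimpleGraph (Fin n)) (root : Fin n) (p : Fin n → Fin n)
    (hp : ∀ v, v ≠ root → G.Adj v (p v) ∧ G.dist (p v) root + 1 = G.dist v root)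
    (S : Set (Fin n)) (I : Finset (Fin n)) (hSI : ∀ v, v ∈ S ↔ v ∉ I) :
    Nat.card (G.induce S).ConnectedComponent
      ≤ (univ.filter (fun v => v ∉ I ∧ (v = root ∨ p v ∈ I))).card := by
  classical
  have h : ∀ c : (G.induce S).ConnectedComponent, ∃ v : S,
      (G.induce S).connectedComponentMk v = c ∧
      ∀ w : S, (G.induce S).connectedComponentMk w = c → G.dist v root ≤ G.dist w root := by
    intro c
    obtain ⟨v0, hv0⟩ := c.exists_rep
    obtain ⟨v, hv, hmin⟩ := (measure (fun v : S => G.dist v root)).wf.has_min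
      {v : S | (G.induce S).connectedComponentMk v = c} ⟨v0, hv0⟩
    refine ⟨v, hv, fun w hw => ?_⟩
    have := hmin w hw
    simpa [WellFoundedRelation.rel, measure, invImage, InvImage] using this
  choose f hf1 hf2 using h
  have hgood : ∀ c, ((f c : S) : Fin n) ∈ univ.filter (fun v => v ∉ I ∧ (v = root ∨ p v ∈ I)) := by
    intro c
    simp only [mem_filter, mem_univ, true_and]
    refine ⟨(hSI _).1 (f c).2, ?_⟩
    by_contra hcon
    push Not at hcon
    obtain ⟨h1, h2⟩ := hcon
    have hw : p (f c) ∈ S := (hSI _).2 h2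
    obtain ⟨h3, h4⟩ := hp _ h1
    have hadj : (G.induce S).Adj (f c) ⟨p (f c), hw⟩ := by
      simpa [SimpleGraph.comap_adj] using h3
    have hcc : (G.induce S).connectedComponentMk ⟨p (f c), hw⟩ = c :=
      (SimpleGraph.ConnectedComponent.connectedComponentMk_eq_of_adj hadj).symm.trans (hf1 c)
    have := hf2 c _ hcc
    simp only at this
    omega
  have hinj : Function.Injective (fun c =>
      (⟨((f c : S) : Fin n), hgood c⟩ :
        {v // v ∈ univ.filter (fun v => v ∉ I ∧ (v = root ∨ p v ∈ I))})) := by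
    intro c c' h
    have h1 : f c = f c' := Subtype.ext (by simpa using h)
    rw [← hf1 c, ← hf1 c', h1]
  have := Nat.card_le_card_of_injective _ hinj
  rwa [Nat.card_eq_fintype_card (α := {v // v ∈ univ.filter (fun v => v ∉ I ∧ (v = root ∨ p v ∈ I))}),
    Fintype.card_coe] at this

lemma count_bound (root : Fin n) (p : Fin n → Fin n) (I : Finset (Fin n)) :
    ((univ.filter (fun v => v ∉ I ∧ (v = root ∨ p v ∈ I))).card : ℝ)
      ≤ 1 + rr (univ.erase root) p I - ee (univ.erase root) p I := by
  classical
  have h1 : (univ.filter (fun v => v ∉ I ∧ (v = root ∨ p v ∈ I)))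
      ⊆ insert root ((univ.erase root).filter (fun v => p v ∈ I ∧ v ∉ I)) := by
    intro v hv
    simp only [mem_filter, mem_univ, true_and] at hv
    simp only [mem_insert, mem_filter, mem_erase, mem_univ, and_true]
    by_cases h : v = root
    · exact Or.inl h
    · right
      refine ⟨h, ?_, hv.1⟩
      rcases hv.2 with h2 | h2
      · exact absurd h2 h
      · exact h2
  have h2 := Finset.card_le_card h1
  have h3 := Finset.card_insert_le root ((univ.erase root).filter (fun v => p v ∈ I ∧ v ∉ I))
  have h4 : ((univ.erase root).filter (fun v => p v ∈ I)).card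
      = ((univ.erase root).filter (fun v => p v ∈ I ∧ v ∈ I)).card
        + ((univ.erase root).filter (fun v => p v ∈ I ∧ v ∉ I)).card := by
    rw [← Finset.filter_filter, ← Finset.filter_filter]
    exact (Finset.card_filter_add_card_filter_not (s := (univ.erase root).filter (fun v => p v ∈ I))
      (fun v => v ∈ I)).symm
  unfold rr ee
  have h5 : ((univ.filter (fun v => v ∉ I ∧ (v = root ∨ p v ∈ I))).card : ℝ)
      ≤ ((univ.erase root).filter (fun v => p v ∈ I ∧ v ∉ I)).card + 1 := by
    exact_mod_cast h2.trans h3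
  have h6 : (((univ.erase root).filter (fun v => p v ∈ I)).card : ℝ)
      = ((univ.erase root).filter (fun v => p v ∈ I ∧ v ∈ I)).card
        + ((univ.erase root).filter (fun v => p v ∈ I ∧ v ∉ I)).card := by
    exact_mod_cast h4
  linarith

/-- value is below the potential -/
lemma value_le (root : Fin n) (p : Fin n → Fin n) (hp : ∀ v ∈ (univ.erase root : Finset (Fin n)), p v ≠ v)
    (hn : 8 ≤ n) (I : Finset (Fin n)) :
    1 + rr (univ.erase root) p I - ee (univ.erase root) p I
      ≤ gg (univ.erase root) p (n/8 + 1) I := by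
  classical
  set X := (univ.erase root : Finset (Fin n)) with hX
  set k1 := n/8 + 1 with hk1
  have hIn : I.card ≤ n := by simpa using Finset.card_le_univ I
  have hn8 : (8:ℝ) ≤ n := by exact_mod_cast hn
  have hr0 := rr_nonneg X p I
  have he0 := ee_nonneg X p I
  unfold gg
  split_ifs with h
  · rcases Nat.eq_zero_or_pos I.card with h0 | h0
    · have : I = ∅ := Finset.card_eq_zero.1 h0
      subst this
      have : rr X p ∅ = 0 := by simp [rr]
      rw [this]; simp; exact ee_nonneg _ _ _
    · have h8 : 8 * I.card ≤ n := by omega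
      have h8' : (8:ℝ) * I.card ≤ n := by exact_mod_cast h8
      have hpos : (0:ℝ) < I.card := by exact_mod_cast h0
      have : rr X p I ≤ (n:ℝ) / 8 * (rr X p I / I.card) := by
        rw [div_mul_div_comm, le_div_iff₀ (by positivity)]
        nlinarith
      linarith
  · have hkI : k1 ≤ I.card := by omega
    have h2 : 2 ≤ k1 := by omega
    have hj := jensen X p hp k1 h2 I hkI
    have hD := DD_nonneg X p I
    have hP := PP_nonneg X p k1 I
    have hIpos : (0:ℝ) < I.card := by exact_mod_cast (by omega : 0 < I.card)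
    have hI2 : (2:ℝ) ≤ I.card := by exact_mod_cast (by omega : 2 ≤ I.card)
    have hnI : (n:ℝ) ≤ 8 * I.card := by exact_mod_cast (by omega : n ≤ 8 * I.card)
    have hrX : rr X p I ≤ n - 1 := by
      have h1 : (X.filter (fun v => p v ∈ I)).card ≤ X.card := Finset.card_filter_le _ _
      have h2 : X.card = n - 1 := by rw [hX, Finset.card_erase_of_mem (mem_univ _)]; simp
      have : ((X.filter (fun v => p v ∈ I)).card : ℝ) ≤ ((n - 1 : ℕ) : ℝ) := by
        exact_mod_cast (h2 ▸ h1)
      rw [Nat.cast_sub (by omega)] at this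
      simpa [rr] using this
    have hD2 : DD X p I ≤ 8 * (n - 1) := by
      unfold DD
      have : (n:ℝ) / I.card ≤ 8 := by rw [div_le_iff₀ hIpos]; linarith
      calc (n:ℝ) / I.card * rr X p I ≤ 8 * rr X p I := mul_le_mul_of_nonneg_right this hr0
        _ ≤ 8 * (n - 1) := by linarith
    have hv := value (n:ℝ) I.card (DD X p I) (FF X p I) (PP X p k1 I) (by linarith) hIpos.le
      (by exact_mod_cast hIn) hD hD2 hP hj
    have e1 : rr X p I = (I.card : ℝ) / n * DD X p I := by
      unfold DD; field_simp
    have e2 : ee X p I = (I.card : ℝ) * (I.card - 1) / (n * (n - 1)) * (DD X p I - FF X p I) := by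
      unfold DD FF
      have : (I.card : ℝ) - 1 ≠ 0 := by linarith
      have : (n : ℝ) - 1 ≠ 0 := by linarith
      have : (n : ℝ) ≠ 0 := by linarith
      field_simp
      ring
    rw [e1, e2]
    linarith

/-- potential at the start -/
lemma start_bound (G : SimpleGraph (Fin n)) (root : Fin n) (p : Fin n → Fin n)
    (hp : ∀ v, v ≠ root → G.Adj v (p v) ∧ G.dist (p v) root + 1 = G.dist v root)
    (hn : 8 ≤ n) :
    gg (univ.erase root) p (n/8 + 1) univ ≤ n / 4 + 50200 := by
  classical
  set X := (univ.erase root : Finset (Fin n)) with hX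
  set k1 := n/8 + 1 with hk1
  have h2 : 2 ≤ k1 := by omega
  have hkn : k1 ≤ n := by omega
  set lam := lamOf n k1 with hlam
  set X0 := X.filter (fun v => Odd (G.dist v root)) with hX0
  set X1 := X.filter (fun v => ¬ Odd (G.dist v root)) with hX1
  have hXu : X = X0 ∪ X1 := (Finset.filter_union_filter_not_eq _ _).symm
  have hdis : Disjoint X0 X1 := Finset.disjoint_filter_filter_not _ _ _
  have hp0 : ∀ v ∈ X0, p v ∉ X0 := by
    intro v hv hpv
    simp only [hX0, hX, mem_filter, mem_erase, mem_univ, and_true] at hv hpv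
    obtain ⟨_, h3⟩ := hp v hv.1
    have h4 := hv.2
    rw [← h3] at h4
    have := hpv.2
    exact (Nat.odd_add_one.1 h4) this
  have hp1 : ∀ v ∈ X1, p v ∉ X1 := by
    intro v hv hpv
    simp only [hX1, hX, mem_filter, mem_erase, mem_univ, and_true] at hv hpv
    obtain ⟨_, h3⟩ := hp v hv.1
    have h4 := hv.2
    rw [← h3, Nat.odd_add_one] at h4
    exact h4 hpv.2
  have ha0 := avg_phi X0 p hp0 k1 h2 (by simpa using hkn) lam (by simp [hlam, lamOf])
  have ha1 := avg_phi X1 p hp1 k1 h2 (by simpa using hkn) lam (by simp [hlam, lamOf])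
  simp only [Fintype.card_fin] at ha0 ha1
  have hsum : ∑ J ∈ (univ : Finset (Fin n)).powersetCard k1, phi X p lam J
      ≤ (n.choose k1 : ℕ) * (4 * lam^2) := by
    calc ∑ J ∈ (univ : Finset (Fin n)).powersetCard k1, phi X p lam J
        ≤ ∑ J ∈ (univ : Finset (Fin n)).powersetCard k1, (phi X0 p lam J + phi X1 p lam J) := by
          apply Finset.sum_le_sum
          intro J _
          conv_lhs => rw [hXu]
          exact phi_union X0 X1 hdis p lam J
      _ ≤ _ := by
          rw [Finset.sum_add_distrib]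
          linarith
  have hn8 : (8:ℝ) ≤ n := by exact_mod_cast hn
  have hk1r : (1:ℝ) ≤ (k1:ℝ) - 1 := by
    have : (2:ℝ) ≤ k1 := by exact_mod_cast h2
    linarith
  have hlam0 : 0 ≤ lam := by
    rw [hlam]; unfold lamOf; apply div_nonneg <;> linarith
  have hlam14 : lam ≤ 14 := by
    rw [hlam]; unfold lamOf
    rw [div_le_iff₀ (by linarith)]
    have : n + 13 ≤ 14 * k1 := by omega
    have h' : (n:ℝ) + 13 ≤ 14 * k1 := by exact_mod_cast this
    linarith
  have hlam2 : lam^2 ≤ 196 := by nlinarith
  have hCpos : (0:ℝ) < (n.choose k1 : ℕ) := by exact_mod_cast Nat.choose_pos hkn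
  have hrr : rr X p univ = n - 1 := by
    unfold rr
    have : X.filter (fun v => p v ∈ (univ : Finset (Fin n))) = X := by simp
    rw [this, hX, Finset.card_erase_of_mem (mem_univ _)]
    simp only [card_univ, Fintype.card_fin]
    rw [Nat.cast_sub (by omega)]; simp
  have hee : ee X p univ = n - 1 := by
    unfold ee
    have : X.filter (fun v => p v ∈ (univ : Finset (Fin n)) ∧ v ∈ (univ : Finset (Fin n))) = X := by simp
    rw [this, hX, Finset.card_erase_of_mem (mem_univ _)]
    simp only [card_univ, Fintype.card_fin]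
    rw [Nat.cast_sub (by omega)]; simp
  have hPP : PP X p k1 univ ≤ 8 * 784 := by
    unfold PP
    simp only [card_univ, Fintype.card_fin]
    have h5 : (n:ℝ) / k1 ≤ 8 := by
      rw [div_le_iff₀ (by linarith)]
      exact_mod_cast (by omega : n ≤ 8 * k1)
    have h6 : (∑ J ∈ (univ : Finset (Fin n)).powersetCard k1, phi X p (lamOf n k1) J)
        / (n.choose k1 : ℕ) ≤ 784 := by
      rw [div_le_iff₀ hCpos]
      calc _ ≤ ((n.choose k1 : ℕ) : ℝ) * (4 * lam^2) := hsum
        _ ≤ 784 * ((n.choose k1 : ℕ) : ℝ) := by nlinarith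
    have h7 : 0 ≤ (∑ J ∈ (univ : Finset (Fin n)).powersetCard k1, phi X p (lamOf n k1) J)
        / (n.choose k1 : ℕ) := by
      apply div_nonneg _ hCpos.le
      exact Finset.sum_nonneg (fun J _ => phi_nonneg _ _ _ _)
    calc _ ≤ 8 * ((∑ J ∈ (univ : Finset (Fin n)).powersetCard k1, phi X p (lamOf n k1) J)
        / (n.choose k1 : ℕ)) := mul_le_mul_of_nonneg_right h5 h7
      _ ≤ 8 * 784 := by linarith
  unfold gg
  rw [if_neg (by simp; omega)]
  have hDD : DD X p univ = n - 1 := by
    unfold DD; rw [hrr]; simp only [card_univ, Fintype.card_fin]; field_simp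
  have hFF : FF X p univ = 0 := by
    unfold FF; rw [hrr, hee]; simp only [card_univ, Fintype.card_fin]
    have : (n:ℝ) - 1 ≠ 0 := by linarith
    have : (n:ℝ) ≠ 0 := by linarith
    field_simp
    ring
  rw [hDD, hFF]
  linarith

end Pool.Agent.V11211.TS
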