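import Pool.Agent.V11211.SR1
import Pool.Agent.Helper844.DPRM

/-!
# Recursively enumerable sets are defined by arithmetical formulas
-/

set_option autoImplicit false

namespace Pool.Agent.V11211.SR

open Function Pool.Agent.H986R3.SOA

/-- the value of a term in the natural numbers -/
def tv (w : ℕ → ℕ) (t : Tm) : ℕ := t.val std w

theorem tv_var (w : ℕ → ℕ) (i : ℕ) : tv w (.var i) = w i := rfl
theorem tv_zero (w : ℕ → ℕ) : tv w .zero = 0 := rfl
theorem tv_add (w : ℕ → ℕ) (s t : Tm) : tv w (.add s t) = tv w s + tv w t := rfl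
theorem tv_mul (w : ℕ → ℕ) (s t : Tm) : tv w (.mul s t) = tv w s * tv w t := rfl
theorem tv_num (w : ℕ → ℕ) (n : ℕ) : tv w (numeral n) = n :=
  (val_numeral std w n).trans (std_num n)

/-- polynomials as differences of terms -/
theorem poly_term {γ : Type} (e : γ → ℕ) (p : Poly γ) : ∃ s t : Tm,
    s.fv ⊆ Set.range e ∧ t.fv ⊆ Set.range e ∧
      ∀ w : ℕ → ℕ, (p (fun g => w (e g)) : ℤ) = (tv w s : ℤ) - (tv w t : ℤ) := by
  refine Poly.induction (C := fun p => ∃ s t : Tm,
    s.fv ⊆ Set.range e ∧ t.fv ⊆ Set.range e ∧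
      ∀ w : ℕ → ℕ, (p (fun g => w (e g)) : ℤ) = (tv w s : ℤ) - (tv w t : ℤ)) ?_ ?_ ?_ ?_ p
  · intro g
    refine ⟨.var (e g), .zero, ?_, ?_, fun w => ?_⟩
    · simp [Tm.fv]
    · simp [Tm.fv]
    · rw [tv_var, tv_zero, Poly.proj_apply]
      simp
  · intro n
    refine ⟨numeral n.toNat, numeral (-n).toNat, ?_, ?_, fun w => ?_⟩
    · simp [numeral_fv]
    · simp [numeral_fv]
    · rw [tv_num, tv_num, Poly.const_apply]
      omega
  · rintro f g ⟨s1, t1, a1, b1, h1⟩ ⟨s2, t2, a2, b2, h2⟩
    refine ⟨.add s1 t2, .add t1 s2, ?_, ?_, fun w => ?_⟩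
    · exact Set.union_subset a1 b2
    · exact Set.union_subset b1 a2
    · rw [Poly.sub_apply, h1, h2, tv_add, tv_add]
      push_cast
      ring
  · rintro f g ⟨s1, t1, a1, b1, h1⟩ ⟨s2, t2, a2, b2, h2⟩
    refine ⟨.add (.mul s1 s2) (.mul t1 t2), .add (.mul s1 t2) (.mul t1 s2), ?_, ?_, fun w => ?_⟩
    · exact Set.union_subset (Set.union_subset a1 a2) (Set.union_subset b1 b2)
    · exact Set.union_subset (Set.union_subset a1 b2) (Set.union_subset b1 a2)
    · rw [Poly.mul_apply, h1, h2, tv_add, tv_add, tv_mul, tv_mul, tv_mul, tv_mul]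
      push_cast
      ring

/-- existential closure with respect to the number variables `1, ..., k` -/
def exs : ℕ → Fm → Fm
  | 0, φ => φ
  | k + 1, φ => .ex (k + 1) (exs k φ)

theorem exs_arith (k : ℕ) (φ : Fm) (h : φ.Arithmetical) : (exs k φ).Arithmetical := by
  induction k with
  | zero => exact h
  | succ k ih => exact ih

theorem exs_fvN (k : ℕ) (φ : Fm) (x : ℕ) :
    x ∈ (exs k φ).fvN ↔ x ∈ φ.fvN ∧ (x = 0 ∨ k < x) := by
  induction k with
  | zero =>
    simp only [exs]
    constructor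
    · intro h; exact ⟨h, by omega⟩
    · intro h; exact h.1
  | succ k ih =>
    simp only [exs, Fm.ex, Fm.fvN, Set.mem_sdiff, Set.mem_singleton_iff, ih]
    constructor
    · rintro ⟨⟨h1, h2⟩, h3⟩; exact ⟨h1, by omega⟩
    · rintro ⟨h1, h2⟩; exact ⟨⟨h1, by omega⟩, by omega⟩

theorem exs_fvS (k : ℕ) (φ : Fm) : (exs k φ).fvS = φ.fvS := by
  induction k with
  | zero => rfl
  | succ k ih => simpa only [exs, Fm.ex, Fm.fvS] using ih

theorem Sat_exs (W : ℕ → Set ℕ) (k : ℕ) (φ : Fm) : ∀ w : ℕ → ℕ,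
    (Sat std w W (exs k φ) ↔ ∃ w' : ℕ → ℕ, (∀ j, j = 0 ∨ k < j → w' j = w j) ∧
      Sat std w' W φ) := by
  induction k with
  | zero =>
    intro w
    simp only [exs]
    constructor
    · intro h; exact ⟨w, fun _ _ => rfl, h⟩
    · rintro ⟨w', h1, h2⟩
      have : w' = w := funext fun j => h1 j (by omega)
      rwa [← this]
  | succ k ih =>
    intro w
    simp only [exs]
    refine (Sat_ex std w W _ _).trans ?_
    constructor
    · rintro ⟨a, ha⟩
      obtain ⟨w', h1, h2⟩ := (ih _).1 ha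
      refine ⟨w', fun j hj => ?_, h2⟩
      rw [h1 j (by omega)]
      exact update_of_ne (by omega) _ _
    · rintro ⟨w', h1, h2⟩
      refine ⟨w' (k + 1), (ih _).2 ⟨w', fun j hj => ?_, h2⟩⟩
      by_cases hjk : j = k + 1
      · subst hjk; exact (update_self (β := fun _ => ℕ) (k + 1) (w' (k + 1)) w).symm
      · rw [h1 j (by omega)]
        exact (update_of_ne (β := fun _ => ℕ) hjk (w' (k + 1)) w).symm

theorem arith_of_re {S : ℕ → Prop} (hS : REPred S) :
    ∃ α : Fm, α.Arithmetical ∧ α.FreeIn {0} ∧ ∀ n, SatN n 0 0 α ↔ S n := by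
  obtain ⟨δ, _, p, hp⟩ := Pool.Agent.Helper844.Dio.finite_dummies
    (Pool.Agent.Helper844.Dio.dprm hS)
  let k := Fintype.card δ
  let e : Unit ⊕ δ → ℕ := Sum.elim (fun _ => 0) (fun d => (Fintype.equivFin δ d).val + 1)
  obtain ⟨s, t, hs, ht, hst⟩ := poly_term e p
  have he : ∀ x ∈ Set.range e, x ≤ k := by
    rintro x ⟨g | d, rfl⟩
    · exact Nat.zero_le _
    · exact (Fintype.equivFin δ d).2
  refine ⟨exs k (.eq s t), exs_arith k _ trivial, ⟨fun x hx => ?_, ?_⟩, fun n => ?_⟩
  · rw [exs_fvN] at hx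
    have h1 : x ≤ k := by
      rcases hx.1 with h | h
      · exact he x (hs h)
      · exact he x (ht h)
    rw [Set.mem_singleton_iff]
    omega
  · rw [exs_fvS]; rfl
  · unfold SatN
    refine (Sat_exs (fun _ => ∅) k (.eq s t) (asg (A := ℕ) n 0 0)).trans ?_
    refine Iff.trans ?_ (hp (fun _ => n)).symm
    constructor
    · rintro ⟨w, h1, h2⟩
      have h3 : tv w s = tv w t := h2
      refine ⟨fun d => w (e (Sum.inr d)), ?_⟩
      have h4 := hst w
      rw [h3, sub_self] at h4
      rw [← h4]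
      congr 1
      funext g
      rcases g with g | d
      · have := h1 0 (Or.inl rfl)
        simpa [e, asg] using this.symm
      · rfl
    · rintro ⟨t', ht'⟩
      let w : ℕ → ℕ := fun j => if j = 0 then n else if h : j - 1 < k then
        t' ((Fintype.equivFin δ).symm ⟨j - 1, h⟩) else asg (A := ℕ) n 0 0 j
      refine ⟨w, fun j hj => ?_, ?_⟩
      · simp only [w]
        rcases hj with rfl | hj
        · simp [asg]
        · rw [if_neg (by omega), dif_neg (by omega)]
      · have h4 := hst w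
        have h5 : (fun g => w (e g)) = Sum.elim (fun _ => n) t' := by
          funext g
          rcases g with g | d
          · simp [e, w]
          · simp only [e, w, Sum.elim_inr]
            have hlt : (Fintype.equivFin δ d).val + 1 - 1 < k := (Fintype.equivFin δ d).2
            rw [if_neg (by omega), dif_pos hlt]
            simp
        rw [h5, ht'] at h4
        have h6 : (tv w s : ℤ) = tv w t := by omega
        have h7 : tv w s = tv w t := by exact_mod_cast h6
        exact h7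

end Pool.Agent.V11211.SR
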