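import Pool.Agent.V11211.SR1

/-!
# The Goedel numbers of the axioms form a recursively enumerable set
-/

set_option autoImplicit false

namespace Pool.Agent.V11211.SR

open Function Pool.Agent.H986R3.SOA

section General

variable {α β γ : Type*} [Primcodable α] [Primcodable β] [Primcodable γ]

lemma pp_ball {f : α → List β} {R : α → β → Prop} (hf : Primrec f)
    (hR : PrimrecPred fun x : α × β => R x.1 x.2) : PrimrecPred fun a => ∀ b ∈ f a, R a b := by
  have h1 : PrimrecRel fun (b : β) (a : α) => R a b :=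
    hR.comp (Primrec.pair Primrec.snd Primrec.fst)
  exact (PrimrecRel.forall_mem_list h1).comp hf Primrec.id

lemma pp_bex {f : α → List β} {R : α → β → Prop} (hf : Primrec f)
    (hR : PrimrecPred fun x : α × β => R x.1 x.2) : PrimrecPred fun a => ∃ b ∈ f a, R a b := by
  have h1 : PrimrecRel fun (b : β) (a : α) => R a b :=
    hR.comp (Primrec.pair Primrec.snd Primrec.fst)
  exact (PrimrecRel.exists_mem_list h1).comp hf Primrec.id

lemma pp_eq {f g : α → β} (hf : Primrec f) (hg : Primrec g) : PrimrecPred fun a => f a = g a :=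
  Primrec.eq.comp hf hg

lemma re_exists {R : α → β → Prop} (hR : PrimrecPred fun x : α × β => R x.1 x.2) :
    REPred fun a => ∃ b, R a b := by
  classical
  have h1 : Primrec₂ fun (a : α) (n : ℕ) =>
      ((Encodable.decode (α := β) n).map fun b => decide (R a b)).getD false := by
    have h2 : Primrec₂ fun (a : α) (n : ℕ) =>
        ((Encodable.decode (α := β) n).map fun b => decide (R a b)) := by
      apply Primrec.option_map (Primrec.decode.comp Primrec.snd)
      have h3 : Primrec fun x : α × β => decide (R x.1 x.2) := hR.decide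
      exact h3.comp (Primrec.pair (Primrec.fst.comp Primrec.fst) Primrec.snd)
    exact Primrec.option_getD.comp h2 (Primrec.const false)
  have h4 : Partrec fun a : α => Nat.rfind fun n => Part.some
      (((Encodable.decode (α := β) n).map fun b => decide (R a b)).getD false) :=
    Partrec.rfind h1.to_comp.partrec
  refine (h4.dom_re).of_eq ?_
  intro a
  refine Iff.trans Nat.rfind_dom ?_
  constructor
  · rintro ⟨n, hn, _⟩
    rw [Part.mem_some_iff] at hn
    cases hd : (Encodable.decode (α := β) n) with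
    | none => rw [hd] at hn; simp at hn
    | some b =>
      rw [hd] at hn
      exact ⟨b, by simpa using hn.symm⟩
  · rintro ⟨b, hb⟩
    refine ⟨Encodable.encode b, ?_, fun _ => trivial⟩
    rw [Part.mem_some_iff, Encodable.encodek]
    simpa using hb

end General

/-! ### Operations on Goedel numbers -/

def cNeg (a : ℕ) : ℕ := pr 3 a
def cAnd (a b : ℕ) : ℕ := pr 4 (pr a b)
def cAll (i a : ℕ) : ℕ := pr 5 (pr i a)
def cAllS (i a : ℕ) : ℕ := pr 6 (pr i a)
def cImp (a b : ℕ) : ℕ := cNeg (cAnd a (cNeg b))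
def cIff (a b : ℕ) : ℕ := cAnd (cImp a b) (cImp b a)
def cExS (i a : ℕ) : ℕ := cNeg (cAllS i (cNeg a))
def cMem (t i : ℕ) : ℕ := pr 2 (pr t i)
def cVar (i : ℕ) : ℕ := pr 0 i
def cAdd (s t : ℕ) : ℕ := pr 3 (pr s t)
def cMul (s t : ℕ) : ℕ := pr 4 (pr s t)
def cPr (s t : ℕ) : ℕ := cAdd (cMul (cAdd s t) (cAdd s t)) s
def clN (k c : ℕ) : ℕ := Nat.rec c (fun j r => cAll j r) k
def clS (k c : ℕ) : ℕ := Nat.rec c (fun j r => cAllS j r) k
def cl (c : ℕ) : ℕ := clN (c + 1) (clS (c + 1) c)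
def kComp (c i : ℕ) : ℕ := cExS (c + 1) (cAll i (cIff (cMem (cVar i) (c + 1)) c))
def kFresh (c i j m : ℕ) : ℕ := c + i + j + m + 1
def kSec (i j N : ℕ) : ℕ := cAll N (cIff (cMem (cVar N) j) (cMem (cPr (cVar i) (cVar N)) N))
def kCh (c i j m : ℕ) : ℕ :=
  cImp (cAll i (cExS j (cExS m c))) (cExS (kFresh c i j m) (cAll i (cExS j
    (cAnd (kSec i j (kFresh c i j m)) (cExS m c)))))

theorem code_closN (k : ℕ) (φ : Fm) : (closN k φ).code = clN k φ.code := by
  induction k with
  | zero => rfl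
  | succ k ih => simp only [closN, Fm.code, ih]; rfl

theorem code_closS (k : ℕ) (φ : Fm) : (closS k φ).code = clS k φ.code := by
  induction k with
  | zero => rfl
  | succ k ih => simp only [closS, Fm.code, ih]; rfl

theorem code_clos (φ : Fm) : (clos (φ.code + 1) φ).code = cl φ.code := by
  rw [clos, code_closN, code_closS]; rfl

theorem code_compAx (φ : Fm) (i : ℕ) : (compAx φ i).code = kComp φ.code i := rfl

theorem code_chAx (θ : Fm) (i j m : ℕ) : (chAx θ i j m).code = kCh θ.code i j m := rfl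

section prim

variable {α : Type*} [Primcodable α] {f g h e : α → ℕ}

theorem p_pr (hf : Primrec f) (hg : Primrec g) : Primrec fun x => pr (f x) (g x) := by
  unfold pr
  exact Primrec.nat_add.comp (Primrec.nat_mul.comp (Primrec.nat_add.comp hf hg)
    (Primrec.nat_add.comp hf hg)) hf

theorem p_neg (hf : Primrec f) : Primrec fun x => cNeg (f x) := p_pr (Primrec.const 3) hf
theorem p_and (hf : Primrec f) (hg : Primrec g) : Primrec fun x => cAnd (f x) (g x) :=
  p_pr (Primrec.const 4) (p_pr hf hg)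
theorem p_all (hf : Primrec f) (hg : Primrec g) : Primrec fun x => cAll (f x) (g x) :=
  p_pr (Primrec.const 5) (p_pr hf hg)
theorem p_allS (hf : Primrec f) (hg : Primrec g) : Primrec fun x => cAllS (f x) (g x) :=
  p_pr (Primrec.const 6) (p_pr hf hg)
theorem p_imp (hf : Primrec f) (hg : Primrec g) : Primrec fun x => cImp (f x) (g x) :=
  p_neg (p_and hf (p_neg hg))
theorem p_iff (hf : Primrec f) (hg : Primrec g) : Primrec fun x => cIff (f x) (g x) :=
  p_and (p_imp hf hg) (p_imp hg hf)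
theorem p_exS (hf : Primrec f) (hg : Primrec g) : Primrec fun x => cExS (f x) (g x) :=
  p_neg (p_allS hf (p_neg hg))
theorem p_mem (hf : Primrec f) (hg : Primrec g) : Primrec fun x => cMem (f x) (g x) :=
  p_pr (Primrec.const 2) (p_pr hf hg)
theorem p_var (hf : Primrec f) : Primrec fun x => cVar (f x) := p_pr (Primrec.const 0) hf
theorem p_add (hf : Primrec f) (hg : Primrec g) : Primrec fun x => cAdd (f x) (g x) :=
  p_pr (Primrec.const 3) (p_pr hf hg)
theorem p_mul (hf : Primrec f) (hg : Primrec g) : Primrec fun x => cMul (f x) (g x) :=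
  p_pr (Primrec.const 4) (p_pr hf hg)
theorem p_cPr (hf : Primrec f) (hg : Primrec g) : Primrec fun x => cPr (f x) (g x) :=
  p_add (p_mul (p_add hf hg) (p_add hf hg)) hf

theorem p_clN (hf : Primrec f) (hg : Primrec g) : Primrec fun x => clN (f x) (g x) := by
  have : Primrec fun x : α => (Nat.rec (g x) (fun j r => cAll j r) (f x) : ℕ) :=
    Primrec.nat_rec' hf hg
      (p_all (Primrec.fst.comp Primrec.snd) (Primrec.snd.comp Primrec.snd)).to₂
  exact this

theorem p_clS (hf : Primrec f) (hg : Primrec g) : Primrec fun x => clS (f x) (g x) := by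
  have : Primrec fun x : α => (Nat.rec (g x) (fun j r => cAllS j r) (f x) : ℕ) :=
    Primrec.nat_rec' hf hg
      (p_allS (Primrec.fst.comp Primrec.snd) (Primrec.snd.comp Primrec.snd)).to₂
  exact this

theorem p_cl (hf : Primrec f) : Primrec fun x => cl (f x) :=
  p_clN (Primrec.succ.comp hf) (p_clS (Primrec.succ.comp hf) hf)

theorem p_kComp (hf : Primrec f) (hg : Primrec g) : Primrec fun x => kComp (f x) (g x) :=
  p_exS (Primrec.succ.comp hf) (p_all hg (p_iff (p_mem (p_var hg) (Primrec.succ.comp hf)) hf))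

theorem p_fresh (hf : Primrec f) (hg : Primrec g) (hh : Primrec h) (he : Primrec e) :
    Primrec fun x => kFresh (f x) (g x) (h x) (e x) :=
  Primrec.succ.comp (Primrec.nat_add.comp (Primrec.nat_add.comp (Primrec.nat_add.comp hf hg) hh) he)

theorem p_sec (hf : Primrec f) (hg : Primrec g) (hh : Primrec h) :
    Primrec fun x => kSec (f x) (g x) (h x) :=
  p_all hh (p_iff (p_mem (p_var hh) hg) (p_mem (p_cPr (p_var hf) (p_var hh)) hh))

theorem p_kCh (hf : Primrec f) (hg : Primrec g) (hh : Primrec h) (he : Primrec e) :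
    Primrec fun x => kCh (f x) (g x) (h x) (e x) :=
  p_imp (p_all hg (p_exS hh (p_exS he hf))) (p_exS (p_fresh hf hg hh he) (p_all hg (p_exS hh
    (p_and (p_sec hg hh (p_fresh hf hg hh he)) (p_exS he hf)))))

end prim

/-! ### Goedel numbers of arithmetical formulas -/

/-- the formation rules; numbers `3 c`, `3 c + 1`, `3 c + 2` stand for the number `c`, the term with
the Goedel number `c` and the arithmetical formula with the Goedel number `c` -/
def Rule (a y z : ℕ) : Prop := y < a ∧ z < a ∧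
  ((y % 3 = 0 ∧ a = 3 * pr 0 (y / 3) + 1) ∨
   (y % 3 = 1 ∧ z % 3 = 1 ∧ (a = 3 * pr 3 (pr (y / 3) (z / 3)) + 1 ∨
      a = 3 * pr 4 (pr (y / 3) (z / 3)) + 1 ∨ a = 3 * pr 0 (pr (y / 3) (z / 3)) + 2 ∨
      a = 3 * pr 1 (pr (y / 3) (z / 3)) + 2)) ∨
   (y % 3 = 1 ∧ z % 3 = 0 ∧ a = 3 * pr 2 (pr (y / 3) (z / 3)) + 2) ∨
   (y % 3 = 2 ∧ a = 3 * pr 3 (y / 3) + 2) ∨
   (y % 3 = 2 ∧ z % 3 = 2 ∧ a = 3 * pr 4 (pr (y / 3) (z / 3)) + 2) ∨
   (y % 3 = 0 ∧ z % 3 = 2 ∧ a = 3 * pr 5 (pr (y / 3) (z / 3)) + 2))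

/-- the entry `a` of the list `w` is justified -/
def Ok (w : List ℕ) (a : ℕ) : Prop :=
  a % 3 = 0 ∨ a = 3 * pr 1 0 + 1 ∨ a = 3 * pr 2 0 + 1 ∨ ∃ y ∈ w, ∃ z ∈ w, Rule a y z

/-- all entries are justified -/
def Good (w : List ℕ) : Prop := ∀ a ∈ w, Ok w a

theorem Ok.mono {w w' : List ℕ} (h : ∀ x ∈ w, x ∈ w') {a : ℕ} (ha : Ok w a) : Ok w' a := by
  rcases ha with h1 | h1 | h1 | ⟨y, hy, z, hz, h1⟩
  · exact Or.inl h1
  · exact Or.inr (Or.inl h1)
  · exact Or.inr (Or.inr (Or.inl h1))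
  · exact Or.inr (Or.inr (Or.inr ⟨y, h y hy, z, h z hz, h1⟩))

theorem Good.cons {w : List ℕ} (h : Good w) {a : ℕ} (ha : Ok w a) : Good (a :: w) := by
  intro b hb
  rcases List.mem_cons.1 hb with rfl | hb
  · exact ha.mono fun x hx => List.mem_cons_of_mem _ hx
  · exact (h b hb).mono fun x hx => List.mem_cons_of_mem _ hx

theorem Good.append {w w' : List ℕ} (h : Good w) (h' : Good w') : Good (w ++ w') := by
  intro b hb
  rcases List.mem_append.1 hb with hb | hb
  · exact (h b hb).mono fun x hx => List.mem_append_left _ hx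
  · exact (h' b hb).mono fun x hx => List.mem_append_right _ hx

theorem good_term (t : Tm) : ∃ w, Good w ∧ 3 * t.code + 1 ∈ w := by
  have g0 : ∀ i, Good [3 * i] := fun i a ha => by
    rw [List.mem_singleton] at ha
    exact Or.inl (by omega)
  induction t with
  | var i =>
    refine ⟨(3 * pr 0 i + 1) :: [3 * i], (g0 i).cons ?_, List.mem_cons_self⟩
    have := le_pr_right 0 i
    refine Or.inr (Or.inr (Or.inr ⟨3 * i, by simp, 3 * i, by simp, by omega, by omega, Or.inl ?_⟩))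
    have e : 3 * i / 3 = i := by omega
    rw [e]
    exact ⟨by omega, rfl⟩
  | zero =>
    exact ⟨[3 * pr 1 0 + 1], fun a ha => by
      rw [List.mem_singleton] at ha; exact Or.inr (Or.inl ha), List.mem_cons_self⟩
  | one =>
    exact ⟨[3 * pr 2 0 + 1], fun a ha => by
      rw [List.mem_singleton] at ha; exact Or.inr (Or.inr (Or.inl ha)), List.mem_cons_self⟩
  | add s t hs ht =>
    obtain ⟨w, h1, h2⟩ := hs
    obtain ⟨w', h1', h2'⟩ := ht
    refine ⟨(3 * pr 3 (pr s.code t.code) + 1) :: (w ++ w'), (h1.append h1').cons ?_,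
      List.mem_cons_self⟩
    have e1 := le_pr_right 3 (pr s.code t.code)
    have e2 := le_pr_left s.code t.code
    have e3 := le_pr_right s.code t.code
    have e4 : (3 * s.code + 1) / 3 = s.code := by omega
    have e5 : (3 * t.code + 1) / 3 = t.code := by omega
    have e6 : 3 + pr s.code t.code ≤ (3 + pr s.code t.code) * (3 + pr s.code t.code) :=
      Nat.le_mul_self _
    have e7 : pr 3 (pr s.code t.code) =
      (3 + pr s.code t.code) * (3 + pr s.code t.code) + 3 := rfl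
    refine Or.inr (Or.inr (Or.inr ⟨3 * s.code + 1, List.mem_append_left _ h2, 3 * t.code + 1,
      List.mem_append_right _ h2', by omega, by omega, Or.inr (Or.inl ?_)⟩))
    rw [e4, e5]
    exact ⟨by omega, by omega, Or.inl rfl⟩
  | mul s t hs ht =>
    obtain ⟨w, h1, h2⟩ := hs
    obtain ⟨w', h1', h2'⟩ := ht
    refine ⟨(3 * pr 4 (pr s.code t.code) + 1) :: (w ++ w'), (h1.append h1').cons ?_,
      List.mem_cons_self⟩
    have e2 := le_pr_left s.code t.code
    have e3 := le_pr_right s.code t.code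
    have e4 : (3 * s.code + 1) / 3 = s.code := by omega
    have e5 : (3 * t.code + 1) / 3 = t.code := by omega
    have e6 : 4 + pr s.code t.code ≤ (4 + pr s.code t.code) * (4 + pr s.code t.code) :=
      Nat.le_mul_self _
    have e7 : pr 4 (pr s.code t.code) =
      (4 + pr s.code t.code) * (4 + pr s.code t.code) + 4 := rfl
    refine Or.inr (Or.inr (Or.inr ⟨3 * s.code + 1, List.mem_append_left _ h2, 3 * t.code + 1,
      List.mem_append_right _ h2', by omega, by omega, Or.inr (Or.inl ?_)⟩))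
    rw [e4, e5]
    exact ⟨by omega, by omega, Or.inr (Or.inl rfl)⟩

theorem good_fm (φ : Fm) (hφ : φ.Arithmetical) : ∃ w, Good w ∧ 3 * φ.code + 2 ∈ w := by
  have g0 : ∀ i, Good [3 * i] := fun i a ha => by
    rw [List.mem_singleton] at ha
    exact Or.inl (by omega)
  induction φ with
  | eq s t =>
    obtain ⟨w, h1, h2⟩ := good_term s
    obtain ⟨w', h1', h2'⟩ := good_term t
    refine ⟨(3 * pr 0 (pr s.code t.code) + 2) :: (w ++ w'), (h1.append h1').cons ?_,
      List.mem_cons_self⟩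
    have e1 := le_pr_right 0 (pr s.code t.code)
    have e2 := le_pr_left s.code t.code
    have e3 := le_pr_right s.code t.code
    have e4 : (3 * s.code + 1) / 3 = s.code := by omega
    have e5 : (3 * t.code + 1) / 3 = t.code := by omega
    refine Or.inr (Or.inr (Or.inr ⟨3 * s.code + 1, List.mem_append_left _ h2, 3 * t.code + 1,
      List.mem_append_right _ h2', by omega, by omega, Or.inr (Or.inl ?_)⟩))
    rw [e4, e5]
    exact ⟨by omega, by omega, Or.inr (Or.inr (Or.inl rfl))⟩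
  | lt s t =>
    obtain ⟨w, h1, h2⟩ := good_term s
    obtain ⟨w', h1', h2'⟩ := good_term t
    refine ⟨(3 * pr 1 (pr s.code t.code) + 2) :: (w ++ w'), (h1.append h1').cons ?_,
      List.mem_cons_self⟩
    have e1 := le_pr_right 1 (pr s.code t.code)
    have e2 := le_pr_left s.code t.code
    have e3 := le_pr_right s.code t.code
    have e4 : (3 * s.code + 1) / 3 = s.code := by omega
    have e5 : (3 * t.code + 1) / 3 = t.code := by omega
    refine Or.inr (Or.inr (Or.inr ⟨3 * s.code + 1, List.mem_append_left _ h2, 3 * t.code + 1,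
      List.mem_append_right _ h2', by omega, by omega, Or.inr (Or.inl ?_)⟩))
    rw [e4, e5]
    exact ⟨by omega, by omega, Or.inr (Or.inr (Or.inr rfl))⟩
  | mem t j =>
    obtain ⟨w, h1, h2⟩ := good_term t
    refine ⟨(3 * pr 2 (pr t.code j) + 2) :: (w ++ [3 * j]), (h1.append (g0 j)).cons ?_,
      List.mem_cons_self⟩
    have e1 := le_pr_right 2 (pr t.code j)
    have e2 := le_pr_left t.code j
    have e3 := le_pr_right t.code j
    have e4 : (3 * t.code + 1) / 3 = t.code := by omega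
    have e5 : (3 * j) / 3 = j := by omega
    refine Or.inr (Or.inr (Or.inr ⟨3 * t.code + 1, List.mem_append_left _ h2, 3 * j,
      List.mem_append_right _ (by simp), by omega, by omega, Or.inr (Or.inr (Or.inl ?_))⟩))
    rw [e4, e5]
    exact ⟨by omega, by omega, rfl⟩
  | neg φ ih =>
    obtain ⟨w, h1, h2⟩ := ih hφ
    refine ⟨(3 * pr 3 φ.code + 2) :: w, h1.cons ?_, List.mem_cons_self⟩
    have e4 : (3 * φ.code + 2) / 3 = φ.code := by omega
    have e6 : 3 + φ.code ≤ (3 + φ.code) * (3 + φ.code) := Nat.le_mul_self _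
    have e7 : pr 3 φ.code = (3 + φ.code) * (3 + φ.code) + 3 := rfl
    refine Or.inr (Or.inr (Or.inr ⟨3 * φ.code + 2, h2, 3 * φ.code + 2, h2, by omega, by omega,
      Or.inr (Or.inr (Or.inr (Or.inl ?_)))⟩))
    rw [e4]
    exact ⟨by omega, rfl⟩
  | and φ ψ ih1 ih2 =>
    obtain ⟨w, h1, h2⟩ := ih1 hφ.1
    obtain ⟨w', h1', h2'⟩ := ih2 hφ.2
    refine ⟨(3 * pr 4 (pr φ.code ψ.code) + 2) :: (w ++ w'), (h1.append h1').cons ?_,
      List.mem_cons_self⟩
    have e2 := le_pr_left φ.code ψ.code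
    have e3 := le_pr_right φ.code ψ.code
    have e4 : (3 * φ.code + 2) / 3 = φ.code := by omega
    have e5 : (3 * ψ.code + 2) / 3 = ψ.code := by omega
    have e6 : 4 + pr φ.code ψ.code ≤ (4 + pr φ.code ψ.code) * (4 + pr φ.code ψ.code) :=
      Nat.le_mul_self _
    have e7 : pr 4 (pr φ.code ψ.code) =
      (4 + pr φ.code ψ.code) * (4 + pr φ.code ψ.code) + 4 := rfl
    refine Or.inr (Or.inr (Or.inr ⟨3 * φ.code + 2, List.mem_append_left _ h2, 3 * ψ.code + 2,
      List.mem_append_right _ h2', by omega, by omega,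
      Or.inr (Or.inr (Or.inr (Or.inr (Or.inl ?_))))⟩))
    rw [e4, e5]
    exact ⟨by omega, by omega, rfl⟩
  | all i φ ih =>
    obtain ⟨w, h1, h2⟩ := ih hφ
    refine ⟨(3 * pr 5 (pr i φ.code) + 2) :: (w ++ [3 * i]), (h1.append (g0 i)).cons ?_,
      List.mem_cons_self⟩
    have e2 := le_pr_left i φ.code
    have e3 := le_pr_right i φ.code
    have e4 : (3 * φ.code + 2) / 3 = φ.code := by omega
    have e5 : (3 * i) / 3 = i := by omega
    have e6 : 5 + pr i φ.code ≤ (5 + pr i φ.code) * (5 + pr i φ.code) := Nat.le_mul_self _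
    have e7 : pr 5 (pr i φ.code) = (5 + pr i φ.code) * (5 + pr i φ.code) + 5 := rfl
    refine Or.inr (Or.inr (Or.inr ⟨3 * i, List.mem_append_right _ (by simp), 3 * φ.code + 2,
      List.mem_append_left _ h2, by omega, by omega,
      Or.inr (Or.inr (Or.inr (Or.inr (Or.inr ?_))))⟩))
    rw [e4, e5]
    exact ⟨by omega, by omega, rfl⟩
  | allS i φ ih => exact hφ.elim

theorem sound {w : List ℕ} (hw : Good w) : ∀ a ∈ w, (a % 3 = 1 → ∃ t : Tm, t.code = a / 3) ∧
    (a % 3 = 2 → ∃ φ : Fm, φ.Arithmetical ∧ φ.code = a / 3) := by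
  intro a
  induction a using Nat.strong_induction_on with
  | _ a ih =>
    intro ha
    rcases hw a ha with h | h | h | ⟨y, hy, z, hz, hya, hza, h⟩
    · exact ⟨fun h' => by omega, fun h' => by omega⟩
    · exact ⟨fun _ => ⟨.zero, by simp only [Tm.code]; omega⟩, fun h' => by omega⟩
    · exact ⟨fun _ => ⟨.one, by simp only [Tm.code]; omega⟩, fun h' => by omega⟩
    · rcases h with ⟨_, h⟩ | ⟨h1, h2, h⟩ | ⟨h1, _, h⟩ | ⟨h1, h⟩ | ⟨h1, h2, h⟩ | ⟨_, h2, h⟩
      · exact ⟨fun _ => ⟨.var (y / 3), by simp only [Tm.code]; omega⟩, fun h' => by omega⟩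
      · obtain ⟨s, hs⟩ := (ih y hya hy).1 h1
        obtain ⟨t, ht⟩ := (ih z hza hz).1 h2
        rcases h with h | h | h | h
        · exact ⟨fun _ => ⟨.add s t, by simp only [Tm.code, hs, ht]; omega⟩, fun h' => by omega⟩
        · exact ⟨fun _ => ⟨.mul s t, by simp only [Tm.code, hs, ht]; omega⟩, fun h' => by omega⟩
        · exact ⟨fun h' => by omega, fun _ => ⟨.eq s t, trivial, by
            simp only [Fm.code, hs, ht]; omega⟩⟩
        · exact ⟨fun h' => by omega, fun _ => ⟨.lt s t, trivial, by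
            simp only [Fm.code, hs, ht]; omega⟩⟩
      · obtain ⟨s, hs⟩ := (ih y hya hy).1 h1
        exact ⟨fun h' => by omega, fun _ => ⟨.mem s (z / 3), trivial, by
            simp only [Fm.code, hs]; omega⟩⟩
      · obtain ⟨φ, hφ, hc⟩ := (ih y hya hy).2 h1
        exact ⟨fun h' => by omega, fun _ => ⟨.neg φ, hφ, by
            simp only [Fm.code, hc]; omega⟩⟩
      · obtain ⟨φ, hφ, hc⟩ := (ih y hya hy).2 h1
        obtain ⟨ψ, hψ, hd⟩ := (ih z hza hz).2 h2
        exact ⟨fun h' => by omega, fun _ => ⟨.and φ ψ, ⟨hφ, hψ⟩, by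
            simp only [Fm.code, hc, hd]; omega⟩⟩
      · obtain ⟨φ, hφ, hc⟩ := (ih z hza hz).2 h2
        exact ⟨fun h' => by omega, fun _ => ⟨.all (y / 3) φ, hφ, by
            simp only [Fm.code, hc]; omega⟩⟩

theorem arith_iff (c : ℕ) : (∃ φ : Fm, φ.Arithmetical ∧ φ.code = c) ↔
    ∃ w, Good w ∧ 3 * c + 2 ∈ w := by
  constructor
  · rintro ⟨φ, hφ, rfl⟩
    exact good_fm φ hφ
  · rintro ⟨w, hw, hc⟩
    have := (sound hw _ hc).2 (by omega)
    have e : (3 * c + 2) / 3 = c := by omega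
    rwa [e] at this

section prim2

variable {α : Type*} [Primcodable α] {f g h : α → ℕ}

theorem p_three (hf : Primrec f) (r : ℕ) : Primrec fun x => 3 * f x + r :=
  Primrec.nat_add.comp (Primrec.nat_mul.comp (Primrec.const 3) hf) (Primrec.const r)

theorem p_rule (hf : Primrec f) (hg : Primrec g) (hh : Primrec h) :
    PrimrecPred fun x => Rule (f x) (g x) (h x) := by
  have mg : Primrec fun x => g x % 3 := Primrec.nat_mod.comp hg (Primrec.const 3)
  have mh : Primrec fun x => h x % 3 := Primrec.nat_mod.comp hh (Primrec.const 3)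
  have dg : Primrec fun x => g x / 3 := Primrec.nat_div.comp hg (Primrec.const 3)
  have dh : Primrec fun x => h x / 3 := Primrec.nat_div.comp hh (Primrec.const 3)
  have e : ∀ (k : α → ℕ) (n : ℕ), Primrec k → PrimrecPred fun x => k x = n := fun k n hk =>
    pp_eq hk (Primrec.const n)
  have q : ∀ (k : α → ℕ) (r : ℕ), Primrec k → PrimrecPred fun x => f x = 3 * k x + r :=
    fun k r hk => pp_eq hf (p_three hk r)
  unfold Rule
  refine PrimrecPred.and (Primrec.nat_lt.comp hg hf) (PrimrecPred.and (Primrec.nat_lt.comp hh hf) ?_)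
  refine PrimrecPred.or ((e _ 0 mg).and (q _ 1 (p_pr (Primrec.const 0) dg))) ?_
  refine PrimrecPred.or ((e _ 1 mg).and ((e _ 1 mh).and ?_)) ?_
  · refine PrimrecPred.or (q _ 1 (p_pr (Primrec.const 3) (p_pr dg dh))) ?_
    refine PrimrecPred.or (q _ 1 (p_pr (Primrec.const 4) (p_pr dg dh))) ?_
    exact PrimrecPred.or (q _ 2 (p_pr (Primrec.const 0) (p_pr dg dh)))
      (q _ 2 (p_pr (Primrec.const 1) (p_pr dg dh)))
  refine PrimrecPred.or ((e _ 1 mg).and ((e _ 0 mh).and
    (q _ 2 (p_pr (Primrec.const 2) (p_pr dg dh))))) ?_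
  refine PrimrecPred.or ((e _ 2 mg).and (q _ 2 (p_pr (Primrec.const 3) dg))) ?_
  exact PrimrecPred.or ((e _ 2 mg).and ((e _ 2 mh).and
    (q _ 2 (p_pr (Primrec.const 4) (p_pr dg dh))))) ((e _ 0 mg).and ((e _ 2 mh).and
    (q _ 2 (p_pr (Primrec.const 5) (p_pr dg dh)))))

theorem p_good {w : α → List ℕ} (hw : Primrec w) : PrimrecPred fun x => Good (w x) := by
  unfold Good
  refine pp_ball (R := fun x a => Ok (w x) a) hw ?_
  have h1 : Primrec fun x : α × ℕ => w x.1 := hw.comp Primrec.fst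
  have h2 : Primrec fun x : α × ℕ => x.2 := Primrec.snd
  unfold Ok
  refine PrimrecPred.or (pp_eq (Primrec.nat_mod.comp h2 (Primrec.const 3)) (Primrec.const 0)) ?_
  refine PrimrecPred.or (pp_eq h2 (Primrec.const _)) ?_
  refine PrimrecPred.or (pp_eq h2 (Primrec.const _)) ?_
  refine pp_bex (R := fun (x : α × ℕ) y => ∃ z ∈ w x.1, Rule x.2 y z) h1 ?_
  refine pp_bex (R := fun (x : (α × ℕ) × ℕ) z => Rule x.1.2 x.2 z) (h1.comp Primrec.fst) ?_
  exact p_rule (h2.comp (Primrec.fst.comp Primrec.fst)) (Primrec.snd.comp Primrec.fst) Primrec.snd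

theorem p_memL {w : α → List ℕ} (hw : Primrec w) (hf : Primrec f) :
    PrimrecPred fun x => f x ∈ w x := by
  have : PrimrecPred fun x => ∃ b ∈ w x, b = f x :=
    pp_bex (R := fun x b => b = f x) hw (pp_eq Primrec.snd (hf.comp Primrec.fst))
  refine this.of_eq fun x => ?_
  simp

end prim2

/-- The Goedel numbers of `Th` with finitely many further sentences. -/
theorem th_re (F : List Fm) :
    REPred fun n => ∃ ψ ∈ Th ∪ {ψ | ψ ∈ F}, ψ.code = n := by
  have key : REPred fun n : ℕ => ∃ q : List ℕ × ℕ × ℕ × ℕ × ℕ,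
      n ∈ (base.map fun φ => cl φ.code) ++ F.map Fm.code ∨
      ((Good q.1 ∧ 3 * q.2.1 + 2 ∈ q.1) ∧ (n = cl (kComp q.2.1 q.2.2.1) ∨
        n = cl (kCh q.2.1 q.2.2.1 q.2.2.2.1 q.2.2.2.2))) := by
    refine re_exists (R := fun (n : ℕ) (q : List ℕ × ℕ × ℕ × ℕ × ℕ) =>
      n ∈ (base.map fun φ => cl φ.code) ++ F.map Fm.code ∨
      ((Good q.1 ∧ 3 * q.2.1 + 2 ∈ q.1) ∧ (n = cl (kComp q.2.1 q.2.2.1) ∨
        n = cl (kCh q.2.1 q.2.2.1 q.2.2.2.1 q.2.2.2.2)))) ?_
    have hn : Primrec fun x : ℕ × List ℕ × ℕ × ℕ × ℕ × ℕ => x.1 := Primrec.fst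
    have hw : Primrec fun x : ℕ × List ℕ × ℕ × ℕ × ℕ × ℕ => x.2.1 := Primrec.fst.comp Primrec.snd
    have hr : Primrec fun x : ℕ × List ℕ × ℕ × ℕ × ℕ × ℕ => x.2.2 := Primrec.snd.comp Primrec.snd
    have hc : Primrec fun x : ℕ × List ℕ × ℕ × ℕ × ℕ × ℕ => x.2.2.1 := Primrec.fst.comp hr
    have hr2 : Primrec fun x : ℕ × List ℕ × ℕ × ℕ × ℕ × ℕ => x.2.2.2 := Primrec.snd.comp hr
    have hi : Primrec fun x : ℕ × List ℕ × ℕ × ℕ × ℕ × ℕ => x.2.2.2.1 := Primrec.fst.comp hr2
    have hr3 : Primrec fun x : ℕ × List ℕ × ℕ × ℕ × ℕ × ℕ => x.2.2.2.2 := Primrec.snd.comp hr2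
    have hj : Primrec fun x : ℕ × List ℕ × ℕ × ℕ × ℕ × ℕ => x.2.2.2.2.1 := Primrec.fst.comp hr3
    have hm : Primrec fun x : ℕ × List ℕ × ℕ × ℕ × ℕ × ℕ => x.2.2.2.2.2 := Primrec.snd.comp hr3
    refine PrimrecPred.or (p_memL (Primrec.const _) hn) (PrimrecPred.and (PrimrecPred.and
      (p_good hw) (p_memL hw (p_three hc 2))) (PrimrecPred.or (pp_eq hn (p_cl (p_kComp hc hi)))
      (pp_eq hn (p_cl (p_kCh hc hi hj hm)))))
  refine key.of_eq fun n => ?_
  constructor
  · rintro ⟨⟨w, c, i, j, m⟩, h | ⟨⟨h1, h2⟩, h3⟩⟩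
    · rcases List.mem_append.1 h with h | h
      · obtain ⟨φ, hφ, rfl⟩ := List.mem_map.1 h
        exact ⟨clos (φ.code + 1) φ, Or.inl ⟨φ, Ax.base φ hφ, rfl⟩, code_clos φ⟩
      · obtain ⟨φ, hφ, rfl⟩ := List.mem_map.1 h
        exact ⟨φ, Or.inr hφ, rfl⟩
    · obtain ⟨φ, hφ, hc⟩ := (arith_iff c).2 ⟨w, h1, h2⟩
      have hc' : φ.code = c := hc
      subst hc'
      rcases h3 with h3 | h3
      · refine ⟨clos ((compAx φ i).code + 1) (compAx φ i), Or.inl ⟨_, Ax.comp φ i hφ, rfl⟩, ?_⟩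
        rw [code_clos, code_compAx]
        exact h3.symm
      · refine ⟨clos ((chAx φ i j m).code + 1) (chAx φ i j m),
          Or.inl ⟨_, Ax.choice φ i j m hφ, rfl⟩, ?_⟩
        rw [code_clos, code_chAx]
        exact h3.symm
  · rintro ⟨ψ, h | h, rfl⟩
    · obtain ⟨φ, hφ, rfl⟩ := h
      cases hφ with
      | base _ h =>
        refine ⟨([], 0, 0, 0, 0), Or.inl (List.mem_append_left _ (List.mem_map.2 ⟨φ, h, ?_⟩))⟩
        exact (code_clos φ).symm
      | comp φ i h =>
        obtain ⟨w, h1, h2⟩ := (arith_iff _).1 ⟨φ, h, rfl⟩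
        refine ⟨(w, φ.code, i, 0, 0), Or.inr ⟨⟨h1, h2⟩, Or.inl ?_⟩⟩
        rw [code_clos, code_compAx]
      | choice θ i j m h =>
        obtain ⟨w, h1, h2⟩ := (arith_iff _).1 ⟨θ, h, rfl⟩
        refine ⟨(w, θ.code, i, j, m), Or.inr ⟨⟨h1, h2⟩, Or.inr ?_⟩⟩
        rw [code_clos, code_chAx]
    · exact ⟨([], 0, 0, 0, 0), Or.inl (List.mem_append_right _ (List.mem_map.2 ⟨ψ, h, rfl⟩))⟩

end Pool.Agent.V11211.SR
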