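import Pool.Agent.V11211.MM4

set_option autoImplicit false

namespace V11211.MM

/-- the lists which are paths from `(a,!b)` in the ladder minus `(a,b)` -/
def Valid (a : ℤ) (b : Bool) (l : List LV) : Prop :=
  l.Nodup ∧ l.IsChain (ladder.deleteIncidenceSet (a, b)).Adj ∧ l.getLast? = some (a, !b)

variable {a : ℤ} {b : Bool}

theorem valid_tail {w x : LV} {rest : List LV} (h : Valid a b (w :: x :: rest)) :
    Valid a b (x :: rest) := by
  obtain ⟨h1, h2, h3⟩ := h
  refine ⟨(List.nodup_cons.1 h1).2, ?_, ?_⟩
  · rw [List.isChain_cons_cons] at h2; exact h2.2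
  · rwa [List.getLast?_cons_cons] at h3

theorem valid_adj {w x : LV} {rest : List LV} (h : Valid a b (w :: x :: rest)) :
    ladder.Adj w x ∧ w ≠ (a, b) ∧ x ≠ (a, b) ∧ w ∉ x :: rest := by
  obtain ⟨h1, h2, h3⟩ := h
  rw [List.isChain_cons_cons] at h2
  have h4 := h2.1
  rw [SimpleGraph.deleteIncidenceSet_adj] at h4
  exact ⟨h4.1, h4.2.1, h4.2.2, (List.nodup_cons.1 h1).1⟩

theorem valid_cons {w x : LV} {rest : List LV} (h : Valid a b (x :: rest))
    (h1 : ladder.Adj w x) (h2 : w ≠ (a, b)) (h2' : x ≠ (a, b)) (h3 : w ∉ x :: rest) :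
    Valid a b (w :: x :: rest) := by
  refine ⟨List.nodup_cons.2 ⟨h3, h.1⟩, ?_, ?_⟩
  · rw [List.isChain_cons_cons]
    refine ⟨?_, h.2.1⟩
    rw [SimpleGraph.deleteIncidenceSet_adj]
    exact ⟨h1, h2, h2'⟩
  · rw [List.getLast?_cons_cons]; exact h.2.2

theorem inv_st : ∀ (l : List LV) (x : ℤ) (s : Bool), Valid a b ((x, s) :: l) →
    Inv a b ((x, s) :: l) x s (st a ((x, s) :: l)) := by
  intro l
  induction l with
  | nil =>
    intro x s h
    have h3 := h.2.2
    simp only [List.getLast?_singleton, Option.some.injEq, Prod.mk.injEq] at h3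
    obtain ⟨rfl, rfl⟩ := h3
    exact ⟨rfl, rfl, rfl⟩
  | cons y l ih =>
    obtain ⟨x0, s0⟩ := y
    intro x s h
    have hv := valid_tail h
    obtain ⟨hadj, hw, hx, hmem⟩ := valid_adj h
    have hI := ih x0 s0 hv
    have hx0 : ((x0, s0) : LV) ∈ (x0, s0) :: l := List.mem_cons_self
    rw [st]
    revert hI
    generalize st a ((x0, s0) :: l) = S
    obtain ⟨kd, k, g, p⟩ := S
    intro hI
    cases kd with
    | start =>
      obtain ⟨h1, rfl, rfl⟩ := hI
      simp only [List.cons.injEq, true_and] at h1
      subst h1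
      rcases nb_cases (σ := 1) (Or.inl rfl) hadj with e | e | e
      · simp only [Prod.mk.injEq] at e
        obtain ⟨rfl, rfl⟩ := e
        rw [mv_F x0 x0 1 _ _ (Or.inl rfl) (by simp)]
        exact start_F (Or.inl rfl)
      · simp only [Prod.mk.injEq] at e
        obtain ⟨rfl, rfl⟩ := e
        have e1 : x0 - 1 = x0 + (-1) := by ring
        rw [e1, mv_F x0 x0 (-1) _ _ (Or.inr rfl) (by simp)]
        exact start_F (Or.inr rfl)
      · exact absurd (by rw [e, Bool.not_not]) hw
    | ahead =>
      have hI' : AheadI a b ((x0, s0) :: l) x0 s0 k := hI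
      obtain ⟨σ, hσ, h1, h2, h3, h4, h5⟩ := hI
      have hpos : 1 ≤ σ * (x0 - a) := by have : (0:ℤ) ≤ k := Int.natCast_nonneg k; simp only at h1; omega
      rcases nb_cases hσ hadj with e | e | e
      · simp only [Prod.mk.injEq] at e
        obtain ⟨rfl, rfl⟩ := e
        rw [mv_F a x0 σ _ _ hσ (by omega)]
        exact ahead_F hx0 hσ h1 h2 h3 h4 h5
      · have := h3 1 le_rfl (by simp)
        rw [one_mul, ← e] at this
        exact absurd this hmem
      · simp only [Prod.mk.injEq] at e
        obtain ⟨rfl, rfl⟩ := e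
        rw [mv_V]
        exact ahead_V hx0 hI'
    | turned =>
      obtain ⟨σ, hσ, h1, h2, h3, h4, h5⟩ := hI
      have hpos : 1 ≤ σ * (x0 - a) := by have : (0:ℤ) ≤ k := Int.natCast_nonneg k; simp only at h1; omega
      rcases nb_cases hσ hadj with e | e | e
      · simp only [Prod.mk.injEq] at e
        obtain ⟨rfl, rfl⟩ := e
        rw [mv_F a x0 σ _ _ hσ (by omega)]
        have h30 := h3 0 le_rfl (by positivity)
        rw [zero_mul, sub_zero] at h30
        have : next ⟨Kd.turned, k, g, p⟩ Mv.F = ⟨Kd.ahead, 0, 0, g⟩ := by cases k <;> rfl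
        rw [this]
        exact turned_F hx0 hσ h1 h2 h30
      · cases k with
        | zero =>
          have h5' : ((x0 - σ, s0) : LV) ∈ (x0, s0) :: l ∨ ((x0 - σ, s0) : LV) = (a, b) := by
            simpa using h5
          rcases h5' with h5' | h5'
          · rw [← e] at h5'; exact absurd h5' hmem
          · rw [← e] at h5'; exact absurd h5' hw
        | succ k =>
          simp only [Prod.mk.injEq] at e
          obtain ⟨rfl, rfl⟩ := e
          rw [mv_B a x0 σ _ _ hσ hpos]
          exact back_B hx0 hσ h1 h3 h4 h5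
      · have h30 := h3 0 le_rfl (by positivity)
        rw [zero_mul, sub_zero, ← e] at h30
        exact absurd h30 hmem
    | back =>
      obtain ⟨σ, hσ, h1, h0, h3, h4, h5⟩ := hI
      have hpos : 1 ≤ σ * (x0 - a) := by have : (0:ℤ) ≤ k := Int.natCast_nonneg k; simp only at h1; omega
      rcases nb_cases hσ hadj with e | e | e
      · rw [← e] at h0; exact absurd h0 hmem
      · cases k with
        | zero =>
          have h5' : ((x0 - σ, s0) : LV) ∈ (x0, s0) :: l ∨ ((x0 - σ, s0) : LV) = (a, b) := by
            simpa using h5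
          rcases h5' with h5' | h5'
          · rw [← e] at h5'; exact absurd h5' hmem
          · rw [← e] at h5'; exact absurd h5' hw
        | succ k =>
          simp only [Prod.mk.injEq] at e
          obtain ⟨rfl, rfl⟩ := e
          rw [mv_B a x0 σ _ _ hσ hpos]
          exact back_B hx0 hσ h1 h3 h4 h5
      · have h30 := h3 0 le_rfl (by positivity)
        rw [zero_mul, sub_zero, ← e] at h30
        exact absurd h30 hmem
    | bad => exact hI.elim

theorem valid_ne {x : LV} {l : List LV} (h : Valid a b (x :: l)) : x ≠ (a, b) := by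
  cases l with
  | nil =>
    have h3 := h.2.2
    simp only [List.getLast?_singleton, Option.some.injEq] at h3
    rw [h3]
    intro e
    simp only [Prod.mk.injEq, true_and] at e
    exact Bool.not_ne_self b e
  | cons y l => exact (valid_adj h).2.1

open Classical in
/-- value of a list, zero when it is not a path -/
noncomputable def val (a : ℤ) (b : Bool) (l : List LV) : ℝ :=
  if Valid a b l then (st a l).g else 0

theorem adj_F (x σ : ℤ) (s : Bool) (hσ : σ = 1 ∨ σ = -1) : ladder.Adj (x + σ, s) (x, s) := by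
  left
  refine ⟨rfl, ?_⟩
  rcases hσ with rfl | rfl
  · right; rfl
  · left; simp

theorem adj_B (x σ : ℤ) (s : Bool) (hσ : σ = 1 ∨ σ = -1) : ladder.Adj (x - σ, s) (x, s) := by
  left
  refine ⟨rfl, ?_⟩
  rcases hσ with rfl | rfl
  · left; simp
  · right; simp

theorem adj_V (x : ℤ) (s : Bool) : ladder.Adj (x, !s) (x, s) := by
  right
  exact ⟨rfl, Bool.not_ne_self s⟩

open Classical in
/-- sum over the children -/
theorem children_sum {x : ℤ} {s : Bool} {l : List LV} (h : Valid a b ((x, s) :: l)) :
    val a b ((x + 1, s) :: (x, s) :: l) + val a b ((x - 1, s) :: (x, s) :: l) +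
      val a b ((x, !s) :: (x, s) :: l) = -(st a ((x, s) :: l)).p := by
  have hI := inv_st l x s h
  have hP := Par_st a ((x, s) :: l)
  have hne := valid_ne h
  -- reduce to a sum over σ
  have hval : ∀ w : LV, val a b (w :: (x, s) :: l) =
      if Valid a b (w :: (x, s) :: l) then (next (st a ((x, s) :: l)) (mv a (x, s) w)).g
        else 0 := fun w => rfl
  have hsum : ∀ σ : ℤ, (σ = 1 ∨ σ = -1) →
      val a b ((x + 1, s) :: (x, s) :: l) + val a b ((x - 1, s) :: (x, s) :: l) =
      val a b ((x + σ, s) :: (x, s) :: l) + val a b ((x - σ, s) :: (x, s) :: l) := by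
    intro σ hσ
    rcases hσ with rfl | rfl
    · rfl
    · rw [add_comm, sub_neg_eq_add, ← sub_eq_add_neg]
  revert hI hP hval
  generalize st a ((x, s) :: l) = S
  obtain ⟨kd, k, g, p⟩ := S
  intro hI hP hval
  cases kd with
  | start =>
    obtain ⟨h1, rfl, rfl⟩ := hI
    rw [hval, hval, hval, mv_F x x 1 _ _ (Or.inl rfl) (by simp),
      show x - 1 = x + (-1) by ring, mv_F x x (-1) _ _ (Or.inr rfl) (by simp), mv_V]
    have : p = 0 := hP.1
    simp [next, badS, this]
  | ahead =>
    obtain ⟨σ, hσ, h1, h2, h3, h4, h5⟩ := hI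
    simp only at h1 h3 h4 h5
    have hpos : 1 ≤ σ * (x - a) := by have : (0:ℤ) ≤ k := Int.natCast_nonneg k; omega
    have hss : σ * σ = 1 := by rcases hσ with rfl | rfl <;> rfl
    rw [hsum σ hσ, hval, hval, hval, mv_F a x σ _ _ hσ (by omega), mv_B a x σ _ _ hσ hpos, mv_V]
    have v1 : Valid a b ((x + σ, s) :: (x, s) :: l) := by
      refine valid_cons h (adj_F x σ s hσ) ?_ hne ?_
      · intro e
        simp only [Prod.mk.injEq] at e
        rcases hσ with rfl | rfl <;> omega
      · intro hm
        have := h2 _ _ hm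
        rw [show σ * (x + σ - a) = σ * (x - a) + σ * σ by ring, hss] at this
        omega
    have v2 : Valid a b ((x, !s) :: (x, s) :: l) := by
      refine valid_cons h (adj_V x s) ?_ hne ?_
      · intro e
        simp only [Prod.mk.injEq] at e
        rcases hσ with rfl | rfl <;> omega
      · have := h4 0 le_rfl (by positivity)
        rwa [zero_mul, sub_zero] at this
    rw [if_pos v1, if_pos v2]
    simp only [next, badS, ite_self]
    ring
  | turned =>
    obtain ⟨σ, hσ, h1, h2, h3, h4, h5⟩ := hI
    simp only at h1 h3 h4 h5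
    have hpos : 1 ≤ σ * (x - a) := by have : (0:ℤ) ≤ k := Int.natCast_nonneg k; omega
    have hss : σ * σ = 1 := by rcases hσ with rfl | rfl <;> rfl
    rw [hsum σ hσ, hval, hval, hval, mv_F a x σ _ _ hσ (by omega), mv_B a x σ _ _ hσ hpos, mv_V]
    cases k with
    | zero =>
      have : p = 0 := hP.2 ⟨0, rfl⟩
      simp [next, badS, this]
    | succ k =>
      have v1 : Valid a b ((x - σ, s) :: (x, s) :: l) := by
        refine valid_cons h (adj_B x σ s hσ) ?_ hne ?_
        · intro e
          simp only [Prod.mk.injEq] at e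
          push_cast at h1
          rcases hσ with rfl | rfl <;> omega
        · have := h4 1 le_rfl (by push_cast; omega)
          rwa [one_mul] at this
      rw [if_pos v1]
      simp [next, badS]
  | back =>
    obtain ⟨σ, hσ, h1, h0, h3, h4, h5⟩ := hI
    simp only at h1 h3 h4 h5
    have hpos : 1 ≤ σ * (x - a) := by have : (0:ℤ) ≤ k := Int.natCast_nonneg k; omega
    have hss : σ * σ = 1 := by rcases hσ with rfl | rfl <;> rfl
    rw [hsum σ hσ, hval, hval, hval, mv_F a x σ _ _ hσ (by omega), mv_B a x σ _ _ hσ hpos, mv_V]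
    cases k with
    | zero =>
      have : p = 0 := hP.1 ⟨0, rfl⟩
      simp [next, badS, this]
    | succ k =>
      have v1 : Valid a b ((x - σ, s) :: (x, s) :: l) := by
        refine valid_cons h (adj_B x σ s hσ) ?_ hne ?_
        · intro e
          simp only [Prod.mk.injEq] at e
          push_cast at h1
          rcases hσ with rfl | rfl <;> omega
        · have := h4 1 le_rfl (by push_cast; omega)
          rwa [one_mul] at this
      rw [if_pos v1]
      simp [next, badS]
  | bad => exact hI.elim

/-- the parent -/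
theorem parent_val {x : ℤ} {s : Bool} {l : List LV} (h : Valid a b ((x, s) :: l)) :
    val a b l = (st a ((x, s) :: l)).p := by
  cases l with
  | nil =>
    have : ¬ Valid a b ([] : List LV) := fun h => by simpa using h.2.2
    rw [val, if_neg this]
    rfl
  | cons y l =>
    have hv := valid_tail h
    rw [val, if_pos hv]
    have hI := inv_st (y :: l) x s h
    have hb : (st a ((x, s) :: y :: l)).kd ≠ Kd.bad := by
      intro e
      unfold Inv at hI
      rw [e] at hI
      exact hI
    rw [st] at hb ⊢
    exact (next_p _ _ hb (Par_st a _)).symm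

end V11211.MM
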