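import Pool.Agent.V11211.MM2
import Pool.Agent.V11211.MM5

set_option autoImplicit false

open scoped ENNReal

namespace V11211.MM

variable {a : ℤ} {b : Bool}

theorem energy_nb {x : ℤ} {s : Bool} {l : List LV} (h : Valid a b ((x, s) :: l)) :
    (st a ((x, s) :: l)).g ^ 2 + Cst (st a ((x + 1, s) :: (x, s) :: l)) +
      Cst (st a ((x - 1, s) :: (x, s) :: l)) + Cst (st a ((x, !s) :: (x, s) :: l)) ≤
      Cst (st a ((x, s) :: l)) := by
  have hI := inv_st l x s h
  have hbg := bad_g a ((x, s) :: l)
  have hP := Par_st a ((x, s) :: l)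
  have hst : ∀ w : LV, st a (w :: (x, s) :: l) = next (st a ((x, s) :: l)) (mv a (x, s) w) :=
    fun w => rfl
  rw [hst, hst, hst]
  revert hI hbg hP
  generalize st a ((x, s) :: l) = S
  obtain ⟨kd, k, g, p⟩ := S
  intro hI hbg hP
  have main : kd ≠ Kd.start → ∀ σ : ℤ, (σ = 1 ∨ σ = -1) → 1 ≤ σ * (x - a) →
      g ^ 2 + Cst (next ⟨kd, k, g, p⟩ (mv a (x, s) (x + 1, s))) +
      Cst (next ⟨kd, k, g, p⟩ (mv a (x, s) (x - 1, s))) +
      Cst (next ⟨kd, k, g, p⟩ (mv a (x, s) (x, !s))) ≤ Cst ⟨kd, k, g, p⟩ := by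
    intro hk σ hσ hpos
    have hE := energy_step ⟨kd, k, g, p⟩ hk hbg
    simp only at hE
    rw [mv_V]
    rcases hσ with rfl | rfl
    · rw [mv_F a x 1 s s (Or.inl rfl) (by omega), mv_B a x 1 s s (Or.inl rfl) hpos]
      linarith
    · have e1 : mv a (x, s) (x + 1, s) = Mv.B := by
        have := mv_B a x (-1) s s (Or.inr rfl) hpos
        rwa [sub_neg_eq_add] at this
      have e2 : mv a (x, s) (x - 1, s) = Mv.F := by
        have := mv_F a x (-1) s s (Or.inr rfl) (by omega)
        rwa [← sub_eq_add_neg] at this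
      rw [e1, e2]
      linarith
  cases kd with
  | start =>
    obtain ⟨h1, rfl, rfl⟩ := hI
    rw [mv_F x x 1 _ _ (Or.inl rfl) (by simp),
      show x - 1 = x + (-1) by ring, mv_F x x (-1) _ _ (Or.inr rfl) (by simp), mv_V]
    have hg : g = 1 := hP.2
    subst hg
    simp only [next, Cst, badS]
    norm_num
  | ahead =>
    obtain ⟨σ, hσ, h1, _⟩ := hI
    simp only at h1
    exact main (by simp) σ hσ (by have : (0:ℤ) ≤ k := Int.natCast_nonneg k; omega)
  | turned =>
    obtain ⟨σ, hσ, h1, _⟩ := hI
    simp only at h1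
    exact main (by simp) σ hσ (by have : (0:ℤ) ≤ k := Int.natCast_nonneg k; omega)
  | back =>
    obtain ⟨σ, hσ, h1, _⟩ := hI
    simp only at h1
    exact main (by simp) σ hσ (by have : (0:ℤ) ≤ k := Int.natCast_nonneg k; omega)
  | bad => exact hI.elim

theorem valid_of_append {w : LV} {l : List LV} : ∀ t : List LV, Valid a b (t ++ w :: l) →
    Valid a b (w :: l) := by
  intro t
  induction t with
  | nil => intro h; exact h
  | cons y t ih =>
    intro h
    apply ih
    cases t with
    | nil => exact valid_tail h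
    | cons z t => exact valid_tail h

theorem nb_three {x : ℤ} {s : Bool} {w : LV} (h : ladder.Adj w (x, s)) :
    w = (x + 1, s) ∨ w = (x - 1, s) ∨ w = (x, !s) :=
  nb_cases (σ := 1) (Or.inl rfl) h

theorem suffix_cases {x : ℤ} {s : Bool} {l P : List LV} (hP : Valid a b P)
    (h : ((x, s) :: l) <:+ P) : P = (x, s) :: l ∨ ((x + 1, s) :: (x, s) :: l) <:+ P ∨
      ((x - 1, s) :: (x, s) :: l) <:+ P ∨ ((x, !s) :: (x, s) :: l) <:+ P := by
  obtain ⟨t, rfl⟩ := h
  rcases List.eq_nil_or_concat t with rfl | ⟨t', w, rfl⟩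
  · left; rfl
  · right
    have hP' : Valid a b (t' ++ w :: (x, s) :: l) := by
      simpa [List.concat_eq_append, List.append_assoc] using hP
    have hv := valid_of_append t' hP'
    have hs : (w :: (x, s) :: l) <:+ (t'.concat w ++ (x, s) :: l) :=
      ⟨t', by simp [List.concat_eq_append, List.append_assoc]⟩
    rcases nb_three (valid_adj hv).1 with e | e | e
    · left; rwa [← e]
    · right; left; rwa [← e]
    · right; right; rwa [← e]

open Classical in
theorem energy (n : ℕ) : ∀ (x : ℤ) (s : Bool) (l : List LV), Valid a b ((x, s) :: l) →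
    ∀ F : Finset (List LV), (∀ P ∈ F, Valid a b P ∧ ((x, s) :: l) <:+ P ∧
      P.length ≤ ((x, s) :: l).length + n) →
    ∑ P ∈ F, (st a P).g ^ 2 ≤ Cst (st a ((x, s) :: l)) := by
  induction n with
  | zero =>
    intro x s l hv F hF
    have hsub : F ⊆ {(x, s) :: l} := by
      intro P hP
      obtain ⟨_, h2, h3⟩ := hF P hP
      rw [Finset.mem_singleton]
      exact (h2.eq_of_length_le (by simpa using h3)).symm
    have h1 : ∑ P ∈ F, (st a P).g ^ 2 ≤ (st a ((x, s) :: l)).g ^ 2 := by
      calc ∑ P ∈ F, (st a P).g ^ 2 ≤ ∑ P ∈ {(x, s) :: l}, (st a P).g ^ 2 :=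
            Finset.sum_le_sum_of_subset_of_nonneg hsub (fun _ _ _ => by positivity)
        _ = _ := by rw [Finset.sum_singleton]
    have h2 := energy_nb hv
    have c1 := Cst_nonneg (st a ((x + 1, s) :: (x, s) :: l))
    have c2 := Cst_nonneg (st a ((x - 1, s) :: (x, s) :: l))
    have c3 := Cst_nonneg (st a ((x, !s) :: (x, s) :: l))
    linarith
  | succ n ih =>
    intro x s l hv F hF
    have hpart : ∀ w : LV, ∑ P ∈ F.filter (fun P => (w :: (x, s) :: l) <:+ P),
        (st a P).g ^ 2 ≤ Cst (st a (w :: (x, s) :: l)) := by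
      intro w
      by_cases hw : Valid a b (w :: (x, s) :: l)
      · obtain ⟨y, t⟩ := w
        apply ih y t ((x, s) :: l) hw
        intro P hP
        rw [Finset.mem_filter] at hP
        obtain ⟨h1, h2, h3⟩ := hF P hP.1
        refine ⟨h1, hP.2, ?_⟩
        simp only [List.length_cons] at h3 ⊢
        omega
      · have : F.filter (fun P => (w :: (x, s) :: l) <:+ P) = ∅ := by
          rw [Finset.filter_eq_empty_iff]
          intro P hP hs
          obtain ⟨t, rfl⟩ := hs
          exact hw (valid_of_append t (hF _ hP).1)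
        rw [this, Finset.sum_empty]
        exact Cst_nonneg _
    have h1 : ∑ P ∈ F, (st a P).g ^ 2 ≤
        ∑ P ∈ F, ((if P = (x, s) :: l then (st a P).g ^ 2 else 0) +
          (if ((x + 1, s) :: (x, s) :: l) <:+ P then (st a P).g ^ 2 else 0) +
          (if ((x - 1, s) :: (x, s) :: l) <:+ P then (st a P).g ^ 2 else 0) +
          (if ((x, !s) :: (x, s) :: l) <:+ P then (st a P).g ^ 2 else 0)) := by
      apply Finset.sum_le_sum
      intro P hP
      obtain ⟨hP1, hP2, _⟩ := hF P hP
      have hsq : 0 ≤ (st a P).g ^ 2 := sq_nonneg _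
      rcases suffix_cases hP1 hP2 with e | e | e | e
      · rw [if_pos e]
        split_ifs <;> linarith
      · rw [if_pos e]
        split_ifs <;> linarith
      · rw [if_pos e]
        split_ifs <;> linarith
      · rw [if_pos e]
        split_ifs <;> linarith
    rw [Finset.sum_add_distrib, Finset.sum_add_distrib, Finset.sum_add_distrib,
      ← Finset.sum_filter, ← Finset.sum_filter, ← Finset.sum_filter, ← Finset.sum_filter] at h1
    have h0 : ∑ P ∈ F.filter (fun P => P = (x, s) :: l), (st a P).g ^ 2 ≤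
        (st a ((x, s) :: l)).g ^ 2 := by
      calc ∑ P ∈ F.filter (fun P => P = (x, s) :: l), (st a P).g ^ 2
          ≤ ∑ P ∈ {(x, s) :: l}, (st a P).g ^ 2 := by
            apply Finset.sum_le_sum_of_subset_of_nonneg
            · intro P hP
              rw [Finset.mem_filter] at hP
              rw [Finset.mem_singleton]; exact hP.2
            · intro _ _ _; positivity
        _ = _ := by rw [Finset.sum_singleton]
    have h2 := energy_nb hv
    have c1 := hpart (x + 1, s)
    have c2 := hpart (x - 1, s)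
    have c3 := hpart (x, !s)
    linarith

/-- candidate neighbours -/
def candL : List LV → Finset (List LV)
  | [] => ∅
  | (x, s) :: l => {l, (x + 1, s) :: (x, s) :: l, (x - 1, s) :: (x, s) :: l,
      (x, !s) :: (x, s) :: l}

theorem cand_sum {x : ℤ} {s : Bool} {l : List LV} (h : Valid a b ((x, s) :: l)) :
    ∑ P ∈ candL ((x, s) :: l), val a b P = 0 := by
  unfold candL
  rw [Finset.sum_insert, Finset.sum_insert, Finset.sum_insert, Finset.sum_singleton,
    parent_val h]
  · have := children_sum h
    linarith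
  · simp
  · simp only [Finset.mem_insert, Finset.mem_singleton, List.cons.injEq, Prod.mk.injEq, and_true,
      not_or]
    constructor
    · intro e; omega
    · rintro ⟨e, _⟩; omega
  · simp only [Finset.mem_insert, Finset.mem_singleton, not_or]
    refine ⟨?_, ?_, ?_⟩ <;>
    · intro e
      have := congrArg List.length e
      simp only [List.length_cons] at this
      omega

variable (a b) in
/-- the ladder with one vertex removed -/
abbrev Gd : SimpleGraph LV := ladder.deleteIncidenceSet (a, b)

variable (a b) in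
/-- the neighbours in the path tree -/
noncomputable def NN (P : PathFrom (Gd a b) (a, !b)) : Finset (PathFrom (Gd a b) (a, !b)) :=
  (candL P.1).preimage Subtype.val Subtype.val_injective.injOn

theorem path_cases (P : PathFrom (Gd a b) (a, !b)) : ∃ x s l, P.1 = (x, s) :: l := by
  obtain ⟨l, h⟩ := P
  cases l with
  | nil => exact absurd h.2.2 (by simp)
  | cons y l => exact ⟨y.1, y.2, l, rfl⟩

theorem NN_nbr (P : PathFrom (Gd a b) (a, !b)) :
    (pathTree (Gd a b) (a, !b)).neighborSet P = (NN a b P : Set (PathFrom (Gd a b) (a, !b))) := by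
  obtain ⟨x, s, l, hP⟩ := path_cases P
  ext Q
  have hm : Q ∈ (NN a b P : Set (PathFrom (Gd a b) (a, !b))) ↔ Q.1 ∈ candL P.1 := by
    unfold NN
    rw [Finset.mem_coe, Finset.mem_preimage]
  rw [hm, SimpleGraph.mem_neighborSet, hP]
  change ((∃ w, Q.1 = w :: P.1) ∨ (∃ w, P.1 = w :: Q.1)) ↔ _
  rw [hP]
  unfold candL
  simp only [Finset.mem_insert, Finset.mem_singleton]
  constructor
  · rintro (⟨w, hw⟩ | ⟨w, hw⟩)
    · right
      have hv : Valid a b (w :: (x, s) :: l) := by
        have := Q.2
        rw [hw] at this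
        exact this
      rcases nb_three (valid_adj hv).1 with e | e | e
      · left; rw [hw, e]
      · right; left; rw [hw, e]
      · right; right; rw [hw, e]
    · left
      simp only [List.cons.injEq] at hw
      exact hw.2.symm
  · rintro (h | h | h | h)
    · right; exact ⟨_, by rw [h]⟩
    · left; exact ⟨_, h⟩
    · left; exact ⟨_, h⟩
    · left; exact ⟨_, h⟩

theorem NN_card (P : PathFrom (Gd a b) (a, !b)) : (NN a b P).card ≤ 4 := by
  classical
  obtain ⟨x, s, l, hP⟩ := path_cases P
  have h1 : (NN a b P).card ≤ (candL P.1).card := by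
    have : ((NN a b P).image Subtype.val).card = (NN a b P).card :=
      Finset.card_image_of_injective _ Subtype.val_injective
    rw [← this]
    apply Finset.card_le_card
    intro Q hQ
    rw [Finset.mem_image] at hQ
    obtain ⟨R, hR, rfl⟩ := hQ
    unfold NN at hR
    rwa [Finset.mem_preimage] at hR
  refine h1.trans ?_
  rw [hP]
  exact Finset.card_le_four

/-- the kernel vector -/
noncomputable def fv (a : ℤ) (b : Bool) (P : PathFrom (Gd a b) (a, !b)) : ℂ :=
  ((st a P.1).g : ℂ)

theorem fv_energy (F : Finset (PathFrom (Gd a b) (a, !b))) :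
    ∑ P ∈ F, ‖fv a b P‖ ^ (2 : ℝ≥0∞).toReal ≤ 6 := by
  classical
  have h1 : ∑ P ∈ F, ‖fv a b P‖ ^ (2 : ℝ≥0∞).toReal =
      ∑ P ∈ F.image Subtype.val, (st a P).g ^ 2 := by
    rw [Finset.sum_image Subtype.val_injective.injOn]
    apply Finset.sum_congr rfl
    intro P _
    unfold fv
    rw [Complex.norm_real]
    simp
  rw [h1]
  have hv : Valid a b [(a, !b)] := by
    refine ⟨by simp, by simp, by simp⟩
  have h2 := energy ((F.image Subtype.val).sup List.length) a (!b) [] hv (F.image Subtype.val) ?_
  · refine h2.trans ?_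
    simp [st, Cst]
  · intro P hP
    rw [Finset.mem_image] at hP
    obtain ⟨Q, hQ, rfl⟩ := hP
    refine ⟨Q.2, ?_, ?_⟩
    · have h3 := Q.2.2.2
      rw [List.getLast?_eq_some_iff] at h3
      obtain ⟨ys, hys⟩ := h3
      exact ⟨ys, hys.symm⟩
    · have := Finset.le_sup (f := List.length) (Finset.mem_image_of_mem Subtype.val hQ)
      omega

theorem fv_kernel (P : PathFrom (Gd a b) (a, !b)) : ∑ Q ∈ NN a b P, fv a b Q = 0 := by
  classical
  obtain ⟨x, s, l, hP⟩ := path_cases P
  have hv : Valid a b ((x, s) :: l) := by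
    have := P.2
    rw [hP] at this
    exact this
  have h1 : ∑ Q ∈ NN a b P, fv a b Q = ∑ Q ∈ NN a b P, ((val a b Q.1 : ℝ) : ℂ) := by
    apply Finset.sum_congr rfl
    intro Q _
    unfold fv val
    have : Valid a b Q.1 := Q.2
    rw [if_pos this]
  rw [h1, ← Complex.ofReal_sum]
  have h2 : ∑ Q ∈ NN a b P, val a b Q.1 = ∑ l' ∈ candL P.1, val a b l' := by
    unfold NN
    rw [Finset.sum_preimage' Subtype.val (candL P.1) Subtype.val_injective.injOn
      (fun l' => val a b l')]
    rw [Finset.sum_filter]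
    apply Finset.sum_congr rfl
    intro l' _
    by_cases hl : Valid a b l'
    · rw [if_pos ⟨⟨l', hl⟩, rfl⟩]
    · rw [if_neg, val, if_neg hl]
      rintro ⟨Q, rfl⟩
      exact hl Q.2
  rw [h2, hP, cand_sum hv]
  simp

theorem ladder_zeroPositive (u : LV) : ZeroPositive ladder u := by
  classical
  obtain ⟨a, b⟩ := u
  unfold ZeroPositive
  have hadj : ladder.Adj (a, b) (a, !b) := by
    right
    exact ⟨rfl, fun h => Bool.not_ne_self b h.symm⟩
  let v : ladder.neighborSet (a, b) := ⟨(a, !b), hadj⟩
  refine lt_of_lt_of_le ?_ (ENNReal.le_tsum v)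
  have hex : ∃ ν, IsMatchingMeasure (Gd a b) (a, !b) ν :=
    exists_matching (Gd a b) (a, !b) (NN a b) NN_nbr 4 NN_card
  have hch : IsMatchingMeasure (Gd a b) (a, !b) (matchingMeasure (Gd a b) (a, !b)) := by
    unfold matchingMeasure
    rw [dif_pos hex]
    exact hex.choose_spec
  let f : lp (fun _ : PathFrom (Gd a b) (a, !b) => ℂ) 2 := ⟨fv a b, memℓp_gen' fv_energy⟩
  have := matching_atom (Gd a b) (a, !b) (NN a b) NN_nbr 4 NN_card _ hch f (fun p => fv_kernel p) (by
    change fv a b (root (Gd a b) (a, !b)) ≠ 0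
    unfold fv root
    simp [st])
  exact pos_iff_ne_zero.2 this

end V11211.MM
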