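import Mathlib

/-!
Bishop-Phelps-Bollobás type properties of pairs of Banach spaces.
-/

namespace Pool.Agent.V11211.BPBDefs

variable (𝕜 : Type*) [RCLike 𝕜]

/-- The pair `(X, Y)` has the pointwise BPB property. -/
def PointwiseBPB (X Y : Type*) [NormedAddCommGroup X] [NormedSpace 𝕜 X]
    [NormedAddCommGroup Y] [NormedSpace 𝕜 Y] : Prop :=
  ∀ ε : ℝ, 0 < ε → ∃ η : ℝ, 0 < η ∧ ∀ T : X →L[𝕜] Y, ‖T‖ = 1 → ∀ x₀ : X, ‖x₀‖ = 1 →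
    1 - η < ‖T x₀‖ → ∃ S : X →L[𝕜] Y, ‖S‖ = 1 ∧ ‖S x₀‖ = 1 ∧ ‖S - T‖ < ε

/-- The pair `(X, Y)` has the BPBp (Bishop-Phelps-Bollobás property). -/
def BPBp (X Y : Type*) [NormedAddCommGroup X] [NormedSpace 𝕜 X]
    [NormedAddCommGroup Y] [NormedSpace 𝕜 Y] : Prop :=
  ∀ ε : ℝ, 0 < ε → ∃ η : ℝ, 0 < η ∧ ∀ T : X →L[𝕜] Y, ‖T‖ = 1 → ∀ x₀ : X, ‖x₀‖ = 1 →
    1 - η < ‖T x₀‖ → ∃ (x : X) (S : X →L[𝕜] Y), ‖x‖ = 1 ∧ ‖S‖ = 1 ∧ ‖S x‖ = 1 ∧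
      ‖x - x₀‖ < ε ∧ ‖S - T‖ < ε

/-- The subspace `Y₁` of `Y` is closed and is the range of a linear projection of norm `1`. -/
def OneComplemented {Y : Type*} [NormedAddCommGroup Y] [NormedSpace 𝕜 Y]
    (Y₁ : Submodule 𝕜 Y) : Prop :=
  IsClosed (Y₁ : Set Y) ∧ ∃ P : Y →L[𝕜] Y, (∀ y, P (P y) = P y) ∧ ‖P‖ = 1 ∧
    ∀ y, y ∈ Y₁ ↔ ∃ z, P z = y

end Pool.Agent.V11211.BPBDefs
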