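import Mathlib
import Pool.Agent.V11211.BPBDefs

/-!
Complemented copies and transfer of the properties.
-/

namespace Pool.Agent.V11211.BPBAbs

open Pool.Agent.V11211.BPBDefs

variable {𝕜 : Type*} [RCLike 𝕜] {E : Type*} [NormedAddCommGroup E] [NormedSpace 𝕜 E]
variable {Y : Type*} [NormedAddCommGroup Y] [NormedSpace 𝕜 Y]

/-- the copy of `E` -/
noncomputable def Y1 (inc : E →L[𝕜] Y) : Submodule 𝕜 Y := LinearMap.range inc.toLinearMap

theorem oneComplemented [Nontrivial E] (inc : E →L[𝕜] Y) (snd : Y →L[𝕜] E)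
    (hinc : ∀ e, ‖inc e‖ = ‖e‖) (hsnd : ∀ y, ‖snd y‖ ≤ ‖y‖) (hsi : ∀ e, snd (inc e) = e) :
    OneComplemented 𝕜 (Y1 inc) := by
  have hmem : ∀ y : Y, y ∈ Y1 inc ↔ inc (snd y) = y := by
    intro y
    constructor
    · rintro ⟨e, rfl⟩
      change inc (snd (inc e)) = inc e
      rw [hsi]
    · intro h
      exact ⟨snd y, h⟩
  constructor
  · have : (Y1 inc : Set Y) = {y | (inc.comp snd) y = y} := by
      ext y
      exact hmem y
    rw [this]
    exact isClosed_eq (ContinuousLinearMap.continuous _) continuous_id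
  · refine ⟨inc.comp snd, ?_, ?_, ?_⟩
    · intro y
      change inc (snd (inc (snd y))) = inc (snd y)
      rw [hsi]
    · apply le_antisymm
      · apply ContinuousLinearMap.opNorm_le_bound _ zero_le_one
        intro y
        change ‖inc (snd y)‖ ≤ _
        rw [hinc, one_mul]
        exact hsnd y
      · obtain ⟨e, he⟩ := exists_ne (0 : E)
        have hpos : 0 < ‖e‖ := norm_pos_iff.2 he
        have h1 := (inc.comp snd).le_opNorm (inc e)
        change ‖inc (snd (inc e))‖ ≤ _ at h1
        rw [hsi, hinc] at h1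
        by_contra hlt
        push Not at hlt
        nlinarith
    · intro y
      rw [hmem]
      constructor
      · intro h
        exact ⟨y, h⟩
      · rintro ⟨z, rfl⟩
        change inc (snd (inc (snd z))) = inc (snd z)
        rw [hsi]

variable {X : Type*} [NormedAddCommGroup X] [NormedSpace 𝕜 X]

/-- push an operator into `Y₁` -/
noncomputable def push (inc : E →L[𝕜] Y) (T : X →L[𝕜] E) : X →L[𝕜] Y1 inc :=
  (inc.comp T).codRestrict (Y1 inc) (fun x => ⟨T x, rfl⟩)

/-- pull an operator back to `E` -/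
noncomputable def pull (inc : E →L[𝕜] Y) (snd : Y →L[𝕜] E) (S : X →L[𝕜] Y1 inc) : X →L[𝕜] E :=
  snd.comp ((Y1 inc).subtypeL.comp S)

section

variable (inc : E →L[𝕜] Y) (snd : Y →L[𝕜] E)
variable (hinc : ∀ e, ‖inc e‖ = ‖e‖) (hsi : ∀ e, snd (inc e) = e)

include hinc in
theorem norm_push_apply (T : X →L[𝕜] E) (x : X) : ‖push inc T x‖ = ‖T x‖ := hinc (T x)

include hinc hsi in
theorem norm_pull_apply (S : X →L[𝕜] Y1 inc) (x : X) : ‖pull inc snd S x‖ = ‖S x‖ := by
  obtain ⟨e, he⟩ := (S x).2
  have he' : inc e = (S x).1 := he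
  have h1 : pull inc snd S x = e := by
    change snd (S x).1 = e
    rw [← he']
    exact hsi e
  rw [h1]
  change ‖e‖ = ‖(S x).1‖
  rw [← he', hinc]

include hinc in
theorem norm_push (T : X →L[𝕜] E) : ‖push inc T‖ = ‖T‖ := by
  apply le_antisymm
  · apply ContinuousLinearMap.opNorm_le_bound _ (norm_nonneg _)
    intro x
    rw [norm_push_apply inc hinc]
    exact T.le_opNorm x
  · apply ContinuousLinearMap.opNorm_le_bound _ (norm_nonneg _)
    intro x
    rw [← norm_push_apply inc hinc]
    exact (push inc T).le_opNorm x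

include hinc hsi in
theorem norm_pull (S : X →L[𝕜] Y1 inc) : ‖pull inc snd S‖ = ‖S‖ := by
  apply le_antisymm
  · apply ContinuousLinearMap.opNorm_le_bound _ (norm_nonneg _)
    intro x
    rw [norm_pull_apply inc snd hinc hsi]
    exact S.le_opNorm x
  · apply ContinuousLinearMap.opNorm_le_bound _ (norm_nonneg _)
    intro x
    rw [← norm_pull_apply inc snd hinc hsi]
    exact (pull inc snd S).le_opNorm x

include hsi in
theorem pull_push (T : X →L[𝕜] E) : pull inc snd (push inc T) = T := by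
  ext x
  exact hsi (T x)

theorem pull_sub (S S' : X →L[𝕜] Y1 inc) :
    pull inc snd (S - S') = pull inc snd S - pull inc snd S' := by
  ext x
  change snd ((S x).1 - (S' x).1) = snd (S x).1 - snd (S' x).1
  rw [map_sub]

include hinc hsi in
theorem pointwise_transfer (h : PointwiseBPB 𝕜 X (Y1 inc)) : PointwiseBPB 𝕜 X E := by
  intro ε hε
  obtain ⟨η, hη, h⟩ := h ε hε
  refine ⟨η, hη, fun T hT x₀ hx₀ hTx => ?_⟩
  obtain ⟨S, hS1, hS2, hS3⟩ := h (push inc T) (by rw [norm_push inc hinc, hT]) x₀ hx₀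
    (by rw [norm_push_apply inc hinc]; exact hTx)
  refine ⟨pull inc snd S, by rw [norm_pull inc snd hinc hsi, hS1],
    by rw [norm_pull_apply inc snd hinc hsi, hS2], ?_⟩
  have : pull inc snd S - T = pull inc snd (S - push inc T) := by
    rw [pull_sub, pull_push inc snd hsi]
  rw [this, norm_pull inc snd hinc hsi]
  exact hS3

include hinc hsi in
theorem bpb_transfer (h : BPBp 𝕜 X (Y1 inc)) : BPBp 𝕜 X E := by
  intro ε hε
  obtain ⟨η, hη, h⟩ := h ε hε
  refine ⟨η, hη, fun T hT x₀ hx₀ hTx => ?_⟩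
  obtain ⟨x, S, hx, hS1, hS2, hx2, hS3⟩ := h (push inc T) (by rw [norm_push inc hinc, hT]) x₀ hx₀
    (by rw [norm_push_apply inc hinc]; exact hTx)
  refine ⟨x, pull inc snd S, hx, by rw [norm_pull inc snd hinc hsi, hS1],
    by rw [norm_pull_apply inc snd hinc hsi, hS2], hx2, ?_⟩
  have : pull inc snd S - T = pull inc snd (S - push inc T) := by
    rw [pull_sub, pull_push inc snd hsi]
  rw [this, norm_pull inc snd hinc hsi]
  exact hS3

end

end Pool.Agent.V11211.BPBAbs
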