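import Mathlib
import Pool.Agent.V11211.BPBDefs

/-!
A Banach space `Y` between `c₀(J)` and `ℓ_∞(J)` containing a given `E` one-complementedly.
-/

open Filter Topology

namespace Pool.Agent.V11211.BPBSpace

open Pool.Agent.V11211.BPBDefs

variable (𝕜 : Type*) [RCLike 𝕜] (E : Type*) [NormedAddCommGroup E] [NormedSpace 𝕜 E]

/-- index set -/
abbrev Idx := {f : E →L[𝕜] 𝕜 // ‖f‖ ≤ 1} × ℕ

/-- `ℓ_∞` of the index set -/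
abbrev Zsp := lp (fun _ : Idx 𝕜 E => 𝕜) ⊤

/-- the canonical embedding of `E` -/
noncomputable def G : E →L[𝕜] Zsp 𝕜 E :=
  LinearMap.mkContinuous
    { toFun := fun e => ⟨fun j => j.1.1 e, memℓp_infty ⟨‖e‖, by
        rintro _ ⟨j, rfl⟩
        calc ‖j.1.1 e‖ ≤ ‖j.1.1‖ * ‖e‖ := j.1.1.le_opNorm e
          _ ≤ 1 * ‖e‖ := mul_le_mul_of_nonneg_right j.1.2 (norm_nonneg _)
          _ = ‖e‖ := one_mul _⟩⟩
      map_add' := fun a b => by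
        apply lp.ext
        funext j
        exact map_add _ _ _
      map_smul' := fun c a => by
        apply lp.ext
        funext j
        exact map_smul _ _ _ } 1 (fun e => by
    apply lp.norm_le_of_forall_le (by positivity)
    intro j
    calc ‖j.1.1 e‖ ≤ ‖j.1.1‖ * ‖e‖ := j.1.1.le_opNorm e
      _ ≤ 1 * ‖e‖ := mul_le_mul_of_nonneg_right j.1.2 (norm_nonneg _))

theorem G_apply (e : E) (j : Idx 𝕜 E) : (G 𝕜 E e : ∀ _ : Idx 𝕜 E, 𝕜) j = j.1.1 e := rfl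

theorem norm_G_le (e : E) : ‖G 𝕜 E e‖ ≤ ‖e‖ := by
  apply lp.norm_le_of_forall_le (norm_nonneg _)
  intro j
  rw [G_apply]
  calc ‖j.1.1 e‖ ≤ ‖j.1.1‖ * ‖e‖ := j.1.1.le_opNorm e
    _ ≤ 1 * ‖e‖ := mul_le_mul_of_nonneg_right j.1.2 (norm_nonneg _)
    _ = ‖e‖ := one_mul _

/-- the submodule `Y` -/
noncomputable def Ysub : Submodule 𝕜 (Zsp 𝕜 E × E) where
  carrier := {p | Tendsto (fun j : Idx 𝕜 E => (p.1 : ∀ _ : Idx 𝕜 E, 𝕜) j - j.1.1 p.2)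
    cofinite (𝓝 0)}
  zero_mem' := by
    change Tendsto (fun j : Idx 𝕜 E => ((0 : Zsp 𝕜 E) : ∀ _ : Idx 𝕜 E, 𝕜) j - j.1.1 (0 : E))
      cofinite (𝓝 0)
    simp only [lp.coeFn_zero, Pi.zero_apply, map_zero, sub_zero]
    exact tendsto_const_nhds
  add_mem' := by
    intro p q hp hq
    have h := Tendsto.add hp hq
    rw [add_zero] at h
    refine h.congr fun j => ?_
    change _ = ((p.1 + q.1 : Zsp 𝕜 E) : ∀ _ : Idx 𝕜 E, 𝕜) j - j.1.1 (p.2 + q.2)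
    rw [lp.coeFn_add, map_add, Pi.add_apply]
    ring
  smul_mem' := by
    intro c p hp
    have h := Tendsto.const_mul c hp
    rw [mul_zero] at h
    refine h.congr fun j => ?_
    change _ = ((c • p.1 : Zsp 𝕜 E) : ∀ _ : Idx 𝕜 E, 𝕜) j - j.1.1 (c • p.2)
    rw [lp.coeFn_smul, map_smul, Pi.smul_apply, smul_eq_mul, smul_eq_mul]
    ring

theorem mem_Ysub {p : Zsp 𝕜 E × E} : p ∈ Ysub 𝕜 E ↔
    Tendsto (fun j : Idx 𝕜 E => (p.1 : ∀ _ : Idx 𝕜 E, 𝕜) j - j.1.1 p.2) cofinite (𝓝 0) :=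
  Iff.rfl

theorem isClosed_Ysub : IsClosed ((Ysub 𝕜 E : Submodule 𝕜 _) : Set (Zsp 𝕜 E × E)) := by
  rw [← closure_subset_iff_isClosed]
  intro p hp
  rw [Metric.mem_closure_iff] at hp
  change Tendsto (fun j : Idx 𝕜 E => (p.1 : ∀ _ : Idx 𝕜 E, 𝕜) j - j.1.1 p.2) cofinite (𝓝 0)
  rw [Metric.tendsto_nhds]
  intro ε hε
  obtain ⟨q, hq, hpq⟩ := hp (ε / 3) (by positivity)
  have hq' : Tendsto (fun j : Idx 𝕜 E => (q.1 : ∀ _ : Idx 𝕜 E, 𝕜) j - j.1.1 q.2)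
    cofinite (𝓝 0) := hq
  rw [Metric.tendsto_nhds] at hq'
  filter_upwards [hq' (ε / 3) (by positivity)] with j hj
  rw [dist_zero_right] at hj ⊢
  rw [dist_eq_norm] at hpq
  have h1 : ‖p.1 - q.1‖ < ε / 3 := lt_of_le_of_lt (norm_fst_le (p - q)) hpq
  have h2 : ‖p.2 - q.2‖ < ε / 3 := lt_of_le_of_lt (norm_snd_le (p - q)) hpq
  have h3 : ‖(p.1 : ∀ _ : Idx 𝕜 E, 𝕜) j - (q.1 : ∀ _ : Idx 𝕜 E, 𝕜) j‖ ≤ ‖p.1 - q.1‖ := by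
    have := lp.norm_apply_le_norm (by simp) (p.1 - q.1) j
    rwa [lp.coeFn_sub] at this
  have h4 : ‖j.1.1 (p.2 - q.2)‖ ≤ ‖p.2 - q.2‖ := by
    calc ‖j.1.1 (p.2 - q.2)‖ ≤ ‖j.1.1‖ * ‖p.2 - q.2‖ := j.1.1.le_opNorm _
      _ ≤ 1 * ‖p.2 - q.2‖ := mul_le_mul_of_nonneg_right j.1.2 (norm_nonneg _)
      _ = _ := one_mul _
  have h5 : (p.1 : ∀ _ : Idx 𝕜 E, 𝕜) j - j.1.1 p.2 =
      ((q.1 : ∀ _ : Idx 𝕜 E, 𝕜) j - j.1.1 q.2) +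
      ((p.1 : ∀ _ : Idx 𝕜 E, 𝕜) j - (q.1 : ∀ _ : Idx 𝕜 E, 𝕜) j) - j.1.1 (p.2 - q.2) := by
    rw [map_sub]; ring
  rw [h5]
  calc _ ≤ ‖((q.1 : ∀ _ : Idx 𝕜 E, 𝕜) j - j.1.1 q.2) +
      ((p.1 : ∀ _ : Idx 𝕜 E, 𝕜) j - (q.1 : ∀ _ : Idx 𝕜 E, 𝕜) j)‖ + ‖j.1.1 (p.2 - q.2)‖ :=
        norm_sub_le _ _
    _ ≤ (‖(q.1 : ∀ _ : Idx 𝕜 E, 𝕜) j - j.1.1 q.2‖ +
      ‖(p.1 : ∀ _ : Idx 𝕜 E, 𝕜) j - (q.1 : ∀ _ : Idx 𝕜 E, 𝕜) j‖) + ‖j.1.1 (p.2 - q.2)‖ := by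
        gcongr
        exact norm_add_le _ _
    _ < ε := by linarith

/-- the Banach space `Y` -/
def Ysp : Type _ := ↥(Ysub 𝕜 E)

noncomputable instance : NormedAddCommGroup (Ysp 𝕜 E) :=
  inferInstanceAs (NormedAddCommGroup ↥(Ysub 𝕜 E))

noncomputable instance : NormedSpace 𝕜 (Ysp 𝕜 E) :=
  inferInstanceAs (NormedSpace 𝕜 ↥(Ysub 𝕜 E))

instance [CompleteSpace E] : CompleteSpace (Ysp 𝕜 E) :=
  (isClosed_Ysub 𝕜 E).completeSpace_coe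

variable {𝕜 E}

theorem Ysp.norm_fst_le (y : Ysp 𝕜 E) : ‖y.1.1‖ ≤ ‖y‖ := _root_.norm_fst_le y.1

theorem Ysp.norm_snd_le (y : Ysp 𝕜 E) : ‖y.1.2‖ ≤ ‖y‖ := _root_.norm_snd_le y.1

theorem Ysp.norm_le {y : Ysp 𝕜 E} {C : ℝ} (h1 : ‖y.1.1‖ ≤ C) (h2 : ‖y.1.2‖ ≤ C) : ‖y‖ ≤ C :=
  norm_prod_le_iff.2 ⟨h1, h2⟩

/-- coordinates detect the norm -/
theorem exists_coord (y : Ysp 𝕜 E) {a : ℝ} (ha0 : 0 ≤ a) (ha : a < ‖y‖) :
    ∃ j : Idx 𝕜 E, a < ‖(y.1.1 : ∀ _ : Idx 𝕜 E, 𝕜) j‖ := by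
  by_contra hcon
  push Not at hcon
  have h1 : ‖y.1.1‖ ≤ a := lp.norm_le_of_forall_le ha0 hcon
  have h2 : ‖y.1.2‖ ≤ a := by
    obtain ⟨f, hf1, hf2⟩ := exists_dual_vector'' 𝕜 y.1.2
    have hinj : Function.Injective (fun k : ℕ => ((⟨f, hf1⟩, k) : Idx 𝕜 E)) := by
      intro a b h
      exact (Prod.ext_iff.1 h).2
    have ht : Tendsto (fun k : ℕ => (y.1.1 : ∀ _ : Idx 𝕜 E, 𝕜) ((⟨f, hf1⟩, k) : Idx 𝕜 E) -
        f y.1.2) cofinite (𝓝 0) := Tendsto.comp y.2 hinj.tendsto_cofinite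
    have ht2 : Tendsto (fun k : ℕ => (y.1.1 : ∀ _ : Idx 𝕜 E, 𝕜) ((⟨f, hf1⟩, k) : Idx 𝕜 E))
        cofinite (𝓝 (f y.1.2)) := by
      have := ht.add_const (f y.1.2)
      simpa using this
    have h3 := le_of_tendsto ht2.norm (Eventually.of_forall fun k => hcon _)
    rw [hf2] at h3
    simpa using h3
  exact absurd (Ysp.norm_le h1 h2) (not_le.2 ha)

/-- the `j`-th coordinate functional -/
noncomputable def coord (j : Idx 𝕜 E) : Ysp 𝕜 E →L[𝕜] 𝕜 :=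
  (lp.evalCLM 𝕜 (fun _ : Idx 𝕜 E => 𝕜) ⊤ j).comp
    ((ContinuousLinearMap.fst 𝕜 (Zsp 𝕜 E) E).comp (Ysub 𝕜 E).subtypeL)

theorem coord_apply (j : Idx 𝕜 E) (y : Ysp 𝕜 E) :
    coord j y = (y.1.1 : ∀ _ : Idx 𝕜 E, 𝕜) j := rfl

open Classical in
/-- the unit vectors in `Y` -/
noncomputable def unit (j : Idx 𝕜 E) : Ysp 𝕜 E :=
  ⟨(lp.single ⊤ j (1 : 𝕜), 0), by
    rw [mem_Ysub]
    apply Tendsto.congr' _ tendsto_const_nhds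
    have : {j}ᶜ ∈ (cofinite : Filter (Idx 𝕜 E)) := (Set.finite_singleton j).compl_mem_cofinite
    filter_upwards [this] with i hi
    have hij : i ≠ j := hi
    simp only [map_zero, sub_zero]
    rw [lp.single_apply_ne _ _ _ hij]⟩

theorem unit_self (j : Idx 𝕜 E) : ((unit j : Ysp 𝕜 E).1.1 : ∀ _ : Idx 𝕜 E, 𝕜) j = 1 := by
  classical
  exact lp.single_apply_self (E := fun _ : Idx 𝕜 E => 𝕜) ⊤ j (1 : 𝕜)

theorem unit_ne {i j : Idx 𝕜 E} (h : i ≠ j) :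
    ((unit j : Ysp 𝕜 E).1.1 : ∀ _ : Idx 𝕜 E, 𝕜) i = 0 := by
  classical
  exact lp.single_apply_ne (E := fun _ : Idx 𝕜 E => 𝕜) ⊤ j (1 : 𝕜) h

theorem unit_snd (j : Idx 𝕜 E) : (unit j : Ysp 𝕜 E).1.2 = 0 := rfl

theorem norm_unit_le (j : Idx 𝕜 E) : ‖(unit j : Ysp 𝕜 E)‖ ≤ 1 := by
  apply Ysp.norm_le
  · apply lp.norm_le_of_forall_le zero_le_one
    intro i
    by_cases h : i = j
    · subst h
      rw [unit_self]
      simp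
    · rw [unit_ne h]
      simp
  · rw [unit_snd]
    simp

section Replace

variable {X : Type*} [NormedAddCommGroup X] [NormedSpace 𝕜 X]

/-- replacing one coordinate of an operator -/
theorem replace (T : X →L[𝕜] Ysp 𝕜 E) (hT : ‖T‖ ≤ 1) (j : Idx 𝕜 E) (g : X →L[𝕜] 𝕜)
    (hg : ‖g‖ ≤ 1) {x : X} (hx : ‖x‖ = 1) (hgx : ‖g x‖ = 1) :
    ∃ S : X →L[𝕜] Ysp 𝕜 E, ‖S‖ = 1 ∧ ‖S x‖ = 1 ∧ ‖S - T‖ ≤ ‖g - (coord j).comp T‖ := by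
  set D : X →L[𝕜] 𝕜 := g - (coord j).comp T with hD
  let S : X →L[𝕜] Ysp 𝕜 E := T + D.smulRight (unit j)
  have hS : ∀ z, S z = T z + D z • unit j := fun z => rfl
  have hTz : ∀ z, ‖T z‖ ≤ ‖z‖ := fun z => by
    calc ‖T z‖ ≤ ‖T‖ * ‖z‖ := T.le_opNorm z
      _ ≤ 1 * ‖z‖ := mul_le_mul_of_nonneg_right hT (norm_nonneg _)
      _ = ‖z‖ := one_mul _
  have hgz : ∀ z, ‖g z‖ ≤ ‖z‖ := fun z => by
    calc ‖g z‖ ≤ ‖g‖ * ‖z‖ := g.le_opNorm z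
      _ ≤ 1 * ‖z‖ := mul_le_mul_of_nonneg_right hg (norm_nonneg _)
      _ = ‖z‖ := one_mul _
  have hScoord : ∀ z, coord j (S z) = g z := by
    intro z
    rw [hS, map_add, map_smul, coord_apply j (unit j), unit_self, smul_eq_mul, mul_one, hD]
    simp
  have hSz : ∀ z, ‖S z‖ ≤ ‖z‖ := by
    intro z
    apply Ysp.norm_le
    · apply lp.norm_le_of_forall_le (norm_nonneg _)
      intro i
      by_cases h : i = j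
      · subst h
        rw [← coord_apply, hScoord]
        exact hgz z
      · have e1 : ((S z).1.1 : ∀ _ : Idx 𝕜 E, 𝕜) i = ((T z).1.1 : ∀ _ : Idx 𝕜 E, 𝕜) i := by
          rw [← coord_apply, ← coord_apply, hS, map_add, map_smul, coord_apply i (unit j),
            unit_ne h, smul_zero, add_zero]
        rw [e1]
        calc _ ≤ ‖(T z).1.1‖ := lp.norm_apply_le_norm (by simp) _ i
          _ ≤ ‖T z‖ := Ysp.norm_fst_le _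
          _ ≤ ‖z‖ := hTz z
    · have e1 : (S z).1.2 = (T z).1.2 := by
        rw [hS]
        change (T z).1.2 + D z • (unit j : Ysp 𝕜 E).1.2 = _
        rw [unit_snd, smul_zero, add_zero]
      rw [e1]
      exact (Ysp.norm_snd_le _).trans (hTz z)
  have hS1 : ‖S‖ ≤ 1 := ContinuousLinearMap.opNorm_le_bound _ zero_le_one (fun z => by
    rw [one_mul]; exact hSz z)
  have hSx : ‖S x‖ = 1 := by
    apply le_antisymm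
    · rw [← hx]; exact hSz x
    · rw [← hgx, ← hScoord, coord_apply]
      exact (lp.norm_apply_le_norm (by simp) _ j).trans (Ysp.norm_fst_le _)
  refine ⟨S, ?_, hSx, ?_⟩
  · apply le_antisymm hS1
    have := S.le_opNorm x
    rw [hSx, hx, mul_one] at this
    exact this
  · have : S - T = D.smulRight (unit j) := by
      simp [S]
    rw [this]
    apply ContinuousLinearMap.opNorm_le_bound _ (norm_nonneg _)
    intro z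
    rw [ContinuousLinearMap.smulRight_apply, norm_smul]
    calc ‖D z‖ * ‖(unit j : Ysp 𝕜 E)‖ ≤ (‖D‖ * ‖z‖) * 1 :=
          mul_le_mul (D.le_opNorm z) (norm_unit_le j) (norm_nonneg _) (by positivity)
      _ = _ := mul_one _

/-- scalar version of the pointwise property -/
def ScalarPt (𝕜 : Type*) [RCLike 𝕜] (X : Type*) [NormedAddCommGroup X] [NormedSpace 𝕜 X] : Prop :=
  ∀ ε : ℝ, 0 < ε → ∃ η : ℝ, 0 < η ∧ η ≤ 1 ∧ ∀ f : X →L[𝕜] 𝕜, ‖f‖ ≤ 1 → ∀ x₀ : X, ‖x₀‖ = 1 →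
    1 - η < ‖f x₀‖ → ∃ g : X →L[𝕜] 𝕜, ‖g‖ ≤ 1 ∧ ‖g x₀‖ = 1 ∧ ‖g - f‖ < ε

/-- scalar version of the BPBp -/
def ScalarBPB (𝕜 : Type*) [RCLike 𝕜] (X : Type*) [NormedAddCommGroup X] [NormedSpace 𝕜 X] :
    Prop :=
  ∀ ε : ℝ, 0 < ε → ∃ η : ℝ, 0 < η ∧ η ≤ 1 ∧ ∀ f : X →L[𝕜] 𝕜, ‖f‖ ≤ 1 → ∀ x₀ : X, ‖x₀‖ = 1 →
    1 - η < ‖f x₀‖ → ∃ (x : X) (g : X →L[𝕜] 𝕜), ‖x‖ = 1 ∧ ‖g‖ ≤ 1 ∧ ‖g x‖ = 1 ∧
      ‖x - x₀‖ < ε ∧ ‖g - f‖ < ε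

theorem norm_coord_comp_le (T : X →L[𝕜] Ysp 𝕜 E) (hT : ‖T‖ ≤ 1) (j : Idx 𝕜 E) :
    ‖(coord j).comp T‖ ≤ 1 := by
  apply ContinuousLinearMap.opNorm_le_bound _ zero_le_one
  intro z
  calc ‖coord j (T z)‖ ≤ ‖(T z).1.1‖ := lp.norm_apply_le_norm (by simp) _ j
    _ ≤ ‖T z‖ := Ysp.norm_fst_le _
    _ ≤ ‖T‖ * ‖z‖ := T.le_opNorm z
    _ ≤ 1 * ‖z‖ := mul_le_mul_of_nonneg_right hT (norm_nonneg _)

variable (E) in
theorem pointwise_of_scalar (h : ScalarPt 𝕜 X) : PointwiseBPB 𝕜 X (Ysp 𝕜 E) := by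
  intro ε hε
  obtain ⟨η, hη, hη1, h⟩ := h ε hε
  refine ⟨η, hη, fun T hT x₀ hx₀ hTx => ?_⟩
  obtain ⟨j, hj⟩ := exists_coord (T x₀) (by linarith) hTx
  obtain ⟨g, hg1, hg2, hg3⟩ := h ((coord j).comp T) (norm_coord_comp_le T hT.le j) x₀ hx₀ hj
  obtain ⟨S, hS1, hS2, hS3⟩ := replace T hT.le j g hg1 hx₀ hg2
  exact ⟨S, hS1, hS2, hS3.trans_lt hg3⟩

variable (E) in
theorem bpb_of_scalar (h : ScalarBPB 𝕜 X) : BPBp 𝕜 X (Ysp 𝕜 E) := by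
  intro ε hε
  obtain ⟨η, hη, hη1, h⟩ := h ε hε
  refine ⟨η, hη, fun T hT x₀ hx₀ hTx => ?_⟩
  obtain ⟨j, hj⟩ := exists_coord (T x₀) (by linarith) hTx
  obtain ⟨x, g, hx1, hg1, hg2, hx2, hg3⟩ :=
    h ((coord j).comp T) (norm_coord_comp_le T hT.le j) x₀ hx₀ hj
  obtain ⟨S, hS1, hS2, hS3⟩ := replace T hT.le j g hg1 hx1 hg2
  exact ⟨x, S, hx1, hS1, hS2, hx2, hS3.trans_lt hg3⟩

end Replace

/-- the copy of `E` inside `Y` -/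
noncomputable def inc : E →L[𝕜] Ysp 𝕜 E :=
  ((G 𝕜 E).prod (ContinuousLinearMap.id 𝕜 E)).codRestrict (Ysub 𝕜 E) (fun e => by
    rw [mem_Ysub]
    change Tendsto (fun j : Idx 𝕜 E => (G 𝕜 E e : ∀ _ : Idx 𝕜 E, 𝕜) j - j.1.1 e) _ _
    simp only [G_apply, sub_self]
    exact tendsto_const_nhds)

theorem inc_fst (e : E) : (inc e : Ysp 𝕜 E).1.1 = G 𝕜 E e := rfl

theorem inc_snd (e : E) : (inc e : Ysp 𝕜 E).1.2 = e := rfl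

theorem norm_inc (e : E) : ‖(inc e : Ysp 𝕜 E)‖ = ‖e‖ := by
  apply le_antisymm
  · apply Ysp.norm_le
    · rw [inc_fst]; exact norm_G_le 𝕜 E e
    · rw [inc_snd]
  · have := Ysp.norm_snd_le (inc e : Ysp 𝕜 E)
    rwa [inc_snd] at this

/-- the second component -/
noncomputable def snd : Ysp 𝕜 E →L[𝕜] E :=
  (ContinuousLinearMap.snd 𝕜 (Zsp 𝕜 E) E).comp (Ysub 𝕜 E).subtypeL

theorem snd_apply (y : Ysp 𝕜 E) : snd y = y.1.2 := rfl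

theorem snd_inc (e : E) : snd (inc e : Ysp 𝕜 E) = e := rfl

theorem norm_snd_apply_le (y : Ysp 𝕜 E) : ‖snd y‖ ≤ ‖y‖ := Ysp.norm_snd_le y

end Pool.Agent.V11211.BPBSpace
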