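import Mathlib
import Pool.Agent.V11211.BPBSpace

/-!
Scalar BPB properties for `ℓ₄²` and `ℓ₁²`.
-/

open scoped ENNReal ComplexConjugate
open WithLp

namespace Pool.Agent.V11211.BPBDomain

open Pool.Agent.V11211.BPBSpace

variable (𝕜 : Type*) [RCLike 𝕜]

instance fact4 : Fact ((1 : ℝ≥0∞) ≤ 4) := ⟨by norm_num⟩

/-- the space `ℓ₄²` -/
abbrev X4 := WithLp 4 (𝕜 × 𝕜)

/-- the space `ℓ₁²` -/
abbrev X1 := WithLp 1 (𝕜 × 𝕜)

variable {𝕜}

theorem norm4 (x : X4 𝕜) : ‖x‖ ^ 4 = ‖x.fst‖ ^ 4 + ‖x.snd‖ ^ 4 := by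
  have h := WithLp.prod_norm_eq_of_nat (p := 4) 4 (by norm_num) x
  rw [h, ← Real.rpow_natCast, ← Real.rpow_mul (by positivity)]
  norm_num

theorem norm1 (x : X1 𝕜) : ‖x‖ = ‖x.fst‖ + ‖x.snd‖ := WithLp.prod_norm_eq_of_L1 x

theorem fst_le4 (x : X4 𝕜) : ‖x.fst‖ ≤ ‖x‖ := WithLp.norm_fst_le _ x

theorem snd_le4 (x : X4 𝕜) : ‖x.snd‖ ≤ ‖x‖ := WithLp.norm_snd_le _ x

/-- one-coordinate expansion -/
theorem expand (x h : 𝕜) (hx : ‖x‖ ≤ 1) (hh : ‖h‖ ≤ 1) {t : ℝ} (ht0 : 0 ≤ t) (ht1 : t ≤ 1) :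
    ‖x + (t : 𝕜) * h‖ ^ 4 ≤ ‖x‖ ^ 4 + 4 * t * (‖x‖ ^ 2 * RCLike.re (conj x * h)) + 11 * t ^ 2 := by
  set r := RCLike.re (conj x * h) with hr
  have hr1 : |r| ≤ 1 := by
    have h1 : |r| ≤ ‖conj x * h‖ := RCLike.abs_re_le_norm _
    rw [norm_mul, RCLike.norm_conj] at h1
    nlinarith [norm_nonneg x, norm_nonneg h]
  have hsq : ‖x + (t : 𝕜) * h‖ ^ 2 = ‖x‖ ^ 2 + 2 * t * r + t ^ 2 * ‖h‖ ^ 2 := by
    have h1 := RCLike.normSq_add x ((t : 𝕜) * h)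
    rw [RCLike.normSq_eq_def', RCLike.normSq_eq_def', RCLike.normSq_eq_def'] at h1
    rw [h1]
    have h2 : RCLike.re (x * conj ((t : 𝕜) * h)) = t * r := by
      rw [map_mul (starRingEnd 𝕜), RCLike.conj_ofReal, hr, mul_left_comm, RCLike.re_ofReal_mul]
      congr 1
      rw [← RCLike.conj_re (conj x * h), map_mul (starRingEnd 𝕜), RCLike.conj_conj]
    rw [h2, norm_mul, RCLike.norm_ofReal, mul_pow, sq_abs]
    ring
  have h4 : ‖x + (t : 𝕜) * h‖ ^ 4 = (‖x‖ ^ 2 + 2 * t * r + t ^ 2 * ‖h‖ ^ 2) ^ 2 := by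
    rw [← hsq]; ring
  rw [h4]
  have hx2 : ‖x‖ ^ 2 ≤ 1 := by nlinarith [norm_nonneg x]
  have hh2 : ‖h‖ ^ 2 ≤ 1 := by nlinarith [norm_nonneg h]
  have hx0 : 0 ≤ ‖x‖ ^ 2 := by positivity
  have hh0 : 0 ≤ ‖h‖ ^ 2 := by positivity
  set X := ‖x‖ ^ 2 with hX
  set H := ‖h‖ ^ 2 with hH
  have hx4 : ‖x‖ ^ 4 = X ^ 2 := by rw [hX]; ring
  rw [hx4]
  have hr2 : r ^ 2 ≤ 1 := by
    have := abs_le.1 hr1
    nlinarith
  have e : (X + 2 * t * r + t ^ 2 * H) ^ 2 = X ^ 2 + 4 * t * (X * r) +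
      t ^ 2 * (4 * r ^ 2 + 2 * X * H + 4 * t * r * H + t ^ 2 * H ^ 2) := by ring
  rw [e]
  have b1 : X * H ≤ 1 := by nlinarith
  have b2 : t * r * H ≤ 1 := by
    have h1 : |t * r * H| ≤ 1 := by
      rw [abs_mul, abs_mul, abs_of_nonneg ht0, abs_of_nonneg hh0]
      have h2 : t * |r| ≤ 1 := by nlinarith [abs_nonneg r]
      have h3 : 0 ≤ t * |r| := by positivity
      nlinarith
    exact (abs_le.1 h1).2
  have b3 : t ^ 2 * H ^ 2 ≤ 1 := by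
    have h1 : t ^ 2 ≤ 1 := by nlinarith
    have h2 : H ^ 2 ≤ 1 := by nlinarith
    have h3 : 0 ≤ H ^ 2 := by positivity
    nlinarith
  have b4 : 4 * r ^ 2 + 2 * X * H + 4 * t * r * H + t ^ 2 * H ^ 2 ≤ 11 := by nlinarith
  have ht2 : 0 ≤ t ^ 2 := by positivity
  nlinarith

/-- the norming functional of `x` in `ℓ₄²` (for `‖x‖ = 1`) -/
noncomputable def nf (x : X4 𝕜) : X4 𝕜 →L[𝕜] 𝕜 :=
  (((‖x.fst‖ ^ 2 : ℝ) : 𝕜) * conj x.fst) • (WithLp.fstL 4 𝕜 𝕜 𝕜) +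
    (((‖x.snd‖ ^ 2 : ℝ) : 𝕜) * conj x.snd) • (WithLp.sndL 4 𝕜 𝕜 𝕜)

theorem nf_apply (x h : X4 𝕜) : nf x h = ((‖x.fst‖ ^ 2 : ℝ) : 𝕜) * conj x.fst * h.fst +
    ((‖x.snd‖ ^ 2 : ℝ) : 𝕜) * conj x.snd * h.snd := rfl

theorem young (a h : ℝ) (ha : 0 ≤ a) (hh : 0 ≤ h) : a ^ 3 * h ≤ (3 * a ^ 4 + h ^ 4) / 4 := by
  have : 3 * a ^ 4 + h ^ 4 - 4 * (a ^ 3 * h) = (a - h) ^ 2 * (3 * a ^ 2 + 2 * a * h + h ^ 2) := by
    ring
  have h2 : 0 ≤ (a - h) ^ 2 * (3 * a ^ 2 + 2 * a * h + h ^ 2) := by positivity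
  linarith

theorem norm_nf_le {x : X4 𝕜} (hx : ‖x‖ = 1) : ‖nf x‖ ≤ 1 := by
  apply ContinuousLinearMap.opNorm_le_of_unit_norm zero_le_one
  intro h hh
  rw [nf_apply]
  have h1 := norm4 x
  have h2 := norm4 h
  rw [hx, one_pow] at h1
  rw [hh, one_pow] at h2
  have e1 : ‖((‖x.fst‖ ^ 2 : ℝ) : 𝕜) * conj x.fst * h.fst‖ = ‖x.fst‖ ^ 3 * ‖h.fst‖ := by
    rw [norm_mul, norm_mul, RCLike.norm_ofReal, RCLike.norm_conj, abs_of_nonneg (by positivity)]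
    ring
  have e2 : ‖((‖x.snd‖ ^ 2 : ℝ) : 𝕜) * conj x.snd * h.snd‖ = ‖x.snd‖ ^ 3 * ‖h.snd‖ := by
    rw [norm_mul, norm_mul, RCLike.norm_ofReal, RCLike.norm_conj, abs_of_nonneg (by positivity)]
    ring
  have y1 := young ‖x.fst‖ ‖h.fst‖ (norm_nonneg _) (norm_nonneg _)
  have y2 := young ‖x.snd‖ ‖h.snd‖ (norm_nonneg _) (norm_nonneg _)
  have := norm_add_le (((‖x.fst‖ ^ 2 : ℝ) : 𝕜) * conj x.fst * h.fst)
    (((‖x.snd‖ ^ 2 : ℝ) : 𝕜) * conj x.snd * h.snd)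
  rw [e1, e2] at this
  linarith

theorem nf_self {x : X4 𝕜} (hx : ‖x‖ = 1) : nf x x = 1 := by
  rw [nf_apply, mul_assoc, mul_assoc, RCLike.conj_mul, RCLike.conj_mul]
  have h1 := norm4 x
  rw [hx, one_pow] at h1
  have : ((‖x.fst‖ ^ 2 : ℝ) : 𝕜) * (‖x.fst‖ : 𝕜) ^ 2 + ((‖x.snd‖ ^ 2 : ℝ) : 𝕜) *
      (‖x.snd‖ : 𝕜) ^ 2 = ((‖x.fst‖ ^ 4 + ‖x.snd‖ ^ 4 : ℝ) : 𝕜) := by
    push_cast; ring
  rw [this, ← h1, RCLike.ofReal_one]

/-- `ℓ₄²` has the scalar pointwise property -/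
theorem scalarPt : ScalarPt 𝕜 (X4 𝕜) := by
  intro ε hε
  set t : ℝ := min 1 (ε / 7) with ht
  have ht0 : 0 < t := lt_min one_pos (by positivity)
  have ht1 : t ≤ 1 := min_le_left _ _
  have ht2 : t ≤ ε / 7 := min_le_right _ _
  refine ⟨t ^ 2, by positivity, by nlinarith, fun f hf x₀ hx₀ hfx => ?_⟩
  set z := f x₀ with hz
  have hzpos : 0 < ‖z‖ := by
    have : t ^ 2 ≤ 1 := by nlinarith
    linarith
  have hz0 : (‖z‖ : 𝕜) ≠ 0 := by exact_mod_cast hzpos.ne'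
  set c : 𝕜 := z / (‖z‖ : 𝕜) with hc
  have hcn : ‖c‖ = 1 := by
    rw [hc, norm_div, RCLike.norm_ofReal, abs_norm, div_self hzpos.ne']
  have hcc : conj c * c = 1 := by
    rw [RCLike.conj_mul, hcn]; simp
  have hcz : conj c * z = (‖z‖ : 𝕜) := by
    rw [hc, map_div₀, RCLike.conj_ofReal, div_mul_eq_mul_div, RCLike.conj_mul, pow_two,
      mul_div_assoc, div_self hz0, mul_one]
  set f' : X4 𝕜 →L[𝕜] 𝕜 := conj c • f with hf'
  have hf'n : ‖f'‖ ≤ 1 := by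
    rw [hf', norm_smul, RCLike.norm_conj, hcn, one_mul]; exact hf
  have hf'x : f' x₀ = (‖z‖ : 𝕜) := by
    rw [hf']
    change conj c * f x₀ = _
    rw [← hz, hcz]
  have hcf : c • f' = f := by
    rw [hf', smul_smul, mul_comm, hcc, one_smul]
  -- real part estimate
  have hre : ∀ h : X4 𝕜, ‖h‖ = 1 → RCLike.re (f' h - nf x₀ h) ≤ 13 / 2 * t := by
    intro h hh
    have n1 := norm4 (x₀ + (t : 𝕜) • h)
    have hx1 : ‖x₀.fst‖ ≤ 1 := (fst_le4 x₀).trans hx₀.le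
    have hx2 : ‖x₀.snd‖ ≤ 1 := (snd_le4 x₀).trans hx₀.le
    have hh1 : ‖h.fst‖ ≤ 1 := (fst_le4 h).trans hh.le
    have hh2 : ‖h.snd‖ ≤ 1 := (snd_le4 h).trans hh.le
    have e1 := expand x₀.fst h.fst hx1 hh1 ht0.le ht1
    have e2 := expand x₀.snd h.snd hx2 hh2 ht0.le ht1
    have n2 : ‖x₀ + (t : 𝕜) • h‖ ^ 4 ≤ 1 + 4 * t * RCLike.re (nf x₀ h) + 22 * t ^ 2 := by
      have h0 := norm4 x₀
      rw [hx₀, one_pow] at h0
      have e3 : RCLike.re (nf x₀ h) = ‖x₀.fst‖ ^ 2 * RCLike.re (conj x₀.fst * h.fst) +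
          ‖x₀.snd‖ ^ 2 * RCLike.re (conj x₀.snd * h.snd) := by
        rw [nf_apply, map_add, mul_assoc, mul_assoc, RCLike.re_ofReal_mul, RCLike.re_ofReal_mul]
      have e4 : (x₀ + (t : 𝕜) • h).fst = x₀.fst + (t : 𝕜) * h.fst := rfl
      have e5 : (x₀ + (t : 𝕜) • h).snd = x₀.snd + (t : 𝕜) * h.snd := rfl
      rw [n1, e4, e5, e3]
      linarith
    have n3 : RCLike.re (f' (x₀ + (t : 𝕜) • h)) ≤ ‖x₀ + (t : 𝕜) • h‖ := by
      calc RCLike.re (f' (x₀ + (t : 𝕜) • h)) ≤ ‖f' (x₀ + (t : 𝕜) • h)‖ := RCLike.re_le_norm _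
        _ ≤ ‖f'‖ * ‖x₀ + (t : 𝕜) • h‖ := f'.le_opNorm _
        _ ≤ 1 * ‖x₀ + (t : 𝕜) • h‖ := mul_le_mul_of_nonneg_right hf'n (norm_nonneg _)
        _ = _ := one_mul _
    have n4 := young 1 ‖x₀ + (t : 𝕜) • h‖ zero_le_one (norm_nonneg _)
    have n5 : RCLike.re (f' (x₀ + (t : 𝕜) • h)) = ‖z‖ + t * RCLike.re (f' h) := by
      rw [map_add, map_smul, map_add, hf'x, smul_eq_mul, RCLike.re_ofReal_mul, RCLike.ofReal_re]
    rw [n5] at n3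
    have n6 : t * RCLike.re (f' h - nf x₀ h) ≤ t * (13 / 2 * t) := by
      rw [map_sub, mul_sub]
      nlinarith
    exact le_of_mul_le_mul_left n6 ht0
  have hnorm : ‖nf x₀ - f'‖ ≤ 13 / 2 * t := by
    rw [norm_sub_rev]
    apply ContinuousLinearMap.opNorm_le_of_unit_norm (by positivity)
    intro h hh
    set w := (f' - nf x₀) h with hw
    by_cases hw0 : ‖w‖ = 0
    · rw [hw0]; positivity
    have hwpos : 0 < ‖w‖ := lt_of_le_of_ne (norm_nonneg _) (Ne.symm hw0)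
    have hw0' : (‖w‖ : 𝕜) ≠ 0 := by exact_mod_cast hw0
    set θ : 𝕜 := conj w / (‖w‖ : 𝕜) with hθ
    have hθn : ‖θ‖ = 1 := by
      rw [hθ, norm_div, RCLike.norm_conj, RCLike.norm_ofReal, abs_norm, div_self hw0]
    have h1 := hre (θ • h) (by rw [norm_smul, hθn, hh, one_mul])
    have h2 : f' (θ • h) - nf x₀ (θ • h) = (‖w‖ : 𝕜) := by
      rw [map_smul, map_smul, smul_eq_mul, smul_eq_mul, ← mul_sub]
      have : f' h - nf x₀ h = w := rfl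
      rw [this, hθ, div_mul_eq_mul_div, RCLike.conj_mul, pow_two, mul_div_assoc, div_self hw0',
        mul_one]
    rw [h2, RCLike.ofReal_re] at h1
    exact h1
  refine ⟨c • nf x₀, ?_, ?_, ?_⟩
  · rw [norm_smul, hcn, one_mul]
    exact norm_nf_le hx₀
  · change ‖c * nf x₀ x₀‖ = 1
    rw [nf_self hx₀, mul_one, hcn]
  · have : c • nf x₀ - f = c • (nf x₀ - f') := by rw [smul_sub, hcf]
    rw [this, norm_smul, hcn, one_mul]
    linarith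

/-- the functional on `ℓ₁²` with coefficients `a`, `b` -/
noncomputable def fl (a b : 𝕜) : X1 𝕜 →L[𝕜] 𝕜 :=
  a • (WithLp.fstL 1 𝕜 𝕜 𝕜) + b • (WithLp.sndL 1 𝕜 𝕜 𝕜)

theorem fl_apply (a b : 𝕜) (x : X1 𝕜) : fl a b x = a * x.fst + b * x.snd := rfl

theorem norm_fl_le {a b : 𝕜} {C : ℝ} (hC : 0 ≤ C) (ha : ‖a‖ ≤ C) (hb : ‖b‖ ≤ C) :
    ‖fl a b‖ ≤ C := by
  apply ContinuousLinearMap.opNorm_le_bound _ hC
  intro x
  rw [fl_apply, norm1, mul_add]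
  calc ‖a * x.fst + b * x.snd‖ ≤ ‖a * x.fst‖ + ‖b * x.snd‖ := norm_add_le _ _
    _ = ‖a‖ * ‖x.fst‖ + ‖b‖ * ‖x.snd‖ := by rw [norm_mul, norm_mul]
    _ ≤ _ := add_le_add (mul_le_mul_of_nonneg_right ha (norm_nonneg _))
        (mul_le_mul_of_nonneg_right hb (norm_nonneg _))

theorem fl_sub (a b a' b' : 𝕜) : fl a b - fl a' b' = fl (a - a') (b - b') := by
  ext x
  change (a * x.fst + b * x.snd) - (a' * x.fst + b' * x.snd) = (a - a') * x.fst + (b - b') * x.snd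
  ring

/-- basis vectors -/
def b1 : X1 𝕜 := toLp 1 (1, 0)

/-- basis vectors -/
def b2 : X1 𝕜 := toLp 1 (0, 1)

theorem eq_comb (x : X1 𝕜) : x = x.fst • b1 + x.snd • b2 := by
  apply WithLp.ofLp_injective
  apply Prod.ext
  · change x.fst = x.fst * 1 + x.snd * 0
    ring
  · change x.snd = x.fst * 0 + x.snd * 1
    ring

theorem norm_b1 : ‖(b1 : X1 𝕜)‖ = 1 := by
  rw [norm1]
  change ‖(1 : 𝕜)‖ + ‖(0 : 𝕜)‖ = 1
  simp

theorem norm_b2 : ‖(b2 : X1 𝕜)‖ = 1 := by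
  rw [norm1]
  change ‖(0 : 𝕜)‖ + ‖(1 : 𝕜)‖ = 1
  simp

theorem eq_fl (f : X1 𝕜 →L[𝕜] 𝕜) : f = fl (f b1) (f b2) := by
  ext x
  rw [fl_apply]
  conv_lhs => rw [eq_comb x]
  rw [map_add, map_smul, map_smul, smul_eq_mul, smul_eq_mul]
  ring

/-- near-norming implies near the phase -/
theorem near_phase {p x : 𝕜} (hp : ‖p‖ ≤ 1) {δ η : ℝ} (hδ : 0 < δ) (hx : δ ≤ ‖x‖) 
    (h : ‖x‖ - η ≤ RCLike.re (p * x)) (hη : 0 ≤ η) :
    ‖conj (x / (‖x‖ : 𝕜)) - p‖ ^ 2 ≤ 2 * (η / δ) := by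
  have hxpos : 0 < ‖x‖ := lt_of_lt_of_le hδ hx
  have hx0 : (‖x‖ : 𝕜) ≠ 0 := by exact_mod_cast hxpos.ne'
  set u : 𝕜 := x / (‖x‖ : 𝕜) with hu
  have hun : ‖u‖ = 1 := by
    rw [hu, norm_div, RCLike.norm_ofReal, abs_norm, div_self hxpos.ne']
  have hpu : RCLike.re (p * u) = RCLike.re (p * x) / ‖x‖ := by
    have : p * u = ((‖x‖⁻¹ : ℝ) : 𝕜) * (p * x) := by
      rw [hu, RCLike.ofReal_inv]; field_simp
    rw [this, RCLike.re_ofReal_mul, div_eq_inv_mul]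
  have h1 : 1 - η / δ ≤ RCLike.re (p * u) := by
    rw [hpu, le_div_iff₀ hxpos]
    have h2 : η ≤ η / δ * ‖x‖ := by
      rw [div_mul_eq_mul_div, le_div_iff₀ hδ]
      exact mul_le_mul_of_nonneg_left hx hη
    nlinarith
  have h2 : ‖conj u - p‖ ^ 2 = 1 - 2 * RCLike.re (p * u) + ‖p‖ ^ 2 := by
    have h3 := RCLike.normSq_sub (conj u) p
    rw [RCLike.normSq_eq_def', RCLike.normSq_eq_def', RCLike.normSq_eq_def', RCLike.norm_conj,
      hun] at h3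
    rw [h3]
    have h4 : RCLike.re (conj u * conj p) = RCLike.re (p * u) := by
      rw [← map_mul, RCLike.conj_re, mul_comm]
    rw [h4]
    ring
  have hp2 : ‖p‖ ^ 2 ≤ 1 := by nlinarith [norm_nonneg p]
  linarith

theorem scalarBPB : ScalarBPB 𝕜 (X1 𝕜) := by
  intro ε hε
  set δ : ℝ := min (1 / 4) (ε / 4) with hδ
  have hδ0 : 0 < δ := lt_min (by norm_num) (by positivity)
  have hδ1 : δ ≤ 1 / 4 := min_le_left _ _
  have hδ2 : δ ≤ ε / 4 := min_le_right _ _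
  set η : ℝ := min 1 (δ * ε ^ 2 / 4) with hη
  have hη0 : 0 < η := lt_min one_pos (by positivity)
  have hη1 : η ≤ 1 := min_le_left _ _
  have hη2 : η ≤ δ * ε ^ 2 / 4 := min_le_right _ _
  have hηδ : 2 * (η / δ) ≤ ε ^ 2 / 2 := by
    have : η / δ ≤ ε ^ 2 / 4 := by
      rw [div_le_iff₀ hδ0]; linarith
    linarith
  refine ⟨η, hη0, hη1, fun f hf x₀ hx₀ hfx => ?_⟩
  set z := f x₀ with hz
  have hzpos : 0 < ‖z‖ := by linarith
  have hz0 : (‖z‖ : 𝕜) ≠ 0 := by exact_mod_cast hzpos.ne'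
  set c : 𝕜 := z / (‖z‖ : 𝕜) with hc
  have hcn : ‖c‖ = 1 := by
    rw [hc, norm_div, RCLike.norm_ofReal, abs_norm, div_self hzpos.ne']
  have hcc : c * conj c = 1 := by
    rw [mul_comm, RCLike.conj_mul, hcn]; simp
  have hcz : conj c * z = (‖z‖ : 𝕜) := by
    rw [hc, map_div₀, RCLike.conj_ofReal, div_mul_eq_mul_div, RCLike.conj_mul, pow_two,
      mul_div_assoc, div_self hz0, mul_one]
  set a := x₀.fst with ha
  set b := x₀.snd with hb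
  have hab : ‖a‖ + ‖b‖ = 1 := by rw [← norm1, hx₀]
  set p := conj c * f b1 with hp
  set q := conj c * f b2 with hq
  have hpn : ‖p‖ ≤ 1 := by
    rw [hp, norm_mul, RCLike.norm_conj, hcn, one_mul]
    calc ‖f b1‖ ≤ ‖f‖ * ‖(b1 : X1 𝕜)‖ := f.le_opNorm _
      _ ≤ 1 := by rw [norm_b1, mul_one]; exact hf
  have hqn : ‖q‖ ≤ 1 := by
    rw [hq, norm_mul, RCLike.norm_conj, hcn, one_mul]
    calc ‖f b2‖ ≤ ‖f‖ * ‖(b2 : X1 𝕜)‖ := f.le_opNorm _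
      _ ≤ 1 := by rw [norm_b2, mul_one]; exact hf
  have hsum : p * a + q * b = (‖z‖ : 𝕜) := by
    rw [← hcz, hz]
    conv_rhs => rw [eq_fl f, fl_apply]
    rw [hp, hq]
    ring
  have hresum : RCLike.re (p * a) + RCLike.re (q * b) = ‖z‖ := by
    rw [← map_add, hsum, RCLike.ofReal_re]
  have hpa : RCLike.re (p * a) ≤ ‖a‖ := by
    calc RCLike.re (p * a) ≤ ‖p * a‖ := RCLike.re_le_norm _
      _ = ‖p‖ * ‖a‖ := norm_mul _ _
      _ ≤ 1 * ‖a‖ := mul_le_mul_of_nonneg_right hpn (norm_nonneg _)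
      _ = _ := one_mul _
  have hqb : RCLike.re (q * b) ≤ ‖b‖ := by
    calc RCLike.re (q * b) ≤ ‖q * b‖ := RCLike.re_le_norm _
      _ = ‖q‖ * ‖b‖ := norm_mul _ _
      _ ≤ 1 * ‖b‖ := mul_le_mul_of_nonneg_right hqn (norm_nonneg _)
      _ = _ := one_mul _
  have hpa' : ‖a‖ - η ≤ RCLike.re (p * a) := by linarith
  have hqb' : ‖b‖ - η ≤ RCLike.re (q * b) := by linarith
  set u : 𝕜 := a / (‖a‖ : 𝕜) with hu
  set v : 𝕜 := b / (‖b‖ : 𝕜) with hv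
  have hcp : c * p = f b1 := by rw [hp, ← mul_assoc, hcc, one_mul]
  have hcq : c * q = f b2 := by rw [hq, ← mul_assoc, hcc, one_mul]
  have small : ∀ {s : ℝ}, 0 ≤ s → s ^ 2 ≤ 2 * (η / δ) → s < ε := by
    intro s hs h
    by_contra hcon
    push Not at hcon
    nlinarith
  have hua : δ ≤ ‖a‖ → ‖u‖ = 1 ∧ conj u * a = (‖a‖ : 𝕜) := by
    intro h
    have hpos : 0 < ‖a‖ := lt_of_lt_of_le hδ0 h
    have h0 : (‖a‖ : 𝕜) ≠ 0 := by exact_mod_cast hpos.ne'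
    constructor
    · rw [hu, norm_div, RCLike.norm_ofReal, abs_norm, div_self hpos.ne']
    · rw [hu, map_div₀, RCLike.conj_ofReal, div_mul_eq_mul_div, RCLike.conj_mul, pow_two,
        mul_div_assoc, div_self h0, mul_one]
  have hvb : δ ≤ ‖b‖ → ‖v‖ = 1 ∧ conj v * b = (‖b‖ : 𝕜) := by
    intro h
    have hpos : 0 < ‖b‖ := lt_of_lt_of_le hδ0 h
    have h0 : (‖b‖ : 𝕜) ≠ 0 := by exact_mod_cast hpos.ne'
    constructor
    · rw [hv, norm_div, RCLike.norm_ofReal, abs_norm, div_self hpos.ne']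
    · rw [hv, map_div₀, RCLike.conj_ofReal, div_mul_eq_mul_div, RCLike.conj_mul, pow_two,
        mul_div_assoc, div_self h0, mul_one]
  have hd1 : δ ≤ ‖a‖ → ‖c * conj u - f b1‖ < ε := by
    intro h
    rw [← hcp, ← mul_sub, norm_mul, hcn, one_mul]
    exact small (norm_nonneg _) (near_phase hpn hδ0 h hpa' hη0.le)
  have hd2 : δ ≤ ‖b‖ → ‖c * conj v - f b2‖ < ε := by
    intro h
    rw [← hcq, ← mul_sub, norm_mul, hcn, one_mul]
    exact small (norm_nonneg _) (near_phase hqn hδ0 h hqb' hη0.le)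
  have hlt : ∀ {a' b' : 𝕜}, ‖a' - f b1‖ < ε → ‖b' - f b2‖ < ε → ‖fl a' b' - f‖ < ε := by
    intro a' b' h1 h2
    have e : fl a' b' - f = fl (a' - f b1) (b' - f b2) := by
      rw [← fl_sub, ← eq_fl]
    rw [e]
    calc ‖fl (a' - f b1) (b' - f b2)‖ ≤ max ‖a' - f b1‖ ‖b' - f b2‖ :=
          norm_fl_le (le_max_of_le_left (norm_nonneg _)) (le_max_left _ _) (le_max_right _ _)
      _ < ε := max_lt h1 h2
  have hf1 : ‖f b1‖ ≤ 1 := by
    calc ‖f b1‖ ≤ ‖f‖ * ‖(b1 : X1 𝕜)‖ := f.le_opNorm _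
      _ ≤ 1 := by rw [norm_b1, mul_one]; exact hf
  have hf2 : ‖f b2‖ ≤ 1 := by
    calc ‖f b2‖ ≤ ‖f‖ * ‖(b2 : X1 𝕜)‖ := f.le_opNorm _
      _ ≤ 1 := by rw [norm_b2, mul_one]; exact hf
  by_cases h1 : δ ≤ ‖a‖
  · by_cases h2 : δ ≤ ‖b‖
    · -- both coordinates large
      refine ⟨x₀, fl (c * conj u) (c * conj v), hx₀, ?_, ?_, by simpa using hε,
        hlt (hd1 h1) (hd2 h2)⟩
      · apply norm_fl_le zero_le_one
        · rw [norm_mul, RCLike.norm_conj, hcn, (hua h1).1, one_mul]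
        · rw [norm_mul, RCLike.norm_conj, hcn, (hvb h2).1, one_mul]
      · rw [fl_apply, mul_assoc, mul_assoc, ← mul_add, ← ha, ← hb, (hua h1).2, (hvb h2).2,
          ← RCLike.ofReal_add, hab, RCLike.ofReal_one, mul_one, hcn]
    · -- second coordinate small
      push Not at h2
      have hun := (hua h1).1
      refine ⟨toLp 1 (u, 0), fl (c * conj u) (f b2), ?_, ?_, ?_, ?_,
        hlt (hd1 h1) (by simpa using hε)⟩
      · rw [norm1]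
        change ‖u‖ + ‖(0 : 𝕜)‖ = 1
        rw [hun, norm_zero, add_zero]
      · apply norm_fl_le zero_le_one
        · rw [norm_mul, RCLike.norm_conj, hcn, hun, one_mul]
        · exact hf2
      · rw [fl_apply]
        change ‖c * conj u * u + f b2 * 0‖ = 1
        rw [mul_zero, add_zero, mul_assoc, RCLike.conj_mul, hun, RCLike.ofReal_one, one_pow,
          mul_one, hcn]
      · rw [norm1]
        change ‖u - a‖ + ‖(0 : 𝕜) - b‖ < ε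
        have e1 : ‖u - a‖ = ‖b‖ := by
          have hpos : 0 < ‖a‖ := lt_of_lt_of_le hδ0 h1
          have h0 : (‖a‖ : 𝕜) ≠ 0 := by exact_mod_cast hpos.ne'
          have : u - a = ((1 - ‖a‖ : ℝ) : 𝕜) * u := by
            rw [RCLike.ofReal_sub, sub_mul, RCLike.ofReal_one, one_mul, hu, mul_div_assoc',
              mul_comm (‖a‖ : 𝕜) a, mul_div_assoc, div_self h0, mul_one]
          rw [this, norm_mul, RCLike.norm_ofReal, hun, mul_one]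
          have : 1 - ‖a‖ = ‖b‖ := by linarith
          rw [this, abs_norm]
        rw [e1, zero_sub, norm_neg]
        linarith
  · -- first coordinate small
    push Not at h1
    have h2 : δ ≤ ‖b‖ := by linarith
    have hvn := (hvb h2).1
    refine ⟨toLp 1 (0, v), fl (f b1) (c * conj v), ?_, ?_, ?_, ?_,
      hlt (by simpa using hε) (hd2 h2)⟩
    · rw [norm1]
      change ‖(0 : 𝕜)‖ + ‖v‖ = 1
      rw [hvn, norm_zero, zero_add]
    · apply norm_fl_le zero_le_one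
      · exact hf1
      · rw [norm_mul, RCLike.norm_conj, hcn, hvn, one_mul]
    · rw [fl_apply]
      change ‖f b1 * 0 + c * conj v * v‖ = 1
      rw [mul_zero, zero_add, mul_assoc, RCLike.conj_mul, hvn, RCLike.ofReal_one, one_pow,
        mul_one, hcn]
    · rw [norm1]
      change ‖(0 : 𝕜) - a‖ + ‖v - b‖ < ε
      have e1 : ‖v - b‖ = ‖a‖ := by
        have hpos : 0 < ‖b‖ := lt_of_lt_of_le hδ0 h2
        have h0 : (‖b‖ : 𝕜) ≠ 0 := by exact_mod_cast hpos.ne'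
        have : v - b = ((1 - ‖b‖ : ℝ) : 𝕜) * v := by
          rw [RCLike.ofReal_sub, sub_mul, RCLike.ofReal_one, one_mul, hv, mul_div_assoc',
            mul_comm (‖b‖ : 𝕜) b, mul_div_assoc, div_self h0, mul_one]
        rw [this, norm_mul, RCLike.norm_ofReal, hvn, mul_one]
        have : 1 - ‖b‖ = ‖a‖ := by linarith
        rw [this, abs_norm]
      rw [e1, zero_sub, norm_neg]
      linarith

end Pool.Agent.V11211.BPBDomain
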