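import Mathlib
import Pool.Agent.V11211.BPBDefs
import Pool.Agent.V11211.BPBDomain

/-!
A 2-convex-like renorming `E` of `ℓ_∞` and the failure of the properties for `(ℓ₄², E)` and
`(ℓ₁², E)`.
-/

open scoped ENNReal
open WithLp

namespace Pool.Agent.V11211.BPBRange

open Pool.Agent.V11211.BPBDefs Pool.Agent.V11211.BPBDomain

section Generic

variable {𝕜 : Type*} [RCLike 𝕜] {A H : Type*} [NormedAddCommGroup A] [NormedSpace 𝕜 A]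
  [NormedAddCommGroup H] [InnerProductSpace 𝕜 H]

/-- two-point inequality -/
theorem conv1 (u v : WithLp 2 (A × H)) (t : ℝ) :
    2 * ‖u‖ ^ 2 + 2 * (t ^ 2 * ‖v.snd‖ ^ 2) ≤
      ‖u + (t : 𝕜) • v‖ ^ 2 + ‖u - (t : 𝕜) • v‖ ^ 2 := by
  rw [prod_norm_sq_eq_of_L2, prod_norm_sq_eq_of_L2, prod_norm_sq_eq_of_L2]
  have e1 : (u + (t : 𝕜) • v).fst = u.fst + (t : 𝕜) • v.fst := rfl
  have e2 : (u + (t : 𝕜) • v).snd = u.snd + (t : 𝕜) • v.snd := rfl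
  have e3 : (u - (t : 𝕜) • v).fst = u.fst - (t : 𝕜) • v.fst := rfl
  have e4 : (u - (t : 𝕜) • v).snd = u.snd - (t : 𝕜) • v.snd := rfl
  rw [e1, e2, e3, e4]
  have h1 := parallelogram_law_with_norm 𝕜 u.snd ((t : 𝕜) • v.snd)
  have h2 : ‖(t : 𝕜) • v.snd‖ = |t| * ‖v.snd‖ := by
    rw [norm_smul, RCLike.norm_ofReal]
  rw [h2] at h1
  have h3 : 2 * ‖u.fst‖ ≤ ‖u.fst + (t : 𝕜) • v.fst‖ + ‖u.fst - (t : 𝕜) • v.fst‖ := by
    have h4 : (2 : 𝕜) • u.fst = (u.fst + (t : 𝕜) • v.fst) + (u.fst - (t : 𝕜) • v.fst) := by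
      rw [two_smul]; abel
    have h5 : ‖(2 : 𝕜) • u.fst‖ = 2 * ‖u.fst‖ := by
      rw [norm_smul]; simp
    rw [← h5, h4]
    exact norm_add_le _ _
  have h6 : t ^ 2 * ‖v.snd‖ ^ 2 = |t| * ‖v.snd‖ * (|t| * ‖v.snd‖) := by
    rw [← sq_abs t]; ring
  rw [h6]
  nlinarith [norm_nonneg u.fst, sq_nonneg (‖u.fst + (t : 𝕜) • v.fst‖ -
    ‖u.fst - (t : 𝕜) • v.fst‖), norm_nonneg (u.fst + (t : 𝕜) • v.fst),
    norm_nonneg (u.fst - (t : 𝕜) • v.fst)]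

/-- convex combinations -/
theorem conv2 (p q : WithLp 2 (A × H)) {s t : ℝ} (hs : 0 ≤ s) (ht : 0 ≤ t) (hst : s + t = 1) :
    ‖(s : 𝕜) • p + (t : 𝕜) • q‖ ^ 2 ≤
      s * ‖p‖ ^ 2 + t * ‖q‖ ^ 2 - s * t * ‖p.snd - q.snd‖ ^ 2 := by
  rw [prod_norm_sq_eq_of_L2, prod_norm_sq_eq_of_L2, prod_norm_sq_eq_of_L2]
  have e1 : ((s : 𝕜) • p + (t : 𝕜) • q).fst = (s : 𝕜) • p.fst + (t : 𝕜) • q.fst := rfl
  have e2 : ((s : 𝕜) • p + (t : 𝕜) • q).snd = (s : 𝕜) • p.snd + (t : 𝕜) • q.snd := rfl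
  rw [e1, e2]
  have h1 : ‖(s : 𝕜) • p.snd + (t : 𝕜) • q.snd‖ ^ 2 =
      s * ‖p.snd‖ ^ 2 + t * ‖q.snd‖ ^ 2 - s * t * ‖p.snd - q.snd‖ ^ 2 := by
    rw [@norm_add_sq 𝕜, @norm_sub_sq 𝕜, norm_smul, norm_smul, RCLike.norm_ofReal,
      RCLike.norm_ofReal, inner_smul_left, inner_smul_right, RCLike.conj_ofReal,
      RCLike.re_ofReal_mul, RCLike.re_ofReal_mul, mul_pow, mul_pow, sq_abs, sq_abs]
    have ht' : t = 1 - s := by linarith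
    rw [ht']
    ring
  have h2 : ‖(s : 𝕜) • p.fst + (t : 𝕜) • q.fst‖ ≤ s * ‖p.fst‖ + t * ‖q.fst‖ := by
    refine (norm_add_le _ _).trans ?_
    rw [norm_smul, norm_smul, RCLike.norm_ofReal, RCLike.norm_ofReal, abs_of_nonneg hs,
      abs_of_nonneg ht]
  have h3 : ‖(s : 𝕜) • p.fst + (t : 𝕜) • q.fst‖ ^ 2 ≤ s * ‖p.fst‖ ^ 2 + t * ‖q.fst‖ ^ 2 := by
    have h4 : ‖(s : 𝕜) • p.fst + (t : 𝕜) • q.fst‖ ^ 2 ≤ (s * ‖p.fst‖ + t * ‖q.fst‖) ^ 2 :=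
      pow_le_pow_left₀ (norm_nonneg _) h2 2
    have h5 : (s * ‖p.fst‖ + t * ‖q.fst‖) ^ 2 =
        s * ‖p.fst‖ ^ 2 + t * ‖q.fst‖ ^ 2 - s * t * (‖p.fst‖ - ‖q.fst‖) ^ 2 := by
      have ht' : t = 1 - s := by linarith
      rw [ht']
      ring
    have h6 : 0 ≤ s * t * (‖p.fst‖ - ‖q.fst‖) ^ 2 := by positivity
    linarith
  rw [h1]
  linarith

end Generic

section Space

variable (𝕜 : Type*) [RCLike 𝕜]

/-- `ℓ_∞` -/
abbrev Ai := lp (fun _ : ℕ => 𝕜) ⊤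

/-- `ℓ_2` -/
abbrev Hi := lp (fun _ : ℕ => 𝕜) 2

/-- coordinate of the first component -/
noncomputable def c1 (n : ℕ) : WithLp 2 (Ai 𝕜 × Hi 𝕜) →L[𝕜] 𝕜 :=
  (lp.evalCLM 𝕜 (fun _ : ℕ => 𝕜) ⊤ n).comp (WithLp.fstL 2 𝕜 (Ai 𝕜) (Hi 𝕜))

/-- coordinate of the second component -/
noncomputable def c2 (n : ℕ) : WithLp 2 (Ai 𝕜 × Hi 𝕜) →L[𝕜] 𝕜 :=
  (lp.evalCLM 𝕜 (fun _ : ℕ => 𝕜) 2 n).comp (WithLp.sndL 2 𝕜 (Ai 𝕜) (Hi 𝕜))

/-- the graph subspace -/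
noncomputable def Esub : Submodule 𝕜 (WithLp 2 (Ai 𝕜 × Hi 𝕜)) :=
  ⨅ n : ℕ, LinearMap.ker ((c2 𝕜 n - ((1 / 2 : 𝕜) ^ n) • c1 𝕜 n).toLinearMap)

theorem mem_Esub {p : WithLp 2 (Ai 𝕜 × Hi 𝕜)} :
    p ∈ Esub 𝕜 ↔ ∀ n, c2 𝕜 n p = (1 / 2 : 𝕜) ^ n * c1 𝕜 n p := by
  rw [Esub, Submodule.mem_iInf]
  apply forall_congr'
  intro n
  rw [LinearMap.mem_ker]
  exact sub_eq_zero

theorem isClosed_Esub : IsClosed ((Esub 𝕜 : Submodule 𝕜 _) : Set (WithLp 2 (Ai 𝕜 × Hi 𝕜))) := by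
  have : ((Esub 𝕜 : Submodule 𝕜 _) : Set (WithLp 2 (Ai 𝕜 × Hi 𝕜))) =
      ⋂ n : ℕ, {p | c2 𝕜 n p = (1 / 2 : 𝕜) ^ n * c1 𝕜 n p} := by
    ext p
    rw [Set.mem_iInter]
    exact mem_Esub 𝕜
  rw [this]
  apply isClosed_iInter
  intro n
  exact isClosed_eq (c2 𝕜 n).continuous ((c1 𝕜 n).continuous.const_mul _)

/-- the space `E` -/
def Esp : Type _ := ↥(Esub 𝕜)

noncomputable instance : NormedAddCommGroup (Esp 𝕜) :=
  inferInstanceAs (NormedAddCommGroup ↥(Esub 𝕜))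

noncomputable instance : NormedSpace 𝕜 (Esp 𝕜) :=
  inferInstanceAs (NormedSpace 𝕜 ↥(Esub 𝕜))

instance : CompleteSpace (Esp 𝕜) := (isClosed_Esub 𝕜).completeSpace_coe

variable {𝕜}

/-- the `ℓ_2` component -/
noncomputable def sn (u : Esp 𝕜) : Hi 𝕜 := u.1.snd

/-- the `ℓ_∞` component -/
noncomputable def fs (u : Esp 𝕜) : Ai 𝕜 := u.1.fst

theorem econv1 (u v : Esp 𝕜) (t : ℝ) :
    2 * ‖u‖ ^ 2 + 2 * (t ^ 2 * ‖sn v‖ ^ 2) ≤ ‖u + (t : 𝕜) • v‖ ^ 2 + ‖u - (t : 𝕜) • v‖ ^ 2 :=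
  conv1 (𝕜 := 𝕜) u.1 v.1 t

theorem econv2 (p q : Esp 𝕜) {s t : ℝ} (hs : 0 ≤ s) (ht : 0 ≤ t) (hst : s + t = 1) :
    ‖(s : 𝕜) • p + (t : 𝕜) • q‖ ^ 2 ≤
      s * ‖p‖ ^ 2 + t * ‖q‖ ^ 2 - s * t * ‖sn p - sn q‖ ^ 2 :=
  conv2 (𝕜 := 𝕜) p.1 q.1 hs ht hst

theorem sn_sub (p q : Esp 𝕜) : sn (p - q) = sn p - sn q := rfl

theorem eq_zero_of_sn {v : Esp 𝕜} (h : sn v = 0) : v = 0 := by
  apply Subtype.ext
  apply WithLp.ofLp_injective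
  apply Prod.ext
  · apply lp.ext
    funext n
    have h1 := (mem_Esub 𝕜).1 v.2 n
    have h2 : c2 𝕜 n v.1 = 0 := by
      change (sn v : ∀ _ : ℕ, 𝕜) n = 0
      rw [h]; rfl
    rw [h2] at h1
    have h3 : c1 𝕜 n v.1 = 0 := by
      rcases mul_eq_zero.1 h1.symm with h4 | h4
      · exfalso
        have : (1 / 2 : 𝕜) ^ n ≠ 0 := pow_ne_zero _ (by norm_num)
        exact this h4
      · exact h4
    exact h3
  · exact h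

/-- the vectors `w n` -/
noncomputable def w (n : ℕ) : Esp 𝕜 :=
  ⟨toLp 2 (lp.single ⊤ n (1 : 𝕜), (1 / 2 : 𝕜) ^ n • lp.single 2 n (1 : 𝕜)), by
    rw [mem_Esub]
    intro m
    change (((1 / 2 : 𝕜) ^ n • lp.single 2 n (1 : 𝕜) : Hi 𝕜) : ∀ _ : ℕ, 𝕜) m =
      (1 / 2 : 𝕜) ^ m * ((lp.single ⊤ n (1 : 𝕜) : Ai 𝕜) : ∀ _ : ℕ, 𝕜) m
    rw [lp.coeFn_smul, Pi.smul_apply, smul_eq_mul]
    by_cases h : m = n
    · subst h
      rw [lp.single_apply_self (E := fun _ : ℕ => 𝕜), lp.single_apply_self (E := fun _ : ℕ => 𝕜)]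
    · rw [lp.single_apply_ne (E := fun _ : ℕ => 𝕜) _ _ _ h,
        lp.single_apply_ne (E := fun _ : ℕ => 𝕜) _ _ _ h, mul_zero, mul_zero]⟩

theorem one_le_norm_w (n : ℕ) : 1 ≤ ‖(w n : Esp 𝕜)‖ := by
  have h1 : ‖(w n : Esp 𝕜).1.fst‖ ≤ ‖(w n : Esp 𝕜).1‖ := WithLp.norm_fst_le _ _
  have h2 : ‖(w n : Esp 𝕜).1.fst‖ = 1 := by
    change ‖(lp.single ⊤ n (1 : 𝕜) : Ai 𝕜)‖ = 1
    rw [lp.norm_single (E := fun _ : ℕ => 𝕜) (by simp)]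
    simp
  rw [h2] at h1
  exact h1

theorem norm_comb (n : ℕ) (a b : 𝕜) {C : ℝ} (ha : ‖a‖ ≤ C) (hb : ‖b‖ ≤ C) :
    ‖a • (w n : Esp 𝕜) + b • w (n + 1)‖ ^ 2 ≤ C ^ 2 * (1 + 4 * (1 / 4) ^ n) := by
  have hC : 0 ≤ C := (norm_nonneg a).trans ha
  have h0 : ‖a • (w n : Esp 𝕜) + b • w (n + 1)‖ ^ 2 =
      ‖(a • (lp.single ⊤ n (1 : 𝕜) : Ai 𝕜) + b • lp.single ⊤ (n + 1) (1 : 𝕜))‖ ^ 2 +
      ‖(a • ((1 / 2 : 𝕜) ^ n • (lp.single 2 n (1 : 𝕜) : Hi 𝕜)) +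
        b • ((1 / 2 : 𝕜) ^ (n + 1) • lp.single 2 (n + 1) (1 : 𝕜)))‖ ^ 2 :=
    prod_norm_sq_eq_of_L2 ((a • (w n : Esp 𝕜) + b • w (n + 1) : Esp 𝕜).1)
  rw [h0]
  have h1 : ‖(a • (lp.single ⊤ n (1 : 𝕜) : Ai 𝕜) + b • lp.single ⊤ (n + 1) (1 : 𝕜))‖ ≤ C := by
    apply lp.norm_le_of_forall_le hC
    intro m
    rw [lp.coeFn_add, lp.coeFn_smul, lp.coeFn_smul, Pi.add_apply, Pi.smul_apply, Pi.smul_apply]
    by_cases h : m = n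
    · subst h
      rw [lp.single_apply_self (E := fun _ : ℕ => 𝕜),
        lp.single_apply_ne (E := fun _ : ℕ => 𝕜) _ _ _ (by omega : m ≠ m + 1)]
      simpa using ha
    · rw [lp.single_apply_ne (E := fun _ : ℕ => 𝕜) _ _ _ h]
      by_cases h' : m = n + 1
      · subst h'
        rw [lp.single_apply_self (E := fun _ : ℕ => 𝕜)]
        simpa using hb
      · rw [lp.single_apply_ne (E := fun _ : ℕ => 𝕜) _ _ _ h']
        simpa using hC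
  have hhalf : ‖(1 / 2 : 𝕜)‖ = 1 / 2 := by simp
  have h2 : ‖(a • ((1 / 2 : 𝕜) ^ n • (lp.single 2 n (1 : 𝕜) : Hi 𝕜)) +
        b • ((1 / 2 : 𝕜) ^ (n + 1) • lp.single 2 (n + 1) (1 : 𝕜)))‖ ≤ 2 * C * (1 / 2) ^ n := by
    refine (norm_add_le _ _).trans ?_
    rw [norm_smul, norm_smul, norm_smul, norm_smul, norm_pow, norm_pow, hhalf,
      lp.norm_single (E := fun _ : ℕ => 𝕜) (by simp), lp.norm_single (E := fun _ : ℕ => 𝕜) (by simp),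
      norm_one, mul_one, mul_one]
    have e1 : ‖a‖ * (1 / 2) ^ n ≤ C * (1 / 2) ^ n := mul_le_mul_of_nonneg_right ha (by positivity)
    have e2 : ‖b‖ * (1 / 2) ^ (n + 1) ≤ C * (1 / 2) ^ n := by
      apply mul_le_mul hb _ (by positivity) hC
      exact pow_le_pow_of_le_one (by norm_num) (by norm_num) (Nat.le_succ n)
    linarith
  have h3 : ‖(a • (lp.single ⊤ n (1 : 𝕜) : Ai 𝕜) + b • lp.single ⊤ (n + 1) (1 : 𝕜))‖ ^ 2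
      ≤ C ^ 2 := pow_le_pow_left₀ (norm_nonneg _) h1 2
  have h4 : ‖(a • ((1 / 2 : 𝕜) ^ n • (lp.single 2 n (1 : 𝕜) : Hi 𝕜)) +
        b • ((1 / 2 : 𝕜) ^ (n + 1) • lp.single 2 (n + 1) (1 : 𝕜)))‖ ^ 2
        ≤ (2 * C * (1 / 2) ^ n) ^ 2 := pow_le_pow_left₀ (norm_nonneg _) h2 2
  have h5 : (2 * C * (1 / 2 : ℝ) ^ n) ^ 2 = C ^ 2 * (4 * (1 / 4) ^ n) := by
    have : ((1 / 2 : ℝ) ^ n) ^ 2 = (1 / 4) ^ n := by
      rw [← pow_mul, mul_comm, pow_mul]; norm_num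
    rw [mul_pow, mul_pow, this]; ring
  rw [h5] at h4
  linarith

end Space

section Fail

variable {𝕜 : Type*} [RCLike 𝕜]

theorem exists_pow_small {η : ℝ} (hη : 0 < η) : ∃ n : ℕ, 4 * (1 / 4 : ℝ) ^ n < η ∧ 1 ≤ n := by
  obtain ⟨n, hn⟩ := exists_pow_lt_of_lt_one (show (0 : ℝ) < η / 4 by positivity)
    (show (1 / 4 : ℝ) < 1 by norm_num)
  refine ⟨n + 1, ?_, by omega⟩
  rw [pow_succ]
  have : 0 < (1 / 4 : ℝ) ^ n := by positivity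
  linarith

/-- common scaling step: an operator `T₀` with `‖T₀‖² ≤ 1 + 4 · 4⁻ⁿ` and `‖T₀ x₀‖ ≥ 1` -/
theorem scale {X E : Type*} [NormedAddCommGroup X] [NormedSpace 𝕜 X] [NormedAddCommGroup E]
    [NormedSpace 𝕜 E] (T₀ : X →L[𝕜] E) {δ η : ℝ} (hδ : 0 ≤ δ) (hδη : δ < η) (hδ1 : δ ≤ 1)
    (hN : ‖T₀‖ ^ 2 ≤ 1 + δ) {x₀ : X} (hx₀ : ‖x₀‖ = 1) (h1 : 1 ≤ ‖T₀ x₀‖) :
    ∃ c : ℝ, 1 / 2 ≤ c ∧ ‖(c : 𝕜) • T₀‖ = 1 ∧ 1 - η < ‖((c : 𝕜) • T₀) x₀‖ := by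
  have hN1 : 1 ≤ ‖T₀‖ := by
    have := T₀.le_opNorm x₀
    rw [hx₀, mul_one] at this
    linarith
  have hNpos : 0 < ‖T₀‖ := by linarith
  have hNle : ‖T₀‖ ≤ 1 + δ := by nlinarith
  refine ⟨‖T₀‖⁻¹, ?_, ?_, ?_⟩
  · rw [one_div]
    exact inv_anti₀ hNpos (by linarith)
  · rw [norm_smul, RCLike.norm_ofReal, abs_of_pos (inv_pos.2 hNpos)]
    exact inv_mul_cancel₀ hNpos.ne'
  · rw [smul_apply, norm_smul, RCLike.norm_ofReal, abs_of_pos (inv_pos.2 hNpos),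
      inv_mul_eq_div]
    have h2 : 1 - η < 1 / ‖T₀‖ := by
      rw [lt_div_iff₀ hNpos]
      by_cases hη : η ≤ 1
      · nlinarith
      · push Not at hη
        nlinarith
    exact lt_of_lt_of_le h2 (div_le_div_of_nonneg_right h1 hNpos.le)

/-- `(ℓ₄², E)` fails the pointwise BPB property -/
theorem fail4 : ¬ PointwiseBPB 𝕜 (X4 𝕜) (Esp 𝕜) := by
  intro h
  obtain ⟨η, hη, h⟩ := h (1 / 2) (by norm_num)
  obtain ⟨n, hn, hn1⟩ := exists_pow_small hη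
  set e1 : X4 𝕜 := toLp 4 (1, 0) with he1
  set e2 : X4 𝕜 := toLp 4 (0, 1) with he2
  have ne1 : ‖e1‖ = 1 := by
    have h1 := norm4 e1
    have h2 : ‖e1.fst‖ = 1 := by change ‖(1 : 𝕜)‖ = 1; simp
    have h3 : ‖e1.snd‖ = 0 := by change ‖(0 : 𝕜)‖ = 0; simp
    rw [h2, h3] at h1
    have h4 : ‖e1‖ ^ 4 = 1 ^ 4 := by rw [h1]; norm_num
    exact (pow_left_inj₀ (norm_nonneg _) zero_le_one (by norm_num)).1 h4
  have ne2 : ‖e2‖ = 1 := by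
    have h1 := norm4 e2
    have h2 : ‖e2.fst‖ = 0 := by change ‖(0 : 𝕜)‖ = 0; simp
    have h3 : ‖e2.snd‖ = 1 := by change ‖(1 : 𝕜)‖ = 1; simp
    rw [h2, h3] at h1
    have h4 : ‖e2‖ ^ 4 = 1 ^ 4 := by rw [h1]; norm_num
    exact (pow_left_inj₀ (norm_nonneg _) zero_le_one (by norm_num)).1 h4
  let T₀ : X4 𝕜 →L[𝕜] Esp 𝕜 := (WithLp.sndL 4 𝕜 𝕜 𝕜).smulRight (w n) +
    (WithLp.fstL 4 𝕜 𝕜 𝕜).smulRight (w (n + 1))
  have hT₀ : ∀ x, T₀ x = x.snd • w n + x.fst • w (n + 1) := fun x => rfl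
  have hN : ‖T₀‖ ^ 2 ≤ 1 + 4 * (1 / 4) ^ n := by
    have hM : 0 ≤ 1 + 4 * (1 / 4 : ℝ) ^ n := by positivity
    have h1 : ‖T₀‖ ≤ Real.sqrt (1 + 4 * (1 / 4) ^ n) := by
      apply ContinuousLinearMap.opNorm_le_bound _ (Real.sqrt_nonneg _)
      intro x
      have h2 := norm_comb n x.snd x.fst (snd_le4 x) (fst_le4 x)
      rw [← hT₀] at h2
      have h3 : ‖T₀ x‖ ≤ Real.sqrt (‖x‖ ^ 2 * (1 + 4 * (1 / 4) ^ n)) := Real.le_sqrt_of_sq_le h2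
      rw [Real.sqrt_mul (sq_nonneg _), Real.sqrt_sq (norm_nonneg _), mul_comm] at h3
      exact h3
    calc ‖T₀‖ ^ 2 ≤ Real.sqrt (1 + 4 * (1 / 4) ^ n) ^ 2 :=
          pow_le_pow_left₀ (norm_nonneg _) h1 2
      _ = _ := Real.sq_sqrt hM
  have hTe2 : T₀ e2 = w n := by
    rw [hT₀]
    change (1 : 𝕜) • w n + (0 : 𝕜) • w (n + 1) = _
    simp
  have hTe1 : T₀ e1 = w (n + 1) := by
    rw [hT₀]
    change (0 : 𝕜) • w n + (1 : 𝕜) • w (n + 1) = _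
    simp
  have hδ1 : 4 * (1 / 4 : ℝ) ^ n ≤ 1 := by
    have : (1 / 4 : ℝ) ^ n ≤ (1 / 4) ^ 1 := pow_le_pow_of_le_one (by norm_num) (by norm_num) hn1
    linarith
  obtain ⟨c, hc, hc1, hc2⟩ := scale T₀ (by positivity) hn hδ1 hN ne2
    (by rw [hTe2]; exact one_le_norm_w n)
  obtain ⟨S, hS1, hS2, hS3⟩ := h _ hc1 e2 ne2 hc2
  -- `S e1 = 0`
  have hSe1 : S e1 = 0 := by
    apply eq_zero_of_sn
    have key : ∀ t : ℝ, 0 < t → ‖sn (S e1)‖ ^ 2 ≤ t ^ 2 := by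
      intro t ht
      have h1 := econv1 (S e2) (S e1) t
      have hb : ∀ r : ℝ, |r| = t → ‖e2 + (r : 𝕜) • e1‖ ^ 2 ≤ 1 + t ^ 4 := by
        intro r hr
        have h2 := norm4 (e2 + (r : 𝕜) • e1)
        have h3 : (e2 + (r : 𝕜) • e1).fst = (r : 𝕜) := by
          change (0 : 𝕜) + (r : 𝕜) * 1 = _
          ring
        have h4 : (e2 + (r : 𝕜) • e1).snd = 1 := by
          change (1 : 𝕜) + (r : 𝕜) * 0 = _
          ring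
        rw [h3, h4, norm_one, one_pow, RCLike.norm_ofReal, hr] at h2
        have h5 : (‖e2 + (r : 𝕜) • e1‖ ^ 2) ^ 2 ≤ (1 + t ^ 4) ^ 2 := by
          rw [← pow_mul, h2]
          nlinarith [pow_pos ht 4]
        exact (pow_le_pow_iff_left₀ (by positivity) (by positivity) (by norm_num)).1 h5
      have hSle : ∀ z, ‖S z‖ ≤ ‖z‖ := fun z => by
        have := S.le_opNorm z
        rwa [hS1, one_mul] at this
      have h2 : ‖S e2 + (t : 𝕜) • S e1‖ ^ 2 ≤ 1 + t ^ 4 := by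
        rw [← map_smul, ← map_add]
        exact (pow_le_pow_left₀ (norm_nonneg _) (hSle _) 2).trans (hb t (abs_of_pos ht))
      have h3 : ‖S e2 - (t : 𝕜) • S e1‖ ^ 2 ≤ 1 + t ^ 4 := by
        have e : S e2 - (t : 𝕜) • S e1 = S (e2 + ((-t : ℝ) : 𝕜) • e1) := by
          rw [map_add, map_smul, RCLike.ofReal_neg, neg_smul, sub_eq_add_neg]
        rw [e]
        exact (pow_le_pow_left₀ (norm_nonneg _) (hSle _) 2).trans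
          (hb (-t) (by rw [abs_neg, abs_of_pos ht]))
      rw [hS2, one_pow] at h1
      have h4 : t ^ 2 * ‖sn (S e1)‖ ^ 2 ≤ t ^ 2 * t ^ 2 := by nlinarith
      exact le_of_mul_le_mul_left h4 (by positivity)
    have h0 : ‖sn (S e1)‖ = 0 := by
      by_contra hne
      have hpos : 0 < ‖sn (S e1)‖ := lt_of_le_of_ne (norm_nonneg _) (Ne.symm hne)
      have := key (‖sn (S e1)‖ / 2) (by positivity)
      nlinarith
    exact norm_eq_zero.1 h0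
  have h1 : ‖((c : 𝕜) • T₀) e1‖ ≤ ‖S - (c : 𝕜) • T₀‖ := by
    have h2 := (S - (c : 𝕜) • T₀).le_opNorm e1
    rw [sub_apply, hSe1, zero_sub, norm_neg, ne1, mul_one] at h2
    exact h2
  have h2 : 1 / 2 ≤ ‖((c : 𝕜) • T₀) e1‖ := by
    rw [smul_apply, norm_smul, RCLike.norm_ofReal, hTe1, abs_of_nonneg (by linarith)]
    have := one_le_norm_w (𝕜 := 𝕜) (n + 1)
    nlinarith
  linarith

/-- `(ℓ₁², E)` fails the BPBp -/
theorem fail1 : ¬ BPBp 𝕜 (X1 𝕜) (Esp 𝕜) := by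
  intro h
  obtain ⟨η, hη, h⟩ := h (1 / 50) (by norm_num)
  obtain ⟨n, hn, hn1⟩ := exists_pow_small hη
  let T₀ : X1 𝕜 →L[𝕜] Esp 𝕜 := (WithLp.fstL 1 𝕜 𝕜 𝕜).smulRight (w n + w (n + 1)) +
    (WithLp.sndL 1 𝕜 𝕜 𝕜).smulRight (w n - w (n + 1))
  have hT₀ : ∀ x, T₀ x = x.fst • (w n + w (n + 1)) + x.snd • (w n - w (n + 1)) := fun x => rfl
  set M := Real.sqrt (1 + 4 * (1 / 4) ^ n) with hM
  have hMsq : M ^ 2 = 1 + 4 * (1 / 4) ^ n := Real.sq_sqrt (by positivity)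
  have hp : ‖(w n + w (n + 1) : Esp 𝕜)‖ ≤ M := by
    apply Real.le_sqrt_of_sq_le
    have := norm_comb (𝕜 := 𝕜) n 1 1 (C := 1) (by simp) (by simp)
    simpa using this
  have hm : ‖(w n - w (n + 1) : Esp 𝕜)‖ ≤ M := by
    apply Real.le_sqrt_of_sq_le
    have := norm_comb (𝕜 := 𝕜) n 1 (-1) (C := 1) (by simp) (by simp)
    simpa [sub_eq_add_neg] using this
  have hN : ‖T₀‖ ^ 2 ≤ 1 + 4 * (1 / 4) ^ n := by
    have h1 : ‖T₀‖ ≤ M := by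
      apply ContinuousLinearMap.opNorm_le_bound _ (Real.sqrt_nonneg _)
      intro x
      rw [hT₀, norm1, mul_add]
      refine (norm_add_le _ _).trans ?_
      rw [norm_smul, norm_smul]
      have a1 := mul_le_mul_of_nonneg_left hp (norm_nonneg x.fst)
      have a2 := mul_le_mul_of_nonneg_left hm (norm_nonneg x.snd)
      linarith
    calc ‖T₀‖ ^ 2 ≤ M ^ 2 := pow_le_pow_left₀ (norm_nonneg _) h1 2
      _ = _ := hMsq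
  set x₀ : X1 𝕜 := toLp 1 (1 / 2, 1 / 2) with hx₀
  have hhalf : ‖(1 / 2 : 𝕜)‖ = 1 / 2 := by simp
  have nx₀ : ‖x₀‖ = 1 := by
    rw [norm1]
    change ‖(1 / 2 : 𝕜)‖ + ‖(1 / 2 : 𝕜)‖ = 1
    rw [hhalf]; norm_num
  have hTx₀ : T₀ x₀ = w n := by
    rw [hT₀]
    change (1 / 2 : 𝕜) • (w n + w (n + 1)) + (1 / 2 : 𝕜) • (w n - w (n + 1)) = _
    rw [← smul_add]
    have : (w n + w (n + 1) + (w n - w (n + 1)) : Esp 𝕜) = (2 : 𝕜) • w n := by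
      rw [two_smul]; abel
    rw [this, smul_smul]
    norm_num
  have hδ1 : 4 * (1 / 4 : ℝ) ^ n ≤ 1 := by
    have : (1 / 4 : ℝ) ^ n ≤ (1 / 4) ^ 1 := pow_le_pow_of_le_one (by norm_num) (by norm_num) hn1
    linarith
  obtain ⟨c, hc, hc1, hc2⟩ := scale T₀ (by positivity) hn hδ1 hN nx₀
    (by rw [hTx₀]; exact one_le_norm_w n)
  obtain ⟨x, S, hx, hS1, hS2, hxx, hS3⟩ := h _ hc1 x₀ nx₀ hc2
  set a := x.fst with ha
  set b := x.snd with hb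
  have hab : ‖a‖ + ‖b‖ = 1 := by rw [← norm1, hx]
  have hclose : ‖a - 1 / 2‖ + ‖b - 1 / 2‖ < 1 / 50 := by
    rw [norm1] at hxx
    exact hxx
  have ha1 : 1 / 2 - 1 / 50 < ‖a‖ := by
    have h1 := norm_sub_norm_le (1 / 2 : 𝕜) a
    rw [hhalf, norm_sub_rev] at h1
    have := norm_nonneg (b - 1 / 2)
    linarith
  have hb1 : 1 / 2 - 1 / 50 < ‖b‖ := by
    have h1 := norm_sub_norm_le (1 / 2 : 𝕜) b
    rw [hhalf, norm_sub_rev] at h1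
    have := norm_nonneg (a - 1 / 2)
    linarith
  have hapos : 0 < ‖a‖ := by linarith
  have hbpos : 0 < ‖b‖ := by linarith
  have ha0 : (‖a‖ : 𝕜) ≠ 0 := by exact_mod_cast hapos.ne'
  have hb0 : (‖b‖ : 𝕜) ≠ 0 := by exact_mod_cast hbpos.ne'
  set u : 𝕜 := a / (‖a‖ : 𝕜) with hu
  set v : 𝕜 := b / (‖b‖ : 𝕜) with hv
  have hun : ‖u‖ = 1 := by rw [hu, norm_div, RCLike.norm_ofReal, abs_norm, div_self hapos.ne']
  have hvn : ‖v‖ = 1 := by rw [hv, norm_div, RCLike.norm_ofReal, abs_norm, div_self hbpos.ne']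
  have hSle : ∀ z, ‖S z‖ ≤ ‖z‖ := fun z => by
    have := S.le_opNorm z
    rwa [hS1, one_mul] at this
  set p : Esp 𝕜 := u • S b1 with hpdef
  set q : Esp 𝕜 := v • S b2 with hqdef
  have hpn : ‖p‖ ≤ 1 := by
    rw [hpdef, norm_smul, hun, one_mul]
    exact (hSle _).trans norm_b1.le
  have hqn : ‖q‖ ≤ 1 := by
    rw [hqdef, norm_smul, hvn, one_mul]
    exact (hSle _).trans norm_b2.le
  have hSx : S x = (‖a‖ : 𝕜) • p + (‖b‖ : 𝕜) • q := by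
    conv_lhs => rw [eq_comb x]
    rw [map_add, map_smul, map_smul, hpdef, hqdef, smul_smul, smul_smul, hu, hv,
      mul_div_cancel₀ _ ha0, mul_div_cancel₀ _ hb0]
  have hpq : p = q := by
    have h1 := econv2 p q hapos.le hbpos.le hab
    rw [← hSx, hS2, one_pow] at h1
    have h2 : ‖p‖ ^ 2 ≤ 1 := by nlinarith [norm_nonneg p]
    have h3 : ‖q‖ ^ 2 ≤ 1 := by nlinarith [norm_nonneg q]
    have h4 : ‖a‖ * ‖b‖ * ‖sn p - sn q‖ ^ 2 ≤ 0 := by nlinarith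
    have h5 : ‖sn p - sn q‖ = 0 := by
      by_contra hne
      have hpos : 0 < ‖sn p - sn q‖ := lt_of_le_of_ne (norm_nonneg _) (Ne.symm hne)
      have : 0 < ‖a‖ * ‖b‖ * ‖sn p - sn q‖ ^ 2 := by positivity
      linarith
    have h6 : sn (p - q) = 0 := by
      rw [sn_sub]; exact norm_eq_zero.1 h5
    exact sub_eq_zero.1 (eq_zero_of_sn h6)
  -- `u` and `v` are close to `1`
  have hclose1 : ∀ {z : 𝕜}, 0 < ‖z‖ → 1 / 2 - 1 / 50 < ‖z‖ → ‖z - 1 / 2‖ < 1 / 50 →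
      ‖z / (‖z‖ : 𝕜) - 1‖ ≤ 1 / 12 := by
    intro z hz hz1 hz2
    have hz0 : (‖z‖ : 𝕜) ≠ 0 := by exact_mod_cast hz.ne'
    have e : z / (‖z‖ : 𝕜) - 1 = (z - (‖z‖ : 𝕜)) / (‖z‖ : 𝕜) := by
      rw [sub_div, div_self hz0]
    rw [e, norm_div, RCLike.norm_ofReal, abs_norm, div_le_iff₀ hz]
    have h1 : ‖z - (‖z‖ : 𝕜)‖ ≤ ‖z - 1 / 2‖ + ‖(1 / 2 : 𝕜) - (‖z‖ : 𝕜)‖ := norm_sub_le_norm_sub_add_norm_sub _ _ _
    have h2 : ‖(1 / 2 : 𝕜) - (‖z‖ : 𝕜)‖ ≤ ‖z - 1 / 2‖ := by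
      have e2 : (1 / 2 : 𝕜) - (‖z‖ : 𝕜) = ((1 / 2 - ‖z‖ : ℝ) : 𝕜) := by push_cast; ring
      rw [e2, RCLike.norm_ofReal]
      have h3 := abs_norm_sub_norm_le (1 / 2 : 𝕜) z
      rw [hhalf, norm_sub_rev] at h3
      exact h3
    linarith
  have ha2 : ‖a - 1 / 2‖ < 1 / 50 := by have := norm_nonneg (b - 1 / 2); linarith
  have hb2 : ‖b - 1 / 2‖ < 1 / 50 := by have := norm_nonneg (a - 1 / 2); linarith
  have hu1 := hclose1 hapos ha1 ha2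
  have hv1 := hclose1 hbpos hb1 hb2
  rw [← hu] at hu1
  rw [← hv] at hv1
  have hSb : ‖S b1 - S b2‖ ≤ 1 / 6 := by
    have e : S b1 - S b2 = (v - 1) • S b2 - (u - 1) • S b1 := by
      have h1 : u • S b1 = v • S b2 := hpq
      rw [sub_smul, sub_smul, one_smul, one_smul, h1]
      abel
    rw [e]
    refine (norm_sub_le _ _).trans ?_
    rw [norm_smul, norm_smul]
    have h1 : ‖S b1‖ ≤ 1 := (hSle _).trans norm_b1.le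
    have h2 : ‖S b2‖ ≤ 1 := (hSle _).trans norm_b2.le
    have h3 : ‖v - 1‖ * ‖S b2‖ ≤ 1 / 12 * 1 := mul_le_mul hv1 h2 (norm_nonneg _) (by norm_num)
    have h4 : ‖u - 1‖ * ‖S b1‖ ≤ 1 / 12 * 1 := mul_le_mul hu1 h1 (norm_nonneg _) (by norm_num)
    linarith
  -- the contradiction
  set T := (c : 𝕜) • T₀ with hT
  have hTb : ‖T b1 - T b2‖ ≤ 1 / 6 + 2 * (1 / 50) := by
    have e : T b1 - T b2 = (S b1 - S b2) - (S - T) b1 + (S - T) b2 := by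
      rw [sub_apply, sub_apply]; abel
    rw [e]
    have h1 : ‖(S - T) b1‖ ≤ 1 / 50 := by
      have := (S - T).le_opNorm b1
      rw [norm_b1, mul_one] at this
      linarith
    have h2 : ‖(S - T) b2‖ ≤ 1 / 50 := by
      have := (S - T).le_opNorm b2
      rw [norm_b2, mul_one] at this
      linarith
    have h3 := norm_add_le ((S b1 - S b2) - (S - T) b1) ((S - T) b2)
    have h4 := norm_sub_le (S b1 - S b2) ((S - T) b1)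
    linarith
  have hTb2 : T b1 - T b2 = ((c * 2 : ℝ) : 𝕜) • w (n + 1) := by
    have h1 : T₀ b1 = w n + w (n + 1) := by
      rw [hT₀]
      change (1 : 𝕜) • (w n + w (n + 1)) + (0 : 𝕜) • (w n - w (n + 1)) = _
      simp
    have h2 : T₀ b2 = w n - w (n + 1) := by
      rw [hT₀]
      change (0 : 𝕜) • (w n + w (n + 1)) + (1 : 𝕜) • (w n - w (n + 1)) = _
      simp
    rw [hT, smul_apply, smul_apply, h1, h2, ← smul_sub, RCLike.ofReal_mul, mul_smul]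
    congr 1
    have : ((2 : ℝ) : 𝕜) = 2 := RCLike.ofReal_ofNat 2
    rw [this, two_smul]
    abel
  rw [hTb2, norm_smul, RCLike.norm_ofReal, abs_of_nonneg (by linarith)] at hTb
  have := one_le_norm_w (𝕜 := 𝕜) (n + 1)
  nlinarith

theorem nontrivial : Nontrivial (Esp 𝕜) := by
  refine ⟨⟨w 0, 0, ?_⟩⟩
  intro h
  have := one_le_norm_w (𝕜 := 𝕜) 0
  rw [h, norm_zero] at this
  linarith

end Fail

end Pool.Agent.V11211.BPBRange
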