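import Pool.Agent.V11211.AT4

open scoped Pointwise ENNReal
open Filter Topology

namespace V11211.AT

variable {G : Type*} [Group G]

theorem halg_le (h : Quasihamiltonian G) (ht : ∀ g : G, IsOfFinOrder g) (φ : G →* G)
    (H : Subgroup G) [H.Normal] (hH : H ≤ H.comap φ) :
    halg φ ≤ halg (QuotientGroup.map H H φ hH) + halg (restr φ H hH) := by
  refine iSup_le ?_
  rintro ⟨S, hS, hS1⟩
  change Halg φ S ≤ _
  obtain ⟨F, hF, hSF⟩ := exists_finite_subgroup h ht hS
  have hFfin : (F : Set G).Finite := Set.toFinite _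
  have h1 : Halg φ S ≤ Halg φ (F : Set G) :=
    Halg_mono_of_lc hS hS1 hFfin F.one_mem (fun n => lc_mono φ hFfin hS1 hSF n)
  set N := Hs φ H hH with hN
  have hle : N ≤ N.comap φ := fun x hx => (Hs_iff φ H hH x).2 hx
  obtain ⟨E, hEfin, hE1, hEN, hE⟩ := upper_subgroup h φ N (Hs_iff φ H hH) hle F
  -- quotient part
  have h2 : Halg (QuotientGroup.map N N φ hle) (QuotientGroup.mk' N '' (F : Set G)) ≤
      halg (QuotientGroup.map H H φ hH) := by
    have hfin1 : (QuotientGroup.mk' H '' (F : Set G)).Finite := hFfin.image _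
    have h11 : (1 : G ⧸ H) ∈ QuotientGroup.mk' H '' (F : Set G) := ⟨1, F.one_mem, map_one _⟩
    have hfin2 : (QuotientGroup.mk' N '' (F : Set G)).Finite := hFfin.image _
    have h12 : (1 : G ⧸ N) ∈ QuotientGroup.mk' N '' (F : Set G) := ⟨1, F.one_mem, map_one _⟩
    refine le_trans ?_ (Halg_le_halg _ hfin1 h11)
    refine Halg_mono_of_lc hfin2 h12 hfin1 h11 (fun n => ?_)
    have hHN : H ≤ N.comap (MonoidHom.id G) := le_Hs φ H hH
    let ρ : G ⧸ H →* G ⧸ N := QuotientGroup.map H N (MonoidHom.id G) hHN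
    have hρ : ρ '' (QuotientGroup.mk' H '' (F : Set G)) = QuotientGroup.mk' N '' (F : Set G) := by
      rw [← Set.image_comp]
      apply Set.image_congr
      intro x _
      rfl
    rw [← hρ]
    apply lc_image_le ρ _ _ _ hfin1 h11
    intro x
    obtain ⟨y, rfl⟩ := QuotientGroup.mk'_surjective H x
    rfl
  -- restriction part
  have h3 : Halg φ E ≤ halg (restr φ H hH) := by
    -- a common j
    have hj : ∃ j, ∀ x ∈ E, (⇑φ)^[j] x ∈ H := by
      have key : ∀ (E' : Set G), E'.Finite → E' ⊆ N → ∃ j, ∀ x ∈ E', (⇑φ)^[j] x ∈ H := by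
        intro E' hE'
        induction E', hE' using Set.Finite.induction_on with
        | empty => intro _; exact ⟨0, fun x hx => hx.elim⟩
        | @insert a s _ _ ih =>
          intro hsub
          obtain ⟨j, hj⟩ := ih (fun x hx => hsub (Set.mem_insert_of_mem _ hx))
          obtain ⟨i, hi⟩ := hsub (Set.mem_insert a s)
          refine ⟨i + j, ?_⟩
          rintro x (rfl | hx)
          · rw [add_comm, Function.iterate_add_apply]; exact iter_mem φ hH j hi
          · rw [Function.iterate_add_apply]; exact iter_mem φ hH i (hj x hx)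
      exact key E hEfin hEN
    obtain ⟨j, hj⟩ := hj
    refine (Halg_iter φ hEfin hE1 j).trans ?_
    set E' : Set H := {x : H | (x : G) ∈ (⇑φ)^[j] '' E} with hE'
    have himg : H.subtype '' E' = (⇑φ)^[j] '' E := by
      ext x
      constructor
      · rintro ⟨y, hy, rfl⟩; exact hy
      · rintro ⟨y, hy, rfl⟩
        exact ⟨⟨_, hj y hy⟩, ⟨y, hy, rfl⟩, rfl⟩
    have hEfin' : E'.Finite := by
      apply Set.Finite.of_finite_image (f := H.subtype)
      · rw [himg]; exact hEfin.image _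
      · exact H.subtype_injective.injOn
    have hE1' : (1 : H) ∈ E' := ⟨1, hE1, iter_one φ j⟩
    refine le_trans ?_ (Halg_le_halg _ hEfin' hE1')
    refine Halg_mono_of_lc (hEfin.image _) ⟨1, hE1, iter_one φ j⟩ hEfin' hE1' (fun n => ?_)
    rw [← himg]
    apply le_of_eq
    exact lc_image_inj H.subtype H.subtype_injective (restr φ H hH) φ (fun _ => rfl) E' n
  exact h1.trans (hE.trans (add_le_add h2 h3))

theorem le_halg (h : Quasihamiltonian G) (ht : ∀ g : G, IsOfFinOrder g) (φ : G →* G)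
    (H : Subgroup G) [H.Normal] (hH : H ≤ H.comap φ) :
    halg (QuotientGroup.map H H φ hH) + halg (restr φ H hH) ≤ halg φ := by
  have i1 : Nonempty {F : Set (G ⧸ H) // F.Finite ∧ (1 : G ⧸ H) ∈ F} :=
    ⟨⟨{1}, Set.finite_singleton _, rfl⟩⟩
  have i2 : Nonempty {F : Set H // F.Finite ∧ (1 : H) ∈ F} :=
    ⟨⟨{1}, Set.finite_singleton _, rfl⟩⟩
  refine ENNReal.iSup_add_iSup_le ?_
  rintro ⟨A, hA, hA1⟩ ⟨E, hE, hE1⟩
  change Halg _ A + Halg _ E ≤ _
  set ψ := QuotientGroup.map H H φ hH with hψ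
  set π := QuotientGroup.mk' H with hπ
  have hcomm : ∀ x, π (φ x) = ψ (π x) := fun x => by simp [hπ, hψ]
  -- a finite subgroup covering both
  obtain ⟨F, hF, hSF⟩ := exists_finite_subgroup h ht
    ((hA.image Quotient.out).union (hE.image H.subtype))
  have hFfin : (F : Set G).Finite := Set.toFinite _
  have hAF : A ⊆ π '' (F : Set G) := by
    intro a ha
    exact ⟨Quotient.out a, hSF (Or.inl ⟨a, ha, rfl⟩), QuotientGroup.out_eq' a⟩
  have hEF : H.subtype '' E ⊆ (F : Set G) := fun x hx => hSF (Or.inr hx)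
  obtain ⟨L, _, hL⟩ := exists_growth φ hFfin F.one_mem
  obtain ⟨L1, hL1p, hL1⟩ := exists_growth ψ hA hA1
  obtain ⟨L2, hL2p, hL2⟩ := exists_growth (restr φ H hH) hE hE1
  refine le_trans ?_ (Halg_le_halg φ hFfin F.one_mem)
  rw [Halg_eq φ hL, Halg_eq ψ hL1, Halg_eq (restr φ H hH) hL2, ← ENNReal.ofReal_add hL1p hL2p]
  apply ENNReal.ofReal_le_ofReal
  have hsum : Tendsto (fun n : ℕ => (lc ψ A n + lc (restr φ H hH) E n) / n) atTop
      (𝓝 (L1 + L2)) := by
    simp_rw [add_div]
    exact hL1.add hL2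
  refine growth_le (j := 0) (c := 0) hsum hL (fun n => ?_)
  rw [zero_add, add_zero]
  have hfT := finite_Tg h φ F n
  have hfW : Finite (Tg φ F n ⊓ H : Subgroup G) := Finite.of_injective _
    (Subgroup.inclusion_injective (inf_le_left : Tg φ F n ⊓ H ≤ Tg φ F n))
  have h1 := card_map_mk H (Tg φ F n)
  have h2 : Nat.card ((Tg φ F n).map (QuotientGroup.mk' H)) =
      Nat.card (traj ψ (π '' (F : Set G)) n) := by
    rw [← map_traj π φ ψ hcomm, ← coe_Tg h, ← Subgroup.coe_map]
    rfl
  have h3 : Nat.card (traj ψ A n) ≤ Nat.card (traj ψ (π '' (F : Set G)) n) :=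
    card_mono (traj_mono ψ hAF n) (traj_finite ψ (hFfin.image _) n)
  have h4 : Nat.card (traj (restr φ H hH) E n) ≤ Nat.card (Tg φ F n ⊓ H : Subgroup G) := by
    rw [← card_image_inj H.subtype_injective,
      map_traj H.subtype (restr φ H hH) φ (fun _ => rfl)]
    have hsub : traj φ (H.subtype '' E) n ⊆ ((Tg φ F n ⊓ H : Subgroup G) : Set G) := by
      intro x hx
      refine ⟨?_, ?_⟩
      · change x ∈ ((Tg φ F n : Subgroup G) : Set G)
        rw [coe_Tg h]
        exact traj_mono φ hEF n hx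
      · rw [← map_traj H.subtype (restr φ H hH) φ (fun _ => rfl)] at hx
        obtain ⟨y, _, rfl⟩ := hx
        exact y.2
    exact card_mono hsub (Set.toFinite _)
  have p1 := card_traj_pos ψ hA hA1 n
  have p2 := card_traj_pos (restr φ H hH) hE hE1 n
  unfold lc
  rw [← Real.log_mul (by positivity) (by positivity), ← card_Tg h, h1, h2]
  apply Real.log_le_log (by positivity)
  exact_mod_cast Nat.mul_le_mul h3 h4

end V11211.AT
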