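import Mathlib

/-!
Duality maps on smooth complex normed spaces: basic facts.
-/

open Filter Topology

namespace Pool.Agent.V11211.SmoothJ

variable {X : Type*} [NormedAddCommGroup X] [NormedSpace ℂ X]

/-- `X` is smooth: each unit vector has exactly one norming functional of norm one. -/
def IsSmooth (X : Type*) [NormedAddCommGroup X] [NormedSpace ℂ X] : Prop :=
  ∀ x : X, ‖x‖ = 1 → ∃! f : X →L[ℂ] ℂ, ‖f‖ = 1 ∧ f x = 1

/-- The duality map: `J x` is a functional with `‖J x‖ = ‖x‖` and `J x x = ‖x‖ ^ 2`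
(unique when `X` is smooth). -/
noncomputable def J (x : X) : X →L[ℂ] ℂ :=
  Classical.epsilon fun f : X →L[ℂ] ℂ => ‖f‖ = ‖x‖ ∧ f x = (‖x‖ : ℂ) ^ 2

theorem exists_dual (x : X) : ∃ f : X →L[ℂ] ℂ, ‖f‖ = ‖x‖ ∧ f x = (‖x‖ : ℂ) ^ 2 := by
  obtain ⟨g, hg, hgx⟩ := exists_dual_vector'' ℂ x
  by_cases hx : ‖x‖ = 0
  · exact ⟨0, by simp [hx], by simp [hx]⟩
  · refine ⟨(‖x‖ : ℂ) • g, ?_, ?_⟩
    · rw [norm_smul]
      simp only [Complex.norm_real, norm_norm]
      have h1 : ‖g‖ = 1 := by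
        apply le_antisymm hg
        have h2 : ‖g x‖ ≤ ‖g‖ * ‖x‖ := g.le_opNorm x
        rw [hgx] at h2
        simp only [RCLike.norm_ofReal, abs_norm] at h2
        have hpos : 0 < ‖x‖ := lt_of_le_of_ne (norm_nonneg _) (Ne.symm hx)
        by_contra hlt
        push_neg at hlt
        nlinarith
      rw [h1, mul_one]
    · simp only [ContinuousLinearMap.smul_apply, hgx, smul_eq_mul]
      simp [pow_two]

theorem J_spec (x : X) : ‖J x‖ = ‖x‖ ∧ J x x = (‖x‖ : ℂ) ^ 2 :=
  Classical.epsilon_spec (exists_dual x)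

theorem norm_J (x : X) : ‖J x‖ = ‖x‖ := (J_spec x).1

theorem J_self (x : X) : J x x = (‖x‖ : ℂ) ^ 2 := (J_spec x).2

theorem norm_J_apply_le (x y : X) : ‖J x y‖ ≤ ‖x‖ * ‖y‖ := by
  have := (J x).le_opNorm y
  rwa [norm_J] at this

theorem J_unique (hX : IsSmooth X) {x : X} {f : X →L[ℂ] ℂ} (h1 : ‖f‖ ≤ ‖x‖)
    (h2 : f x = (‖x‖ : ℂ) ^ 2) : f = J x := by
  by_cases hx : ‖x‖ = 0
  · have hf : f = 0 := by
      rw [← norm_eq_zero]
      exact le_antisymm (hx ▸ h1) (norm_nonneg _)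
    have hJ : J x = 0 := by
      rw [← norm_eq_zero, norm_J, hx]
    rw [hf, hJ]
  · have hpos : 0 < ‖x‖ := lt_of_le_of_ne (norm_nonneg _) (Ne.symm hx)
    have hc : (‖x‖ : ℂ) ≠ 0 := by exact_mod_cast hx
    have hu : ‖((‖x‖ : ℂ)⁻¹ • x)‖ = 1 := by
      rw [norm_smul, norm_inv]
      simp only [Complex.norm_real, norm_norm]
      exact inv_mul_cancel₀ hx
    have key : ∀ g : X →L[ℂ] ℂ, ‖g‖ ≤ ‖x‖ → g x = (‖x‖ : ℂ) ^ 2 →
        ‖((‖x‖ : ℂ)⁻¹ • g)‖ = 1 ∧ ((‖x‖ : ℂ)⁻¹ • g) ((‖x‖ : ℂ)⁻¹ • x) = 1 := by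
      intro g hg1 hg2
      constructor
      · rw [norm_smul, norm_inv]
        simp only [Complex.norm_real, norm_norm]
        have : ‖g‖ = ‖x‖ := by
          apply le_antisymm hg1
          have h3 : ‖g x‖ ≤ ‖g‖ * ‖x‖ := g.le_opNorm x
          rw [hg2, norm_pow] at h3
          simp only [Complex.norm_real, norm_norm] at h3
          by_contra hlt
          push_neg at hlt
          nlinarith
        rw [this]
        exact inv_mul_cancel₀ hx
      · simp only [ContinuousLinearMap.smul_apply, map_smul, smul_eq_mul, hg2]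
        field_simp
    obtain ⟨f0, -, huniq⟩ := hX _ hu
    have e1 := huniq _ (key f h1 h2)
    have e2 := huniq _ (key (J x) (norm_J x).le (J_self x))
    have e3 : (‖x‖ : ℂ)⁻¹ • f = (‖x‖ : ℂ)⁻¹ • J x := by
      rw [e1]; exact e2.symm
    have := congrArg (fun g => (‖x‖ : ℂ) • g) e3
    simpa [smul_smul, hc] using this

theorem J_smul (hX : IsSmooth X) (r : ℝ) (x : X) : J ((r : ℂ) • x) = (r : ℂ) • J x := by
  symm
  apply J_unique hX
  · rw [norm_smul, norm_smul, norm_J]
  · simp only [ContinuousLinearMap.smul_apply, map_smul, smul_eq_mul, J_self, norm_smul,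
      Complex.norm_real, Real.norm_eq_abs]
    have : ((|r| * ‖x‖ : ℝ) : ℂ) ^ 2 = (r : ℂ) * ((r : ℂ) * (‖x‖ : ℂ) ^ 2) := by
      have h : (|r| * ‖x‖) ^ 2 = r * (r * ‖x‖ ^ 2) := by
        rw [mul_pow, sq_abs]; ring
      exact_mod_cast congrArg (fun t : ℝ => (t : ℂ)) h
    rw [this]

/-- the subgradient inequality -/
theorem subgradient (x z : X) : 2 * (J x (z - x)).re ≤ ‖z‖ ^ 2 - ‖x‖ ^ 2 := by
  have h1 : (J x z).re ≤ ‖x‖ * ‖z‖ := (Complex.re_le_norm _).trans (norm_J_apply_le x z)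
  have h2 : (J x x).re = ‖x‖ ^ 2 := by
    rw [J_self]
    have : ((‖x‖ : ℂ)) ^ 2 = ((‖x‖ ^ 2 : ℝ) : ℂ) := by push_cast; ring
    rw [this, Complex.ofReal_re]
  rw [map_sub, Complex.sub_re, h2]
  nlinarith [sq_nonneg (‖x‖ - ‖z‖)]

/-- norm-to-weak* continuity of the duality map of a smooth space -/
theorem tendsto_J (hX : IsSmooth X) (x y : X) : Tendsto (fun z : X => J z y) (𝓝 x) (𝓝 (J x y)) := by
  have hmain : Tendsto (fun z : X => (StrongDual.toWeakDual (J z) : WeakDual ℂ X)) (𝓝 x)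
      (𝓝 (StrongDual.toWeakDual (J x))) := by
    apply IsCompact.tendsto_nhds_of_unique_mapClusterPt
      (WeakDual.isCompact_closedBall (𝕜 := ℂ) (E := X) 0 (‖x‖ + 1))
    · have : ∀ᶠ z : X in 𝓝 x, ‖z‖ < ‖x‖ + 1 := by
        have hc : Continuous (fun z : X => ‖z‖) := continuous_norm
        exact (hc.tendsto x).eventually (gt_mem_nhds (by linarith))
      filter_upwards [this] with z hz
      simp only [Set.mem_preimage, Metric.mem_closedBall, dist_zero_right]
      change ‖J z‖ ≤ _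
      rw [norm_J]
      exact hz.le
    · intro g _ hg
      rw [mapClusterPt_iff_ultrafilter] at hg
      obtain ⟨U, hU, hT⟩ := hg
      have hev : ∀ w : X, Tendsto (fun z : X => J z w) U (𝓝 (g w)) := by
        intro w
        exact ((WeakDual.eval_continuous (𝕜 := ℂ) w).tendsto g).comp hT
      have hid : Tendsto (fun z : X => z) U (𝓝 x) := hU
      have hnorm : Tendsto (fun z : X => ‖z‖) U (𝓝 ‖x‖) := hid.norm
      have hbd : ∀ w : X, ‖g w‖ ≤ ‖x‖ * ‖w‖ := by
        intro w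
        exact le_of_tendsto_of_tendsto (hev w).norm (hnorm.mul_const ‖w‖)
          (Eventually.of_forall fun z => norm_J_apply_le z w)
      have hgx : g x = (‖x‖ : ℂ) ^ 2 := by
        have h1 : Tendsto (fun z : X => J z (x - z)) U (𝓝 0) := by
          apply squeeze_zero_norm (a := fun z : X => ‖z‖ * ‖x - z‖)
          · intro z; exact norm_J_apply_le z _
          · have : Tendsto (fun z : X => ‖z‖ * ‖x - z‖) U (𝓝 (‖x‖ * ‖x - x‖)) :=
              hnorm.mul ((tendsto_const_nhds.sub hid).norm)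
            simpa using this
        have h2 : Tendsto (fun z : X => J z z) U (𝓝 ((‖x‖ : ℂ) ^ 2)) := by
          simp only [J_self]
          exact (((Complex.continuous_ofReal.tendsto _).comp hnorm)).pow 2
        have h3 : Tendsto (fun z : X => J z x) U (𝓝 ((‖x‖ : ℂ) ^ 2 + 0)) := by
          have := h2.add h1
          refine this.congr fun z => ?_
          rw [← map_add]; congr 1; abel
        rw [add_zero] at h3
        exact tendsto_nhds_unique (hev x) h3
      have : WeakDual.toStrongDual g = J x := by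
        apply J_unique hX
        · apply ContinuousLinearMap.opNorm_le_bound _ (norm_nonneg _)
          intro w
          exact hbd w
        · exact hgx
      rw [← this]
      rfl
  exact ((WeakDual.eval_continuous (𝕜 := ℂ) y).tendsto _).comp hmain

/-- chain rule for the squared norm along a differentiable curve -/
theorem hasDerivAt_normSq (hX : IsSmooth X) {γ : ℝ → X} {γ' : X} {s : ℝ}
    (h : HasDerivAt γ γ' s) :
    HasDerivAt (fun t => ‖γ t‖ ^ 2) (2 * (J (γ s) γ').re) s := by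
  rw [hasDerivAt_iff_tendsto_slope]
  have hsl := hasDerivAt_iff_tendsto_slope.1 h
  have hcont : Tendsto γ (𝓝[{s}ᶜ] s) (𝓝 (γ s)) :=
    (h.continuousAt.tendsto).mono_left nhdsWithin_le_nhds
  have ha : Tendsto (fun t => 2 * (J (γ s) (slope γ s t)).re) (𝓝[{s}ᶜ] s)
      (𝓝 (2 * (J (γ s) γ').re)) := by
    apply Tendsto.const_mul
    exact (Complex.continuous_re.tendsto _).comp (((J (γ s)).continuous.tendsto _).comp hsl)
  have hb : Tendsto (fun t => 2 * (J (γ t) (slope γ s t)).re) (𝓝[{s}ᶜ] s)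
      (𝓝 (2 * (J (γ s) γ').re)) := by
    apply Tendsto.const_mul
    apply (Complex.continuous_re.tendsto _).comp
    have h1 : Tendsto (fun t => J (γ t) (slope γ s t - γ')) (𝓝[{s}ᶜ] s) (𝓝 0) := by
      apply squeeze_zero_norm (a := fun t => ‖γ t‖ * ‖slope γ s t - γ'‖)
      · intro z; exact norm_J_apply_le _ _
      · have : Tendsto (fun t => ‖γ t‖ * ‖slope γ s t - γ'‖) (𝓝[{s}ᶜ] s)
            (𝓝 (‖γ s‖ * ‖γ' - γ'‖)) :=
          hcont.norm.mul ((hsl.sub tendsto_const_nhds).norm)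
        simpa using this
    have h2 : Tendsto (fun t => J (γ t) γ') (𝓝[{s}ᶜ] s) (𝓝 (J (γ s) γ')) :=
      (tendsto_J hX (γ s) γ').comp hcont
    have h3 := h2.add h1
    rw [add_zero] at h3
    refine h3.congr fun t => ?_
    rw [← map_add]; congr 1; abel
  have hmin := ha.min hb
  have hmax := ha.max hb
  rw [min_self] at hmin
  rw [max_self] at hmax
  have hre : ∀ (f : X →L[ℂ] ℂ) (t : ℝ), t ≠ s →
      (f (slope γ s t)).re = (t - s)⁻¹ * (f (γ t - γ s)).re := by
    intro f t _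
    rw [slope_def_module]
    have : ((t - s)⁻¹ • (γ t - γ s) : X) = (((t - s)⁻¹ : ℝ) : ℂ) • (γ t - γ s) := by
      rw [Complex.coe_smul]
    rw [this, map_smul, smul_eq_mul, Complex.re_ofReal_mul]
  have hbounds : ∀ t : ℝ, t ≠ s →
      min (2 * (J (γ s) (slope γ s t)).re) (2 * (J (γ t) (slope γ s t)).re)
        ≤ slope (fun t => ‖γ t‖ ^ 2) s t ∧
      slope (fun t => ‖γ t‖ ^ 2) s t ≤
      max (2 * (J (γ s) (slope γ s t)).re) (2 * (J (γ t) (slope γ s t)).re) := by
    intro t ht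
    rw [hre _ t ht, hre _ t ht, slope_def_field]
    have i1 := subgradient (γ s) (γ t)
    have i2 := subgradient (γ t) (γ s)
    have i3 : (J (γ t) (γ s - γ t)).re = - (J (γ t) (γ t - γ s)).re := by
      rw [← neg_sub (γ t) (γ s), map_neg, Complex.neg_re]
    rw [i3] at i2
    set a := (J (γ s) (γ t - γ s)).re
    set b := (J (γ t) (γ t - γ s)).re
    set d := ‖γ t‖ ^ 2 - ‖γ s‖ ^ 2
    have hd : ‖γ t‖ ^ 2 - ‖γ s‖ ^ 2 = d := rfl
    have j1 : 2 * a ≤ d := i1
    have j2 : d ≤ 2 * b := by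
      have : 2 * -b ≤ ‖γ s‖ ^ 2 - ‖γ t‖ ^ 2 := i2
      linarith
    rw [div_eq_inv_mul]
    rcases lt_or_gt_of_ne ht with hlt | hgt
    · have hneg : (t - s)⁻¹ < 0 := inv_lt_zero.2 (by linarith)
      constructor
      · apply min_le_of_right_le
        nlinarith
      · apply le_max_of_le_left
        nlinarith
    · have hpos : 0 < (t - s)⁻¹ := inv_pos.2 (by linarith)
      constructor
      · apply min_le_of_left_le
        nlinarith
      · apply le_max_of_le_right
        nlinarith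
  apply tendsto_of_tendsto_of_tendsto_of_le_of_le' hmin hmax
  · filter_upwards [self_mem_nhdsWithin] with t ht
    exact (hbounds t ht).1
  · filter_upwards [self_mem_nhdsWithin] with t ht
    exact (hbounds t ht).2

end Pool.Agent.V11211.SmoothJ
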