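import Mathlib

/-!
Square roots of `1 - A`, `‖A‖ ≤ 1`, in a complete normed algebra.
-/

open Filter Topology

namespace Pool.Agent.V11211.SqrtBA

/-- the scalar majorant -/
noncomputable def yy : ℕ → ℝ
  | 0 => 0
  | n + 1 => (1 + yy n ^ 2) / 2

theorem yy_nonneg (n : ℕ) : 0 ≤ yy n := by
  cases n with
  | zero => simp [yy]
  | succ n => simp only [yy]; positivity

theorem yy_le_one (n : ℕ) : yy n ≤ 1 := by
  induction n with
  | zero => simp [yy]
  | succ n ih =>
    simp only [yy]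
    nlinarith [yy_nonneg n]

theorem yy_mono (n : ℕ) : yy n ≤ yy (n + 1) := by
  simp only [yy]
  nlinarith [sq_nonneg (1 - yy n)]

theorem yy_summable : Summable (fun n => yy (n + 1) - yy n) := by
  apply summable_of_sum_range_le (c := 1)
  · intro n; linarith [yy_mono n]
  · intro n
    rw [Finset.sum_range_sub]
    simp only [yy, sub_zero]
    exact yy_le_one n

variable {R : Type*} [NormedRing R] [NormedAlgebra ℂ R]

/-- the iteration -/
noncomputable def Yn (A : R) : ℕ → R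
  | 0 => 0
  | n + 1 => (1 / 2 : ℂ) • (A + Yn A n * Yn A n)

theorem norm_Yn_le {A : R} (hA : ‖A‖ ≤ 1) (n : ℕ) : ‖Yn A n‖ ≤ yy n := by
  induction n with
  | zero => simp [Yn, yy]
  | succ n ih =>
    simp only [Yn, yy]
    rw [norm_smul]
    have h1 : ‖A + Yn A n * Yn A n‖ ≤ 1 + yy n ^ 2 := by
      calc ‖A + Yn A n * Yn A n‖ ≤ ‖A‖ + ‖Yn A n * Yn A n‖ := norm_add_le _ _
        _ ≤ 1 + yy n ^ 2 := by
          have := norm_mul_le (Yn A n) (Yn A n)
          nlinarith [norm_nonneg (Yn A n)]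
    have h2 : ‖(1 / 2 : ℂ)‖ = 1 / 2 := by simp
    rw [h2]
    linarith

theorem norm_Yn_sub_le {A : R} (hA : ‖A‖ ≤ 1) (n : ℕ) :
    ‖Yn A (n + 1) - Yn A n‖ ≤ yy (n + 1) - yy n := by
  induction n with
  | zero =>
    simp only [Yn, yy]
    rw [sub_zero, norm_smul]
    have h2 : ‖(1 / 2 : ℂ)‖ = 1 / 2 := by simp
    rw [h2]
    simp only [mul_zero, add_zero]
    norm_num
    linarith
  | succ n ih =>
    have e1 : Yn A (n + 1 + 1) - Yn A (n + 1) = (1 / 2 : ℂ) •
        (Yn A (n + 1) * (Yn A (n + 1) - Yn A n) + (Yn A (n + 1) - Yn A n) * Yn A n) := by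
      have : Yn A (n + 1 + 1) = (1 / 2 : ℂ) • (A + Yn A (n + 1) * Yn A (n + 1)) := rfl
      rw [this]
      have h' : Yn A (n + 1) = (1 / 2 : ℂ) • (A + Yn A n * Yn A n) := rfl
      conv_lhs => rw [show (1 / 2 : ℂ) • (A + Yn A (n + 1) * Yn A (n + 1)) - Yn A (n + 1)
        = (1 / 2 : ℂ) • (A + Yn A (n + 1) * Yn A (n + 1)) - (1 / 2 : ℂ) • (A + Yn A n * Yn A n)
        from by rw [← h']]
      rw [← smul_sub]
      congr 1
      noncomm_ring
    have e2 : yy (n + 1 + 1) - yy (n + 1) = 1 / 2 * (yy (n + 1) * (yy (n + 1) - yy n)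
        + (yy (n + 1) - yy n) * yy n) := by
      have : yy (n + 1 + 1) = (1 + yy (n + 1) ^ 2) / 2 := rfl
      rw [this]
      have h' : yy (n + 1) = (1 + yy n ^ 2) / 2 := rfl
      conv_lhs => rw [show (1 + yy (n + 1) ^ 2) / 2 - yy (n + 1)
        = (1 + yy (n + 1) ^ 2) / 2 - (1 + yy n ^ 2) / 2 from by rw [← h']]
      ring
    rw [e1, e2, norm_smul]
    have h2 : ‖(1 / 2 : ℂ)‖ = 1 / 2 := by simp
    rw [h2]
    apply mul_le_mul_of_nonneg_left _ (by norm_num)
    have a1 := norm_Yn_le hA n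
    have a2 := norm_Yn_le hA (n + 1)
    have a3 := norm_mul_le (Yn A (n + 1)) (Yn A (n + 1) - Yn A n)
    have a4 := norm_mul_le (Yn A (n + 1) - Yn A n) (Yn A n)
    have a5 := norm_add_le (Yn A (n + 1) * (Yn A (n + 1) - Yn A n))
      ((Yn A (n + 1) - Yn A n) * Yn A n)
    have a6 : ‖Yn A (n + 1)‖ * ‖Yn A (n + 1) - Yn A n‖ ≤ yy (n + 1) * (yy (n + 1) - yy n) :=
      mul_le_mul a2 ih (norm_nonneg _) (yy_nonneg _)
    have a7 : ‖Yn A (n + 1) - Yn A n‖ * ‖Yn A n‖ ≤ (yy (n + 1) - yy n) * yy n :=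
      mul_le_mul ih a1 (norm_nonneg _) (by linarith [yy_mono n])
    linarith

/-- the limit -/
noncomputable def Y (A : R) : R := limUnder atTop (Yn A)

theorem Yn_zero (n : ℕ) : Yn (0 : R) n = 0 := by
  induction n with
  | zero => rfl
  | succ n ih => simp [Yn, ih]

theorem Yn_commute {A B : R} (h : Commute B A) (n : ℕ) : Commute B (Yn A n) := by
  induction n with
  | zero => simp [Yn]
  | succ n ih =>
    simp only [Yn]
    exact ((h.add_right (ih.mul_right ih)).smul_right _)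

theorem continuous_Yn (n : ℕ) : Continuous (fun A : R => Yn A n) := by
  induction n with
  | zero => simp only [Yn]; exact continuous_const
  | succ n ih =>
    simp only [Yn]
    exact (continuous_id.add (ih.mul ih)).const_smul _

variable [CompleteSpace R]

theorem tendsto_Yn {A : R} (hA : ‖A‖ ≤ 1) : Tendsto (Yn A) atTop (𝓝 (Y A)) := by
  have hc : CauchySeq (Yn A) := by
    apply cauchySeq_of_dist_le_of_summable (fun n => yy (n + 1) - yy n) _ yy_summable
    intro n
    rw [dist_comm, dist_eq_norm]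
    exact norm_Yn_sub_le hA n
  exact hc.tendsto_limUnder

theorem dist_Yn_le {A : R} (hA : ‖A‖ ≤ 1) (n : ℕ) :
    dist (Yn A n) (Y A) ≤ ∑' m : ℕ, (yy (n + m + 1) - yy (n + m)) := by
  apply dist_le_tsum_of_dist_le_of_tendsto (fun n => yy (n + 1) - yy n) _ yy_summable
    (tendsto_Yn hA)
  intro n
  rw [dist_comm, dist_eq_norm]
  exact norm_Yn_sub_le hA n

theorem Y_zero : Y (0 : R) = 0 := by
  have h := tendsto_Yn (A := (0 : R)) (by simp)
  have h2 : Tendsto (Yn (0 : R)) atTop (𝓝 0) := by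
    have : Yn (0 : R) = fun _ => 0 := funext Yn_zero
    rw [this]; exact tendsto_const_nhds
  exact tendsto_nhds_unique h h2

theorem norm_Y_le {A : R} (hA : ‖A‖ ≤ 1) : ‖Y A‖ ≤ 1 := by
  apply le_of_tendsto (tendsto_Yn hA).norm
  exact Eventually.of_forall fun n => (norm_Yn_le hA n).trans (yy_le_one n)

theorem Y_commute {A B : R} (hA : ‖A‖ ≤ 1) (h : Commute B A) : Commute B (Y A) := by
  have h1 : Tendsto (fun n => B * Yn A n) atTop (𝓝 (B * Y A)) :=
    (tendsto_Yn hA).const_mul B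
  have h2 : Tendsto (fun n => Yn A n * B) atTop (𝓝 (Y A * B)) :=
    (tendsto_Yn hA).mul_const B
  have h3 : (fun n => B * Yn A n) = fun n => Yn A n * B :=
    funext fun n => (Yn_commute h n).eq
  rw [h3] at h1
  exact tendsto_nhds_unique h1 h2

theorem Y_eq {A : R} (hA : ‖A‖ ≤ 1) : Y A = (1 / 2 : ℂ) • (A + Y A * Y A) := by
  have h1 : Tendsto (fun n => Yn A (n + 1)) atTop (𝓝 (Y A)) :=
    (tendsto_Yn hA).comp (tendsto_add_atTop_nat 1)
  have h2 : Tendsto (fun n => Yn A (n + 1)) atTop (𝓝 ((1 / 2 : ℂ) • (A + Y A * Y A))) := by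
    simp only [Yn]
    exact ((tendsto_const_nhds.add ((tendsto_Yn hA).mul (tendsto_Yn hA))).const_smul _)
  exact tendsto_nhds_unique h1 h2

theorem continuousOn_Y : ContinuousOn (Y : R → R) (Metric.closedBall 0 1) := by
  apply TendstoUniformlyOn.continuousOn (F := fun n A => Yn A n) (p := atTop)
  · rw [Metric.tendstoUniformlyOn_iff]
    intro ε hε
    have ht : Tendsto (fun n => ∑' m : ℕ, (yy (m + n + 1) - yy (m + n))) atTop (𝓝 0) :=
      tendsto_sum_nat_add (fun n => yy (n + 1) - yy n)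
    filter_upwards [ht.eventually (gt_mem_nhds hε)] with n hn A hA
    rw [dist_comm]
    have hA' : ‖A‖ ≤ 1 := by simpa using hA
    apply lt_of_le_of_lt (dist_Yn_le hA' n)
    convert hn using 1
    congr 1
    funext m
    rw [add_comm n m]
  · exact Frequently.of_forall fun n => (continuous_Yn n).continuousOn

/-- `G A s` is a square root of `1 - s A` -/
noncomputable def G (A : R) (s : ℝ) : R := 1 - Y ((s : ℂ) • A)

theorem norm_smul_le_one {A : R} (hA : ‖A‖ ≤ 1) {s : ℝ} (hs : |s| ≤ 1) :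
    ‖(s : ℂ) • A‖ ≤ 1 := by
  rw [norm_smul, Complex.norm_real, Real.norm_eq_abs]
  nlinarith [abs_nonneg s, norm_nonneg A]

theorem G_mul_self {A : R} (hA : ‖A‖ ≤ 1) {s : ℝ} (hs : |s| ≤ 1) :
    G A s * G A s = 1 - (s : ℂ) • A := by
  have h := Y_eq (norm_smul_le_one hA hs)
  have h2 : Y ((s : ℂ) • A) + Y ((s : ℂ) • A) =
      (s : ℂ) • A + Y ((s : ℂ) • A) * Y ((s : ℂ) • A) := by
    have h3 : (2 : ℂ) • Y ((s : ℂ) • A) = (2 : ℂ) • ((1 / 2 : ℂ) •
      ((s : ℂ) • A + Y ((s : ℂ) • A) * Y ((s : ℂ) • A))) := by rw [← h]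
    rw [smul_smul, two_smul] at h3
    simpa using h3
  unfold G
  have h4 : (1 - Y ((s : ℂ) • A)) * (1 - Y ((s : ℂ) • A)) =
      1 - (Y ((s : ℂ) • A) + Y ((s : ℂ) • A)) + Y ((s : ℂ) • A) * Y ((s : ℂ) • A) := by
    noncomm_ring
  rw [h4, h2]
  abel

theorem G_zero (A : R) : G A 0 = 1 := by
  simp [G, Y_zero]

theorem G_commute {A B : R} (hA : ‖A‖ ≤ 1) {s : ℝ} (hs : |s| ≤ 1) (h : Commute B A) :
    Commute B (G A s) := by
  unfold G
  exact (Commute.one_right B).sub_right (Y_commute (norm_smul_le_one hA hs) (h.smul_right _))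

theorem G_continuousOn {A : R} (hA : ‖A‖ ≤ 1) : ContinuousOn (G A) (Set.Icc (-1) 1) := by
  unfold G
  apply continuousOn_const.sub
  apply continuousOn_Y.comp (t := Metric.closedBall 0 1)
  · exact (Complex.continuous_ofReal.smul continuous_const).continuousOn
  · intro s hs
    have hs' : |s| ≤ 1 := abs_le.2 ⟨hs.1, hs.2⟩
    simpa using norm_smul_le_one hA hs'

/-- derivative of `G` -/
theorem G_hasDerivAt {A : R} (hA : ‖A‖ ≤ 1) {s : ℝ} (hs : |s| < 1) {Q : R}
    (hQ1 : Q * (1 - (s : ℂ) • A) = 1) (hQ2 : (1 - (s : ℂ) • A) * Q = 1) :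
    HasDerivAt (G A) (-((1 / 2 : ℂ) • (A * Q * G A s))) s := by
  have hGG := G_mul_self hA hs.le
  -- commutation
  have hAG : Commute A (G A s) := G_commute hA hs.le (Commute.refl A)
  have hAQ0 : Commute (G A s) (1 - (s : ℂ) • A) :=
    (Commute.one_right _).sub_right (hAG.symm.smul_right _)
  let u : Rˣ := ⟨1 - (s : ℂ) • A, Q, hQ2, hQ1⟩
  have hGQ : Commute (G A s) Q := by
    have : Commute (G A s) (u : R) := hAQ0
    exact this.units_inv_right
  -- the unit `2 G`
  have e1 : (G A s + G A s) * ((1 / 2 : ℂ) • (Q * G A s)) = 1 := by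
    rw [mul_smul_comm, add_mul]
    have : G A s * (Q * G A s) = 1 := by
      rw [← mul_assoc, hGQ.eq, mul_assoc, hGG, hQ1]
    rw [this, ← two_smul ℂ (1 : R), smul_smul]
    norm_num
  have e2 : ((1 / 2 : ℂ) • (Q * G A s)) * (G A s + G A s) = 1 := by
    rw [smul_mul_assoc, mul_add]
    have : (Q * G A s) * G A s = 1 := by
      rw [mul_assoc, hGG, hQ1]
    rw [this, ← two_smul ℂ (1 : R), smul_smul]
    norm_num
  let v : Rˣ := ⟨G A s + G A s, (1 / 2 : ℂ) • (Q * G A s), e1, e2⟩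
  rw [hasDerivAt_iff_tendsto_slope]
  have hnear : ∀ᶠ t in 𝓝[{s}ᶜ] s, |t| < 1 := by
    have : ∀ᶠ t in 𝓝 s, |t| < 1 := (continuous_abs.tendsto s).eventually (gt_mem_nhds hs)
    exact this.filter_mono nhdsWithin_le_nhds
  have hcont : Tendsto (G A) (𝓝[{s}ᶜ] s) (𝓝 (G A s)) := by
    have h1 : ContinuousAt (G A) s := by
      apply (G_continuousOn hA).continuousAt
      rw [abs_lt] at hs
      exact Icc_mem_nhds hs.1 hs.2
    exact h1.tendsto.mono_left nhdsWithin_le_nhds
  have hsum : Tendsto (fun t => G A t + G A s) (𝓝[{s}ᶜ] s) (𝓝 (v : R)) :=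
    hcont.add tendsto_const_nhds
  have hinv : Tendsto (fun t => Ring.inverse (G A t + G A s)) (𝓝[{s}ᶜ] s)
      (𝓝 (Ring.inverse (v : R))) :=
    (NormedRing.inverse_continuousAt v).tendsto.comp hsum
  have hunit : ∀ᶠ t in 𝓝[{s}ᶜ] s, IsUnit (G A t + G A s) := by
    have := hsum.eventually (v.nhds)
    filter_upwards [this] with t ht
    exact ht
  have hval : Ring.inverse (v : R) = (1 / 2 : ℂ) • (Q * G A s) := Ring.inverse_unit v
  rw [hval] at hinv
  have hlim : Tendsto (fun t => -(A * Ring.inverse (G A t + G A s))) (𝓝[{s}ᶜ] s)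
      (𝓝 (-((1 / 2 : ℂ) • (A * Q * G A s)))) := by
    have h1 := (hinv.const_mul A).neg
    have h2 : -(A * ((1 / 2 : ℂ) • (Q * G A s))) = -((1 / 2 : ℂ) • (A * Q * G A s)) := by
      rw [mul_smul_comm, mul_assoc]
    rw [h2] at h1
    exact h1
  refine hlim.congr' ?_
  filter_upwards [hnear, hunit, self_mem_nhdsWithin] with t ht hu hts
  have hts' : t - s ≠ 0 := sub_ne_zero.2 hts
  have hGt := G_mul_self hA ht.le
  have hcomm : Commute (G A t) (G A s) := by
    apply G_commute hA hs.le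
    exact (G_commute hA ht.le (Commute.refl A)).symm
  have hprod : (G A t - G A s) * (G A t + G A s) = -(((t - s : ℝ) : ℂ) • A) := by
    have h1 : (G A t - G A s) * (G A t + G A s) =
        G A t * G A t - G A s * G A s + (G A t * G A s - G A s * G A t) := by noncomm_ring
    rw [h1, hcomm.eq, sub_self, add_zero, hGt, hGG]
    push_cast
    rw [sub_smul]
    abel
  have h5 : G A t - G A s = -(((t - s : ℝ) : ℂ) • A) * Ring.inverse (G A t + G A s) := by
    rw [← hprod, mul_assoc, Ring.mul_inverse_cancel _ hu, mul_one]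
  rw [slope_def_module, h5]
  rw [neg_mul, smul_neg, smul_mul_assoc, ← Complex.coe_smul, smul_smul, ← Complex.ofReal_mul,
    inv_mul_cancel₀ hts', Complex.ofReal_one, one_smul]

end Pool.Agent.V11211.SqrtBA
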