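import Mathlib
import Pool.Agent.V11211.SmoothJ
import Pool.Agent.V11211.SqrtBA

/-!
Self-adjoint operators on smooth spaces.
-/

open Filter Topology

namespace Pool.Agent.V11211.SmoothMain

open Pool.Agent.V11211.SmoothJ Pool.Agent.V11211.SqrtBA

variable {X : Type*} [NormedAddCommGroup X] [NormedSpace ℂ X]

/-- `T` is self-adjoint: `T' ∘ J = J ∘ T`, i.e. `J (T x) y = J x (T y)` for all `x`, `y`. -/
def IsSA (T : X →L[ℂ] X) : Prop := ∀ x y : X, J (T x) y = J x (T y)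

/-- `T` is strongly normal: `T = S ^ 2` for a self-adjoint `S`. -/
def IsStronglyNormal (T : X →L[ℂ] X) : Prop := ∃ S : X →L[ℂ] X, IsSA S ∧ T = S ^ 2

/-- the minimum modulus: the infimum of `‖T x‖` over the unit sphere -/
noncomputable def minMod (T : X →L[ℂ] X) : ℝ := ⨅ x : Metric.sphere (0 : X) 1, ‖T x‖

theorem normSq_eq {T : X →L[ℂ] X} (hT : IsSA T) (x : X) :
    ((J x) ((T * T) x)) = ((‖T x‖ ^ 2 : ℝ) : ℂ) := by
  have h := hT x (T x)
  rw [J_self] at h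
  change J x (T (T x)) = _
  rw [← h]
  push_cast
  rfl

section

variable [CompleteSpace X]

theorem isUnit_one_sub {A : X →L[ℂ] X} (hA : ‖A‖ ≤ 1) {s : ℝ} (hs : |s| < 1) :
    IsUnit (1 - (s : ℂ) • A) := by
  have : ‖(s : ℂ) • A‖ < 1 := by
    rw [norm_smul, Complex.norm_real, Real.norm_eq_abs]
    nlinarith [abs_nonneg s, norm_nonneg A]
  exact (Units.oneSub _ this).isUnit

theorem wderiv (hX : IsSmooth X) {T : X →L[ℂ] X} (hT1 : ‖T * T‖ ≤ 1)
    {s : ℝ} (hs : |s| < 1) {Q : X →L[ℂ] X}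
    (hQ1 : Q * (1 - (s : ℂ) • (T * T)) = 1) (hQ2 : (1 - (s : ℂ) • (T * T)) * Q = 1) (x : X) :
    HasDerivAt (fun s : ℝ => ‖G (T * T) s x‖ ^ 2 - ‖x‖ ^ 2 + s * ‖T x‖ ^ 2)
      (-(J (G (T * T) s x) ((T * T) (Q (G (T * T) s x)))).re + ‖T x‖ ^ 2) s := by
  have h1 := G_hasDerivAt hT1 hs hQ1 hQ2
  have h2 : HasDerivAt (fun t => G (T * T) t x)
      ((-((1 / 2 : ℂ) • ((T * T) * Q * G (T * T) s))) x) s := by
    have hev : HasFDerivAt (fun S : X →L[ℂ] X => S x)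
        ((ContinuousLinearMap.apply ℂ X x).restrictScalars ℝ) (G (T * T) s) :=
      ((ContinuousLinearMap.apply ℂ X x).restrictScalars ℝ).hasFDerivAt
    exact hev.comp_hasDerivAt s h1
  have h3 := hasDerivAt_normSq hX h2
  have h4 : HasDerivAt (fun t : ℝ => t * ‖T x‖ ^ 2) (‖T x‖ ^ 2) s := by
    simpa using (hasDerivAt_id s).mul_const (‖T x‖ ^ 2)
  have h5 : HasDerivAt (fun s : ℝ => ‖G (T * T) s x‖ ^ 2 - ‖x‖ ^ 2 + s * ‖T x‖ ^ 2) _ s :=
    (h3.sub_const (‖x‖ ^ 2)).add h4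
  refine h5.congr_deriv ?_
  have h6 : (-((1 / 2 : ℂ) • ((T * T) * Q * G (T * T) s))) x =
      (-(1 / 2 : ℂ)) • ((T * T) (Q (G (T * T) s x))) := by
    rw [neg_smul]; rfl
  rw [h6, map_smul, smul_eq_mul]
  have h7 : (-(1 / 2 : ℂ)) = ((-(1 / 2) : ℝ) : ℂ) := by push_cast; ring
  rw [h7, Complex.re_ofReal_mul]
  ring

/-- the identity `w'_s(x) = s w'_s(Tx) - w_s(Tx)` -/
theorem wident {T : X →L[ℂ] X} (hT : IsSA T) (hT1 : ‖T * T‖ ≤ 1)
    {s : ℝ} (hs : |s| < 1) {Q : X →L[ℂ] X}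
    (hQ1 : Q * (1 - (s : ℂ) • (T * T)) = 1) (hQ2 : (1 - (s : ℂ) • (T * T)) * Q = 1) (x : X) :
    (-(J (G (T * T) s x) ((T * T) (Q (G (T * T) s x)))).re + ‖T x‖ ^ 2) =
    s * (-(J (G (T * T) s (T x)) ((T * T) (Q (G (T * T) s (T x))))).re + ‖T (T x)‖ ^ 2)
      - (‖G (T * T) s (T x)‖ ^ 2 - ‖T x‖ ^ 2 + s * ‖T (T x)‖ ^ 2) := by
  set A := T * T with hAdef
  have hTA : Commute T A := (Commute.refl T).mul_right (Commute.refl T)
  have hTG : Commute T (G A s) := G_commute hT1 hs.le hTA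
  let u : (X →L[ℂ] X)ˣ := ⟨1 - (s : ℂ) • A, Q, hQ2, hQ1⟩
  have hTQ : Commute T Q := by
    have : Commute T (u : X →L[ℂ] X) := (Commute.one_right _).sub_right (hTA.smul_right _)
    exact this.units_inv_right
  have eG : G A s (T x) = T (G A s x) := by
    have := congrArg (fun S : X →L[ℂ] X => S x) hTG.eq
    exact this.symm
  rw [eG]
  set z := G A s x with hz
  have eQ : ∀ v : X, Q (T v) = T (Q v) := by
    intro v
    have := congrArg (fun S : X →L[ℂ] X => S v) hTQ.eq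
    exact this.symm
  have eA : ∀ v : X, A v = T (T v) := fun v => rfl
  have e1 : J (T z) (A (Q (T z))) = J z (A (A (Q z))) := by
    rw [hT z, eQ]
    rfl
  have e2 : A (Q z) - (s : ℂ) • A (A (Q z)) = A z := by
    have h : A (((1 - (s : ℂ) • A) * Q) z) = A z :=
      congrArg (fun S : X →L[ℂ] X => A (S z)) hQ2
    have h' : ((1 - (s : ℂ) • A) * Q) z = Q z - (s : ℂ) • A (Q z) := rfl
    rw [h', map_sub, map_smul] at h
    exact h
  have e3 : (J z (A z)).re = ‖T z‖ ^ 2 := by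
    rw [hAdef, normSq_eq hT z, Complex.ofReal_re]
  have e4 : (J z (A (Q z))).re - s * (J z (A (A (Q z)))).re = ‖T z‖ ^ 2 := by
    rw [← e3, ← e2, map_sub, map_smul, smul_eq_mul, Complex.sub_re, Complex.re_ofReal_mul]
  rw [e1]
  linarith

/-- the resulting derivative bound -/
theorem wbound {T : X →L[ℂ] X} (hT : IsSA T) (hTn : ‖T‖ ≤ 1) (hT1 : ‖T * T‖ ≤ 1)
    {s : ℝ} (hs0 : 0 ≤ s) (hs : s < 1) {Q : X →L[ℂ] X}
    (hQ1 : Q * (1 - (s : ℂ) • (T * T)) = 1) (hQ2 : (1 - (s : ℂ) • (T * T)) * Q = 1)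
    {W : ℝ} (hW0 : 0 ≤ W)
    (hW : ∀ y : X, |‖G (T * T) s y‖ ^ 2 - ‖y‖ ^ 2 + s * ‖T y‖ ^ 2| ≤ W * ‖y‖ ^ 2) (x : X) :
    |(-(J (G (T * T) s x) ((T * T) (Q (G (T * T) s x)))).re + ‖T x‖ ^ 2)|
      ≤ W / (1 - s) * ‖x‖ ^ 2 := by
  have habs : |s| < 1 := by rwa [abs_of_nonneg hs0]
  have hTle : ∀ y : X, ‖T y‖ ≤ ‖y‖ := fun y => by
    calc ‖T y‖ ≤ ‖T‖ * ‖y‖ := T.le_opNorm y
      _ ≤ 1 * ‖y‖ := mul_le_mul_of_nonneg_right hTn (norm_nonneg _)
      _ = ‖y‖ := one_mul _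
  have hTle2 : ∀ y : X, ‖T y‖ ^ 2 ≤ ‖y‖ ^ 2 := fun y =>
    pow_le_pow_left₀ (norm_nonneg _) (hTle y) 2
  set D : ℝ := ‖T * T * Q‖ * ‖G (T * T) s‖ ^ 2 + 1 with hD
  have hD0 : 0 ≤ D := by positivity
  have h0 : ∀ y : X, |(-(J (G (T * T) s y) ((T * T) (Q (G (T * T) s y)))).re + ‖T y‖ ^ 2)|
      ≤ D * ‖y‖ ^ 2 := by
    intro y
    have h1 : |(J (G (T * T) s y) ((T * T) (Q (G (T * T) s y)))).re| ≤
        ‖T * T * Q‖ * ‖G (T * T) s‖ ^ 2 * ‖y‖ ^ 2 := by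
      have g1 := norm_J_apply_le (G (T * T) s y) ((T * T) (Q (G (T * T) s y)))
      have g2 : ‖(T * T * Q) (G (T * T) s y)‖ ≤ ‖T * T * Q‖ * ‖G (T * T) s y‖ :=
        (T * T * Q).le_opNorm _
      have g2' : ‖(T * T) (Q (G (T * T) s y))‖ ≤ ‖T * T * Q‖ * ‖G (T * T) s y‖ := g2
      have g3 : ‖G (T * T) s y‖ ≤ ‖G (T * T) s‖ * ‖y‖ := (G (T * T) s).le_opNorm _
      calc |(J (G (T * T) s y) ((T * T) (Q (G (T * T) s y)))).re|
          ≤ ‖J (G (T * T) s y) ((T * T) (Q (G (T * T) s y)))‖ := Complex.abs_re_le_norm _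
        _ ≤ ‖G (T * T) s y‖ * (‖T * T * Q‖ * ‖G (T * T) s y‖) :=
            g1.trans (mul_le_mul_of_nonneg_left g2' (norm_nonneg _))
        _ = ‖T * T * Q‖ * ‖G (T * T) s y‖ ^ 2 := by ring
        _ ≤ ‖T * T * Q‖ * (‖G (T * T) s‖ * ‖y‖) ^ 2 :=
            mul_le_mul_of_nonneg_left (pow_le_pow_left₀ (norm_nonneg _) g3 2) (norm_nonneg _)
        _ = _ := by ring
    have h2 := hTle2 y
    have h3 : |(-(J (G (T * T) s y) ((T * T) (Q (G (T * T) s y)))).re + ‖T y‖ ^ 2)| ≤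
      |(J (G (T * T) s y) ((T * T) (Q (G (T * T) s y)))).re| + ‖T y‖ ^ 2 := by
      calc _ ≤ |(-(J (G (T * T) s y) ((T * T) (Q (G (T * T) s y)))).re)| + |‖T y‖ ^ 2| :=
            abs_add_le _ _
        _ = _ := by rw [abs_neg, abs_of_nonneg (sq_nonneg ‖T y‖)]
    rw [hD, add_mul]
    linarith
  have hstep : ∀ n : ℕ, ∀ y : X,
      |(-(J (G (T * T) s y) ((T * T) (Q (G (T * T) s y)))).re + ‖T y‖ ^ 2)|
      ≤ (W / (1 - s) + s ^ n * D) * ‖y‖ ^ 2 := by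
    intro n
    induction n with
    | zero =>
      intro y
      have : 0 ≤ W / (1 - s) := div_nonneg hW0 (by linarith)
      have h1 := h0 y
      have h2 : D * ‖y‖ ^ 2 ≤ (W / (1 - s) + s ^ 0 * D) * ‖y‖ ^ 2 := by
        apply mul_le_mul_of_nonneg_right _ (sq_nonneg _)
        simp [this]
      linarith
    | succ n ih =>
      intro y
      rw [wident hT hT1 habs hQ1 hQ2 y]
      have i1 := ih (T y)
      have i2 := hW (T y)
      have i3 := hTle2 y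
      set P := (-(J (G (T * T) s (T y)) ((T * T) (Q (G (T * T) s (T y))))).re + ‖T (T y)‖ ^ 2)
      set V := (‖G (T * T) s (T y)‖ ^ 2 - ‖T y‖ ^ 2 + s * ‖T (T y)‖ ^ 2)
      have hc : 0 ≤ W / (1 - s) + s ^ n * D := by
        have : 0 ≤ W / (1 - s) := div_nonneg hW0 (by linarith)
        positivity
      calc |s * P - V| ≤ |s * P| + |V| := abs_sub _ _
        _ = s * |P| + |V| := by rw [abs_mul, abs_of_nonneg hs0]
        _ ≤ s * ((W / (1 - s) + s ^ n * D) * ‖T y‖ ^ 2) + W * ‖T y‖ ^ 2 :=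
            add_le_add (mul_le_mul_of_nonneg_left i1 hs0) i2
        _ = (s * (W / (1 - s) + s ^ n * D) + W) * ‖T y‖ ^ 2 := by ring
        _ ≤ (s * (W / (1 - s) + s ^ n * D) + W) * ‖y‖ ^ 2 :=
            mul_le_mul_of_nonneg_left i3 (by positivity)
        _ = (W / (1 - s) + s ^ (n + 1) * D) * ‖y‖ ^ 2 := by
            have h1s : (1 - s) ≠ 0 := by linarith
            have : s * (W / (1 - s) + s ^ n * D) + W = W / (1 - s) + s ^ (n + 1) * D := by
              field_simp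
              ring
            rw [this]
  have hlim : Tendsto (fun n : ℕ => (W / (1 - s) + s ^ n * D) * ‖x‖ ^ 2) atTop
      (𝓝 ((W / (1 - s) + 0 * D) * ‖x‖ ^ 2)) :=
    (((tendsto_pow_atTop_nhds_zero_of_lt_one hs0 hs).mul_const D).const_add _).mul_const _
  rw [zero_mul, add_zero] at hlim
  exact ge_of_tendsto hlim (Eventually.of_forall fun n => hstep n x)

/-- the Gronwall step -/
theorem wzero (hX : IsSmooth X) {T : X →L[ℂ] X} (hT : IsSA T) (hTn : ‖T‖ ≤ 1)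
    {r : ℝ} (hr0 : 0 ≤ r) (hr : r < 1) (x : X) :
    ‖G (T * T) r x‖ ^ 2 - ‖x‖ ^ 2 + r * ‖T x‖ ^ 2 = 0 := by
  have hT1 : ‖T * T‖ ≤ 1 := by
    calc ‖T * T‖ ≤ ‖T‖ * ‖T‖ := norm_mul_le _ _
      _ ≤ 1 := by nlinarith [norm_nonneg T]
  have hTle : ∀ y : X, ‖T y‖ ≤ ‖y‖ := fun y => by
    calc ‖T y‖ ≤ ‖T‖ * ‖y‖ := T.le_opNorm y
      _ ≤ 1 * ‖y‖ := mul_le_mul_of_nonneg_right hTn (norm_nonneg _)
      _ = ‖y‖ := one_mul _
  have hTle2 : ∀ y : X, ‖T y‖ ^ 2 ≤ ‖y‖ ^ 2 := fun y =>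
    pow_le_pow_left₀ (norm_nonneg _) (hTle y) 2
  have h1r : 0 < 1 - r := by linarith
  set K : ℝ := 1 / (1 - r) with hK
  have hK0 : 0 ≤ K := by positivity
  have main : ∀ n : ℕ, ∀ s ∈ Set.Icc (0 : ℝ) r, ∀ y : X,
      |‖G (T * T) s y‖ ^ 2 - ‖y‖ ^ 2 + s * ‖T y‖ ^ 2| ≤
        6 * ((K * s) ^ n / (n.factorial : ℝ)) * ‖y‖ ^ 2 := by
    intro n
    induction n with
    | zero =>
      intro s hs y
      have hs1 : |s| ≤ 1 := by
        rw [abs_of_nonneg hs.1]; linarith [hs.2]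
      have hG : ‖G (T * T) s y‖ ≤ 2 * ‖y‖ := by
        have e1 : G (T * T) s y = y - Y ((s : ℂ) • (T * T)) y := rfl
        rw [e1]
        have e2 := norm_sub_le y (Y ((s : ℂ) • (T * T)) y)
        have e3 := (Y ((s : ℂ) • (T * T))).le_opNorm y
        have e4 := norm_Y_le (norm_smul_le_one hT1 hs1)
        nlinarith [norm_nonneg y]
      have h1 : ‖G (T * T) s y‖ ^ 2 ≤ 4 * ‖y‖ ^ 2 := by
        nlinarith [norm_nonneg (G (T * T) s y), norm_nonneg y]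
      have h2 := hTle2 y
      have h3 : 0 ≤ s * ‖T y‖ ^ 2 := mul_nonneg hs.1 (sq_nonneg _)
      have h4 : s * ‖T y‖ ^ 2 ≤ ‖y‖ ^ 2 := by
        have : s ≤ 1 := by linarith [hs.2]
        nlinarith [sq_nonneg ‖T y‖]
      rw [abs_le]
      simp only [pow_zero, Nat.factorial_zero, Nat.cast_one, div_one, mul_one]
      constructor
      · nlinarith [sq_nonneg ‖G (T * T) s y‖, sq_nonneg ‖y‖]
      · nlinarith [sq_nonneg ‖y‖]
    | succ n ih =>
      intro s hs y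
      -- derivative function
      have hderiv : ∀ t ∈ Set.Ico (0 : ℝ) r, ∃ d : ℝ,
          HasDerivAt (fun s : ℝ => ‖G (T * T) s y‖ ^ 2 - ‖y‖ ^ 2 + s * ‖T y‖ ^ 2) d t ∧
          |d| ≤ K * (6 * ((K * t) ^ n / (n.factorial : ℝ))) * ‖y‖ ^ 2 := by
        intro t ht
        have ht1 : t < 1 := by linarith [ht.2]
        have habs : |t| < 1 := by rwa [abs_of_nonneg ht.1]
        obtain ⟨u, hu⟩ := isUnit_one_sub hT1 habs
        have hQ1 : (↑u⁻¹ : X →L[ℂ] X) * (1 - (t : ℂ) • (T * T)) = 1 := by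
          rw [← hu]; exact u.inv_mul
        have hQ2 : (1 - (t : ℂ) • (T * T)) * (↑u⁻¹ : X →L[ℂ] X) = 1 := by
          rw [← hu]; exact u.mul_inv
        refine ⟨_, wderiv hX hT1 habs hQ1 hQ2 y, ?_⟩
        have hW0 : 0 ≤ 6 * ((K * t) ^ n / (n.factorial : ℝ)) := by
          have := ht.1
          positivity
        have := wbound hT hTn hT1 ht.1 ht1 hQ1 hQ2 hW0
          (fun z => ih t ⟨ht.1, ht.2.le⟩ z) y
        refine this.trans ?_
        apply mul_le_mul_of_nonneg_right _ (sq_nonneg _)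
        have hKt : (1 - t)⁻¹ ≤ K := by
          rw [hK, one_div]
          exact inv_anti₀ h1r (by linarith [ht.2])
        rw [div_eq_mul_inv, mul_comm]
        exact mul_le_mul_of_nonneg_right hKt hW0
      choose! d hd1 hd2 using hderiv
      have hcontG : ContinuousOn (fun s : ℝ => ‖G (T * T) s y‖ ^ 2 - ‖y‖ ^ 2 + s * ‖T y‖ ^ 2)
          (Set.Icc 0 r) := by
        have c1 : ContinuousOn (fun s : ℝ => G (T * T) s) (Set.Icc 0 r) :=
          (G_continuousOn hT1).mono (Set.Icc_subset_Icc (by norm_num) hr.le)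
        have c2 : ContinuousOn (fun s : ℝ => G (T * T) s y) (Set.Icc 0 r) := by
          exact ((ContinuousLinearMap.apply ℂ X y).continuous.comp_continuousOn c1)
        exact ((c2.norm.pow 2).sub continuousOn_const).add
          (continuousOn_id.mul continuousOn_const)
      have hB : ∀ t : ℝ, HasDerivAt
          (fun t : ℝ => 6 * ((K * t) ^ (n + 1) / ((n + 1).factorial : ℝ)) * ‖y‖ ^ 2)
          (K * (6 * ((K * t) ^ n / (n.factorial : ℝ))) * ‖y‖ ^ 2) t := by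
        intro t
        have h1 : HasDerivAt (fun t : ℝ => K * t) K t := by
          simpa using (hasDerivAt_id t).const_mul K
        have h2 := ((h1.pow (n + 1)).div_const ((n + 1).factorial : ℝ))
        have h3 : HasDerivAt
          (fun t : ℝ => 6 * ((K * t) ^ (n + 1) / ((n + 1).factorial : ℝ)) * ‖y‖ ^ 2) _ t :=
          (h2.const_mul 6).mul_const (‖y‖ ^ 2)
        refine h3.congr_deriv ?_
        simp only [Nat.add_sub_cancel, Nat.factorial_succ]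
        push_cast
        have hf : (n.factorial : ℝ) ≠ 0 := by exact_mod_cast Nat.factorial_ne_zero n
        have hn : ((n : ℝ) + 1) ≠ 0 := by positivity
        field_simp
      have hfin := image_norm_le_of_norm_deriv_right_le_deriv_boundary'
        (f := fun s : ℝ => ‖G (T * T) s y‖ ^ 2 - ‖y‖ ^ 2 + s * ‖T y‖ ^ 2) (f' := d)
        (a := 0) (b := r) hcontG
        (fun t ht => (hd1 t ht).hasDerivWithinAt)
        (B := fun t : ℝ => 6 * ((K * t) ^ (n + 1) / ((n + 1).factorial : ℝ)) * ‖y‖ ^ 2)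
        (B' := fun t => K * (6 * ((K * t) ^ n / (n.factorial : ℝ))) * ‖y‖ ^ 2)
        (by
          simp only [G_zero]
          simp)
        (fun t _ => (hB t).continuousAt.continuousWithinAt)
        (fun t _ => (hB t).hasDerivWithinAt)
        (fun t ht => by
          rw [Real.norm_eq_abs]; exact hd2 t ht)
      have := hfin hs
      rwa [Real.norm_eq_abs] at this
  have hlim : Tendsto (fun n : ℕ => 6 * ((K * r) ^ n / (n.factorial : ℝ)) * ‖x‖ ^ 2) atTop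
      (𝓝 (6 * 0 * ‖x‖ ^ 2)) :=
    ((FloorSemiring.tendsto_pow_div_factorial_atTop (K * r)).const_mul 6).mul_const _
  rw [mul_zero, zero_mul] at hlim
  have hle := ge_of_tendsto hlim (Eventually.of_forall fun n => main n r ⟨hr0, le_refl _⟩ x)
  exact abs_eq_zero.1 (le_antisymm hle (abs_nonneg _))

/-- `G s` is self-adjoint for `s < 1` -/
theorem G_isSA (hX : IsSmooth X) {T : X →L[ℂ] X} (hT : IsSA T) (hTn : ‖T‖ ≤ 1)
    {s : ℝ} (hs0 : 0 ≤ s) (hs : s < 1) : IsSA (G (T * T) s) := by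
  have hT1 : ‖T * T‖ ≤ 1 := by
    calc ‖T * T‖ ≤ ‖T‖ * ‖T‖ := norm_mul_le _ _
      _ ≤ 1 := by nlinarith [norm_nonneg T]
  have habs : |s| < 1 := by rwa [abs_of_nonneg hs0]
  have hGG := G_mul_self hT1 habs.le
  set g := G (T * T) s with hg
  have hline : ∀ a b : X, HasDerivAt (fun t : ℝ => a + (t : ℂ) • b) b 0 := by
    intro a b
    have h1 : HasDerivAt (fun t : ℝ => (t : ℂ) • b) ((1 : ℂ) • b) 0 :=
      (Complex.ofRealCLM.hasDerivAt (x := (0 : ℝ))).smul_const b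
    rw [one_smul] at h1
    exact h1.const_add a
  have hre : ∀ x y : X, (J (g x) (g y)).re = (J x (g (g y))).re := by
    intro x y
    have d1 := hasDerivAt_normSq hX (hline (g x) (g y))
    have d2 := hasDerivAt_normSq hX (hline x y)
    have d3 := hasDerivAt_normSq hX (hline (T x) (T y))
    have d4 := d2.sub (d3.const_mul s)
    have heq : (fun t : ℝ => ‖g x + (t : ℂ) • g y‖ ^ 2) =
        fun t : ℝ => ‖x + (t : ℂ) • y‖ ^ 2 - s * ‖T x + (t : ℂ) • T y‖ ^ 2 := by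
      funext t
      have h := wzero hX hT hTn hs0 hs (x + (t : ℂ) • y)
      rw [← hg, map_add, map_smul, map_add, map_smul] at h
      linarith
    rw [heq] at d1
    have h := d1.unique d4
    simp only [Complex.ofReal_zero, zero_smul, add_zero] at h
    have h2 : J (T x) (T y) = J x (T (T y)) := hT x (T y)
    rw [h2] at h
    have h3 : g (g y) = y - (s : ℂ) • T (T y) := by
      have := congrArg (fun S : X →L[ℂ] X => S y) hGG
      exact this
    rw [h3, map_sub, map_smul, smul_eq_mul, Complex.sub_re, Complex.re_ofReal_mul]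
    linarith
  have hfull : ∀ x y : X, J (g x) (g y) = J x (g (g y)) := by
    intro x y
    apply Complex.ext (hre x y)
    have h := hre x (Complex.I • y)
    rw [map_smul, map_smul, map_smul, map_smul, smul_eq_mul, smul_eq_mul, Complex.I_mul_re,
      Complex.I_mul_re] at h
    linarith
  -- invertibility
  obtain ⟨u, hu⟩ := isUnit_one_sub hT1 habs
  have hQ2 : (g * g) * (↑u⁻¹ : X →L[ℂ] X) = 1 := by
    rw [hGG, ← hu]; exact u.mul_inv
  intro x y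
  have h1 : g (g ((↑u⁻¹ : X →L[ℂ] X) y)) = y := by
    have := congrArg (fun S : X →L[ℂ] X => S y) hQ2
    exact this
  have h2 := hfull x (g ((↑u⁻¹ : X →L[ℂ] X) y))
  rw [h1] at h2
  exact h2

/-- `G 1` is self-adjoint -/
theorem G_one_isSA (hX : IsSmooth X) {T : X →L[ℂ] X} (hT : IsSA T) (hTn : ‖T‖ ≤ 1) :
    IsSA (G (T * T) 1) := by
  have hT1 : ‖T * T‖ ≤ 1 := by
    calc ‖T * T‖ ≤ ‖T‖ * ‖T‖ := norm_mul_le _ _
      _ ≤ 1 := by nlinarith [norm_nonneg T]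
  intro x y
  have c1 : Tendsto (G (T * T)) (𝓝[Set.Ico 0 1] 1) (𝓝 (G (T * T) 1)) := by
    have := (G_continuousOn hT1) 1 ⟨by norm_num, le_refl _⟩
    exact this.mono_left (nhdsWithin_mono _ (fun t ht => ⟨by linarith [ht.1], ht.2.le⟩))
  have hcx : ∀ v : X, Tendsto (fun s => G (T * T) s v) (𝓝[Set.Ico 0 1] 1)
      (𝓝 (G (T * T) 1 v)) := fun v =>
    ((ContinuousLinearMap.apply ℂ X v).continuous.tendsto _).comp c1
  have h1 : Tendsto (fun s => J (G (T * T) s x) y) (𝓝[Set.Ico 0 1] 1)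
      (𝓝 (J (G (T * T) 1 x) y)) := (tendsto_J hX _ y).comp (hcx x)
  have h2 : Tendsto (fun s => J x (G (T * T) s y)) (𝓝[Set.Ico 0 1] 1)
      (𝓝 (J x (G (T * T) 1 y))) := ((J x).continuous.tendsto _).comp (hcx y)
  have hne : (𝓝[Set.Ico (0 : ℝ) 1] 1).NeBot := by
    rw [← mem_closure_iff_nhdsWithin_neBot, closure_Ico (by norm_num)]
    exact ⟨by norm_num, le_refl _⟩
  apply tendsto_nhds_unique_of_eventuallyEq h1 h2
  filter_upwards [self_mem_nhdsWithin] with s hs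
  exact G_isSA hX hT hTn hs.1 hs.2 x y

theorem IsSA.real_smul (hX : IsSmooth X) {T : X →L[ℂ] X} (hT : IsSA T) (c : ℝ) :
    IsSA ((c : ℂ) • T) := by
  intro x y
  have : ((c : ℂ) • T) x = (c : ℂ) • T x := rfl
  rw [this, J_smul hX]
  change (c : ℂ) • (J (T x) y) = J x ((c : ℂ) • T y)
  rw [map_smul, hT x y]

/-- main theorem: for `T` self-adjoint and `‖T‖ ≤ c`, the operator `c² - T²` is the square of
a self-adjoint operator commuting with the commutant of `T²`. -/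
theorem main (hX : IsSmooth X) {T : X →L[ℂ] X} (hT : IsSA T) {c : ℝ} (hc : 0 < c)
    (hTc : ‖T‖ ≤ c) :
    ∃ S : X →L[ℂ] X, IsSA S ∧ S * S = ((c ^ 2 : ℝ) : ℂ) • (1 : X →L[ℂ] X) - T * T ∧
      ∀ B : X →L[ℂ] X, Commute B (T * T) → Commute B S := by
  set T₁ : X →L[ℂ] X := ((c⁻¹ : ℝ) : ℂ) • T with hT₁
  have hSA : IsSA T₁ := hT.real_smul hX c⁻¹
  have hn : ‖T₁‖ ≤ 1 := by
    rw [hT₁, norm_smul, Complex.norm_real, Real.norm_eq_abs, abs_of_pos (inv_pos.2 hc)]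
    rw [inv_mul_le_iff₀ hc]
    linarith
  have hT1 : ‖T₁ * T₁‖ ≤ 1 := by
    calc ‖T₁ * T₁‖ ≤ ‖T₁‖ * ‖T₁‖ := norm_mul_le _ _
      _ ≤ 1 := by nlinarith [norm_nonneg T₁]
  have hsq : T₁ * T₁ = (((c⁻¹) ^ 2 : ℝ) : ℂ) • (T * T) := by
    rw [hT₁, smul_mul_smul_comm, ← Complex.ofReal_mul, pow_two]
  refine ⟨(c : ℂ) • G (T₁ * T₁) 1, (G_one_isSA hX hSA hn).real_smul hX c, ?_, ?_⟩
  · rw [smul_mul_smul_comm, G_mul_self hT1 (by simp), smul_sub, Complex.ofReal_one, one_smul, hsq,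
      smul_smul]
    congr 1
    · congr 1
      push_cast; ring
    · have : (c : ℂ) * (c : ℂ) * (((c⁻¹) ^ 2 : ℝ) : ℂ) = 1 := by
        have h : c * c * (c⁻¹) ^ 2 = 1 := by field_simp
        exact_mod_cast congrArg (fun t : ℝ => (t : ℂ)) h
      rw [this, one_smul]
  · intro B hB
    apply Commute.smul_right
    apply G_commute hT1 (by simp)
    rw [hsq]
    exact hB.smul_right _

/-- Q1 -/
theorem q1 (hX : IsSmooth X) {T : X →L[ℂ] X} (hT : IsSA T) :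
    IsStronglyNormal (((‖T‖ ^ 2 : ℝ) : ℂ) • (1 : X →L[ℂ] X) - T ^ 2) := by
  by_cases h0 : ‖T‖ = 0
  · have hT0 : T = 0 := norm_eq_zero.1 h0
    refine ⟨0, ?_, ?_⟩
    · intro x y
      have : (0 : X →L[ℂ] X) x = 0 := rfl
      have hJ : J (0 : X) = 0 := by rw [← norm_eq_zero, norm_J, norm_zero]
      simp [hJ]
    · simp [hT0]
  · have hpos : 0 < ‖T‖ := lt_of_le_of_ne (norm_nonneg _) (Ne.symm h0)
    obtain ⟨S, h1, h2, -⟩ := main hX hT hpos le_rfl
    exact ⟨S, h1, by rw [pow_two T, pow_two S, h2]⟩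

end

/-- an operator bounded below via its numerical range -/
theorem below {T : X →L[ℂ] X} (hT : IsSA T) {m : ℝ} (hm : 0 ≤ m)
    (hb : ∀ x : X, m * ‖x‖ ≤ ‖T x‖) {t : ℝ} (ht : 0 ≤ t) (x : X) :
    m ^ 2 * ‖x‖ ≤ ‖(T * T + (t : ℂ) • (1 : X →L[ℂ] X)) x‖ := by
  by_cases hx : ‖x‖ = 0
  · rw [hx, mul_zero]; exact norm_nonneg _
  have hpos : 0 < ‖x‖ := lt_of_le_of_ne (norm_nonneg _) (Ne.symm hx)
  have h1 : J x ((T * T + (t : ℂ) • (1 : X →L[ℂ] X)) x) =
      ((‖T x‖ ^ 2 + t * ‖x‖ ^ 2 : ℝ) : ℂ) := by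
    have e : (T * T + (t : ℂ) • (1 : X →L[ℂ] X)) x = (T * T) x + (t : ℂ) • x := rfl
    rw [e, map_add, map_smul, normSq_eq hT, J_self, smul_eq_mul]
    push_cast
    ring
  have h2 := norm_J_apply_le x ((T * T + (t : ℂ) • (1 : X →L[ℂ] X)) x)
  rw [h1, Complex.norm_real, Real.norm_eq_abs] at h2
  have h3 : (m * ‖x‖) ^ 2 ≤ ‖T x‖ ^ 2 := pow_le_pow_left₀ (by positivity) (hb x) 2
  have h4 : m ^ 2 * ‖x‖ ^ 2 ≤ |‖T x‖ ^ 2 + t * ‖x‖ ^ 2| := by
    refine le_trans ?_ (le_abs_self _)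
    have : 0 ≤ t * ‖x‖ ^ 2 := by positivity
    nlinarith
  have h5 : ‖x‖ * (m ^ 2 * ‖x‖) ≤
      ‖x‖ * ‖(T * T + (t : ℂ) • (1 : X →L[ℂ] X)) x‖ := by
    calc ‖x‖ * (m ^ 2 * ‖x‖) = m ^ 2 * ‖x‖ ^ 2 := by ring
      _ ≤ _ := h4.trans h2
  exact le_of_mul_le_mul_left h5 hpos

variable [CompleteSpace X]

/-- a self-adjoint operator bounded below is invertible -/
theorem isUnit_of_below {T : X →L[ℂ] X} (hT : IsSA T) {m : ℝ} (hm : 0 < m)
    (hb : ∀ x : X, m * ‖x‖ ≤ ‖T x‖) : IsUnit T := by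
  have hm2 : 0 < m ^ 2 := by positivity
  -- stepping down
  have hstep : ∀ t : ℝ, 0 ≤ t → IsUnit (T * T + (t : ℂ) • (1 : X →L[ℂ] X)) →
      ∀ d : ℝ, 0 ≤ d → d < m ^ 2 → IsUnit (T * T + ((t - d : ℝ) : ℂ) • (1 : X →L[ℂ] X)) := by
    intro t ht hu d hd0 hd
    obtain ⟨u, hu⟩ := hu
    have hinv : ‖(↑u⁻¹ : X →L[ℂ] X)‖ ≤ 1 / m ^ 2 := by
      apply ContinuousLinearMap.opNorm_le_bound _ (by positivity)
      intro y
      have h1 := below hT hm.le hb ht ((↑u⁻¹ : X →L[ℂ] X) y)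
      rw [← hu] at h1
      have h2 : (u : X →L[ℂ] X) ((↑u⁻¹ : X →L[ℂ] X) y) = y := by
        have := congrArg (fun S : X →L[ℂ] X => S y) u.mul_inv
        exact this
      rw [h2] at h1
      rw [div_mul_eq_mul_div, one_mul, le_div_iff₀ hm2]
      linarith
    have hsmall : ‖(d : ℂ) • (↑u⁻¹ : X →L[ℂ] X)‖ < 1 := by
      rw [norm_smul, Complex.norm_real, Real.norm_eq_abs, abs_of_nonneg hd0]
      calc d * ‖(↑u⁻¹ : X →L[ℂ] X)‖ ≤ d * (1 / m ^ 2) := mul_le_mul_of_nonneg_left hinv hd0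
        _ < 1 := by rw [mul_one_div, div_lt_one hm2]; exact hd
    have h1 : IsUnit (1 - (d : ℂ) • (↑u⁻¹ : X →L[ℂ] X)) := (Units.oneSub _ hsmall).isUnit
    have h2 : (u : X →L[ℂ] X) * (1 - (d : ℂ) • (↑u⁻¹ : X →L[ℂ] X)) =
        T * T + ((t - d : ℝ) : ℂ) • (1 : X →L[ℂ] X) := by
      rw [mul_sub, mul_one, mul_smul_comm, u.mul_inv, hu]
      push_cast
      rw [sub_smul]
      abel
    rw [← h2]
    exact u.isUnit.mul h1
  -- the start
  have hstart : ∃ t : ℝ, 0 ≤ t ∧ ‖T * T‖ < t := ⟨‖T * T‖ + 1, by positivity, by linarith⟩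
  obtain ⟨t₀, ht0, htl⟩ := hstart
  have ht0pos : 0 < t₀ := lt_of_le_of_lt (norm_nonneg _) htl
  have hu0 : IsUnit (T * T + (t₀ : ℂ) • (1 : X →L[ℂ] X)) := by
    have hne : (t₀ : ℂ) ≠ 0 := by exact_mod_cast ht0pos.ne'
    have hsmall : ‖-((t₀ : ℂ)⁻¹ • (T * T))‖ < 1 := by
      rw [norm_neg, norm_smul, norm_inv, Complex.norm_real, Real.norm_eq_abs,
        abs_of_pos ht0pos, inv_mul_lt_iff₀ ht0pos, mul_one]
      exact htl
    have h1 : IsUnit (1 - -((t₀ : ℂ)⁻¹ • (T * T))) := (Units.oneSub _ hsmall).isUnit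
    have h2 : T * T + (t₀ : ℂ) • (1 : X →L[ℂ] X) =
        ((t₀ : ℂ) • (1 : X →L[ℂ] X)) * (1 - -((t₀ : ℂ)⁻¹ • (T * T))) := by
      rw [smul_mul_assoc, one_mul, sub_neg_eq_add, smul_add, smul_smul, mul_inv_cancel₀ hne,
        one_smul, add_comm]
    rw [h2]
    apply IsUnit.mul _ h1
    exact ⟨⟨(t₀ : ℂ) • 1, (t₀ : ℂ)⁻¹ • 1, by
      rw [smul_mul_smul_comm, mul_inv_cancel₀ hne, one_mul, one_smul], by
      rw [smul_mul_smul_comm, inv_mul_cancel₀ hne, one_mul, one_smul]⟩, rfl⟩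
  -- choose the number of steps
  obtain ⟨N, hN⟩ := exists_nat_gt (t₀ / m ^ 2)
  have hNpos : 0 < (N : ℝ) := lt_of_le_of_lt (by positivity) hN
  set d := t₀ / N with hd
  have hd0 : 0 ≤ d := by positivity
  have hdm : d < m ^ 2 := by
    rw [hd, div_lt_iff₀ hNpos]
    rw [div_lt_iff₀ hm2] at hN
    linarith
  have hall : ∀ k : ℕ, k ≤ N → IsUnit (T * T + ((t₀ - k * d : ℝ) : ℂ) • (1 : X →L[ℂ] X)) := by
    intro k
    induction k with
    | zero => intro _; simpa using hu0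
    | succ k ih =>
      intro hk
      have h1 := ih (by omega)
      have h2 : 0 ≤ t₀ - k * d := by
        rw [hd]
        have : (k : ℝ) ≤ N := by exact_mod_cast (by omega : k ≤ N)
        have h3 : (k : ℝ) * (t₀ / N) ≤ N * (t₀ / N) :=
          mul_le_mul_of_nonneg_right this (by positivity)
        have h4 : (N : ℝ) * (t₀ / N) = t₀ := by field_simp
        linarith
      have h3 := hstep _ h2 h1 d hd0 hdm
      have h4 : t₀ - k * d - d = t₀ - ((k + 1 : ℕ) : ℝ) * d := by push_cast; ring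
      rwa [h4] at h3
  have hfin := hall N le_rfl
  have h5 : t₀ - N * d = 0 := by rw [hd]; field_simp; ring
  rw [h5] at hfin
  simp only [Complex.ofReal_zero, zero_smul, add_zero] at hfin
  exact ((Commute.refl T).isUnit_mul_iff.1 hfin).1

/-- Q2, for a lower bound `m` -/
theorem q2_aux (hX : IsSmooth X) {T : X →L[ℂ] X} (hT : IsSA T) {m : ℝ} (hm : 0 < m)
    (hb : ∀ x : X, m * ‖x‖ ≤ ‖T x‖) :
    IsStronglyNormal (T ^ 2 - ((m ^ 2 : ℝ) : ℂ) • (1 : X →L[ℂ] X)) := by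
  obtain ⟨u, hu⟩ := isUnit_of_below hT hm hb
  set V : X →L[ℂ] X := ↑u⁻¹ with hV
  have hTV : T * V = 1 := by rw [← hu]; exact u.mul_inv
  have hVT : V * T = 1 := by rw [← hu]; exact u.inv_mul
  have hTV' : ∀ x, T (V x) = x := fun x => congrArg (fun S : X →L[ℂ] X => S x) hTV
  have hVT' : ∀ x, V (T x) = x := fun x => congrArg (fun S : X →L[ℂ] X => S x) hVT
  have hVSA : IsSA V := by
    intro x y
    have h1 := hT (V x) (V y)
    rw [hTV', hTV'] at h1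
    exact h1.symm
  have hVn : ‖V‖ ≤ m⁻¹ := by
    apply ContinuousLinearMap.opNorm_le_bound _ (by positivity)
    intro y
    have h1 := hb (V y)
    rw [hTV'] at h1
    rw [inv_mul_eq_div, le_div_iff₀ hm]
    linarith
  obtain ⟨S₀, hS1, hS2, hS3⟩ := main hX hVSA (inv_pos.2 hm) hVn
  have hcomm : Commute T S₀ := by
    apply hS3
    have : Commute T V := by
      change T * V = V * T
      rw [hTV, hVT]
    exact this.mul_right this
  have hprodSA : IsSA (T * S₀) := by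
    intro x y
    have h1 : J (T (S₀ x)) y = J x (S₀ (T y)) := by rw [hT, hS1]
    have h2 : S₀ (T y) = T (S₀ y) := by
      have := congrArg (fun S : X →L[ℂ] X => S y) hcomm.eq
      exact this.symm
    rw [h2] at h1
    exact h1
  refine ⟨(m : ℂ) • (T * S₀), hprodSA.real_smul hX m, ?_⟩
  have e1 : (T * S₀) * (T * S₀) = (T * T) * (S₀ * S₀) := by
    rw [mul_assoc, ← mul_assoc S₀ T S₀, ← hcomm.eq, mul_assoc T S₀ S₀, ← mul_assoc, ← mul_assoc]
  have e2 : (T * T) * (V * V) = 1 := by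
    rw [mul_assoc, ← mul_assoc T V V, hTV, one_mul, hTV]
  rw [pow_two T, pow_two ((m : ℂ) • (T * S₀)), smul_mul_smul_comm, e1, hS2, mul_sub, e2, mul_smul_comm, mul_one, smul_sub,
    smul_smul]
  have h3 : (m : ℂ) * (m : ℂ) * (((m⁻¹) ^ 2 : ℝ) : ℂ) = 1 := by
    have h : m * m * (m⁻¹) ^ 2 = 1 := by field_simp
    exact_mod_cast congrArg (fun t : ℝ => (t : ℂ)) h
  rw [h3, one_smul]
  congr 2
  push_cast; ring

/-- Q2 -/
theorem q2 (hX : IsSmooth X) {T : X →L[ℂ] X} (hT : IsSA T) :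
    IsStronglyNormal (T ^ 2 - ((minMod T ^ 2 : ℝ) : ℂ) • (1 : X →L[ℂ] X)) := by
  have hbdd : BddBelow (Set.range fun x : Metric.sphere (0 : X) 1 => ‖T x‖) :=
    ⟨0, by rintro _ ⟨x, rfl⟩; exact norm_nonneg _⟩
  have h0 : 0 ≤ minMod T := Real.iInf_nonneg fun x => norm_nonneg _
  rcases h0.eq_or_lt with h | h
  · rw [← h]
    refine ⟨T, hT, ?_⟩
    simp
  · apply q2_aux hX hT h
    intro x
    by_cases hx : ‖x‖ = 0
    · rw [hx, mul_zero]; exact norm_nonneg _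
    · have hpos : 0 < ‖x‖ := lt_of_le_of_ne (norm_nonneg _) (Ne.symm hx)
      have hmem : ((‖x‖ : ℂ)⁻¹ • x) ∈ Metric.sphere (0 : X) 1 := by
        rw [mem_sphere_zero_iff_norm, norm_smul, norm_inv, Complex.norm_real, norm_norm]
        exact inv_mul_cancel₀ hx
      have h1 : minMod T ≤ ‖T ((‖x‖ : ℂ)⁻¹ • x)‖ := ciInf_le hbdd ⟨_, hmem⟩
      rw [map_smul, norm_smul, norm_inv, Complex.norm_real, norm_norm, inv_mul_eq_div,
        le_div_iff₀ hpos] at h1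
      exact h1

end Pool.Agent.V11211.SmoothMain
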