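import Mathlib
import Pool.Agent.W671.WU8
import Pool.Agent.H826R2.Wein.Main3
import Pool.Agent.H826R2.Wein.Bridge

/-! Symmetries of a Reeb flow at a fixed point, in a chart. -/

open scoped Topology ContDiff Manifold
open Set Metric Bundle Filter Pool.Agent.Helper186 Pool.Agent.H826R2.Wein Pool.Agent.W671.WU

noncomputable section

namespace Pool.Agent.V11211.WS

set_option linter.unusedSectionVars false

universe u

variable {E : Type u} [NormedAddCommGroup E] [NormedSpace ℝ E] [FiniteDimensional ℝ E]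
  {P : Type*} [TopologicalSpace P] [ChartedSpace E P] [IsManifold 𝓘(ℝ, E) ∞ P]
  {β : (x : P) → TangentSpace 𝓘(ℝ, E) x →L[ℝ] ℝ}
  {R : (x : P) → TangentSpace 𝓘(ℝ, E) x} {Fl : P → ℝ → P}
  {ι : Type*} [Fintype ι]

omit [FiniteDimensional ℝ E] in
/-- endomorphisms intertwined by an injective map have the same determinant -/
lemma det_eq_of_intertwine [FiniteDimensional ℝ E] {S A B : E →L[ℝ] E}
    (hS : Function.Injective S) (h : ∀ v, S (A v) = B (S v)) : A.det = B.det := by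
  have h0 : LinearMap.det (S : E →ₗ[ℝ] E) ≠ 0 := by
    intro h0
    have h1 := LinearMap.bot_lt_ker_of_det_eq_zero h0
    rw [LinearMap.ker_eq_bot.2 hS] at h1
    exact lt_irrefl _ h1
  have h1 : (S : E →ₗ[ℝ] E) ∘ₗ (A : E →ₗ[ℝ] E) = (B : E →ₗ[ℝ] E) ∘ₗ (S : E →ₗ[ℝ] E) :=
    LinearMap.ext fun v => h v
  have h2 := congrArg LinearMap.det h1
  rw [LinearMap.det_comp, LinearMap.det_comp, mul_comm] at h2
  exact mul_right_cancel₀ h0 h2

/-- the derivative of a self map as an endomorphism of the model space -/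
def de (φ : P → P) (x : P) : E →L[ℝ] E := mfderiv 𝓘(ℝ, E) 𝓘(ℝ, E) φ x

/-- the derivative of the inverse chart as an endomorphism -/
def dsL (x₀ : P) (p : E) : E →L[ℝ] E :=
  mfderiv 𝓘(ℝ, E) 𝓘(ℝ, E) (extChartAt 𝓘(ℝ, E) x₀).symm p

/-- `1 - ∑ c i • Dg_i + R ⊗ β` at the point `x` -/
def Nd (β : (x : P) → TangentSpace 𝓘(ℝ, E) x →L[ℝ] ℝ)
    (R : (x : P) → TangentSpace 𝓘(ℝ, E) x) (g : ι → P → P) (c : ι → ℝ) (x : P) : E →L[ℝ] E :=
  ContinuousLinearMap.id ℝ E - ∑ i, c i • de (g i) x +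
    (show E →L[ℝ] ℝ from β x).smulRight (show E from R x)

/-- the same in the chart at `x₀` -/
def Nc (β : (x : P) → TangentSpace 𝓘(ℝ, E) x →L[ℝ] ℝ) (Fl : P → ℝ → P)
    (g : ι → P → P) (c : ι → ℝ) (x₀ : P) (p : E) : E →L[ℝ] E :=
  ContinuousLinearMap.id ℝ E - ∑ i, c i • fderiv ℝ (ch x₀ (g i)) p +
    (chartForm 𝓘(ℝ, E) β x₀ p).smulRight (RF.Rc Fl x₀ p)

omit [FiniteDimensional ℝ E] [IsManifold 𝓘(ℝ, E) ∞ P] [Fintype ι] in
lemma Nd_apply [Fintype ι] (g : ι → P → P) (c : ι → ℝ) (x : P) (v : E) :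
    Nd β R g c x v = v - ∑ i, c i • de (g i) x v +
      (show E →L[ℝ] ℝ from β x) v • (show E from R x) := by
  simp only [Nd, add_apply, sub_apply, _root_.sum_apply, smul_apply, ContinuousLinearMap.id_apply]
  rfl

lemma Nc_apply (g : ι → P → P) (c : ι → ℝ) (x₀ : P) (p v : E) :
    Nc β Fl g c x₀ p v = v - ∑ i, c i • fderiv ℝ (ch x₀ (g i)) p v +
      (chartForm 𝓘(ℝ, E) β x₀ p) v • (RF.Rc Fl x₀ p) := by
  simp [Nc]

lemma dsL_inj (x₀ : P) {p : E} (hp : p ∈ (extChartAt 𝓘(ℝ, E) x₀).target) :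
    Function.Injective (dsL x₀ p) := by
  have : IsManifold 𝓘(ℝ, E) 1 P := IsManifold.of_le (n := ∞) (by simp)
  have h := isInvertible_mfderivWithin_extChartAt_symm (I := 𝓘(ℝ, E)) hp
  rw [ModelWithCorners.Boundaryless.range_eq_univ, mfderivWithin_univ] at h
  exact h.injective

lemma ds_fderiv_ch (x₀ : P) {φ : P → P} (hφ : ContMDiff 𝓘(ℝ, E) 𝓘(ℝ, E) ∞ φ) {p : E}
    (hp : p ∈ (extChartAt 𝓘(ℝ, E) x₀).target)
    (hfix : φ ((extChartAt 𝓘(ℝ, E) x₀).symm p) = (extChartAt 𝓘(ℝ, E) x₀).symm p) (v : E) :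
    dsL x₀ p (fderiv ℝ (ch x₀ φ) p v) =
      de φ ((extChartAt 𝓘(ℝ, E) x₀).symm p) (dsL x₀ p v) := by
  have hc : ch x₀ φ p = p := by
    unfold ch
    rw [hfix]
    exact (extChartAt 𝓘(ℝ, E) x₀).right_inv hp
  have h1 := tangent_ch x₀ hφ hp (by
    rw [hfix]; exact (extChartAt 𝓘(ℝ, E) x₀).map_target hp) v
  have h2 := congrArg (fun w : TangentBundle 𝓘(ℝ, E) P => (show E from w.2)) h1
  have h3 : ∀ a b : E, a = b → ∀ u : E, (ds x₀ a u : E) = (ds x₀ b u : E) := by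
    rintro a _ rfl u; rfl
  exact (h3 _ _ hc _).symm.trans h2

lemma intertwine_chart (h : RF β R Fl) (x₀ : P) {g : ι → P → P}
    (hg : ∀ i, ContMDiff 𝓘(ℝ, E) 𝓘(ℝ, E) ∞ (g i)) (c : ι → ℝ) {p : E}
    (hp : p ∈ (extChartAt 𝓘(ℝ, E) x₀).target)
    (hfix : ∀ i, g i ((extChartAt 𝓘(ℝ, E) x₀).symm p) = (extChartAt 𝓘(ℝ, E) x₀).symm p) (v : E) :
    dsL x₀ p (Nc β Fl g c x₀ p v) =
      Nd β R g c ((extChartAt 𝓘(ℝ, E) x₀).symm p) (dsL x₀ p v) := by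
  rw [Nc_apply, Nd_apply, map_add, map_sub, map_sum, map_smul]
  have h1 : (dsL x₀ p (RF.Rc Fl x₀ p) : E) = R ((extChartAt 𝓘(ℝ, E) x₀).symm p) :=
    h.tangent_Rc x₀ hp
  rw [h1]
  congr 2
  refine Finset.sum_congr rfl fun i _ => ?_
  rw [map_smul, ds_fderiv_ch x₀ (hg i) hp (hfix i)]

lemma det_chart (h : RF β R Fl) (x₀ : P) {g : ι → P → P}
    (hg : ∀ i, ContMDiff 𝓘(ℝ, E) 𝓘(ℝ, E) ∞ (g i)) (c : ι → ℝ) {p : E}
    (hp : p ∈ (extChartAt 𝓘(ℝ, E) x₀).target)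
    (hfix : ∀ i, g i ((extChartAt 𝓘(ℝ, E) x₀).symm p) = (extChartAt 𝓘(ℝ, E) x₀).symm p) :
    (Nc β Fl g c x₀ p).det = (Nd β R g c ((extChartAt 𝓘(ℝ, E) x₀).symm p)).det :=
  det_eq_of_intertwine (dsL_inj x₀ hp) (intertwine_chart h x₀ hg c hp hfix)

lemma continuousAt_Nc (hβ : SmoothForm β) (h : RF β R Fl) (x₀ : P) {g : ι → P → P}
    (hg : ∀ i, ContMDiff 𝓘(ℝ, E) 𝓘(ℝ, E) ∞ (g i)) (c : ι → ℝ) {p : E}
    (hp : p ∈ (extChartAt 𝓘(ℝ, E) x₀).target)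
    (hfix : ∀ i, g i ((extChartAt 𝓘(ℝ, E) x₀).symm p) = (extChartAt 𝓘(ℝ, E) x₀).symm p) :
    ContinuousAt (Nc β Fl g c x₀) p := by
  have h1 : ∀ i, ContinuousAt (fderiv ℝ (ch x₀ (g i))) p := fun i =>
    ((ch_smooth x₀ (hg i) hp (by
      rw [hfix i]; exact (extChartAt 𝓘(ℝ, E) x₀).map_target hp)).fderiv_right (m := 0)
        (by simp)).continuousAt
  have h2 : ContinuousAt (chartForm 𝓘(ℝ, E) β x₀) p :=
    ((contDiffOn_chartForm hβ x₀).contDiffAt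
      ((isOpen_extChartAt_target x₀).mem_nhds hp)).continuousAt
  have h3 := h.continuousAt_Rc x₀ hp
  unfold Nc
  refine ContinuousAt.add (ContinuousAt.sub continuousAt_const ?_) ?_
  · exact tendsto_finsetSum _ fun i _ => (h1 i).const_smul (c i)
  · exact (ContinuousLinearMap.smulRightL ℝ E E).continuous₂.continuousAt.comp (h2.prodMk h3)

end Pool.Agent.V11211.WS
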