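import Mathlib
import Pool.Agent.V11211.WS1

/-! Nondegenerate fixed orbits are isolated. -/

open scoped Topology ContDiff Manifold
open Set Metric Bundle Filter Pool.Agent.Helper186 Pool.Agent.H826R2.Wein Pool.Agent.W671.WU

noncomputable section

namespace Pool.Agent.V11211.WS

set_option linter.unusedSectionVars false

universe u

variable {E : Type u} [NormedAddCommGroup E] [NormedSpace ℝ E] [FiniteDimensional ℝ E]
  {P : Type*} [TopologicalSpace P] [ChartedSpace E P] [IsManifold 𝓘(ℝ, E) ∞ P]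
  {β : (x : P) → TangentSpace 𝓘(ℝ, E) x →L[ℝ] ℝ}
  {R : (x : P) → TangentSpace 𝓘(ℝ, E) x} {Fl : P → ℝ → P}
  {ι : Type*} [Fintype ι]

lemma exists_lower {A : E →L[ℝ] E} (hA : A.det ≠ 0) : ∃ k > 0, ∀ v, k * ‖v‖ ≤ ‖A v‖ := by
  have hinj : LinearMap.ker (A : E →ₗ[ℝ] E) = ⊥ := by
    by_contra h
    have h1 : ¬ IsUnit (LinearMap.det (A : E →ₗ[ℝ] E)) := by
      intro hu
      have h2 := (LinearMap.equivOfDetNeZero (A : E →ₗ[ℝ] E) hA).ker
      exact h h2
    exact h1 (isUnit_iff_ne_zero.2 hA)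
  obtain ⟨K, hK, h⟩ := (A : E →ₗ[ℝ] E).exists_antilipschitzWith hinj
  refine ⟨(K : ℝ)⁻¹, by positivity, fun v => ?_⟩
  have h1 := h.le_mul_dist v 0
  rw [dist_zero_right, map_zero, dist_zero_right] at h1
  rw [inv_mul_le_iff₀ (by positivity)]
  exact h1

/-- near `p₀` the only common fixed point on the hyperplane through `p₀` -/
lemma isolated_chart {h : ι → E → E} {p₀ : E} (hd : ∀ i, DifferentiableAt ℝ (h i) p₀)
    (h0 : ∀ i, h i p₀ = p₀) {c : ι → ℝ} (hc : ∑ i, c i = 1) {l : E →L[ℝ] ℝ} {r : E}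
    (hA : (ContinuousLinearMap.id ℝ E - ∑ i, c i • fderiv ℝ (h i) p₀ + l.smulRight r).det ≠ 0) :
    ∀ᶠ p in 𝓝 p₀, (∀ i, h i p = p) → l (p - p₀) = 0 → p = p₀ := by
  obtain ⟨k, hk, hA⟩ := exists_lower hA
  set C : ℝ := ∑ i, |c i| with hC
  have hC1 : 0 < C := by
    have : (1:ℝ) ≤ C := by
      rw [← hc]
      exact Finset.sum_le_sum fun i _ => le_abs_self _
    linarith
  set η : ℝ := k / (2 * C) with hη
  have hη0 : 0 < η := by positivity
  have h1 : ∀ i, ∀ᶠ p in 𝓝 p₀, ‖h i p - h i p₀ - fderiv ℝ (h i) p₀ (p - p₀)‖ ≤ η * ‖p - p₀‖ :=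
    fun i => (hd i).hasFDerivAt.isLittleO.def hη0
  filter_upwards [eventually_all.2 h1] with p hp hfix hl
  set v := p - p₀ with hv
  have h2 : ∀ i, ‖v - fderiv ℝ (h i) p₀ v‖ ≤ η * ‖v‖ := by
    intro i
    have := hp i
    rwa [hfix i, h0 i] at this
  have h3 : (ContinuousLinearMap.id ℝ E - ∑ i, c i • fderiv ℝ (h i) p₀ + l.smulRight r) v =
      ∑ i, c i • (v - fderiv ℝ (h i) p₀ v) := by
    simp only [add_apply, sub_apply, _root_.sum_apply, smul_apply, ContinuousLinearMap.id_apply,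
      ContinuousLinearMap.smulRight_apply, hl, zero_smul, add_zero, smul_sub,
      Finset.sum_sub_distrib]
    rw [← Finset.sum_smul, hc, one_smul]
  have h4 := hA v
  rw [h3] at h4
  have h5 : ‖∑ i, c i • (v - fderiv ℝ (h i) p₀ v)‖ ≤ C * (η * ‖v‖) := by
    refine (norm_sum_le _ _).trans ?_
    rw [hC, Finset.sum_mul]
    refine Finset.sum_le_sum fun i _ => ?_
    rw [norm_smul, Real.norm_eq_abs]
    exact mul_le_mul_of_nonneg_left (h2 i) (abs_nonneg _)
  have h6 : C * (η * ‖v‖) = k / 2 * ‖v‖ := by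
    rw [hη]; field_simp
  rw [h6] at h5
  have h7 : ‖v‖ = 0 := by
    have h8 := h4.trans h5
    have h9 := norm_nonneg v
    nlinarith
  rw [norm_eq_zero, hv, sub_eq_zero] at h7
  exact h7

/-- **Isolation**: near a transversally nondegenerate common fixed point `y` all common fixed points
lie on a short piece of the orbit of `y`. -/
theorem isolated [T2Space P] (hunit : ∀ x, β x (R x) = 1) (h : RF β R Fl) {g : ι → P → P}
    (hg : ∀ i, ContMDiff 𝓘(ℝ, E) 𝓘(ℝ, E) ∞ (g i))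
    (hcomm : ∀ i x t, g i (Fl x t) = Fl (g i x) t) {c : ι → ℝ} (hc : ∑ i, c i = 1) {y : P}
    (hfix : ∀ i, g i y = y) (hdet : (Nd β R g c y).det ≠ 0) {ε : ℝ} (hε : 0 < ε) :
    ∀ᶠ x in 𝓝 y, (∀ i, g i x = x) → ∃ s, |s| < ε ∧ x = Fl y s := by
  set ψ := extChartAt 𝓘(ℝ, E) y with hψ
  set p₀ := ψ y with hp₀
  have hmem : p₀ ∈ ψ.target := mem_extChartAt_target y
  have hsym : ψ.symm p₀ = y := extChartAt_to_inv y
  have hfix' : ∀ i, g i (ψ.symm p₀) = ψ.symm p₀ := by rw [hsym]; exact hfix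
  set l : E →L[ℝ] ℝ := chartForm 𝓘(ℝ, E) β y p₀ with hl
  -- chart version of the nondegeneracy
  have hd0 : (Nc β Fl g c y p₀).det ≠ 0 := by
    rw [det_chart h y hg c hmem hfix', hsym]
    exact hdet
  have hiso := isolated_chart (h := fun i => ch y (g i)) (p₀ := p₀)
    (fun i => (ch_smooth y (hg i) hmem (by
      rw [hfix' i]; exact ψ.map_target hmem)).differentiableAt (by simp))
    (fun i => by
      show ψ (g i (ψ.symm p₀)) = p₀
      rw [hfix' i, hsym]) hc (l := l) (r := RF.Rc Fl y p₀) hd0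
  -- pull back to the manifold
  have hψc : Tendsto ψ (𝓝 y) (𝓝 p₀) := continuousAt_extChartAt y
  have hV : ∀ᶠ x in 𝓝 y, x ∈ ψ.source ∧ ((∀ i, g i x = x) → l (ψ x - p₀) = 0 → x = y) := by
    filter_upwards [(isOpen_extChartAt_source (I := 𝓘(ℝ, E)) y).mem_nhds (mem_extChartAt_source y),
      hψc.eventually hiso] with x hx hx2
    refine ⟨hx, fun hf h0 => ?_⟩
    have h1 := hx2 (fun i => by
      show ψ (g i (ψ.symm (ψ x))) = ψ x
      rw [ψ.left_inv hx, hf i]) h0
    exact ψ.injOn hx (mem_extChartAt_source y) h1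
  -- the flow stays in the neighbourhood for short times
  have hFc : Continuous (fun q : P × ℝ => Fl q.1 q.2) := h.smooth.continuous
  have hFc0 : Tendsto (fun q : P × ℝ => Fl q.1 q.2) (𝓝 (y, 0)) (𝓝 y) := by
    have := hFc.tendsto (y, (0:ℝ))
    simp only [h.zero] at this
    exact this
  have hW := hFc0.eventually hV
  rw [nhds_prod_eq] at hW
  obtain ⟨pa, hpa, pb, hpb, hab⟩ := eventually_prod_iff.1 hW
  obtain ⟨δ₁, hδ₁, hball⟩ := Metric.eventually_nhds_iff.1 hpb
  -- the function along the orbit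
  have hder : HasDerivAt (fun s => l (ψ (Fl y s) - p₀)) 1 0 := by
    have h1 : HasDerivAt (fun s => RF.H Fl y (p₀, s)) (RF.Rc Fl y p₀) 0 := by
      refine h.hasDerivAt_H y hmem ?_
      rw [← hψ, hsym, h.zero]
      exact mem_extChartAt_source y
    have h2 : (fun s => RF.H Fl y (p₀, s)) = fun s => ψ (Fl y s) := by
      ext1 s
      show ψ (Fl (ψ.symm p₀) s) = _
      rw [hsym]
    rw [h2] at h1
    have h3 := l.hasFDerivAt.comp_hasDerivAt (0:ℝ) (h1.sub_const p₀)
    have h4 : l (RF.Rc Fl y p₀) = 1 := by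
      have h5 : l (RF.Rc Fl y p₀) = β (ψ.symm p₀) (ds y p₀ (RF.Rc Fl y p₀)) := rfl
      have h6 := h.tangent_Rc y hmem
      rw [h5, h6]
      exact hunit _
    rw [h4] at h3
    exact h3
  have hval0 : l (ψ (Fl y 0) - p₀) = 0 := by
    rw [h.zero, ← hp₀, sub_self, map_zero]
  have hlo := hder.isLittleO.def (c := 1 / 2) (by norm_num)
  obtain ⟨δ₂, hδ₂, hlo⟩ := Metric.eventually_nhds_iff.1 hlo
  set δ := min (min (δ₁ / 2) (δ₂ / 2)) (ε / 2) with hδ
  have hδ0 : 0 < δ := by positivity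
  have hδ1 : δ < δ₁ := by
    have := min_le_left (min (δ₁ / 2) (δ₂ / 2)) (ε / 2)
    have := min_le_left (δ₁ / 2) (δ₂ / 2)
    linarith
  have hδ2 : δ < δ₂ := by
    have := min_le_left (min (δ₁ / 2) (δ₂ / 2)) (ε / 2)
    have := min_le_right (δ₁ / 2) (δ₂ / 2)
    linarith
  have hδ3 : δ < ε := by
    have := min_le_right (min (δ₁ / 2) (δ₂ / 2)) (ε / 2)
    linarith
  have hpos : 0 < l (ψ (Fl y δ) - p₀) := by
    have := hlo (y := δ) (by rw [Real.dist_eq, sub_zero, abs_of_pos hδ0]; exact hδ2)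
    rw [hval0, sub_zero, sub_zero, smul_eq_mul, mul_one, Real.norm_eq_abs, Real.norm_eq_abs,
      abs_of_pos hδ0] at this
    have := (abs_le.1 this).1
    linarith
  have hneg : l (ψ (Fl y (-δ)) - p₀) < 0 := by
    have := hlo (y := -δ) (by rw [Real.dist_eq, sub_zero, abs_neg, abs_of_pos hδ0]; exact hδ2)
    rw [hval0, sub_zero, sub_zero, smul_eq_mul, mul_one, Real.norm_eq_abs, Real.norm_eq_abs,
      abs_neg, abs_of_pos hδ0] at this
    have := (abs_le.1 this).2
    linarith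
  -- continuity of the function in the point
  have hsrc : ∀ s, |s| < δ₁ → Fl y s ∈ ψ.source := by
    intro s hs
    exact (hab (hpa.self_of_nhds) (hball (by rw [Real.dist_eq, sub_zero]; exact hs))).1
  have hcx : ∀ s, |s| < δ₁ → ContinuousAt (fun x => l (ψ (Fl x s) - p₀)) y := by
    intro s hs
    have h1 : ContinuousAt (fun x => Fl x s) y := (h.smooth_t s).continuous.continuousAt
    have h2 : ContinuousAt ψ (Fl y s) := by
      have h3 := hsrc s hs
      exact (continuousOn_extChartAt y).continuousAt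
        ((isOpen_extChartAt_source (I := 𝓘(ℝ, E)) y).mem_nhds h3)
    have h3 : ContinuousAt (fun x => ψ (Fl x s)) y := ContinuousAt.comp h2 h1
    exact l.continuous.continuousAt.comp (h3.sub continuousAt_const)
  filter_upwards [hpa, (hcx δ (by rw [abs_of_pos hδ0]; exact hδ1)).eventually (lt_mem_nhds hpos),
    (hcx (-δ) (by rw [abs_neg, abs_of_pos hδ0]; exact hδ1)).eventually (gt_mem_nhds hneg)]
    with x hxa hx1 hx2 hxf
  have hxs : ∀ s ∈ Icc (-δ) δ, Fl x s ∈ ψ.source ∧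
      ((∀ i, g i (Fl x s) = Fl x s) → l (ψ (Fl x s) - p₀) = 0 → Fl x s = y) := by
    intro s hs
    exact hab hxa (hball (by
      rw [Real.dist_eq, sub_zero]
      exact (abs_le.2 ⟨hs.1, hs.2⟩).trans_lt hδ1))
  have hcont : ContinuousOn (fun s => l (ψ (Fl x s) - p₀)) (Icc (-δ) δ) := by
    intro s hs
    have h1 : ContinuousAt (fun s => Fl x s) s :=
      (hFc.comp (continuous_const.prodMk continuous_id)).continuousAt
    have h2 : ContinuousAt ψ (Fl x s) :=
      (continuousOn_extChartAt y).continuousAt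
        ((isOpen_extChartAt_source (I := 𝓘(ℝ, E)) y).mem_nhds (hxs s hs).1)
    have h3 : ContinuousAt (fun s => ψ (Fl x s)) s := ContinuousAt.comp h2 h1
    exact (l.continuous.continuousAt.comp (h3.sub continuousAt_const)).continuousWithinAt
  obtain ⟨s, hs, hs0⟩ := intermediate_value_Icc (by linarith : -δ ≤ δ) hcont ⟨hx2.le, hx1.le⟩
  have hy : Fl x s = y := (hxs s hs).2 (fun i => by rw [hcomm, hxf]) hs0
  refine ⟨-s, ?_, ?_⟩
  · rw [abs_neg]
    exact (abs_le.2 ⟨hs.1, hs.2⟩).trans_lt hδ3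
  · rw [← hy, ← h.add, add_neg_cancel, h.zero]

end Pool.Agent.V11211.WS
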