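import Mathlib
import Pool.Agent.V11211.WS2

/-! A transversally nondegenerate fixed point of symmetries lies on a closed orbit. -/

open scoped Topology ContDiff Manifold
open Set Metric Bundle Filter Pool.Agent.Helper186 Pool.Agent.H826R2.Wein Pool.Agent.W671.WU

noncomputable section

namespace Pool.Agent.V11211.WS

set_option linter.unusedSectionVars false

universe u

variable {E : Type u} [NormedAddCommGroup E] [NormedSpace ℝ E] [FiniteDimensional ℝ E]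
  {P : Type*} [TopologicalSpace P] [ChartedSpace E P] [IsManifold 𝓘(ℝ, E) ∞ P]
  {β : (x : P) → TangentSpace 𝓘(ℝ, E) x →L[ℝ] ℝ}
  {R : (x : P) → TangentSpace 𝓘(ℝ, E) x} {Fl : P → ℝ → P}
  {ι : Type*} [Fintype ι]

/-- the map preserves the Reeb field -/
def PresR (R : (x : P) → TangentSpace 𝓘(ℝ, E) x) (g : P → P) : Prop :=
  ∀ x, de (E := E) g x (show E from R x) = (show E from R (g x))

lemma de_comp {g h : P → P} (hg : ContMDiff 𝓘(ℝ, E) 𝓘(ℝ, E) ∞ g)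
    (hh : ContMDiff 𝓘(ℝ, E) 𝓘(ℝ, E) ∞ h) (x : P) (v : E) :
    de (E := E) (fun y => g (h y)) x v = de (E := E) g (h x) (de (E := E) h x v) := by
  have h1 : mfderiv 𝓘(ℝ, E) 𝓘(ℝ, E) (g ∘ h) x =
      (mfderiv 𝓘(ℝ, E) 𝓘(ℝ, E) g (h x)).comp (mfderiv 𝓘(ℝ, E) 𝓘(ℝ, E) h x) :=
    mfderiv_comp _ (hg.mdifferentiableAt (by simp)) (hh.mdifferentiableAt (by simp))
  exact DFunLike.congr_fun h1 v

/-- symmetries commute with the flow -/
lemma comm_flow [T2Space P] (c : CD β R) (h : RF β R Fl) {g : P → P}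
    (hg : ContMDiff 𝓘(ℝ, E) 𝓘(ℝ, E) ∞ g) (hR : PresR R g) (x : P) (t : ℝ) :
    g (Fl x t) = Fl (g x) t := by
  have : IsManifold 𝓘(ℝ, E) 1 P := IsManifold.of_le (n := ∞) (by simp)
  have h1 : IsMIntegralCurve (I := 𝓘(ℝ, E)) (fun t => g (Fl x t)) R := by
    intro s
    have h2 := HasMFDerivAt.comp s (g := g) (f := Fl x)
      (hg.mdifferentiableAt (by simp)).hasMFDerivAt (h.int x s)
    refine h2.congr_mfderiv ?_
    refine ContinuousLinearMap.ext fun (r : ℝ) => ?_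
    have h4 : (mfderiv 𝓘(ℝ, E) 𝓘(ℝ, E) g (Fl x s)) ((r • R (Fl x s) : E)) =
      (r • (mfderiv 𝓘(ℝ, E) 𝓘(ℝ, E) g (Fl x s) (R (Fl x s)) : E) : E) :=
      map_smul (mfderiv 𝓘(ℝ, E) 𝓘(ℝ, E) g (Fl x s)) _ _
    show (mfderiv 𝓘(ℝ, E) 𝓘(ℝ, E) g (Fl x s)) ((r • R (Fl x s) : E)) =
      r • R (g (Fl x s))
    rw [h4]
    exact congrArg (fun w : E => r • w) (hR (Fl x s))
  have h2 : (fun t => g (Fl x t)) = Fl (g x) := by
    refine isMIntegralCurve_Ioo_eq_of_contMDiff_boundaryless (t₀ := 0)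
      ((smooth_reeb c).of_le (by simp)) h1 (h.int _) ?_
    simp [h.zero]
  exact congrFun h2 t

/-- the flow of a field which is invariant under a cocompact group -/
lemma exists_flow [T2Space P] (c : CD β R) {Γ : Type*} [Group Γ] [MulAction Γ P]
    (𝒟 : CDeck β Γ) : ∃ Fl, RF β R Fl := by
  have : IsManifold 𝓘(ℝ, E) 1 P := IsManifold.of_le (n := ∞) (by simp)
  obtain ⟨ε, hε, h⟩ := exists_uniform_time_compact (smooth_reeb c) 𝒟.compact
  have hcomp : ∀ x, ∃ γ : ℝ → P, γ 0 = x ∧ IsMIntegralCurve (I := 𝓘(ℝ, E)) γ R := by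
    intro x
    refine exists_isMIntegralCurve_of_isMIntegralCurveOn
      ((smooth_reeb c).of_le (by simp)) hε ?_ x
    intro y
    obtain ⟨γ, hγ⟩ := 𝒟.cover y
    obtain ⟨r, hr0, hr⟩ := h _ hγ
    refine ⟨fun t => γ⁻¹ • r t, by simp [hr0], ?_⟩
    intro t ht
    have h1 : HasMFDerivAt 𝓘(ℝ, ℝ) 𝓘(ℝ, E) r t
      ((1 : ℝ →L[ℝ] ℝ).smulRight (R (r t))) :=
      (hr t ht).hasMFDerivAt (isOpen_Ioo.mem_nhds ht)
    have h2 := HasMFDerivAt.comp t (g := fun z : P => γ⁻¹ • z) (f := r)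
      ((𝒟.smooth γ⁻¹).mdifferentiableAt (by simp)).hasMFDerivAt h1
    have h3 := (𝒟.cto γ⁻¹).push_X c (h := fun _ => 1) (h' := fun _ => 1) contMDiff_const
      (fun z => rfl) (r t)
    rw [reeb_eq c] at h3
    refine (h2.congr_mfderiv ?_).hasMFDerivWithinAt
    refine ContinuousLinearMap.ext fun (a : ℝ) => ?_
    show (mfderiv 𝓘(ℝ, E) 𝓘(ℝ, E) (fun z : P => γ⁻¹ • z) (r t)) ((a • R (r t) : E)) =
      a • R (γ⁻¹ • r t)
    have h4 : (mfderiv 𝓘(ℝ, E) 𝓘(ℝ, E) (fun z : P => γ⁻¹ • z) (r t))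
      ((a • R (r t) : E)) =
      (a • (mfderiv 𝓘(ℝ, E) 𝓘(ℝ, E) (fun z : P => γ⁻¹ • z) (r t) (R (r t)) : E) : E) :=
      map_smul (mfderiv 𝓘(ℝ, E) 𝓘(ℝ, E) (fun z : P => γ⁻¹ • z) (r t)) _ _
    rw [h4]
    exact congrArg (fun w : E => a • w) h3
  choose Fl h0 hFl using hcomp
  exact ⟨Fl, RF.of c h0 hFl⟩

lemma presR_deck [T2Space P] (c : CD β R) {Γ : Type*} [Group Γ] [MulAction Γ P]
    (𝒟 : CDeck β Γ) (γ : Γ) : PresR R (fun x : P => γ • x) := by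
  intro x
  have h3 := (𝒟.cto γ).push_X c (h := fun _ => 1) (h' := fun _ => 1) contMDiff_const
      (fun z => rfl) x
  rw [reeb_eq c] at h3
  exact h3

lemma presR_flow [T2Space P] (c : CD β R) (h : RF β R Fl) (t : ℝ) :
    PresR R (fun x => Fl x t) := by
  intro x
  have hc : Cto β (fun x => Fl x t) (fun x => Fl x (-t)) :=
    { smooth := h.smooth_t t
      smooth' := h.smooth_t (-t)
      right := fun x => by
        show Fl (Fl x (-t)) t = x
        rw [← h.add, neg_add_cancel, h.zero]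
      left := fun x => by
        show Fl (Fl x t) (-t) = x
        rw [← h.add, add_neg_cancel, h.zero]
      strict := h.strict t }
  have h3 := hc.push_X c (h := fun _ => 1) (h' := fun _ => 1) contMDiff_const
      (fun z => rfl) x
  rw [reeb_eq c] at h3
  exact h3

/-- transport of `Nd` by a diffeomorphism -/
lemma det_transport {h h' : P → P} (hh : ContMDiff 𝓘(ℝ, E) 𝓘(ℝ, E) ∞ h)
    (hh' : ContMDiff 𝓘(ℝ, E) 𝓘(ℝ, E) ∞ h') (hinv : ∀ x, h' (h x) = x)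
    (hβ : ∀ (x : P) (u : TangentSpace 𝓘(ℝ, E) x),
      β (h x) (mfderiv 𝓘(ℝ, E) 𝓘(ℝ, E) h x u) = β x u)
    (hR : PresR R h) {g g' : ι → P → P}
    (hg : ∀ i, ContMDiff 𝓘(ℝ, E) 𝓘(ℝ, E) ∞ (g i))
    (hg' : ∀ i, ContMDiff 𝓘(ℝ, E) 𝓘(ℝ, E) ∞ (g' i))
    (hgg : ∀ i x, h (g i x) = g' i (h x)) (c : ι → ℝ) {x : P} (hfix : ∀ i, g i x = x) :
    (Nd β R g c x).det = (Nd β R g' c (h x)).det := by
  refine det_eq_of_intertwine (S := de h x) ?_ ?_
  · intro u v huv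
    have h1 : ∀ w, de (E := E) h' (h x) (de (E := E) h x w) = w := by
      intro w
      rw [← de_comp hh' hh]
      have h2 : (fun y => h' (h y)) = id := by ext1 y; exact hinv y
      rw [h2]
      show mfderiv 𝓘(ℝ, E) 𝓘(ℝ, E) id x w = w
      rw [mfderiv_id]
      rfl
    rw [← h1 u, ← h1 v, huv]
  · intro v
    rw [Nd_apply, Nd_apply, map_add, map_sub, map_sum, map_smul, hR x]
    have h1 : (show E →L[ℝ] ℝ from β (h x)) (de (E := E) h x v) =
        (show E →L[ℝ] ℝ from β x) v := hβ x v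
    rw [h1]
    congr 2
    refine Finset.sum_congr rfl fun i _ => ?_
    rw [map_smul, ← de_comp (hg' i) hh]
    have h2 : (fun y => g' i (h y)) = fun y => h (g i y) := by ext1 y; exact (hgg i y).symm
    rw [h2, de_comp hh (hg i), hfix i]

/-- **Main theorem** (working form). -/
theorem closed_of_fixed [T2Space P] (c₀ : CD β R) {Γ : Type*} [Group Γ] [MulAction Γ P]
    (𝒟 : CDeck β Γ) (h : RF β R Fl) {𝒢 : Set (P → P)}
    (hs : ∀ g ∈ 𝒢, ContMDiff 𝓘(ℝ, E) 𝓘(ℝ, E) ∞ g) (hR : ∀ g ∈ 𝒢, PresR R g)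
    (hconj : ∀ g ∈ 𝒢, ∀ γ : Γ, (fun x => γ • g (γ⁻¹ • x)) ∈ 𝒢)
    (hfin : ∀ K : Set P, IsCompact K → {g ∈ 𝒢 | ∃ x ∈ K, g x ∈ K}.Finite)
    {g : ι → P → P} (hg : ∀ i, g i ∈ 𝒢) {c : ι → ℝ} (hc : ∑ i, c i = 1) {p : P}
    (hfix : ∀ i, g i p = p) (hnd : (Nd β R g c p).det ≠ 0) :
    ∃ (γ : Γ) (T : ℝ), 0 < T ∧ Fl p T = γ • p := by
  choose γ hγ using fun n : ℕ => 𝒟.cover (Fl p n)
  set y : ℕ → P := fun n => γ n • Fl p n with hy
  set G : ℕ → ι → P → P := fun n i x => γ n • g i ((γ n)⁻¹ • x) with hG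
  have hG𝒢 : ∀ n i, G n i ∈ 𝒢 := fun n i => hconj _ (hg i) _
  have hcomm : ∀ f ∈ 𝒢, ∀ x t, f (Fl x t) = Fl (f x) t := fun f hf x t =>
    comm_flow c₀ h (hs f hf) (hR f hf) x t
  have hdeck : ∀ (γ : Γ) x t, γ • Fl x t = Fl (γ • x) t := fun γ x t =>
    comm_flow c₀ h (𝒟.smooth γ) (presR_deck c₀ 𝒟 γ) x t
  have hGy : ∀ n i, G n i (y n) = y n := by
    intro n i
    show γ n • g i ((γ n)⁻¹ • γ n • Fl p n) = γ n • Fl p n
    rw [inv_smul_smul, hcomm _ (hg i), hfix i]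
  -- the determinant along the orbit
  have hdet : ∀ n, (Nd β R (G n) c (y n)).det = (Nd β R g c p).det := by
    intro n
    symm
    refine det_transport (h := fun x => γ n • Fl x n) (h' := fun x => Fl ((γ n)⁻¹ • x) (-n))
      ((𝒟.smooth _).comp (h.smooth_t _)) ((h.smooth_t _).comp (𝒟.smooth _)) ?_ ?_ ?_
      (fun i => hs _ (hg i)) (fun i => hs _ (hG𝒢 n i)) ?_ c hfix
    · intro x
      show Fl ((γ n)⁻¹ • γ n • Fl x n) (-n) = x
      rw [inv_smul_smul, ← h.add, add_neg_cancel, h.zero]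
    · intro x u
      have h1 := de_comp (E := E) (𝒟.smooth (γ n)) (h.smooth_t n) x u
      have h2 := 𝒟.strict (γ n) (Fl x n)
        (mfderiv 𝓘(ℝ, E) 𝓘(ℝ, E) (fun x => Fl x n) x u)
      rw [h.strict] at h2
      rw [← h2]
      exact congrArg (fun w : E => (show E →L[ℝ] ℝ from β (γ n • Fl x n)) w) h1
    · intro x
      have h1 := de_comp (E := E) (𝒟.smooth (γ n)) (h.smooth_t n) x (R x)
      rw [presR_flow c₀ h n x, presR_deck c₀ 𝒟 (γ n) (Fl x n)] at h1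
      exact h1
    · intro i x
      show γ n • Fl (g i x) n = γ n • g i ((γ n)⁻¹ • γ n • Fl x n)
      rw [inv_smul_smul, hcomm _ (hg i)]
  -- finitely many tuples
  have hfin' := hfin 𝒟.D 𝒟.compact
  have hGfin : ∀ n i, G n i ∈ {g ∈ 𝒢 | ∃ x ∈ 𝒟.D, g x ∈ 𝒟.D} := fun n i =>
    ⟨hG𝒢 n i, y n, hγ n, by rw [hGy]; exact hγ n⟩
  have : Finite {g ∈ 𝒢 | ∃ x ∈ 𝒟.D, g x ∈ 𝒟.D} := hfin'.to_subtype
  obtain ⟨k, hk⟩ := Finite.exists_infinite_fiber
    (fun n : ℕ => (fun i => (⟨G n i, hGfin n i⟩ : {g ∈ 𝒢 | ∃ x ∈ 𝒟.D, g x ∈ 𝒟.D})))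
  set S : Set ℕ := (fun n : ℕ => (fun i =>
    (⟨G n i, hGfin n i⟩ : {g ∈ 𝒢 | ∃ x ∈ 𝒟.D, g x ∈ 𝒟.D}))) ⁻¹' {k} with hS
  have hSinf : S.Infinite := Set.infinite_coe_iff.1 hk
  have hGk : ∀ n ∈ S, G n = fun i => (k i).1 := by
    intro n hn
    have h1 : (fun i => (⟨G n i, hGfin n i⟩ : {g ∈ 𝒢 | ∃ x ∈ 𝒟.D, g x ∈ 𝒟.D})) = k := hn
    ext1 i
    exact congrArg Subtype.val (congrFun h1 i)
  set K : ι → P → P := fun i => (k i).1 with hK
  have hK𝒢 : ∀ i, K i ∈ 𝒢 := fun i => (k i).2.1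
  have hKy : ∀ n ∈ S, ∀ i, K i (y n) = y n := by
    intro n hn i
    have h1 := congrFun (hGk n hn) i
    have h2 := hGy n i
    rw [h1] at h2
    exact h2
  have hKdet : ∀ n ∈ S, (Nd β R K c (y n)).det = (Nd β R g c p).det := by
    intro n hn
    have h1 := hdet n
    rw [hGk n hn] at h1
    exact h1
  -- an accumulation point
  have hne : NeBot (Filter.cofinite ⊓ 𝓟 S) := by
    rw [← Filter.frequently_mem_iff_neBot, Filter.frequently_cofinite_iff_infinite]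
    exact hSinf
  obtain ⟨z, -, hz⟩ := 𝒟.compact (f := Filter.map y (Filter.cofinite ⊓ 𝓟 S)) (by
    rw [Filter.le_principal_iff, Filter.mem_map]
    exact Filter.univ_mem' fun n => hγ n)
  have hfreq : ∀ U ∈ 𝓝 z, {n | n ∈ S ∧ y n ∈ U}.Infinite := by
    intro U hU
    have h1 : ∃ᶠ x in Filter.map y (Filter.cofinite ⊓ 𝓟 S), x ∈ U := hz.frequently hU
    have h1' : ∃ᶠ n in Filter.cofinite ⊓ 𝓟 S, y n ∈ U := Filter.frequently_map.1 h1
    have h2 : ∃ᶠ n in Filter.cofinite, n ∈ S ∧ y n ∈ U := by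
      rw [Filter.frequently_inf_principal] at h1'
      exact h1'
    exact Filter.frequently_cofinite_iff_infinite.1 h2
  -- the maps fix the accumulation point
  have hKz : ∀ i, K i z = z := by
    intro i
    have hcl : IsClosed {x | K i x = x} :=
      isClosed_eq (hs _ (hK𝒢 i)).continuous continuous_id
    by_contra hcon
    obtain ⟨n, hnS, hn⟩ := (hfreq _ (hcl.isOpen_compl.mem_nhds hcon)).nonempty
    exact hn (hKy n hnS i)
  -- nondegeneracy at the accumulation point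
  have hzdet : (Nd β R K c z).det ≠ 0 := by
    intro h0
    set ψ := extChartAt 𝓘(ℝ, E) z with hψ
    have hmem : ψ z ∈ ψ.target := mem_extChartAt_target z
    have hsym : ψ.symm (ψ z) = z := extChartAt_to_inv z
    have hfixz : ∀ i, K i (ψ.symm (ψ z)) = ψ.symm (ψ z) := by rw [hsym]; exact hKz
    have h1 : (Nc β Fl K c z (ψ z)).det = 0 := by
      rw [det_chart h z (fun i => hs _ (hK𝒢 i)) c hmem hfixz, hsym, h0]
    have h2 : ContinuousAt (fun q => (Nc β Fl K c z q).det) (ψ z) :=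
      ContinuousLinearMap.continuous_det.continuousAt.comp
        (continuousAt_Nc c₀.contact.smooth h z (fun i => hs _ (hK𝒢 i)) c hmem hfixz)
    have h3 : ContinuousAt (fun x => (Nc β Fl K c z (ψ x)).det) z :=
      ContinuousAt.comp (f := fun x => ψ x) (g := fun q => (Nc β Fl K c z q).det) h2
        (continuousAt_extChartAt z)
    have h4 : ∀ᶠ x in 𝓝 z, (Nc β Fl K c z (ψ x)).det ≠ (Nd β R g c p).det ∧ x ∈ ψ.source := by
      refine (h3.eventually_ne ?_).and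
        ((isOpen_extChartAt_source (I := 𝓘(ℝ, E)) z).mem_nhds (mem_extChartAt_source z))
      rw [h1]
      exact hnd.symm
    obtain ⟨n, hnS, hn1, hn2⟩ := (hfreq _ h4).nonempty
    apply hn1
    have hs2 : ψ.symm (ψ (y n)) = y n := ψ.left_inv hn2
    rw [det_chart h z (fun i => hs _ (hK𝒢 i)) c (ψ.map_source hn2)
      (by rw [hs2]; exact hKy n hnS), hs2]
    exact hKdet n hnS
  -- isolation
  have hiso := isolated c₀.reeb.unit h (fun i => hs _ (hK𝒢 i))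
    (fun i x t => hcomm _ (hK𝒢 i) x t) hc hKz hzdet (ε := 1 / 4) (by norm_num)
  have hinf := hfreq _ hiso
  obtain ⟨n, hnS, hn⟩ := hinf.nonempty
  obtain ⟨m, ⟨hmS, hm⟩, hnm⟩ := hinf.exists_gt n
  obtain ⟨s, hs1, hs2⟩ := hn (hKy n hnS)
  obtain ⟨r, hr1, hr2⟩ := hm (hKy m hmS)
  have e1 : z = γ n • Fl p (n - s) := by
    rw [sub_eq_add_neg, h.add, hdeck]
    show z = Fl (y n) (-s)
    rw [hs2, ← h.add, add_neg_cancel, h.zero]
  have e2 : z = γ m • Fl p (m - r) := by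
    rw [sub_eq_add_neg, h.add, hdeck]
    show z = Fl (y m) (-r)
    rw [hr2, ← h.add, add_neg_cancel, h.zero]
  have e3 : Fl p (m - r) = ((γ m)⁻¹ * γ n) • Fl p (n - s) := by
    rw [mul_smul, ← e1, e2, inv_smul_smul]
  refine ⟨(γ m)⁻¹ * γ n, (m - r) - (n - s), ?_, ?_⟩
  · have h1 : (n:ℝ) + 1 ≤ m := by exact_mod_cast hnm
    have h2 := (abs_lt.1 hs1).1
    have h3 := (abs_lt.1 hr1).2
    linarith
  · rw [sub_eq_add_neg, h.add, e3, ← hdeck, ← h.add, add_neg_cancel, h.zero]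

end Pool.Agent.V11211.WS
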