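import Mathlib
import Pool.Agent.V11211.WS3

/-! Hidden symmetries of contact forms: statements in terms of the elementary definitions. -/

open scoped Topology ContDiff Manifold
open Set Filter Pool.Agent.Helper186 Pool.Agent.H826R2 Pool.Agent.H826R2.WStmt

noncomputable section

set_option linter.unusedSectionVars false

namespace Pool.Agent.V11211.WS

universe u

section

variable {E : Type*} [NormedAddCommGroup E] [NormedSpace ℝ E]
  {M : Type*} [TopologicalSpace M] [ChartedSpace E M]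
  {P : Type*} [TopologicalSpace P] [ChartedSpace E P]

/-- `𝒢` is a set of smooth maps `P → P` which map the lift of the vector field `R` to itself; it is
invariant under conjugation by the elements of the deck group `Γ`, and for every compact set `K` only
finitely many `g ∈ 𝒢` have `g(K) ∩ K ≠ ∅`. -/
structure HiddenSymmetries (Γ : Type*) [Group Γ] [MulAction Γ P] (q : P → M) (R : M → E)
    (𝒢 : Set (P → P)) : Prop where
  smooth : ∀ g ∈ 𝒢, ContMDiff 𝓘(ℝ, E) 𝓘(ℝ, E) ∞ g
  reeb : ∀ g ∈ 𝒢, ∀ (x : P) (v : E), D (E' := E) q x v = R (q x) →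
    D (E' := E) q (g x) (D (E' := E) g x v) = R (q (g x))
  conj : ∀ g ∈ 𝒢, ∀ γ : Γ, (fun x => γ • g (γ⁻¹ • x)) ∈ 𝒢
  finite : ∀ K : Set P, IsCompact K → {g ∈ 𝒢 | ∃ x ∈ K, g x ∈ K}.Finite

/-- Some affine combination `L = ∑ c i • Dg_i(p)`, `∑ c i = 1`, of the derivatives of the maps `g i`
at their common fixed point `p` has no eigenvalue `1` transversally to the lift of `R`: if
`L v - v` is tangent to the lift of `R` then so is `v`. -/
def TransverselyNondegenerate (q : P → M) (R : M → E) {k : ℕ} (g : Fin k → P → P) (p : P) : Prop :=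
  ∃ c : Fin k → ℝ, ∑ i, c i = 1 ∧ ∀ v : E,
    (∃ a : ℝ, D (E' := E) q p (∑ i, c i • D (E' := E) (g i) p v - v) = a • R (q p)) →
    ∃ b : ℝ, D (E' := E) q p v = b • R (q p)

end

variable {E : Type u} [NormedAddCommGroup E] [NormedSpace ℝ E] [FiniteDimensional ℝ E]
  {M : Type*} [TopologicalSpace M] [ChartedSpace E M] [IsManifold 𝓘(ℝ, E) ∞ M]
  {P : Type*} [TopologicalSpace P] [ChartedSpace E P] [IsManifold 𝓘(ℝ, E) ∞ P]

lemma det_ne_zero_of {A : E →L[ℝ] E} (h : ∀ v, A v = 0 → v = 0) : A.det ≠ 0 := by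
  intro h0
  have h1 := LinearMap.bot_lt_ker_of_det_eq_zero (f := (A : E →ₗ[ℝ] E)) h0
  have h2 : LinearMap.ker (A : E →ₗ[ℝ] E) = ⊥ := LinearMap.ker_eq_bot'.2 h
  rw [h2] at h1
  exact lt_irrefl _ h1

/-- **Hidden symmetries.** -/
theorem exists_periodic_hidden [T2Space M] [CompactSpace M]
    (α : M → Cov E) (hα : IsContact α) (R : M → E) (hR : IsReeb α R) [T2Space P]
    {Γ : Type*} [Group Γ] [MulAction Γ P] (q : P → M) (hq : IsQuotientMap E q Γ)
    (𝒢 : Set (P → P)) (h𝒢 : HiddenSymmetries Γ q R 𝒢)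
    {k : ℕ} (g : Fin k → P → P) (hg : ∀ i, g i ∈ 𝒢) (p : P) (hp : ∀ i, g i p = p)
    (hn : TransverselyNondegenerate q R g p) :
    ∃ (c : ℝ → M) (T : ℝ), c 0 = q p ∧ IsPeriodicOrbit R c T := by
  have hq' := hq.toWein
  have hα' := hα.toWein
  have hR' := hR.toWein
  have hcP := hq'.isContact_pull hα'
  have hRP := hq'.isReeb_lift hα' hR'
  have c₀ : Wein.CD _ _ := ⟨hcP, hRP⟩
  obtain ⟨𝒟⟩ := hq'.nonempty_cdeck (α := toForm α)
  obtain ⟨Fl, h⟩ := exists_flow c₀ 𝒟
  set Rl := Wein.liftField hq' (fun x => (R x : TangentSpace 𝓘(ℝ, E) x)) with hRl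
  have hspec : ∀ x : P, D (E := E) (E' := E) q x (Rl x) = R (q x) := fun x =>
    hq'.liftField_spec _ x
  have hinj : ∀ (x : P) (v w : E), D (E' := E) q x v = D (E' := E) q x w → v = w :=
    fun x v w hvw => hq'.inj x hvw
  have hpres : ∀ g ∈ 𝒢, PresR Rl g := by
    intro f hf x
    have h1 := h𝒢.reeb f hf x (Rl x) (hspec x)
    exact hinj (f x) _ _ (h1.trans (hspec (f x)).symm)
  obtain ⟨c, hc, hnd⟩ := hn
  have hdet : (Nd (pullForm 𝓘(ℝ, E) 𝓘(ℝ, E) q (toForm α)) Rl g c p).det ≠ 0 := by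
    apply det_ne_zero_of
    intro v hv
    rw [Nd_apply] at hv
    set b : ℝ := (show E →L[ℝ] ℝ from pullForm 𝓘(ℝ, E) 𝓘(ℝ, E) q (toForm α) p) v with hb
    have h1 : (∑ i, c i • D (E' := E) (g i) p v - v : E) = b • (show E from Rl p) := by
      have h2 : (v : E) - ∑ i, c i • D (E' := E) (g i) p v + b • (show E from Rl p) = 0 := hv
      rw [← sub_eq_zero, ← neg_eq_zero, ← h2]
      abel
    obtain ⟨r, hr⟩ := hnd v ⟨b, by rw [h1, map_smul]; exact congrArg (fun w => b • w) (hspec p)⟩
    have h3 : v = r • (show E from Rl p) := by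
      apply hinj p
      rw [hr, map_smul]
      exact congrArg (fun w => r • w) (hspec p).symm
    have h4 : ∀ i, D (E' := E) (g i) p v = v := by
      intro i
      rw [h3, map_smul]
      have h5 := hpres _ (hg i) p
      have h6 : (show E from Rl (g i p)) = (show E from Rl p) := by
        have : ∀ z : P, z = p → (show E from Rl z) = (show E from Rl p) := by
          rintro _ rfl; rfl
        exact this _ (hp i)
      rw [h6] at h5
      exact congrArg (fun w : E => r • w) h5
    have h5 : (∑ i, c i • D (E' := E) (g i) p v - v : E) = 0 := by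
      have : ∑ i, c i • D (E' := E) (g i) p v = v := by
        rw [Finset.sum_congr rfl fun i _ => by rw [h4 i], ← Finset.sum_smul, hc, one_smul]
      rw [this, sub_self]
    rw [h1] at h5
    have h6 : b = 0 := by
      rcases smul_eq_zero.1 h5 with h7 | h7
      · exact h7
      · exfalso
        have h8 := hRP.unit p
        have h9 : Rl p = 0 := h7
        exact zero_ne_one ((map_zero (pullForm 𝓘(ℝ, E) 𝓘(ℝ, E) q (toForm α) p)).symm.trans
          ((congrArg (pullForm 𝓘(ℝ, E) 𝓘(ℝ, E) q (toForm α) p) h9.symm).trans h8))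
    have h7 : b = r := by
      rw [hb, h3, map_smul]
      have h8 : (show E →L[ℝ] ℝ from pullForm 𝓘(ℝ, E) 𝓘(ℝ, E) q (toForm α) p)
        (show E from Rl p) = 1 := hRP.unit p
      rw [h8, smul_eq_mul, mul_one]
    rw [h3, ← h7, h6, zero_smul]
  obtain ⟨γ, T, hT, hγ⟩ := closed_of_fixed c₀ 𝒟 h h𝒢.smooth hpres h𝒢.conj h𝒢.finite hg hc hp hdet
  refine ⟨fun t => q (Fl p t), T, by show q (Fl p 0) = q p; rw [h.zero], hT, ?_, ?_⟩
  · intro t
    have h2 := HasMFDerivAt.comp t (g := q) (f := Fl p) (hq'.mdiff (Fl p t)).hasMFDerivAt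
      (h.int p t)
    refine h2.congr_mfderiv ?_
    refine ContinuousLinearMap.ext fun (r : ℝ) => ?_
    show mfderiv 𝓘(ℝ, E) 𝓘(ℝ, E) q (Fl p t) (r • Rl (Fl p t)) = r • R (q (Fl p t))
    rw [map_smul]
    exact congrArg (fun w : E => r • w) (hq'.liftField_spec _ (Fl p t))
  · intro t
    show q (Fl p (t + T)) = q (Fl p t)
    rw [add_comm, h.add, hγ, ← comm_flow c₀ h (𝒟.smooth γ) (presR_deck c₀ 𝒟 γ)]
    exact hq'.proj_smul γ _

/-- **Finite groups.** -/
theorem exists_periodic_finite [T2Space M] [CompactSpace M]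
    (α : M → Cov E) (hα : IsContact α) (R : M → E) (hR : IsReeb α R)
    {G : Type*} [Group G] [Finite G] [MulAction G M]
    (hs : ∀ g : G, ContMDiff 𝓘(ℝ, E) 𝓘(ℝ, E) ∞ (fun x : M => g • x))
    (hpr : ∀ g : G, pull (fun x : M => g • x) α = α) (p : M) (hp : ∀ g : G, g • p = p)
    (hn : ∀ v : E, ev (α p) v = 0 → (∀ g : G, D (E' := E) (fun x : M => g • x) p v = v) → v = 0) :
    ∃ (c : ℝ → M) (T : ℝ), c 0 = p ∧ IsPeriodicOrbit R c T := by
  have hα' := hα.toWein
  have hR' := hR.toWein
  have c₀ : Wein.CD (toForm α) (fun x => (R x : TangentSpace 𝓘(ℝ, E) x)) := ⟨hα', hR'⟩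
  have := Fintype.ofFinite G
  have hstr : ∀ (g : G) (x : M) (u : TangentSpace 𝓘(ℝ, E) x),
      toForm α (g • x) (mfderiv 𝓘(ℝ, E) 𝓘(ℝ, E) (fun x : M => g • x) x u) = toForm α x u := by
    intro g x u
    have h1 := congrFun (hpr g) x
    exact congrArg (fun a : Cov E => ev a (u : E)) h1
  -- the group `G` itself as a deck group
  let 𝒟G : Wein.CDeck (toForm α) G :=
    { smooth := hs
      strict := hstr
      D := univ
      compact := isCompact_univ
      cover := fun x => ⟨1, mem_univ _⟩ }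
  -- the trivial group
  let Γ := (⊥ : Subgroup (Equiv.Perm M))
  have hΓ : ∀ (γ : Γ) (x : M), γ • x = x := by
    rintro ⟨γ, hγ⟩ x
    have : γ = 1 := hγ
    subst this
    rfl
  let 𝒟 : Wein.CDeck (toForm α) Γ :=
    { smooth := fun γ => by
        have : (fun x : M => γ • x) = id := by ext1 x; exact hΓ γ x
        rw [this]; exact contMDiff_id
      strict := fun γ x u => by
        have h1 : (fun x : M => γ • x) = id := by ext1 x; exact hΓ γ x
        have h2 : (mfderiv 𝓘(ℝ, E) 𝓘(ℝ, E) (fun x : M => γ • x) x u : E) = u := by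
          rw [h1, mfderiv_id]; rfl
        have h3 : ∀ (z : M) (w : E), z = x → w = u → toForm α z w = toForm α x u := by
          rintro _ _ rfl rfl; rfl
        exact h3 _ _ (hΓ γ x) h2
      D := univ
      compact := isCompact_univ
      cover := fun x => ⟨1, mem_univ _⟩ }
  obtain ⟨Fl, h⟩ := exists_flow c₀ 𝒟
  set 𝒢 : Set (M → M) := range (fun g : G => fun x : M => g • x) with h𝒢
  have hfin : 𝒢.Finite := finite_range _
  have hcard : (Fintype.card G : ℝ) ≠ 0 := by
    exact_mod_cast Fintype.card_ne_zero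
  have hdet : (Nd (toForm α) (fun x => (R x : TangentSpace 𝓘(ℝ, E) x))
      (fun (g : G) (x : M) => g • x) (fun _ => (Fintype.card G : ℝ)⁻¹) p).det ≠ 0 := by
    apply det_ne_zero_of
    intro v hv
    replace hv := (Nd_apply (β := toForm α) (R := fun x => (R x : TangentSpace 𝓘(ℝ, E) x))
      (fun (g : G) (x : M) => g • x) (fun _ => (Fintype.card G : ℝ)⁻¹) p v).symm.trans hv
    obtain ⟨ap, hap⟩ : ∃ ap : E →L[ℝ] ℝ, ∀ w : E, ap w = toForm α p w :=
      ⟨toForm α p, fun _ => rfl⟩
    obtain ⟨r, hr⟩ : ∃ r : E, r = R p := ⟨_, rfl⟩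
    have hapr : ap r = 1 := by rw [hap, hr]; exact hR.unit p
    have hpD : ∀ (g : G) (w : E), ap (de (E := E) (fun x : M => g • x) p w) = ap w := by
      intro g w
      rw [hap, hap]
      have h1 := hstr g p w
      have h2 : ∀ (z : M) (w : E), z = p → toForm α z w = toForm α p w := by
        rintro _ _ rfl; rfl
      exact (h2 _ _ (hp g)).symm.trans h1
    set A : E := ∑ g : G, (Fintype.card G : ℝ)⁻¹ • de (E := E) (fun x : M => g • x) p v with hA
    have hv2 : v - A + ap v • r = 0 := by rw [hap, hr]; exact hv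
    have h1 : ap A = ap v := by
      rw [hA, map_sum]
      simp only [map_smul, hpD]
      rw [Finset.sum_const, Finset.card_univ, smul_eq_mul, nsmul_eq_mul, ← mul_assoc,
        mul_inv_cancel₀ hcard, one_mul]
    have hb0' : ap v = 0 := by
      have h2 := congrArg ap hv2
      rw [map_add, map_sub, map_smul, h1, sub_self, zero_add, map_zero, hapr, smul_eq_mul,
        mul_one] at h2
      exact h2
    have hb0 : ev (α p) v = 0 := by
      rw [hap] at hb0'
      exact hb0'
    have hAv : A = v := by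
      rw [hb0', zero_smul, add_zero, sub_eq_zero] at hv2
      exact hv2.symm
    refine hn v hb0 fun g' => ?_
    show de (E := E) (fun x : M => g' • x) p v = v
    have h2 : ∀ g : G, de (E := E) (fun x : M => g' • x) p (de (E := E) (fun x : M => g • x) p v) =
        de (E := E) (fun x : M => (g' * g) • x) p v := by
      intro g
      have h3 := de_comp (E := E) (hs g') (hs g) p v
      have h4 : (fun y : M => g' • g • y) = fun y => (g' * g) • y := by
        ext1 y; rw [mul_smul]
      have h3' : de (E := E) (fun y : M => g' • g • y) p v =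
          de (E := E) (fun x : M => g' • x) (g • p) (de (E := E) (fun x : M => g • x) p v) := h3
      rw [h4, hp g] at h3'
      exact h3'.symm
    have h5 : de (E := E) (fun x : M => g' • x) p A = A := by
      rw [hA, map_sum]
      simp only [map_smul, h2]
      exact Fintype.sum_equiv (Equiv.mulLeft g') _ _ (fun g => rfl)
    rw [hAv] at h5
    exact h5
  obtain ⟨γ, T, hT, hγ⟩ := closed_of_fixed (𝒢 := 𝒢) c₀ 𝒟 h
    (by rintro _ ⟨g, rfl⟩; exact hs g)
    (by rintro _ ⟨g, rfl⟩; exact presR_deck c₀ 𝒟G g)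
    (by
      rintro f hf γ
      have : (fun x => γ • f (γ⁻¹ • x)) = f := by ext1 x; rw [hΓ, hΓ]
      rw [this]; exact hf)
    (fun K _ => hfin.subset fun f hf => hf.1)
    (g := fun (g : G) (x : M) => g • x) (fun g => ⟨g, rfl⟩)
    (c := fun _ => (Fintype.card G : ℝ)⁻¹) (by
      rw [Finset.sum_const, Finset.card_univ, nsmul_eq_mul, mul_inv_cancel₀ hcard])
    hp hdet
  rw [hΓ] at hγ
  refine ⟨Fl p, T, h.zero p, hT, h.int p, fun t => ?_⟩
  rw [add_comm, h.add, hγ]

end Pool.Agent.V11211.WS
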