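import Mathlib
import Pool.Agent.V11211.WS4

/-! The derivative of a one-form at a zero. -/

open scoped Topology ContDiff Manifold
open Set Metric Bundle Filter Pool.Agent.Helper186 Pool.Agent.H826R2.Wein Pool.Agent.W671.WU

noncomputable section

namespace Pool.Agent.V11211.WS

set_option linter.unusedSectionVars false

universe u

variable {E : Type u} [NormedAddCommGroup E] [NormedSpace ℝ E] [FiniteDimensional ℝ E]
  {M : Type*} [TopologicalSpace M] [ChartedSpace E M] [IsManifold 𝓘(ℝ, E) ∞ M]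

/-- Pull back formula for the derivative of a one-form at a zero. -/
theorem nabla_pullback {α : (x : M) → TangentSpace 𝓘(ℝ, E) x →L[ℝ] ℝ}
    (hα : SmoothForm α) {P : Type*} [NormedAddCommGroup P] [NormedSpace ℝ P] {S : P → M}
    {U : Set P} (hU : IsOpen U) (hS : ContMDiffOn 𝓘(ℝ, P) 𝓘(ℝ, E) ∞ S U) {p : P} (hp : p ∈ U)
    (h0 : α (S p) = 0) (u v : P) :
    fderiv ℝ (fun q => α (S q) (mfderiv 𝓘(ℝ, P) 𝓘(ℝ, E) S q v)) p u =
      fderiv ℝ (chartForm 𝓘(ℝ, E) α (S p)) (extChartAt 𝓘(ℝ, E) (S p) (S p))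
        (mfderiv 𝓘(ℝ, P) 𝓘(ℝ, E) S p u : E) (mfderiv 𝓘(ℝ, P) 𝓘(ℝ, E) S p v : E) := by
  set x := S p with hx
  set φ := extChartAt 𝓘(ℝ, E) x with hφ
  set T : P → E := fun q => φ (S q) with hT
  -- the open set on which everything is defined
  obtain ⟨U', hU'o, hpU', hU'⟩ : ∃ U' : Set P, IsOpen U' ∧ p ∈ U' ∧
      ∀ q ∈ U', q ∈ U ∧ S q ∈ φ.source := by
    have h1 : ∀ᶠ q in 𝓝 p, q ∈ U ∧ S q ∈ φ.source := by
      have h2 : ∀ᶠ q in 𝓝 p, q ∈ U := hU.mem_nhds hp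
      have := (hS.contMDiffAt (hU.mem_nhds hp)).continuousAt
      exact h2.and (this.preimage_mem_nhds (extChartAt_source_mem_nhds x))
    obtain ⟨U', h, h2, h3⟩ := _root_.mem_nhds_iff.1 h1
    exact ⟨U', h2, h3, h⟩
  have hSat : ∀ q ∈ U', ContMDiffAt 𝓘(ℝ, P) 𝓘(ℝ, E) ∞ S q := fun q hq =>
    hS.contMDiffAt (hU.mem_nhds (hU' q hq).1)
  have hTat : ∀ q ∈ U', ContDiffAt ℝ ∞ T q := by
    intro q hq
    rw [← contMDiffAt_iff_contDiffAt]
    have hs : S q ∈ (chartAt E x).source := by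
      have := (hU' q hq).2
      rwa [hφ, extChartAt_source] at this
    exact (contMDiffAt_extChartAt' hs).comp q (hSat q hq)
  have key : ∀ q ∈ U', ∀ w : P, α (S q) (mfderiv 𝓘(ℝ, P) 𝓘(ℝ, E) S q w) =
      chartForm 𝓘(ℝ, E) α x (T q) (fderiv ℝ T q w) := by
    intro q hq w
    have e1 : S =ᶠ[𝓝 q] φ.symm ∘ T := by
      filter_upwards [hU'o.mem_nhds hq] with q' hq'
      exact (φ.left_inv (hU' q' hq').2).symm
    have hTq : T q ∈ φ.target := φ.map_source (hU' q hq).2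
    have e2 := tangentMap_congr_of_eventuallyEq (J := 𝓘(ℝ, P)) (I := 𝓘(ℝ, E))
      (v := (⟨q, w⟩ : TangentBundle 𝓘(ℝ, P) P)) e1
    have e3 : tangentMap 𝓘(ℝ, P) 𝓘(ℝ, E) (φ.symm ∘ T) (⟨q, w⟩ : TangentBundle 𝓘(ℝ, P) P) =
        tangentMap 𝓘(ℝ, E) 𝓘(ℝ, E) φ.symm (tangentMap 𝓘(ℝ, P) 𝓘(ℝ, E) T ⟨q, w⟩) := by
      apply tangentMap_comp_at
      · exact ((contMDiffOn_extChartAt_symm (n := ∞) x).contMDiffAt
          ((isOpen_extChartAt_target x).mem_nhds hTq)).mdifferentiableAt (by simp)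
      · exact (contMDiffAt_iff_contDiffAt.2 (hTat q hq)).mdifferentiableAt (by simp)
    have e4 : (fun v : TangentBundle 𝓘(ℝ, E) M => α v.1 v.2)
        (tangentMap 𝓘(ℝ, P) 𝓘(ℝ, E) S (⟨q, w⟩ : TangentBundle 𝓘(ℝ, P) P)) =
        (fun v : TangentBundle 𝓘(ℝ, E) M => α v.1 v.2)
        (tangentMap 𝓘(ℝ, E) 𝓘(ℝ, E) φ.symm (tangentMap 𝓘(ℝ, P) 𝓘(ℝ, E) T ⟨q, w⟩)) := by
      rw [e2, e3]
    rw [chartForm_apply]
    refine e4.trans ?_
    simp only [tangentMap, mfderiv_eq_fderiv]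
    rfl
  -- differentiate
  have hder : ∀ u v : P, fderiv ℝ (fun q => α (S q) (mfderiv 𝓘(ℝ, P) 𝓘(ℝ, E) S q v)) p u =
      fderiv ℝ (chartForm 𝓘(ℝ, E) α x) (φ x) (fderiv ℝ T p u) (fderiv ℝ T p v) +
        chartForm 𝓘(ℝ, E) α x (φ x) (fderiv ℝ (fderiv ℝ T) p u v) := by
    intro u v
    have e1 : (fun q => α (S q) (mfderiv 𝓘(ℝ, P) 𝓘(ℝ, E) S q v)) =ᶠ[𝓝 p]
        fun q => chartForm 𝓘(ℝ, E) α x (T q) (fderiv ℝ T q v) := by
      filter_upwards [hU'o.mem_nhds hpU'] with q hq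
      exact key q hq v
    rw [e1.fderiv_eq]
    have hTp : HasFDerivAt T (fderiv ℝ T p) p :=
      ((hTat p hpU').differentiableAt (by simp)).hasFDerivAt
    have hcf : HasFDerivAt (chartForm 𝓘(ℝ, E) α x) (fderiv ℝ (chartForm 𝓘(ℝ, E) α x) (φ x))
        (T p) := by
      have : T p ∈ φ.target := φ.map_source (hU' p hpU').2
      exact (((contDiffOn_chartForm hα x).contDiffAt
        ((isOpen_extChartAt_target x).mem_nhds this)).differentiableAt (by simp)).hasFDerivAt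
    have h1 : HasFDerivAt (fun q => chartForm 𝓘(ℝ, E) α x (T q))
        ((fderiv ℝ (chartForm 𝓘(ℝ, E) α x) (φ x)).comp (fderiv ℝ T p)) p := hcf.comp p hTp
    have h2 : HasFDerivAt (fderiv ℝ T) (fderiv ℝ (fderiv ℝ T) p) p :=
      (((hTat p hpU').fderiv_right (m := ∞) (by simp)).differentiableAt
        (by simp)).hasFDerivAt
    have h3 : HasFDerivAt (fun q => fderiv ℝ T q v)
        ((ContinuousLinearMap.apply ℝ E v).comp (fderiv ℝ (fderiv ℝ T) p)) p :=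
      (ContinuousLinearMap.apply ℝ E v).hasFDerivAt.comp p h2
    have h4 := h1.clm_apply h3
    rw [h4.fderiv]
    simp only [add_apply, ContinuousLinearMap.comp_apply,
      ContinuousLinearMap.flip_apply, ContinuousLinearMap.apply_apply]
    rw [add_comm]
  have hDT : ∀ w : P, fderiv ℝ T p w = mfderiv 𝓘(ℝ, P) 𝓘(ℝ, E) S p w := by
    intro w
    have h1 : mfderiv 𝓘(ℝ, P) 𝓘(ℝ, E) T p = (mfderiv 𝓘(ℝ, E) 𝓘(ℝ, E) φ (S p)).comp
        (mfderiv 𝓘(ℝ, P) 𝓘(ℝ, E) S p) := by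
      apply mfderiv_comp
      · exact (contMDiffAt_extChartAt (n := ∞)).mdifferentiableAt (by simp)
      · exact (hSat p hpU').mdifferentiableAt (by simp)
    rw [← mfderiv_eq_fderiv, h1]
    exact mfderiv_extChartAt_self x _
  have hz : chartForm 𝓘(ℝ, E) α x (φ x) (fderiv ℝ (fderiv ℝ T) p u v) = 0 := by
    rw [hφ, chartForm_self (β := α) x, h0]
    rfl
  rw [hder u v, hz, add_zero, hDT u, hDT v]

/-- the derivative of a one-form, in the chart at the point -/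
def nab (α : (x : M) → TangentSpace 𝓘(ℝ, E) x →L[ℝ] ℝ) (x : M) : E →L[ℝ] E →L[ℝ] ℝ :=
  fderiv ℝ (chartForm 𝓘(ℝ, E) α x) (extChartAt 𝓘(ℝ, E) x x)

/-- the derivative at a zero, in another chart -/
lemma nab_chart {α : (x : M) → TangentSpace 𝓘(ℝ, E) x →L[ℝ] ℝ}
    (hα : SmoothForm α) (x₀ : M) {p : E} (hp : p ∈ (extChartAt 𝓘(ℝ, E) x₀).target)
    (h0 : α ((extChartAt 𝓘(ℝ, E) x₀).symm p) = 0) (u v : E) :
    fderiv ℝ (chartForm 𝓘(ℝ, E) α x₀) p u v =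
      nab α ((extChartAt 𝓘(ℝ, E) x₀).symm p) (dsL x₀ p u) (dsL x₀ p v) := by
  have h1 := nabla_pullback hα (isOpen_extChartAt_target x₀) (contMDiffOn_extChartAt_symm x₀) hp
    h0 u v
  have hd : DifferentiableAt ℝ (chartForm 𝓘(ℝ, E) α x₀) p :=
    ((contDiffOn_chartForm hα x₀).contDiffAt
      ((isOpen_extChartAt_target x₀).mem_nhds hp)).differentiableAt (by simp)
  have h5 : HasFDerivAt (fun q => chartForm 𝓘(ℝ, E) α x₀ q v)
      ((ContinuousLinearMap.apply ℝ ℝ v).comp (fderiv ℝ (chartForm 𝓘(ℝ, E) α x₀) p)) p :=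
    (ContinuousLinearMap.apply ℝ ℝ v).hasFDerivAt.comp p hd.hasFDerivAt
  have h6 := h5.fderiv
  have h7 : fderiv ℝ (fun q => chartForm 𝓘(ℝ, E) α x₀ q v) p u =
      fderiv ℝ (chartForm 𝓘(ℝ, E) α x₀) p u v := by
    rw [h6]; rfl
  rw [← h7]
  exact h1

/-- naturality of the derivative at a zero -/
lemma nab_push {α : (x : M) → TangentSpace 𝓘(ℝ, E) x →L[ℝ] ℝ}
    (hα : SmoothForm α) {φ : M → M} (hφ : ContMDiff 𝓘(ℝ, E) 𝓘(ℝ, E) ∞ φ)
    (hinv : ∀ (x : M) (u : TangentSpace 𝓘(ℝ, E) x),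
      α (φ x) (mfderiv 𝓘(ℝ, E) 𝓘(ℝ, E) φ x u) = α x u) {x : M} (h0 : α (φ x) = 0) (u v : E) :
    nab α (φ x) (de φ x u) (de φ x v) = nab α x u v := by
  set ψ := extChartAt 𝓘(ℝ, E) x with hψ
  have hψo : IsOpen ψ.target := isOpen_extChartAt_target x
  have hψs : ContMDiffOn 𝓘(ℝ, E) 𝓘(ℝ, E) ∞ ψ.symm ψ.target := contMDiffOn_extChartAt_symm x
  have hy : ψ x ∈ ψ.target := mem_extChartAt_target x
  have hsym : ψ.symm (ψ x) = x := ψ.left_inv (mem_extChartAt_source x)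
  have hGψ : ∀ q ∈ ψ.target, ∀ w : E, mfderiv 𝓘(ℝ, E) 𝓘(ℝ, E) (φ ∘ ψ.symm) q w =
      mfderiv 𝓘(ℝ, E) 𝓘(ℝ, E) φ (ψ.symm q) (mfderiv 𝓘(ℝ, E) 𝓘(ℝ, E) ψ.symm q w) := by
    intro q hq w
    have h3 := mfderiv_comp (I := 𝓘(ℝ, E)) (I' := 𝓘(ℝ, E)) (I'' := 𝓘(ℝ, E)) q
      (hφ.mdifferentiableAt (by simp) (x := ψ.symm q))
      ((hψs.contMDiffAt (hψo.mem_nhds hq)).mdifferentiableAt (by simp))
    exact DFunLike.congr_fun h3 w
  have h1 := nabla_pullback hα hψo (hφ.comp_contMDiffOn hψs) hy (by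
    show α (φ (ψ.symm (ψ x))) = 0
    rw [hsym]; exact h0) u v
  -- the left hand side
  have h3 : (fun q => α ((φ ∘ ψ.symm) q) (mfderiv 𝓘(ℝ, E) 𝓘(ℝ, E) (φ ∘ ψ.symm) q v))
      =ᶠ[𝓝 (ψ x)] fun q => chartForm 𝓘(ℝ, E) α x q v := by
    filter_upwards [hψo.mem_nhds hy] with q hq
    rw [hGψ q hq]
    exact hinv _ _
  rw [h3.fderiv_eq] at h1
  have hd : DifferentiableAt ℝ (chartForm 𝓘(ℝ, E) α x) (ψ x) :=
    ((contDiffOn_chartForm hα x).contDiffAt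
      ((isOpen_extChartAt_target x).mem_nhds hy)).differentiableAt (by simp)
  have h5 : HasFDerivAt (fun q => chartForm 𝓘(ℝ, E) α x q v)
      ((ContinuousLinearMap.apply ℝ ℝ v).comp (fderiv ℝ (chartForm 𝓘(ℝ, E) α x) (ψ x))) (ψ x) :=
    (ContinuousLinearMap.apply ℝ ℝ v).hasFDerivAt.comp (ψ x) hd.hasFDerivAt
  have h7 : fderiv ℝ (fun q => chartForm 𝓘(ℝ, E) α x q v) (ψ x) u = nab α x u v := by
    rw [h5.fderiv]; rfl
  rw [h7] at h1
  rw [h1]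
  -- simplify the points
  have e4 : ∀ w : E, (mfderiv 𝓘(ℝ, E) 𝓘(ℝ, E) (φ ∘ ψ.symm) (ψ x) w : E) =
      (mfderiv 𝓘(ℝ, E) 𝓘(ℝ, E) φ x w : E) := by
    intro w
    have e5 := hGψ (ψ x) hy w
    refine e5.trans ?_
    have e6 : ∀ (z : M), z = x → ∀ a a' : E, a = a' →
      (mfderiv 𝓘(ℝ, E) 𝓘(ℝ, E) φ z a : E) = (mfderiv 𝓘(ℝ, E) 𝓘(ℝ, E) φ x a' : E) := by
      rintro z rfl a a' rfl; rfl
    exact e6 _ hsym _ _ (mfderiv_extChartAt_symm_self x w)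
  have e2 : ∀ (z : M), z = φ x → ∀ a b a' b' : E, a = a' → b = b' →
      nab α z a b = nab α (φ x) a' b' := by
    rintro z rfl a b a' b' rfl rfl; rfl
  exact (e2 _ (congrArg φ hsym) _ _ _ _ (e4 u) (e4 v)).symm

end Pool.Agent.V11211.WS
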