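import Mathlib
import Pool.Agent.V11211.WS5

/-! Determinants of bilinear forms; isolation of nondegenerate zeros. -/

open scoped Topology ContDiff Manifold
open Set Metric Bundle Filter Pool.Agent.Helper186 Pool.Agent.H826R2.Wein Pool.Agent.W671.WU

noncomputable section

namespace Pool.Agent.V11211.WS

set_option linter.unusedSectionVars false

universe u

variable {E : Type u} [NormedAddCommGroup E] [NormedSpace ℝ E] [FiniteDimensional ℝ E]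

lemma finrank_dual : Module.finrank ℝ (E →L[ℝ] ℝ) = Module.finrank ℝ E := by
  rw [← (LinearMap.toContinuousLinearMap (𝕜 := ℝ) (E := E) (F' := ℝ)).finrank_eq]
  exact Subspace.dual_finrank_eq (K := ℝ) (V := E)

variable (E) in
/-- an isomorphism of the dual space with the space -/
def dualIso : (E →L[ℝ] ℝ) ≃L[ℝ] E :=
  (LinearEquiv.ofFinrankEq (E →L[ℝ] ℝ) E finrank_dual).toContinuousLinearEquiv

/-- the determinant of a bilinear form -/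
def bdet (B : E →L[ℝ] E →L[ℝ] ℝ) : ℝ :=
  (((dualIso E : (E →L[ℝ] ℝ) →L[ℝ] E)).comp B).det

lemma bdet_ne_zero {B : E →L[ℝ] E →L[ℝ] ℝ} (h : ∀ v, B v = 0 → v = 0) : bdet B ≠ 0 := by
  apply det_ne_zero_of
  intro v hv
  apply h
  exact (dualIso E).injective (by rw [map_zero]; exact hv)

lemma exists_lower_b {B : E →L[ℝ] E →L[ℝ] ℝ} (h : bdet B ≠ 0) :
    ∃ k > 0, ∀ v, k * ‖v‖ ≤ ‖B v‖ := by
  obtain ⟨k, hk, hA⟩ := exists_lower h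
  set C : ℝ := ‖((dualIso E : (E →L[ℝ] ℝ) →L[ℝ] E))‖ + 1 with hC
  have hC0 : 0 < C := by positivity
  refine ⟨k / C, by positivity, fun v => ?_⟩
  have h1 := hA v
  have h2 : ‖(((dualIso E : (E →L[ℝ] ℝ) →L[ℝ] E)).comp B) v‖ ≤ C * ‖B v‖ := by
    refine (((dualIso E : (E →L[ℝ] ℝ) →L[ℝ] E)).le_opNorm (B v)).trans ?_
    exact mul_le_mul_of_nonneg_right (by linarith) (norm_nonneg _)
  rw [div_mul_eq_mul_div, div_le_iff₀ hC0, mul_comm ‖B v‖]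
  exact h1.trans h2

lemma continuous_bdet : Continuous (bdet : (E →L[ℝ] E →L[ℝ] ℝ) → ℝ) := by
  unfold bdet
  exact ContinuousLinearMap.continuous_det.comp (continuous_const.clm_comp continuous_id)

/-- the factor by which determinants change -/
def kap (A : E →L[ℝ] E) : ℝ :=
  (((dualIso E : (E →L[ℝ] ℝ) →L[ℝ] E)).comp
    ((((ContinuousLinearMap.compL ℝ E E ℝ).flip A)).comp
      ((dualIso E).symm : E →L[ℝ] (E →L[ℝ] ℝ)))).det * A.det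

lemma det_comp' (A B : E →L[ℝ] E) : (A.comp B).det = A.det * B.det :=
  LinearMap.det_comp (A : E →ₗ[ℝ] E) (B : E →ₗ[ℝ] E)

lemma bdet_transform {B B' : E →L[ℝ] E →L[ℝ] ℝ} {A : E →L[ℝ] E}
    (h : ∀ u v, B' (A u) (A v) = B u v) : bdet B = kap A * bdet B' := by
  unfold bdet kap
  rw [mul_right_comm, ← det_comp', ← det_comp']
  congr 1
  refine ContinuousLinearMap.ext fun u => ?_
  have h1 : B u = ((ContinuousLinearMap.compL ℝ E E ℝ).flip A) (B' (A u)) := by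
    refine ContinuousLinearMap.ext fun v => ?_
    exact (h u v).symm
  simp only [ContinuousLinearMap.comp_apply]
  rw [h1]
  simp

lemma ratio_eq {B B' C C' : E →L[ℝ] E →L[ℝ] ℝ} {A : E →L[ℝ] E}
    (h : ∀ u v, B' (A u) (A v) = B u v) (h' : ∀ u v, C' (A u) (A v) = C u v)
    (hC : bdet C ≠ 0) : bdet B / bdet C = bdet B' / bdet C' := by
  rw [bdet_transform h, bdet_transform h']
  rw [bdet_transform h'] at hC
  exact mul_div_mul_left _ _ (left_ne_zero_of_mul hC)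

variable {P : Type*} [TopologicalSpace P] [ChartedSpace E P] [IsManifold 𝓘(ℝ, E) ∞ P]
  {β η : (x : P) → TangentSpace 𝓘(ℝ, E) x →L[ℝ] ℝ}
  {R : (x : P) → TangentSpace 𝓘(ℝ, E) x} {Fl : P → ℝ → P}

/-- `∇η + β ⊗ β` -/
def Hb (β η : (x : P) → TangentSpace 𝓘(ℝ, E) x →L[ℝ] ℝ) (x : P) : E →L[ℝ] E →L[ℝ] ℝ :=
  nab η x + (show E →L[ℝ] ℝ from β x).smulRight (show E →L[ℝ] ℝ from β x)

/-- the form `β ⊗ β + dβ` on the model space -/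
def Om (β : (x : P) → TangentSpace 𝓘(ℝ, E) x →L[ℝ] ℝ) (x : P) : E →L[ℝ] E →L[ℝ] ℝ := HB β x

/-- `∇η + β ⊗ β` in the chart at `x₀` -/
def Hc (β η : (x : P) → TangentSpace 𝓘(ℝ, E) x →L[ℝ] ℝ) (x₀ : P) (p : E) : E →L[ℝ] E →L[ℝ] ℝ :=
  fderiv ℝ (chartForm 𝓘(ℝ, E) η x₀) p +
    (chartForm 𝓘(ℝ, E) β x₀ p).smulRight (chartForm 𝓘(ℝ, E) β x₀ p)

/-- `β ⊗ β + dβ` in the chart at `x₀` -/
def Oc (β : (x : P) → TangentSpace 𝓘(ℝ, E) x →L[ℝ] ℝ) (x₀ : P) (p : E) : E →L[ℝ] E →L[ℝ] ℝ :=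
  (chartForm 𝓘(ℝ, E) β x₀ p).smulRight (chartForm 𝓘(ℝ, E) β x₀ p) +
    (fderiv ℝ (chartForm 𝓘(ℝ, E) β x₀) p - (fderiv ℝ (chartForm 𝓘(ℝ, E) β x₀) p).flip)

lemma Hb_chart (hη : SmoothForm η) (x₀ : P) {p : E}
    (hp : p ∈ (extChartAt 𝓘(ℝ, E) x₀).target)
    (h0 : η ((extChartAt 𝓘(ℝ, E) x₀).symm p) = 0) (u v : E) :
    Hb β η ((extChartAt 𝓘(ℝ, E) x₀).symm p) (dsL x₀ p u) (dsL x₀ p v) = Hc β η x₀ p u v := by
  have h1 := nab_chart hη x₀ hp h0 u v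
  show nab η ((extChartAt 𝓘(ℝ, E) x₀).symm p) (dsL x₀ p u) (dsL x₀ p v) +
    chartForm 𝓘(ℝ, E) β x₀ p u * chartForm 𝓘(ℝ, E) β x₀ p v =
    fderiv ℝ (chartForm 𝓘(ℝ, E) η x₀) p u v +
    chartForm 𝓘(ℝ, E) β x₀ p u * chartForm 𝓘(ℝ, E) β x₀ p v
  rw [h1]

lemma Om_chart (hβ : SmoothForm β) (x₀ : P) {p : E}
    (hp : p ∈ (extChartAt 𝓘(ℝ, E) x₀).target) (u v : E) :
    Om β ((extChartAt 𝓘(ℝ, E) x₀).symm p) (dsL x₀ p u) (dsL x₀ p v) = Oc β x₀ p u v := by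
  have h3 := extDer_pullback hβ (isOpen_extChartAt_target x₀) (contMDiffOn_extChartAt_symm x₀) hp
    u v
  have hd : DifferentiableAt ℝ (chartForm 𝓘(ℝ, E) β x₀) p :=
    ((contDiffOn_chartForm hβ x₀).contDiffAt
      ((isOpen_extChartAt_target x₀).mem_nhds hp)).differentiableAt (by simp)
  have h4 : ∀ c d : E, fderiv ℝ (fun q => β ((extChartAt 𝓘(ℝ, E) x₀).symm q)
      (mfderiv 𝓘(ℝ, E) 𝓘(ℝ, E) (extChartAt 𝓘(ℝ, E) x₀).symm q d)) p c =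
      fderiv ℝ (chartForm 𝓘(ℝ, E) β x₀) p c d := by
    intro c d
    have h5 : HasFDerivAt (fun q => chartForm 𝓘(ℝ, E) β x₀ q d)
        ((ContinuousLinearMap.apply ℝ ℝ d).comp (fderiv ℝ (chartForm 𝓘(ℝ, E) β x₀) p)) p :=
      (ContinuousLinearMap.apply ℝ ℝ d).hasFDerivAt.comp p hd.hasFDerivAt
    have h6 := h5.fderiv
    change fderiv ℝ (fun q => chartForm 𝓘(ℝ, E) β x₀ q d) p c = _
    rw [h6]
    rfl
  rw [h4, h4] at h3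
  have h7 : Om β ((extChartAt 𝓘(ℝ, E) x₀).symm p) (dsL x₀ p u) (dsL x₀ p v) =
      chartForm 𝓘(ℝ, E) β x₀ p u * chartForm 𝓘(ℝ, E) β x₀ p v +
      extDer 𝓘(ℝ, E) β ((extChartAt 𝓘(ℝ, E) x₀).symm p)
        (mfderiv 𝓘(ℝ, E) 𝓘(ℝ, E) (extChartAt 𝓘(ℝ, E) x₀).symm p u)
        (mfderiv 𝓘(ℝ, E) 𝓘(ℝ, E) (extChartAt 𝓘(ℝ, E) x₀).symm p v) :=
    HB_apply _ _ _
  rw [h7, h3]
  rfl

lemma Om_nondeg (c : CD β R) (x : P) : bdet (Om β x) ≠ 0 := by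
  apply bdet_ne_zero
  intro v hv
  exact HB_nondeg c.contact c.reeb x v fun w => DFunLike.congr_fun hv w

/-- the invariant: the determinant of `∇η + β ⊗ β` relative to that of `β ⊗ β + dβ` -/
def rho (β η : (x : P) → TangentSpace 𝓘(ℝ, E) x →L[ℝ] ℝ) (x : P) : ℝ :=
  bdet (Hb β η x) / bdet (Om β x)

lemma rho_chart (c : CD β R) (hη : SmoothForm η) (x₀ : P) {p : E}
    (hp : p ∈ (extChartAt 𝓘(ℝ, E) x₀).target)
    (h0 : η ((extChartAt 𝓘(ℝ, E) x₀).symm p) = 0) :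
    bdet (Hc β η x₀ p) / bdet (Oc β x₀ p) = rho β η ((extChartAt 𝓘(ℝ, E) x₀).symm p) := by
  refine ratio_eq (A := dsL x₀ p) (Hb_chart hη x₀ hp h0) (Om_chart c.contact.smooth x₀ hp) ?_
  apply bdet_ne_zero
  intro v hv
  apply dsL_inj x₀ hp
  rw [map_zero]
  refine HB_nondeg c.contact c.reeb ((extChartAt 𝓘(ℝ, E) x₀).symm p) (dsL x₀ p v) fun w => ?_
  obtain ⟨w', rfl⟩ : ∃ w' : E, dsL x₀ p w' = w :=
    LinearMap.surjective_of_injective (f := (dsL x₀ p : E →ₗ[ℝ] E)) (dsL_inj x₀ hp) w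
  have h1 := Om_chart c.contact.smooth x₀ hp v w'
  rw [hv] at h1
  exact h1

lemma rho_push (c : CD β R) (hη : SmoothForm η) {φ : P → P}
    (hφ : ContMDiff 𝓘(ℝ, E) 𝓘(ℝ, E) ∞ φ)
    (hβ : ∀ (x : P) (u : TangentSpace 𝓘(ℝ, E) x),
      β (φ x) (mfderiv 𝓘(ℝ, E) 𝓘(ℝ, E) φ x u) = β x u)
    (hinv : ∀ (x : P) (u : TangentSpace 𝓘(ℝ, E) x),
      η (φ x) (mfderiv 𝓘(ℝ, E) 𝓘(ℝ, E) φ x u) = η x u) {x : P} (h0 : η (φ x) = 0) :
    rho β η x = rho β η (φ x) := by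
  refine ratio_eq (A := de φ x) ?_ ?_ (Om_nondeg c x)
  · intro u v
    show nab η (φ x) (de φ x u) (de φ x v) +
      β (φ x) (mfderiv 𝓘(ℝ, E) 𝓘(ℝ, E) φ x u) * β (φ x) (mfderiv 𝓘(ℝ, E) 𝓘(ℝ, E) φ x v) =
      nab η x u v + β x u * β x v
    exact congrArg₂ (· + ·) (nab_push hη hφ hinv h0 u v)
      (congrArg₂ (· * ·) (hβ x u) (hβ x v))
  · intro u v
    have h1 : pullForm 𝓘(ℝ, E) 𝓘(ℝ, E) φ β = β := by
      ext1 y
      exact ContinuousLinearMap.ext fun w => hβ y w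
    have h2 := extDer_pull hφ c.contact.smooth x u v
    rw [h1] at h2
    have e1 : Om β (φ x) (de φ x u) (de φ x v) =
        β (φ x) (mfderiv 𝓘(ℝ, E) 𝓘(ℝ, E) φ x u) * β (φ x) (mfderiv 𝓘(ℝ, E) 𝓘(ℝ, E) φ x v) +
        extDer 𝓘(ℝ, E) β (φ x) (mfderiv 𝓘(ℝ, E) 𝓘(ℝ, E) φ x u)
          (mfderiv 𝓘(ℝ, E) 𝓘(ℝ, E) φ x v) := HB_apply _ _ _
    have e2 : Om β x u v = β x u * β x v + extDer 𝓘(ℝ, E) β x u v := HB_apply _ _ _
    rw [e1, e2]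
    exact congrArg₂ (· + ·) (congrArg₂ (· * ·) (hβ x u) (hβ x v)) h2.symm

end Pool.Agent.V11211.WS
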