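import Mathlib
import Pool.Agent.V11211.WS6

/-! A nondegenerate zero of an invariant basic one-form lies on a closed orbit. -/

open scoped Topology ContDiff Manifold
open Set Metric Bundle Filter Pool.Agent.Helper186 Pool.Agent.H826R2.Wein Pool.Agent.W671.WU

noncomputable section

namespace Pool.Agent.V11211.WS

set_option linter.unusedSectionVars false

universe u

variable {E : Type u} [NormedAddCommGroup E] [NormedSpace ℝ E] [FiniteDimensional ℝ E]
  {P : Type*} [TopologicalSpace P] [ChartedSpace E P] [IsManifold 𝓘(ℝ, E) ∞ P]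
  {β η : (x : P) → TangentSpace 𝓘(ℝ, E) x →L[ℝ] ℝ}
  {R : (x : P) → TangentSpace 𝓘(ℝ, E) x} {Fl : P → ℝ → P}

/-- Isolation in a flow box: if an invariant set meets a transversal hyperplane through `y` only in
`y`, then near `y` it is a piece of the orbit of `y`. -/
theorem isolated_of_chart (hunit : ∀ x, β x (R x) = 1) (h : RF β R Fl) {Z : Set P}
    (hZ : ∀ x ∈ Z, ∀ t, Fl x t ∈ Z) {y : P}
    (hiso : ∀ᶠ p in 𝓝 (extChartAt 𝓘(ℝ, E) y y), (extChartAt 𝓘(ℝ, E) y).symm p ∈ Z →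
      chartForm 𝓘(ℝ, E) β y (extChartAt 𝓘(ℝ, E) y y) (p - extChartAt 𝓘(ℝ, E) y y) = 0 →
      p = extChartAt 𝓘(ℝ, E) y y) {ε : ℝ} (hε : 0 < ε) :
    ∀ᶠ x in 𝓝 y, x ∈ Z → ∃ s, |s| < ε ∧ x = Fl y s := by
  set ψ := extChartAt 𝓘(ℝ, E) y with hψ
  set p₀ := ψ y with hp₀
  have hmem : p₀ ∈ ψ.target := mem_extChartAt_target y
  have hsym : ψ.symm p₀ = y := extChartAt_to_inv y
  set l : E →L[ℝ] ℝ := chartForm 𝓘(ℝ, E) β y p₀ with hl
  -- pull back to the manifold
  have hψc : Tendsto ψ (𝓝 y) (𝓝 p₀) := continuousAt_extChartAt y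
  have hV : ∀ᶠ x in 𝓝 y, x ∈ ψ.source ∧ (x ∈ Z → l (ψ x - p₀) = 0 → x = y) := by
    filter_upwards [(isOpen_extChartAt_source (I := 𝓘(ℝ, E)) y).mem_nhds (mem_extChartAt_source y),
      hψc.eventually hiso] with x hx hx2
    refine ⟨hx, fun hf h0 => ?_⟩
    have h1 := hx2 (by
      rw [ψ.left_inv hx]; exact hf) h0
    exact ψ.injOn hx (mem_extChartAt_source y) h1
  -- the flow stays in the neighbourhood for short times
  have hFc : Continuous (fun q : P × ℝ => Fl q.1 q.2) := h.smooth.continuous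
  have hFc0 : Tendsto (fun q : P × ℝ => Fl q.1 q.2) (𝓝 (y, 0)) (𝓝 y) := by
    have := hFc.tendsto (y, (0:ℝ))
    simp only [h.zero] at this
    exact this
  have hW := hFc0.eventually hV
  rw [nhds_prod_eq] at hW
  obtain ⟨pa, hpa, pb, hpb, hab⟩ := eventually_prod_iff.1 hW
  obtain ⟨δ₁, hδ₁, hball⟩ := Metric.eventually_nhds_iff.1 hpb
  -- the function along the orbit
  have hder : HasDerivAt (fun s => l (ψ (Fl y s) - p₀)) 1 0 := by
    have h1 : HasDerivAt (fun s => RF.H Fl y (p₀, s)) (RF.Rc Fl y p₀) 0 := by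
      refine h.hasDerivAt_H y hmem ?_
      rw [← hψ, hsym, h.zero]
      exact mem_extChartAt_source y
    have h2 : (fun s => RF.H Fl y (p₀, s)) = fun s => ψ (Fl y s) := by
      ext1 s
      show ψ (Fl (ψ.symm p₀) s) = _
      rw [hsym]
    rw [h2] at h1
    have h3 := l.hasFDerivAt.comp_hasDerivAt (0:ℝ) (h1.sub_const p₀)
    have h4 : l (RF.Rc Fl y p₀) = 1 := by
      have h5 : l (RF.Rc Fl y p₀) = β (ψ.symm p₀) (ds y p₀ (RF.Rc Fl y p₀)) := rfl
      have h6 := h.tangent_Rc y hmem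
      rw [h5, h6]
      exact hunit _
    rw [h4] at h3
    exact h3
  have hval0 : l (ψ (Fl y 0) - p₀) = 0 := by
    rw [h.zero, ← hp₀, sub_self, map_zero]
  have hlo := hder.isLittleO.def (c := 1 / 2) (by norm_num)
  obtain ⟨δ₂, hδ₂, hlo⟩ := Metric.eventually_nhds_iff.1 hlo
  set δ := min (min (δ₁ / 2) (δ₂ / 2)) (ε / 2) with hδ
  have hδ0 : 0 < δ := by positivity
  have hδ1 : δ < δ₁ := by
    have := min_le_left (min (δ₁ / 2) (δ₂ / 2)) (ε / 2)
    have := min_le_left (δ₁ / 2) (δ₂ / 2)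
    linarith
  have hδ2 : δ < δ₂ := by
    have := min_le_left (min (δ₁ / 2) (δ₂ / 2)) (ε / 2)
    have := min_le_right (δ₁ / 2) (δ₂ / 2)
    linarith
  have hδ3 : δ < ε := by
    have := min_le_right (min (δ₁ / 2) (δ₂ / 2)) (ε / 2)
    linarith
  have hpos : 0 < l (ψ (Fl y δ) - p₀) := by
    have := hlo (y := δ) (by rw [Real.dist_eq, sub_zero, abs_of_pos hδ0]; exact hδ2)
    rw [hval0, sub_zero, sub_zero, smul_eq_mul, mul_one, Real.norm_eq_abs, Real.norm_eq_abs,
      abs_of_pos hδ0] at this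
    have := (abs_le.1 this).1
    linarith
  have hneg : l (ψ (Fl y (-δ)) - p₀) < 0 := by
    have := hlo (y := -δ) (by rw [Real.dist_eq, sub_zero, abs_neg, abs_of_pos hδ0]; exact hδ2)
    rw [hval0, sub_zero, sub_zero, smul_eq_mul, mul_one, Real.norm_eq_abs, Real.norm_eq_abs,
      abs_neg, abs_of_pos hδ0] at this
    have := (abs_le.1 this).2
    linarith
  -- continuity of the function in the point
  have hsrc : ∀ s, |s| < δ₁ → Fl y s ∈ ψ.source := by
    intro s hs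
    exact (hab (hpa.self_of_nhds) (hball (by rw [Real.dist_eq, sub_zero]; exact hs))).1
  have hcx : ∀ s, |s| < δ₁ → ContinuousAt (fun x => l (ψ (Fl x s) - p₀)) y := by
    intro s hs
    have h1 : ContinuousAt (fun x => Fl x s) y := (h.smooth_t s).continuous.continuousAt
    have h2 : ContinuousAt ψ (Fl y s) := by
      have h3 := hsrc s hs
      exact (continuousOn_extChartAt y).continuousAt
        ((isOpen_extChartAt_source (I := 𝓘(ℝ, E)) y).mem_nhds h3)
    have h3 : ContinuousAt (fun x => ψ (Fl x s)) y := ContinuousAt.comp h2 h1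
    exact l.continuous.continuousAt.comp (h3.sub continuousAt_const)
  filter_upwards [hpa, (hcx δ (by rw [abs_of_pos hδ0]; exact hδ1)).eventually (lt_mem_nhds hpos),
    (hcx (-δ) (by rw [abs_neg, abs_of_pos hδ0]; exact hδ1)).eventually (gt_mem_nhds hneg)]
    with x hxa hx1 hx2 hxf
  have hxs : ∀ s ∈ Icc (-δ) δ, Fl x s ∈ ψ.source ∧
      (Fl x s ∈ Z → l (ψ (Fl x s) - p₀) = 0 → Fl x s = y) := by
    intro s hs
    exact hab hxa (hball (by
      rw [Real.dist_eq, sub_zero]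
      exact (abs_le.2 ⟨hs.1, hs.2⟩).trans_lt hδ1))
  have hcont : ContinuousOn (fun s => l (ψ (Fl x s) - p₀)) (Icc (-δ) δ) := by
    intro s hs
    have h1 : ContinuousAt (fun s => Fl x s) s :=
      (hFc.comp (continuous_const.prodMk continuous_id)).continuousAt
    have h2 : ContinuousAt ψ (Fl x s) :=
      (continuousOn_extChartAt y).continuousAt
        ((isOpen_extChartAt_source (I := 𝓘(ℝ, E)) y).mem_nhds (hxs s hs).1)
    have h3 : ContinuousAt (fun s => ψ (Fl x s)) s := ContinuousAt.comp h2 h1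
    exact (l.continuous.continuousAt.comp (h3.sub continuousAt_const)).continuousWithinAt
  obtain ⟨s, hs, hs0⟩ := intermediate_value_Icc (by linarith : -δ ≤ δ) hcont ⟨hx2.le, hx1.le⟩
  have hy : Fl x s = y := (hxs s hs).2 (hZ x hxf s) hs0
  refine ⟨-s, ?_, ?_⟩
  · rw [abs_neg]
    exact (abs_le.2 ⟨hs.1, hs.2⟩).trans_lt hδ3
  · rw [← hy, ← h.add, add_neg_cancel, h.zero]

/-- the Reeb flow preserves a basic invariant one-form -/
lemma strict_basic (h : RF β R Fl) (hη : SmoothForm η) (hb : ∀ x, η x (R x) = 0)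
    (hd : ∀ x (v : TangentSpace 𝓘(ℝ, E) x), extDer 𝓘(ℝ, E) η x (R x) v = 0) (t : ℝ) (x : P)
    (u : TangentSpace 𝓘(ℝ, E) x) :
    η (Fl x t) (mfderiv 𝓘(ℝ, E) 𝓘(ℝ, E) (fun x => Fl x t) x u) = η x u := by
  set i : ℝ × P → P := fun p => Fl p.2 p.1 with hi
  have hsm : ContMDiff (𝓘(ℝ, ℝ).prod 𝓘(ℝ, E)) 𝓘(ℝ, E) ∞ i :=
    h.smooth.comp (contMDiff_snd.prodMk contMDiff_fst)
  have hdS : ∀ s x, dS 𝓘(ℝ, E) i s x = R (Fl x s) := by
    intro s x
    have h1 := (h.int x s).mfderiv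
    unfold dS
    show (mfderiv 𝓘(ℝ, ℝ) 𝓘(ℝ, E) (fun σ => Fl x σ) s) (1:ℝ) = _
    have h2 : (fun σ => Fl x σ) = Fl x := rfl
    rw [h2, h1]
    show (1 : ℝ →L[ℝ] ℝ) 1 • R (Fl x s) = _
    simp
  have hder : ∀ s, HasDerivAt (fun σ => η (i (σ, x)) (dX 𝓘(ℝ, E) 𝓘(ℝ, E) i σ x u)) 0 s := by
    intro s
    have h1 := hasDerivAt_variation (I := 𝓘(ℝ, E)) (J := 𝓘(ℝ, E)) hη isOpen_univ
      hsm.contMDiffOn (mem_univ (s, x)) u
    refine h1.congr_deriv ?_
    have h2 : (fun x' : P => η (i (s, x')) (dS 𝓘(ℝ, E) i s x')) = fun _ => 0 := by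
      ext1 x'
      rw [hdS]
      exact hb _
    have h3 : mfderiv 𝓘(ℝ, E) 𝓘(ℝ, ℝ) (fun _ : P => (0:ℝ)) x = 0 := mfderiv_const
    have h4 : extDer 𝓘(ℝ, E) η (i (s, x)) (dS 𝓘(ℝ, E) i s x)
        (dX 𝓘(ℝ, E) 𝓘(ℝ, E) i s x u) = 0 := by
      rw [hdS]
      exact hd _ _
    rw [h2, h3, h4, zero_add]
    rfl
  have hconst := is_const_of_deriv_eq_zero (fun s => (hder s).differentiableAt)
    (fun s => (hder s).deriv) t 0
  have h5 : η (i (0, x)) (dX 𝓘(ℝ, E) 𝓘(ℝ, E) i 0 x u) = η x u := by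
    have e0 : (fun x' : P => i (0, x')) = id := by ext1 y; exact h.zero y
    have e1 : (dX 𝓘(ℝ, E) 𝓘(ℝ, E) i 0 x u : E) = u := by
      unfold dX
      rw [e0, mfderiv_id]
      rfl
    have e2 : ∀ (z : P) (w : E), z = x → w = u → η z w = η x u := by
      rintro _ _ rfl rfl; rfl
    exact e2 _ _ (h.zero x) e1
  rw [h5] at hconst
  exact hconst

/-- the zeros are invariant under the flow -/
lemma zero_invariant (h : RF β R Fl) (hη : SmoothForm η) (hb : ∀ x, η x (R x) = 0)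
    (hd : ∀ x (v : TangentSpace 𝓘(ℝ, E) x), extDer 𝓘(ℝ, E) η x (R x) v = 0) {x : P}
    (hx : η x = 0) (t : ℝ) : η (Fl x t) = 0 := by
  refine ContinuousLinearMap.ext fun w => ?_
  have h1 := strict_basic h hη hb hd (-t) (Fl x t) w
  have e1 : Fl (Fl x t) (-t) = x := by rw [← h.add, add_neg_cancel, h.zero]
  have e2 : ∀ (z : P) (w : E), z = x → η z w = 0 := by
    rintro _ w rfl
    rw [hx]
    rfl
  rw [← h1]
  exact e2 _ _ e1

/-- the zeros are closed -/
lemma isClosed_zero (hη : SmoothForm η) : IsClosed {x | η x = 0} := by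
  rw [← isOpen_compl_iff, isOpen_iff_mem_nhds]
  intro z hz
  set ψ := extChartAt 𝓘(ℝ, E) z with hψ
  have hne : chartForm 𝓘(ℝ, E) η z (ψ z) ≠ 0 := by
    intro h0
    apply hz
    refine ContinuousLinearMap.ext fun w => ?_
    rw [← chartForm_self (β := η) z w, h0]
    rfl
  have hc : ContinuousAt (chartForm 𝓘(ℝ, E) η z) (ψ z) :=
    ((contDiffOn_chartForm hη z).contDiffAt (extChartAt_target_mem_nhds z)).continuousAt
  have h1 : ∀ᶠ x in 𝓝 z, chartForm 𝓘(ℝ, E) η z (ψ x) ≠ 0 :=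
    (ContinuousAt.comp (f := ψ) (g := chartForm 𝓘(ℝ, E) η z) hc
      (continuousAt_extChartAt z)).eventually_ne hne
  filter_upwards [h1, extChartAt_source_mem_nhds (I := 𝓘(ℝ, E)) z] with x hx1 hx2 hx
  apply hx1
  refine ContinuousLinearMap.ext fun w => ?_
  have h3 : chartForm 𝓘(ℝ, E) η z (ψ x) w = η (ψ.symm (ψ x)) (ds z (ψ x) w) := rfl
  rw [h3]
  have h4 : ∀ (a : P), a = x → ∀ u : E, η a u = 0 := by
    rintro _ rfl u
    exact DFunLike.congr_fun hx u
  exact h4 _ (ψ.left_inv hx2) _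

/-- near a nondegenerate zero there are no other zeros in the transversal hyperplane -/
lemma isolated_zero (hη : SmoothForm η) {z : P} (hz : η z = 0)
    (hnd : bdet (Hc β η z (extChartAt 𝓘(ℝ, E) z z)) ≠ 0) :
    ∀ᶠ p in 𝓝 (extChartAt 𝓘(ℝ, E) z z), (extChartAt 𝓘(ℝ, E) z).symm p ∈ {x | η x = 0} →
      chartForm 𝓘(ℝ, E) β z (extChartAt 𝓘(ℝ, E) z z) (p - extChartAt 𝓘(ℝ, E) z z) = 0 →
      p = extChartAt 𝓘(ℝ, E) z z := by
  set ψ := extChartAt 𝓘(ℝ, E) z with hψ
  set p₀ := ψ z with hp₀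
  obtain ⟨k, hk, hA⟩ := exists_lower_b hnd
  have hd : DifferentiableAt ℝ (chartForm 𝓘(ℝ, E) η z) p₀ :=
    ((contDiffOn_chartForm hη z).contDiffAt (extChartAt_target_mem_nhds z)).differentiableAt
      (by simp)
  have hzero : ∀ p, η (ψ.symm p) = 0 → chartForm 𝓘(ℝ, E) η z p = 0 := by
    intro p hp
    refine ContinuousLinearMap.ext fun w => ?_
    exact DFunLike.congr_fun hp (ds z p w)
  have hp00 : chartForm 𝓘(ℝ, E) η z p₀ = 0 := by
    refine ContinuousLinearMap.ext fun w => ?_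
    rw [hp₀, hψ, chartForm_self (β := η) z w, hz]
    rfl
  have h1 := hd.hasFDerivAt.isLittleO.def (c := k / 2) (by positivity)
  filter_upwards [h1] with p hp hp0 hl
  rw [hzero p hp0, hp00, sub_zero, zero_sub, norm_neg] at hp
  have h2 := hA (p - p₀)
  have h3 : Hc β η z p₀ (p - p₀) = fderiv ℝ (chartForm 𝓘(ℝ, E) η z) p₀ (p - p₀) := by
    unfold Hc
    rw [add_apply, ContinuousLinearMap.smulRight_apply, hl, zero_smul, add_zero]
  rw [h3] at h2
  have h4 : ‖p - p₀‖ = 0 := by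
    have h5 := norm_nonneg (p - p₀)
    nlinarith [h2.trans hp]
  rwa [norm_eq_zero, sub_eq_zero] at h4

lemma continuousAt_Hc (hβ : SmoothForm β) (hη : SmoothForm η) (z : P) {q : E}
    (hq : q ∈ (extChartAt 𝓘(ℝ, E) z).target) : ContinuousAt (Hc β η z) q := by
  have h1 : ContinuousAt (fderiv ℝ (chartForm 𝓘(ℝ, E) η z)) q :=
    (((contDiffOn_chartForm hη z).contDiffAt
      ((isOpen_extChartAt_target z).mem_nhds hq)).fderiv_right (m := 0) (by simp)).continuousAt
  have h2 : ContinuousAt (chartForm 𝓘(ℝ, E) β z) q :=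
    ((contDiffOn_chartForm hβ z).contDiffAt
      ((isOpen_extChartAt_target z).mem_nhds hq)).continuousAt
  rw [continuousAt_clm_apply]
  intro u
  rw [continuousAt_clm_apply]
  intro v
  have h3 : ContinuousAt (fun q => fderiv ℝ (chartForm 𝓘(ℝ, E) η z) q u v) q :=
    (h1.clm_apply continuousAt_const).clm_apply continuousAt_const
  have h4 : ∀ w : E, ContinuousAt (fun q => chartForm 𝓘(ℝ, E) β z q w) q := fun w =>
    h2.clm_apply continuousAt_const
  exact h3.add ((h4 u).mul (h4 v))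

lemma continuousAt_Oc (hβ : SmoothForm β) (z : P) {q : E}
    (hq : q ∈ (extChartAt 𝓘(ℝ, E) z).target) : ContinuousAt (Oc β z) q := by
  have h1 : ContinuousAt (fderiv ℝ (chartForm 𝓘(ℝ, E) β z)) q :=
    (((contDiffOn_chartForm hβ z).contDiffAt
      ((isOpen_extChartAt_target z).mem_nhds hq)).fderiv_right (m := 0) (by simp)).continuousAt
  have h2 : ContinuousAt (chartForm 𝓘(ℝ, E) β z) q :=
    ((contDiffOn_chartForm hβ z).contDiffAt
      ((isOpen_extChartAt_target z).mem_nhds hq)).continuousAt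
  rw [continuousAt_clm_apply]
  intro u
  rw [continuousAt_clm_apply]
  intro v
  have h3 : ∀ u v : E, ContinuousAt (fun q => fderiv ℝ (chartForm 𝓘(ℝ, E) β z) q u v) q :=
    fun u v => (h1.clm_apply continuousAt_const).clm_apply continuousAt_const
  have h4 : ∀ w : E, ContinuousAt (fun q => chartForm 𝓘(ℝ, E) β z q w) q := fun w =>
    h2.clm_apply continuousAt_const
  exact ((h4 u).mul (h4 v)).add ((h3 u v).sub (h3 v u))

/-- **Main theorem** (working form). -/
theorem closed_of_zero [T2Space P] [CompactSpace P] (c : CD β R) (h : RF β R Fl)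
    (hη : SmoothForm η) (hb : ∀ x, η x (R x) = 0)
    (hd : ∀ x (v : TangentSpace 𝓘(ℝ, E) x), extDer 𝓘(ℝ, E) η x (R x) v = 0) {p : P}
    (hp : η p = 0) (hnd : rho β η p ≠ 0) : ∃ T : ℝ, 0 < T ∧ Fl p T = p := by
  have hinv := fun t => strict_basic h hη hb hd t
  set y : ℕ → P := fun n => Fl p n with hy
  have hy0 : ∀ n, η (y n) = 0 := fun n => zero_invariant h hη hb hd hp n
  have hrho : ∀ n, rho β η (y n) = rho β η p := fun n =>
    (rho_push c hη (h.smooth_t n) (h.strict n) (hinv n) (hy0 n)).symm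
  obtain ⟨z, -, hz⟩ := (isCompact_univ (X := P)) (f := Filter.map y Filter.cofinite) (by simp)
  have hfreq : ∀ U ∈ 𝓝 z, {n | y n ∈ U}.Infinite := by
    intro U hU
    have h1 : ∃ᶠ x in Filter.map y Filter.cofinite, x ∈ U := hz.frequently hU
    exact Filter.frequently_cofinite_iff_infinite.1 (Filter.frequently_map.1 h1)
  have hz0 : η z = 0 := by
    by_contra hcon
    obtain ⟨n, hn⟩ := (hfreq _ ((isClosed_zero hη).isOpen_compl.mem_nhds hcon)).nonempty
    exact hn (hy0 n)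
  set ψ := extChartAt 𝓘(ℝ, E) z with hψ
  have hmem : ψ z ∈ ψ.target := mem_extChartAt_target z
  have hsym : ψ.symm (ψ z) = z := extChartAt_to_inv z
  have hnz : bdet (Hc β η z (ψ z)) ≠ 0 := by
    intro h0
    have hcH : ContinuousAt (fun q => bdet (Hc β η z q)) (ψ z) :=
      continuous_bdet.continuousAt.comp (continuousAt_Hc c.contact.smooth hη z hmem)
    have hcO : ContinuousAt (fun q => bdet (Oc β z q)) (ψ z) :=
      continuous_bdet.continuousAt.comp (continuousAt_Oc c.contact.smooth z hmem)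
    -- the function `bdet Hc - ρ bdet Oc` vanishes at the points of the orbit
    have hcF : ContinuousAt (fun q => bdet (Hc β η z q) - rho β η p * bdet (Oc β z q)) (ψ z) :=
      hcH.sub (continuousAt_const.mul hcO)
    have hOne : ∀ q ∈ ψ.target, bdet (Oc β z q) ≠ 0 := by
      intro q hq
      apply bdet_ne_zero
      intro v hv
      apply dsL_inj z hq
      rw [map_zero]
      refine HB_nondeg c.contact c.reeb (ψ.symm q) (dsL z q v) fun w => ?_
      obtain ⟨w', rfl⟩ : ∃ w' : E, dsL z q w' = w :=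
        LinearMap.surjective_of_injective (f := (dsL z q : E →ₗ[ℝ] E)) (dsL_inj z hq) w
      have h1 := Om_chart c.contact.smooth z hq v w'
      rw [hv] at h1
      exact h1
    have hFz : bdet (Hc β η z (ψ z)) - rho β η p * bdet (Oc β z (ψ z)) ≠ 0 := by
      rw [h0, zero_sub, neg_ne_zero]
      exact mul_ne_zero hnd (hOne _ hmem)
    have h4 : ∀ᶠ x in 𝓝 z, bdet (Hc β η z (ψ x)) - rho β η p * bdet (Oc β z (ψ x)) ≠ 0 ∧
        x ∈ ψ.source :=
      ((ContinuousAt.comp (f := ψ)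
        (g := fun q => bdet (Hc β η z q) - rho β η p * bdet (Oc β z q)) hcF
        (continuousAt_extChartAt z)).eventually_ne hFz).and
        (extChartAt_source_mem_nhds (I := 𝓘(ℝ, E)) z)
    obtain ⟨n, hn1, hn2⟩ := (hfreq _ h4).nonempty
    apply hn1
    have hq := ψ.map_source hn2
    have hs2 : ψ.symm (ψ (y n)) = y n := ψ.left_inv hn2
    have h5 := rho_chart c hη z hq (by rw [← hψ, hs2]; exact hy0 n)
    rw [← hψ, hs2, hrho n, div_eq_iff (hOne _ hq)] at h5
    rw [h5, sub_self]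
  have hiso := isolated_of_chart c.reeb.unit h (Z := {x | η x = 0})
    (fun x hx t => zero_invariant h hη hb hd hx t) (isolated_zero hη hz0 hnz)
    (ε := 1 / 4) (by norm_num)
  have hinf := hfreq _ hiso
  obtain ⟨n, hn⟩ := hinf.nonempty
  obtain ⟨m, hm, hnm⟩ := hinf.exists_gt n
  obtain ⟨s, hs1, hs2⟩ := hn (hy0 n)
  obtain ⟨r, hr1, hr2⟩ := hm (hy0 m)
  have e1 : z = Fl p (n - s) := by
    rw [sub_eq_add_neg, h.add]
    show z = Fl (y n) (-s)
    rw [hs2, ← h.add, add_neg_cancel, h.zero]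
  have e2 : z = Fl p (m - r) := by
    rw [sub_eq_add_neg, h.add]
    show z = Fl (y m) (-r)
    rw [hr2, ← h.add, add_neg_cancel, h.zero]
  refine ⟨(m - r) - (n - s), ?_, ?_⟩
  · have h1 : (n:ℝ) + 1 ≤ m := by exact_mod_cast hnm
    have h2 := (abs_lt.1 hs1).1
    have h3 := (abs_lt.1 hr1).2
    linarith
  · rw [sub_eq_add_neg, h.add, ← e2, e1, ← h.add, add_neg_cancel, h.zero]

end Pool.Agent.V11211.WS
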