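import Mathlib
import Pool.Agent.V11211.WS7

/-! First integrals of Reeb flows: statements in terms of the elementary definitions. -/

open scoped Topology ContDiff Manifold
open Set Filter Pool.Agent.Helper186 Pool.Agent.H826R2 Pool.Agent.H826R2.WStmt

noncomputable section

set_option linter.unusedSectionVars false

namespace Pool.Agent.V11211.WS

universe u

section

variable {E : Type*} [NormedAddCommGroup E] [NormedSpace ℝ E]
  {M : Type*} [TopologicalSpace M] [ChartedSpace E M] [IsManifold 𝓘(ℝ, E) ∞ M]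

/-- `η` is a smooth one-form with `η(R) = 0` and `dη(R, ·) = 0` (so `η` is invariant under the flow
of `R`); for instance a closed one-form with `η(R) = 0` (a multivalued first integral), or the
contraction of `dα` with a vector field `Z` such that `[R, Z]` is a multiple of `R`. -/
structure BasicInvariant (R : M → E) (η : M → Cov E) : Prop where
  smooth : WStmt.SmoothForm η
  basic : ∀ x, ev (η x) (R x) = 0
  invariant : ∀ (x : M) (v : E), WStmt.extDer η x (R x) v = 0

/-- `p` is a zero of the one-form `η` at which the derivative of `η` (in the chart at `p`) has no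
kernel except for the line spanned by `R`. -/
def NondegenerateZero (R : M → E) (η : M → Cov E) (p : M) : Prop :=
  (∀ v, ev (η p) v = 0) ∧ ∀ u : E, (∀ v, dCoeff η p u v = 0) → ∃ b : ℝ, u = b • R p

/-- the second derivative of the function `f` in the chart at `p`, at the point `p` -/
def hess (E : Type*) [NormedAddCommGroup E] [NormedSpace ℝ E] {M : Type*} [TopologicalSpace M]
    [ChartedSpace E M] (f : M → ℝ) (p : M) (u v : E) : ℝ :=
  fderiv ℝ (fderiv ℝ (fun y : E => f ((extChartAt 𝓘(ℝ, E) p).symm y)))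
    (extChartAt 𝓘(ℝ, E) p p) u v

/-- `p` is a critical point of `f`, and the kernel of the Hessian of `f` at `p` is contained in the
line spanned by `R`. -/
def NondegenerateCritical (R : M → E) (f : M → ℝ) (p : M) : Prop :=
  D (E := E) (E' := ℝ) f p = 0 ∧ ∀ u : E, (∀ v, hess E f p u v = 0) → ∃ b : ℝ, u = b • R p

end

variable {E : Type u} [NormedAddCommGroup E] [NormedSpace ℝ E] [FiniteDimensional ℝ E]
  {M : Type*} [TopologicalSpace M] [ChartedSpace E M] [IsManifold 𝓘(ℝ, E) ∞ M]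

lemma Rc_self {β : (x : M) → TangentSpace 𝓘(ℝ, E) x →L[ℝ] ℝ}
    {R : (x : M) → TangentSpace 𝓘(ℝ, E) x} {Fl : M → ℝ → M} (h : W671.WU.RF β R Fl) (p : M) :
    W671.WU.RF.Rc Fl p (extChartAt 𝓘(ℝ, E) p p) = (R p : E) := by
  have h1 := h.tangent_Rc p (mem_extChartAt_target p)
  have h2 : (W671.WU.ds p (extChartAt 𝓘(ℝ, E) p p)
      (W671.WU.RF.Rc Fl p (extChartAt 𝓘(ℝ, E) p p)) : E) =
      W671.WU.RF.Rc Fl p (extChartAt 𝓘(ℝ, E) p p) := mfderiv_extChartAt_symm_self p _
  have h3 : ∀ z : M, z = p → (R z : E) = R p := by rintro _ rfl; rfl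
  have h4 := h3 _ (extChartAt_to_inv (I := 𝓘(ℝ, E)) p)
  exact h2.symm.trans (h1.trans h4)

/-- the derivative of an invariant basic form at a zero vanishes on `R` -/
lemma nab_R {β η : (x : M) → TangentSpace 𝓘(ℝ, E) x →L[ℝ] ℝ}
    {R : (x : M) → TangentSpace 𝓘(ℝ, E) x} {Fl : M → ℝ → M} (h : W671.WU.RF β R Fl)
    (hη : Helper186.SmoothForm η) (hb : ∀ x, η x (R x) = 0)
    (hd : ∀ x (v : TangentSpace 𝓘(ℝ, E) x), Helper186.extDer 𝓘(ℝ, E) η x (R x) v = 0) {p : M}
    (hp : η p = 0) : nab η p (R p : E) = 0 := by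
  set ψ := extChartAt 𝓘(ℝ, E) p with hψ
  have hmem : ψ p ∈ ψ.target := mem_extChartAt_target p
  have hsym : ψ.symm (ψ p) = p := extChartAt_to_inv p
  have hsrc : p ∈ ψ.source := mem_extChartAt_source p
  have h1 : HasDerivAt (fun s => W671.WU.RF.H Fl p (ψ p, s))
      (W671.WU.RF.Rc Fl p (ψ p)) 0 := by
    refine h.hasDerivAt_H p hmem ?_
    rw [← hψ, hsym, h.zero]
    exact hsrc
  have hd1 : HasFDerivAt (chartForm 𝓘(ℝ, E) η p) (nab η p) (W671.WU.RF.H Fl p (ψ p, 0)) := by
    rw [h.H_zero p hmem]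
    exact (((contDiffOn_chartForm hη p).contDiffAt
      (extChartAt_target_mem_nhds p)).differentiableAt (by simp)).hasFDerivAt
  have h2 := hd1.comp_hasDerivAt (0:ℝ) h1
  have h3 : (fun s => chartForm 𝓘(ℝ, E) η p (W671.WU.RF.H Fl p (ψ p, s))) =ᶠ[𝓝 0] fun _ => 0 := by
    have hc : Continuous (fun s => Fl p s) :=
      h.smooth.continuous.comp (continuous_const.prodMk continuous_id)
    have h4 : ∀ᶠ s in 𝓝 (0:ℝ), Fl p s ∈ ψ.source :=
      hc.continuousAt.eventually (by
        simp only [h.zero]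
        exact (isOpen_extChartAt_source (I := 𝓘(ℝ, E)) p).mem_nhds hsrc)
    filter_upwards [h4] with s hs
    refine ContinuousLinearMap.ext fun w => ?_
    have h5 : chartForm 𝓘(ℝ, E) η p (W671.WU.RF.H Fl p (ψ p, s)) w =
      η (ψ.symm (ψ (Fl (ψ.symm (ψ p)) s))) (W671.WU.ds p (ψ (Fl (ψ.symm (ψ p)) s)) w) := rfl
    rw [h5]
    have h6 : ∀ (a : M), a = Fl p s → ∀ u : E, η a u = 0 := by
      rintro _ rfl u
      exact DFunLike.congr_fun (zero_invariant h hη hb hd hp s) u
    exact h6 _ (by rw [hsym, ψ.left_inv hs]) _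
  have h4 := h2.unique ((hasDerivAt_const (0:ℝ) (0 : E →L[ℝ] ℝ)).congr_of_eventuallyEq h3)
  rw [Rc_self h p] at h4
  exact h4

/-- **Invariant one-forms.** -/
theorem exists_periodic_zero [T2Space M] [CompactSpace M]
    (α : M → Cov E) (hα : IsContact α) (R : M → E) (hR : IsReeb α R)
    (η : M → Cov E) (hη : BasicInvariant R η) (p : M) (hp : NondegenerateZero R η p) :
    ∃ (c : ℝ → M) (T : ℝ), c 0 = p ∧ IsPeriodicOrbit R c T := by
  have c₀ : Wein.CD (toForm α) (fun x => (R x : TangentSpace 𝓘(ℝ, E) x)) := ⟨hα.toWein, hR.toWein⟩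
  choose Fl hF0 hF using fun x : M => Wein.complete_of_compact (W671.WU.smooth_reeb c₀)
    isCompact_univ (fun y hy => absurd (mem_univ y) hy) x
  have h := W671.WU.RF.of c₀ hF0 hF
  have hs : Helper186.SmoothForm (toForm η) := hη.smooth
  have hb : ∀ x, toForm η x (R x) = 0 := hη.basic
  have hd : ∀ x (v : TangentSpace 𝓘(ℝ, E) x),
      Helper186.extDer 𝓘(ℝ, E) (toForm η) x (R x) v = 0 := hη.invariant
  have hp0 : toForm η p = 0 := ContinuousLinearMap.ext fun v => hp.1 v
  have hRp := nab_R h hs hb hd hp0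
  have hrho : rho (toForm α) (toForm η) p ≠ 0 := by
    refine div_ne_zero (bdet_ne_zero fun u hu => ?_) (Om_nondeg c₀ p)
    have h1 : ∀ v : E, nab (toForm η) p u v + ev (α p) u * ev (α p) v = 0 := fun v =>
      DFunLike.congr_fun hu v
    have h2 : nab (toForm η) p u (R p) = 0 := by
      have h3 := hd p u
      have h4 : Helper186.extDer 𝓘(ℝ, E) (toForm η) p (R p) u =
          nab (toForm η) p (R p) u - nab (toForm η) p u (R p) := rfl
      rw [h4, hRp] at h3
      have h5 : (0 : E →L[ℝ] ℝ) u = 0 := rfl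
      rw [h5, zero_sub, neg_eq_zero] at h3
      exact h3
    have h3 : ev (α p) u = 0 := by
      have h4 := h1 (R p)
      rw [h2, hR.unit, zero_add, mul_one] at h4
      exact h4
    obtain ⟨b, hb'⟩ := hp.2 u (fun v => by
      have h4 := h1 v
      rw [h3, zero_mul, add_zero] at h4
      exact h4)
    have h4 : b = 0 := by
      have h5 : ev (α p) (b • R p) = b * ev (α p) (R p) :=
        map_smul (show E →L[ℝ] ℝ from α p) b (R p)
      rw [hb', h5, hR.unit, mul_one] at h3
      exact h3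
    rw [hb', h4, zero_smul]
  obtain ⟨T, hT, hTp⟩ := closed_of_zero c₀ h hs hb hd hp0 hrho
  refine ⟨Fl p, T, h.zero p, hT, h.int p, fun t => ?_⟩
  rw [add_comm, h.add, hTp]

lemma hess_eq {f : M → ℝ} (hf : ContMDiff 𝓘(ℝ, E) 𝓘(ℝ, ℝ) ∞ f) (p : M) (u v : E) :
    dCoeff (fun x => (D (E := E) (E' := ℝ) f x : Cov E)) p u v = hess E f p u v := by
  unfold dCoeff hess
  have h1 : inChart (fun x => (D (E := E) (E' := ℝ) f x : Cov E)) p =ᶠ[𝓝 (extChartAt 𝓘(ℝ, E) p p)]
      fderiv ℝ (fun y : E => f ((extChartAt 𝓘(ℝ, E) p).symm y)) := by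
    filter_upwards [extChartAt_target_mem_nhds (I := 𝓘(ℝ, E)) p] with y hy
    refine ContinuousLinearMap.ext fun w => ?_
    exact (W671.WU.fderiv_cf p hf hy w).symm
  rw [h1.fderiv_eq]

lemma basicInvariant_D {R : M → E} {f : M → ℝ} (hf : ContMDiff 𝓘(ℝ, E) 𝓘(ℝ, ℝ) ∞ f)
    (hR : ∀ x, D (E := E) (E' := ℝ) f x (R x) = 0) :
    BasicInvariant R (fun x => (D (E := E) (E' := ℝ) f x : Cov E)) where
  smooth := smoothForm_dForm hf
  basic := hR
  invariant := fun x v => extDer_dForm hf x _ _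

/-- **First integrals.** -/
theorem exists_periodic_critical [T2Space M] [CompactSpace M]
    (α : M → Cov E) (hα : IsContact α) (R : M → E) (hR : IsReeb α R)
    (f : M → ℝ) (hf : ContMDiff 𝓘(ℝ, E) 𝓘(ℝ, ℝ) ∞ f)
    (hfR : ∀ x, D (E := E) (E' := ℝ) f x (R x) = 0) (p : M)
    (hp : NondegenerateCritical R f p) :
    ∃ (c : ℝ → M) (T : ℝ), c 0 = p ∧ IsPeriodicOrbit R c T := by
  refine exists_periodic_zero α hα R hR _ (basicInvariant_D hf hfR) p ⟨fun v => ?_, fun u hu => ?_⟩
  · exact DFunLike.congr_fun hp.1 v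
  · refine hp.2 u fun v => ?_
    rw [← hess_eq hf]
    exact hu v

lemma critical_of_extr {f : M → ℝ} (hf : ContMDiff 𝓘(ℝ, E) 𝓘(ℝ, ℝ) ∞ f) {p : M}
    (hp : IsLocalExtr f p) : D (E := E) (E' := ℝ) f p = 0 := by
  have h1 : IsLocalExtr (fun y : E => f ((extChartAt 𝓘(ℝ, E) p).symm y))
      (extChartAt 𝓘(ℝ, E) p p) := by
    have hc : Tendsto (extChartAt 𝓘(ℝ, E) p).symm (𝓝 (extChartAt 𝓘(ℝ, E) p p)) (𝓝 p) := by
      have := continuousAt_extChartAt_symm (I := 𝓘(ℝ, E)) p
      have h2 := this.tendsto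
      rwa [extChartAt_to_inv] at h2
    have e : f ((extChartAt 𝓘(ℝ, E) p).symm (extChartAt 𝓘(ℝ, E) p p)) = f p := by
      rw [extChartAt_to_inv]
    rcases hp with hp | hp
    · left
      have := hc.eventually hp
      filter_upwards [this] with y hy
      rw [e]; exact hy
    · right
      have := hc.eventually hp
      filter_upwards [this] with y hy
      rw [e]; exact hy
  have h2 := h1.fderiv_eq_zero
  refine ContinuousLinearMap.ext fun v => ?_
  have h3 := W671.WU.fderiv_cf_self p hf v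
  have h4 : fderiv ℝ (W671.WU.cf p f) (extChartAt 𝓘(ℝ, E) p p) v = 0 := by
    have : W671.WU.cf p f = fun y : E => f ((extChartAt 𝓘(ℝ, E) p).symm y) := rfl
    rw [this, h2]; rfl
  exact h3.symm.trans h4

/-- **Two orbits.** -/
theorem exists_two_periodic [T2Space M] [CompactSpace M] [Nonempty M]
    (hdim : 1 < Module.finrank ℝ E)
    (α : M → Cov E) (hα : IsContact α) (R : M → E) (hR : IsReeb α R)
    (f : M → ℝ) (hf : ContMDiff 𝓘(ℝ, E) 𝓘(ℝ, ℝ) ∞ f)
    (hfR : ∀ x, D (E := E) (E' := ℝ) f x (R x) = 0)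
    (hp : ∀ p, D (E := E) (E' := ℝ) f p = 0 → NondegenerateCritical R f p) :
    ∃ (c₁ c₂ : ℝ → M) (T₁ T₂ : ℝ), IsPeriodicOrbit R c₁ T₁ ∧ IsPeriodicOrbit R c₂ T₂ ∧
      Disjoint (range c₁) (range c₂) := by
  obtain ⟨a, -, ha⟩ := (isCompact_univ (X := M)).exists_isMaxOn univ_nonempty
    hf.continuous.continuousOn
  obtain ⟨b, -, hb⟩ := (isCompact_univ (X := M)).exists_isMinOn univ_nonempty
    hf.continuous.continuousOn
  have hca : D (E := E) (E' := ℝ) f a = 0 :=
    critical_of_extr hf (Or.inr (Filter.Eventually.of_forall fun x => ha (mem_univ x)))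
  have hcb : D (E := E) (E' := ℝ) f b = 0 :=
    critical_of_extr hf (Or.inl (Filter.Eventually.of_forall fun x => hb (mem_univ x)))
  have hab : f a ≠ f b := by
    intro hab
    have hconst : ∀ x, f x = f a := fun x =>
      le_antisymm (ha (mem_univ x)) (hab.le.trans (hb (mem_univ x)))
    have hfc : f = fun _ => f a := by ext1 x; exact hconst x
    have h1 : ∀ u : E, ∃ r : ℝ, u = r • R a := by
      intro u
      refine (hp a hca).2 u fun v => ?_
      unfold hess
      rw [hfc]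
      simp
    have h2 : Module.finrank ℝ E ≤ 1 := by
      refine finrank_le_one (R a) fun u => ?_
      obtain ⟨r, hr⟩ := h1 u
      exact ⟨r, hr.symm⟩
    omega
  obtain ⟨c₁, T₁, h10, h1⟩ := exists_periodic_critical α hα R hR f hf hfR a (hp a hca)
  obtain ⟨c₂, T₂, h20, h2⟩ := exists_periodic_critical α hα R hR f hf hfR b (hp b hcb)
  have hcst : ∀ {c : ℝ → M} {T : ℝ}, IsPeriodicOrbit R c T → ∀ t, f (c t) = f (c 0) := by
    intro c T hc t
    have hder : ∀ s, HasDerivAt (fun s => f (c s)) 0 s := by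
      intro s
      have h3 := Wein.hasDerivAt_along (W := fun x => (R x : TangentSpace 𝓘(ℝ, E) x))
        (hc.integral s) hf
      refine h3.congr_deriv ?_
      exact hfR (c s)
    exact is_const_of_deriv_eq_zero (fun s => (hder s).differentiableAt)
      (fun s => (hder s).deriv) t 0
  refine ⟨c₁, c₂, T₁, T₂, h1, h2, ?_⟩
  rw [Set.disjoint_left]
  rintro _ ⟨s, rfl⟩ ⟨t, ht⟩
  apply hab
  have e1 := hcst h1 s
  have e2 := hcst h2 t
  rw [h10] at e1
  rw [h20] at e2
  rw [← e1, ← e2, ht]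

end Pool.Agent.V11211.WS
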