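import Mathlib

/-!
Abstract Lipschitz-free spaces (complex scalars) and compact Lipschitz operators.
-/

open Filter Topology Metric Set

namespace Pool.Agent.V11211.LipAbs

/-- `F`, with the map `δ : M → F`, is the Lipschitz-free space of `(M, o)`: the linear span of
the `δ x` is dense, and `‖∑ a_x δ x‖` is the supremum of `|∑ a_x g x|` over the unit ball of
`Lip₀(M)`, i.e. over the `1`-Lipschitz maps `g : M → ℂ` with `g o = 0`. -/
def IsLipFree {M F : Type*} [MetricSpace M] [NormedAddCommGroup F] [NormedSpace ℂ F]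
    (o : M) (δ : M → F) : Prop :=
  (Submodule.span ℂ (Set.range δ)).topologicalClosure = ⊤ ∧
  ∀ a : M →₀ ℂ, IsLUB {t : ℝ | ∃ g : M → ℂ, g o = 0 ∧ (∀ x y, ‖g x - g y‖ ≤ dist x y) ∧
    t = ‖a.sum fun x c => c * g x‖} ‖a.sum fun x c => c • δ x‖

variable {M : Type*} [MetricSpace M] {o : M}
variable {F : Type*} [NormedAddCommGroup F] [NormedSpace ℂ F] {δ : M → F}

/-- the working form of the free-space axioms -/
structure FreeData (o : M) (δ : M → F) : Prop where
  base : δ o = 0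
  lip : ∀ x y, ‖δ x - δ y‖ ≤ dist x y
  dense : ∀ v : F, ∀ ε : ℝ, 0 < ε → ∃ v' ∈ Submodule.span ℂ (Set.range δ), ‖v - v'‖ < ε
  ext : ∀ g : M → ℂ, g o = 0 → (∀ x y, ‖g x - g y‖ ≤ dist x y) →
    ∃ φ : F →L[ℂ] ℂ, ‖φ‖ ≤ 1 ∧ ∀ x, φ (δ x) = g x

theorem IsLipFree.freeData (h : IsLipFree o δ) : FreeData o δ where
  base := by
    have h1 := h.2 (Finsupp.single o 1)
    have h2 : ‖(Finsupp.single o (1 : ℂ)).sum fun x c => c • δ x‖ ≤ 0 := by
      apply h1.2
      rintro t ⟨g, hg0, -, rfl⟩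
      simp [hg0]
    simpa using h2
  lip := by
    intro x y
    have h1 := h.2 (Finsupp.single x 1 - Finsupp.single y 1)
    have h2 : ‖(Finsupp.single x (1 : ℂ) - Finsupp.single y 1).sum fun x c => c • δ x‖
        ≤ dist x y := by
      apply h1.2
      rintro t ⟨g, hg0, hg, rfl⟩
      rw [Finsupp.sum_sub_index (by intros; ring)]
      simp [hg x y]
    rw [Finsupp.sum_sub_index (by intros; rw [sub_smul])] at h2
    simpa using h2
  dense := by
    intro v ε hε
    have h1 : v ∈ closure ((Submodule.span ℂ (Set.range δ) : Submodule ℂ F) : Set F) := by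
      have : v ∈ (Submodule.span ℂ (Set.range δ)).topologicalClosure := by
        rw [h.1]; trivial
      exact this
    rw [Metric.mem_closure_iff] at h1
    obtain ⟨v', h2, h3⟩ := h1 ε hε
    exact ⟨v', h2, by rwa [dist_eq_norm] at h3⟩
  ext := by
    intro g hg0 hg
    set L : (M →₀ ℂ) →ₗ[ℂ] F := Finsupp.linearCombination ℂ δ with hL
    set G : (M →₀ ℂ) →ₗ[ℂ] ℂ := Finsupp.linearCombination ℂ g with hG
    have hbound : ∀ a, ‖G a‖ ≤ ‖L a‖ := by
      intro a
      have h1 := (h.2 a).1 ⟨g, hg0, hg, rfl⟩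
      rw [hL, hG, Finsupp.linearCombination_apply, Finsupp.linearCombination_apply]
      simpa only [smul_eq_mul] using h1
    have hker : ∀ a b, L a = L b → G a = G b := by
      intro a b hab
      have h1 := hbound (a - b)
      rw [map_sub, map_sub, hab, sub_self, norm_zero] at h1
      exact sub_eq_zero.1 (norm_le_zero_iff.1 h1)
    have hsurj : ∀ v : LinearMap.range L, ∃ a, L a = v := fun v => v.2
    choose s hs using hsurj
    let φ₀ : LinearMap.range L →ₗ[ℂ] ℂ :=
      { toFun := fun v => G (s v)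
        map_add' := fun v w => by
          rw [← map_add]
          apply hker
          rw [hs, map_add, hs, hs]
          rfl
        map_smul' := fun c v => by
          rw [RingHom.id_apply, ← map_smul]
          apply hker
          rw [hs, map_smul, hs]
          rfl }
    let φ₁ : LinearMap.range L →L[ℂ] ℂ := φ₀.mkContinuous 1 (fun v => by
      rw [one_mul]
      have h1 := hbound (s v)
      rw [hs] at h1
      exact h1)
    have hφ₁ : ‖φ₁‖ ≤ 1 := LinearMap.mkContinuous_norm_le _ zero_le_one _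
    obtain ⟨φ, hφ1, hφ2⟩ := exists_extension_norm_eq (LinearMap.range L) φ₁
    refine ⟨φ, by rw [hφ2]; exact hφ₁, fun x => ?_⟩
    have hLx : L (Finsupp.single x 1) = δ x := by
      rw [hL, Finsupp.linearCombination_single, one_smul]
    have hmem : δ x ∈ LinearMap.range L := ⟨Finsupp.single x 1, hLx⟩
    have h1 := hφ1 ⟨δ x, hmem⟩
    have h2 : φ₁ ⟨δ x, hmem⟩ = G (s ⟨δ x, hmem⟩) := rfl
    have h3 : G (s ⟨δ x, hmem⟩) = G (Finsupp.single x 1) := by
      apply hker
      rw [hs]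
      exact hLx.symm
    rw [h2, h3, hG, Finsupp.linearCombination_single, one_smul] at h1
    exact h1

theorem FreeData.norm_le (h : FreeData o δ) (x : M) : ‖δ x‖ ≤ dist x o := by
  have := h.lip x o
  rwa [h.base, sub_zero] at this

theorem FreeData.extReal (h : FreeData o δ) (g : M → ℝ) (h0 : g o = 0)
    (hL : ∀ x y, |g x - g y| ≤ dist x y) :
    ∃ φ : F →L[ℂ] ℂ, ‖φ‖ ≤ 1 ∧ ∀ x, φ (δ x) = (g x : ℂ) := by
  apply h.ext (fun x => (g x : ℂ)) (by simp [h0])
  intro x y
  rw [← Complex.ofReal_sub, Complex.norm_real, Real.norm_eq_abs]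
  exact hL x y

theorem FreeData.le_norm (h : FreeData o δ) (x y : M) : dist x y ≤ ‖δ x - δ y‖ := by
  let g : M → ℝ := fun z => dist z y - dist o y
  have hL : ∀ a b, |g a - g b| ≤ dist a b := by
    intro a b
    have : g a - g b = dist a y - dist b y := by simp [g]
    rw [this]
    exact abs_dist_sub_le a b y
  obtain ⟨φ, hφ1, hφ⟩ := h.extReal g (by simp [g]) hL
  have h1 : ‖φ (δ x - δ y)‖ ≤ 1 * ‖δ x - δ y‖ :=
    (φ.le_opNorm _).trans (mul_le_mul_of_nonneg_right hφ1 (norm_nonneg _))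
  rw [map_sub, hφ, hφ, ← Complex.ofReal_sub, Complex.norm_real, Real.norm_eq_abs, one_mul] at h1
  have h2 : g x - g y = dist x y := by simp [g]
  rw [h2, abs_of_nonneg dist_nonneg] at h1
  exact h1

/-- elements of the span are controlled by the values at the `δ z` -/
theorem span_bound {γ : F} (hγ : γ ∈ Submodule.span ℂ (Set.range δ)) :
    ∃ C : ℝ, 0 ≤ C ∧ ∀ φ : F →L[ℂ] ℂ, ∀ s : ℝ, (∀ z, ‖φ (δ z)‖ ≤ s) → ‖φ γ‖ ≤ C * s := by
  induction hγ using Submodule.span_induction with
  | mem v h =>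
    obtain ⟨x, rfl⟩ := h
    exact ⟨1, zero_le_one, fun g s hs => by rw [one_mul]; exact hs x⟩
  | zero => exact ⟨0, le_rfl, fun g s _ => by simp⟩
  | add v w _ _ h1 h2 =>
    obtain ⟨C, hC, h1⟩ := h1
    obtain ⟨D, hD, h2⟩ := h2
    refine ⟨C + D, add_nonneg hC hD, fun g s hs => ?_⟩
    rw [add_mul, map_add]
    exact (norm_add_le _ _).trans (add_le_add (h1 g s hs) (h2 g s hs))
  | smul a v _ h1 =>
    obtain ⟨C, hC, h1⟩ := h1
    refine ⟨‖a‖ * C, by positivity, fun g s hs => ?_⟩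
    rw [map_smul, norm_smul, mul_assoc]
    exact mul_le_mul_of_nonneg_left (h1 g s hs) (norm_nonneg _)

/-- elements of the span only see a bounded part of `M` -/
theorem span_support (o : M) {γ : F} (hγ : γ ∈ Submodule.span ℂ (Set.range δ)) :
    ∃ ρ : ℝ, 0 ≤ ρ ∧ ∀ φ : F →L[ℂ] ℂ, (∀ z, dist z o ≤ ρ → φ (δ z) = 0) → φ γ = 0 := by
  induction hγ using Submodule.span_induction with
  | mem v h =>
    obtain ⟨x, rfl⟩ := h
    exact ⟨dist x o, dist_nonneg, fun g hg => hg x le_rfl⟩
  | zero => exact ⟨0, le_rfl, fun g _ => map_zero g⟩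
  | add v w _ _ h1 h2 =>
    obtain ⟨C, hC, h1⟩ := h1
    obtain ⟨D, hD, h2⟩ := h2
    refine ⟨max C D, le_max_of_le_left hC, fun g hg => ?_⟩
    rw [map_add, h1 g (fun z hz => hg z (hz.trans (le_max_left _ _))),
      h2 g (fun z hz => hg z (hz.trans (le_max_right _ _))), add_zero]
  | smul a v _ h1 =>
    obtain ⟨C, hC, h1⟩ := h1
    refine ⟨C, hC, fun g hg => ?_⟩
    rw [map_smul, h1 g hg, smul_zero]

section Compact

variable {T : F →L[ℂ] F} {f : M → M}

/-- uniform local flatness -/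
theorem locally_flat (hF : FreeData o δ) {L : ℝ} (hL0 : 0 ≤ L)
    (hf : ∀ x y, dist (f x) (f y) ≤ L * dist x y)
    (hT : ∀ x, T (δ x) = δ (f x)) (hc : IsCompactOperator T) {ε : ℝ} (hε : 0 < ε) :
    ∃ r : ℝ, 0 < r ∧ ∀ x y, dist x y < r → dist (f x) (f y) ≤ ε * dist x y := by
  by_contra hcon
  push Not at hcon
  have hseq : ∀ n : ℕ, ∃ p : M × M, dist p.1 p.2 < 1 / ((n : ℝ) + 1) ∧
      ε * dist p.1 p.2 < dist (f p.1) (f p.2) := by
    intro n
    obtain ⟨x, y, h1, h2⟩ := hcon (1 / ((n : ℝ) + 1)) (by positivity)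
    exact ⟨(x, y), h1, h2⟩
  choose p hp1 hp2 using hseq
  have hdpos : ∀ n, 0 < dist (p n).1 (p n).2 := by
    intro n
    rcases (dist_nonneg (x := (p n).1) (y := (p n).2)).eq_or_lt with h | h
    · exfalso
      have h2 := hp2 n
      have h3 := hf (p n).1 (p n).2
      rw [← h, mul_zero] at h2 h3
      linarith
    · exact h
  set v : ℕ → F := fun n =>
    ((dist (p n).1 (p n).2 : ℝ) : ℂ)⁻¹ • (δ (p n).1 - δ (p n).2) with hv
  have hvn : ∀ n, v n ∈ Metric.closedBall (0 : F) 1 := by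
    intro n
    rw [mem_closedBall_zero_iff, hv]
    simp only
    rw [norm_smul, norm_inv, Complex.norm_real, Real.norm_eq_abs, abs_of_pos (hdpos n),
      inv_mul_le_iff₀ (hdpos n), mul_one]
    exact hF.lip _ _
  obtain ⟨K, hK, hK'⟩ := hc.image_closedBall_subset_compact 1
  obtain ⟨γ, -, φ, hφ, hlim⟩ := hK.tendsto_subseq (x := fun n => T (v n))
    (fun n => hK' ⟨v n, hvn n, rfl⟩)
  obtain ⟨γ', hγ', hγn⟩ := hF.dense γ (ε / 4) (by positivity)
  obtain ⟨C, hC0, hC⟩ := span_bound hγ'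
  -- the test function
  have key : ∀ n : ℕ, ε ≤ C * (L * (1 / ((n : ℝ) + 1))) + ‖T (v n) - γ'‖ := by
    intro n
    set s := dist (f (p n).1) (f (p n).2) with hs
    set q := f (p n).2 with hq
    let h : M → ℝ := fun z => min (dist z q) s - min (dist o q) s
    have hs0 : 0 ≤ s := dist_nonneg
    have hL' : ∀ a b, |h a - h b| ≤ dist a b := by
      intro a b
      have e : h a - h b = min (dist a q) s - min (dist b q) s := by simp [h]
      rw [e]
      calc |min (dist a q) s - min (dist b q) s| ≤ |dist a q - dist b q| := by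
            have := abs_min_sub_min_le_max (dist a q) s (dist b q) s
            rw [sub_self, abs_zero] at this
            exact this.trans (max_le le_rfl (abs_nonneg _))
        _ ≤ dist a b := abs_dist_sub_le a b q
    have h0 : h o = 0 := by simp [h]
    obtain ⟨ψ, hψ1, hψ⟩ := hF.extReal h h0 hL'
    have hb : ∀ z, ‖ψ (δ z)‖ ≤ s := by
      intro z
      rw [hψ, Complex.norm_real, Real.norm_eq_abs, abs_le]
      have a1 : 0 ≤ min (dist z q) s := le_min dist_nonneg hs0
      have a2 : 0 ≤ min (dist o q) s := le_min dist_nonneg hs0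
      have a3 : min (dist z q) s ≤ s := min_le_right _ _
      have a4 : min (dist o q) s ≤ s := min_le_right _ _
      constructor <;> simp only [h] <;> linarith
    have e1 : ψ (T (v n)) = ((dist (p n).1 (p n).2 : ℝ) : ℂ)⁻¹ * (s : ℂ) := by
      simp only [hv]
      rw [map_smul, map_sub, hT, hT, map_smul, map_sub, hψ, hψ, smul_eq_mul]
      congr 1
      have : h (f (p n).1) - h (f (p n).2) = s := by
        simp only [h]
        rw [← hs, ← hq, dist_self]
        simp [hs0]
      rw [← Complex.ofReal_sub, this]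
    have e2 : ‖ψ (T (v n))‖ = s / dist (p n).1 (p n).2 := by
      rw [e1, norm_mul, norm_inv, Complex.norm_real, Complex.norm_real, Real.norm_eq_abs,
        Real.norm_eq_abs, abs_of_pos (hdpos n), abs_of_nonneg hs0]
      field_simp
    have e3 : ε ≤ s / dist (p n).1 (p n).2 := by
      rw [le_div_iff₀ (hdpos n)]
      exact (hp2 n).le
    have e4 : ‖ψ (T (v n))‖ ≤ ‖ψ γ'‖ + ‖T (v n) - γ'‖ := by
      have : ψ (T (v n)) = ψ γ' + ψ (T (v n) - γ') := by
        rw [map_sub]; ring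
      rw [this]
      refine (norm_add_le _ _).trans (add_le_add_right ?_ _)
      calc ‖ψ (T (v n) - γ')‖ ≤ ‖ψ‖ * ‖T (v n) - γ'‖ := ψ.le_opNorm _
        _ ≤ 1 * ‖T (v n) - γ'‖ := mul_le_mul_of_nonneg_right hψ1 (norm_nonneg _)
        _ = _ := one_mul _
    have e5 := hC ψ s hb
    have e6 : s ≤ L * (1 / ((n : ℝ) + 1)) :=
      (hf _ _).trans (mul_le_mul_of_nonneg_left (hp1 n).le hL0)
    have e7 : C * s ≤ C * (L * (1 / ((n : ℝ) + 1))) := mul_le_mul_of_nonneg_left e6 hC0
    linarith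
  -- pass to the limit
  have hlim1 : Tendsto (fun n => ‖T (v (φ n)) - γ'‖) atTop (𝓝 ‖γ - γ'‖) :=
    (hlim.sub_const γ').norm
  have hlim2 : Tendsto (fun n => C * (L * (1 / (((φ n : ℕ) : ℝ) + 1)))) atTop (𝓝 0) := by
    have h1 : Tendsto (fun n : ℕ => 1 / ((n : ℝ) + 1)) atTop (𝓝 0) :=
      tendsto_one_div_add_atTop_nhds_zero_nat
    have h2 := (h1.comp hφ.tendsto_atTop)
    have h3 := (h2.const_mul L).const_mul C
    simpa using h3
  have hfin := ge_of_tendsto' (hlim2.add hlim1) (fun n => key (φ n))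
  linarith

/-- radial flatness -/
theorem radially_flat (hF : FreeData o δ)
    (hT : ∀ x, T (δ x) = δ (f x)) (hc : IsCompactOperator T) {ε : ℝ} (hε : 0 < ε) :
    ∃ R : ℝ, 0 < R ∧ ∀ x, R < dist x o → dist (f x) o ≤ ε * dist x o := by
  by_contra hcon
  push Not at hcon
  have hseq : ∀ n : ℕ, ∃ x : M, (n : ℝ) + 1 < dist x o ∧ ε * dist x o < dist (f x) o := by
    intro n
    exact hcon ((n : ℝ) + 1) (by positivity)
  choose x hx1 hx2 using hseq
  have hdpos : ∀ n, 0 < dist (x n) o := fun n => lt_trans (by positivity) (hx1 n)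
  set v : ℕ → F := fun n => ((dist (x n) o : ℝ) : ℂ)⁻¹ • (δ (x n)) with hv
  have hvn : ∀ n, v n ∈ Metric.closedBall (0 : F) 1 := by
    intro n
    rw [mem_closedBall_zero_iff, hv]
    simp only
    rw [norm_smul, norm_inv, Complex.norm_real, Real.norm_eq_abs, abs_of_pos (hdpos n),
      inv_mul_le_iff₀ (hdpos n), mul_one]
    exact hF.norm_le _
  obtain ⟨K, hK, hK'⟩ := hc.image_closedBall_subset_compact 1
  obtain ⟨γ, -, φ, hφ, hlim⟩ := hK.tendsto_subseq (x := fun n => T (v n))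
    (fun n => hK' ⟨v n, hvn n, rfl⟩)
  obtain ⟨γ', hγ', hγn⟩ := hF.dense γ (ε / 4) (by positivity)
  obtain ⟨ρ, hρ0, hρ⟩ := span_support o hγ'
  let h : M → ℝ := fun z => max (dist z o - ρ) 0
  have hL' : ∀ a b, |h a - h b| ≤ dist a b := by
    intro a b
    have := abs_max_sub_max_le_max (dist a o - ρ) 0 (dist b o - ρ) 0
    rw [sub_self, abs_zero] at this
    have h2 := this.trans (max_le le_rfl (abs_nonneg _))
    have h3 : dist a o - ρ - (dist b o - ρ) = dist a o - dist b o := by ring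
    rw [h3] at h2
    exact h2.trans (abs_dist_sub_le a b o)
  have h0 : h o = 0 := by simp [h, hρ0]
  obtain ⟨ψ, hψ1, hψ⟩ := hF.extReal h h0 hL'
  have hz : ψ γ' = 0 := by
    apply hρ
    intro z hz
    rw [hψ]
    have : h z = 0 := by
      simp only [h]
      exact max_eq_right (by linarith)
    rw [this, Complex.ofReal_zero]
  have key : ∀ n : ℕ, ε ≤ ρ * (1 / ((n : ℝ) + 1)) + ‖T (v n) - γ'‖ := by
    intro n
    have e1 : ψ (T (v n)) = ((dist (x n) o : ℝ) : ℂ)⁻¹ * (h (f (x n)) : ℂ) := by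
      simp only [hv]
      rw [map_smul, hT, map_smul, hψ, smul_eq_mul]
    have hh0 : 0 ≤ h (f (x n)) := le_max_right _ _
    have e2 : ‖ψ (T (v n))‖ = h (f (x n)) / dist (x n) o := by
      rw [e1, norm_mul, norm_inv, Complex.norm_real, Complex.norm_real, Real.norm_eq_abs,
        Real.norm_eq_abs, abs_of_pos (hdpos n), abs_of_nonneg hh0]
      field_simp
    have e3 : ε - ρ * (1 / ((n : ℝ) + 1)) ≤ h (f (x n)) / dist (x n) o := by
      have a1 : dist (f (x n)) o - ρ ≤ h (f (x n)) := le_max_left _ _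
      have a2 : ε ≤ dist (f (x n)) o / dist (x n) o := by
        rw [le_div_iff₀ (hdpos n)]; exact (hx2 n).le
      have a3 : ρ / dist (x n) o ≤ ρ * (1 / ((n : ℝ) + 1)) := by
        rw [div_eq_mul_one_div]
        apply mul_le_mul_of_nonneg_left _ hρ0
        exact one_div_le_one_div_of_le (by positivity) (hx1 n).le
      have a4 : (dist (f (x n)) o - ρ) / dist (x n) o ≤ h (f (x n)) / dist (x n) o :=
        div_le_div_of_nonneg_right a1 (hdpos n).le
      rw [sub_div] at a4
      linarith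
    have e4 : ‖ψ (T (v n))‖ ≤ ‖T (v n) - γ'‖ := by
      have : ψ (T (v n)) = ψ (T (v n) - γ') := by
        rw [map_sub, hz, sub_zero]
      rw [this]
      calc ‖ψ (T (v n) - γ')‖ ≤ ‖ψ‖ * ‖T (v n) - γ'‖ := ψ.le_opNorm _
        _ ≤ 1 * ‖T (v n) - γ'‖ := mul_le_mul_of_nonneg_right hψ1 (norm_nonneg _)
        _ = _ := one_mul _
    linarith
  have hlim1 : Tendsto (fun n => ‖T (v (φ n)) - γ'‖) atTop (𝓝 ‖γ - γ'‖) :=
    (hlim.sub_const γ').norm
  have hlim2 : Tendsto (fun n => ρ * (1 / (((φ n : ℕ) : ℝ) + 1))) atTop (𝓝 0) := by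
    have h1 : Tendsto (fun n : ℕ => 1 / ((n : ℝ) + 1)) atTop (𝓝 0) :=
      tendsto_one_div_add_atTop_nhds_zero_nat
    have h2 := (h1.comp hφ.tendsto_atTop)
    have h3 := (h2.const_mul ρ)
    simpa using h3
  have hfin := ge_of_tendsto' (hlim2.add hlim1) (fun n => key (φ n))
  linarith

/-- `f` maps bounded sequences to sequences with convergent subsequences -/
theorem compact_image [CompleteSpace M] (hF : FreeData o δ)
    (hT : ∀ x, T (δ x) = δ (f x)) (hc : IsCompactOperator T) {R : ℝ} {x : ℕ → M}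
    (hx : ∀ n, dist (x n) o ≤ R) :
    ∃ (y : M) (φ : ℕ → ℕ), StrictMono φ ∧ Tendsto (fun n => f (x (φ n))) atTop (𝓝 y) := by
  obtain ⟨K, hK, hK'⟩ := hc.image_closedBall_subset_compact R
  obtain ⟨γ, -, φ, hφ, hlim⟩ := hK.tendsto_subseq (x := fun n => T (δ (x n)))
    (fun n => hK' ⟨δ (x n), by
      rw [mem_closedBall_zero_iff]; exact (hF.norm_le _).trans (hx n), rfl⟩)
  have hcau := hlim.cauchySeq
  have : CauchySeq (fun n => f (x (φ n))) := by
    rw [Metric.cauchySeq_iff] at hcau ⊢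
    intro ε hε
    obtain ⟨N, hN⟩ := hcau ε hε
    refine ⟨N, fun m hm n hn => ?_⟩
    have h1 := hN m hm n hn
    simp only [Function.comp] at h1
    rw [hT, hT, dist_eq_norm] at h1
    exact (hF.le_norm _ _).trans_lt h1
  obtain ⟨y, hy⟩ := cauchySeq_tendsto_of_complete this
  exact ⟨y, φ, hφ, hy⟩

end Compact

end Pool.Agent.V11211.LipAbs
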