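import Mathlib

/-!
Lipschitz-free spaces (complex scalars) and compact Lipschitz operators.
-/

open Filter Topology Metric Set

namespace Pool.Agent.V11211.LipFree

/-- the vector space of Lipschitz maps `M → ℂ` vanishing at the base point `o` -/
def lip0Sub (M : Type*) [MetricSpace M] (o : M) : Submodule ℂ (M → ℂ) where
  carrier := {g | g o = 0 ∧ ∃ K : ℝ, ∀ x y, ‖g x - g y‖ ≤ K * dist x y}
  zero_mem' := ⟨rfl, 0, fun x y => by simp⟩
  add_mem' := by
    rintro g h ⟨hg0, K, hK⟩ ⟨hh0, L, hL⟩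
    refine ⟨by simp [hg0, hh0], K + L, fun x y => ?_⟩
    have : (g + h) x - (g + h) y = (g x - g y) + (h x - h y) := by
      simp only [Pi.add_apply]; ring
    rw [this, add_mul]
    exact (norm_add_le _ _).trans (add_le_add (hK x y) (hL x y))
  smul_mem' := by
    rintro c g ⟨hg0, K, hK⟩
    refine ⟨by simp [hg0], ‖c‖ * K, fun x y => ?_⟩
    have : (c • g) x - (c • g) y = c * (g x - g y) := by
      simp only [Pi.smul_apply, smul_eq_mul]; ring
    rw [this, norm_mul, mul_assoc]
    exact mul_le_mul_of_nonneg_left (hK x y) (norm_nonneg _)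

/-- `Lip₀(M)` -/
def Lip0 (M : Type*) [MetricSpace M] (o : M) : Type _ := ↥(lip0Sub M o)

variable {M : Type*} [MetricSpace M] {o : M}

section Build

/-- pointwise addition -/
local instance lipACG : AddCommGroup (Lip0 M o) := inferInstanceAs (AddCommGroup ↥(lip0Sub M o))

/-- pointwise scalar multiplication -/
local instance lipModule : Module ℂ (Lip0 M o) := inferInstanceAs (Module ℂ ↥(lip0Sub M o))

/-- the norm of `Lip₀(M)`: the best Lipschitz constant -/
noncomputable local instance lipNorm : Norm (Lip0 M o) :=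
  ⟨fun g => sInf {K : ℝ | 0 ≤ K ∧ ∀ x y, ‖g.1 x - g.1 y‖ ≤ K * dist x y}⟩

theorem Lip0.norm_def (g : Lip0 M o) :
    ‖g‖ = sInf {K : ℝ | 0 ≤ K ∧ ∀ x y, ‖g.1 x - g.1 y‖ ≤ K * dist x y} := rfl

theorem Lip0.set_nonempty (g : Lip0 M o) :
    {K : ℝ | 0 ≤ K ∧ ∀ x y, ‖g.1 x - g.1 y‖ ≤ K * dist x y}.Nonempty := by
  obtain ⟨K, hK⟩ := g.2.2
  refine ⟨|K|, abs_nonneg K, fun x y => (hK x y).trans ?_⟩
  exact mul_le_mul_of_nonneg_right (le_abs_self K) dist_nonneg

theorem Lip0.bound' (g : Lip0 M o) (x y : M) : ‖g.1 x - g.1 y‖ ≤ ‖g‖ * dist x y := by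
  by_cases hxy : x = y
  · simp [hxy]
  · have hd : 0 < dist x y := dist_pos.2 hxy
    rw [← div_le_iff₀ hd, Lip0.norm_def]
    apply le_csInf g.set_nonempty
    intro K hK
    rw [div_le_iff₀ hd]
    exact hK.2 x y

theorem Lip0.norm_le' {g : Lip0 M o} {K : ℝ} (hK : 0 ≤ K)
    (h : ∀ x y, ‖g.1 x - g.1 y‖ ≤ K * dist x y) : ‖g‖ ≤ K :=
  csInf_le ⟨0, fun _ hL => hL.1⟩ ⟨hK, h⟩

theorem Lip0.norm_nonneg' (g : Lip0 M o) : 0 ≤ ‖g‖ :=
  Real.sInf_nonneg fun _ hK => hK.1

theorem Lip0.smul_le (c : ℂ) (g : Lip0 M o) : ‖c • g‖ ≤ ‖c‖ * ‖g‖ := by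
  apply Lip0.norm_le' (mul_nonneg (norm_nonneg _) g.norm_nonneg')
  intro x y
  have : (c • g : Lip0 M o).1 x - (c • g : Lip0 M o).1 y = c * (g.1 x - g.1 y) := by
    change c * g.1 x - c * g.1 y = _
    ring
  rw [this, norm_mul, mul_assoc]
  exact mul_le_mul_of_nonneg_left (g.bound' x y) (norm_nonneg _)

theorem lipCore : NormedSpace.Core ℂ (Lip0 M o) where
  norm_nonneg g := g.norm_nonneg'
  norm_smul c g := by
    apply le_antisymm (Lip0.smul_le c g)
    by_cases hc : c = 0
    · subst hc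
      simp only [norm_zero, zero_mul]
      exact Lip0.norm_nonneg' _
    · have h := Lip0.smul_le c⁻¹ (c • g)
      rw [smul_smul, inv_mul_cancel₀ hc, one_smul, norm_inv] at h
      have hpos : 0 < ‖c‖ := norm_pos_iff.2 hc
      rw [inv_mul_eq_div, le_div_iff₀ hpos] at h
      linarith
  norm_triangle g h := by
    apply Lip0.norm_le' (add_nonneg g.norm_nonneg' h.norm_nonneg')
    intro x y
    have : (g + h : Lip0 M o).1 x - (g + h : Lip0 M o).1 y =
        (g.1 x - g.1 y) + (h.1 x - h.1 y) := by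
      change g.1 x + h.1 x - (g.1 y + h.1 y) = _
      ring
    rw [this, add_mul]
    exact (norm_add_le _ _).trans (add_le_add (g.bound' x y) (h.bound' x y))
  norm_eq_zero_iff g := by
    constructor
    · intro hg
      apply Subtype.ext
      funext x
      have h := g.bound' x o
      rw [hg, zero_mul, g.2.1, sub_zero] at h
      exact norm_le_zero_iff.1 h
    · rintro rfl
      apply le_antisymm _ (Lip0.norm_nonneg' _)
      apply Lip0.norm_le' le_rfl
      intro x y
      change ‖(0 : ℂ) - 0‖ ≤ _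
      simp

/-- `Lip₀(M)` is a normed group for the pointwise operations and the best Lipschitz constant -/
@[reducible] noncomputable def lipNACG : NormedAddCommGroup (Lip0 M o) :=
  NormedAddCommGroup.ofCore lipCore

/-- `Lip₀(M)` is a normed space for the pointwise operations and the best Lipschitz constant -/
@[reducible] noncomputable def lipNS :
    @NormedSpace ℂ (Lip0 M o) _ (lipNACG).toSeminormedAddCommGroup :=
  @NormedSpace.ofCore ℂ (Lip0 M o) _ (lipNACG).toSeminormedAddCommGroup lipModule lipCore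

end Build

noncomputable instance : NormedAddCommGroup (Lip0 M o) := lipNACG

noncomputable instance : NormedSpace ℂ (Lip0 M o) := lipNS

theorem Lip0.bound (g : Lip0 M o) (x y : M) : ‖g.1 x - g.1 y‖ ≤ ‖g‖ * dist x y :=
  Lip0.bound' g x y

theorem Lip0.norm_le {g : Lip0 M o} {K : ℝ} (hK : 0 ≤ K)
    (h : ∀ x y, ‖g.1 x - g.1 y‖ ≤ K * dist x y) : ‖g‖ ≤ K := Lip0.norm_le' hK h

/-- evaluation at `x`, an element of the dual of `Lip₀(M)` -/
noncomputable def delta (o x : M) : Lip0 M o →L[ℂ] ℂ :=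
  LinearMap.mkContinuous
    { toFun := fun g => g.1 x
      map_add' := fun _ _ => rfl
      map_smul' := fun _ _ => rfl } (dist x o) (by
    intro g
    have h := g.bound x o
    rw [g.2.1, sub_zero, mul_comm] at h
    exact h)

@[simp] theorem delta_apply (x : M) (g : Lip0 M o) : delta o x g = g.1 x := rfl

/-- the closed linear span of the evaluations, a closed subspace of the dual of `Lip₀(M)` -/
noncomputable def freeSub (M : Type*) [MetricSpace M] (o : M) :
    Submodule ℂ (Lip0 M o →L[ℂ] ℂ) :=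
  (Submodule.span ℂ (Set.range (delta o : M → (Lip0 M o →L[ℂ] ℂ)))).topologicalClosure

/-- the Lipschitz-free space `F(M)`: the closed linear span of the evaluations, with the norm
of the dual of `Lip₀(M)` -/
def FreeSpace (M : Type*) [MetricSpace M] (o : M) : Type _ := ↥(freeSub M o)

noncomputable instance : NormedAddCommGroup (FreeSpace M o) :=
  inferInstanceAs (NormedAddCommGroup ↥(freeSub M o))

noncomputable instance : NormedSpace ℂ (FreeSpace M o) :=
  inferInstanceAs (NormedSpace ℂ ↥(freeSub M o))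

instance : CompleteSpace (FreeSpace M o) := by
  have : IsClosed ((freeSub M o : Submodule ℂ _) : Set (Lip0 M o →L[ℂ] ℂ)) :=
    Submodule.isClosed_topologicalClosure _
  exact this.completeSpace_coe

/-- `δ(x)` as an element of `F(M)` -/
noncomputable def dl (o x : M) : FreeSpace M o :=
  ⟨delta o x, subset_closure (Submodule.subset_span ⟨x, rfl⟩)⟩

/-- a bounded real Lipschitz function as an element of `Lip₀` -/
noncomputable def ofReal (o : M) (h : M → ℝ) (h0 : h o = 0)
    (hL : ∀ x y, |h x - h y| ≤ dist x y) : Lip0 M o :=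
  ⟨fun x => (h x : ℂ), by
    refine ⟨by simp [h0], 1, fun x y => ?_⟩
    rw [← Complex.ofReal_sub, Complex.norm_real, Real.norm_eq_abs, one_mul]
    exact hL x y⟩

theorem ofReal_norm_le (h : M → ℝ) (h0 : h o = 0)
    (hL : ∀ x y, |h x - h y| ≤ dist x y) : ‖ofReal o h h0 hL‖ ≤ 1 := by
  apply Lip0.norm_le zero_le_one
  intro x y
  change ‖(h x : ℂ) - (h y : ℂ)‖ ≤ _
  rw [← Complex.ofReal_sub, Complex.norm_real, Real.norm_eq_abs, one_mul]
  exact hL x y

theorem ofReal_apply (h : M → ℝ) (h0 : h o = 0)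
    (hL : ∀ x y, |h x - h y| ≤ dist x y) (x : M) : (ofReal o h h0 hL).1 x = (h x : ℂ) := rfl

theorem dl_sub_norm_le (x y : M) : ‖dl o x - dl o y‖ ≤ dist x y := by
  change ‖delta o x - delta o y‖ ≤ _
  apply ContinuousLinearMap.opNorm_le_bound _ dist_nonneg
  intro g
  change ‖g.1 x - g.1 y‖ ≤ _
  rw [mul_comm]
  exact g.bound x y

theorem dl_base : dl o o = 0 := by
  apply Subtype.ext
  ext g
  change g.1 o = 0
  exact g.2.1

theorem dl_norm_le (x : M) : ‖dl o x‖ ≤ dist x o := by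
  have := dl_sub_norm_le (o := o) x o
  rwa [dl_base, sub_zero] at this

theorem le_dl_sub_norm (x y : M) : dist x y ≤ ‖dl o x - dl o y‖ := by
  let h : M → ℝ := fun z => dist z y - dist o y
  have hL : ∀ a b, |h a - h b| ≤ dist a b := by
    intro a b
    have : h a - h b = dist a y - dist b y := by simp [h]
    rw [this]
    exact abs_dist_sub_le a b y
  have h0 : h o = 0 := by simp [h]
  have h1 := ofReal_norm_le (o := o) h h0 hL
  have h2 : ‖(dl o x - dl o y).1 (ofReal o h h0 hL)‖ ≤ ‖dl o x - dl o y‖ * 1 :=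
    ((dl o x - dl o y).1.le_opNorm _).trans
      (mul_le_mul_of_nonneg_left h1 (norm_nonneg _))
  have h3 : (dl o x - dl o y).1 (ofReal o h h0 hL) = (dist x y : ℂ) := by
    change (h x : ℂ) - (h y : ℂ) = _
    simp only [h]
    push_cast
    simp
  rw [h3, mul_one, Complex.norm_real, Real.norm_eq_abs, abs_of_nonneg dist_nonneg] at h2
  exact h2

/-- elements of the span are controlled by the sup norm of the test function -/
theorem span_bound {γ : Lip0 M o →L[ℂ] ℂ}
    (hγ : γ ∈ Submodule.span ℂ (Set.range (delta o : M → (Lip0 M o →L[ℂ] ℂ)))) :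
    ∃ C : ℝ, 0 ≤ C ∧ ∀ g : Lip0 M o, ∀ s : ℝ, (∀ z, ‖g.1 z‖ ≤ s) → ‖γ g‖ ≤ C * s := by
  induction hγ using Submodule.span_induction with
  | mem φ h =>
    obtain ⟨x, rfl⟩ := h
    exact ⟨1, zero_le_one, fun g s hs => by rw [one_mul]; exact hs x⟩
  | zero => exact ⟨0, le_rfl, fun g s _ => by simp⟩
  | add φ ψ _ _ h1 h2 =>
    obtain ⟨C, hC, h1⟩ := h1
    obtain ⟨D, hD, h2⟩ := h2
    refine ⟨C + D, add_nonneg hC hD, fun g s hs => ?_⟩
    rw [add_mul]
    exact (norm_add_le _ _).trans (add_le_add (h1 g s hs) (h2 g s hs))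
  | smul a φ _ h1 =>
    obtain ⟨C, hC, h1⟩ := h1
    refine ⟨‖a‖ * C, by positivity, fun g s hs => ?_⟩
    change ‖a * φ g‖ ≤ _
    rw [norm_mul, mul_assoc]
    exact mul_le_mul_of_nonneg_left (h1 g s hs) (norm_nonneg _)

/-- elements of the span only see a bounded part of `M` -/
theorem span_support {γ : Lip0 M o →L[ℂ] ℂ}
    (hγ : γ ∈ Submodule.span ℂ (Set.range (delta o : M → (Lip0 M o →L[ℂ] ℂ)))) :
    ∃ ρ : ℝ, 0 ≤ ρ ∧ ∀ g : Lip0 M o, (∀ z, dist z o ≤ ρ → g.1 z = 0) → γ g = 0 := by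
  induction hγ using Submodule.span_induction with
  | mem φ h =>
    obtain ⟨x, rfl⟩ := h
    exact ⟨dist x o, dist_nonneg, fun g hg => hg x le_rfl⟩
  | zero => exact ⟨0, le_rfl, fun g _ => rfl⟩
  | add φ ψ _ _ h1 h2 =>
    obtain ⟨C, hC, h1⟩ := h1
    obtain ⟨D, hD, h2⟩ := h2
    refine ⟨max C D, le_max_of_le_left hC, fun g hg => ?_⟩
    change φ g + ψ g = 0
    rw [h1 g (fun z hz => hg z (hz.trans (le_max_left _ _))),
      h2 g (fun z hz => hg z (hz.trans (le_max_right _ _))), add_zero]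
  | smul a φ _ h1 =>
    obtain ⟨C, hC, h1⟩ := h1
    refine ⟨C, hC, fun g hg => ?_⟩
    change a * φ g = 0
    rw [h1 g hg, mul_zero]

/-- approximate an element of `F(M)` by an element of the span -/
theorem exists_approx (γ : FreeSpace M o) {ε : ℝ} (hε : 0 < ε) :
    ∃ γ' ∈ Submodule.span ℂ (Set.range (delta o : M → (Lip0 M o →L[ℂ] ℂ))),
      ‖γ.1 - γ'‖ < ε := by
  have h : γ.1 ∈ closure ((Submodule.span ℂ (Set.range
    (delta o : M → (Lip0 M o →L[ℂ] ℂ))) : Submodule ℂ _) : Set (Lip0 M o →L[ℂ] ℂ)) := γ.2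
  rw [Metric.mem_closure_iff] at h
  obtain ⟨γ', h1, h2⟩ := h ε hε
  exact ⟨γ', h1, by rwa [dist_eq_norm] at h2⟩

section Compact

variable {T : FreeSpace M o →L[ℂ] FreeSpace M o} {f : M → M}

/-- uniform local flatness -/
theorem locally_flat {L : ℝ} (hL0 : 0 ≤ L) (hf : ∀ x y, dist (f x) (f y) ≤ L * dist x y)
    (hT : ∀ x, T (dl o x) = dl o (f x)) (hc : IsCompactOperator T) {ε : ℝ} (hε : 0 < ε) :
    ∃ r : ℝ, 0 < r ∧ ∀ x y, dist x y < r → dist (f x) (f y) ≤ ε * dist x y := by
  by_contra hcon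
  push Not at hcon
  have hseq : ∀ n : ℕ, ∃ p : M × M, dist p.1 p.2 < 1 / ((n : ℝ) + 1) ∧
      ε * dist p.1 p.2 < dist (f p.1) (f p.2) := by
    intro n
    obtain ⟨x, y, h1, h2⟩ := hcon (1 / ((n : ℝ) + 1)) (by positivity)
    exact ⟨(x, y), h1, h2⟩
  choose p hp1 hp2 using hseq
  have hdpos : ∀ n, 0 < dist (p n).1 (p n).2 := by
    intro n
    rcases (dist_nonneg (x := (p n).1) (y := (p n).2)).eq_or_lt with h | h
    · exfalso
      have h2 := hp2 n
      have h3 := hf (p n).1 (p n).2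
      rw [← h, mul_zero] at h2 h3
      linarith
    · exact h
  set v : ℕ → FreeSpace M o := fun n =>
    ((dist (p n).1 (p n).2 : ℝ) : ℂ)⁻¹ • (dl o (p n).1 - dl o (p n).2) with hv
  have hvn : ∀ n, v n ∈ Metric.closedBall (0 : FreeSpace M o) 1 := by
    intro n
    rw [mem_closedBall_zero_iff, hv]
    simp only
    rw [norm_smul, norm_inv, Complex.norm_real, Real.norm_eq_abs, abs_of_pos (hdpos n),
      inv_mul_le_iff₀ (hdpos n), mul_one]
    exact dl_sub_norm_le _ _
  obtain ⟨K, hK, hK'⟩ := hc.image_closedBall_subset_compact 1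
  obtain ⟨γ, -, φ, hφ, hlim⟩ := hK.tendsto_subseq (x := fun n => T (v n))
    (fun n => hK' ⟨v n, hvn n, rfl⟩)
  obtain ⟨γ', hγ', hγn⟩ := exists_approx γ (show (0 : ℝ) < ε / 4 by positivity)
  obtain ⟨C, hC0, hC⟩ := span_bound hγ'
  -- the test function
  have key : ∀ n : ℕ, ε ≤ C * (L * (1 / ((n : ℝ) + 1))) + ‖(T (v n)).1 - γ'‖ := by
    intro n
    set s := dist (f (p n).1) (f (p n).2) with hs
    set q := f (p n).2 with hq
    let h : M → ℝ := fun z => min (dist z q) s - min (dist o q) s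
    have hs0 : 0 ≤ s := dist_nonneg
    have hL' : ∀ a b, |h a - h b| ≤ dist a b := by
      intro a b
      have e : h a - h b = min (dist a q) s - min (dist b q) s := by simp [h]
      rw [e]
      calc |min (dist a q) s - min (dist b q) s| ≤ |dist a q - dist b q| := by
            have := abs_min_sub_min_le_max (dist a q) s (dist b q) s
            rw [sub_self, abs_zero] at this
            exact this.trans (max_le le_rfl (abs_nonneg _))
        _ ≤ dist a b := abs_dist_sub_le a b q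
    have h0 : h o = 0 := by simp [h]
    have hb : ∀ z, ‖(ofReal o h h0 hL').1 z‖ ≤ s := by
      intro z
      rw [ofReal_apply, Complex.norm_real, Real.norm_eq_abs, abs_le]
      have a1 : 0 ≤ min (dist z q) s := le_min dist_nonneg hs0
      have a2 : 0 ≤ min (dist o q) s := le_min dist_nonneg hs0
      have a3 : min (dist z q) s ≤ s := min_le_right _ _
      have a4 : min (dist o q) s ≤ s := min_le_right _ _
      constructor <;> simp only [h] <;> linarith
    have e1 : (T (v n)).1 (ofReal o h h0 hL') =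
        ((dist (p n).1 (p n).2 : ℝ) : ℂ)⁻¹ * (s : ℂ) := by
      have : T (v n) = ((dist (p n).1 (p n).2 : ℝ) : ℂ)⁻¹ •
          (dl o (f (p n).1) - dl o (f (p n).2)) := by
        rw [hv]
        simp only
        rw [map_smul, map_sub, hT, hT]
      rw [this]
      change ((dist (p n).1 (p n).2 : ℝ) : ℂ)⁻¹ * ((h (f (p n).1) : ℂ) - (h (f (p n).2) : ℂ)) = _
      congr 1
      have : h (f (p n).1) - h (f (p n).2) = s := by
        simp only [h]
        rw [← hs, ← hq, dist_self]
        simp [hs0]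
      rw [← Complex.ofReal_sub, this]
    have e2 : ‖(T (v n)).1 (ofReal o h h0 hL')‖ = s / dist (p n).1 (p n).2 := by
      rw [e1, norm_mul, norm_inv, Complex.norm_real, Complex.norm_real, Real.norm_eq_abs,
        Real.norm_eq_abs, abs_of_pos (hdpos n), abs_of_nonneg hs0]
      field_simp
    have e3 : ε ≤ s / dist (p n).1 (p n).2 := by
      rw [le_div_iff₀ (hdpos n)]
      exact (hp2 n).le
    have e4 : ‖(T (v n)).1 (ofReal o h h0 hL')‖ ≤
        ‖γ' (ofReal o h h0 hL')‖ + ‖(T (v n)).1 - γ'‖ := by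
      have : (T (v n)).1 (ofReal o h h0 hL') = γ' (ofReal o h h0 hL') +
          ((T (v n)).1 - γ') (ofReal o h h0 hL') := by
        rw [sub_apply]; ring
      rw [this]
      refine (norm_add_le _ _).trans (add_le_add_right ?_ _)
      calc ‖((T (v n)).1 - γ') (ofReal o h h0 hL')‖
          ≤ ‖(T (v n)).1 - γ'‖ * ‖ofReal o h h0 hL'‖ := ContinuousLinearMap.le_opNorm _ _
        _ ≤ ‖(T (v n)).1 - γ'‖ * 1 :=
            mul_le_mul_of_nonneg_left (ofReal_norm_le h h0 hL') (norm_nonneg _)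
        _ = _ := mul_one _
    have e5 := hC (ofReal o h h0 hL') s hb
    have e6 : s ≤ L * (1 / ((n : ℝ) + 1)) :=
      (hf _ _).trans (mul_le_mul_of_nonneg_left (hp1 n).le hL0)
    have e7 : C * s ≤ C * (L * (1 / ((n : ℝ) + 1))) := mul_le_mul_of_nonneg_left e6 hC0
    linarith
  -- pass to the limit
  have hlim1 : Tendsto (fun n => ‖(T (v (φ n))).1 - γ'‖) atTop (𝓝 ‖γ.1 - γ'‖) := by
    have h1 : Tendsto (fun n => (T (v (φ n))).1) atTop (𝓝 γ.1) :=
      (continuous_subtype_val.tendsto γ).comp hlim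
    exact (h1.sub_const γ').norm
  have hlim2 : Tendsto (fun n => C * (L * (1 / (((φ n : ℕ) : ℝ) + 1)))) atTop (𝓝 0) := by
    have h1 : Tendsto (fun n : ℕ => 1 / ((n : ℝ) + 1)) atTop (𝓝 0) :=
      tendsto_one_div_add_atTop_nhds_zero_nat
    have h2 := (h1.comp hφ.tendsto_atTop)
    have h3 := (h2.const_mul L).const_mul C
    simpa using h3
  have hfin := ge_of_tendsto' (hlim2.add hlim1) (fun n => key (φ n))
  linarith

/-- radial flatness -/
theorem radially_flat 
    (hT : ∀ x, T (dl o x) = dl o (f x)) (hc : IsCompactOperator T) {ε : ℝ} (hε : 0 < ε) :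
    ∃ R : ℝ, 0 < R ∧ ∀ x, R < dist x o → dist (f x) o ≤ ε * dist x o := by
  by_contra hcon
  push Not at hcon
  have hseq : ∀ n : ℕ, ∃ x : M, (n : ℝ) + 1 < dist x o ∧ ε * dist x o < dist (f x) o := by
    intro n
    exact hcon ((n : ℝ) + 1) (by positivity)
  choose x hx1 hx2 using hseq
  have hdpos : ∀ n, 0 < dist (x n) o := fun n => lt_trans (by positivity) (hx1 n)
  set v : ℕ → FreeSpace M o := fun n =>
    ((dist (x n) o : ℝ) : ℂ)⁻¹ • (dl o (x n)) with hv
  have hvn : ∀ n, v n ∈ Metric.closedBall (0 : FreeSpace M o) 1 := by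
    intro n
    rw [mem_closedBall_zero_iff, hv]
    simp only
    rw [norm_smul, norm_inv, Complex.norm_real, Real.norm_eq_abs, abs_of_pos (hdpos n),
      inv_mul_le_iff₀ (hdpos n), mul_one]
    exact dl_norm_le _
  obtain ⟨K, hK, hK'⟩ := hc.image_closedBall_subset_compact 1
  obtain ⟨γ, -, φ, hφ, hlim⟩ := hK.tendsto_subseq (x := fun n => T (v n))
    (fun n => hK' ⟨v n, hvn n, rfl⟩)
  obtain ⟨γ', hγ', hγn⟩ := exists_approx γ (show (0 : ℝ) < ε / 4 by positivity)
  obtain ⟨ρ, hρ0, hρ⟩ := span_support hγ'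
  let h : M → ℝ := fun z => max (dist z o - ρ) 0
  have hL' : ∀ a b, |h a - h b| ≤ dist a b := by
    intro a b
    have := abs_max_sub_max_le_max (dist a o - ρ) 0 (dist b o - ρ) 0
    rw [sub_self, abs_zero] at this
    have h2 := this.trans (max_le le_rfl (abs_nonneg _))
    have h3 : dist a o - ρ - (dist b o - ρ) = dist a o - dist b o := by ring
    rw [h3] at h2
    exact h2.trans (abs_dist_sub_le a b o)
  have h0 : h o = 0 := by simp [h, hρ0]
  have hz : γ' (ofReal o h h0 hL') = 0 := by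
    apply hρ
    intro z hz
    rw [ofReal_apply]
    have : h z = 0 := by
      simp only [h]
      exact max_eq_right (by linarith)
    rw [this, Complex.ofReal_zero]
  have key : ∀ n : ℕ, ε ≤ ρ * (1 / ((n : ℝ) + 1)) + ‖(T (v n)).1 - γ'‖ := by
    intro n
    have e1 : (T (v n)).1 (ofReal o h h0 hL') =
        ((dist (x n) o : ℝ) : ℂ)⁻¹ * (h (f (x n)) : ℂ) := by
      have : T (v n) = ((dist (x n) o : ℝ) : ℂ)⁻¹ • (dl o (f (x n))) := by
        rw [hv]
        simp only
        rw [map_smul, hT]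
      rw [this]
      rfl
    have hh0 : 0 ≤ h (f (x n)) := le_max_right _ _
    have e2 : ‖(T (v n)).1 (ofReal o h h0 hL')‖ = h (f (x n)) / dist (x n) o := by
      rw [e1, norm_mul, norm_inv, Complex.norm_real, Complex.norm_real, Real.norm_eq_abs,
        Real.norm_eq_abs, abs_of_pos (hdpos n), abs_of_nonneg hh0]
      field_simp
    have e3 : ε - ρ * (1 / ((n : ℝ) + 1)) ≤ h (f (x n)) / dist (x n) o := by
      have a1 : dist (f (x n)) o - ρ ≤ h (f (x n)) := le_max_left _ _
      have a2 : ε ≤ dist (f (x n)) o / dist (x n) o := by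
        rw [le_div_iff₀ (hdpos n)]; exact (hx2 n).le
      have a3 : ρ / dist (x n) o ≤ ρ * (1 / ((n : ℝ) + 1)) := by
        rw [div_eq_mul_one_div]
        apply mul_le_mul_of_nonneg_left _ hρ0
        exact one_div_le_one_div_of_le (by positivity) (hx1 n).le
      have a4 : (dist (f (x n)) o - ρ) / dist (x n) o ≤ h (f (x n)) / dist (x n) o :=
        div_le_div_of_nonneg_right a1 (hdpos n).le
      rw [sub_div] at a4
      linarith
    have e4 : ‖(T (v n)).1 (ofReal o h h0 hL')‖ ≤ ‖(T (v n)).1 - γ'‖ := by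
      have : (T (v n)).1 (ofReal o h h0 hL') = ((T (v n)).1 - γ') (ofReal o h h0 hL') := by
        rw [sub_apply, hz, sub_zero]
      rw [this]
      calc ‖((T (v n)).1 - γ') (ofReal o h h0 hL')‖
          ≤ ‖(T (v n)).1 - γ'‖ * ‖ofReal o h h0 hL'‖ := ContinuousLinearMap.le_opNorm _ _
        _ ≤ ‖(T (v n)).1 - γ'‖ * 1 :=
            mul_le_mul_of_nonneg_left (ofReal_norm_le h h0 hL') (norm_nonneg _)
        _ = _ := mul_one _
    linarith
  have hlim1 : Tendsto (fun n => ‖(T (v (φ n))).1 - γ'‖) atTop (𝓝 ‖γ.1 - γ'‖) := by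
    have h1 : Tendsto (fun n => (T (v (φ n))).1) atTop (𝓝 γ.1) :=
      (continuous_subtype_val.tendsto γ).comp hlim
    exact (h1.sub_const γ').norm
  have hlim2 : Tendsto (fun n => ρ * (1 / (((φ n : ℕ) : ℝ) + 1))) atTop (𝓝 0) := by
    have h1 : Tendsto (fun n : ℕ => 1 / ((n : ℝ) + 1)) atTop (𝓝 0) :=
      tendsto_one_div_add_atTop_nhds_zero_nat
    have h2 := (h1.comp hφ.tendsto_atTop)
    have h3 := (h2.const_mul ρ)
    simpa using h3
  have hfin := ge_of_tendsto' (hlim2.add hlim1) (fun n => key (φ n))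
  linarith

/-- `f` maps bounded sequences to sequences with convergent subsequences -/
theorem compact_image [CompleteSpace M]
    (hT : ∀ x, T (dl o x) = dl o (f x)) (hc : IsCompactOperator T) {R : ℝ} {x : ℕ → M}
    (hx : ∀ n, dist (x n) o ≤ R) :
    ∃ (y : M) (φ : ℕ → ℕ), StrictMono φ ∧ Tendsto (fun n => f (x (φ n))) atTop (𝓝 y) := by
  obtain ⟨K, hK, hK'⟩ := hc.image_closedBall_subset_compact R
  obtain ⟨γ, -, φ, hφ, hlim⟩ := hK.tendsto_subseq (x := fun n => T (dl o (x n)))
    (fun n => hK' ⟨dl o (x n), by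
      rw [mem_closedBall_zero_iff]; exact (dl_norm_le _).trans (hx n), rfl⟩)
  have hcau := hlim.cauchySeq
  have : CauchySeq (fun n => f (x (φ n))) := by
    rw [Metric.cauchySeq_iff] at hcau ⊢
    intro ε hε
    obtain ⟨N, hN⟩ := hcau ε hε
    refine ⟨N, fun m hm n hn => ?_⟩
    have h1 := hN m hm n hn
    simp only [Function.comp] at h1
    rw [hT, hT, dist_eq_norm] at h1
    exact (le_dl_sub_norm _ _).trans_lt h1
  obtain ⟨y, hy⟩ := cauchySeq_tendsto_of_complete this
  exact ⟨y, φ, hφ, hy⟩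

end Compact

end Pool.Agent.V11211.LipFree
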