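import Mathlib
import Pool.Agent.V11211.LipFree
import Pool.Agent.V11211.LipAbs

/-!
The closed span of the evaluations in the dual of `Lip₀(M)` satisfies `IsLipFree`.
-/

open Filter Topology Metric Set

namespace Pool.Agent.V11211.LipModel

open Pool.Agent.V11211.LipFree

variable {M : Type*} [MetricSpace M] {o : M}

/-- evaluation of an element of the free space at `g` -/
noncomputable def ev (g : Lip0 M o) : FreeSpace M o →ₗ[ℂ] ℂ where
  toFun v := v.1 g
  map_add' _ _ := rfl
  map_smul' _ _ := rfl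

theorem val_sum (a : M →₀ ℂ) (g : Lip0 M o) :
    ev g (a.sum fun x c => c • dl o x) = a.sum fun x c => c * g.1 x := by
  rw [map_finsuppSum]
  apply Finset.sum_congr rfl
  intro x _
  simp only
  rw [map_smul]
  rfl

theorem ev_le (g : Lip0 M o) (v : FreeSpace M o) : ‖ev g v‖ ≤ ‖v‖ * ‖g‖ := v.1.le_opNorm g

theorem isLipFree : Pool.Agent.V11211.LipAbs.IsLipFree o (dl o : M → FreeSpace M o) := by
  constructor
  · rw [eq_top_iff]
    intro v _
    change v ∈ closure ((Submodule.span ℂ (Set.range (dl o : M → FreeSpace M o)) :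
      Submodule ℂ (FreeSpace M o)) : Set (FreeSpace M o))
    rw [Metric.mem_closure_iff]
    intro ε hε
    obtain ⟨γ', hγ', hn⟩ := exists_approx v hε
    have hspan : ∀ γ' ∈ Submodule.span ℂ (Set.range (delta o : M → (Lip0 M o →L[ℂ] ℂ))),
        ∃ v ∈ Submodule.span ℂ (Set.range (dl o : M → FreeSpace M o)), v.1 = γ' := by
      intro γ' hγ'
      induction hγ' using Submodule.span_induction with
      | mem ψ h =>
        obtain ⟨x, rfl⟩ := h
        exact ⟨dl o x, Submodule.subset_span ⟨x, rfl⟩, rfl⟩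
      | zero => exact ⟨0, Submodule.zero_mem _, rfl⟩
      | add a b _ _ ha hb =>
        obtain ⟨v, hv1, hv2⟩ := ha
        obtain ⟨w, hw1, hw2⟩ := hb
        exact ⟨v + w, Submodule.add_mem _ hv1 hw1, by rw [← hv2, ← hw2]; rfl⟩
      | smul a ψ _ h1 =>
        obtain ⟨v, hv1, hv2⟩ := h1
        exact ⟨a • v, Submodule.smul_mem _ a hv1, by rw [← hv2]; rfl⟩
    obtain ⟨w, hw1, hw2⟩ := hspan γ' hγ'
    refine ⟨w, hw1, ?_⟩
    rw [dist_eq_norm]
    change ‖v.1 - w.1‖ < ε
    rw [hw2]
    exact hn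
  · intro a
    set v : FreeSpace M o := a.sum fun x c => c • dl o x with hv
    have hnv : ‖v‖ = ‖v.1‖ := rfl
    constructor
    · rintro t ⟨g, hg0, hg, rfl⟩
      let G : Lip0 M o := ⟨g, hg0, 1, fun x y => by rw [one_mul]; exact hg x y⟩
      have hG : ‖G‖ ≤ 1 := Lip0.norm_le zero_le_one (fun x y => by rw [one_mul]; exact hg x y)
      have h1 := ev_le G v
      rw [hv, val_sum, ← hv] at h1
      calc ‖a.sum fun x c => c * g x‖ ≤ ‖v‖ * ‖G‖ := h1
        _ ≤ ‖v‖ * 1 := mul_le_mul_of_nonneg_left hG (norm_nonneg _)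
        _ = ‖v‖ := mul_one _
    · intro B hB
      have hB0 : 0 ≤ B := by
        have h1 : (0 : ℝ) ∈ {t : ℝ | ∃ g : M → ℂ, g o = 0 ∧ (∀ x y, ‖g x - g y‖ ≤ dist x y) ∧
            t = ‖a.sum fun x c => c * g x‖} :=
          ⟨fun _ => 0, rfl, fun x y => by simp, by simp⟩
        exact hB h1
      rw [hnv]
      apply ContinuousLinearMap.opNorm_le_bound _ hB0
      intro g
      change ‖ev g v‖ ≤ B * ‖g‖
      by_cases hg : ‖g‖ = 0
      · have h1 := ev_le g v
        rw [hg, mul_zero] at h1 ⊢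
        exact h1
      · have hpos : 0 < ‖g‖ := lt_of_le_of_ne (norm_nonneg _) (Ne.symm hg)
        have h1 : ‖a.sum fun x c => c * ((‖g‖ : ℂ)⁻¹ * g.1 x)‖ ≤ B := by
          apply hB
          refine ⟨fun x => (‖g‖ : ℂ)⁻¹ * g.1 x, ?_, ?_, rfl⟩
          · have h0 : g.1 o = 0 := g.2.1
            simp only [h0, mul_zero]
          · intro x y
            rw [← mul_sub, norm_mul, norm_inv, Complex.norm_real, norm_norm,
              inv_mul_le_iff₀ hpos]
            exact Lip0.bound g x y
        have h2 : (a.sum fun x c => c * ((‖g‖ : ℂ)⁻¹ * g.1 x)) =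
            (‖g‖ : ℂ)⁻¹ * a.sum fun x c => c * g.1 x := by
          rw [Finsupp.mul_sum]
          apply Finset.sum_congr rfl
          intro x _
          ring
        rw [h2, norm_mul, norm_inv, Complex.norm_real, norm_norm, inv_mul_le_iff₀ hpos,
          ← val_sum, ← hv, mul_comm] at h1
        exact h1

end Pool.Agent.V11211.LipModel
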