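import Mathlib
import Pool.Agent.V11211.LipAbs

/-!
Spectrum of compact Lipschitz operators.
-/

open Filter Topology Metric Set

namespace Pool.Agent.V11211.LipSpec

open Pool.Agent.V11211.LipAbs

section Dual

variable {X : Type*} [NormedAddCommGroup X] [NormedSpace ℂ X]

/-- precomposition with `T` on the dual -/
noncomputable def dualMap (T : X →L[ℂ] X) : (X →L[ℂ] ℂ) →L[ℂ] (X →L[ℂ] ℂ) :=
  (ContinuousLinearMap.compL ℂ X X ℂ).flip T

theorem dualMap_apply (T : X →L[ℂ] X) (φ : X →L[ℂ] ℂ) (x : X) : dualMap T φ x = φ (T x) := rfl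

/-- Schauder's theorem, one direction -/
theorem dual_compact (T : X →L[ℂ] X) (hT : IsCompactOperator T) :
    IsCompactOperator (dualMap T) := by
  refine (isCompactOperator_iff_isCompact_closure_image_closedBall
    (dualMap T : (X →L[ℂ] ℂ) →ₗ[ℂ] (X →L[ℂ] ℂ)) one_pos).2 ?_
  refine TotallyBounded.isCompact_of_isClosed ?_ isClosed_closure
  apply TotallyBounded.closure
  apply Metric.totallyBounded_of_finite_discretization
  intro ε hε
  have hTB : TotallyBounded (T '' Metric.closedBall (0 : X) 1) :=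
    (hT.isCompact_closure_image_closedBall 1).totallyBounded.subset subset_closure
  obtain ⟨t, htfin, ht⟩ := Metric.totallyBounded_iff.1 hTB (ε / 8) (by positivity)
  have := htfin.fintype
  let Ψ : (X →L[ℂ] ℂ) →L[ℂ] (t → ℂ) :=
    ContinuousLinearMap.pi fun v : t => ContinuousLinearMap.apply ℂ ℂ (v : X)
  have hΨ : ∀ (φ : X →L[ℂ] ℂ) (v : t), Ψ φ v = φ v := fun _ _ => rfl
  have hB : TotallyBounded (Ψ '' Metric.closedBall (0 : X →L[ℂ] ℂ) 1) := by
    have h1 : Bornology.IsBounded (Ψ '' Metric.closedBall (0 : X →L[ℂ] ℂ) 1) :=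
      Ψ.lipschitz.isBounded_image Metric.isBounded_closedBall
    exact h1.isCompact_closure.totallyBounded.subset subset_closure
  obtain ⟨c, hcfin, hc⟩ := Metric.totallyBounded_iff.1 hB (ε / 8) (by positivity)
  have hchoose : ∀ y : ((dualMap T) '' Metric.closedBall (0 : X →L[ℂ] ℂ) 1 : Set (X →L[ℂ] ℂ)),
      ∃ φ : X →L[ℂ] ℂ, φ ∈ Metric.closedBall (0 : X →L[ℂ] ℂ) 1 ∧ dualMap T φ = y.1 := by
    rintro ⟨y, φ, h1, h2⟩
    exact ⟨φ, h1, h2⟩
  choose Φ hΦ1 hΦ2 using hchoose
  have hw : ∀ y : ((dualMap T) '' Metric.closedBall (0 : X →L[ℂ] ℂ) 1 : Set (X →L[ℂ] ℂ)),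
      ∃ w : c, dist (Ψ (Φ y)) w < ε / 8 := by
    intro y
    have h1 := hc ⟨Φ y, hΦ1 y, rfl⟩
    simp only [mem_iUnion, Metric.mem_ball] at h1
    obtain ⟨w, hw, h2⟩ := h1
    exact ⟨⟨w, hw⟩, h2⟩
  choose F hF using hw
  refine ⟨c, hcfin.fintype, F, ?_⟩
  intro x y hxy
  have hclose : ∀ v : t, ‖Φ x v - Φ y v‖ ≤ ε / 4 := by
    intro v
    have h1 : dist (Ψ (Φ x) v) (Ψ (Φ y) v) ≤ dist (Ψ (Φ x)) (Ψ (Φ y)) := dist_le_pi_dist _ _ v
    have h2 : dist (Ψ (Φ x)) (Ψ (Φ y)) ≤ dist (Ψ (Φ x)) (F x) + dist (Ψ (Φ y)) (F x) :=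
      dist_triangle_right _ _ _
    have h3 := hF x
    have h4 := hF y
    rw [← hxy] at h4
    rw [hΨ, hΨ, dist_eq_norm] at h1
    linarith
  have hnorm : ‖(x : X →L[ℂ] ℂ) - y‖ ≤ ε / 2 := by
    apply ContinuousLinearMap.opNorm_le_of_unit_norm (by positivity)
    intro u hu
    have hu' : u ∈ Metric.closedBall (0 : X) 1 := by simp [hu]
    have h1 := ht ⟨u, hu', rfl⟩
    simp only [mem_iUnion, Metric.mem_ball] at h1
    obtain ⟨v, hv, h2⟩ := h1
    rw [dist_eq_norm] at h2
    have e1 : ((x : X →L[ℂ] ℂ) - y) u = (Φ x - Φ y) (T u - v) + (Φ x v - Φ y v) := by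
      rw [← hΦ2 x, ← hΦ2 y]
      simp only [sub_apply, dualMap_apply, map_sub]
      ring
    rw [e1]
    have e2 : ‖(Φ x - Φ y) (T u - v)‖ ≤ 2 * (ε / 8) := by
      have hn : ‖Φ x - Φ y‖ ≤ 2 := by
        have a1 := hΦ1 x
        have a2 := hΦ1 y
        rw [mem_closedBall_zero_iff] at a1 a2
        have := norm_sub_le (Φ x) (Φ y)
        linarith
      calc ‖(Φ x - Φ y) (T u - v)‖ ≤ ‖Φ x - Φ y‖ * ‖T u - v‖ := ContinuousLinearMap.le_opNorm _ _
        _ ≤ 2 * (ε / 8) := mul_le_mul hn h2.le (norm_nonneg _) (by norm_num)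
    have e3 := hclose ⟨v, hv⟩
    have e4 := norm_add_le ((Φ x - Φ y) (T u - v)) (Φ x v - Φ y v)
    simp only at e3
    linarith
  rw [dist_eq_norm]
  linarith

/-- an eigenvector of a compact operator yields an eigenvector of the adjoint -/
theorem exists_dual_eigen {T : X →L[ℂ] X} (hT : IsCompactOperator T) {lam : ℂ}
    (hl : lam ≠ 0) {γ : X} (hγ : γ ≠ 0) (h : T γ = lam • γ) :
    ∃ φ : X →L[ℂ] ℂ, φ ≠ 0 ∧ ∀ x, φ (T x) = lam * φ x := by
  rcases (dual_compact T hT).hasEigenvalue_or_mem_resolventSet hl with h1 | h1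
  · obtain ⟨φ, hφ⟩ := h1.exists_hasEigenvector
    refine ⟨φ, hφ.2, fun x => ?_⟩
    have h2 : dualMap T φ = lam • φ := hφ.apply_eq_smul
    have h3 := congrArg (fun ψ : X →L[ℂ] ℂ => ψ x) h2
    exact h3
  · exfalso
    rw [spectrum.mem_resolventSet_iff] at h1
    obtain ⟨u, hu⟩ := h1
    rw [Algebra.algebraMap_eq_smul_one] at hu
    obtain ⟨φ, -, hφ⟩ := exists_dual_vector ℂ γ (norm_ne_zero_iff.2 hγ)
    have h2 : (u : (X →L[ℂ] ℂ) →L[ℂ] (X →L[ℂ] ℂ)) ((↑u⁻¹ : (X →L[ℂ] ℂ) →L[ℂ] (X →L[ℂ] ℂ)) φ) = φ :=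
      congrArg (fun S : (X →L[ℂ] ℂ) →L[ℂ] (X →L[ℂ] ℂ) => S φ) u.mul_inv
    set ψ := (↑u⁻¹ : (X →L[ℂ] ℂ) →L[ℂ] (X →L[ℂ] ℂ)) φ
    rw [hu] at h2
    have h3 : lam * ψ γ - ψ (T γ) = φ γ := congrArg (fun ψ : X →L[ℂ] ℂ => ψ γ) h2
    rw [h, map_smul, smul_eq_mul, sub_self, hφ] at h3
    have h6 : ‖γ‖ = 0 := by
      have h7 : ((‖γ‖ : ℝ) : ℂ) = 0 := h3.symm
      exact Complex.ofReal_eq_zero.1 h7
    exact hγ (norm_eq_zero.1 h6)

end Dual

section Orbits

variable {M : Type*} [MetricSpace M] {f : M → M} {o : M}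

theorem iter_contract {ε r : ℝ} (hε0 : 0 ≤ ε) (hε1 : ε ≤ 1)
    (hflat : ∀ x y, dist x y < r → dist (f x) (f y) ≤ ε * dist x y) {x y : M}
    (h : dist x y < r) (j : ℕ) : dist (f^[j] x) (f^[j] y) ≤ ε ^ j * dist x y := by
  induction j with
  | zero => simp
  | succ j ih =>
    rw [Function.iterate_succ_apply', Function.iterate_succ_apply']
    have h1 : ε ^ j * dist x y ≤ dist x y := by
      have : ε ^ j ≤ 1 := pow_le_one₀ hε0 hε1
      nlinarith [dist_nonneg (x := x) (y := y)]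
    have h2 := hflat _ _ (lt_of_le_of_lt (ih.trans h1) h)
    calc dist (f (f^[j] x)) (f (f^[j] y)) ≤ ε * dist (f^[j] x) (f^[j] y) := h2
      _ ≤ ε * (ε ^ j * dist x y) := mul_le_mul_of_nonneg_left ih hε0
      _ = ε ^ (j + 1) * dist x y := by ring

theorem absorb {L R : ℝ} (hL0 : 0 ≤ L) (hf : ∀ x y, dist (f x) (f y) ≤ L * dist x y)
    (hfo : f o = o) (hR : 0 < R)
    (hrad : ∀ x, R < dist x o → dist (f x) o ≤ 1 / 2 * dist x o) (x : M) :
    ∃ N : ℕ, ∀ n ≥ N, dist (f^[n] x) o ≤ max R (L * R) := by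
  set R' := max R (L * R) with hR'
  have hR'pos : 0 < R' := lt_of_lt_of_le hR (le_max_left _ _)
  have hstep : ∀ y, dist (f y) o ≤ max R' (1 / 2 * dist y o) := by
    intro y
    by_cases hy : dist y o ≤ R
    · apply le_max_of_le_left
      calc dist (f y) o = dist (f y) (f o) := by rw [hfo]
        _ ≤ L * dist y o := hf _ _
        _ ≤ L * R := mul_le_mul_of_nonneg_left hy hL0
        _ ≤ R' := le_max_right _ _
    · push Not at hy
      exact le_max_of_le_right (hrad y hy)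
  have hall : ∀ n : ℕ, dist (f^[n] x) o ≤ max R' ((1 / 2) ^ n * dist x o) := by
    intro n
    induction n with
    | zero => simp
    | succ n ih =>
      rw [Function.iterate_succ_apply']
      refine (hstep _).trans ?_
      apply max_le (le_max_left _ _)
      rcases le_max_iff.1 ih with h | h
      · apply le_max_of_le_left; linarith
      · apply le_max_of_le_right
        rw [pow_succ]
        linarith
  have hlim : Tendsto (fun n : ℕ => (1 / 2 : ℝ) ^ n * dist x o) atTop (𝓝 (0 * dist x o)) :=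
    (tendsto_pow_atTop_nhds_zero_of_lt_one (by norm_num) (by norm_num)).mul_const _
  rw [zero_mul] at hlim
  obtain ⟨N, hN⟩ := eventually_atTop.1 (hlim.eventually (gt_mem_nhds hR'pos))
  refine ⟨N, fun n hn => ?_⟩
  exact (hall n).trans (max_le le_rfl (hN n hn).le)

/-- every orbit gets close to a periodic point -/
theorem near_periodic [CompleteSpace M] {L R : ℝ} (hL0 : 0 ≤ L)
    (hf : ∀ x y, dist (f x) (f y) ≤ L * dist x y)
    (hfo : f o = o) (hR : 0 < R)
    (hrad : ∀ x, R < dist x o → dist (f x) o ≤ 1 / 2 * dist x o)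
    (hcomp : ∀ (R : ℝ) (x : ℕ → M), (∀ n, dist (x n) o ≤ R) →
      ∃ (y : M) (φ : ℕ → ℕ), StrictMono φ ∧ Tendsto (fun n => f (x (φ n))) atTop (𝓝 y))
    {ε r : ℝ} (hε0 : 0 ≤ ε) (hε1 : ε ≤ 1 / 2) (hr : 0 < r)
    (hflat : ∀ x y, dist x y < r → dist (f x) (f y) ≤ ε * dist x y) (x : M) :
    ∃ (n : ℕ) (p : ℕ) (k : M), 0 < p ∧ f^[p] k = k ∧ dist (f^[n] x) k < r := by
  obtain ⟨N, hN⟩ := absorb hL0 hf hfo hR hrad x
  obtain ⟨y, φ, hφ, hlim⟩ := hcomp (max R (L * R)) (fun n => f^[N + n] x)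
    (fun n => hN _ (Nat.le_add_right _ _))
  have hcau := hlim.cauchySeq
  rw [Metric.cauchySeq_iff] at hcau
  obtain ⟨m, hm⟩ := hcau (r / 4) (by positivity)
  have h1 := hm m le_rfl (m + 1) (Nat.le_succ _)
  rw [← Function.iterate_succ_apply' f, ← Function.iterate_succ_apply' f] at h1
  have hlt : φ m < φ (m + 1) := hφ (Nat.lt_succ_self m)
  set n0 := N + φ m + 1 with hn0
  set p := φ (m + 1) - φ m with hp
  have hp0 : 0 < p := by omega
  have hsum : N + φ (m + 1) + 1 = p + n0 := by omega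
  set z := f^[n0] x with hz
  have h2 : dist z (f^[p] z) < r / 4 := by
    have : f^[(N + φ (m + 1)).succ] x = f^[p] z := by
      rw [hz, ← Function.iterate_add_apply, ← hsum]
    rw [this] at h1
    exact h1
  have hcont : Continuous f := by
    have : LipschitzWith (Real.toNNReal L) f := LipschitzWith.of_dist_le_mul fun a b => by
      rw [Real.coe_toNNReal _ hL0]; exact hf a b
    exact this.continuous
  -- the sequence
  have hgeo : ∀ j : ℕ, dist (f^[p * j] z) (f^[p * (j + 1)] z) ≤ (r / 2) / 2 / 2 ^ j := by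
    intro j
    have e1 : f^[p * (j + 1)] z = f^[p * j] (f^[p] z) := by
      rw [mul_add, mul_one]
      exact Function.iterate_add_apply f (p * j) p z
    rw [e1]
    have e2 := iter_contract hε0 (by linarith) hflat (lt_trans h2 (by linarith)) (p * j)
    have e3 : ε ^ (p * j) ≤ (1 / 2) ^ j := by
      calc ε ^ (p * j) ≤ (1 / 2) ^ (p * j) := pow_le_pow_left₀ hε0 hε1 _
        _ ≤ (1 / 2) ^ j := pow_le_pow_of_le_one (by norm_num) (by norm_num)
            (Nat.le_mul_of_pos_left j hp0)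
    calc dist (f^[p * j] z) (f^[p * j] (f^[p] z)) ≤ ε ^ (p * j) * dist z (f^[p] z) := e2
      _ ≤ (1 / 2) ^ j * (r / 4) := mul_le_mul e3 h2.le dist_nonneg (by positivity)
      _ = (r / 2) / 2 / 2 ^ j := by
        rw [one_div, inv_pow]
        field_simp
        ring
  have hcs := cauchySeq_of_le_geometric_two hgeo
  obtain ⟨k, hk⟩ := cauchySeq_tendsto_of_complete hcs
  have hdk := dist_le_of_le_geometric_two_of_tendsto₀ hgeo hk
  refine ⟨n0, p, k, hp0, ?_, ?_⟩
  · have c1 : Tendsto (fun j => f^[p * (j + 1)] z) atTop (𝓝 k) :=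
      hk.comp (tendsto_add_atTop_nat 1)
    have c2 : Tendsto (fun j => f^[p] (f^[p * j] z)) atTop (𝓝 (f^[p] k)) :=
      ((hcont.iterate p).tendsto k).comp hk
    have c3 : (fun j => f^[p] (f^[p * j] z)) = fun j => f^[p * (j + 1)] z := by
      funext j
      rw [← Function.iterate_add_apply]
      congr 1
      ring
    rw [c3] at c2
    exact tendsto_nhds_unique c2 c1
  · simp only [mul_zero, Function.iterate_zero, id_eq] at hdk
    rw [hz] at hdk
    linarith

end Orbits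

/-- `A(f)`: the orders of the periodic points of `f` other than the base point -/
def orders {M : Type*} (f : M → M) (o : M) : Set ℕ :=
  {n | 1 ≤ n ∧ ∃ x, x ≠ o ∧ f^[n] x = x ∧ ∀ k, 1 ≤ k → k < n → f^[k] x ≠ x}

section Final

variable {M : Type*} [MetricSpace M] [CompleteSpace M] {o : M}
variable {F : Type*} [NormedAddCommGroup F] [NormedSpace ℂ F] {δ : M → F}
variable {T : F →L[ℂ] F} {f : M → M}

theorem orders_finite {L : ℝ} (hL0 : 0 ≤ L) (hf : ∀ x y, dist (f x) (f y) ≤ L * dist x y)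
    (hfo : f o = o) (hF : FreeData o δ) (hT : ∀ x, T (δ x) = δ (f x)) (hc : IsCompactOperator T) :
    (orders f o).Finite := by
  by_contra hinf
  have hinf' : (orders f o).Infinite := hinf
  obtain ⟨R, hR, hrad⟩ := radially_flat hF hT hc (ε := 1 / 2) (by norm_num)
  obtain ⟨r, hr, hflat⟩ := locally_flat hF hL0 hf hT hc (ε := 1 / 2) (by norm_num)
  let e := hinf'.natEmbedding
  have hpt : ∀ i : ℕ, ∃ x : M, f^[(e i : ℕ)] x = x ∧
      ∀ k, 1 ≤ k → k < (e i : ℕ) → f^[k] x ≠ x := by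
    intro i
    obtain ⟨-, x, -, h1, h2⟩ := (e i).2
    exact ⟨x, h1, h2⟩
  choose x hx1 hx2 using hpt
  have he1 : ∀ i, 1 ≤ (e i : ℕ) := fun i => (e i).2.1
  -- distinct
  have hne : ∀ i j, i ≠ j → x i ≠ x j := by
    intro i j hij hxx
    have hij' : (e i : ℕ) ≠ (e j : ℕ) := by
      intro h
      exact hij (e.injective (Subtype.ext h))
    rcases lt_or_gt_of_ne hij' with h | h
    · exact hx2 j (e i) (he1 i) h (by rw [← hxx]; exact hx1 i)
    · exact hx2 i (e j) (he1 j) h (by rw [hxx]; exact hx1 j)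
  -- preimages inside the absorbing ball
  have hback : ∀ i, ∃ y, f y = x i ∧ dist y o ≤ max R (L * R) := by
    intro i
    obtain ⟨N, hN⟩ := absorb hL0 hf hfo hR hrad (x i)
    set q := (e i : ℕ) with hq
    have hper : ∀ m : ℕ, f^[q * m] (x i) = x i := by
      intro m
      rw [Function.iterate_mul]
      exact Function.iterate_fixed (hx1 i) m
    have hpos : 1 ≤ q * (N + 1) := Nat.mul_pos (he1 i) (Nat.succ_pos _)
    refine ⟨f^[q * (N + 1) - 1] (x i), ?_, ?_⟩
    · rw [← Function.iterate_succ_apply' f, Nat.succ_eq_add_one, Nat.sub_add_cancel hpos]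
      exact hper _
    · apply hN
      have : N + 1 ≤ q * (N + 1) := Nat.le_mul_of_pos_left _ (he1 i)
      omega
  choose y hy1 hy2 using hback
  obtain ⟨w, φ, hφ, hlim⟩ := compact_image hF hT hc hy2
  have hcau := hlim.cauchySeq
  rw [Metric.cauchySeq_iff] at hcau
  obtain ⟨m, hm⟩ := hcau r hr
  have h1 := hm m le_rfl (m + 1) (Nat.le_succ _)
  simp only [hy1] at h1
  set a := φ m with ha
  set b := φ (m + 1) with hb
  have hab : a ≠ b := (hφ (Nat.lt_succ_self m)).ne
  have h2 := iter_contract (f := f) (by norm_num) (by norm_num) hflat h1 ((e a : ℕ) * (e b : ℕ))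
  have ea : f^[(e a : ℕ) * (e b : ℕ)] (x a) = x a := by
    rw [Function.iterate_mul]
    exact Function.iterate_fixed (hx1 a) _
  have eb : f^[(e a : ℕ) * (e b : ℕ)] (x b) = x b := by
    rw [mul_comm, Function.iterate_mul]
    exact Function.iterate_fixed (hx1 b) _
  rw [ea, eb] at h2
  have hd : 0 < dist (x a) (x b) := dist_pos.2 (hne a b hab)
  have hpow : (1 / 2 : ℝ) ^ ((e a : ℕ) * (e b : ℕ)) < 1 := by
    apply pow_lt_one₀ (by norm_num) (by norm_num)
    exact (Nat.mul_pos (he1 a) (he1 b)).ne'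
  nlinarith

theorem eigen_mem {L : ℝ} (hL0 : 0 ≤ L) (hf : ∀ x y, dist (f x) (f y) ≤ L * dist x y)
    (hfo : f o = o) (hF : FreeData o δ) (hT : ∀ x, T (δ x) = δ (f x)) (hc : IsCompactOperator T)
    {lam : ℂ} (hl : lam ≠ 0) {γ : F} (hγ : γ ≠ 0) (h : T γ = lam • γ) :
    ∃ n ∈ orders f o, lam ^ n = 1 := by
  obtain ⟨φ, hφ0, hφ⟩ := exists_dual_eigen hc hl hγ h
  have hlpos : 0 < ‖lam‖ := norm_pos_iff.2 hl
  -- the eigenfunction
  have hex : ∃ x, φ (δ x) ≠ 0 := by
    by_contra hcon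
    push Not at hcon
    apply hφ0
    have hspan : ∀ γ' ∈ Submodule.span ℂ (Set.range δ), φ γ' = 0 := by
      intro γ' hγ'
      induction hγ' using Submodule.span_induction with
      | mem ψ h =>
        obtain ⟨x, rfl⟩ := h
        exact hcon x
      | zero => exact map_zero φ
      | add a b _ _ ha hb => rw [map_add, ha, hb, add_zero]
      | smul a ψ _ h1 => rw [map_smul, h1, smul_zero]
    ext v
    change φ v = 0
    by_contra hne
    have hpos : 0 < ‖φ v‖ := norm_pos_iff.2 hne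
    obtain ⟨w, hγ', h1⟩ := hF.dense v (‖φ v‖ / (‖φ‖ + 1)) (by positivity)
    have hw2 := hspan w hγ'
    have h2 : ‖φ v‖ ≤ ‖φ‖ * ‖v - w‖ := by
      have : φ v = φ (v - w) := by rw [map_sub, hw2, sub_zero]
      rw [this]
      exact φ.le_opNorm _
    rw [lt_div_iff₀ (by positivity)] at h1
    nlinarith [norm_nonneg φ, norm_nonneg (v - w)]
  obtain ⟨x₀, hx₀⟩ := hex
  set g : M → ℂ := fun x => φ (δ x) with hg
  have hg1 : ∀ x, g (f x) = lam * g x := by
    intro x
    simp only [hg]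
    rw [← hT, hφ]
  have hgn : ∀ (n : ℕ) x, g (f^[n] x) = lam ^ n * g x := by
    intro n
    induction n with
    | zero => intro x; simp
    | succ n ih =>
      intro x
      rw [Function.iterate_succ_apply', hg1, ih, pow_succ]
      ring
  have hgL : ∀ x y, ‖g x - g y‖ ≤ ‖φ‖ * dist x y := by
    intro x y
    simp only [hg]
    rw [← map_sub]
    exact (φ.le_opNorm _).trans (mul_le_mul_of_nonneg_left (hF.lip x y) (norm_nonneg _))
  have hgo : g o = 0 := by
    simp only [hg]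
    rw [hF.base, map_zero]
  -- constants
  set ε := min (1 / 2) (‖lam‖ / 2) with hε
  have hε0 : 0 < ε := lt_min (by norm_num) (by positivity)
  have hε1 : ε ≤ 1 / 2 := min_le_left _ _
  have hε2 : ε ≤ ‖lam‖ / 2 := min_le_right _ _
  obtain ⟨R, hR, hrad⟩ := radially_flat hF hT hc (ε := 1 / 2) (by norm_num)
  obtain ⟨r, hr, hflat⟩ := locally_flat hF hL0 hf hT hc hε0
  obtain ⟨n, p, k, hp, hk, hdist⟩ := near_periodic hL0 hf hfo hR hrad
    (fun R x hx => compact_image hF hT hc hx) hε0.le hε1 hr hflat x₀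
  have hgz : g (f^[n] x₀) = g k := by
    by_contra hne
    have hpos : 0 < ‖g (f^[n] x₀) - g k‖ := norm_pos_iff.2 (sub_ne_zero.2 hne)
    have hj : ∀ j : ℕ, ‖g (f^[n] x₀) - g k‖ ≤ ‖φ‖ * r * (1 / 2) ^ j := by
      intro j
      have h1 := hgL (f^[j] (f^[n] x₀)) (f^[j] k)
      rw [hgn j (f^[n] x₀), hgn j k, ← mul_sub, norm_mul, norm_pow] at h1
      have h2 := iter_contract hε0.le (by linarith) hflat hdist j
      have h3 : ‖lam‖ ^ j * ‖g (f^[n] x₀) - g k‖ ≤ ‖φ‖ * (ε ^ j * r) := by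
        refine h1.trans (mul_le_mul_of_nonneg_left (h2.trans ?_) (norm_nonneg _))
        exact mul_le_mul_of_nonneg_left hdist.le (by positivity)
      have h4 : ε ^ j ≤ (‖lam‖ / 2) ^ j := pow_le_pow_left₀ hε0.le hε2 j
      have h5 : ‖lam‖ ^ j * ‖g (f^[n] x₀) - g k‖ ≤ ‖lam‖ ^ j * (‖φ‖ * r * (1 / 2) ^ j) := by
        refine h3.trans ?_
        have : ‖lam‖ ^ j * (‖φ‖ * r * (1 / 2) ^ j) = ‖φ‖ * ((‖lam‖ / 2) ^ j * r) := by
          rw [div_pow, div_pow, one_pow]
          field_simp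
        rw [this]
        apply mul_le_mul_of_nonneg_left _ (norm_nonneg _)
        exact mul_le_mul_of_nonneg_right h4 hr.le
      exact le_of_mul_le_mul_left h5 (by positivity)
    have hlim : Tendsto (fun j : ℕ => ‖φ‖ * r * (1 / 2 : ℝ) ^ j) atTop (𝓝 (‖φ‖ * r * 0)) :=
      (tendsto_pow_atTop_nhds_zero_of_lt_one (by norm_num) (by norm_num)).const_mul _
    rw [mul_zero] at hlim
    have := ge_of_tendsto' hlim hj
    linarith
  have hgk : g k ≠ 0 := by
    rw [← hgz, hgn]
    exact mul_ne_zero (pow_ne_zero _ hl) hx₀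
  have hko : k ≠ o := by
    rintro rfl
    exact hgk hgo
  have hperk : Function.IsPeriodicPt f p k := hk
  have hmin : 0 < Function.minimalPeriod f k := hperk.minimalPeriod_pos hp
  refine ⟨Function.minimalPeriod f k, ⟨hmin, k, hko, Function.iterate_minimalPeriod, ?_⟩, ?_⟩
  · intro j hj1 hj2 hj3
    exact Function.not_isPeriodicPt_of_pos_of_lt_minimalPeriod (by omega) hj2 hj3
  · have h1 := hgn (Function.minimalPeriod f k) k
    rw [Function.iterate_minimalPeriod] at h1
    have h2 : (lam ^ Function.minimalPeriod f k - 1) * g k = 0 := by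
      rw [sub_mul, one_mul, ← h1, sub_self]
    rcases mul_eq_zero.1 h2 with h3 | h3
    · exact sub_eq_zero.1 h3
    · exact absurd h3 hgk

omit [CompleteSpace M] in
/-- eigenvectors from periodic points -/
theorem exists_eigen (hF : FreeData o δ) (hT : ∀ x, T (δ x) = δ (f x)) {n : ℕ} (hn : n ∈ orders f o)
    {z : ℂ} (hz : z ^ n = 1) : ∃ γ : F, γ ≠ 0 ∧ T γ = z • γ := by
  obtain ⟨hn1, x, hxo, hx1, hx2⟩ := hn
  have hz0 : z ≠ 0 := by
    rintro rfl
    rw [zero_pow (by omega)] at hz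
    exact zero_ne_one hz
  set a : ℕ → F := fun k => (z⁻¹) ^ k • δ (f^[k] x) with ha
  have hTa : ∀ k, T (a k) = z • a (k + 1) := by
    intro k
    simp only [ha]
    rw [map_smul, hT, Function.iterate_succ_apply', smul_smul, pow_succ]
    congr 1
    field_simp
  have han : a n = a 0 := by
    simp only [ha]
    rw [hx1, inv_pow, hz]
    simp
  refine ⟨∑ k ∈ Finset.range n, a k, ?_, ?_⟩
  · intro h0
    -- separating radius
    set S : Set M := insert o ((fun k => f^[k] x) '' {k | 1 ≤ k ∧ k < n}) with hS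
    have hSfin : S.Finite := by
      apply Set.Finite.insert
      apply Set.Finite.image
      exact (Set.finite_lt_nat n).subset fun k hk => hk.2
    have hxS : x ∈ Sᶜ := by
      rintro (h | ⟨k, hk, hk2⟩)
      · exact hxo h
      · exact hx2 k hk.1 hk.2 hk2
    obtain ⟨ρ, hρ, hball⟩ := Metric.isOpen_iff.1 hSfin.isClosed.isOpen_compl x hxS
    have hfar : ∀ y ∈ S, ρ ≤ dist y x := by
      intro y hy
      by_contra hlt
      push Not at hlt
      exact hball (Metric.mem_ball.2 hlt) hy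
    let h : M → ℝ := fun y => max (ρ - dist y x) 0
    have hL' : ∀ u v, |h u - h v| ≤ dist u v := by
      intro u v
      have := abs_max_sub_max_le_max (ρ - dist u x) 0 (ρ - dist v x) 0
      rw [sub_self, abs_zero] at this
      have h2 := this.trans (max_le le_rfl (abs_nonneg _))
      have h3 : ρ - dist u x - (ρ - dist v x) = -(dist u x - dist v x) := by ring
      rw [h3, abs_neg] at h2
      exact h2.trans (abs_dist_sub_le u v x)
    have hS0 : ∀ y ∈ S, h y = 0 := by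
      intro y hy
      simp only [h]
      exact max_eq_right (by linarith [hfar y hy])
    have hh0 : h o = 0 := hS0 o (Set.mem_insert _ _)
    have hhx : h x = ρ := by
      simp only [h]
      rw [dist_self, sub_zero]
      exact max_eq_left hρ.le
    obtain ⟨ψ, -, hψ⟩ := hF.extReal h hh0 hL'
    have h1 : ψ (∑ k ∈ Finset.range n, a k) =
        ∑ k ∈ Finset.range n, (z⁻¹) ^ k * (h (f^[k] x) : ℂ) := by
      rw [map_sum]
      apply Finset.sum_congr rfl
      intro k _
      simp only [ha]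
      rw [map_smul, hψ, smul_eq_mul]
    rw [h0, map_zero] at h1
    rw [Finset.sum_eq_single 0] at h1
    · simp only [pow_zero, Function.iterate_zero, id_eq, one_mul, hhx] at h1
      have h2 : (0 : ℂ) = (ρ : ℂ) := h1
      have h3 : ρ = 0 := by exact_mod_cast h2.symm
      linarith
    · intro k hk hk0
      rw [hS0 (f^[k] x) (Set.mem_insert_of_mem _ ⟨k, ⟨by omega, Finset.mem_range.1 hk⟩, rfl⟩)]
      simp
    · intro hnot
      exact absurd (Finset.mem_range.2 hn1) hnot
  · rw [map_sum]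
    simp only [hTa]
    rw [← Finset.smul_sum]
    congr 1
    have h1 := Finset.sum_range_succ a n
    have h2 := Finset.sum_range_succ' a n
    rw [h1, han] at h2
    exact (add_right_cancel h2).symm

theorem spectrum_eq [CompleteSpace F] {L : ℝ} (hL0 : 0 ≤ L) (hf : ∀ x y, dist (f x) (f y) ≤ L * dist x y)
    (hfo : f o = o) (hF : FreeData o δ) (hT : ∀ x, T (δ x) = δ (f x)) (hc : IsCompactOperator T) :
    {lam : ℂ | ¬ Function.Bijective (fun γ => T γ - lam • γ)} \ {0} =
      ⋃ n ∈ orders f o, {z : ℂ | z ^ n = 1} := by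
  ext lam
  simp only [Set.mem_sdiff, Set.mem_singleton_iff, mem_iUnion, exists_prop]
  constructor
  · rintro ⟨h1, hl⟩
    rcases hc.hasEigenvalue_or_mem_resolventSet hl with h2 | h2
    · obtain ⟨γ, hγ⟩ := h2.exists_hasEigenvector
      have h3 : T γ = lam • γ := hγ.apply_eq_smul
      exact eigen_mem hL0 hf hfo hF hT hc hl hγ.2 h3
    · exfalso
      apply h1
      rw [spectrum.mem_resolventSet_iff, ← IsUnit.neg_iff,
        ContinuousLinearMap.isUnit_iff_bijective] at h2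
      convert h2 using 1
      funext γ
      rw [neg_sub, Algebra.algebraMap_eq_smul_one]
      rfl
  · rintro ⟨n, hn, hz⟩
    have hz' : lam ^ n = 1 := hz
    obtain ⟨γ, hγ, h⟩ := exists_eigen hF hT hn hz'
    refine ⟨?_, ?_⟩
    · intro hbij
      apply hγ
      apply hbij.1
      simp [h]
    · rintro rfl
      rw [zero_pow (by have := hn.1; omega)] at hz'
      exact zero_ne_one hz'

end Final

end Pool.Agent.V11211.LipSpec
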