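import Mathlib

/-! Escaping discs along almost all rays: basic closure properties. -/

namespace Pool.Agent.V11211.WH

open Filter Topology

/-- For all but finitely many directions `e`, the sequence eventually leaves every disc of any
prescribed radius centred far out on the ray through `e`. -/
def Avoid (v : ℕ → ℂ) : Prop :=
  ∃ Bad : Set ℂ, Bad.Finite ∧ ∀ e : ℂ, ‖e‖ = 1 → e ∉ Bad → ∀ B : ℝ, ∃ t0 : ℝ, ∀ t : ℝ, t0 ≤ t →
    ∀ᶠ q in atTop, B < ‖v q - t * e‖

theorem circle_infinite : {e : ℂ | ‖e‖ = 1}.Infinite := by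
  have h : Set.InjOn (fun θ : ℝ => Complex.exp (θ * Complex.I)) (Set.Icc 0 1) := by
    intro a ha b hb hab
    simp only [Complex.exp_eq_exp_iff_exists_int] at hab
    obtain ⟨n, hn⟩ := hab
    have h1 : (a : ℂ) = b + n * (2 * Real.pi) := by
      have h2 : ((a : ℂ) - (b + n * (2 * Real.pi))) * Complex.I = 0 := by
        rw [sub_mul, hn]; ring
      rcases mul_eq_zero.mp h2 with h3 | h3
      · exact sub_eq_zero.mp h3
      · exact absurd h3 Complex.I_ne_zero
    have h2 : a = b + n * (2 * Real.pi) := by exact_mod_cast h1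
    have hpi := Real.pi_gt_three
    have hn0 : n = 0 := by
      by_contra hne
      rcases lt_or_gt_of_ne hne with h3 | h3
      · have h4 : (n : ℝ) ≤ -1 := by exact_mod_cast (by omega : n ≤ -1)
        nlinarith [ha.1, ha.2, hb.1, hb.2]
      · have h4 : (1 : ℝ) ≤ n := by exact_mod_cast h3
        nlinarith [ha.1, ha.2, hb.1, hb.2]
    rw [hn0] at h2
    simpa using h2
  refine Set.infinite_of_injOn_mapsTo h (fun θ _ => ?_) (Set.Icc_infinite one_pos)
  show ‖Complex.exp (θ * Complex.I)‖ = 1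
  exact Complex.norm_exp_ofReal_mul_I θ

theorem not_dense_of_avoid {v : ℕ → ℂ} (hv : Avoid v) : ¬ Dense (Set.range v) := by
  intro hd
  obtain ⟨Bad, hB, h⟩ := hv
  obtain ⟨e, he, heB⟩ := (circle_infinite.diff hB).nonempty
  obtain ⟨t0, ht0⟩ := h e he heB 1
  have h1 := ht0 t0 le_rfl
  obtain ⟨q0, hq0⟩ := eventually_atTop.mp h1
  have hfin : (v '' (Set.Iio q0)).Finite := (Set.finite_Iio q0).image v
  have hd2 : Dense (Set.range v \ (v '' (Set.Iio q0))) := hd.diff_finite hfin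
  obtain ⟨x, hx, hx2⟩ := hd2.exists_mem_open (Metric.isOpen_ball (x := (t0 * e : ℂ)) (ε := 1))
    ⟨t0 * e, Metric.mem_ball_self one_pos⟩
  obtain ⟨⟨q, rfl⟩, hx3⟩ := hx
  have hq : q0 ≤ q := by
    by_contra hlt
    exact hx3 ⟨q, by simpa using hlt, rfl⟩
  have h2 := hq0 q hq
  rw [Metric.mem_ball, dist_eq_norm] at hx2
  linarith

theorem avoid_perturb {v w : ℕ → ℂ} (hv : Avoid v) (C : ℝ) (h : ∀ q, ‖v q - w q‖ ≤ C) :
    Avoid w := by
  obtain ⟨Bad, hB, h1⟩ := hv
  refine ⟨Bad, hB, fun e he heB B => ?_⟩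
  obtain ⟨t0, ht0⟩ := h1 e he heB (B + C)
  refine ⟨t0, fun t ht => ?_⟩
  filter_upwards [ht0 t ht] with q hq
  have h2 : ‖v q - t * e‖ ≤ ‖v q - w q‖ + ‖w q - t * e‖ := by
    have : v q - t * e = (v q - w q) + (w q - t * e) := by ring
    rw [this]; exact norm_add_le _ _
  have h3 := h q
  linarith

theorem avoid_of_tendsto {v : ℕ → ℂ} (hv : Tendsto (fun q => ‖v q‖) atTop atTop) : Avoid v := by
  refine ⟨∅, Set.finite_empty, fun e he _ B => ⟨0, fun t ht => ?_⟩⟩
  filter_upwards [hv.eventually_gt_atTop (B + t)] with q hq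
  have h2 : ‖v q‖ ≤ ‖v q - t * e‖ + ‖(t : ℂ) * e‖ := by
    have : v q = (v q - t * e) + t * e := by ring
    calc ‖v q‖ = ‖(v q - t * e) + t * e‖ := by rw [← this]
      _ ≤ _ := norm_add_le _ _
  have h3 : ‖(t : ℂ) * e‖ = t := by
    rw [norm_mul, he, mul_one, Complex.norm_real, Real.norm_of_nonneg ht]
  linarith

theorem avoid_of_residues {v : ℕ → ℂ} (N : ℕ) (hN : 0 < N)
    (h : ∀ r < N, Avoid (fun q => v (N * q + r))) : Avoid v := by
  choose! Bad hB h1 using h
  refine ⟨⋃ r ∈ Finset.range N, Bad r, ?_, fun e he heB B => ?_⟩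
  · exact Set.Finite.biUnion (Finset.finite_toSet _) (fun r hr => hB r (Finset.mem_range.mp hr))
  · have h2 : ∀ r < N, ∃ t0 : ℝ, ∀ t : ℝ, t0 ≤ t → ∀ᶠ q in atTop,
        B < ‖v (N * q + r) - t * e‖ := by
      intro r hr
      refine h1 r hr e he ?_ B
      intro h3
      exact heB (Set.mem_biUnion (by simpa using hr : r ∈ (Finset.range N : Set ℕ)) h3)
    choose! t0 ht0 using h2
    obtain ⟨T, hT⟩ := ((Finset.range N).image t0).bddAbove
    refine ⟨T, fun t ht => ?_⟩
    have h3 : ∀ r < N, ∃ q0 : ℕ, ∀ q, q0 ≤ q → B < ‖v (N * q + r) - t * e‖ := by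
      intro r hr
      have h4 : t0 r ≤ t := le_trans (hT (by simpa using ⟨r, hr, rfl⟩)) ht
      exact eventually_atTop.mp (ht0 r hr t h4)
    choose! q0 hq0 using h3
    obtain ⟨Q, hQ⟩ := ((Finset.range N).image q0).bddAbove
    refine eventually_atTop.mpr ⟨N * (Q + 1), fun k hk => ?_⟩
    have h5 : N * (k / N) + k % N = k := Nat.div_add_mod k N
    have h6 : k % N < N := Nat.mod_lt _ hN
    have h7 : q0 (k % N) ≤ k / N := by
      have h8 : q0 (k % N) ≤ Q := hQ (by simpa using ⟨k % N, h6, rfl⟩)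
      have h9 : Q + 1 ≤ k / N := (Nat.le_div_iff_mul_le hN).mpr (by linarith [mul_comm N (Q+1)])
      omega
    have h10 := hq0 (k % N) h6 (k / N) h7
    rwa [h5] at h10

end Pool.Agent.V11211.WH
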