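import Mathlib
import Pool.Agent.V11211.WH1

/-! Rank one exponential polynomials escape discs along almost all rays. -/

namespace Pool.Agent.V11211.WH

open Filter Topology

abbrev EA := AddMonoidAlgebra ℂ (ℝ × ℕ)

noncomputable def mon (q : ℕ) (g : ℝ × ℕ) : ℂ := ((Real.exp (g.1 * q) * (q:ℝ) ^ g.2 : ℝ) : ℂ)

noncomputable def monHom (q : ℕ) : Multiplicative (ℝ × ℕ) →* ℂ where
  toFun g := mon q g.toAdd
  map_one' := by simp [mon]
  map_mul' a b := by
    simp only [mon, toAdd_mul, Prod.fst_add, Prod.snd_add, add_mul, Real.exp_add, pow_add]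
    push_cast; ring

noncomputable def ev (q : ℕ) : EA →ₐ[ℂ] ℂ := AddMonoidAlgebra.lift ℂ ℂ (ℝ×ℕ) (monHom q)

theorem ev_single (q : ℕ) (g : ℝ × ℕ) (c : ℂ) :
    ev q (AddMonoidAlgebra.single g c) = c * mon q g := by
  rw [ev, AddMonoidAlgebra.lift_single]; rfl

theorem ev_apply (q : ℕ) (f : EA) : ev q f = f.coeff.sum fun g c => c * mon q g := by
  rw [ev, AddMonoidAlgebra.lift_apply]; rfl

theorem mon_ne_zero {q : ℕ} (hq : 1 ≤ q) (g : ℝ × ℕ) : mon q g ≠ 0 := by
  rw [mon]
  have h1 : (0:ℝ) < q := by exact_mod_cast hq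
  exact_mod_cast (mul_pos (Real.exp_pos _) (pow_pos h1 _)).ne'

theorem mon_ratio_tendsto {g μ : ℝ × ℕ} (h : g.1 < μ.1 ∨ (g.1 = μ.1 ∧ g.2 < μ.2)) :
    Tendsto (fun q : ℕ => mon q g / mon q μ) atTop (𝓝 0) := by
  have key : Tendsto (fun x : ℝ => (Real.exp (g.1 * x) * x ^ g.2) / (Real.exp (μ.1 * x) * x ^ μ.2))
      atTop (𝓝 0) := by
    rcases h with h | ⟨h1, h2⟩
    · have h3 : Tendsto (fun x : ℝ => x ^ g.2 / Real.exp ((μ.1 - g.1) * x)) atTop (𝓝 0) :=
        (isLittleO_pow_exp_pos_mul_atTop g.2 (sub_pos.mpr h)).tendsto_div_nhds_zero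
      refine squeeze_zero' ?_ ?_ h3
      · filter_upwards [eventually_ge_atTop 1] with x hx
        have : (0:ℝ) < x := by linarith
        positivity
      · filter_upwards [eventually_ge_atTop 1] with x hx
        have hx0 : (0:ℝ) < x := by linarith
        have h4 : Real.exp ((μ.1 - g.1) * x) = Real.exp (μ.1 * x) / Real.exp (g.1 * x) := by
          rw [← Real.exp_sub]; ring_nf
        rw [h4, div_div_eq_mul_div]
        have h5 : (1:ℝ) ≤ x ^ μ.2 := one_le_pow₀ hx
        rw [mul_comm (x ^ g.2)]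
        apply div_le_div_of_nonneg_left (by positivity) (by positivity)
        nlinarith [Real.exp_pos (μ.1 * x)]
    · have h3 := tendsto_pow_div_pow_atTop_zero (𝕜 := ℝ) h2
      refine h3.congr (fun x => ?_)
      rw [h1, mul_div_mul_left _ _ (Real.exp_pos _).ne']
  have key2 := (Complex.continuous_ofReal.tendsto 0).comp (key.comp tendsto_natCast_atTop_atTop)
  rw [Complex.ofReal_zero] at key2
  refine key2.congr (fun q => ?_)
  simp [mon, Function.comp]

theorem ratio_tendsto (f : EA) (μ : ℝ × ℕ)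
    (hμ : ∀ g ∈ f.coeff.support, g.1 < μ.1 ∨ (g.1 = μ.1 ∧ g.2 ≤ μ.2)) :
    Tendsto (fun q => ev q f / mon q μ) atTop (𝓝 (f.coeff μ)) := by
  classical
  have h1 : ∀ g ∈ f.coeff.support, Tendsto (fun q : ℕ => f.coeff g * (mon q g / mon q μ)) atTop
      (𝓝 (if g = μ then f.coeff μ else 0)) := by
    intro g hg
    by_cases hgμ : g = μ
    · subst hgμ
      rw [if_pos rfl]
      refine tendsto_const_nhds.congr' ?_
      filter_upwards [eventually_ge_atTop 1] with q hq
      rw [div_self (mon_ne_zero hq g), mul_one]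
    · rw [if_neg hgμ]
      have h2 : g.1 < μ.1 ∨ (g.1 = μ.1 ∧ g.2 < μ.2) := by
        rcases hμ g hg with h | ⟨h, h'⟩
        · exact Or.inl h
        · refine Or.inr ⟨h, lt_of_le_of_ne h' (fun h'' => hgμ (Prod.ext h h''))⟩
      have := (mon_ratio_tendsto h2).const_mul (f.coeff g)
      rwa [mul_zero] at this
  have h3 := tendsto_finset_sum f.coeff.support h1
  have h4 : (∑ g ∈ f.coeff.support, if g = μ then f.coeff μ else 0) = f.coeff μ := by
    rw [Finset.sum_ite_eq']
    split_ifs with h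
    · rfl
    · simpa using (Finsupp.notMem_support_iff.mp h).symm
  rw [h4] at h3
  refine h3.congr (fun q => ?_)
  rw [ev_apply, Finsupp.sum, Finset.sum_div]
  exact Finset.sum_congr rfl (fun g _ => by rw [mul_div_assoc])

end Pool.Agent.V11211.WH
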