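import Mathlib
import Pool.Agent.V11211.WH2

namespace Pool.Agent.V11211.WH

open Filter Topology ComplexConjugate

/-- Lower bound along almost all rays for a nonzero polynomial in `z` and `conj z`. -/
theorem lower_bound (m : ℕ) (c : Fin (m+1) × Fin (m+1) → ℂ) (hc : c ≠ 0) :
    ∃ Bad : Set ℂ, Bad.Finite ∧ ∀ e : ℂ, ‖e‖ = 1 → e ∉ Bad → ∀ B : ℝ, 0 ≤ B → ∃ t0 : ℝ, 1 ≤ t0 ∧
      ∀ t : ℝ, t0 ≤ t → ∃ δ : ℝ, 0 < δ ∧ ∀ w : ℂ, ‖w - t * e‖ ≤ B →
        δ ≤ ‖∑ ij : Fin (m+1) × Fin (m+1), c ij * w ^ (ij.1 : ℕ) * (conj w) ^ (ij.2 : ℕ)‖ := by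
  classical
  -- the top degree
  obtain ⟨ij0, hij0⟩ : ∃ ij, c ij ≠ 0 := by
    by_contra h; push Not at h; exact hc (funext h)
  let S : Finset (Fin (m+1) × Fin (m+1)) := Finset.univ.filter (fun ij => c ij ≠ 0)
  have hS : S.Nonempty := ⟨ij0, by simp [S, hij0]⟩
  obtain ⟨top, htopS, htop⟩ := S.exists_max_image (fun ij => (ij.1 : ℕ) + ij.2) hS
  set D : ℕ := (top.1 : ℕ) + top.2 with hD
  have hdeg : ∀ ij : Fin (m+1) × Fin (m+1), c ij ≠ 0 → (ij.1 : ℕ) + ij.2 ≤ D := by
    intro ij hij
    exact htop ij (by simp [S, hij])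
  have hctop : c top ≠ 0 := by simpa [S] using htopS
  -- the polynomial of directions
  let P : Polynomial ℂ := ∑ ij : Fin (m+1) × Fin (m+1),
    if (ij.1 : ℕ) + ij.2 = D then Polynomial.monomial (ij.1 : ℕ) (c ij) else 0
  have hP : P ≠ 0 := by
    intro h0
    have h1 : P.coeff (top.1 : ℕ) = c top := by
      simp only [P, Polynomial.finset_sum_coeff]
      rw [Finset.sum_eq_single top]
      · rw [if_pos rfl, Polynomial.coeff_monomial, if_pos rfl]
      · intro ij _ hne
        split_ifs with h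
        · rw [Polynomial.coeff_monomial, if_neg]
          intro h2
          apply hne
          have h3 : (ij.2 : ℕ) = top.2 := by omega
          exact Prod.ext (Fin.ext h2) (Fin.ext h3)
        · simp
      · simp
    rw [h0, Polynomial.coeff_zero] at h1
    exact hctop h1.symm
  refine ⟨(fun e : ℂ => e ^ 2) ⁻¹' (P.roots.toFinset : Set ℂ), ?_, ?_⟩
  · -- finiteness
    have : (fun e : ℂ => e ^ 2) ⁻¹' (P.roots.toFinset : Set ℂ) =
        ⋃ r ∈ P.roots.toFinset, {e : ℂ | e ^ 2 = r} := by
      ext e; simp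
    rw [this]
    refine Set.Finite.biUnion (Finset.finite_toSet _) (fun r _ => ?_)
    have h2 : {e : ℂ | e ^ 2 = r} ⊆ ((Polynomial.X ^ 2 - Polynomial.C r : Polynomial ℂ).roots.toFinset : Set ℂ) := by
      intro e he
      have hne : (Polynomial.X ^ 2 - Polynomial.C r : Polynomial ℂ) ≠ 0 :=
        Polynomial.X_pow_sub_C_ne_zero (by norm_num) r
      simp only [Finset.mem_coe, Multiset.mem_toFinset, Polynomial.mem_roots hne]
      simp only [Polynomial.IsRoot, Polynomial.eval_sub, Polynomial.eval_pow, Polynomial.eval_X,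
        Polynomial.eval_C]
      rw [Set.mem_setOf_eq] at he
      rw [he, sub_self]
    exact (Finset.finite_toSet _).subset h2
  · intro e he heB B hB
    have hroot : P.eval (e ^ 2) ≠ 0 := by
      intro h
      apply heB
      simp only [Set.mem_preimage, Finset.mem_coe, Multiset.mem_toFinset]
      rw [Polynomial.mem_roots hP]
      exact h
    have he0 : e ≠ 0 := by
      intro h; rw [h, norm_zero] at he; exact zero_ne_one he
    have hconj : conj e = e⁻¹ := by
      have h1 : e * conj e = 1 := by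
        rw [Complex.mul_conj, Complex.normSq_eq_norm_sq, he]; norm_num
      exact eq_inv_of_mul_eq_one_right h1
    -- the rescaled function
    let Ψ : ℝ × ℂ → ℂ := fun sw => ∑ ij : Fin (m+1) × Fin (m+1),
      c ij * (sw.1 : ℂ) ^ (D - ((ij.1 : ℕ) + ij.2)) * (e + sw.2) ^ (ij.1 : ℕ) *
        (conj (e + sw.2)) ^ (ij.2 : ℕ)
    have hΨc : Continuous Ψ := by
      refine continuous_finset_sum _ (fun ij _ => ?_)
      have h1 : Continuous (fun sw : ℝ × ℂ => conj (e + sw.2)) :=
        Complex.continuous_conj.comp (continuous_const.add continuous_snd)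
      exact ((continuous_const.mul ((Complex.continuous_ofReal.comp continuous_fst).pow _)).mul
        ((continuous_const.add continuous_snd).pow _)).mul (h1.pow _)
    have hΨ0 : Ψ (0, 0) ≠ 0 := by
      have h1 : Ψ (0, 0) = (conj e) ^ D * P.eval (e ^ 2) := by
        simp only [Ψ, P, Polynomial.eval_finset_sum, Finset.mul_sum]
        refine Finset.sum_congr rfl (fun ij _ => ?_)
        by_cases hcij : c ij = 0
        · simp [hcij]
        have h2 := hdeg ij hcij
        split_ifs with h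
        · rw [h]
          simp only [Nat.sub_self, pow_zero, mul_one, add_zero, Polynomial.eval_monomial]
          rw [hconj, ← h]
          rw [inv_pow, inv_pow, pow_add, ← pow_mul, two_mul, pow_add]
          have h3 : e ^ (ij.1 : ℕ) ≠ 0 := pow_ne_zero _ he0
          have h4 : e ^ (ij.2 : ℕ) ≠ 0 := pow_ne_zero _ he0
          field_simp
        · have h3 : D - ((ij.1 : ℕ) + ij.2) ≠ 0 := by omega
          simp [h3]
      rw [h1]
      refine mul_ne_zero (pow_ne_zero _ ?_) hroot
      rw [hconj]; exact inv_ne_zero he0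
    have hpos : 0 < ‖Ψ (0,0)‖ := norm_pos_iff.mpr hΨ0
    have hnear : ∀ᶠ sw in 𝓝 ((0, 0) : ℝ × ℂ), ‖Ψ (0,0)‖ / 2 < ‖Ψ sw‖ := by
      have := (hΨc.norm.tendsto (0,0)).eventually (lt_mem_nhds (show ‖Ψ (0,0)‖ / 2 < ‖Ψ (0,0)‖ by linarith))
      exact this
    obtain ⟨η, hη, hη2⟩ := Metric.eventually_nhds_iff.mp hnear
    refine ⟨max 1 ((B + 1) / η + 1), le_max_left _ _, fun t ht => ?_⟩
    have ht1 : 1 ≤ t := le_trans (le_max_left _ _) ht
    have ht2 : (B + 1) / η < t := by
      have := le_trans (le_max_right _ _) ht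
      linarith
    have ht0 : 0 < t := by linarith
    have ht3 : (B + 1) / t < η := by
      rw [div_lt_iff₀ hη] at ht2
      rw [div_lt_iff₀ ht0]; linarith [mul_comm t η]
    refine ⟨‖Ψ (0,0)‖ / 2, by positivity, fun w hw => ?_⟩
    have hw1 : ‖(w - t * e) / t‖ < η := by
      rw [norm_div, Complex.norm_real, Real.norm_of_nonneg ht0.le]
      refine lt_of_le_of_lt ?_ ht3
      gcongr
      linarith
    have hs1 : |1 / t| < η := by
      rw [abs_of_pos (by positivity)]
      refine lt_of_le_of_lt ?_ ht3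
      gcongr
      linarith
    have h1 := hη2 (y := (1 / t, (w - t * e) / t)) (by
      rw [Prod.dist_eq, max_lt_iff]
      constructor
      · simpa [Real.dist_eq] using hs1
      · simpa [dist_eq_norm] using hw1)
    have h2 : (∑ ij : Fin (m+1) × Fin (m+1), c ij * w ^ (ij.1 : ℕ) * (conj w) ^ (ij.2 : ℕ))
        = (t : ℂ) ^ D * Ψ (1 / t, (w - t * e) / t) := by
      simp only [Ψ, Finset.mul_sum]
      refine Finset.sum_congr rfl (fun ij _ => ?_)
      by_cases hcij : c ij = 0
      · simp [hcij]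
      have h2 := hdeg ij hcij
      have htC : (t : ℂ) ≠ 0 := by exact_mod_cast ht0.ne'
      have h3 : e + (w - t * e) / t = w / t := by field_simp; ring
      rw [h3]
      have h4 : conj (w / (t:ℂ)) = conj w / t := by
        rw [map_div₀, Complex.conj_ofReal]
      rw [h4]
      obtain ⟨k, hk⟩ := Nat.exists_eq_add_of_le h2
      have h5 : D - ((ij.1 : ℕ) + ij.2) = k := by omega
      rw [h5, hk]
      push_cast
      rw [div_pow, div_pow, div_pow, pow_add, pow_add, one_pow]
      field_simp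
    rw [h2, norm_mul, norm_pow, Complex.norm_real, Real.norm_of_nonneg ht0.le]
    have h6 : (1:ℝ) ≤ t ^ D := one_le_pow₀ ht1
    nlinarith [norm_nonneg (Ψ (1 / t, (w - t * e) / t))]

end Pool.Agent.V11211.WH
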