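import Mathlib
import Pool.Agent.V11211.WH3

namespace Pool.Agent.V11211.WH

open Filter Topology ComplexConjugate

theorem avoid_of_relation (F : ℕ → ℂ) (m : ℕ) (a : Fin (m+1) × Fin (m+1) → EA) (ha : a ≠ 0)
    (hrel : ∀ q, ∑ ij : Fin (m+1) × Fin (m+1),
      ev q (a ij) * F q ^ (ij.1 : ℕ) * (conj (F q)) ^ (ij.2 : ℕ) = 0) : Avoid F := by
  classical
  let S : Finset (ℝ × ℕ) := Finset.univ.biUnion (fun ij => (a ij).coeff.support)
  have hS : S.Nonempty := by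
    obtain ⟨ij, hij⟩ : ∃ ij, a ij ≠ 0 := by
      by_contra h; push Not at h; exact ha (funext h)
    have h1 : (a ij).coeff ≠ 0 := by
      intro h; apply hij; ext1; exact h
    obtain ⟨g, hg⟩ := Finsupp.support_nonempty_iff.mpr h1
    exact ⟨g, Finset.mem_biUnion.mpr ⟨ij, Finset.mem_univ _, hg⟩⟩
  obtain ⟨μ, hμS, hμ⟩ := S.exists_max_image (fun g => toLex g) hS
  have hμ' : ∀ ij, ∀ g ∈ (a ij).coeff.support, g.1 < μ.1 ∨ (g.1 = μ.1 ∧ g.2 ≤ μ.2) := by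
    intro ij g hg
    have := hμ g (Finset.mem_biUnion.mpr ⟨ij, Finset.mem_univ _, hg⟩)
    rw [Prod.Lex.toLex_le_toLex] at this
    exact this
  let c : Fin (m+1) × Fin (m+1) → ℂ := fun ij => (a ij).coeff μ
  have hc : c ≠ 0 := by
    obtain ⟨ij, _, h⟩ := Finset.mem_biUnion.mp hμS
    intro h0
    have : c ij = 0 := by rw [h0]; rfl
    exact (Finsupp.mem_support_iff.mp h) this
  obtain ⟨Bad, hBad, hlow⟩ := lower_bound m c hc
  refine ⟨Bad, hBad, fun e he heB B => ?_⟩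
  obtain ⟨t0, ht0, hlow⟩ := hlow e he heB (max B 0) (le_max_right _ _)
  refine ⟨t0, fun t ht => ?_⟩
  obtain ⟨δ, hδ, hlow⟩ := hlow t ht
  have htpos : 0 ≤ t := by linarith
  -- uniform closeness of the normalised coefficients
  set K : ℝ := ∑ ij : Fin (m+1) × Fin (m+1), (t + max B 0) ^ (ij.1 : ℕ) * (t + max B 0) ^ (ij.2 : ℕ)
    with hK
  have hbase : 0 ≤ t + max B 0 := by positivity
  have hK0 : 0 ≤ K := Finset.sum_nonneg (fun ij _ => by positivity)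
  have hε : 0 < δ / (2 * (K + 1)) := by positivity
  have hev : ∀ᶠ q in atTop, ∀ ij ∈ (Finset.univ : Finset (Fin (m+1) × Fin (m+1))),
      ‖ev q (a ij) / mon q μ - c ij‖ < δ / (2 * (K + 1)) := by
    rw [Filter.eventually_all_finset]
    intro ij _
    have h1 := ratio_tendsto (a ij) μ (hμ' ij)
    have h2 := (Metric.tendsto_nhds.mp h1) _ hε
    filter_upwards [h2] with q hq
    rwa [dist_eq_norm] at hq
  filter_upwards [hev, eventually_ge_atTop 1] with q hq hq1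
  by_contra hlt
  rw [not_lt] at hlt
  have hle : ‖F q - t * e‖ ≤ max B 0 := le_trans hlt (le_max_left _ _)
  have h1 := hlow (F q) hle
  have hFn : ‖F q‖ ≤ t + max B 0 := by
    have : F q = (F q - t * e) + t * e := by ring
    calc ‖F q‖ = ‖(F q - t * e) + t * e‖ := by rw [← this]
      _ ≤ ‖F q - t * e‖ + ‖(t : ℂ) * e‖ := norm_add_le _ _
      _ = ‖F q - t * e‖ + t := by
        rw [norm_mul, he, mul_one, Complex.norm_real, Real.norm_of_nonneg htpos]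
      _ ≤ _ := by linarith
  have h2 : (∑ ij : Fin (m+1) × Fin (m+1), c ij * F q ^ (ij.1 : ℕ) * (conj (F q)) ^ (ij.2 : ℕ))
      = ∑ ij : Fin (m+1) × Fin (m+1),
        (c ij - ev q (a ij) / mon q μ) * F q ^ (ij.1 : ℕ) * (conj (F q)) ^ (ij.2 : ℕ) := by
    have h3 : (∑ ij : Fin (m+1) × Fin (m+1),
        (ev q (a ij) / mon q μ) * F q ^ (ij.1 : ℕ) * (conj (F q)) ^ (ij.2 : ℕ)) = 0 := by
      have h4 : (∑ ij : Fin (m+1) × Fin (m+1),
        (ev q (a ij) / mon q μ) * F q ^ (ij.1 : ℕ) * (conj (F q)) ^ (ij.2 : ℕ))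
          = (∑ ij : Fin (m+1) × Fin (m+1),
            ev q (a ij) * F q ^ (ij.1 : ℕ) * (conj (F q)) ^ (ij.2 : ℕ)) / mon q μ := by
        rw [Finset.sum_div]
        exact Finset.sum_congr rfl (fun ij _ => by ring)
      rw [h4, hrel q, zero_div]
    rw [← sub_zero (∑ ij : Fin (m+1) × Fin (m+1),
      c ij * F q ^ (ij.1 : ℕ) * (conj (F q)) ^ (ij.2 : ℕ)), ← h3, ← Finset.sum_sub_distrib]
    exact Finset.sum_congr rfl (fun ij _ => by ring)
  have h5 : ‖∑ ij : Fin (m+1) × Fin (m+1),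
        (c ij - ev q (a ij) / mon q μ) * F q ^ (ij.1 : ℕ) * (conj (F q)) ^ (ij.2 : ℕ)‖
      ≤ ∑ ij : Fin (m+1) × Fin (m+1), δ / (2 * (K + 1)) *
        ((t + max B 0) ^ (ij.1 : ℕ) * (t + max B 0) ^ (ij.2 : ℕ)) := by
    refine (norm_sum_le _ _).trans (Finset.sum_le_sum (fun ij _ => ?_))
    rw [norm_mul, norm_mul, norm_pow, norm_pow, Complex.norm_conj, mul_assoc]
    have h6 : ‖c ij - ev q (a ij) / mon q μ‖ ≤ δ / (2 * (K + 1)) := by
      rw [norm_sub_rev]; exact (hq ij (Finset.mem_univ _)).le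
    gcongr
  rw [← Finset.mul_sum, ← hK] at h5
  have h7 : δ / (2 * (K + 1)) * K < δ := by
    rw [div_mul_eq_mul_div, div_lt_iff₀ (by positivity)]
    nlinarith
  rw [h2] at h1
  linarith

theorem exists_relation (D : ℕ) (hD : 1 ≤ D) (G1 G2 : Polynomial EA)
    (h1 : G1.natDegree ≤ 2 * D) (h2 : G2.natDegree ≤ 2 * D) :
    ∃ (m : ℕ) (a : Fin (m+1) × Fin (m+1) → EA), a ≠ 0 ∧
    ∑ ij : Fin (m+1) × Fin (m+1), a ij • (G1 ^ (ij.1 : ℕ) * G2 ^ (ij.2 : ℕ) *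
      (Polynomial.X : Polynomial EA) ^ (D * (2 * m - ((ij.1 : ℕ) + ij.2)))) = 0 := by
  classical
  set m := 4 * D with hm
  let G : Fin (m+1) × Fin (m+1) → Polynomial EA := fun ij => G1 ^ (ij.1 : ℕ) * G2 ^ (ij.2 : ℕ) *
      (Polynomial.X : Polynomial EA) ^ (D * (2 * m - ((ij.1 : ℕ) + ij.2)))
  let Φ : (Fin (m+1) × Fin (m+1) → EA) →ₗ[EA] Polynomial EA :=
    ∑ ij : Fin (m+1) × Fin (m+1), (LinearMap.proj (R := EA) (φ := fun _ => EA) ij).smulRight (G ij)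
  have hΦ : ∀ a, Φ a = ∑ ij : Fin (m+1) × Fin (m+1), a ij • G ij := by
    intro a; simp [Φ]
  let Ψ : (Fin (m+1) × Fin (m+1) → EA) →ₗ[EA] (Fin (4 * D * m + 1) → EA) :=
    LinearMap.pi (fun n => (Polynomial.lcoeff EA (n : ℕ)).comp Φ)
  have hdeg : ∀ a, (Φ a).natDegree ≤ 4 * D * m := by
    intro a
    rw [hΦ]
    refine Polynomial.natDegree_sum_le_of_forall_le _ _ (fun ij _ => ?_)
    refine (Polynomial.natDegree_smul_le _ _).trans ?_
    have h3 : (G1 ^ (ij.1 : ℕ)).natDegree ≤ (ij.1 : ℕ) * (2 * D) :=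
      Polynomial.natDegree_pow_le.trans (Nat.mul_le_mul_left _ h1)
    have h4 : (G2 ^ (ij.2 : ℕ)).natDegree ≤ (ij.2 : ℕ) * (2 * D) :=
      Polynomial.natDegree_pow_le.trans (Nat.mul_le_mul_left _ h2)
    have h5 : ((Polynomial.X : Polynomial EA) ^ (D * (2 * m - ((ij.1 : ℕ) + ij.2)))).natDegree ≤
        D * (2 * m - ((ij.1 : ℕ) + ij.2)) := Polynomial.natDegree_X_pow_le _
    have h6 := (Polynomial.natDegree_mul_le (p := G1 ^ (ij.1 : ℕ)) (q := G2 ^ (ij.2 : ℕ)))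
    have h7 := (Polynomial.natDegree_mul_le (p := G1 ^ (ij.1 : ℕ) * G2 ^ (ij.2 : ℕ))
      (q := (Polynomial.X : Polynomial EA) ^ (D * (2 * m - ((ij.1 : ℕ) + ij.2)))))
    have hi : (ij.1 : ℕ) ≤ m := Nat.lt_succ_iff.mp ij.1.2
    have hj : (ij.2 : ℕ) ≤ m := Nat.lt_succ_iff.mp ij.2.2
    obtain ⟨k, hk⟩ := Nat.exists_eq_add_of_le (show (ij.1 : ℕ) + ij.2 ≤ 2 * m by omega)
    have h8 : 2 * m - ((ij.1 : ℕ) + ij.2) = k := by omega
    rw [h8] at h7 h5
    show (G1 ^ (ij.1 : ℕ) * G2 ^ (ij.2 : ℕ) *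
      (Polynomial.X : Polynomial EA) ^ (D * (2 * m - ((ij.1 : ℕ) + ij.2)))).natDegree ≤ _
    rw [h8]
    have h9 : (ij.1 : ℕ) * (2 * D) + (ij.2 : ℕ) * (2 * D) + D * k ≤ 4 * D * m := by
      have : D * (2 * m) = D * ((ij.1 : ℕ) + ij.2) + D * k := by rw [hk]; ring
      nlinarith
    omega
  have hnot : ¬ Function.Injective Ψ := by
    intro hinj
    have h3 := card_le_of_injective EA Ψ hinj
    simp only [Fintype.card_prod, Fintype.card_fin] at h3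
    nlinarith
  have hker : ∃ a, a ≠ 0 ∧ Ψ a = 0 := by
    by_contra h
    push Not at h
    apply hnot
    rw [← LinearMap.ker_eq_bot, LinearMap.ker_eq_bot']
    intro a ha
    by_contra hne
    exact h a hne ha
  obtain ⟨a, ha, hΨa⟩ := hker
  refine ⟨m, a, ha, ?_⟩
  have h3 : Φ a = 0 := by
    ext1 n
    rw [Polynomial.coeff_zero]
    by_cases hn : n ≤ 4 * D * m
    · have := congrFun hΨa ⟨n, Nat.lt_succ_iff.mpr hn⟩
      simpa [Ψ] using this
    · exact Polynomial.coeff_eq_zero_of_natDegree_lt (lt_of_le_of_lt (hdeg a) (not_le.mp hn))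
  rw [hΦ] at h3
  exact h3

end Pool.Agent.V11211.WH
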