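import Mathlib
import Pool.Agent.V11211.WH4

namespace Pool.Agent.V11211.WH

open Filter Topology ComplexConjugate

/-- the element of `EA` attached to `p(k) ρ^k` -/
noncomputable def expEl (p : Polynomial ℂ) (ρ : ℝ) : EA :=
  ∑ d ∈ p.support, AddMonoidAlgebra.single (Real.log ρ, d) (p.coeff d)

noncomputable def expElConj (p : Polynomial ℂ) (ρ : ℝ) : EA :=
  ∑ d ∈ p.support, AddMonoidAlgebra.single (Real.log ρ, d) (conj (p.coeff d))

theorem mon_log (q d : ℕ) {ρ : ℝ} (hρ : 0 < ρ) :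
    mon q (Real.log ρ, d) = (ρ : ℂ) ^ q * (q : ℂ) ^ d := by
  rw [mon]
  have h1 : Real.exp (Real.log ρ * q) = ρ ^ q := by
    rw [mul_comm, Real.exp_nat_mul, Real.exp_log hρ]
  simp only [h1]
  push_cast; ring

theorem ev_expEl (q : ℕ) (p : Polynomial ℂ) {ρ : ℝ} (hρ : 0 < ρ) :
    ev q (expEl p ρ) = p.eval (q : ℂ) * (ρ : ℂ) ^ q := by
  rw [expEl, map_sum, Polynomial.eval_eq_sum, Polynomial.sum, Finset.sum_mul]
  refine Finset.sum_congr rfl (fun d _ => ?_)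
  rw [ev_single, mon_log q d hρ]; ring

theorem ev_expElConj (q : ℕ) (p : Polynomial ℂ) {ρ : ℝ} (hρ : 0 < ρ) :
    ev q (expElConj p ρ) = conj (p.eval (q : ℂ) * (ρ : ℂ) ^ q) := by
  rw [expElConj, map_sum, Polynomial.eval_eq_sum, Polynomial.sum, Finset.sum_mul, map_sum]
  refine Finset.sum_congr rfl (fun d _ => ?_)
  rw [ev_single, mon_log q d hρ]
  simp only [map_mul, map_pow, Complex.conj_natCast, Complex.conj_ofReal]; ring

theorem avoid_rank_one {ι : Type*} (J : Finset ι) (p : ι → Polynomial ℂ) (ρ : ι → ℝ)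
    (hρ : ∀ j ∈ J, 0 < ρ j) (n : ι → ℤ) (z : ℂ) (hz : ‖z‖ = 1) :
    Avoid (fun q => ∑ j ∈ J, (p j).eval (q:ℂ) * (ρ j : ℂ) ^ q * (z ^ q) ^ (n j)) := by
  classical
  set D : ℕ := 1 + ∑ j ∈ J, (n j).natAbs with hD
  have hnD : ∀ j ∈ J, (n j).natAbs ≤ D := by
    intro j hj
    have := Finset.single_le_sum (f := fun j => (n j).natAbs) (fun _ _ => Nat.zero_le _) hj
    omega
  set G1 : Polynomial EA := ∑ j ∈ J, Polynomial.C (expEl (p j) (ρ j)) *
    Polynomial.X ^ ((D : ℤ) + n j).toNat with hG1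
  set G2 : Polynomial EA := ∑ j ∈ J, Polynomial.C (expElConj (p j) (ρ j)) *
    Polynomial.X ^ ((D : ℤ) - n j).toNat with hG2
  have hd1 : G1.natDegree ≤ 2 * D := by
    refine Polynomial.natDegree_sum_le_of_forall_le _ _ (fun j hj => ?_)
    refine (Polynomial.natDegree_C_mul_X_pow_le _ _).trans ?_
    have := hnD j hj
    omega
  have hd2 : G2.natDegree ≤ 2 * D := by
    refine Polynomial.natDegree_sum_le_of_forall_le _ _ (fun j hj => ?_)
    refine (Polynomial.natDegree_C_mul_X_pow_le _ _).trans ?_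
    have := hnD j hj
    omega
  obtain ⟨m, a, ha, hrel⟩ := exists_relation D (by omega) G1 G2 hd1 hd2
  refine avoid_of_relation _ m a ha (fun q => ?_)
  set F : ℂ := ∑ j ∈ J, (p j).eval (q:ℂ) * (ρ j : ℂ) ^ q * (z ^ q) ^ (n j) with hF
  set ω : ℂ := z ^ q with hω
  have hωn : ‖ω‖ = 1 := by rw [hω, norm_pow, hz, one_pow]
  have hω0 : ω ≠ 0 := by intro h; rw [h, norm_zero] at hωn; exact zero_ne_one hωn
  have hωc : conj ω = ω⁻¹ := by
    have h1 : ω * conj ω = 1 := by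
      rw [Complex.mul_conj, Complex.normSq_eq_norm_sq, hωn]; norm_num
    exact eq_inv_of_mul_eq_one_right h1
  let θ : Polynomial EA →+* ℂ := Polynomial.eval₂RingHom (ev q : EA →+* ℂ) ω
  have hθC : ∀ x : EA, θ (Polynomial.C x) = ev q x := by
    intro x; simp [θ]
  have hθX : θ Polynomial.X = ω := by simp [θ]
  have hexp1 : ∀ j ∈ J, ω ^ ((D : ℤ) + n j).toNat = ω ^ D * ω ^ (n j) := by
    intro j hj
    have := hnD j hj
    rw [← zpow_natCast, Int.toNat_of_nonneg (by omega), zpow_add₀ hω0, zpow_natCast]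
  have hexp2 : ∀ j ∈ J, ω ^ ((D : ℤ) - n j).toNat = ω ^ D * conj (ω ^ (n j)) := by
    intro j hj
    have := hnD j hj
    rw [← zpow_natCast, Int.toNat_of_nonneg (by omega), zpow_sub₀ hω0, zpow_natCast,
      map_zpow₀, hωc, inv_zpow, div_eq_mul_inv]
  have hθ1 : θ G1 = ω ^ D * F := by
    rw [hG1, map_sum, hF, Finset.mul_sum]
    refine Finset.sum_congr rfl (fun j hj => ?_)
    rw [map_mul, map_pow, hθC, hθX, hexp1 j hj, ev_expEl q _ (hρ j hj)]; ring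
  have hθ2 : θ G2 = ω ^ D * conj F := by
    rw [hG2, map_sum, hF, map_sum, Finset.mul_sum]
    refine Finset.sum_congr rfl (fun j hj => ?_)
    rw [map_mul, map_pow, hθC, hθX, hexp2 j hj, ev_expElConj q _ (hρ j hj),
      map_mul _ ((p j).eval (q:ℂ) * (ρ j : ℂ) ^ q)]; ring
  clear_value ω
  have h1 := congrArg θ hrel
  rw [map_sum, map_zero] at h1
  have h2 : ∀ ij : Fin (m+1) × Fin (m+1), θ (a ij • (G1 ^ (ij.1 : ℕ) * G2 ^ (ij.2 : ℕ) *
      (Polynomial.X : Polynomial EA) ^ (D * (2 * m - ((ij.1 : ℕ) + ij.2))))) =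
      ω ^ (2 * m * D) * (ev q (a ij) * F ^ (ij.1 : ℕ) * (conj F) ^ (ij.2 : ℕ)) := by
    intro ij
    rw [Polynomial.smul_eq_C_mul, map_mul, map_mul, map_mul, map_pow, map_pow, map_pow, hθC, hθX,
      hθ1, hθ2]
    have hi : (ij.1 : ℕ) ≤ m := Nat.lt_succ_iff.mp ij.1.2
    have hj : (ij.2 : ℕ) ≤ m := Nat.lt_succ_iff.mp ij.2.2
    obtain ⟨k, hk⟩ := Nat.exists_eq_add_of_le (show (ij.1 : ℕ) + ij.2 ≤ 2 * m by omega)
    have h8 : 2 * m - ((ij.1 : ℕ) + ij.2) = k := by omega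
    rw [h8, hk, mul_pow, mul_pow]
    have h9 : ω ^ (((ij.1 : ℕ) + ij.2 + k) * D) =
        (ω ^ D) ^ (ij.1 : ℕ) * (ω ^ D) ^ (ij.2 : ℕ) * ω ^ (D * k) := by
      rw [← pow_mul, ← pow_mul, ← pow_add, ← pow_add]
      congr 1; ring
    rw [h9]; ring
  rw [Finset.sum_congr rfl (fun ij _ => h2 ij), ← Finset.mul_sum] at h1
  rcases mul_eq_zero.mp h1 with h3 | h3
  · exact absurd h3 (pow_ne_zero _ hω0)
  · exact h3

end Pool.Agent.V11211.WH
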