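import Mathlib
import Pool.Agent.V11211.WH5

namespace Pool.Agent.V11211.WH

open Filter Topology ComplexConjugate

/-- Multiplicative independence of two (unimodular) numbers. -/
def Indep (a b : ℂ) : Prop := ∀ m n : ℤ, a ^ m * b ^ n = 1 → m = 0 ∧ n = 0

/-- Infinite multiplicative order. -/
def InfOrd (a : ℂ) : Prop := ∀ m : ℕ, 0 < m → a ^ m ≠ 1

/-- phase -/
noncomputable def ph (a : ℂ) : ℂ := a / (‖a‖ : ℂ)

noncomputable def val (P : ℂ →₀ Polynomial ℂ) (k : ℕ) : ℂ := P.sum (fun a p => p.eval (k : ℂ) * a ^ k)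

theorem norm_ph {a : ℂ} (ha : a ≠ 0) : ‖ph a‖ = 1 := by
  rw [ph, norm_div, Complex.norm_real, norm_norm, div_self (norm_ne_zero_iff.mpr ha)]

theorem ph_mul_norm {a : ℂ} (ha : a ≠ 0) : (‖a‖ : ℂ) * ph a = a := by
  rw [ph, mul_div_cancel₀]
  exact_mod_cast norm_ne_zero_iff.mpr ha

theorem ph_pow (a : ℂ) (N : ℕ) : ph (a ^ N) = (ph a) ^ N := by
  rw [ph, ph, div_pow, norm_pow]; push_cast; rfl

theorem ph_of_norm_one {a : ℂ} (ha : ‖a‖ = 1) : ph a = a := by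
  rw [ph, ha]; simp

/-- conditions on an exponential polynomial -/
structure NoK (P : ℂ →₀ Polynomial ℂ) : Prop where
  k1 : ∀ a ∈ P.support, ∀ b ∈ P.support, ‖a‖ = ‖b‖ → 1 < ‖a‖ → ¬ Indep (ph a) (ph b)
  k2 : ∀ a ∈ P.support, ∀ b ∈ P.support, ‖a‖ = 1 → ‖b‖ = 1 → 1 ≤ (P a).natDegree →
    1 ≤ (P b).natDegree → ¬ Indep a b
  k3 : ∀ a ∈ P.support, ∀ b ∈ P.support, ∀ c ∈ P.support, ‖a‖ = ‖b‖ → ‖c‖ < ‖a‖ → 1 < ‖c‖ →
    InfOrd (a / b) → ¬ Indep (ph a) (ph c)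
  k4 : ∀ a ∈ P.support, ∀ b ∈ P.support, ∀ c ∈ P.support, ‖a‖ = ‖b‖ → 1 < ‖a‖ → ‖c‖ = 1 →
    1 ≤ (P c).natDegree → InfOrd (a / b) → ¬ Indep (ph a) c

theorem poly_decay (p : Polynomial ℂ) {r : ℝ} (hr0 : 0 ≤ r) (hr : r < 1) :
    Tendsto (fun q : ℕ => ‖p.eval (q : ℂ)‖ * r ^ q) atTop (𝓝 0) := by
  have h1 : Tendsto (fun q : ℕ => ∑ d ∈ p.support, ‖p.coeff d‖ * ((q : ℝ) ^ d * r ^ q)) atTop
      (𝓝 (∑ d ∈ p.support, ‖p.coeff d‖ * 0)) := by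
    refine tendsto_finset_sum _ (fun d _ => ?_)
    exact (tendsto_pow_const_mul_const_pow_of_abs_lt_one d (by rwa [abs_of_nonneg hr0])).const_mul _
  simp only [mul_zero, Finset.sum_const_zero] at h1
  refine squeeze_zero (fun q => by positivity) (fun q => ?_) h1
  have h2 : ‖p.eval (q : ℂ)‖ ≤ ∑ d ∈ p.support, ‖p.coeff d‖ * (q : ℝ) ^ d := by
    rw [Polynomial.eval_eq_sum, Polynomial.sum]
    refine (norm_sum_le _ _).trans (le_of_eq ?_)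
    refine Finset.sum_congr rfl (fun d _ => ?_)
    rw [norm_mul, norm_pow, Complex.norm_natCast]
  calc ‖p.eval (q : ℂ)‖ * r ^ q ≤ (∑ d ∈ p.support, ‖p.coeff d‖ * (q : ℝ) ^ d) * r ^ q := by
        gcongr
    _ = _ := by
        rw [Finset.sum_mul]
        exact Finset.sum_congr rfl (fun d _ => by ring)

theorem norm_natCast_tendsto : Tendsto (fun q : ℕ => ‖(q : ℂ)‖) atTop atTop := by
  simp only [Complex.norm_natCast]
  exact tendsto_natCast_atTop_atTop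

theorem poly_lower (p : Polynomial ℂ) (hp : p ≠ 0) :
    ∃ δ : ℝ, 0 < δ ∧ ∀ᶠ q : ℕ in atTop, δ ≤ ‖p.eval (q : ℂ)‖ := by
  by_cases hd : 0 < p.degree
  · refine ⟨1, one_pos, ?_⟩
    exact (Polynomial.tendsto_norm_atTop p hd norm_natCast_tendsto).eventually_ge_atTop 1
  · rw [not_lt] at hd
    have h1 := Polynomial.eq_C_of_degree_le_zero hd
    have h2 : p.coeff 0 ≠ 0 := by
      intro h; rw [h, Polynomial.C_0] at h1; exact hp h1
    refine ⟨‖p.coeff 0‖, norm_pos_iff.mpr h2, Eventually.of_forall (fun q => ?_)⟩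
    rw [h1]; simp

/-- terms that stay bounded -/
theorem bounded_term (p : Polynomial ℂ) (a : ℂ) (h : ‖a‖ < 1 ∨ (‖a‖ = 1 ∧ p.natDegree = 0)) :
    ∃ C : ℝ, ∀ q : ℕ, ‖p.eval (q : ℂ) * a ^ q‖ ≤ C := by
  rcases h with h | ⟨h, hp⟩
  · have h1 := (poly_decay p (norm_nonneg a) h)
    obtain ⟨C, hC⟩ := h1.bddAbove_range
    refine ⟨C, fun q => ?_⟩
    rw [norm_mul, norm_pow]
    exact hC ⟨q, rfl⟩
  · refine ⟨‖p.coeff 0‖, fun q => ?_⟩
    rw [Polynomial.eq_C_of_natDegree_eq_zero hp, norm_mul, norm_pow, h]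
    simp

theorem unique_max (E : Finset ℂ) (P : ℂ → Polynomial ℂ) (a0 : ℂ) (ha0 : a0 ∈ E) (hP : P a0 ≠ 0)
    (hmax : ∀ b ∈ E, b ≠ a0 → ‖b‖ < ‖a0‖) (h1 : 1 < ‖a0‖) :
    Tendsto (fun q : ℕ => ‖∑ a ∈ E, (P a).eval (q : ℂ) * a ^ q‖) atTop atTop := by
  classical
  obtain ⟨δ, hδ, hlow⟩ := poly_lower (P a0) hP
  have hpos : 0 < ‖a0‖ := by linarith
  have hrest : Tendsto (fun q : ℕ => ∑ b ∈ E.erase a0, ‖(P b).eval (q : ℂ)‖ * (‖b‖ / ‖a0‖) ^ q) atTop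
      (𝓝 0) := by
    rw [← Finset.sum_const_zero (s := E.erase a0) (ι := ℂ) (M := ℝ)]
    refine tendsto_finset_sum _ (fun b hb => ?_)
    refine poly_decay (P b) (by positivity) ?_
    rw [div_lt_one hpos]
    exact hmax b (Finset.mem_of_mem_erase hb) (Finset.ne_of_mem_erase hb)
  have hev : ∀ᶠ q : ℕ in atTop, δ / 2 * ‖a0‖ ^ q ≤ ‖∑ a ∈ E, (P a).eval (q : ℂ) * a ^ q‖ := by
    filter_upwards [hlow, hrest.eventually_lt_const (show (0:ℝ) < δ / 2 by positivity)] with q hq1 hq2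
    rw [← Finset.add_sum_erase E _ ha0]
    have h2 : ‖∑ b ∈ E.erase a0, (P b).eval (q : ℂ) * b ^ q‖ ≤ δ / 2 * ‖a0‖ ^ q := by
      have h3 : (∑ b ∈ E.erase a0, ‖(P b).eval (q : ℂ)‖ * (‖b‖ / ‖a0‖) ^ q) * ‖a0‖ ^ q
          = ∑ b ∈ E.erase a0, ‖(P b).eval (q : ℂ) * b ^ q‖ := by
        rw [Finset.sum_mul]
        refine Finset.sum_congr rfl (fun b _ => ?_)
        rw [norm_mul, norm_pow, div_pow]
        field_simp
      refine (norm_sum_le _ _).trans ?_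
      rw [← h3]
      gcongr
    have h4 : ‖(P a0).eval (q : ℂ) * a0 ^ q‖ = ‖(P a0).eval (q : ℂ)‖ * ‖a0‖ ^ q := by
      rw [norm_mul, norm_pow]
    have h5 : δ * ‖a0‖ ^ q ≤ ‖(P a0).eval (q : ℂ)‖ * ‖a0‖ ^ q := by gcongr
    have h6 := norm_sub_le_norm_add ((P a0).eval (q : ℂ) * a0 ^ q)
      (∑ b ∈ E.erase a0, (P b).eval (q : ℂ) * b ^ q)
    linarith
  refine tendsto_atTop_mono' _ hev ?_
  exact (tendsto_pow_atTop_atTop_of_one_lt h1).const_mul_atTop (by positivity)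

end Pool.Agent.V11211.WH
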