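import Mathlib
import Pool.Agent.V11211.WH6

namespace Pool.Agent.V11211.WH

open Filter Topology ComplexConjugate

theorem dep_power {z w : ℂ} (hz : ‖z‖ = 1) (hw : ‖w‖ = 1) (hzinf : InfOrd z) (h : ¬ Indep z w) :
    ∃ (M : ℕ) (l : ℤ), 0 < M ∧ w ^ M = z ^ l := by
  have hz0 : z ≠ 0 := by intro h; rw [h, norm_zero] at hz; exact zero_ne_one hz
  have hw0 : w ≠ 0 := by intro h; rw [h, norm_zero] at hw; exact zero_ne_one hw
  rw [Indep] at h
  push Not at h
  obtain ⟨m, n, hmn, hne⟩ := h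
  have hn : n ≠ 0 := by
    intro hn
    have hm : m ≠ 0 := fun hm => hne hm hn
    rw [hn, zpow_zero, mul_one] at hmn
    rcases lt_or_gt_of_ne hm with h1 | h1
    · refine hzinf (-m).toNat (by omega) ?_
      rw [← zpow_natCast, Int.toNat_of_nonneg (by omega), zpow_neg, hmn, inv_one]
    · refine hzinf m.toNat (by omega) ?_
      rw [← zpow_natCast, Int.toNat_of_nonneg (by omega), hmn]
  rcases lt_or_gt_of_ne hn with h1 | h1
  · refine ⟨(-n).toNat, m, by omega, ?_⟩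
    rw [← zpow_natCast, Int.toNat_of_nonneg (by omega), zpow_neg]
    exact (eq_inv_of_mul_eq_one_left hmn).symm
  · refine ⟨n.toNat, -m, by omega, ?_⟩
    rw [← zpow_natCast, Int.toNat_of_nonneg (by omega), zpow_neg]
    exact eq_inv_of_mul_eq_one_right hmn

theorem avoid_dependent (E : Finset ℂ) (P : ℂ → Polynomial ℂ) (hE0 : ∀ a ∈ E, a ≠ 0) (z : ℂ)
    (hz : ‖z‖ = 1) (hzinf : InfOrd z) (hdep : ∀ d ∈ E, ¬ Indep z (ph d)) :
    Avoid (fun q : ℕ => ∑ a ∈ E, (P a).eval (q : ℂ) * a ^ q) := by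
  classical
  have h1 : ∀ d ∈ E, ∃ (M : ℕ) (l : ℤ), 0 < M ∧ (ph d) ^ M = z ^ l := fun d hd =>
    dep_power hz (norm_ph (hE0 d hd)) hzinf (hdep d hd)
  choose! M l hM hl using h1
  set K := ∏ d ∈ E, M d with hK
  have hKpos : 0 < K := Finset.prod_pos (fun d hd => hM d hd)
  have h2 : ∀ d ∈ E, ∃ n : ℤ, (ph d) ^ K = z ^ n := by
    intro d hd
    obtain ⟨t, ht⟩ := Finset.dvd_prod_of_mem M hd
    refine ⟨l d * t, ?_⟩
    rw [hK, ht, pow_mul, hl d hd, zpow_mul, zpow_natCast]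
  choose! n hn using h2
  refine avoid_of_residues K hKpos (fun r _ => ?_)
  have h3 := avoid_rank_one E (fun a => Polynomial.C (a ^ r) *
    (P a).comp (Polynomial.C (K : ℂ) * Polynomial.X + Polynomial.C (r : ℂ)))
    (fun a => ‖a‖ ^ K) (fun a ha => pow_pos (norm_pos_iff.mpr (hE0 a ha)) _) n z hz
  refine (congrArg Avoid ?_).mp h3
  funext q
  refine Finset.sum_congr rfl (fun a ha => ?_)
  simp only [Polynomial.eval_mul, Polynomial.eval_C, Polynomial.eval_comp, Polynomial.eval_add,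
    Polynomial.eval_X]
  have h4 : ((‖a‖ ^ K : ℝ) : ℂ) ^ q * (z ^ q) ^ n a = (a ^ K) ^ q := by
    have h5 : (a : ℂ) ^ K = ((‖a‖ ^ K : ℝ) : ℂ) * z ^ n a := by
      rw [← hn a ha]
      push_cast
      rw [← mul_pow, ph_mul_norm (hE0 a ha)]
    rw [h5, mul_pow]
    congr 1
    rw [← zpow_natCast, ← zpow_natCast, ← zpow_mul, ← zpow_mul, mul_comm]
  have h6 : a ^ (K * q + r) = (a ^ K) ^ q * a ^ r := by rw [pow_add, pow_mul]
  rw [h6, ← h4]
  push_cast
  ring

theorem infOrd_of_div {a b : ℂ} (h : InfOrd (a / b)) (hna : ¬ InfOrd a) : InfOrd b := by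
  intro m hm hb
  rw [InfOrd] at hna
  push Not at hna
  obtain ⟨k, hk, hak⟩ := hna
  refine h (k * m) (Nat.mul_pos hk hm) ?_
  rw [div_pow, pow_mul, hak, one_pow, mul_comm, pow_mul, hb, one_pow, div_one]

theorem avoid_reduced (P : ℂ →₀ Polynomial ℂ) (h0 : (0:ℂ) ∉ P.support) (hK : NoK P)
    (hred : ∀ a ∈ P.support, ∀ b ∈ P.support, a ≠ b → ‖a‖ = ‖b‖ → InfOrd (a / b)) :
    Avoid (val P) := by
  classical
  set E : Finset ℂ := P.support.filter (fun a => 1 < ‖a‖ ∨ (‖a‖ = 1 ∧ 1 ≤ (P a).natDegree)) with hE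
  have hEs : ∀ a ∈ E, a ∈ P.support := fun a ha => (Finset.mem_filter.mp ha).1
  have hE0 : ∀ a ∈ E, a ≠ 0 := by
    intro a ha h; rw [h] at ha; exact h0 (hEs 0 ha)
  have hE2 : ∀ a ∈ E, 1 < ‖a‖ ∨ (‖a‖ = 1 ∧ 1 ≤ (P a).natDegree) := fun a ha =>
    (Finset.mem_filter.mp ha).2
  -- bounded difference
  have hbd : ∃ C : ℝ, ∀ q : ℕ, ‖(∑ a ∈ E, (P a).eval (q : ℂ) * a ^ q) - val P q‖ ≤ C := by
    have h1 : ∀ a ∈ P.support \ E, ∃ C : ℝ, ∀ q : ℕ, ‖(P a).eval (q : ℂ) * a ^ q‖ ≤ C := by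
      intro a ha
      rw [Finset.mem_sdiff] at ha
      refine bounded_term (P a) a ?_
      have h2 : ¬ (1 < ‖a‖ ∨ (‖a‖ = 1 ∧ 1 ≤ (P a).natDegree)) := fun h =>
        ha.2 (Finset.mem_filter.mpr ⟨ha.1, h⟩)
      push Not at h2
      rcases lt_or_eq_of_le h2.1 with h3 | h3
      · exact Or.inl h3
      · refine Or.inr ⟨h3, ?_⟩
        have := h2.2 h3; omega
    choose! C hC using h1
    refine ⟨∑ a ∈ P.support \ E, C a, fun q => ?_⟩
    have h3 : (∑ a ∈ E, (P a).eval (q : ℂ) * a ^ q) - val P q =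
        - ∑ a ∈ P.support \ E, (P a).eval (q : ℂ) * a ^ q := by
      rw [val, Finsupp.sum, ← Finset.sum_sdiff (Finset.filter_subset _ _ : E ⊆ P.support)]
      ring
    rw [h3, norm_neg]
    exact (norm_sum_le _ _).trans (Finset.sum_le_sum (fun a ha => hC a ha q))
  obtain ⟨C, hC⟩ := hbd
  refine avoid_perturb ?_ C hC
  rcases E.eq_empty_or_nonempty with hemp | hne
  · have h1 := avoid_rank_one (∅ : Finset ℂ) (fun a => P a) (fun _ => 1) (by simp) (fun _ => 0) 1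
      (by simp)
    rw [hemp]
    simpa using h1
  · obtain ⟨a0, ha0, hmax⟩ := E.exists_max_image (fun a => ‖a‖) hne
    by_cases huniq : ∃ b ∈ E, b ≠ a0 ∧ ‖b‖ = ‖a0‖
    · -- rank one
      obtain ⟨b0, hb0, hb0a, hb0n⟩ := huniq
      have hinf := hred a0 (hEs _ ha0) b0 (hEs _ hb0) (Ne.symm hb0a) hb0n.symm
      -- choose a, b
      obtain ⟨a, b, ha, hb, hab, hna, hinfab, hainf⟩ : ∃ a b, a ∈ E ∧ b ∈ E ∧ ‖a‖ = ‖b‖ ∧
          ‖a‖ = ‖a0‖ ∧ InfOrd (a / b) ∧ InfOrd (ph a) := by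
        by_cases h1 : InfOrd (ph a0)
        · exact ⟨a0, b0, ha0, hb0, hb0n.symm, rfl, hinf, h1⟩
        · refine ⟨b0, a0, hb0, ha0, hb0n, hb0n, hred b0 (hEs _ hb0) a0 (hEs _ ha0) hb0a hb0n, ?_⟩
          refine infOrd_of_div ?_ h1
          have h2 : ph a0 / ph b0 = a0 / b0 := by
            rw [ph, ph, hb0n]
            have h3 : (‖a0‖ : ℂ) ≠ 0 := by exact_mod_cast norm_ne_zero_iff.mpr (hE0 a0 ha0)
            have hb00 := hE0 b0 hb0
            field_simp
          rw [h2]; exact hinf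
      have hamax : ∀ d ∈ E, ‖d‖ ≤ ‖a‖ := fun d hd => hna ▸ hmax d hd
      refine avoid_dependent E P hE0 (ph a) (norm_ph (hE0 a ha)) hainf (fun d hd => ?_)
      rcases hE2 a ha with h1 | ⟨h1, h1'⟩
      · rcases hE2 d hd with h2 | ⟨h2, h2'⟩
        · rcases lt_or_eq_of_le (hamax d hd) with h3 | h3
          · exact hK.k3 a (hEs _ ha) b (hEs _ hb) d (hEs _ hd) hab h3 h2 hinfab
          · exact hK.k1 a (hEs _ ha) d (hEs _ hd) h3.symm h1
        · rw [ph_of_norm_one h2]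
          exact hK.k4 a (hEs _ ha) b (hEs _ hb) d (hEs _ hd) hab h1 h2 h2' hinfab
      · have h2 : ‖d‖ = 1 ∧ 1 ≤ (P d).natDegree := by
          rcases hE2 d hd with h3 | h3
          · have := hamax d hd; linarith
          · exact h3
        rw [ph_of_norm_one h1, ph_of_norm_one h2.1]
        exact hK.k2 a (hEs _ ha) d (hEs _ hd) h1 h2.1 h1' h2.2
    · -- unique maximal modulus
      have huniq2 : ∀ b ∈ E, b ≠ a0 → ‖b‖ < ‖a0‖ := by
        intro b hb hne
        refine lt_of_le_of_ne (hmax b hb) (fun h => huniq ⟨b, hb, hne, h⟩)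
      refine avoid_of_tendsto ?_
      rcases hE2 a0 ha0 with h1 | ⟨h1, h1'⟩
      · exact unique_max E P a0 ha0 (Finsupp.mem_support_iff.mp (hEs _ ha0)) huniq2 h1
      · have hE1 : E = {a0} := by
          refine Finset.eq_singleton_iff_unique_mem.mpr ⟨ha0, fun b hb => ?_⟩
          by_contra hne
          have h2 := huniq2 b hb hne
          rcases hE2 b hb with h3 | h3
          · linarith
          · linarith [h3.1]
        rw [hE1]
        have h2 : 0 < (P a0).degree := Polynomial.natDegree_pos_iff_degree_pos.mp (by omega)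
        refine (Polynomial.tendsto_norm_atTop (P a0) h2 norm_natCast_tendsto).congr (fun q => ?_)
        rw [Finset.sum_singleton, norm_mul, norm_pow, h1, one_pow, mul_one]

/-- restriction to a residue class -/
noncomputable def red (P : ℂ →₀ Polynomial ℂ) (N r : ℕ) : ℂ →₀ Polynomial ℂ :=
  P.sum (fun a p => Finsupp.single (a ^ N) (Polynomial.C (a ^ r) *
    p.comp (Polynomial.C (N : ℂ) * Polynomial.X + Polynomial.C (r : ℂ))))

theorem val_red (P : ℂ →₀ Polynomial ℂ) (N r q : ℕ) : val (red P N r) q = val P (N * q + r) := by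
  classical
  rw [val, red, Finsupp.sum_sum_index (by simp) (by intro a p1 p2; simp [add_mul])]
  rw [val]
  refine Finsupp.sum_congr (fun a _ => ?_)
  rw [Finsupp.sum_single_index (by simp)]
  simp only [Polynomial.eval_mul, Polynomial.eval_C, Polynomial.eval_comp, Polynomial.eval_add,
    Polynomial.eval_X]
  rw [pow_add, pow_mul]
  push_cast
  ring

theorem red_apply (P : ℂ →₀ Polynomial ℂ) (N r : ℕ) (Λ : ℂ) :
    red P N r Λ = ∑ a ∈ P.support, if a ^ N = Λ then Polynomial.C (a ^ r) *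
      (P a).comp (Polynomial.C (N : ℂ) * Polynomial.X + Polynomial.C (r : ℂ)) else 0 := by
  classical
  rw [red, Finsupp.sum, Finsupp.finsetSum_apply]
  exact Finset.sum_congr rfl (fun a _ => by rw [Finsupp.single_apply])

theorem red_support (P : ℂ →₀ Polynomial ℂ) (N r : ℕ) (Λ : ℂ) (h : Λ ∈ (red P N r).support) :
    ∃ a ∈ P.support, a ^ N = Λ := by
  classical
  by_contra hcon
  push Not at hcon
  apply Finsupp.mem_support_iff.mp h
  rw [red_apply]
  exact Finset.sum_eq_zero (fun a ha => by rw [if_neg (hcon a ha)])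

theorem red_degree (P : ℂ →₀ Polynomial ℂ) (N r : ℕ) (Λ : ℂ) (h : 1 ≤ (red P N r Λ).natDegree) :
    ∃ a ∈ P.support, a ^ N = Λ ∧ 1 ≤ (P a).natDegree := by
  classical
  by_contra hcon
  push Not at hcon
  have h1 : (red P N r Λ).natDegree ≤ 0 := by
    rw [red_apply]
    refine Polynomial.natDegree_sum_le_of_forall_le _ _ (fun a ha => ?_)
    split_ifs with h2
    · have h3 := hcon a ha h2
      have h4 : (P a).natDegree = 0 := by omega
      rw [Polynomial.eq_C_of_natDegree_eq_zero h4]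
      rw [Polynomial.C_comp, ← Polynomial.C_mul, Polynomial.natDegree_C]
    · simp
  omega

theorem indep_of_pow {a b : ℂ} {N : ℕ} (h : Indep (a ^ N) (b ^ N)) : Indep a b := by
  intro m n hmn
  refine h m n ?_
  rw [← zpow_natCast, ← zpow_natCast, ← zpow_mul, ← zpow_mul, mul_comm (N:ℤ) m, mul_comm (N:ℤ) n,
    zpow_mul, zpow_mul, ← mul_zpow, hmn, one_zpow]

theorem infOrd_of_pow {a : ℂ} {N : ℕ} (h : InfOrd (a ^ N)) : InfOrd a := by
  intro m hm ha
  refine h m hm ?_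
  rw [← pow_mul, mul_comm, pow_mul, ha, one_pow]

theorem noK_red {P : ℂ →₀ Polynomial ℂ} (hK : NoK P) {N : ℕ} (hN : 0 < N) (r : ℕ) :
    NoK (red P N r) := by
  have hn : ∀ x y : ℂ, ‖x ^ N‖ = ‖y ^ N‖ → ‖x‖ = ‖y‖ := by
    intro x y h
    rw [norm_pow, norm_pow] at h
    exact (pow_left_inj₀ (norm_nonneg _) (norm_nonneg _) hN.ne').mp h
  have hlt : ∀ x y : ℂ, ‖x ^ N‖ < ‖y ^ N‖ → ‖x‖ < ‖y‖ := by
    intro x y h
    rw [norm_pow, norm_pow] at h
    exact lt_of_pow_lt_pow_left₀ N (norm_nonneg _) h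
  have h1lt : ∀ x : ℂ, 1 < ‖x ^ N‖ → 1 < ‖x‖ := by
    intro x h
    rw [norm_pow] at h
    by_contra hle
    rw [not_lt] at hle
    exact absurd (pow_le_one₀ (norm_nonneg _) hle) (not_le.mpr h)
  have h1eq : ∀ x : ℂ, ‖x ^ N‖ = 1 → ‖x‖ = 1 := by
    intro x h
    rw [norm_pow] at h
    exact (pow_eq_one_iff_of_nonneg (norm_nonneg _) hN.ne').mp h
  refine ⟨?_, ?_, ?_, ?_⟩
  · intro A hA B hB hAB hA1 hind
    obtain ⟨a, ha, rfl⟩ := red_support P N r A hA
    obtain ⟨b, hb, rfl⟩ := red_support P N r B hB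
    rw [ph_pow, ph_pow] at hind
    exact hK.k1 a ha b hb (hn _ _ hAB) (h1lt _ hA1) (indep_of_pow hind)
  · intro A hA B hB hA1 hB1 hdA hdB hind
    obtain ⟨a, ha, rfl, hda⟩ := red_degree P N r A hdA
    obtain ⟨b, hb, rfl, hdb⟩ := red_degree P N r B hdB
    exact hK.k2 a ha b hb (h1eq _ hA1) (h1eq _ hB1) hda hdb (indep_of_pow hind)
  · intro A hA B hB C hC hAB hCA hC1 hinf hind
    obtain ⟨a, ha, rfl⟩ := red_support P N r A hA
    obtain ⟨b, hb, rfl⟩ := red_support P N r B hB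
    obtain ⟨c, hc, rfl⟩ := red_support P N r C hC
    rw [ph_pow, ph_pow] at hind
    rw [← div_pow] at hinf
    exact hK.k3 a ha b hb c hc (hn _ _ hAB) (hlt _ _ hCA) (h1lt _ hC1) (infOrd_of_pow hinf)
      (indep_of_pow hind)
  · intro A hA B hB C hC hAB hA1 hC1 hdC hinf hind
    obtain ⟨a, ha, rfl⟩ := red_support P N r A hA
    obtain ⟨b, hb, rfl⟩ := red_support P N r B hB
    obtain ⟨c, hc, rfl, hdc⟩ := red_degree P N r C hdC
    rw [ph_pow] at hind
    rw [← div_pow] at hinf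
    exact hK.k4 a ha b hb c hc (hn _ _ hAB) (h1lt _ hA1) (h1eq _ hC1) hdc (infOrd_of_pow hinf)
      (indep_of_pow hind)

/-- **Core theorem.** -/
theorem avoid_of_noK (P : ℂ →₀ Polynomial ℂ) (h0 : (0:ℂ) ∉ P.support) (hK : NoK P) :
    Avoid (val P) := by
  classical
  have h1 : ∀ ab : ℂ × ℂ, ∃ m : ℕ, 0 < m ∧ (¬ InfOrd (ab.1 / ab.2) → (ab.1 / ab.2) ^ m = 1) := by
    intro ab
    by_cases h : InfOrd (ab.1 / ab.2)
    · exact ⟨1, one_pos, fun h' => absurd h h'⟩
    · have h' := h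
      rw [InfOrd] at h'
      push Not at h'
      obtain ⟨m, hm, hm1⟩ := h'
      exact ⟨m, hm, fun _ => hm1⟩
  choose m hm hm1 using h1
  set N := ∏ ab ∈ P.support ×ˢ P.support, m ab with hN
  have hNpos : 0 < N := Finset.prod_pos (fun ab _ => hm ab)
  have hN1 : ∀ a ∈ P.support, ∀ b ∈ P.support, ¬ InfOrd (a / b) → (a / b) ^ N = 1 := by
    intro a ha b hb h
    obtain ⟨t, ht⟩ := Finset.dvd_prod_of_mem m (Finset.mk_mem_product ha hb)
    rw [hN, ht, pow_mul, hm1 (a, b) h, one_pow]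
  refine avoid_of_residues N hNpos (fun r _ => ?_)
  have h2 : (fun q => val P (N * q + r)) = val (red P N r) := by
    funext q; rw [val_red]
  rw [h2]
  have hsupp0 : ∀ a ∈ P.support, a ≠ 0 := fun a ha h => h0 (h ▸ ha)
  refine avoid_reduced _ ?_ (noK_red hK hNpos r) ?_
  · intro h
    obtain ⟨a, ha, ha0⟩ := red_support P N r 0 h
    exact hsupp0 a ha (pow_eq_zero_iff hNpos.ne' |>.mp ha0)
  · intro A hA B hB hne _
    obtain ⟨a, ha, rfl⟩ := red_support P N r A hA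
    obtain ⟨b, hb, rfl⟩ := red_support P N r B hB
    rw [← div_pow]
    intro k hk hk1
    have h3 : ¬ InfOrd (a / b) := by
      intro h
      exact h (N * k) (Nat.mul_pos hNpos hk) (by rw [pow_mul]; exact hk1)
    have h4 := hN1 a ha b hb h3
    rw [div_pow, div_eq_one_iff_eq (pow_ne_zero _ (hsupp0 b hb))] at h4
    exact hne h4

end Pool.Agent.V11211.WH
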