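import Mathlib
import Pool.Agent.V11211.WH7

namespace Pool.Agent.V11211.WH

open Filter Topology

variable {V : Type*} [AddCommGroup V] [Module ℂ V]

/-- the orbit `k ↦ f (T^k x)` is, up to a bounded error, an exponential polynomial with the
expected spectral restrictions. -/
def Rep (T : Module.End ℂ V) (f : V →ₗ[ℂ] ℂ) (x : V) : Prop :=
  ∃ P : ℂ →₀ Polynomial ℂ, (0:ℂ) ∉ P.support ∧ (∀ a ∈ P.support, T.HasEigenvalue a) ∧
    (∀ a, 1 ≤ (P a).natDegree →
      LinearMap.ker ((T - a • (1 : Module.End ℂ V)) ^ 2) ≠ LinearMap.ker (T - a • (1 : Module.End ℂ V))) ∧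
    ∃ C : ℝ, ∀ k : ℕ, ‖f ((T ^ k) x) - val P k‖ ≤ C

theorem val_add (P Q : ℂ →₀ Polynomial ℂ) (k : ℕ) : val (P + Q) k = val P k + val Q k := by
  classical
  rw [val, Finsupp.sum_add_index' (by simp) (by intro a p1 p2; simp [add_mul])]; rfl

theorem Rep.add {T : Module.End ℂ V} {f : V →ₗ[ℂ] ℂ} {x y : V} (hx : Rep T f x) (hy : Rep T f y) :
    Rep T f (x + y) := by
  classical
  obtain ⟨P, hP0, hPe, hPd, C, hC⟩ := hx
  obtain ⟨Q, hQ0, hQe, hQd, C', hC'⟩ := hy
  have hsupp : ∀ a ∈ (P + Q).support, a ∈ P.support ∨ a ∈ Q.support := by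
    intro a ha
    exact Finset.mem_union.mp (Finsupp.support_add ha)
  refine ⟨P + Q, ?_, ?_, ?_, C + C', ?_⟩
  · intro h
    rcases hsupp 0 h with h | h
    · exact hP0 h
    · exact hQ0 h
  · intro a ha
    rcases hsupp a ha with h | h
    · exact hPe a h
    · exact hQe a h
  · intro a ha
    by_cases h : 1 ≤ (P a).natDegree
    · exact hPd a h
    · refine hQd a ?_
      have h1 : ((P + Q) a).natDegree ≤ max (P a).natDegree (Q a).natDegree := by
        rw [Finsupp.add_apply]; exact Polynomial.natDegree_add_le _ _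
      omega
  · intro k
    rw [val_add, map_add, map_add]
    calc ‖f ((T ^ k) x) + f ((T ^ k) y) - (val P k + val Q k)‖
        = ‖(f ((T ^ k) x) - val P k) + (f ((T ^ k) y) - val Q k)‖ := by congr 1; ring
      _ ≤ _ := (norm_add_le _ _).trans (add_le_add (hC k) (hC' k))

theorem Rep.zero (T : Module.End ℂ V) (f : V →ₗ[ℂ] ℂ) : Rep T f 0 :=
  ⟨0, by simp, by simp, by simp, 0, fun k => by simp [val]⟩

theorem ker_descend {N : Module.End ℂ V} (h : LinearMap.ker (N ^ 2) = LinearMap.ker N) (m : ℕ) :
    ∀ x, (N ^ m) x = 0 → 1 ≤ m → N x = 0 := by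
  induction m with
  | zero => intro x _ h1; omega
  | succ m ih =>
    intro x hx _
    rcases Nat.eq_zero_or_pos m with h0 | h0
    · subst h0; simpa using hx
    · obtain ⟨m', rfl⟩ := Nat.exists_eq_add_of_le' h0
      have h1 : (N ^ m') x ∈ LinearMap.ker (N ^ 2) := by
        rw [LinearMap.mem_ker, ← Module.End.mul_apply, ← pow_add]
        rw [show 2 + m' = m' + 1 + 1 by ring]; exact hx
      rw [h, LinearMap.mem_ker, ← Module.End.mul_apply, ← pow_succ'] at h1
      exact ih x h1 (by omega)

theorem choose_poly (k i : ℕ) : ((k.choose i : ℕ) : ℂ) =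
    (Polynomial.C ((i.factorial : ℂ)⁻¹) * descPochhammer ℂ i).eval (k : ℂ) := by
  rw [Polynomial.eval_mul, Polynomial.eval_C, descPochhammer_eval_eq_descFactorial,
    Nat.descFactorial_eq_factorial_mul_choose]
  push_cast
  have : (i.factorial : ℂ) ≠ 0 := by exact_mod_cast i.factorial_ne_zero
  field_simp

theorem Rep.of_gen (T : Module.End ℂ V) (f : V →ₗ[ℂ] ℂ) (a : ℂ) (x : V)
    (hx : x ∈ T.maxGenEigenspace a) : Rep T f x := by
  classical
  by_cases hx0 : x = 0
  · rw [hx0]; exact Rep.zero T f
  rw [Module.End.mem_maxGenEigenspace] at hx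
  obtain ⟨m, hm⟩ := hx
  set N := T - a • (1 : Module.End ℂ V) with hN
  have hT : T = N + a • (1 : Module.End ℂ V) := by rw [hN]; abel
  -- eigenvalue
  have heig : T.HasEigenvalue a := by
    have hex : ∃ k, (N ^ k) x = 0 := ⟨m, hm⟩
    set k := Nat.find hex with hk
    have hk1 : (N ^ k) x = 0 := Nat.find_spec hex
    have hk0 : k ≠ 0 := by
      intro h; rw [h] at hk1; exact hx0 (by simpa using hk1)
    obtain ⟨k', hk'⟩ := Nat.exists_eq_succ_of_ne_zero hk0
    have h2 : (N ^ k') x ≠ 0 := Nat.find_min hex (by omega)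
    have h3 : N ((N ^ k') x) = 0 := by
      rw [← Module.End.mul_apply, ← pow_succ']; rw [hk'] at hk1; exact hk1
    refine Module.End.hasEigenvalue_of_hasEigenvector (x := (N ^ k') x) ?_
    refine ⟨?_, h2⟩
    rw [Module.End.mem_eigenspace_iff]
    rw [hN] at h3
    rw [LinearMap.sub_apply, LinearMap.smul_apply, Module.End.one_apply, sub_eq_zero] at h3
    exact h3
  by_cases ha : a = 0
  · -- nilpotent part
    have hTN : T = N := by rw [hT, ha]; simp
    refine ⟨0, by simp, by simp, by simp, ∑ k ∈ Finset.range m, ‖f ((T ^ k) x)‖, fun k => ?_⟩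
    have hv : val (0 : ℂ →₀ Polynomial ℂ) k = 0 := by simp [val]
    rw [hv, sub_zero]
    by_cases hk : k < m
    · exact Finset.single_le_sum (f := fun k => ‖f ((T ^ k) x)‖) (fun _ _ => norm_nonneg _)
        (Finset.mem_range.mpr hk)
    · have h1 : (T ^ k) x = 0 := by
        obtain ⟨j, hj⟩ := Nat.exists_eq_add_of_le (not_lt.mp hk)
        rw [hj, add_comm, pow_add, Module.End.mul_apply, hTN, hm, map_zero]
      rw [h1, map_zero, norm_zero]
      exact Finset.sum_nonneg (fun _ _ => norm_nonneg _)
  · by_cases hker : LinearMap.ker (N ^ 2) = LinearMap.ker N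
    · have hNx : N x = 0 := by
        rcases Nat.eq_zero_or_pos m with h0 | h0
        · subst h0; exact absurd (by simpa using hm) hx0
        · exact ker_descend hker m x hm h0
      have hTx : T x = a • x := by
        rw [hT, LinearMap.add_apply, hNx, zero_add, LinearMap.smul_apply, Module.End.one_apply]
      have hTk : ∀ k : ℕ, (T ^ k) x = a ^ k • x := by
        intro k
        induction k with
        | zero => simp
        | succ k ih => rw [pow_succ', Module.End.mul_apply, ih, map_smul, hTx, smul_smul, ← pow_succ]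
      refine ⟨Finsupp.single a (Polynomial.C (f x)), ?_, ?_, ?_, 0, ?_⟩
      · intro h
        have := Finsupp.support_single_subset h
        rw [Finset.mem_singleton] at this
        exact ha this.symm
      · intro b hb
        have := Finsupp.support_single_subset hb
        rw [Finset.mem_singleton] at this
        rw [this]; exact heig
      · intro b hb
        rw [Finsupp.single_apply] at hb
        split_ifs at hb
        · rw [Polynomial.natDegree_C] at hb; omega
        · simp at hb
      · intro k
        rw [hTk, map_smul, smul_eq_mul, val, Finsupp.sum_single_index (by simp),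
          Polynomial.eval_C, mul_comm, sub_self, norm_zero]
    · set p : Polynomial ℂ := ∑ i ∈ Finset.range m, Polynomial.C (a⁻¹ ^ i * f ((N ^ i) x)) *
        (Polynomial.C ((i.factorial : ℂ)⁻¹) * descPochhammer ℂ i) with hp
      refine ⟨Finsupp.single a p, ?_, ?_, ?_, 0, ?_⟩
      · intro h
        have := Finsupp.support_single_subset h
        rw [Finset.mem_singleton] at this
        exact ha this.symm
      · intro b hb
        have := Finsupp.support_single_subset hb
        rw [Finset.mem_singleton] at this
        rw [this]; exact heig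
      · intro b hb
        rw [Finsupp.single_apply] at hb
        split_ifs at hb with hab
        · rw [← hab]; exact hker
        · simp at hb
      · intro k
        have h1 : f ((T ^ k) x) = p.eval (k : ℂ) * a ^ k := by
          have hcomm : Commute N (a • (1 : Module.End ℂ V)) :=
            (Commute.one_right N).smul_right a
          have h2 : (T ^ k) x = ∑ i ∈ Finset.range (k + 1),
              ((k.choose i : ℂ) * a ^ (k - i)) • (N ^ i) x := by
            rw [hT, hcomm.add_pow, LinearMap.sum_apply]
            refine Finset.sum_congr rfl (fun i _ => ?_)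
            rw [smul_pow, one_pow]
            rw [show (N ^ i * a ^ (k - i) • (1 : Module.End ℂ V) * ((k.choose i : ℕ) : Module.End ℂ V))
              = ((k.choose i : ℂ) * a ^ (k - i)) • (N ^ i) by
                rw [mul_smul_comm, mul_one, smul_mul_assoc, ← Nat.cast_comm, ← nsmul_eq_mul,
                  ← Nat.cast_smul_eq_nsmul ℂ, smul_smul, mul_comm]]
            rfl
          rw [h2, map_sum, hp, Polynomial.eval_finset_sum, Finset.sum_mul]
          -- extend both sums
          have h3 : ∀ i, ((k.choose i : ℂ) * a ^ (k - i)) * f ((N ^ i) x) =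
              (Polynomial.C (a⁻¹ ^ i * f ((N ^ i) x)) *
        (Polynomial.C ((i.factorial : ℂ)⁻¹) * descPochhammer ℂ i)).eval (k : ℂ) * a ^ k := by
            intro i
            rw [Polynomial.eval_mul, Polynomial.eval_C, ← choose_poly]
            by_cases hi : i ≤ k
            · have h4 : a ^ (k - i) = a ^ k * a⁻¹ ^ i := by
                rw [inv_pow, ← div_eq_mul_inv, eq_div_iff (pow_ne_zero _ ha), ← pow_add,
                  Nat.sub_add_cancel hi]
              rw [h4]; ring
            · rw [Nat.choose_eq_zero_of_lt (not_le.mp hi)]; simp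
          have h5 : ∀ i, f (((k.choose i : ℂ) * a ^ (k - i)) • (N ^ i) x) =
              (Polynomial.C (a⁻¹ ^ i * f ((N ^ i) x)) *
        (Polynomial.C ((i.factorial : ℂ)⁻¹) * descPochhammer ℂ i)).eval (k : ℂ) * a ^ k := by
            intro i
            rw [map_smul, smul_eq_mul, h3 i]
          rw [Finset.sum_congr rfl (fun i _ => h5 i)]
          have hz1 : ∀ i, m ≤ i → (Polynomial.C (a⁻¹ ^ i * f ((N ^ i) x)) *
        (Polynomial.C ((i.factorial : ℂ)⁻¹) * descPochhammer ℂ i)).eval (k : ℂ) * a ^ k = 0 := by
            intro i hi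
            have h6 : (N ^ i) x = 0 := by
              obtain ⟨j, hj⟩ := Nat.exists_eq_add_of_le hi
              rw [hj, add_comm, pow_add, Module.End.mul_apply, hm, map_zero]
            rw [h6, map_zero, mul_zero, Polynomial.C_0, zero_mul, Polynomial.eval_zero, zero_mul]
          have hz2 : ∀ i, k < i → (Polynomial.C (a⁻¹ ^ i * f ((N ^ i) x)) *
        (Polynomial.C ((i.factorial : ℂ)⁻¹) * descPochhammer ℂ i)).eval (k : ℂ) * a ^ k = 0 := by
            intro i hi
            rw [← h3 i, Nat.choose_eq_zero_of_lt hi]; simp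
          rw [Finset.sum_subset (s₁ := Finset.range (k + 1)) (s₂ := Finset.range (k + 1 + m))
            (Finset.range_subset_range.mpr (by omega))
            (fun i _ hi => hz2 i (by simpa using hi))]
          rw [Finset.sum_subset (s₁ := Finset.range m) (s₂ := Finset.range (k + 1 + m))
            (Finset.range_subset_range.mpr (by omega))
            (fun i _ hi => hz1 i (by simpa using hi))]
        rw [h1, val, Finsupp.sum_single_index (by simp), sub_self, norm_zero]

theorem rep_all [FiniteDimensional ℂ V] (T : Module.End ℂ V) (f : V →ₗ[ℂ] ℂ) (x : V) : Rep T f x := by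
  have hx : x ∈ ⨆ μ : ℂ, T.maxGenEigenspace μ := by
    rw [Module.End.iSup_maxGenEigenspace_eq_top]; trivial
  refine Submodule.iSup_induction _ (motive := fun x => Rep T f x) hx ?_ (Rep.zero T f) ?_
  · intro a y hy; exact Rep.of_gen T f a y hy
  · intro y z hy hz; exact hy.add hz

end Pool.Agent.V11211.WH
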