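import Mathlib

/-!
# Diagonalizing an endomorphism of finite order
-/

set_option autoImplicit false

namespace Pool.Agent.V11211

open Module

/-- An endomorphism of finite order of `ℂ ^ n` has a basis of eigenvectors, with nonzero
eigenvalues. -/
lemma exists_eigenbasis {n : ℕ} (F : End ℂ (Fin n → ℂ)) (N : ℕ) (hN : 0 < N) (hF : F ^ N = 1) :
    ∃ (b : Basis (Fin n) ℂ (Fin n → ℂ)) (ζ : Fin n → ℂ), (∀ j, F (b j) = ζ j • b j) ∧
      ∀ j, ζ j ≠ 0 := by
  classical
  have hsq : Squarefree (Polynomial.X ^ N - 1 : Polynomial ℂ) := by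
    refine Polynomial.Separable.squarefree ?_
    refine Polynomial.separable_X_pow_sub_C (1 : ℂ) ?_ one_ne_zero |> fun h => by
      simpa using h
    exact_mod_cast hN.ne'
  have hss : F.IsSemisimple := End.isSemisimple_of_squarefree_aeval_eq_zero hsq (by
    simp [hF])
  have htop := hss.iSup_eigenspace_eq_top
  have hind := F.eigenspaces_iSupIndep
  have hint : DirectSum.IsInternal (fun μ : ℂ => F.eigenspace μ) :=
    DirectSum.isInternal_submodule_of_iSupIndep_of_iSup_eq_top hind htop
  let v : ∀ μ : ℂ, Basis (Basis.ofVectorSpaceIndex ℂ (F.eigenspace μ)) ℂ (F.eigenspace μ) :=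
    fun μ => Basis.ofVectorSpace ℂ _
  let c := hint.collectedBasis v
  let e := c.indexEquiv (Pi.basisFun ℂ (Fin n))
  refine ⟨c.reindex e, fun j => (e.symm j).1, ?_, ?_⟩
  · intro j
    rw [Basis.reindex_apply]
    exact End.mem_eigenspace_iff.1 (hint.collectedBasis_mem v (e.symm j))
  · intro j h0
    change (e.symm j).1 = 0 at h0
    have h1 : F (c (e.symm j)) = (e.symm j).1 • c (e.symm j) :=
      End.mem_eigenspace_iff.1 (hint.collectedBasis_mem v (e.symm j))
    rw [h0, zero_smul] at h1
    have h2 : (F ^ N) (c (e.symm j)) = 0 := by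
      obtain ⟨M, rfl⟩ : ∃ M, N = M + 1 := ⟨N - 1, by omega⟩
      rw [pow_succ, Module.End.mul_apply, h1, map_zero]
    rw [hF, Module.End.one_apply] at h2
    exact c.ne_zero _ h2

end Pool.Agent.V11211
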