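import Pool.Agent.V11211.Depth

/-!
# The ring of power series in `n` variables over a field
-/

set_option autoImplicit false

namespace Pool.Agent.V11211

open IsLocalRing RingTheory.Sequence Pointwise MvPowerSeries

universe u

section PS

variable {n : ℕ} {k : Type u} [Field k]

/-- The ideal generated by a set of variables. -/
lemma mem_span_X (S : Finset (Fin n)) (f : MvPowerSeries (Fin n) k) :
    f ∈ Ideal.span ((fun i : Fin n => (X i : MvPowerSeries (Fin n) k)) '' (S : Set (Fin n))) ↔
      ∀ d : Fin n →₀ ℕ, (∀ j ∈ S, d j = 0) → coeff d f = 0 := by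
  classical
  constructor
  · intro hf
    induction hf using Submodule.span_induction with
    | mem x hx =>
      intro d hd
      obtain ⟨j, hj, rfl⟩ := hx
      exact (X_dvd_iff.1 dvd_rfl) d (hd j hj)
    | zero => exact fun d _ => map_zero _
    | add x y _ _ hx hy =>
      intro d hd
      rw [map_add, hx d hd, hy d hd, add_zero]
    | smul a x hx ih =>
      intro d hd
      rw [smul_eq_mul, coeff_mul]
      refine Finset.sum_eq_zero ?_
      rintro ⟨p, q⟩ hpq
      rw [Finset.HasAntidiagonal.mem_antidiagonal] at hpq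
      rw [ih q, mul_zero]
      intro j hj
      have h1 := hd j hj
      rw [← hpq, Finsupp.add_apply] at h1
      exact (Nat.add_eq_zero_iff.1 h1).2
  · induction S using Finset.induction_on generalizing f with
    | empty =>
      intro h
      have : f = 0 := by
        ext d
        rw [h d (by simp), map_zero]
      rw [this]
      exact Ideal.zero_mem _
    | insert j S hj ih =>
      intro h
      let f0 : MvPowerSeries (Fin n) k := fun d => if d j = 0 then coeff d f else 0
      have hf0 : ∀ d, coeff d f0 = if d j = 0 then coeff d f else 0 := fun d => rfl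
      have h1 : X j ∣ f - f0 := by
        rw [X_dvd_iff]
        intro d hd
        rw [map_sub, hf0, if_pos hd, sub_self]
      have h2 : f0 ∈ Ideal.span
          ((fun i : Fin n => (X i : MvPowerSeries (Fin n) k)) '' (S : Set (Fin n))) := by
        refine ih f0 ?_
        intro d hd
        rw [hf0]
        split_ifs with h3
        · refine h d ?_
          intro i hi
          rw [Finset.mem_insert] at hi
          rcases hi with rfl | hi
          · exact h3
          · exact hd i hi
        · rfl
      have h3 : f = (f - f0) + f0 := by ring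
      rw [h3]
      refine Ideal.add_mem _ ?_ ?_
      · obtain ⟨g, hg⟩ := h1
        rw [hg]
        exact Ideal.mul_mem_right _ _ (Ideal.subset_span ⟨j, by simp, rfl⟩)
      · refine Ideal.span_mono ?_ h2
        exact Set.image_mono (by simp)

lemma mem_maximalIdeal_iff (f : MvPowerSeries (Fin n) k) :
    f ∈ maximalIdeal (MvPowerSeries (Fin n) k) ↔ constantCoeff f = 0 := by
  rw [IsLocalRing.mem_maximalIdeal, mem_nonunits_iff, MvPowerSeries.isUnit_iff_constantCoeff,
    isUnit_iff_ne_zero, not_not]

lemma maximalIdeal_eq_span :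
    maximalIdeal (MvPowerSeries (Fin n) k) =
      Ideal.span (Set.range (fun i : Fin n => (X i : MvPowerSeries (Fin n) k))) := by
  ext f
  have h := mem_span_X (k := k) (Finset.univ : Finset (Fin n)) f
  rw [Finset.coe_univ, Set.image_univ] at h
  rw [h, mem_maximalIdeal_iff]
  constructor
  · intro hf d hd
    have : d = 0 := by
      ext j
      exact hd j (Finset.mem_univ j)
    rw [this]
    exact hf
  · intro hf
    exact hf 0 (fun _ _ => rfl)

lemma X_regular (S : Finset (Fin n)) (i : Fin n) (hi : i ∉ S) (y : MvPowerSeries (Fin n) k)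
    (hy : X i * y ∈ Ideal.span
      ((fun i : Fin n => (X i : MvPowerSeries (Fin n) k)) '' (S : Set (Fin n)))) :
    y ∈ Ideal.span
      ((fun i : Fin n => (X i : MvPowerSeries (Fin n) k)) '' (S : Set (Fin n))) := by
  classical
  rw [mem_span_X] at hy ⊢
  intro d hd
  have h1 := hy (Finsupp.single i 1 + d) (by
    intro j hj
    have hij : i ≠ j := by
      rintro rfl
      exact hi hj
    rw [Finsupp.add_apply, Finsupp.single_apply, if_neg hij, hd j hj])
  have h2 : (X i : MvPowerSeries (Fin n) k) = monomial (Finsupp.single i 1) (1 : k) := rfl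
  rw [h2, coeff_add_monomial_mul, one_mul] at h1
  exact h1

lemma weaklyRegular_X (L : List (Fin n)) (hL : L.Nodup) :
    IsWeaklyRegular (MvPowerSeries (Fin n) k)
      (L.map (fun i => (X i : MvPowerSeries (Fin n) k))) := by
  classical
  induction L using List.reverseRecOn with
  | nil => exact IsWeaklyRegular.nil _ _
  | append_singleton L i ih =>
    rw [List.nodup_append] at hL
    rw [List.map_append, isWeaklyRegular_append_iff]
    refine ⟨ih hL.1, ?_⟩
    rw [List.map_singleton, isWeaklyRegular_singleton_iff]
    set J := Ideal.ofList (L.map (fun i => (X i : MvPowerSeries (Fin n) k))) with hJ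
    have hJ' : J = Ideal.span
      ((fun i : Fin n => (X i : MvPowerSeries (Fin n) k)) '' (L.toFinset : Set (Fin n))) := by
      rw [hJ, Ideal.ofList]
      congr 1
      ext x
      simp
    have h3 : (J • ⊤ : Submodule (MvPowerSeries (Fin n) k) (MvPowerSeries (Fin n) k)) = J := by
      rw [Ideal.smul_eq_mul, Ideal.mul_top]
    rw [isSMulRegular_iff_right_eq_zero_of_smul]
    intro y hy
    obtain ⟨y, rfl⟩ := Submodule.Quotient.mk_surjective _ y
    rw [← Submodule.Quotient.mk_smul, Submodule.Quotient.mk_eq_zero, h3, hJ', smul_eq_mul] at hy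
    rw [Submodule.Quotient.mk_eq_zero, h3, hJ']
    refine X_regular _ i ?_ y hy
    intro hmem
    have := hL.2.2 i (List.mem_toFinset.1 hmem) i (List.mem_singleton_self i)
    exact this rfl

lemma dep_ps : Dep (A := MvPowerSeries (Fin n) k) (MvPowerSeries (Fin n) k) n := by
  refine ⟨(List.finRange n).map (fun i => (X i : MvPowerSeries (Fin n) k)), by simp, ?_, ?_⟩
  · intro r hr
    rw [List.mem_map] at hr
    obtain ⟨i, -, rfl⟩ := hr
    rw [mem_maximalIdeal_iff, constantCoeff_X]
  · refine (IsLocalRing.isRegular_iff_isWeaklyRegular_of_subset_maximalIdeal ?_).2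
      (weaklyRegular_X _ (List.nodup_finRange n))
    intro r hr
    rw [List.mem_map] at hr
    obtain ⟨i, -, rfl⟩ := hr
    rw [mem_maximalIdeal_iff, constantCoeff_X]

/-- Modulo any power of the maximal ideal, a power series is congruent to a polynomial from a
finite-dimensional space. -/
lemma exists_trunc (N : ℕ) : ∃ V : Submodule k (MvPolynomial (Fin n) k), Module.Finite k V ∧
    ∀ f : MvPowerSeries (Fin n) k, ∃ p ∈ V,
      f - (p : MvPowerSeries (Fin n) k) ∈ maximalIdeal (MvPowerSeries (Fin n) k) ^ N := by
  classical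
  induction N with
  | zero =>
    refine ⟨⊥, inferInstance, fun f => ⟨0, Submodule.zero_mem _, ?_⟩⟩
    rw [pow_zero, Ideal.one_eq_top]
    exact Submodule.mem_top
  | succ N ih =>
    obtain ⟨V, hV, h⟩ := ih
    let W : Fin n → Submodule k (MvPolynomial (Fin n) k) := fun i =>
      V.map (LinearMap.mulLeft k (MvPolynomial.X i))
    have hW : ∀ i, Module.Finite k (W i) := fun i => inferInstance
    refine ⟨(k ∙ (1 : MvPolynomial (Fin n) k)) ⊔ ⨆ i, W i, inferInstance, ?_⟩
    intro f
    have h1 : f - C (constantCoeff f) ∈ maximalIdeal (MvPowerSeries (Fin n) k) := by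
      rw [mem_maximalIdeal_iff, map_sub, constantCoeff_C, sub_self]
    rw [maximalIdeal_eq_span, Ideal.mem_span_range_iff_exists_fun] at h1
    obtain ⟨c, hc⟩ := h1
    choose p hp hp' using fun i => h (c i)
    refine ⟨MvPolynomial.C (constantCoeff f) + ∑ i, MvPolynomial.X i * p i, ?_, ?_⟩
    · refine Submodule.add_mem _ (Submodule.mem_sup_left ?_) (Submodule.mem_sup_right ?_)
      · rw [Submodule.mem_span_singleton]
        exact ⟨constantCoeff f, by rw [MvPolynomial.smul_eq_C_mul, mul_one]⟩
      · refine Submodule.sum_mem _ (fun i _ => ?_)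
        exact Submodule.mem_iSup_of_mem i ⟨p i, hp i, rfl⟩
    · have h2 : f - ((MvPolynomial.C (constantCoeff f) + ∑ i, MvPolynomial.X i * p i :
          MvPolynomial (Fin n) k) : MvPowerSeries (Fin n) k) =
          ∑ i, (c i - (p i : MvPowerSeries (Fin n) k)) * X i := by
        have h3 : ((MvPolynomial.C (constantCoeff f) + ∑ i, MvPolynomial.X i * p i :
            MvPolynomial (Fin n) k) : MvPowerSeries (Fin n) k) =
            C (constantCoeff f) + ∑ i, X i * (p i : MvPowerSeries (Fin n) k) := by
          have h4 : ∀ q : MvPolynomial (Fin n) k, (q : MvPowerSeries (Fin n) k) =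
              MvPolynomial.coeToMvPowerSeries.ringHom q := fun q => rfl
          rw [h4, map_add, map_sum]
          simp only [map_mul, MvPolynomial.coeToMvPowerSeries.ringHom_apply, MvPolynomial.coe_C,
            MvPolynomial.coe_X]
        rw [h3, ← sub_sub, ← hc, ← Finset.sum_sub_distrib]
        refine Finset.sum_congr rfl (fun i _ => ?_)
        ring
      rw [h2, pow_succ]
      refine Ideal.sum_mem _ (fun i _ => Ideal.mul_mem_mul (hp' i) ?_)
      rw [mem_maximalIdeal_iff, constantCoeff_X]

lemma exists_pow_le (I : Ideal (MvPowerSeries (Fin n) k))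
    (hI : maximalIdeal (MvPowerSeries (Fin n) k) ≤ I.radical) :
    ∃ N, maximalIdeal (MvPowerSeries (Fin n) k) ^ N ≤ I :=
  Ideal.exists_pow_le_of_le_radical_of_fg hI (IsNoetherian.noetherian _)

lemma finite_quot (I : Ideal (MvPowerSeries (Fin n) k))
    (hI : maximalIdeal (MvPowerSeries (Fin n) k) ≤ I.radical) :
    Module.Finite k (MvPowerSeries (Fin n) k ⧸ I) := by
  obtain ⟨N, hN⟩ := exists_pow_le I hI
  obtain ⟨V, hV, h⟩ := exists_trunc (n := n) (k := k) N
  let F : V →ₗ[k] (MvPowerSeries (Fin n) k ⧸ I) :=
    (Ideal.Quotient.mkₐ k I).toLinearMap ∘ₗ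
      (MvPolynomial.coeToMvPowerSeries.algHom k).toLinearMap ∘ₗ V.subtype
  refine Module.Finite.of_surjective F ?_
  intro x
  obtain ⟨f, rfl⟩ := Ideal.Quotient.mk_surjective x
  obtain ⟨p, hp, hfp⟩ := h f
  refine ⟨⟨p, hp⟩, ?_⟩
  change Ideal.Quotient.mk I ((MvPolynomial.coeToMvPowerSeries.algHom k) p) = _
  rw [eq_comm, Ideal.Quotient.eq]
  have h5 : (MvPolynomial.coeToMvPowerSeries.algHom k) p = (p : MvPowerSeries (Fin n) k) := by
    simp
  rw [h5]
  exact hN hfp

lemma radical_of_finite (I : Ideal (MvPowerSeries (Fin n) k))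
    [Module.Finite k (MvPowerSeries (Fin n) k ⧸ I)] :
    maximalIdeal (MvPowerSeries (Fin n) k) ≤ I.radical := by
  rw [Ideal.radical_eq_sInf]
  refine le_sInf ?_
  rintro P ⟨hI, hP⟩
  have h1 : Module.Finite k (MvPowerSeries (Fin n) k ⧸ P) :=
    Module.Finite.of_surjective (Ideal.Quotient.factorₐ k hI).toLinearMap
      (Ideal.Quotient.factor_surjective hI)
  have h2 : IsField (MvPowerSeries (Fin n) k ⧸ P) :=
    (Algebra.IsIntegral.of_finite k (MvPowerSeries (Fin n) k ⧸ P)).isField_iff_isField
      (RingHom.injective _) |>.1 (Field.toIsField k)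
  have h3 : P.IsMaximal := Ideal.Quotient.maximal_of_isField _ h2
  rw [IsLocalRing.eq_maximalIdeal h3]

end PS

end Pool.Agent.V11211
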