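import Pool.Agent.V11211.Param
import Pool.Agent.V11211.PS
import Pool.Agent.V11211.Diag

/-!
# The trace formula for the local algebra of an equivariant map
-/

set_option autoImplicit false

namespace Pool.Agent.V11211

open IsLocalRing MvPowerSeries

section lin

variable {A : Type*} [CommRing A] [Algebra ℂ A] {n : ℕ}

lemma lc_mem (v : Fin n → A) (c : Fin n → ℂ) :
    Fintype.linearCombination ℂ v c ∈ Ideal.span (Set.range v) := by
  rw [Fintype.linearCombination_apply]
  refine Ideal.sum_mem _ (fun i _ => ?_)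
  rw [Algebra.smul_def]
  exact Ideal.mul_mem_left _ _ (Ideal.subset_span ⟨i, rfl⟩)

lemma span_basis (v : Fin n → A) (b : Module.Basis (Fin n) ℂ (Fin n → ℂ)) :
    Ideal.span (Set.range v) =
      Ideal.span (Set.range (fun j => Fintype.linearCombination ℂ v (b j))) := by
  classical
  apply le_antisymm
  · rw [Ideal.span_le]
    rintro _ ⟨i, rfl⟩
    have h1 : v i = Fintype.linearCombination ℂ v (Pi.single i 1) := by
      rw [Fintype.linearCombination_apply_single, one_smul]
    have h2 := b.sum_repr (Pi.single i (1 : ℂ))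
    rw [SetLike.mem_coe, h1, ← h2, map_sum]
    refine Ideal.sum_mem _ (fun j _ => ?_)
    rw [map_smul, Algebra.smul_def]
    exact Ideal.mul_mem_left _ _ (Ideal.subset_span ⟨j, rfl⟩)
  · rw [Ideal.span_le]
    rintro _ ⟨i, rfl⟩
    exact lc_mem v _

lemma phi_lc (φ : A →ₐ[ℂ] A) (R : Matrix (Fin n) (Fin n) ℂ) (v : Fin n → A)
    (h : ∀ i, φ (v i) = ∑ j, R i j • v j) (c : Fin n → ℂ) :
    φ (Fintype.linearCombination ℂ v c) =
      Fintype.linearCombination ℂ v (Matrix.toLin' R.transpose c) := by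
  rw [Fintype.linearCombination_apply, Fintype.linearCombination_apply, map_sum]
  simp only [map_smul, h, Finset.smul_sum, smul_smul]
  rw [Finset.sum_comm]
  refine Finset.sum_congr rfl (fun j _ => ?_)
  rw [← Finset.sum_smul]
  congr 1
  rw [Matrix.toLin'_apply, Matrix.mulVec, dotProduct]
  refine Finset.sum_congr rfl (fun i _ => ?_)
  rw [Matrix.transpose_apply, mul_comm]

end lin

theorem trace_formula {n : ℕ} (R : Matrix (Fin n) (Fin n) ℂ) (N : ℕ) (hN : 0 < N) (hR : R ^ N = 1)
    (f : Fin n → MvPolynomial (Fin n) ℂ)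
    (hf : ∀ i : Fin n,
      MvPolynomial.aeval
          (fun j : Fin n => ∑ k : Fin n, R j k • (MvPolynomial.X k : MvPolynomial (Fin n) ℂ))
          (f i)
        = ∑ j : Fin n, R i j • f j)
    (hc : ∀ i : Fin n, MvPolynomial.constantCoeff (f i) = 0)
    (fv xv yv : Fin n → MvPowerSeries (Fin n) ℂ)
    (hfv : ∀ i, fv i = (f i : MvPowerSeries (Fin n) ℂ))
    (hxv : ∀ i, xv i = X i)
    (hyv : ∀ i, yv i = ∑ j : Fin n, (R - 1) i j • (X j : MvPowerSeries (Fin n) ℂ))
    (If : Ideal (MvPowerSeries (Fin n) ℂ)) (hIf : If = Ideal.span (Set.range fv))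
    (K : Ideal (MvPowerSeries (Fin n) ℂ)) (hK : K = Ideal.span (Set.range fv ∪ Set.range yv))
    (hfin : Module.Finite ℂ (MvPowerSeries (Fin n) ℂ ⧸ If))
    (T : (MvPowerSeries (Fin n) ℂ ⧸ If) →ₐ[ℂ] (MvPowerSeries (Fin n) ℂ ⧸ If))
    (hT : ∀ i : Fin n,
        T (Ideal.Quotient.mk If (X i)) = Ideal.Quotient.mk If
            (∑ j : Fin n, R i j • (X j : MvPowerSeries (Fin n) ℂ))) :
      LinearMap.trace ℂ (MvPowerSeries (Fin n) ℂ ⧸ If) T.toLinearMap
        = ((Module.finrank ℂ (MvPowerSeries (Fin n) ℂ ⧸ K)) : ℂ) := by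
  classical
  set F : Module.End ℂ (Fin n → ℂ) := Matrix.toLin' R.transpose with hF
  have hFN : F ^ N = 1 := by
    rw [hF, ← Matrix.toLin'_pow, ← Matrix.transpose_pow, hR, Matrix.transpose_one,
      Matrix.toLin'_one]
    rfl
  obtain ⟨b, ζ, hb, hζ⟩ := exists_eigenbasis F N hN hFN
  -- the substitution
  let a : Fin n → MvPowerSeries (Fin n) ℂ := fun i => ∑ j, R i j • X j
  have ha : HasSubst a := hasSubst_of_constantCoeff_zero (by
    intro i
    change constantCoeff (∑ j, R i j • (X j : MvPowerSeries (Fin n) ℂ)) = 0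
    rw [map_sum]
    refine Finset.sum_eq_zero (fun j _ => ?_)
    rw [constantCoeff_smul, constantCoeff_X, smul_zero])
  let φ : MvPowerSeries (Fin n) ℂ →ₐ[ℂ] MvPowerSeries (Fin n) ℂ := substAlgHom ha
  have hφX : ∀ i, φ (X i) = ∑ j, R i j • X j := fun i => substAlgHom_X ha i
  let κ : MvPolynomial (Fin n) ℂ →ₐ[ℂ] MvPowerSeries (Fin n) ℂ :=
    MvPolynomial.coeToMvPowerSeries.algHom ℂ
  have hκ : ∀ p, κ p = (p : MvPowerSeries (Fin n) ℂ) := fun p => by simp [κ]
  have hκX : ∀ i, κ (MvPolynomial.X i) = X i := fun i => by simp [κ]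
  have hφf : ∀ i, φ (f i : MvPowerSeries (Fin n) ℂ) =
      ∑ j, R i j • (f j : MvPowerSeries (Fin n) ℂ) := by
    intro i
    have h1 : φ.comp κ = κ.comp (MvPolynomial.aeval
          (fun j : Fin n => ∑ k : Fin n, R j k • (MvPolynomial.X k : MvPolynomial (Fin n) ℂ))) := by
      refine MvPolynomial.algHom_ext (fun j => ?_)
      rw [AlgHom.comp_apply, AlgHom.comp_apply, hκX, hφX, MvPolynomial.aeval_X, map_sum]
      refine Finset.sum_congr rfl (fun k _ => ?_)
      rw [map_smul, hκX]
    have h2 := DFunLike.congr_fun h1 (f i)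
    rw [AlgHom.comp_apply, AlgHom.comp_apply, hf, map_sum, hκ] at h2
    rw [h2]
    refine Finset.sum_congr rfl (fun k _ => ?_)
    rw [map_smul, hκ]
  -- linear combinations
  have hφxv : ∀ i, φ (xv i) = ∑ j, R i j • xv j := by
    intro i
    simp only [hxv]
    exact hφX i
  have hφfv : ∀ i, φ (fv i) = ∑ j, R i j • fv j := by
    intro i
    simp only [hfv]
    exact hφf i
  let x' : Fin n → MvPowerSeries (Fin n) ℂ := fun j => Fintype.linearCombination ℂ xv (b j)
  let f' : Fin n → MvPowerSeries (Fin n) ℂ := fun j => Fintype.linearCombination ℂ fv (b j)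
  have hx'e : ∀ j, φ (x' j) = ζ j • x' j := by
    intro j
    change φ (Fintype.linearCombination ℂ xv (b j)) = _
    rw [phi_lc φ R xv hφxv, ← hF, hb, map_smul]
  have hf'e : ∀ j, φ (f' j) = ζ j • f' j := by
    intro j
    change φ (Fintype.linearCombination ℂ fv (b j)) = _
    rw [phi_lc φ R fv hφfv, ← hF, hb, map_smul]
  have hyv' : ∀ i, yv i = φ (xv i) - xv i := by
    intro i
    rw [hyv, hxv, hφX]
    have h1 : (X i : MvPowerSeries (Fin n) ℂ) =
        ∑ j, (1 : Matrix (Fin n) (Fin n) ℂ) i j • X j := by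
      rw [Finset.sum_eq_single i]
      · rw [Matrix.one_apply_eq, one_smul]
      · intro j _ hj
        rw [Matrix.one_apply_ne hj.symm, zero_smul]
      · intro h
        exact absurd (Finset.mem_univ i) h
    conv_rhs => rw [h1]
    rw [← Finset.sum_sub_distrib]
    refine Finset.sum_congr rfl (fun j _ => ?_)
    rw [Matrix.sub_apply, sub_smul]
  have hLY : ∀ j, Fintype.linearCombination ℂ yv (b j) = (ζ j - 1) • x' j := by
    intro j
    rw [sub_smul, one_smul, ← hx'e]
    change _ = φ (Fintype.linearCombination ℂ xv (b j)) - Fintype.linearCombination ℂ xv (b j)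
    rw [Fintype.linearCombination_apply, Fintype.linearCombination_apply, map_sum,
      ← Finset.sum_sub_distrib]
    refine Finset.sum_congr rfl (fun i _ => ?_)
    rw [hyv', map_smul, smul_sub]
  set J : Ideal (MvPowerSeries (Fin n) ℂ) := Ideal.span (Set.range yv) with hJ
  have hJ' : J = Ideal.span (Set.range (fun j => Fintype.linearCombination ℂ yv (b j))) :=
    span_basis yv b
  have hsm : ∀ (I : Ideal (MvPowerSeries (Fin n) ℂ)) (c : ℂ) (x : MvPowerSeries (Fin n) ℂ),
      x ∈ I → c • x ∈ I := by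
    intro I c x hx
    rw [Algebra.smul_def]
    exact I.mul_mem_left _ hx
  have hsm' : ∀ (I : Ideal (MvPowerSeries (Fin n) ℂ)) (c : ℂ) (x : MvPowerSeries (Fin n) ℂ),
      c ≠ 0 → c • x ∈ I → x ∈ I := by
    intro I c x hc hx
    have h1 := hsm I c⁻¹ _ hx
    rwa [smul_smul, inv_mul_cancel₀ hc, one_smul] at h1
  have hx'J : ∀ j, ζ j ≠ 1 → x' j ∈ J := by
    intro j hj
    refine hsm' J (ζ j - 1) _ (sub_ne_zero.2 hj) ?_
    rw [← hLY, hJ']
    exact Ideal.subset_span ⟨j, rfl⟩
  -- the substitution is the identity modulo `J` on polynomials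
  have hpJ : ∀ p : MvPolynomial (Fin n) ℂ, φ (κ p) - κ p ∈ J := by
    intro p
    have h1 : (Ideal.Quotient.mkₐ ℂ J).comp (φ.comp κ) = (Ideal.Quotient.mkₐ ℂ J).comp κ := by
      refine MvPolynomial.algHom_ext (fun j => ?_)
      rw [AlgHom.comp_apply, AlgHom.comp_apply, AlgHom.comp_apply, hκX]
      change Ideal.Quotient.mk J _ = Ideal.Quotient.mk J _
      rw [Ideal.Quotient.eq]
      have h2 := hyv' j
      rw [hxv] at h2
      rw [← h2]
      exact Ideal.subset_span ⟨j, rfl⟩
    have h2 := DFunLike.congr_fun h1 p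
    exact (Ideal.Quotient.eq).1 h2
  have hf'J : ∀ j, ζ j ≠ 1 → f' j ∈ J := by
    intro j hj
    have h1 : f' j = κ (∑ i, b j i • f i) := by
      change Fintype.linearCombination ℂ fv (b j) = _
      rw [Fintype.linearCombination_apply, map_sum]
      refine Finset.sum_congr rfl (fun i _ => ?_)
      rw [map_smul, hκ, hfv]
    have h2 := hpJ (∑ i, b j i • f i)
    rw [← h1, hf'e] at h2
    refine hsm' J (ζ j - 1) _ (sub_ne_zero.2 hj) ?_
    rwa [sub_smul, one_smul]
  -- the new system
  let w : Fin n → MvPowerSeries (Fin n) ℂ := fun j => if ζ j = 1 then f' j else x' j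
  have hw1 : ∀ j, ζ j = 1 → w j = f' j := fun j hj => if_pos hj
  have hw2 : ∀ j, ζ j ≠ 1 → w j = x' j := fun j hj => if_neg hj
  have hK' : K = If ⊔ J := by
    rw [hK, hIf]
    exact Ideal.span_union _ _
  have hIf' : If = Ideal.span (Set.range f') := by
    rw [hIf]
    exact span_basis fv b
  have hwK : Ideal.span (Set.range w) = K := by
    have hJw : J ≤ Ideal.span (Set.range w) := by
      rw [hJ', Ideal.span_le]
      rintro _ ⟨j, rfl⟩
      rw [SetLike.mem_coe]
      simp only
      rw [hLY]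
      by_cases hj : ζ j = 1
      · rw [hj, sub_self, zero_smul]
        exact Ideal.zero_mem _
      · exact hsm _ _ _ (Ideal.subset_span ⟨j, hw2 j hj⟩)
    apply le_antisymm
    · rw [Ideal.span_le]
      rintro _ ⟨j, rfl⟩
      rw [SetLike.mem_coe]
      by_cases hj : ζ j = 1
      · rw [hw1 j hj, hK']
        refine Ideal.mem_sup_left ?_
        rw [hIf']
        exact Ideal.subset_span ⟨j, rfl⟩
      · rw [hw2 j hj, hK']
        exact Ideal.mem_sup_right (hx'J j hj)
    · rw [hK']
      refine sup_le ?_ hJw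
      rw [hIf', Ideal.span_le]
      rintro _ ⟨j, rfl⟩
      rw [SetLike.mem_coe]
      by_cases hj : ζ j = 1
      · exact Ideal.subset_span ⟨j, hw1 j hj⟩
      · exact hJw (hf'J j hj)
  have hfsys : Sys φ ζ f' := by
    refine ⟨?_, hf'e, ?_⟩
    · intro i
      rw [mem_maximalIdeal_iff]
      change constantCoeff (Fintype.linearCombination ℂ fv (b i)) = 0
      rw [Fintype.linearCombination_apply, map_sum]
      refine Finset.sum_eq_zero (fun j _ => ?_)
      rw [constantCoeff_smul]
      have h1 : constantCoeff (fv j) = 0 := by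
        have h2 := hc j
        rw [MvPolynomial.constantCoeff_eq, ← MvPolynomial.coeff_coe] at h2
        rw [hfv, ← MvPowerSeries.coeff_zero_eq_constantCoeff_apply]
        exact h2
      rw [h1, smul_zero]
    · rw [← hIf']
      exact radical_of_finite If
  have hwsys : Sys φ ζ w := by
    refine ⟨?_, ?_, ?_⟩
    · intro i
      by_cases hi : ζ i = 1
      · rw [hw1 i hi]; exact hfsys.mem i
      · rw [hw2 i hi, mem_maximalIdeal_iff]
        change constantCoeff (Fintype.linearCombination ℂ xv (b i)) = 0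
        rw [Fintype.linearCombination_apply, map_sum]
        refine Finset.sum_eq_zero (fun j _ => ?_)
        rw [constantCoeff_smul, hxv, constantCoeff_X, smul_zero]
    · intro i
      by_cases hi : ζ i = 1
      · rw [hw1 i hi]; exact hfsys.eig i
      · rw [hw2 i hi]; exact hx'e i
    · refine hfsys.rad.trans (Ideal.radical_mono ?_)
      rw [hwK, hK', ← hIf']
      exact le_sup_left
  have key := tau_eq (k := ℂ) (fun I hI => finite_quot I hI) dep_ps hζ hfsys hwsys
    (fun i hi => (hw1 i hi).symm)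
  -- identification of the two sides
  have hIfinv : If ≤ If.comap φ := by
    have := hfsys.inv
    rwa [← hIf'] at this
  have hKinv : K ≤ K.comap φ := by
    have := hwsys.inv
    rwa [hwK] at this
  have hleft : tau φ _ hfsys.inv = tau φ If hIfinv := tau_congr _ _ hIf'.symm _ _
  have hright : tau φ _ hwsys.inv = tau φ K hKinv := tau_congr _ _ hwK _ _
  have happrox : ∀ (I : Ideal (MvPowerSeries (Fin n) ℂ))
      (_ : maximalIdeal (MvPowerSeries (Fin n) ℂ) ≤ I.radical) (x : MvPowerSeries (Fin n) ℂ),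
      ∃ p : MvPolynomial (Fin n) ℂ, x - κ p ∈ I := by
    intro I hI x
    obtain ⟨M, hM⟩ := exists_pow_le I hI
    obtain ⟨V, -, h⟩ := exists_trunc (n := n) (k := ℂ) M
    obtain ⟨p, -, hp⟩ := h x
    exact ⟨p, by rw [hκ]; exact hM hp⟩
  have hTφ : ∀ x, T (Ideal.Quotient.mk If x) = Ideal.Quotient.mk If (φ x) := by
    intro x
    obtain ⟨p, hp⟩ := happrox If (radical_of_finite If) x
    have h1 : T.comp ((Ideal.Quotient.mkₐ ℂ If).comp κ) =
        (Ideal.Quotient.mkₐ ℂ If).comp (φ.comp κ) := by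
      refine MvPolynomial.algHom_ext (fun j => ?_)
      rw [AlgHom.comp_apply, AlgHom.comp_apply, AlgHom.comp_apply, AlgHom.comp_apply, hκX, hφX]
      exact hT j
    have h2 : T (Ideal.Quotient.mk If (κ p)) = Ideal.Quotient.mk If (φ (κ p)) :=
      DFunLike.congr_fun h1 p
    have h3 : Ideal.Quotient.mk If x = Ideal.Quotient.mk If (κ p) := Ideal.Quotient.eq.2 hp
    have h4 : Ideal.Quotient.mk If (φ x) = Ideal.Quotient.mk If (φ (κ p)) := by
      rw [Ideal.Quotient.eq, ← map_sub]
      exact hIfinv hp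
    rw [h3, h2, h4]
  have hTtau : LinearMap.trace ℂ (MvPowerSeries (Fin n) ℂ ⧸ If) T.toLinearMap =
      tau φ If hIfinv := by
    rw [tau]
    congr 1
    ext x
    obtain ⟨x, rfl⟩ := Ideal.Quotient.mk_surjective x
    exact hTφ x
  rw [hTtau, ← hleft, key, hright]
  have hKrad : maximalIdeal (MvPowerSeries (Fin n) ℂ) ≤ K.radical := by
    have := hwsys.rad
    rwa [hwK] at this
  have hKfin : Module.Finite ℂ (MvPowerSeries (Fin n) ℂ ⧸ K) := finite_quot K hKrad
  have hid : (Ideal.quotientMapₐ K φ hKinv).toLinearMap = LinearMap.id := by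
    ext x
    obtain ⟨x, rfl⟩ := Ideal.Quotient.mk_surjective x
    change Ideal.Quotient.mk K (φ x) = Ideal.Quotient.mk K x
    obtain ⟨p, hp⟩ := happrox K hKrad x
    rw [Ideal.Quotient.eq]
    have h1 : φ x - x = φ (x - κ p) + (φ (κ p) - κ p) - (x - κ p) := by
      rw [map_sub]
      ring
    rw [h1]
    refine Ideal.sub_mem _ (Ideal.add_mem _ (hKinv hp) ?_) hp
    rw [hK']
    exact Ideal.mem_sup_right (hpJ p)
  rw [tau, hid, LinearMap.trace_id]

end Pool.Agent.V11211
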