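import Mathlib

open scoped Pointwise ENNReal
open Filter Topology

namespace V11211.AT

variable {G : Type*} [Group G] {K : Type*} [Group K]

/-! ### definitions -/

/-- `T_n(φ,F) = F · φ(F) ⋯ φ^{n-1}(F)` (and `T_0 = {1}`). -/
def traj (φ : G →* G) (F : Set G) : ℕ → Set G
  | 0 => {1}
  | n + 1 => traj φ F n * ((⇑φ)^[n] '' F)

/-- `H_alg(φ,F)`. -/
noncomputable def Halg (φ : G →* G) (F : Set G) : ℝ≥0∞ :=
  limsup (fun n : ℕ => ENNReal.ofReal (Real.log (Nat.card (traj φ F n)) / n)) atTop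

/-- `h_alg(φ)`: supremum over all finite sets containing `1`. -/
noncomputable def halg (φ : G →* G) : ℝ≥0∞ :=
  ⨆ F : {F : Set G // F.Finite ∧ (1 : G) ∈ F}, Halg φ F.1

/-- all subgroups permute -/
def Quasihamiltonian (G : Type*) [Group G] : Prop :=
  ∀ X Y : Subgroup G, (X : Set G) * (Y : Set G) = (Y : Set G) * (X : Set G)

/-! ### trajectories of sets -/

theorem traj_zero (φ : G →* G) (F : Set G) : traj φ F 0 = {1} := rfl

theorem traj_succ (φ : G →* G) (F : Set G) (n : ℕ) :
    traj φ F (n + 1) = traj φ F n * ((⇑φ)^[n] '' F) := rfl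

theorem iter_mul (φ : G →* G) (n : ℕ) (x y : G) :
    (⇑φ)^[n] (x * y) = (⇑φ)^[n] x * (⇑φ)^[n] y := by
  induction n generalizing x y with
  | zero => rfl
  | succ n ih => simp only [Function.iterate_succ_apply, map_mul, ih]

theorem iter_one (φ : G →* G) (n : ℕ) : (⇑φ)^[n] (1 : G) = 1 := by
  induction n with
  | zero => rfl
  | succ n ih => simp only [Function.iterate_succ_apply, map_one, ih]

/-- iterate as a hom -/
def iterHom (φ : G →* G) (n : ℕ) : G →* G where
  toFun := (⇑φ)^[n]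
  map_one' := iter_one φ n
  map_mul' := iter_mul φ n

theorem image_iter_mul (φ : G →* G) (n : ℕ) (A B : Set G) :
    (⇑φ)^[n] '' (A * B) = (⇑φ)^[n] '' A * (⇑φ)^[n] '' B :=
  Set.image_mul (iterHom φ n)

theorem traj_add (φ : G →* G) (F : Set G) (m n : ℕ) :
    traj φ F (m + n) = traj φ F m * ((⇑φ)^[m] '' traj φ F n) := by
  induction n with
  | zero => simp [traj_zero]
  | succ n ih =>
    rw [← add_assoc, traj_succ, ih, traj_succ, image_iter_mul, mul_assoc, ← Set.image_comp,
      ← Function.iterate_add]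

theorem traj_one (φ : G →* G) (F : Set G) : traj φ F 1 = F := by
  rw [traj_succ, traj_zero]; simp

theorem traj_succ' (φ : G →* G) (F : Set G) (n : ℕ) :
    traj φ F (n + 1) = F * (φ '' traj φ F n) := by
  rw [add_comm, traj_add, traj_one]; rfl

theorem traj_finite (φ : G →* G) {F : Set G} (hF : F.Finite) (n : ℕ) : (traj φ F n).Finite := by
  induction n with
  | zero => exact Set.finite_singleton _
  | succ n ih => exact ih.mul (hF.image _)

theorem one_mem_traj (φ : G →* G) {F : Set G} (h1 : (1 : G) ∈ F) (n : ℕ) :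
    (1 : G) ∈ traj φ F n := by
  induction n with
  | zero => rfl
  | succ n ih =>
    have := Set.mul_mem_mul ih (Set.mem_image_of_mem ((⇑φ)^[n]) h1)
    rwa [iter_one, one_mul] at this

theorem traj_mono (φ : G →* G) {F F' : Set G} (h : F ⊆ F') (n : ℕ) :
    traj φ F n ⊆ traj φ F' n := by
  induction n with
  | zero => exact subset_rfl
  | succ n ih => exact Set.mul_subset_mul ih (Set.image_mono h)

theorem map_traj (f : G →* K) (φ : G →* G) (ψ : K →* K) (h : ∀ x, f (φ x) = ψ (f x))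
    (F : Set G) (n : ℕ) : f '' traj φ F n = traj ψ (f '' F) n := by
  have hit : ∀ (n : ℕ) (x : G), f ((⇑φ)^[n] x) = (⇑ψ)^[n] (f x) := by
    intro n
    induction n with
    | zero => intro x; rfl
    | succ n ih => intro x; simp only [Function.iterate_succ_apply, ih, h]
  induction n with
  | zero => simp [traj_zero]
  | succ n ih =>
    rw [traj_succ, traj_succ, Set.image_mul, ih, ← Set.image_comp, ← Set.image_comp]
    congr 1
    apply Set.image_congr
    intro x _
    exact hit n x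

theorem card_traj_pos (φ : G →* G) {F : Set G} (hF : F.Finite) (h1 : (1 : G) ∈ F) (n : ℕ) :
    0 < Nat.card (traj φ F n) := by
  have : Finite (traj φ F n) := (traj_finite φ hF n).to_subtype
  have : Nonempty (traj φ F n) := ⟨⟨1, one_mem_traj φ h1 n⟩⟩
  exact Nat.card_pos

theorem card_image_le {α β : Type*} (f : α → β) {s : Set α} (hs : s.Finite) :
    Nat.card (f '' s) ≤ Nat.card s := by
  rw [Nat.card_coe_set_eq, Nat.card_coe_set_eq]
  exact Set.ncard_image_le hs

theorem card_image_inj {α β : Type*} {f : α → β} (hf : Function.Injective f) (s : Set α) :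
    Nat.card (f '' s) = Nat.card s := by
  rw [Nat.card_coe_set_eq, Nat.card_coe_set_eq]
  exact Set.ncard_image_of_injective s hf

theorem card_mono {α : Type*} {s t : Set α} (h : s ⊆ t) (ht : t.Finite) :
    Nat.card s ≤ Nat.card t := by
  rw [Nat.card_coe_set_eq, Nat.card_coe_set_eq]
  exact Set.ncard_le_ncard h ht

/-- log card -/
noncomputable def lc (φ : G →* G) (F : Set G) (n : ℕ) : ℝ := Real.log (Nat.card (traj φ F n))

theorem lc_nonneg (φ : G →* G) (F : Set G) (n : ℕ) : 0 ≤ lc φ F n :=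
  Real.log_natCast_nonneg _

theorem lc_subadditive (φ : G →* G) {F : Set G} (hF : F.Finite) (h1 : (1 : G) ∈ F) :
    Subadditive (lc φ F) := by
  intro m n
  unfold lc
  have hpm := card_traj_pos φ hF h1 m
  have hpn := card_traj_pos φ hF h1 n
  have hpmn := card_traj_pos φ hF h1 (m + n)
  rw [← Real.log_mul (by positivity) (by positivity)]
  apply Real.log_le_log (by positivity)
  rw [traj_add]
  have h2 : Nat.card ((traj φ F m * ((⇑φ)^[m] '' traj φ F n) : Set G)) ≤
      Nat.card (traj φ F m) * Nat.card ((⇑φ)^[m] '' traj φ F n) := Set.natCard_mul_le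
  have h3 := card_image_le ((⇑φ)^[m]) (traj_finite φ hF n)
  exact_mod_cast h2.trans (Nat.mul_le_mul_left _ h3)

theorem exists_growth (φ : G →* G) {F : Set G} (hF : F.Finite) (h1 : (1 : G) ∈ F) :
    ∃ L : ℝ, 0 ≤ L ∧ Tendsto (fun n : ℕ => lc φ F n / n) atTop (𝓝 L) := by
  have hb : BddBelow (Set.range fun n : ℕ => lc φ F n / n) := by
    refine ⟨0, ?_⟩
    rintro _ ⟨n, rfl⟩
    exact div_nonneg (lc_nonneg _ _ _) (Nat.cast_nonneg _)
  have ht := (lc_subadditive φ hF h1).tendsto_lim hb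
  refine ⟨_, ?_, ht⟩
  exact ge_of_tendsto' ht (fun n => div_nonneg (lc_nonneg _ _ _) (Nat.cast_nonneg _))

theorem Halg_eq (φ : G →* G) {F : Set G} {L : ℝ}
    (h : Tendsto (fun n : ℕ => lc φ F n / n) atTop (𝓝 L)) : Halg φ F = ENNReal.ofReal L := by
  unfold Halg
  exact ((ENNReal.continuous_ofReal.tendsto L).comp h).limsup_eq

/-- comparison of growth -/
theorem growth_le {a b : ℕ → ℝ} {A B c : ℝ} {j : ℕ}
    (ha : Tendsto (fun n : ℕ => a n / n) atTop (𝓝 A))
    (hb : Tendsto (fun n : ℕ => b n / n) atTop (𝓝 B))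
    (h : ∀ n, a (n + j) ≤ c + b n) : A ≤ B := by
  have h1 : Tendsto (fun n : ℕ => a (n + j) / ((n + j : ℕ) : ℝ)) atTop (𝓝 A) :=
    (tendsto_add_atTop_iff_nat (f := fun n : ℕ => a n / n) j).2 ha
  have h2 : Tendsto (fun n : ℕ => ((n : ℝ) / ((n + j : ℕ) : ℝ))) atTop (𝓝 1) := by
    have := tendsto_natCast_div_add_atTop (𝕜 := ℝ) (j : ℝ)
    simpa using this
  have h3 : Tendsto (fun n : ℕ => c / ((n + j : ℕ) : ℝ) + (b n / n) * ((n : ℝ) / ((n + j : ℕ) : ℝ)))
      atTop (𝓝 (0 + B * 1)) := by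
    refine Tendsto.add ?_ (hb.mul h2)
    exact (tendsto_add_atTop_iff_nat (f := fun n : ℕ => c / (n : ℝ)) j).2
      (tendsto_const_div_atTop_nhds_zero_nat c)
  rw [zero_add, mul_one] at h3
  refine le_of_tendsto_of_tendsto h1 h3 ?_
  filter_upwards [eventually_gt_atTop 0] with n hn
  have hn0 : (n : ℝ) ≠ 0 := by positivity
  have hnj : (0 : ℝ) < ((n + j : ℕ) : ℝ) := by positivity
  have : b n / n * ((n : ℝ) / ((n + j : ℕ) : ℝ)) = b n / ((n + j : ℕ) : ℝ) := by
    field_simp
  rw [this, ← add_div]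
  exact div_le_div_of_nonneg_right (h n) hnj.le

end V11211.AT
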