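import Pool.Agent.V11211.AT1

open scoped Pointwise ENNReal
open Filter Topology

namespace V11211.AT

variable {G : Type*} [Group G] {K : Type*} [Group K]

/-- product formula -/
theorem card_mul_card_inf (X Y : Subgroup G) :
    Nat.card ((X : Set G) * (Y : Set G) : Set G) * Nat.card (X ⊓ Y : Subgroup G) =
      Nat.card X * Nat.card Y := by
  classical
  rw [← Nat.card_prod, ← Nat.card_prod]
  have hch : ∀ z : ((X : Set G) * (Y : Set G) : Set G), ∃ p : X × Y, (p.1 : G) * p.2 = z := by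
    rintro ⟨z, hz⟩
    obtain ⟨x, hx, y, hy, h⟩ := Set.mem_mul.1 hz
    exact ⟨(⟨x, hx⟩, ⟨y, hy⟩), h⟩
  choose c hc using hch
  refine Nat.card_congr (Equiv.ofBijective
    (fun q : ((X : Set G) * (Y : Set G) : Set G) × (X ⊓ Y : Subgroup G) =>
      ((c q.1).1 * ⟨q.2, q.2.2.1⟩, (⟨q.2, q.2.2.2⟩ : Y)⁻¹ * (c q.1).2)) ⟨?_, ?_⟩)
  · rintro ⟨z, d⟩ ⟨z', d'⟩ h
    simp only [Prod.mk.injEq] at h
    obtain ⟨h1, h2⟩ := h
    have h1' : ((c z).1 : G) * d = (c z').1 * d' := congrArg Subtype.val h1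
    have h2' : (d : G)⁻¹ * (c z).2 = (d' : G)⁻¹ * (c z').2 := congrArg Subtype.val h2
    have hz : z = z' := by
      apply Subtype.ext
      rw [← hc z, ← hc z']
      calc ((c z).1 : G) * (c z).2 = (((c z).1 : G) * d) * ((d : G)⁻¹ * (c z).2) := by group
        _ = ((c z').1 * d') * ((d' : G)⁻¹ * (c z').2) := by rw [h1', h2']
        _ = _ := by group
    subst hz
    have hd : (d : G) = d' := by simpa using h1'
    have : d = d' := Subtype.ext hd
    rw [this]
  · rintro ⟨x, y⟩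
    have hz : (x : G) * y ∈ ((X : Set G) * (Y : Set G) : Set G) :=
      Set.mul_mem_mul x.2 y.2
    set z : ((X : Set G) * (Y : Set G) : Set G) := ⟨(x : G) * y, hz⟩ with hzdef
    have hcz : ((c z).1 : G) * (c z).2 = x * y := hc z
    have hd1 : ((c z).1 : G)⁻¹ * x ∈ X := X.mul_mem (X.inv_mem (c z).1.2) x.2
    have hd2 : ((c z).1 : G)⁻¹ * x ∈ Y := by
      have : ((c z).1 : G)⁻¹ * x = (c z).2 * (y : G)⁻¹ := by
        calc ((c z).1 : G)⁻¹ * x = ((c z).1 : G)⁻¹ * (x * y) * (y : G)⁻¹ := by group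
          _ = ((c z).1 : G)⁻¹ * (((c z).1 : G) * (c z).2) * (y : G)⁻¹ := by rw [hcz]
          _ = _ := by group
      rw [this]
      exact Y.mul_mem (c z).2.2 (Y.inv_mem y.2)
    refine ⟨(z, ⟨((c z).1 : G)⁻¹ * x, ⟨hd1, hd2⟩⟩), ?_⟩
    simp only [Prod.mk.injEq]
    constructor
    · apply Subtype.ext
      simp
    · apply Subtype.ext
      have : (((c z).1 : G)⁻¹ * x)⁻¹ * (c z).2 = y := by
        calc (((c z).1 : G)⁻¹ * x)⁻¹ * (c z).2 = (x : G)⁻¹ * (((c z).1 : G) * (c z).2) := by group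
          _ = (x : G)⁻¹ * (x * y) := by rw [hcz]
          _ = _ := by group
      simpa using this

theorem Quasihamiltonian.coe_sup (h : Quasihamiltonian G) (X Y : Subgroup G) :
    ((X ⊔ Y : Subgroup G) : Set G) = X * Y := by
  apply Set.Subset.antisymm
  · let Z : Subgroup G :=
      { carrier := (X : Set G) * Y
        mul_mem' := by
          intro a b ha hb
          have hab : a * b ∈ ((X : Set G) * Y) * ((X : Set G) * Y) := Set.mul_mem_mul ha hb
          have : ((X : Set G) * Y) * ((X : Set G) * Y) = (X : Set G) * Y := by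
            rw [mul_assoc, ← mul_assoc (Y : Set G), ← h X Y, mul_assoc, ← mul_assoc (X : Set G),
              coe_mul_coe, coe_mul_coe]
          rwa [this] at hab
        one_mem' := ⟨1, X.one_mem, 1, Y.one_mem, by simp⟩
        inv_mem' := by
          rintro a ⟨x, hx, y, hy, rfl⟩
          have : (x * y)⁻¹ ∈ (Y : Set G) * X :=
            ⟨y⁻¹, Y.inv_mem hy, x⁻¹, X.inv_mem hx, by simp⟩
          rwa [← h X Y] at this }
    have : X ⊔ Y ≤ Z := by
      apply sup_le
      · intro x hx; exact ⟨x, hx, 1, Y.one_mem, by simp⟩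
      · intro y hy; exact ⟨1, X.one_mem, y, hy, by simp⟩
    exact this
  · rintro _ ⟨x, hx, y, hy, rfl⟩
    exact (X ⊔ Y).mul_mem (le_sup_left (a := X) hx) (le_sup_right (a := X) hy)

theorem Quasihamiltonian.card_sup (h : Quasihamiltonian G) (X Y : Subgroup G) :
    Nat.card (X ⊔ Y : Subgroup G) * Nat.card (X ⊓ Y : Subgroup G) = Nat.card X * Nat.card Y := by
  rw [← card_mul_card_inf X Y, ← h.coe_sup X Y]
  rfl

theorem Quasihamiltonian.finite_sup (h : Quasihamiltonian G) (X Y : Subgroup G)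
    [hX : Finite X] [hY : Finite Y] : Finite (X ⊔ Y : Subgroup G) := by
  have : ((X ⊔ Y : Subgroup G) : Set G).Finite := by
    rw [h.coe_sup X Y]
    exact Set.Finite.mul (Set.toFinite (X : Set G)) (Set.toFinite (Y : Set G))
  exact this.to_subtype

theorem Quasihamiltonian.map (h : Quasihamiltonian G) (f : G →* K)
    (hf : Function.Surjective f) : Quasihamiltonian K := by
  intro X Y
  have hX : (X : Set K) = f '' (X.comap f : Set G) := by
    rw [Subgroup.coe_comap, Set.image_preimage_eq _ hf]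
  have hY : (Y : Set K) = f '' (Y.comap f : Set G) := by
    rw [Subgroup.coe_comap, Set.image_preimage_eq _ hf]
  rw [hX, hY, ← Set.image_mul, ← Set.image_mul, h]

/-- every finite set lies in a finite subgroup -/
theorem exists_finite_subgroup (h : Quasihamiltonian G) (ht : ∀ g : G, IsOfFinOrder g) {S : Set G}
    (hS : S.Finite) : ∃ X : Subgroup G, Finite X ∧ S ⊆ X := by
  induction S, hS using Set.Finite.induction_on with
  | empty => exact ⟨⊥, inferInstance, Set.empty_subset _⟩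
  | @insert a s _ _ ih =>
    obtain ⟨X, hX, hs⟩ := ih
    have : Finite (Subgroup.zpowers a) := (ht a).finite_zpowers.to_subtype
    refine ⟨Subgroup.zpowers a ⊔ X, h.finite_sup _ _, ?_⟩
    apply Set.insert_subset
    · exact (le_sup_left : Subgroup.zpowers a ≤ _) (Subgroup.mem_zpowers a)
    · exact hs.trans (le_sup_right : X ≤ Subgroup.zpowers a ⊔ X)

/-- subgroup trajectories -/
def Tg (φ : G →* G) (F : Subgroup G) : ℕ → Subgroup G
  | 0 => ⊥
  | n + 1 => F ⊔ (Tg φ F n).map φ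

theorem Tg_succ (φ : G →* G) (F : Subgroup G) (n : ℕ) :
    Tg φ F (n + 1) = F ⊔ (Tg φ F n).map φ := rfl

theorem coe_Tg (h : Quasihamiltonian G) (φ : G →* G) (F : Subgroup G) (n : ℕ) :
    ((Tg φ F n : Subgroup G) : Set G) = traj φ F n := by
  induction n with
  | zero => simp [Tg, traj_zero]
  | succ n ih =>
    rw [Tg_succ, h.coe_sup, traj_succ', Subgroup.coe_map, ih]

theorem finite_Tg (h : Quasihamiltonian G) (φ : G →* G) (F : Subgroup G) [Finite F] (n : ℕ) :
    Finite (Tg φ F n) := by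
  have : ((Tg φ F n : Subgroup G) : Set G).Finite := by
    rw [coe_Tg h]
    exact traj_finite φ (Set.toFinite (F : Set G)) n
  exact this.to_subtype

theorem card_Tg (h : Quasihamiltonian G) (φ : G →* G) (F : Subgroup G) (n : ℕ) :
    Nat.card (Tg φ F n) = Nat.card (traj φ (F : Set G) n) := by
  rw [← coe_Tg h]; rfl

theorem Tg_mono (φ : G →* G) (F : Subgroup G) : Monotone (Tg φ F) := by
  apply monotone_nat_of_le_succ
  intro n
  induction n with
  | zero => exact bot_le
  | succ n ih =>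
    rw [Tg_succ, Tg_succ]
    exact sup_le_sup_left (Subgroup.map_mono ih) _

theorem map_Tg (f : G →* K) (φ : G →* G) (ψ : K →* K) (h : f.comp φ = ψ.comp f)
    (F : Subgroup G) (n : ℕ) : (Tg φ F n).map f = Tg ψ (F.map f) n := by
  induction n with
  | zero => simp [Tg]
  | succ n ih =>
    rw [Tg_succ, Tg_succ, Subgroup.map_sup, Subgroup.map_map, h, ← Subgroup.map_map, ih]

theorem stab (φ : G →* G) (F : Subgroup G) [Finite F] :
    ∃ m, ∀ n, m ≤ n → F ⊓ (Tg φ F n).map φ = F ⊓ (Tg φ F m).map φ := by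
  have hmono : ∀ {a b : ℕ}, a ≤ b → F ⊓ (Tg φ F a).map φ ≤ F ⊓ (Tg φ F b).map φ := by
    intro a b hab
    exact inf_le_inf_left _ (Subgroup.map_mono (Tg_mono φ F hab))
  have hfin : ∀ n, Finite (F ⊓ (Tg φ F n).map φ : Subgroup G) := fun n =>
    Finite.of_injective _ (Subgroup.inclusion_injective (inf_le_left : F ⊓ (Tg φ F n).map φ ≤ F))
  have hbdd : ∀ n, Nat.card (F ⊓ (Tg φ F n).map φ : Subgroup G) ≤ Nat.card F := by
    intro n
    exact Subgroup.card_le_of_le inf_le_left
  -- choose m with maximal card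
  obtain ⟨m, hm⟩ : ∃ m, ∀ n, Nat.card (F ⊓ (Tg φ F n).map φ : Subgroup G) ≤
      Nat.card (F ⊓ (Tg φ F m).map φ : Subgroup G) := by
    have hne : (Set.range fun n => Nat.card (F ⊓ (Tg φ F n).map φ : Subgroup G)).Nonempty :=
      ⟨_, 0, rfl⟩
    have hb : BddAbove (Set.range fun n => Nat.card (F ⊓ (Tg φ F n).map φ : Subgroup G)) :=
      ⟨Nat.card F, by rintro _ ⟨n, rfl⟩; exact hbdd n⟩
    obtain ⟨m, hm⟩ := Nat.sSup_mem hne hb
    refine ⟨m, fun n => ?_⟩
    simp only at hm
    rw [hm]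
    exact le_csSup hb ⟨n, rfl⟩
  refine ⟨m, fun n hn => ?_⟩
  have := hfin n
  exact (Subgroup.eq_of_le_of_card_ge (hmono hn) (hm n)).symm

end V11211.AT
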