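import Pool.Agent.V11211.AT2

open scoped Pointwise ENNReal
open Filter Topology

namespace V11211.AT

variable {G : Type*} [Group G] {K : Type*} [Group K]

theorem card_map_mk (N : Subgroup G) [N.Normal] (T : Subgroup G) :
    Nat.card T = Nat.card (T.map (QuotientGroup.mk' N)) * Nat.card (T ⊓ N : Subgroup G) := by
  have h1 := Subgroup.relIndex_ker (K := T) (QuotientGroup.mk' N)
  rw [QuotientGroup.ker_mk'] at h1
  have h2 := Subgroup.relIndex_mul_relIndex (H := (⊥ : Subgroup G)) (K := T ⊓ N) (L := T)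
    bot_le inf_le_left
  rw [Subgroup.relIndex_bot_left, Subgroup.relIndex_bot_left, Subgroup.inf_relIndex_left, h1] at h2
  rw [← h2, mul_comm]

/-- key structural fact -/
theorem key (h : Quasihamiltonian G) (φ : G →* G) (N : Subgroup G) [N.Normal]
    (hN : ∀ x, φ x ∈ N ↔ x ∈ N) (F : Subgroup G) [Finite F] :
    ∃ m, ∀ k, Tg φ (Tg φ F (m + 1) ⊓ N) (k + 1) = Tg φ F (m + k + 1) ⊓ N := by
  have hle : N ≤ N.comap φ := fun x hx => (hN x).2 hx
  set ψ : (G ⧸ N) →* (G ⧸ N) := QuotientGroup.map N N φ hle with hψ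
  set π := QuotientGroup.mk' N with hπ
  have hcomm : π.comp φ = ψ.comp π := by
    ext x
    simp [hπ, hψ]
  have hQ : Quasihamiltonian (G ⧸ N) := h.map π (QuotientGroup.mk'_surjective N)
  have hFfin : Finite (F.map π) := by
    have : ((F.map π : Subgroup (G ⧸ N)) : Set (G ⧸ N)).Finite := by
      rw [Subgroup.coe_map]; exact (Set.toFinite (F : Set G)).image _
    exact this.to_subtype
  obtain ⟨m1, hm1⟩ := stab φ F
  obtain ⟨m2, hm2⟩ := stab ψ (F.map π)
  set m := max m1 m2 with hm
  have hs1 : ∀ n, m ≤ n → F ⊓ (Tg φ F n).map φ = F ⊓ (Tg φ F m).map φ := by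
    intro n hn
    rw [hm1 n ((le_max_left _ _).trans hn), hm1 m (le_max_left _ _)]
  have hs2 : ∀ n, m ≤ n → F.map π ⊓ (Tg ψ (F.map π) n).map ψ =
      F.map π ⊓ (Tg ψ (F.map π) m).map ψ := by
    intro n hn
    rw [hm2 n ((le_max_right _ _).trans hn), hm2 m (le_max_right _ _)]
  set T : ℕ → Subgroup G := Tg φ F with hT
  set Tb : ℕ → Subgroup (G ⧸ N) := Tg ψ (F.map π) with hTb
  have hTfin : ∀ n, Finite (T n) := fun n => finite_Tg h φ F n
  have hTbfin : ∀ n, Finite (Tb n) := fun n => finite_Tg hQ ψ (F.map π) n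
  have hTT : ∀ n, (T n).map π = Tb n := fun n => map_Tg π φ ψ hcomm F n
  set W : ℕ → Subgroup G := fun n => T n ⊓ N with hW
  have hWfin : ∀ n, Finite (W n) := fun n =>
    Finite.of_injective _ (Subgroup.inclusion_injective (inf_le_left : T n ⊓ N ≤ T n))
  have hWmono : ∀ {a b : ℕ}, a ≤ b → W a ≤ W b := fun hab => inf_le_inf_right _ (Tg_mono φ F hab)
  have hφW : ∀ n, (T n).map φ ⊓ N = (W n).map φ := by
    intro n
    ext x
    constructor
    · rintro ⟨⟨t, ht, rfl⟩, hx⟩
      exact ⟨t, ⟨ht, (hN t).1 hx⟩, rfl⟩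
    · rintro ⟨t, ⟨ht, htN⟩, rfl⟩
      exact ⟨⟨t, ht, rfl⟩, (hN t).2 htN⟩
  have hmapfin : ∀ (X : Subgroup G), Finite X → Finite (X.map φ) := by
    intro X hX
    have : ((X.map φ : Subgroup G) : Set G).Finite := by
      rw [Subgroup.coe_map]; exact (Set.toFinite (X : Set G)).image _
    exact this.to_subtype
  have hmapfinb : ∀ (X : Subgroup (G ⧸ N)), Finite X → Finite (X.map ψ) := by
    intro X hX
    have : ((X.map ψ : Subgroup (G ⧸ N)) : Set (G ⧸ N)).Finite := by
      rw [Subgroup.coe_map]; exact (Set.toFinite (X : Set (G ⧸ N))).image _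
    exact this.to_subtype
  -- the card identities
  set f := Nat.card (F ⊓ (T m).map φ : Subgroup G) with hf
  set fb := Nat.card (F.map π ⊓ (Tb m).map ψ : Subgroup (G ⧸ N)) with hfb
  have eq1 : ∀ n, m ≤ n → Nat.card (T (n + 1)) * f = Nat.card F * Nat.card ((T n).map φ) := by
    intro n hn
    rw [hf, ← hs1 n hn]
    exact h.card_sup F ((T n).map φ)
  have eq2 : ∀ n, m ≤ n → Nat.card (Tb (n + 1)) * fb =
      Nat.card (F.map π) * Nat.card ((Tb n).map ψ) := by
    intro n hn
    rw [hfb, ← hs2 n hn]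
    exact hQ.card_sup (F.map π) ((Tb n).map ψ)
  have eq3 : ∀ n, Nat.card (T n) = Nat.card (Tb n) * Nat.card (W n) := by
    intro n
    rw [← hTT n]
    exact card_map_mk N (T n)
  have eq4 : ∀ n, Nat.card ((T n).map φ) = Nat.card ((Tb n).map ψ) * Nat.card ((W n).map φ) := by
    intro n
    rw [card_map_mk N ((T n).map φ), hφW n, ← hTT n, Subgroup.map_map, Subgroup.map_map]
    change Nat.card ((T n).map (π.comp φ)) * _ = _
    rw [hcomm]
  have eq5 : ∀ n, m ≤ n → (f * Nat.card (F.map π)) * Nat.card (W (n + 1)) =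
      (Nat.card F * fb) * Nat.card ((W n).map φ) := by
    intro n hn
    have hpos : 0 < Nat.card ((Tb n).map ψ) := by
      have := hmapfinb _ (hTbfin n)
      exact Nat.card_pos
    have e1 := eq1 n hn
    have e2 := eq2 n hn
    rw [eq3 (n + 1), eq4 n] at e1
    apply Nat.eq_of_mul_eq_mul_left hpos
    calc Nat.card ((Tb n).map ψ) * (f * Nat.card (F.map π) * Nat.card (W (n + 1)))
        = (Nat.card (F.map π) * Nat.card ((Tb n).map ψ)) * (f * Nat.card (W (n + 1))) := by ring
      _ = (Nat.card (Tb (n + 1)) * fb) * (f * Nat.card (W (n + 1))) := by rw [e2]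
      _ = (Nat.card (Tb (n + 1)) * Nat.card (W (n + 1)) * f) * fb := by ring
      _ = (Nat.card F * (Nat.card ((Tb n).map ψ) * Nat.card ((W n).map φ))) * fb := by rw [e1]
      _ = _ := by ring
  have hEinf : ∀ n, m ≤ n → W (m + 1) ⊓ (W n).map φ = (W m).map φ := by
    intro n hn
    apply le_antisymm
    · rintro x ⟨⟨hx1, hxN⟩, ⟨s, ⟨hs, hsN⟩, rfl⟩⟩
      have hx1' : φ s ∈ ((F ⊔ (T m).map φ : Subgroup G) : Set G) := hx1
      rw [h.coe_sup] at hx1'
      obtain ⟨a, ha, b, hb, hab⟩ := Set.mem_mul.1 hx1'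
      have hbn : b ∈ (T n).map φ := Subgroup.map_mono (Tg_mono φ F hn) hb
      have hsn : φ s ∈ (T n).map φ := ⟨s, hs, rfl⟩
      have han : a ∈ (T n).map φ := by
        have : a = φ s * b⁻¹ := by rw [← hab]; group
        rw [this]
        exact mul_mem hsn (inv_mem hbn)
      have ham : a ∈ F ⊓ (T m).map φ := by
        rw [← hs1 n hn]; exact ⟨ha, han⟩
      have hsm : φ s ∈ (T m).map φ := by
        rw [← hab]; exact mul_mem ham.2 hb
      rw [← hφW m]
      exact ⟨hsm, hxN⟩
    · apply le_inf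
      · rw [← hφW m]
        exact inf_le_inf_right _ (le_sup_right : (T m).map φ ≤ F ⊔ (T m).map φ)
      · exact Subgroup.map_mono (hWmono hn)
  have hsup : ∀ n, m ≤ n → W (m + 1) ⊔ (W n).map φ = W (n + 1) := by
    intro n hn
    have hle' : W (m + 1) ⊔ (W n).map φ ≤ W (n + 1) := by
      apply sup_le
      · exact hWmono (by omega)
      · rw [← hφW n]
        exact inf_le_inf_right _ (le_sup_right : (T n).map φ ≤ F ⊔ (T n).map φ)
    have e5n := eq5 n hn
    have e5m := eq5 m le_rfl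
    have e6 := h.card_sup (W (m + 1)) ((W n).map φ)
    rw [hEinf n hn] at e6
    have hfpos : 0 < f := by
      have : Finite (F ⊓ (T m).map φ : Subgroup G) :=
        Finite.of_injective _ (Subgroup.inclusion_injective (inf_le_left : F ⊓ (T m).map φ ≤ F))
      exact Nat.card_pos
    have hFbpos : 0 < Nat.card (F.map π) := Nat.card_pos
    have hWmpos : 0 < Nat.card ((W m).map φ) := by
      have := hmapfin _ (hWfin m)
      exact Nat.card_pos
    have e7 : Nat.card (W (m + 1)) * Nat.card ((W n).map φ) =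
        Nat.card (W (n + 1)) * Nat.card ((W m).map φ) := by
      apply Nat.eq_of_mul_eq_mul_left (Nat.mul_pos hfpos hFbpos)
      calc f * Nat.card (F.map π) * (Nat.card (W (m + 1)) * Nat.card ((W n).map φ))
          = (f * Nat.card (F.map π) * Nat.card (W (m + 1))) * Nat.card ((W n).map φ) := by ring
        _ = (Nat.card F * fb * Nat.card ((W m).map φ)) * Nat.card ((W n).map φ) := by rw [e5m]
        _ = (Nat.card F * fb * Nat.card ((W n).map φ)) * Nat.card ((W m).map φ) := by ring
        _ = (f * Nat.card (F.map π) * Nat.card (W (n + 1))) * Nat.card ((W m).map φ) := by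
            rw [e5n]
        _ = _ := by ring
    rw [e7] at e6
    have e8 := Nat.eq_of_mul_eq_mul_right hWmpos e6
    have := hWfin (n + 1)
    exact Subgroup.eq_of_le_of_card_ge hle' e8.ge
  refine ⟨m, fun k => ?_⟩
  induction k with
  | zero =>
    rw [Tg_succ]
    simp [Tg]
  | succ k ih =>
    rw [Tg_succ, ih]
    exact hsup (m + k + 1) (by omega)

end V11211.AT
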