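import Pool.Agent.V11211.AT3

open scoped Pointwise ENNReal
open Filter Topology

namespace V11211.AT

variable {G : Type*} [Group G] {K : Type*} [Group K]

theorem iter_mem (φ : G →* G) {H : Subgroup G} (hH : H ≤ H.comap φ) (k : ℕ) {x : G}
    (hx : x ∈ H) : (⇑φ)^[k] x ∈ H := by
  induction k generalizing x with
  | zero => exact hx
  | succ k ih => rw [Function.iterate_succ_apply]; exact ih (hH hx)

/-- union of the iterated preimages -/
def Hs (φ : G →* G) (H : Subgroup G) (hH : H ≤ H.comap φ) : Subgroup G where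
  carrier := {x | ∃ j, (⇑φ)^[j] x ∈ H}
  one_mem' := ⟨0, H.one_mem⟩
  mul_mem' := by
    rintro x y ⟨i, hi⟩ ⟨j, hj⟩
    refine ⟨i + j, ?_⟩
    rw [iter_mul]
    apply H.mul_mem
    · rw [add_comm, Function.iterate_add_apply]; exact iter_mem φ hH j hi
    · rw [Function.iterate_add_apply]; exact iter_mem φ hH i hj
  inv_mem' := by
    rintro x ⟨i, hi⟩
    refine ⟨i, ?_⟩
    have : (⇑φ)^[i] x⁻¹ = ((⇑φ)^[i] x)⁻¹ := map_inv (iterHom φ i) x
    rw [this]
    exact H.inv_mem hi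

theorem mem_Hs {φ : G →* G} {H : Subgroup G} {hH : H ≤ H.comap φ} {x : G} :
    x ∈ Hs φ H hH ↔ ∃ j, (⇑φ)^[j] x ∈ H := Iff.rfl

instance (φ : G →* G) (H : Subgroup G) [hn : H.Normal] (hH : H ≤ H.comap φ) :
    (Hs φ H hH).Normal := by
  constructor
  rintro x ⟨i, hi⟩ g
  refine ⟨i, ?_⟩
  have : (⇑φ)^[i] (g * x * g⁻¹) = (⇑φ)^[i] g * (⇑φ)^[i] x * ((⇑φ)^[i] g)⁻¹ := by
    have := map_inv (iterHom φ i) g
    change (⇑φ)^[i] g⁻¹ = ((⇑φ)^[i] g)⁻¹ at this
    rw [iter_mul, iter_mul, this]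
  rw [this]
  exact hn.conj_mem _ hi _

theorem Hs_iff (φ : G →* G) (H : Subgroup G) (hH : H ≤ H.comap φ) (x : G) :
    φ x ∈ Hs φ H hH ↔ x ∈ Hs φ H hH := by
  constructor
  · rintro ⟨j, hj⟩
    exact ⟨j + 1, by rwa [Function.iterate_succ_apply]⟩
  · rintro ⟨j, hj⟩
    refine ⟨j, ?_⟩
    rw [← Function.iterate_succ_apply, Function.iterate_succ_apply']
    exact hH hj

theorem le_Hs (φ : G →* G) (H : Subgroup G) (hH : H ≤ H.comap φ) : H ≤ Hs φ H hH :=
  fun _ hx => ⟨0, hx⟩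

/-- restriction of `φ` to an invariant subgroup -/
def restr (φ : G →* G) (H : Subgroup G) (hH : H ≤ H.comap φ) : H →* H :=
  (φ.comp H.subtype).codRestrict H fun x => hH x.2

theorem lc_mono (φ : G →* G) {F F' : Set G} (hF : F'.Finite) (h1 : (1 : G) ∈ F) (h : F ⊆ F')
    (n : ℕ) : lc φ F n ≤ lc φ F' n := by
  unfold lc
  apply Real.log_le_log
  · exact_mod_cast card_traj_pos φ (hF.subset h) h1 n
  · exact_mod_cast card_mono (traj_mono φ h n) (traj_finite φ hF n)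

theorem lc_image_le (f : G →* K) (φ : G →* G) (ψ : K →* K) (h : ∀ x, f (φ x) = ψ (f x))
    {F : Set G} (hF : F.Finite) (h1 : (1 : G) ∈ F) (n : ℕ) : lc ψ (f '' F) n ≤ lc φ F n := by
  unfold lc
  apply Real.log_le_log
  · exact_mod_cast card_traj_pos ψ (hF.image f) ⟨1, h1, map_one f⟩ n
  · rw [← map_traj f φ ψ h]
    exact_mod_cast card_image_le f (traj_finite φ hF n)

theorem lc_image_inj (f : G →* K) (hf : Function.Injective f) (φ : G →* G) (ψ : K →* K)
    (h : ∀ x, f (φ x) = ψ (f x)) (F : Set G) (n : ℕ) : lc ψ (f '' F) n = lc φ F n := by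
  unfold lc
  rw [← map_traj f φ ψ h, card_image_inj hf]

theorem Halg_le_halg (φ : G →* G) {F : Set G} (hF : F.Finite) (h1 : (1 : G) ∈ F) :
    Halg φ F ≤ halg φ :=
  le_iSup (fun F : {F : Set G // F.Finite ∧ (1 : G) ∈ F} => Halg φ F.1) ⟨F, hF, h1⟩

theorem Halg_mono_of_lc {φ : G →* G} {ψ : K →* K} {F : Set G} {F' : Set K} (hF : F.Finite)
    (h1 : (1 : G) ∈ F) (hF' : F'.Finite) (h1' : (1 : K) ∈ F') (h : ∀ n, lc φ F n ≤ lc ψ F' n) :
    Halg φ F ≤ Halg ψ F' := by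
  obtain ⟨L, -, hL⟩ := exists_growth φ hF h1
  obtain ⟨L', -, hL'⟩ := exists_growth ψ hF' h1'
  rw [Halg_eq φ hL, Halg_eq ψ hL']
  apply ENNReal.ofReal_le_ofReal
  exact growth_le (j := 0) (c := 0) hL hL' (fun n => by simpa using h n)

/-- growth is not changed by replacing `F` by `φ^j(F)` -/
theorem Halg_iter (φ : G →* G) {F : Set G} (hF : F.Finite) (h1 : (1 : G) ∈ F) (j : ℕ) :
    Halg φ F ≤ Halg φ ((⇑φ)^[j] '' F) := by
  have h1' : (1 : G) ∈ (⇑φ)^[j] '' F := ⟨1, h1, iter_one φ j⟩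
  obtain ⟨L, -, hL⟩ := exists_growth φ hF h1
  obtain ⟨L', -, hL'⟩ := exists_growth φ (hF.image ((⇑φ)^[j])) h1'
  rw [Halg_eq φ hL, Halg_eq φ hL']
  apply ENNReal.ofReal_le_ofReal
  refine growth_le (j := j) (c := lc φ F j) hL hL' (fun n => ?_)
  have hmap : (⇑φ)^[j] '' traj φ F n = traj φ ((⇑φ)^[j] '' F) n := by
    refine map_traj (iterHom φ j) φ φ ?_ F n
    intro x
    change (⇑φ)^[j] (φ x) = φ ((⇑φ)^[j] x)
    rw [← Function.iterate_succ_apply, Function.iterate_succ_apply']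
  have hpj := card_traj_pos φ hF h1 j
  have hpn := card_traj_pos φ (hF.image ((⇑φ)^[j])) h1' n
  have hpjn := card_traj_pos φ hF h1 (n + j)
  unfold lc
  rw [← Real.log_mul (by positivity) (by positivity)]
  apply Real.log_le_log (by positivity)
  rw [add_comm n j, traj_add, hmap]
  exact_mod_cast Set.natCard_mul_le

theorem upper_subgroup (h : Quasihamiltonian G) (φ : G →* G) (N : Subgroup G) [N.Normal]
    (hN : ∀ x, φ x ∈ N ↔ x ∈ N) (hle : N ≤ N.comap φ) (F : Subgroup G) [Finite F] :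
    ∃ E : Set G, E.Finite ∧ (1 : G) ∈ E ∧ E ⊆ N ∧
      Halg φ (F : Set G) ≤ Halg (QuotientGroup.map N N φ hle)
        (QuotientGroup.mk' N '' (F : Set G)) + Halg φ E := by
  obtain ⟨m, hm⟩ := key h φ N hN F
  have hEfin : Finite (Tg φ F (m + 1) ⊓ N : Subgroup G) := by
    have := finite_Tg h φ F (m + 1)
    exact Finite.of_injective _
      (Subgroup.inclusion_injective (inf_le_left : Tg φ F (m + 1) ⊓ N ≤ Tg φ F (m + 1)))
  have hEF : (((Tg φ F (m + 1) ⊓ N : Subgroup G) : Set G)).Finite := Set.toFinite _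
  refine ⟨((Tg φ F (m + 1) ⊓ N : Subgroup G) : Set G), hEF, one_mem _,
    fun x hx => hx.2, ?_⟩
  have hFfin : (F : Set G).Finite := Set.toFinite _
  set ψ := QuotientGroup.map N N φ hle with hψ
  set π := QuotientGroup.mk' N with hπ
  have hcomm : ∀ x, π (φ x) = ψ (π x) := fun x => by simp [hπ, hψ]
  have hbF : (π '' (F : Set G)).Finite := hFfin.image _
  have hb1 : (1 : G ⧸ N) ∈ π '' (F : Set G) := ⟨1, F.one_mem, map_one π⟩
  obtain ⟨L, _, hL⟩ := exists_growth φ hFfin F.one_mem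
  obtain ⟨L1, hL1p, hL1⟩ := exists_growth ψ hbF hb1
  obtain ⟨L2, hL2p, hL2⟩ := exists_growth φ hEF (one_mem _)
  rw [Halg_eq φ hL, Halg_eq ψ hL1, Halg_eq φ hL2, ← ENNReal.ofReal_add hL1p hL2p]
  apply ENNReal.ofReal_le_ofReal
  have hsum : Tendsto (fun n : ℕ => (lc ψ (π '' (F : Set G)) n +
      lc φ ((Tg φ F (m + 1) ⊓ N : Subgroup G) : Set G) n) / n) atTop (𝓝 (L1 + L2)) := by
    simp_rw [add_div]
    exact hL1.add hL2
  -- card identity
  have hcard : ∀ n, lc φ (F : Set G) n = lc ψ (π '' (F : Set G)) n +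
      Real.log (Nat.card (Tg φ F n ⊓ N : Subgroup G)) := by
    intro n
    have hfT := finite_Tg h φ F n
    have hfW : Finite (Tg φ F n ⊓ N : Subgroup G) := Finite.of_injective _
      (Subgroup.inclusion_injective (inf_le_left : Tg φ F n ⊓ N ≤ Tg φ F n))
    have h1 := card_map_mk N (Tg φ F n)
    have h2 : Nat.card ((Tg φ F n).map (QuotientGroup.mk' N)) =
        Nat.card (traj ψ (π '' (F : Set G)) n) := by
      rw [← map_traj π φ ψ hcomm, ← coe_Tg h, ← Subgroup.coe_map]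
      rfl
    unfold lc
    rw [← card_Tg h, h1, h2, Nat.cast_mul, Real.log_mul]
    · have := card_traj_pos ψ hbF hb1 n
      positivity
    · have : 0 < Nat.card (Tg φ F n ⊓ N : Subgroup G) := Nat.card_pos
      positivity
  refine growth_le (j := m) (c := lc φ (F : Set G) m + lc ψ (π '' (F : Set G)) m) hL hsum
    (fun n => ?_)
  rcases n with _ | k
  · have e1 := lc_nonneg ψ (π '' (F : Set G)) m
    have e2 := lc_nonneg ψ (π '' (F : Set G)) 0
    have e3 := lc_nonneg φ ((Tg φ F (m + 1) ⊓ N : Subgroup G) : Set G) 0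
    rw [zero_add]
    linarith
  · have e1 := hcard (k + 1 + m)
    have e2 := lc_subadditive ψ hbF hb1 (k + 1) m
    have e3 : Real.log (Nat.card (Tg φ F (k + 1 + m) ⊓ N : Subgroup G)) =
        lc φ ((Tg φ F (m + 1) ⊓ N : Subgroup G) : Set G) (k + 1) := by
      have : k + 1 + m = m + k + 1 := by omega
      rw [this, ← hm k]
      unfold lc
      rw [card_Tg h]
    have e4 := lc_nonneg φ (F : Set G) m
    rw [e1, e3]
    linarith

end V11211.AT
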