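import Pool.Agent.Y95.Q.K3

/-!
# Planes in cubic fourfolds and the two-rank of the discriminant group of the Hodge classes
-/

set_option autoImplicit false

namespace Pool.Agent.V11211.CF

open Pool.Agent.Y95.Q Pool.Agent.Y95.Q.H4 Finset Module

variable {X : CubicFourfold} (H : H4 X)

/-- The radical of the intersection form on the group `A` of the Hodge classes modulo `2`: the
classes in `A / 2 A` (a subgroup of `H^4(X, ℤ) / 2`) of the Hodge classes which have an even
intersection number with every Hodge class. -/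
def radical : Submodule (ZMod 2) (Fin 23 → ZMod 2) where
  carrier := {x | ∃ T, H.IsHodge T ∧ (∀ T', H.IsHodge T' → Even (H.ip T T')) ∧ red T = x}
  zero_mem' := ⟨0, H.isHodge_zero, fun T' _ => by rw [H.ip_zero_left]; exact ⟨0, rfl⟩, map_zero _⟩
  add_mem' := by
    rintro x y ⟨T, h1, h2, h3⟩ ⟨T', h1', h2', h3'⟩
    refine ⟨T + T', H.isHodge_add h1 h1', fun U hU => ?_, by rw [map_add, h3, h3']⟩
    rw [H.ip_add_left]
    exact (h2 U hU).add (h2' U hU)
  smul_mem' := by
    rintro c x ⟨T, h1, h2, h3⟩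
    refine ⟨(c.val : ℤ) • T, H.isHodge_smul _ h1, fun U hU => ?_, ?_⟩
    · rw [H.ip_smul_left]
      exact (h2 U hU).mul_left _
    · rw [red_smul, h3]
      congr 1
      simp

/-- its dimension: the two-rank of the discriminant group of the lattice of the Hodge classes -/
noncomputable def twoRank : ℕ := finrank (ZMod 2) (radical H)

variable {H}

theorem red_mem (hH : H.IsCohomology) (hE : H.AllEven) {P : Fin 23 → ℤ} (hP : H.IsPl P) :
    red (H.h - P) ∈ radical H := by
  refine ⟨H.h - P, H.isHodge_sub hH.h_hodge hP.1, fun T' hT' => ?_, rfl⟩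
  rw [hH.comm]
  exact hE P hP T' hT'

/-- **The relations modulo two** between planes which meet pairwise in points. -/
theorem relation (hH : H.IsCohomology) (hE : H.AllEven) {D : Finset (Fin 23 → ℤ)}
    (hD : ∀ v ∈ D, H.IsPl v) (hDD : ∀ v ∈ D, ∀ u ∈ D, v ≠ u → H.ip v u = 1)
    (h0 : ∑ v ∈ D, red (H.h - v) = 0) (hne : D.Nonempty) :
    D.card % 4 = 1 ∧ 5 ≤ D.card ∧ ∀ Q, H.IsPl Q → ¬ (∀ v ∈ D, H.ip Q v = 1) := by
  classical
  rw [← map_sum] at h0
  obtain ⟨w, hw⟩ := exists_half h0
  have hwH : H.IsHodge w := by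
    refine H.isHodge_of_smul two_ne_zero ?_
    rw [← hw]
    exact H.isHodge_sum _ _ fun i hi => H.isHodge_sub hH.h_hodge (hD i hi).1
  -- intersection numbers
  have e1 : ∀ v ∈ D, H.ip (H.h - v) H.h = 2 := by
    intro v hv
    rw [ip_sub_left, hH.h_self, (hD v hv).2.1]
    norm_num
  have e2 : ∀ Q, H.IsPl Q → ∀ v ∈ D, H.ip (H.h - v) (H.h - Q) = 1 + H.ip v Q := by
    intro Q hQ v hv
    rw [ip_sub_left, ip_sub_right, ip_sub_right, hH.h_self, (hD v hv).2.1, hH.comm H.h Q, hQ.2.1]
    ring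
  have f1 : H.ip w H.h = D.card := by
    have h1 : H.ip (∑ v ∈ D, (H.h - v)) H.h = 2 * H.ip w H.h := by rw [hw, ip_smul_left]
    rw [ip_sum_left, sum_congr rfl e1, sum_const, nsmul_eq_mul] at h1
    linarith
  have f2 : ∀ v0 ∈ D, H.ip w (H.h - v0) = D.card + 1 := by
    intro v0 hv0
    have h1 : H.ip (∑ v ∈ D, (H.h - v)) (H.h - v0) = 2 * H.ip w (H.h - v0) := by
      rw [hw, ip_smul_left]
    have h2 : ∀ v ∈ D, H.ip (H.h - v) (H.h - v0) = 2 + if v = v0 then 2 else 0 := by
      intro v hv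
      rw [e2 v0 (hD v0 hv0) v hv]
      by_cases h : v = v0
      · rw [if_pos h, h, (hD v0 hv0).2.2]; norm_num
      · rw [if_neg h, hDD v hv v0 hv0 h]; norm_num
    rw [ip_sum_left, sum_congr rfl h2, sum_add_distrib, sum_const, nsmul_eq_mul,
      Finset.sum_ite_eq' D v0, if_pos hv0] at h1
    linarith
  have f3 : 2 * H.ip w w = D.card * D.card + D.card := by
    have h1 : H.ip w (∑ v ∈ D, (H.h - v)) = 2 * H.ip w w := by rw [hw, ip_smul_right]
    rw [ip_sum_right, sum_congr rfl f2, sum_const, nsmul_eq_mul] at h1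
    rw [← h1]
    ring
  have f4 := hH.char w
  rw [f1] at f4
  obtain ⟨v0, hv0⟩ := hne
  have hpos : 0 < D.card := card_pos.2 ⟨v0, hv0⟩
  have f5 := hE v0 (hD v0 hv0) w hwH
  rw [f2 v0 hv0] at f5
  have hodd : D.card % 2 = 1 := by
    obtain ⟨m, hm⟩ := f5
    omega
  have h4 : D.card % 4 = 1 := by
    obtain ⟨m, hm⟩ := f4
    obtain ⟨t, ht⟩ : ∃ t, D.card = 4 * t + 1 ∨ D.card = 4 * t + 3 := ⟨D.card / 4, by omega⟩
    rcases ht with ht | ht
    · omega
    · exfalso
      have g1 : ((D.card : ℕ) : ℤ) = 4 * t + 3 := by rw [ht]; push_cast; ring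
      rw [g1] at f3 hm
      have g2 : H.ip w w = 8 * (t * t) + 14 * t + 6 := by nlinarith
      omega
  refine ⟨h4, ?_, ?_⟩
  · by_contra hlt
    have hc1 : D.card = 1 := by omega
    rw [hc1] at f1 f3
    refine hH.disc_two w hwH (by simpa using f1) ?_
    push_cast at f3
    linarith
  · intro Q hQ hall
    have h1 : H.ip (∑ v ∈ D, (H.h - v)) (H.h - Q) = 2 * H.ip w (H.h - Q) := by
      rw [hw, ip_smul_left]
    have h2 : ∀ v ∈ D, H.ip (H.h - v) (H.h - Q) = 2 := by
      intro v hv
      rw [e2 Q hQ v hv, hH.comm, hall v hv]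
      norm_num
    rw [ip_sum_left, sum_congr rfl h2, sum_const, nsmul_eq_mul] at h1
    have h3 := hE Q hQ w hwH
    have h5 : H.ip w (H.h - Q) = D.card := by linarith
    rw [h5] at h3
    obtain ⟨m, hm⟩ := h3
    omega

/-- a family without vanishing sums is not larger than the dimension -/
theorem card_le_finrank {ι : Type} [Fintype ι] {W : Submodule (ZMod 2) (Fin 23 → ZMod 2)}
    {f : ι → Fin 23 → ZMod 2} (hf : ∀ i, f i ∈ W)
    (h : ∀ S : Finset ι, ∑ i ∈ S, f i = 0 → S = ∅) : Fintype.card ι ≤ finrank (ZMod 2) W := by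
  classical
  let g : ι → W := fun i => ⟨f i, hf i⟩
  have h1 : LinearIndependent (ZMod 2) f := by
    rw [Fintype.linearIndependent_iff]
    intro c hc i
    have h2 : ∀ a : ZMod 2, a = 0 ∨ a = 1 := by decide
    have h3 : ∑ i ∈ univ.filter (fun i => c i = 1), f i = 0 := by
      rw [sum_filter]
      refine Eq.trans (sum_congr rfl fun j _ => ?_) hc
      rcases h2 (c j) with h4 | h4
      · rw [h4, if_neg (by decide), zero_smul]
      · rw [h4, if_pos rfl, one_smul]
    have h5 := h _ h3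
    rcases h2 (c i) with h4 | h4
    · exact h4
    · exfalso
      have h6 : i ∈ univ.filter (fun i => c i = 1) := by simp [h4]
      rw [h5] at h6
      simp at h6
  have h2 : LinearIndependent (ZMod 2) g := by
    refine LinearIndependent.of_comp W.subtype ?_
    exact h1
  exact h2.fintype_card_le_finrank

/-- a set of planes without relations -/
theorem card_le_of_sub {E : Finset (Fin 23 → ℤ)} {W : Submodule (ZMod 2) (Fin 23 → ZMod 2)}
    {g : (Fin 23 → ℤ) → Fin 23 → ZMod 2} (hg : ∀ v ∈ E, g v ∈ W)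
    (h : ∀ S ⊆ E, ∑ v ∈ S, g v = 0 → S = ∅) : E.card ≤ finrank (ZMod 2) W := by
  classical
  have h1 := card_le_finrank (ι := E) (W := W) (f := fun v => g v) (fun v => hg v v.2) (by
    intro S hS
    have h2 := h (S.map (Function.Embedding.subtype _)) (by
      intro x hx
      rw [mem_map] at hx
      obtain ⟨y, -, rfl⟩ := hx
      exact y.2) (by rw [sum_map]; exact hS)
    rwa [Finset.map_eq_empty] at h2)
  rwa [Fintype.card_coe] at h1

end Pool.Agent.V11211.CF
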