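import Pool.Agent.V11211.CF1

set_option autoImplicit false

namespace Pool.Agent.V11211.CF

open Pool.Agent.Y95.Q Pool.Agent.Y95.Q.H4 Finset Module

variable {X : CubicFourfold} {H : H4 X}

theorem red_ne_zero (hH : H.IsCohomology) (hE : H.AllEven) {P : Fin 23 → ℤ} (hP : H.IsPl P) :
    red (H.h - P) ≠ 0 := by
  intro h
  have h1 := relation hH hE (D := {P}) (by simpa using hP) (by
    intro v hv u hu hne
    rw [mem_singleton] at hv hu
    exact absurd (hv.trans hu.symm) hne) (by simpa using h) (singleton_nonempty _)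
  rw [card_singleton] at h1
  omega

theorem red_third (P Q : Fin 23 → ℤ) :
    red (H.h - (H.h - P - Q)) = red (H.h - P) + red (H.h - Q) := by
  have h1 : H.h - (H.h - P - Q) = (H.h - P) + (H.h - Q) - (2 : ℤ) • (H.h - P - Q) := by
    rw [two_smul]
    abel
  rw [h1, map_sub, red_two, map_add, sub_zero]

theorem add_self_zero (x : Fin 23 → ZMod 2) : x + x = 0 := by
  ext i
  have : ∀ a : ZMod 2, a + a = 0 := by decide
  exact this _

theorem red_inj (hH : H.IsCohomology) (hE : H.AllEven) {P Q : Fin 23 → ℤ} (hP : H.IsPl P)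
    (hQ : H.IsPl Q) (h : red (H.h - P) = red (H.h - Q)) : P = Q := by
  classical
  by_contra hne
  rcases hH.pm hE hP hQ hne with h1 | h1
  · have h2 := relation hH hE (D := {P, Q}) (by
      intro v hv
      rw [mem_insert, mem_singleton] at hv
      rcases hv with rfl | rfl
      · exact hP
      · exact hQ) (by
      intro v hv u hu huv
      rw [mem_insert, mem_singleton] at hv hu
      rcases hv with rfl | rfl
      · rcases hu with rfl | rfl
        · exact absurd rfl huv
        · exact h1
      · rcases hu with rfl | rfl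
        · rw [hH.comm]; exact h1
        · exact absurd rfl huv) (by
      rw [sum_pair hne, h]
      exact add_self_zero _) ⟨P, by simp⟩
    rw [card_pair hne] at h2
    omega
  · refine red_ne_zero hH hE (hH.third hP hQ h1) ?_
    rw [red_third, h]
    exact add_self_zero _

/-- **The number of planes** is smaller than the number of elements of the radical. -/
theorem card_lt_pow_twoRank (hH : H.IsCohomology) (hE : H.AllEven) {S : Finset (Fin 23 → ℤ)}
    (hS : ∀ v ∈ S, H.IsPl v) : S.card < 2 ^ twoRank H := by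
  refine card_lt_pow (radical H).mkQ (n := twoRank H) (by rw [Submodule.ker_mkQ]; rfl) S
    (fun v => red (H.h - (v : Fin 23 → ℤ))) (fun v => ?_) (fun v w h => ?_) (fun v => ?_)
  · rw [Submodule.mkQ_apply, Submodule.Quotient.mk_eq_zero]
    exact red_mem hH hE (hS v v.2)
  · exact Subtype.ext (red_inj hH hE (hS v v.2) (hS w w.2) h)
  · exact red_ne_zero hH hE (hS v v.2)

/-- **The relations modulo two** between planes which meet one plane in lines, and each other in
points, with the class of this plane. -/
theorem relation_star (hH : H.IsCohomology) (hE : H.AllEven) {A : Fin 23 → ℤ} (hA : H.IsPl A)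
    {S : Finset (Fin 23 → ℤ)} (hS : ∀ v ∈ S, H.IsPl v ∧ H.ip v A = -1)
    (hSS : ∀ v ∈ S, ∀ u ∈ S, v ≠ u → H.ip v u = 1)
    (h0 : ∑ v ∈ S, red (H.h - v) + red (H.h - A) = 0) :
    S.card % 4 = 1 ∧ 5 ≤ S.card ∧
      ∀ Q, H.IsPl Q → H.ip Q A = -1 → ¬ (∀ v ∈ S, H.ip Q v = 1) := by
  classical
  rcases S.eq_empty_or_nonempty with rfl | ⟨v0, hv0⟩
  · rw [sum_empty, zero_add] at h0
    exact absurd h0 (red_ne_zero hH hE hA)
  have hv := hS v0 hv0
  have hAv : H.ip A v0 = -1 := (hH.comm _ _).trans hv.2
  have hv' : H.IsPl (H.h - A - v0) := hH.third hA hv.1 hAv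
  have hip : ∀ Q, H.IsPl Q → H.ip Q A = -1 → H.ip Q v0 = 1 → H.ip Q (H.h - A - v0) = 1 := by
    intro Q hQ h1 h2
    rw [ip_third hQ, h1, h2]
    norm_num
  have hnot : H.h - A - v0 ∉ S.erase v0 := by
    intro hmem
    have h1 := hSS _ (mem_of_mem_erase hmem) v0 hv0 (ne_of_mem_erase hmem)
    have h2 := hip _ hv' (hS _ (mem_of_mem_erase hmem)).2 h1
    rw [hv'.2.2] at h2
    norm_num at h2
  have hcard : (insert (H.h - A - v0) (S.erase v0)).card = S.card := by
    rw [card_insert_of_notMem hnot, card_erase_of_mem hv0]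
    have := card_pos.2 ⟨v0, hv0⟩
    omega
  have h1 := relation hH hE (D := insert (H.h - A - v0) (S.erase v0)) (by
      intro v hv
      rcases mem_insert.1 hv with rfl | hv
      · exact hv'
      · exact (hS v (mem_of_mem_erase hv)).1) (by
      intro v hv u hu hne
      rcases mem_insert.1 hv with rfl | hv
      · rcases mem_insert.1 hu with rfl | hu
        · exact absurd rfl hne
        · rw [hH.comm]
          have hu' := hS u (mem_of_mem_erase hu)
          exact hip u hu'.1 hu'.2 (hSS u (mem_of_mem_erase hu) v0 hv0 (ne_of_mem_erase hu))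
      · rcases mem_insert.1 hu with rfl | hu
        · have hv' := hS v (mem_of_mem_erase hv)
          exact hip v hv'.1 hv'.2 (hSS v (mem_of_mem_erase hv) v0 hv0 (ne_of_mem_erase hv))
        · exact hSS v (mem_of_mem_erase hv) u (mem_of_mem_erase hu) hne) (by
      rw [sum_insert hnot, red_third, ← h0, ← add_sum_erase S _ hv0]
      abel) ⟨_, mem_insert_self _ _⟩
  rw [hcard] at h1
  refine ⟨h1.1, h1.2.1, fun Q hQ hQA hall => h1.2.2 Q hQ fun v hv => ?_⟩
  rcases mem_insert.1 hv with rfl | hv
  · exact hip Q hQ hQA (hall v0 hv0)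
  · exact hall v (mem_of_mem_erase hv)

/-- **Planes which meet pairwise in points.** -/
theorem no_edges (hH : H.IsCohomology) (hE : H.AllEven) {S : Finset (Fin 23 → ℤ)}
    (hS : ∀ v ∈ S, H.IsPl v) (hSS : ∀ v ∈ S, ∀ u ∈ S, v ≠ u → H.ip v u = 1) :
    (S.card % 4 ≠ 1 → S.card ≤ twoRank H) ∧ S.card ≤ twoRank H + 1 := by
  classical
  have hmem : ∀ v ∈ S, red (H.h - v) ∈ radical H := fun v hv => red_mem hH hE (hS v hv)
  constructor
  · intro h4
    refine card_le_of_sub (g := fun v => red (H.h - v)) hmem fun T hT h0 => ?_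
    by_contra hne
    have hne' : T.Nonempty := nonempty_iff_ne_empty.2 hne
    have h1 := relation hH hE (fun v hv => hS v (hT hv))
      (fun v hv u hu h => hSS v (hT hv) u (hT hu) h) h0 hne'
    have h2 : T ≠ S := by
      rintro rfl
      exact h4 h1.1
    obtain ⟨Q, hQ, hQT⟩ := exists_of_ssubset (Finset.ssubset_iff_subset_ne.2 ⟨hT, h2⟩)
    refine h1.2.2 Q (hS Q hQ) fun v hv => hSS Q hQ v (hT hv) ?_
    rintro rfl
    exact hQT hv
  · rcases S.eq_empty_or_nonempty with rfl | ⟨e, he⟩
    · simp
    · have h2 : (S.erase e).card ≤ twoRank H := by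
        refine card_le_of_sub (g := fun v => red (H.h - v))
          (fun v hv => hmem v (mem_of_mem_erase hv)) fun T hT h0 => ?_
        by_contra hne
        have hne' : T.Nonempty := nonempty_iff_ne_empty.2 hne
        have hT' : T ⊆ S := hT.trans (erase_subset _ _)
        have h1 := relation hH hE (fun v hv => hS v (hT' hv))
          (fun v hv u hu h => hSS v (hT' hv) u (hT' hu) h) h0 hne'
        refine h1.2.2 e (hS e he) fun v hv => hSS e he v (hT' hv) ?_
        rintro rfl
        exact (notMem_erase _ _) (hT hv)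
      rw [card_erase_of_mem he] at h2
      omega

/-- **Planes which meet one plane in lines and each other in points.** -/
theorem star (hH : H.IsCohomology) (hE : H.AllEven) {A : Fin 23 → ℤ} (hA : H.IsPl A)
    {E : Finset (Fin 23 → ℤ)} (hS : ∀ v ∈ E, H.IsPl v ∧ H.ip v A = -1)
    (hSS : ∀ v ∈ E, ∀ u ∈ E, v ≠ u → H.ip v u = 1) (hne : E.Nonempty) :
    E.card ≤ twoRank H ∧ (E.card % 4 ≠ 1 ∨ E.card < 5 → E.card + 1 ≤ twoRank H) := by
  classical
  have hAE : A ∉ E := by
    intro h
    have h1 := (hS A h).2
    rw [hA.2.2] at h1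
    norm_num at h1
  -- the general step
  have key : ∀ F ⊆ E, (∀ T ⊆ F, T.Nonempty → T.card % 4 = 1 → 5 ≤ T.card →
      ∃ Q ∈ E, Q ∉ T) → F.card + 1 ≤ twoRank H := by
    intro F hF hstep
    have hAF : A ∉ F := fun h => hAE (hF h)
    have h1 : (insert A F).card ≤ twoRank H := by
      refine card_le_of_sub (g := fun v => red (H.h - v)) ?_ ?_
      · intro v hv
        rcases mem_insert.1 hv with rfl | hv
        · exact red_mem hH hE hA
        · exact red_mem hH hE (hS v (hF hv)).1
      · intro T hT h0
        by_cases hAT : A ∈ T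
        · exfalso
          have hT1 : T.erase A ⊆ F := by
            intro v hv
            rcases mem_insert.1 (hT (mem_of_mem_erase hv)) with h | h
            · exact absurd h (ne_of_mem_erase hv)
            · exact h
          have h2 := relation_star hH hE hA (S := T.erase A) (fun v hv => hS v (hF (hT1 hv)))
            (fun v hv u hu h => hSS v (hF (hT1 hv)) u (hF (hT1 hu)) h) (by
              rw [← h0]
              exact sum_erase_add T _ hAT)
          obtain ⟨Q, hQ, hQT⟩ := hstep _ hT1 (card_pos.1 (by omega)) h2.1 h2.2.1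
          refine h2.2.2 Q (hS Q hQ).1 (hS Q hQ).2 fun v hv => hSS Q hQ v (hF (hT1 hv)) ?_
          rintro rfl
          exact hQT hv
        · by_contra hne
          have hne' : T.Nonempty := nonempty_iff_ne_empty.2 hne
          have hT1 : T ⊆ F := by
            intro v hv
            rcases mem_insert.1 (hT hv) with h | h
            · exact absurd (h ▸ hv) hAT
            · exact h
          have h2 := relation hH hE (D := T) (fun v hv => (hS v (hF (hT1 hv))).1)
            (fun v hv u hu h => hSS v (hF (hT1 hv)) u (hF (hT1 hu)) h) h0 hne'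
          obtain ⟨Q, hQ, hQT⟩ := hstep _ hT1 hne' h2.1 h2.2.1
          refine h2.2.2 Q (hS Q hQ).1 fun v hv => hSS Q hQ v (hF (hT1 hv)) ?_
          rintro rfl
          exact hQT hv
    rwa [card_insert_of_notMem hAF] at h1
  constructor
  · obtain ⟨e, he⟩ := hne
    have h1 := key (E.erase e) (erase_subset _ _) (fun T hT _ _ _ =>
      ⟨e, he, fun h => notMem_erase _ _ (hT h)⟩)
    rw [card_erase_of_mem he] at h1
    have := card_pos.2 ⟨e, he⟩
    omega
  · intro h4
    refine key E subset_rfl fun T hT _ h1 h2 => ?_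
    have h3 : T ≠ E := by
      rintro rfl
      omega
    exact exists_of_ssubset (Finset.ssubset_iff_subset_ne.2 ⟨hT, h3⟩)

end Pool.Agent.V11211.CF
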