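import Pool.Agent.V11211.CF2

set_option autoImplicit false

namespace Pool.Agent.V11211.CF

open Pool.Agent.Y95.Q Pool.Agent.Y95.Q.H4 Finset Module

variable {X : CubicFourfold} {H : H4 X}

/-! ### The two-rank and the rank -/

/-- The two-rank is at most the rank. -/
theorem twoRank_le_rank (H : H4 X) : twoRank H ≤ H.rank := by
  classical
  let b := Module.finBasis ℤ H.hodge
  let f : Fin (finrank ℤ H.hodge) → Fin 23 → ZMod 2 := fun i => red (b i : Fin 23 → ℤ)
  have h1 : radical H ≤ Submodule.span (ZMod 2) (Set.range f) := by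
    rintro x ⟨T, hT, -, rfl⟩
    let T' : H.hodge := ⟨T, hT⟩
    have h2 : T = ∑ i, (b.repr T' i) • (b i : Fin 23 → ℤ) := by
      have h3 := b.sum_repr T'
      have h4 := congrArg (fun t : H.hodge => (t : Fin 23 → ℤ)) h3
      simp only [Submodule.coe_sum, Submodule.coe_smul] at h4
      exact h4.symm
    rw [h2, map_sum]
    refine Submodule.sum_mem _ fun i _ => ?_
    rw [red_smul]
    exact Submodule.smul_mem _ _ (Submodule.subset_span ⟨i, rfl⟩)
  have h2 : finrank (ZMod 2) (Submodule.span (ZMod 2) (Set.range f)) ≤ finrank ℤ H.hodge := by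
    have := finrank_range_le_card (R := ZMod 2) (b := f)
    rwa [Set.finrank, Fintype.card_fin] at this
  rw [rank_eq]
  exact (Submodule.finrank_mono h1).trans h2

/-- The two-rank is at most the rank of the orthogonal complement of the Hodge classes. -/
theorem twoRank_add_rank_le (hH : H.IsCohomology) : twoRank H + H.rank ≤ 23 := by
  classical
  let b := Module.finBasis ℤ H.hodge
  let R : Matrix (Fin (finrank ℤ H.hodge)) (Fin 23) (ZMod 2) := fun k => red (b k : Fin 23 → ℤ)
  let Bm : Matrix (Fin 23) (Fin 23) (ZMod 2) := H.B.map (Int.castRingHom (ZMod 2))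
  have hR : R.rank = finrank ℤ H.hodge := by
    have h1 : R.rank = Fintype.card (Fin (finrank ℤ H.hodge)) :=
      LinearIndependent.rank_matrix (H.basis_indep b)
    rw [h1, Fintype.card_fin]
  have hker : finrank (ZMod 2) (LinearMap.ker R.mulVecLin) + finrank ℤ H.hodge = 23 := by
    have h1 := LinearMap.finrank_range_add_finrank_ker R.mulVecLin
    have h2 : finrank (ZMod 2) (LinearMap.range R.mulVecLin) = finrank ℤ H.hodge := hR
    rw [h2, finrank_fin_fun] at h1
    omega
  have hmem : ∀ x ∈ radical H, Bm.mulVecLin x ∈ LinearMap.ker R.mulVecLin := by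
    rintro x ⟨T, hT, hT', rfl⟩
    rw [LinearMap.mem_ker]
    ext k
    have h1 : ((H.ip (b k : Fin 23 → ℤ) T : ℤ) : ZMod 2) = 0 := by
      rw [ZMod.intCast_zmod_eq_zero_iff_dvd, hH.comm]
      exact (hT' _ (b k).2).two_dvd
    refine Eq.trans ?_ h1
    change ∑ x, ((b k : Fin 23 → ℤ) x : ZMod 2) *
      ∑ y, ((H.B x y : ℤ) : ZMod 2) * (T y : ZMod 2) = _
    simp only [ip, Int.cast_sum, Int.cast_mul, mul_sum, mul_assoc]
  have hinj : Function.Injective Bm.mulVecLin := hH.mulVec_injective
  have h1 : finrank (ZMod 2) ((radical H).map Bm.mulVecLin) = twoRank H :=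
    (LinearEquiv.finrank_eq (Submodule.equivMapOfInjective Bm.mulVecLin hinj (radical H))).symm
  have h2 : (radical H).map Bm.mulVecLin ≤ LinearMap.ker R.mulVecLin := by
    rintro _ ⟨x, hx, rfl⟩
    exact hmem x hx
  have h3 := Submodule.finrank_mono h2
  rw [rank_eq]
  omega

theorem card_le_rank {κ : Type} [Fintype κ] {f : κ → Fin 23 → ℤ} (hf : ∀ k, H.IsHodge (f k))
    (hi : LinearIndependent ℤ f) : Fintype.card κ ≤ H.rank := by
  rw [rank_eq]
  let f' : κ → H.hodge := fun k => ⟨f k, hf k⟩
  have h1 : LinearIndependent ℤ f' := by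
    refine LinearIndependent.of_comp H.hodge.subtype ?_
    exact hi
  exact h1.fintype_card_le_finrank

/-- Planes which meet pairwise in points are independent. -/
theorem rank_points (hH : H.IsCohomology) {S : Finset (Fin 23 → ℤ)}
    (hS : ∀ v ∈ S, H.IsPl v) (hSS : ∀ v ∈ S, ∀ u ∈ S, v ≠ u → H.ip v u = 1) :
    S.card + 1 ≤ H.rank := by
  classical
  let f : Option S → Fin 23 → ℤ := fun o => o.elim H.h fun v => v
  have hfn : f none = H.h := rfl
  have hfs : ∀ v : S, f (some v) = v := fun v => rfl
  have h1 := card_le_rank (H := H) (f := f) (by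
    rintro (_ | v)
    · exact hH.h_hodge
    · exact (hS v v.2).1) (by
    rw [Fintype.linearIndependent_iff]
    intro c hc
    simp only [Fintype.sum_option, hfn, hfs] at hc
    set a := c none
    set s : ℤ := ∑ v : S, c (some v) with hs
    have hip : ∀ v u : S, H.ip (v : Fin 23 → ℤ) u = 1 + if v = u then 2 else 0 := by
      intro v u
      by_cases h : v = u
      · rw [h, if_pos rfl, (hS u u.2).2.2]; norm_num
      · rw [if_neg h, hSS v v.2 u u.2 (fun h' => h (Subtype.ext h')), add_zero]
    have e1 : 3 * a + s = 0 := by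
      have h1 := congrArg (fun v => H.ip v H.h) hc
      have h2 : ∀ v : S, H.ip (v : Fin 23 → ℤ) H.h = 1 := fun v => (hS v v.2).2.1
      simp only [ip_add_left, ip_sum_left, ip_smul_left, hH.h_self, h2, ip_zero_left,
        mul_one] at h1
      rw [← hs] at h1
      linarith
    have e2 : ∀ u : S, a + s + 2 * c (some u) = 0 := by
      intro u
      have h1 := congrArg (fun v => H.ip v (u : Fin 23 → ℤ)) hc
      have h2 : H.ip H.h (u : Fin 23 → ℤ) = 1 := (hH.comm _ _).trans (hS u u.2).2.1
      simp only [ip_add_left, ip_sum_left, ip_smul_left, h2, hip, ip_zero_left,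
        mul_one, mul_add, sum_add_distrib, mul_ite, mul_zero, Finset.sum_ite_eq',
        Finset.mem_univ, if_true] at h1
      rw [← hs] at h1
      linarith
    have e3 : (S.card : ℤ) * (a + s) + 2 * s = 0 := by
      have h1 : ∑ u : S, (a + s + 2 * c (some u)) = 0 := sum_eq_zero fun u _ => e2 u
      rw [sum_add_distrib, ← mul_sum, ← hs, sum_const, card_univ, Fintype.card_coe,
        nsmul_eq_mul] at h1
      exact h1
    have e4 : a = 0 := by
      have h1 : s = -3 * a := by linarith
      rw [h1] at e3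
      have h2 : a * (-(2 * S.card + 6) : ℤ) = 0 := by linear_combination e3
      rcases mul_eq_zero.1 h2 with h | h
      · exact h
      · exfalso
        have : (0 : ℤ) ≤ S.card := by positivity
        linarith
    have e5 : s = 0 := by linarith
    rintro (_ | u)
    · exact e4
    · have h1 := e2 u
      rw [e4, e5] at h1
      linarith)
  rwa [Fintype.card_option, Fintype.card_coe] at h1

/-- The planes of a star are independent. -/
theorem rank_star (hH : H.IsCohomology) {A : Fin 23 → ℤ} (hA : H.IsPl A)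
    {E : Finset (Fin 23 → ℤ)} (hS : ∀ v ∈ E, H.IsPl v ∧ H.ip v A = -1)
    (hSS : ∀ v ∈ E, ∀ u ∈ E, v ≠ u → H.ip v u = 1) : E.card + 2 ≤ H.rank := by
  classical
  let f : Option (Option E) → Fin 23 → ℤ := fun o => o.elim H.h fun o => o.elim A fun v => v
  have hfn : f none = H.h := rfl
  have hfn' : f (some none) = A := rfl
  have hfs : ∀ v : E, f (some (some v)) = v := fun v => rfl
  have hAh : H.ip H.h A = 1 := (hH.comm _ _).trans hA.2.1
  have h1 := card_le_rank (H := H) (f := f) (by
    rintro (_ | _ | v)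
    · exact hH.h_hodge
    · exact hA.1
    · exact (hS v v.2).1.1) (by
    rw [Fintype.linearIndependent_iff]
    intro c hc
    simp only [Fintype.sum_option, hfn, hfn', hfs] at hc
    set a := c none
    set b := c (some none)
    set s : ℤ := ∑ v : E, c (some (some v)) with hs
    have hip : ∀ v u : E, H.ip (v : Fin 23 → ℤ) u = 1 + if v = u then 2 else 0 := by
      intro v u
      by_cases h : v = u
      · rw [h, if_pos rfl, (hS u u.2).1.2.2]; norm_num
      · rw [if_neg h, hSS v v.2 u u.2 (fun h' => h (Subtype.ext h')), add_zero]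
    have h2 : ∀ v : E, H.ip (v : Fin 23 → ℤ) H.h = 1 := fun v => (hS v v.2).1.2.1
    have h3 : ∀ v : E, H.ip (v : Fin 23 → ℤ) A = -1 := fun v => (hS v v.2).2
    have e1 : 3 * a + b + s = 0 := by
      have h1 := congrArg (fun v => H.ip v H.h) hc
      simp only [ip_add_left, ip_sum_left, ip_smul_left, hH.h_self, h2, ip_zero_left,
        mul_one, hA.2.1] at h1
      rw [← hs] at h1
      linarith
    have e1' : a + 3 * b - s = 0 := by
      have h1 := congrArg (fun v => H.ip v A) hc
      simp only [ip_add_left, ip_sum_left, ip_smul_left, hAh, h3, ip_zero_left,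
        mul_one, hA.2.2, ← sum_mul] at h1
      rw [← hs] at h1
      linarith
    have e2 : ∀ u : E, a - b + s + 2 * c (some (some u)) = 0 := by
      intro u
      have h1 := congrArg (fun v => H.ip v (u : Fin 23 → ℤ)) hc
      have h2 : H.ip H.h (u : Fin 23 → ℤ) = 1 := (hH.comm _ _).trans (hS u u.2).1.2.1
      have h3 : H.ip A (u : Fin 23 → ℤ) = -1 := (hH.comm _ _).trans (hS u u.2).2
      simp only [ip_add_left, ip_sum_left, ip_smul_left, h2, h3, hip, ip_zero_left,
        mul_one, mul_add, sum_add_distrib, mul_ite, mul_zero, Finset.sum_ite_eq',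
        Finset.mem_univ, if_true] at h1
      rw [← hs] at h1
      linarith
    have e3 : (E.card : ℤ) * (a - b + s) + 2 * s = 0 := by
      have h1 : ∑ u : E, (a - b + s + 2 * c (some (some u))) = 0 := sum_eq_zero fun u _ => e2 u
      rw [sum_add_distrib, ← mul_sum, ← hs, sum_const, card_univ, Fintype.card_coe,
        nsmul_eq_mul] at h1
      exact h1
    have e4 : b = -a := by linarith
    have e5 : s = -2 * a := by linarith
    have e6 : a = 0 := by
      rw [e4, e5] at e3
      linarith
    have e7 : b = 0 := by linarith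
    have e8 : s = 0 := by linarith
    rintro (_ | _ | u)
    · exact e6
    · exact e7
    · have h1 := e2 u
      rw [e6, e7, e8] at h1
      linarith)
  rwa [Fintype.card_option, Fintype.card_option, Fintype.card_coe] at h1

/-! ### A star and one more plane -/

/-- a plane which meets `A` in a point is independent modulo two of the planes which meet `A` in
lines, and `A`. -/
theorem not_rel (hH : H.IsCohomology) (hE : H.AllEven) {A y : Fin 23 → ℤ} (hA : H.IsPl A)
    (hy : H.IsPl y) (hyA : H.ip y A = 1) {T : Finset (Fin 23 → ℤ)}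
    (hT : ∀ v ∈ T, v = A ∨ v = y ∨ (H.IsPl v ∧ H.ip v A = -1)) (hyT : y ∈ T)
    (h0 : ∑ v ∈ T, red (H.h - v) = 0) : False := by
  classical
  rw [← map_sum] at h0
  obtain ⟨w, hw⟩ := exists_half h0
  have hPl : ∀ v ∈ T, H.IsPl v := by
    intro v hv
    rcases hT v hv with rfl | rfl | h
    · exact hA
    · exact hy
    · exact h.1
  have hwH : H.IsHodge w := by
    refine H.isHodge_of_smul two_ne_zero ?_
    rw [← hw]
    exact H.isHodge_sum _ _ fun i hi => H.isHodge_sub hH.h_hodge (hPl i hi).1
  have hAh : H.ip H.h A = 1 := (hH.comm _ _).trans hA.2.1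
  have e2 : ∀ v ∈ T, H.ip (H.h - v) (H.h - A) = 1 + H.ip v A := by
    intro v hv
    rw [ip_sub_left, ip_sub_right, ip_sub_right, hH.h_self, (hPl v hv).2.1, hAh]
    ring
  have h1 : H.ip (∑ v ∈ T, (H.h - v)) (H.h - A) = 2 * H.ip w (H.h - A) := by
    rw [hw, ip_smul_left]
  rw [ip_sum_left, sum_congr rfl e2, ← add_sum_erase T _ hyT, hyA] at h1
  have h2 : (4 : ℤ) ∣ ∑ v ∈ T.erase y, (1 + H.ip v A) := by
    refine Finset.dvd_sum fun v hv => ?_
    rcases hT v (mem_of_mem_erase hv) with rfl | rfl | h
    · rw [hA.2.2]; norm_num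
    · exact absurd rfl (ne_of_mem_erase hv)
    · rw [h.2]; norm_num
  obtain ⟨m, hm⟩ := h2
  obtain ⟨n, hn⟩ := hE A hA w hwH
  rw [hm, hn] at h1
  omega

/-- the general step -/
theorem star_key (hH : H.IsCohomology) (hE : H.AllEven) {A : Fin 23 → ℤ} (hA : H.IsPl A)
    {E : Finset (Fin 23 → ℤ)} (hS : ∀ v ∈ E, H.IsPl v ∧ H.ip v A = -1)
    (hSS : ∀ v ∈ E, ∀ u ∈ E, v ≠ u → H.ip v u = 1) {F : Finset (Fin 23 → ℤ)} (hF : F ⊆ E)
    (hstep : ∀ T ⊆ F, T.Nonempty → T.card % 4 = 1 → 5 ≤ T.card → ∃ Q ∈ E, Q ∉ T) :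
    ∀ T ⊆ insert A F, ∑ v ∈ T, red (H.h - v) = 0 → T = ∅ := by
  classical
  intro T hT h0
  by_cases hAT : A ∈ T
  · exfalso
    have hT1 : T.erase A ⊆ F := by
      intro v hv
      rcases mem_insert.1 (hT (mem_of_mem_erase hv)) with h | h
      · exact absurd h (ne_of_mem_erase hv)
      · exact h
    have h2 := relation_star hH hE hA (S := T.erase A) (fun v hv => hS v (hF (hT1 hv)))
      (fun v hv u hu h => hSS v (hF (hT1 hv)) u (hF (hT1 hu)) h) (by
        rw [← h0]
        exact sum_erase_add T _ hAT)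
    obtain ⟨Q, hQ, hQT⟩ := hstep _ hT1 (card_pos.1 (by omega)) h2.1 h2.2.1
    refine h2.2.2 Q (hS Q hQ).1 (hS Q hQ).2 fun v hv => hSS Q hQ v (hF (hT1 hv)) ?_
    rintro rfl
    exact hQT hv
  · by_contra hne
    have hne' : T.Nonempty := nonempty_iff_ne_empty.2 hne
    have hT1 : T ⊆ F := by
      intro v hv
      rcases mem_insert.1 (hT hv) with h | h
      · exact absurd (h ▸ hv) hAT
      · exact h
    have h2 := relation hH hE (D := T) (fun v hv => (hS v (hF (hT1 hv))).1)
      (fun v hv u hu h => hSS v (hF (hT1 hv)) u (hF (hT1 hu)) h) h0 hne'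
    obtain ⟨Q, hQ, hQT⟩ := hstep _ hT1 hne' h2.1 h2.2.1
    refine h2.2.2 Q (hS Q hQ).1 fun v hv => hSS Q hQ v (hF (hT1 hv)) ?_
    rintro rfl
    exact hQT hv

/-- **Planes which meet one plane in lines and each other in points**, and one more plane. -/
theorem star_point (hH : H.IsCohomology) (hE : H.AllEven) {A : Fin 23 → ℤ} (hA : H.IsPl A)
    {E : Finset (Fin 23 → ℤ)} (hS : ∀ v ∈ E, H.IsPl v ∧ H.ip v A = -1)
    (hSS : ∀ v ∈ E, ∀ u ∈ E, v ≠ u → H.ip v u = 1) (hne : E.Nonempty) {y : Fin 23 → ℤ}
    (hy : H.IsPl y) (hyA : H.ip y A = 1) :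
    E.card + 1 ≤ twoRank H ∧ (E.card % 4 ≠ 1 ∨ E.card < 5 → E.card + 2 ≤ twoRank H) := by
  classical
  have hAE : A ∉ E := by
    intro h
    have h1 := (hS A h).2
    rw [hA.2.2] at h1
    norm_num at h1
  have hyE : y ∉ E := by
    intro h
    have h1 := (hS y h).2
    rw [hyA] at h1
    norm_num at h1
  have hyA' : y ≠ A := by
    rintro rfl
    rw [hA.2.2] at hyA
    norm_num at hyA
  -- the general step
  have key : ∀ F ⊆ E, (∀ T ⊆ F, T.Nonempty → T.card % 4 = 1 → 5 ≤ T.card →
      ∃ Q ∈ E, Q ∉ T) → F.card + 2 ≤ twoRank H := by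
    intro F hF hstep
    have hAF : A ∉ F := fun h => hAE (hF h)
    have hyF : y ∉ insert A F := by
      rw [mem_insert, not_or]
      exact ⟨hyA', fun h => hyE (hF h)⟩
    have h1 : (insert y (insert A F)).card ≤ twoRank H := by
      refine card_le_of_sub (g := fun v => red (H.h - v)) ?_ ?_
      · intro v hv
        rcases mem_insert.1 hv with rfl | hv
        · exact red_mem hH hE hy
        · rcases mem_insert.1 hv with rfl | hv
          · exact red_mem hH hE hA
          · exact red_mem hH hE (hS v (hF hv)).1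
      · intro T hT h0
        by_cases hyT : y ∈ T
        · exfalso
          refine not_rel hH hE hA hy hyA (T := T) ?_ hyT h0
          intro v hv
          rcases mem_insert.1 (hT hv) with h | h
          · exact Or.inr (Or.inl h)
          · rcases mem_insert.1 h with h | h
            · exact Or.inl h
            · exact Or.inr (Or.inr (hS v (hF h)))
        · refine star_key hH hE hA hS hSS hF hstep T ?_ h0
          intro v hv
          rcases mem_insert.1 (hT hv) with h | h
          · exact absurd (h ▸ hv) hyT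
          · exact h
    rw [card_insert_of_notMem hyF, card_insert_of_notMem hAF] at h1
    omega
  constructor
  · obtain ⟨e, he⟩ := hne
    have h1 := key (E.erase e) (erase_subset _ _) (fun T hT _ _ _ =>
      ⟨e, he, fun h => notMem_erase _ _ (hT h)⟩)
    rw [card_erase_of_mem he] at h1
    have := card_pos.2 ⟨e, he⟩
    omega
  · intro h4
    refine key E subset_rfl fun T hT _ h1 h2 => ?_
    have h3 : T ≠ E := by
      rintro rfl
      omega
    exact exists_of_ssubset (Finset.ssubset_iff_subset_ne.2 ⟨hT, h3⟩)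

end Pool.Agent.V11211.CF
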