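import Pool.Agent.V11211.CF3

set_option autoImplicit false

namespace Pool.Agent.V11211.CF

open Pool.Agent.Y95.Q Pool.Agent.Y95.Q.H4 Finset Module

variable {X : CubicFourfold} {H : H4 X}

/-- the star given by a class -/
theorem exists_star (hH : H.IsCohomology) (hE : H.AllEven) {S : Finset (Fin 23 → ℤ)}
    (hS : ∀ v, v ∈ S ↔ H.IsPl v) {A B C : Fin 23 → ℤ} (ht : H.Tri A B C) (k : ℕ)
    (hk : 2 * k ≤ (H.cls S A B C).card) : ∃ E : Finset (Fin 23 → ℤ), E.card = k + 1 ∧
      (∀ v ∈ E, H.IsPl v ∧ H.ip v A = -1) ∧ ∀ v ∈ E, ∀ u ∈ E, v ≠ u → H.ip v u = 1 := by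
  classical
  obtain ⟨D, h1, h2⟩ := exists_indep_cls hH hE (fun x => mem_cls hS) ht k hk
  have hinj : Function.Injective D := by
    intro i j hij
    by_contra hne
    have h3 := h2 i j hne
    rw [hij, (h1 j).1.2.2] at h3
    norm_num at h3
  have hB : B ∉ univ.image D := by
    intro h
    obtain ⟨i, -, hi⟩ := mem_image.1 h
    exact (h1 i).2.1 hi
  have hDB : ∀ i, H.ip (D i) B = 1 := fun i => (InCls.other hH hE ht (h1 i)).1
  refine ⟨insert B (univ.image D), ?_, ?_, ?_⟩
  · rw [card_insert_of_notMem hB, card_image_of_injective _ hinj, card_univ, Fintype.card_fin]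
  · intro v hv
    rcases mem_insert.1 hv with rfl | hv
    · exact ⟨ht.b, (hH.comm _ _).trans ht.ab⟩
    · obtain ⟨i, -, rfl⟩ := mem_image.1 hv
      exact ⟨(h1 i).1, (h1 i).2.2.2⟩
  · intro v hv u hu hne
    rcases mem_insert.1 hv with rfl | hv
    · rcases mem_insert.1 hu with rfl | hu
      · exact absurd rfl hne
      · obtain ⟨i, -, rfl⟩ := mem_image.1 hu
        rw [hH.comm]
        exact hDB i
    · obtain ⟨i, -, rfl⟩ := mem_image.1 hv
      rcases mem_insert.1 hu with rfl | hu
      · exact hDB i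
      · obtain ⟨j, -, rfl⟩ := mem_image.1 hu
        exact h2 i j fun h => hne (by rw [h])

open Classical in
/-- half of the planes of a class meet a plane of another class in lines -/
theorem card_half (hH : H.IsCohomology) (hE : H.AllEven) {S : Finset (Fin 23 → ℤ)}
    (hS : ∀ v, v ∈ S ↔ H.IsPl v) {A B C x : Fin 23 → ℤ} (ht : H.Tri A B C)
    (hx : H.InCls A B C x) : (H.cls S B C A).card =
      2 * ((H.cls S B C A).filter fun y => H.ip x y = -1).card := by
  rw [← card_filter_add_card_filter_not (s := H.cls S B C A) (fun y => H.ip x y = -1), two_mul]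
  congr 1
  have hxB := (InCls.other hH hE ht hx).1
  have hflip : ∀ y, H.ip x (H.h - B - y) = -H.ip x y := by
    intro y
    rw [ip_third hx.1, hxB]
    ring
  refine (card_bij (fun y _ => H.h - B - y) ?_ ?_ ?_).symm
  · intro y hy
    rw [mem_filter, mem_cls hS] at hy ⊢
    refine ⟨hy.1.res hH (ht.rot hH), ?_⟩
    rw [hflip, hy.2]
    norm_num
  · intro y _ y' _ h
    have h' : y = y' := by linear_combination -h
    exact h'
  · intro y hy
    rw [mem_filter, mem_cls hS] at hy
    have h1 : H.ip x y = 1 ∨ H.ip x y = -1 := by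
      refine hH.pm hE hx.1 hy.1.1 ?_
      rintro rfl
      have h2 := hy.1.2.2.2
      rw [hxB] at h2
      norm_num at h2
    refine ⟨H.h - B - y, ?_, by abel⟩
    rw [mem_filter, mem_cls hS]
    refine ⟨hy.1.res hH (ht.rot hH), ?_⟩
    rw [hflip]
    rcases h1 with h1 | h1
    · rw [h1]
    · exact absurd h1 hy.2

open Classical in
/-- an even number of planes of a class meet two planes of another class in lines -/
theorem even_common (hH : H.IsCohomology) (hE : H.AllEven) {S : Finset (Fin 23 → ℤ)}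
    (hS : ∀ v, v ∈ S ↔ H.IsPl v) {A B C x x' : Fin 23 → ℤ} (ht : H.Tri A B C)
    (hx : H.InCls A B C x) (hx' : H.InCls A B C x') (hxx : H.ip x x' = 1) :
    Even ((H.cls S B C A).filter fun y => H.ip x y = -1 ∧ H.ip x' y = -1).card := by
  obtain ⟨x1, x2⟩ := InCls.other hH hE ht hx
  obtain ⟨x1', x2'⟩ := InCls.other hH hE ht hx'
  have hxA := hx.2.2.2
  have hxA' := hx'.2.2.2
  have cA : H.ip H.h A = 1 := (hH.comm _ _).trans ht.a.2.1
  have cB : H.ip H.h B = 1 := (hH.comm _ _).trans ht.b.2.1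
  have cC : H.ip H.h C = 1 := (hH.comm _ _).trans ht.c.2.1
  have cx : H.ip H.h x = 1 := (hH.comm _ _).trans hx.1.2.1
  have cx' : H.ip H.h x' = 1 := (hH.comm _ _).trans hx'.1.2.1
  have dCA : H.ip C A = -1 := (hH.comm _ _).trans ht.ac
  have dCB : H.ip C B = -1 := (hH.comm _ _).trans ht.bc
  have dCx : H.ip C x = 1 := (hH.comm _ _).trans x2
  have dCx' : H.ip C x' = 1 := (hH.comm _ _).trans x2'
  have dxx : H.ip x' x = 1 := (hH.comm _ _).trans hxx
  -- the intersection numbers of the image
  have key : ∀ y, H.InCls B C A y → H.ip x y = -1 → H.ip x' y = -1 →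
      (H.InCls B C A (H.h + C - x - x' - y) ∧ H.ip x (H.h + C - x - x' - y) = -1 ∧
        H.ip x' (H.h + C - x - x' - y) = -1) ∧ H.h + C - x - x' - y ≠ y := by
    intro y hy h1 h2
    obtain ⟨y1, y2⟩ := InCls.other hH hE (ht.rot hH) hy
    have hyB := hy.2.2.2
    have cy : H.ip H.h y = 1 := (hH.comm _ _).trans hy.1.2.1
    have dCy : H.ip C y = 1 := (hH.comm _ _).trans y1
    have dyx : H.ip y x = -1 := (hH.comm _ _).trans h1
    have dyx' : H.ip y x' = -1 := (hH.comm _ _).trans h2
    have e0 : H.ip (H.h + C - x - x' - y) H.h = 1 := by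
      simp only [ip_sub_left, ip_add_left, hH.h_self, ht.c.2.1, hx.1.2.1, hx'.1.2.1, hy.1.2.1]
      norm_num
    have e1 : H.ip (H.h + C - x - x' - y) (H.h + C - x - x' - y) = 3 := by
      simp only [ip_sub_left, ip_add_left, ip_sub_right, ip_add_right, hH.h_self, ht.c.2.1,
        hx.1.2.1, hx'.1.2.1, hy.1.2.1, cC, cx, cx', cy, ht.c.2.2, hx.1.2.2, hx'.1.2.2, hy.1.2.2,
        dCx, dCx', dCy, x2, x2', y1, hxx, dxx, h1, h2, dyx, dyx']
      norm_num
    have eA : H.ip (H.h + C - x - x' - y) A = 1 := by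
      simp only [ip_sub_left, ip_add_left, cA, dCA, hxA, hxA', y2]
      norm_num
    have eB : H.ip (H.h + C - x - x' - y) B = -1 := by
      simp only [ip_sub_left, ip_add_left, cB, dCB, x1, x1', hyB]
      norm_num
    have eC : H.ip (H.h + C - x - x' - y) C = 1 := by
      simp only [ip_sub_left, ip_add_left, cC, ht.c.2.2, x2, x2', y1]
      norm_num
    have ex : H.ip x (H.h + C - x - x' - y) = -1 := by
      simp only [ip_sub_right, ip_add_right, hx.1.2.1, x2, hx.1.2.2, hxx, h1]
      norm_num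
    have ex' : H.ip x' (H.h + C - x - x' - y) = -1 := by
      simp only [ip_sub_right, ip_add_right, hx'.1.2.1, x2', hx'.1.2.2, dxx, h2]
      norm_num
    have ey : H.ip y (H.h + C - x - x' - y) = 1 := by
      simp only [ip_sub_right, ip_add_right, hy.1.2.1, y1, hy.1.2.2, dyx, dyx']
      norm_num
    refine ⟨⟨⟨⟨?_, e0, e1⟩, ?_, ?_, eB⟩, ex, ex'⟩, ?_⟩
    · exact H.isHodge_sub (H.isHodge_sub (H.isHodge_sub (H.isHodge_add hH.h_hodge ht.c.1)
        hx.1.1) hx'.1.1) hy.1.1
    · intro h
      rw [h, ht.c.2.2] at eC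
      norm_num at eC
    · intro h
      rw [h, ht.a.2.2] at eA
      norm_num at eA
    · intro h
      rw [h, hy.1.2.2] at ey
      norm_num at ey
  refine even_card_of_involution _ (fun y => H.h + C - x - x' - y) ?_ ?_ ?_
  · intro y hy
    rw [mem_filter, mem_cls hS] at hy ⊢
    exact (key y hy.1 hy.2.1 hy.2.2).1
  · intro y _
    abel
  · intro y hy
    rw [mem_filter, mem_cls hS] at hy
    exact (key y hy.1 hy.2.1 hy.2.2).2

/-- **There is no generalised quadrangle of order `(2, 3)`.** -/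
theorem four_dvd (hH : H.IsCohomology) (hE : H.AllEven) {S : Finset (Fin 23 → ℤ)}
    (hS : ∀ v, v ∈ S ↔ H.IsPl v) {A B C : Fin 23 → ℤ} (ht : H.Tri A B C)
    (h4 : 4 ≤ (H.cls S A B C).card) : 4 ∣ (H.cls S B C A).card := by
  classical
  obtain ⟨D, h1, h2⟩ := exists_indep_cls hH hE (fun x => mem_cls hS) ht 2 h4
  have hx := h1 0
  have hx' := h1 1
  have hxx : H.ip (D 0) (D 1) = 1 := h2 0 1 (by decide)
  have hr := hx'.res hH ht
  have hxr : H.ip (D 0) (H.h - A - D 1) = 1 := by
    rw [ip_third hx.1, hx.2.2.2, hxx]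
    norm_num
  have hc := card_half hH hE hS ht hx
  have e1 := even_common hH hE hS ht hx hx' hxx
  have e2 := even_common hH hE hS ht hx hr hxr
  have hsplit : ((H.cls S B C A).filter fun y => H.ip (D 0) y = -1).card =
      ((H.cls S B C A).filter fun y => H.ip (D 0) y = -1 ∧ H.ip (D 1) y = -1).card +
      ((H.cls S B C A).filter fun y => H.ip (D 0) y = -1 ∧
        H.ip (H.h - A - D 1) y = -1).card := by
    rw [← card_filter_add_card_filter_not
      (s := (H.cls S B C A).filter fun y => H.ip (D 0) y = -1) (fun y => H.ip (D 1) y = -1),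
      filter_filter, filter_filter]
    congr 2
    ext y
    rw [mem_filter, mem_filter, mem_cls hS]
    refine and_congr_right fun hy => and_congr_right fun _ => ?_
    have hyA := (InCls.other hH hE (ht.rot hH) hy).2
    have h3 : H.ip (H.h - A - D 1) y = -H.ip (D 1) y := by
      rw [hH.comm, ip_third hy.1, hyA, hH.comm y (D 1)]
      ring
    have h4 : H.ip (D 1) y = 1 ∨ H.ip (D 1) y = -1 := by
      refine hH.pm hE hx'.1 hy.1 ?_
      intro h
      have h5 := hx'.2.2.2
      rw [h, hyA] at h5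
      norm_num at h5
    rw [h3]
    omega
  obtain ⟨m, hm⟩ := e1
  obtain ⟨n, hn⟩ := e2
  rw [hsplit, hm, hn] at hc
  exact ⟨m + n, by omega⟩

/-- **The planes in a cubic fourfold all of whose Hodge classes are even.** -/
theorem classification (hH : H.IsCohomology) (hE : H.AllEven) {S : Finset (Fin 23 → ℤ)}
    (hS : ∀ v, v ∈ S ↔ H.IsPl v) (hne : S.Nonempty) :
    (S.card < H.rank ∧ S.card ≤ twoRank H + 1 ∧
      (S.card = twoRank H + 1 → S.card % 4 = 1 ∧ 5 ≤ S.card)) ∨
    (∃ K, S.card = 2 * K + 1 ∧ 1 ≤ K ∧ K + 2 ≤ H.rank ∧ K ≤ twoRank H ∧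
      (K = twoRank H → K % 4 = 1 ∧ 5 ≤ K)) ∨
    (S.card = 9 ∧ 4 ≤ twoRank H) ∨ (S.card = 15 ∧ 5 ≤ twoRank H) ∨
    (S.card = 27 ∧ 6 ≤ twoRank H) := by
  classical
  have hS' : ∀ v ∈ S, H.IsPl v := fun v hv => (hS v).1 hv
  have hpow := card_lt_pow_twoRank hH hE hS'
  by_cases hedge : ∃ P ∈ S, ∃ Q ∈ S, H.ip P Q = -1
  · right
    obtain ⟨P, hP, Q, hQ, hPQ⟩ := hedge
    rw [hS] at hP hQ
    -- one class
    have one : ∀ {A B C : Fin 23 → ℤ}, H.Tri A B C → (H.cls S B C A).card = 0 →
        (H.cls S C A B).card = 0 → ∃ K, S.card = 2 * K + 1 ∧ 1 ≤ K ∧ K + 2 ≤ H.rank ∧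
          K ≤ twoRank H ∧ (K = twoRank H → K % 4 = 1 ∧ 5 ≤ K) := by
      intro A B C ht hb hc
      have hd := card_decomp hH hE hS ht
      obtain ⟨a, ha⟩ := cls_even hH (fun x => mem_cls hS) ht
      obtain ⟨E, hE1, hE2, hE3⟩ := exists_star hH hE hS ht a (by omega)
      have hEne : E.Nonempty := card_pos.1 (by omega)
      have h1 := star hH hE ht.a hE2 hE3 hEne
      have h2 := rank_star hH ht.a hE2 hE3
      rw [hE1] at h1 h2
      refine ⟨a + 1, by omega, by omega, h2, h1.1, fun h => ?_⟩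
      by_contra hcon
      have h3 := h1.2 (by omega)
      omega
    -- three classes
    have three : ∀ {A B C : Fin 23 → ℤ}, H.Tri A B C → (H.cls S A B C).card ≠ 0 →
        (H.cls S B C A).card ≠ 0 → (H.cls S C A B).card ≠ 0 →
        (S.card = 9 ∧ 4 ≤ twoRank H) ∨ (S.card = 15 ∧ 5 ≤ twoRank H) ∨
          (S.card = 27 ∧ 6 ≤ twoRank H) := by
      intro A B C ht ha0 hb0 hc0
      have hd := card_decomp hH hE hS ht
      have hne : ∀ {A B C : Fin 23 → ℤ}, (H.cls S A B C).card ≠ 0 → ∃ x, H.InCls A B C x := by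
        intro A B C h
        obtain ⟨x, hx⟩ := card_pos.1 (Nat.pos_of_ne_zero h)
        exact ⟨x, (mem_cls hS).1 hx⟩
      obtain ⟨x, hx⟩ := hne ha0
      obtain ⟨y, hy⟩ := hne hb0
      have k1 := cls_card_eq hH hE hS ht hx
      have k2 := cls_card_eq hH hE hS (ht.rot hH) hy
      obtain ⟨a, ha⟩ := cls_even hH (fun x => mem_cls hS) ht
      have g1 := fun h => cls_ten hH hE hS ht h
      have g2 := fun h => four_dvd hH hE hS ht h
      obtain ⟨E, hE1, hE2, hE3⟩ := exists_star hH hE hS ht a (by omega)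
      have hEne : E.Nonempty := card_pos.1 (by omega)
      have hyA := (InCls.other hH hE (ht.rot hH) hy).2
      have h1 := star_point hH hE ht.a hE2 hE3 hEne hy.1 hyA
      rw [hE1] at h1
      have ha5 : a < 5 := by
        by_contra hcon
        exact hb0 (g1 (by omega))
      have ha3 : a ≠ 3 := by
        rintro rfl
        have h5 := g2 (by omega)
        have h6 : (H.cls S B C A).card = 6 := by omega
        rw [h6] at h5
        omega
      have ha1 : 1 ≤ a := by omega
      have hbc : (H.cls S B C A).card = 2 * a ∧ (H.cls S C A B).card = 2 * a := by omega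
      rw [ha, hbc.1, hbc.2] at hd
      interval_cases a
      · left
        exact ⟨hd, h1.2 (by norm_num)⟩
      · right; left
        exact ⟨hd, h1.2 (by norm_num)⟩
      · exact absurd rfl ha3
      · right; right
        exact ⟨hd, h1.1⟩
    have ht := hH.tri hP hQ hPQ
    generalize H.h - P - Q = R at ht
    have t2 := ht.rot hH
    have t3 := t2.rot hH
    have hne : ∀ {A B C : Fin 23 → ℤ}, (H.cls S A B C).card ≠ 0 → ∃ x, H.InCls A B C x := by
      intro A B C h
      obtain ⟨x, hx⟩ := card_pos.1 (Nat.pos_of_ne_zero h)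
      exact ⟨x, (mem_cls hS).1 hx⟩
    have k1 : (H.cls S P Q R).card ≠ 0 → (H.cls S Q R P).card = (H.cls S R P Q).card := by
      intro h
      obtain ⟨x, hx⟩ := hne h
      exact cls_card_eq hH hE hS ht hx
    have k2 : (H.cls S Q R P).card ≠ 0 → (H.cls S R P Q).card = (H.cls S P Q R).card := by
      intro h
      obtain ⟨x, hx⟩ := hne h
      exact cls_card_eq hH hE hS t2 hx
    have k3 : (H.cls S R P Q).card ≠ 0 → (H.cls S P Q R).card = (H.cls S Q R P).card := by
      intro h
      obtain ⟨x, hx⟩ := hne h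
      exact cls_card_eq hH hE hS t3 hx
    by_cases hb : (H.cls S Q R P).card = 0
    · by_cases hc : (H.cls S R P Q).card = 0
      · exact Or.inl (one ht hb hc)
      · exact Or.inl (one t3 (by omega) hb)
    · by_cases hc : (H.cls S R P Q).card = 0
      · exact Or.inl (one t2 hc (by omega))
      · by_cases ha : (H.cls S P Q R).card = 0
        · exfalso
          have := k2 hb
          omega
        · exact Or.inr (three ht ha hb hc)
  · left
    push Not at hedge
    have hSS : ∀ v ∈ S, ∀ u ∈ S, v ≠ u → H.ip v u = 1 := by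
      intro x hx y hy hne
      rcases hH.pm hE (hS' x hx) (hS' y hy) hne with h | h
      · exact h
      · exact absurd h (hedge x hx y hy)
    have h1 := rank_points hH hS' hSS
    have h2 := no_edges hH hE hS' hSS
    refine ⟨by omega, h2.2, fun h => ?_⟩
    have h3 : S.card % 4 = 1 := by
      by_contra hcon
      have := h2.1 hcon
      omega
    refine ⟨h3, ?_⟩
    by_contra hcon
    have h4 : S.card = 1 := by omega
    have h5 : twoRank H = 0 := by omega
    rw [h4, h5] at hpow
    norm_num at hpow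

end Pool.Agent.V11211.CF
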