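import Pool.Agent.V11211.CF4

set_option autoImplicit false

namespace Pool.Agent.V11211.CF

open Pool.Agent.Y95.Q Pool.Agent.Y95.Q.H4 Finset Module

/-- The exceptional triples: `N` planes, rank `ρ`, two-rank `ℓ`. -/
def Exceptional (N ρ ℓ : ℕ) : Prop :=
  (N < ρ ∧ N ≤ ℓ + 1 ∧ (N = ℓ + 1 → N % 4 = 1 ∧ 5 ≤ N)) ∨
  (∃ K, N = 2 * K + 1 ∧ 1 ≤ K ∧ K + 2 ≤ ρ ∧ K ≤ ℓ ∧ (K = ℓ → K % 4 = 1 ∧ 5 ≤ K)) ∨
  (N = 9 ∧ 4 ≤ ℓ) ∨ (N = 15 ∧ 5 ≤ ℓ) ∨ (N = 27 ∧ 6 ≤ ℓ)

variable {X : CubicFourfold} {H : H4 X}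

/-- outside of the exceptional triples there is an odd class -/
theorem not_allEven (hH : H.IsCohomology) (h0 : Nat.card X.Plane ≠ 0)
    (h : ¬ Exceptional (Nat.card X.Plane) H.rank (twoRank H)) : ¬ H.AllEven := by
  intro hE
  obtain ⟨S, hS, hcard⟩ := hH.exists_finset h0
  have hne : S.Nonempty := Finset.card_pos.1 (by omega)
  have h1 := classification hH hE hS hne
  rw [hcard] at h1
  exact h h1

/-- The condition of Addington for `H`: there is a Hodge class `v` such that `h` and `v` span a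
saturated group with a discriminant `d > 6` such that `a ^ 2 d = 2 n ^ 2 + 2 n + 2` for
some integers `a ≠ 0` and `n`. -/
def HasHilbertSquare (H : H4 X) : Prop :=
  ∃ v, H.IsHodge v ∧ H.Saturated v ∧ 6 < H.disc v ∧
    ∃ a n : ℤ, a ≠ 0 ∧ a ^ 2 * H.disc v = 2 * n ^ 2 + 2 * n + 2

/-- a plane and an odd class -/
theorem hilbertSquare (hH : H.IsCohomology) {P T : Fin 23 → ℤ} (hP : H.IsPl P)
    (hT : H.IsHodge T) (hodd : Odd (H.ip T (H.h - P))) : HasHilbertSquare H := by
  set b : ℤ := 3 * H.ip P T - H.ip H.h T with hb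
  have hbo : Odd b := by
    rw [ip_sub_right, hH.comm T H.h, hH.comm T P] at hodd
    have h1 : b = (H.ip H.h T - H.ip P T) + 2 * (2 * H.ip P T - H.ip H.h T) := by
      rw [hb]
      ring
    rw [h1]
    exact hodd.add_even (even_two_mul _)
  obtain ⟨i, hi⟩ := hbo
  set j : ℤ := i ^ 2 + i with hj
  have hbj : b * b = 4 * j + 1 := by
    rw [hi, hj]
    ring
  obtain ⟨c, hc⟩ : Even (H.disc (b • T)) := by
    have h1 := hH.char (b • T)
    have h2 : H.ip (b • T) H.h = H.ip H.h (b • T) := hH.comm _ _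
    rw [h2] at h1
    have h3 : H.disc (b • T) = 2 * H.ip (b • T) (b • T) +
        (H.ip (b • T) (b • T) - H.ip H.h (b • T)) +
        (H.ip H.h (b • T) - H.ip H.h (b • T) ^ 2) := by
      simp only [disc]; ring
    rw [h3]
    refine Even.add (Even.add (even_two_mul _) h1) ?_
    have h4 : H.ip H.h (b • T) - H.ip H.h (b • T) ^ 2 =
        -(H.ip H.h (b • T) * (H.ip H.h (b • T) - 1)) := by ring
    rw [h4]
    exact (Int.even_mul_pred_self _).neg
  set x : ℤ := c - 1 - j - j ^ 2 with hx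
  set n : ℤ := 2 * x + j with hn
  have hv : H.disc (x • P + b • T) = 2 * n ^ 2 + 2 * n + 2 := by
    have h1 : H.disc (x • P + b • T) = 8 * x ^ 2 + 2 * x * (b * b) + H.disc (b • T) := by
      have hhP : H.ip H.h P = 1 := (hH.comm _ _).trans hP.2.1
      simp only [disc, ip_add_left, ip_add_right, ip_smul_left, ip_smul_right, hP.2.2, hhP,
        hH.comm T P, hb]
      ring
    rw [h1, hbj, hc, hn, hx]
    ring
  have hpos : 0 < H.disc (x • P + b • T) := by
    rw [hv]
    nlinarith [sq_nonneg (2 * n + 1)]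
  have hvH : H.IsHodge (x • P + b • T) :=
    H.isHodge_add (H.isHodge_smul _ hP.1) (H.isHodge_smul _ hT)
  obtain ⟨w, m, l, hm, hsat, hw⟩ := hH.exists_saturated _ hpos
  have hwH : H.IsHodge w := by
    refine H.isHodge_of_smul hm.ne' ?_
    have h1 : m • w = x • P + b • T - l • H.h := by
      rw [hw]
      abel
    rw [h1]
    exact H.isHodge_sub hvH (H.isHodge_smul _ hH.h_hodge)
  have hmw : m ^ 2 * H.disc w = 2 * n ^ 2 + 2 * n + 2 := by
    rw [← hv, hw, hH.disc_comb]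
  have hw0 : 0 < H.disc w := by
    by_contra hcon
    push Not at hcon
    have : m ^ 2 * H.disc w ≤ 0 := mul_nonpos_of_nonneg_of_nonpos (by positivity) hcon
    rw [hmw, ← hv] at this
    linarith
  exact ⟨w, hwH, hsat, hH.six_lt hwH hw0, m, n, hm.ne', hmw⟩

/-- from an odd class to the conclusion -/
theorem hilbertSquare_of_not_allEven (hH : H.IsCohomology) (h : ¬ H.AllEven) :
    X.IsRational ∧ HasHilbertSquare H := by
  refine ⟨(hH.of_not_allEven h).1, ?_⟩
  unfold AllEven at h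
  push Not at h
  obtain ⟨P, hP, T, hT, hodd⟩ := h
  rw [Int.not_even_iff_odd] at hodd
  exact hilbertSquare hH hP hT hodd

end Pool.Agent.V11211.CF
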