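import Pool.Agent.V11211.CF5

set_option autoImplicit false

/-!
# The conditions of Hassett and of Addington for cubic fourfolds in `𝒞_8` and `𝒞_18`
-/

namespace Pool.Agent.V11211.CF

open Pool.Agent.Y95.Q Pool.Agent.Y95.Q.H4 Finset Module

section arith

theorem lemA (b m : ℤ) (hm : m % 2 = 1) : ∃ x n : ℤ, 4 * x ^ 2 + 2 * b * x + m = n ^ 2 + n + 1 := by
  obtain ⟨t, ht⟩ : ∃ t, m = 2 * t + 1 := ⟨m / 2, by omega⟩
  rcases Int.even_or_odd b with ⟨β, hβ⟩ | ⟨i, hi⟩
  · obtain ⟨s, hs⟩ := Int.even_mul_succ_self β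
    refine ⟨t - s, 2 * (t - s) + β, ?_⟩
    rw [hβ, ht]
    linear_combination -hs
  · obtain ⟨s, hs⟩ := Int.even_mul_pred_self i
    rcases Int.even_or_odd (s - t) with ⟨r, hr⟩ | ⟨r, hr⟩
    · refine ⟨r, 2 * r + i - 1, ?_⟩
      rw [hi, ht]
      linear_combination -hs - 2 * hr
    · refine ⟨-(r + i + 1), 2 * (-(r + i + 1)) + i + 1, ?_⟩
      rw [hi, ht]
      linear_combination -hs - 2 * hr

theorem dvd_of_mod {c m : ℤ} (hc : c % 3 ≠ 1) (hm : m % 3 = 1) : 3 ∣ c ^ 2 + c + 1 - m := by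
  obtain ⟨t, ht⟩ : ∃ t, m = 3 * t + 1 := ⟨m / 3, by omega⟩
  obtain ⟨s, hs⟩ : ∃ s, c = 3 * s ∨ c = 3 * s + 2 := ⟨c / 3, by omega⟩
  rcases hs with rfl | rfl
  · exact ⟨3 * s ^ 2 + s - t, by rw [ht]; ring⟩
  · exact ⟨3 * s ^ 2 + 5 * s + 2 - t, by rw [ht]; ring⟩

theorem dvd_of_mod9 {c m : ℤ} (hc : c % 3 = 1) (hm : m % 9 = 3) : 9 ∣ c ^ 2 + c + 1 - m := by
  obtain ⟨t, ht⟩ : ∃ t, m = 9 * t + 3 := ⟨m / 9, by omega⟩
  obtain ⟨s, rfl⟩ : ∃ s, c = 3 * s + 1 := ⟨c / 3, by omega⟩
  exact ⟨s ^ 2 + s - t, by rw [ht]; ring⟩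

theorem dvd_two {c m : ℤ} (hm : m % 2 = 1) : 2 ∣ c ^ 2 + c + 1 - m := by
  obtain ⟨t, ht⟩ : ∃ t, m = 2 * t + 1 := ⟨m / 2, by omega⟩
  obtain ⟨s, hs⟩ := Int.even_mul_succ_self c
  exact ⟨s - t, by rw [ht]; linear_combination hs⟩

theorem lemB (β m : ℤ) (hm : m % 2 = 1) (h3 : m % 3 = 1 ∨ m % 9 = 3) :
    ∃ x n : ℤ, 9 * x ^ 2 + 3 * β * x + m = n ^ 2 + n + 1 := by
  have step : ∀ c g : ℤ, β - 2 * c - 1 = g → 3 * g ∣ c ^ 2 + c + 1 - m →
      ∃ x n : ℤ, 9 * x ^ 2 + 3 * β * x + m = n ^ 2 + n + 1 := by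
    rintro c g hg ⟨x, hx⟩
    refine ⟨x, 3 * x + c, ?_⟩
    rw [← hg] at hx
    linear_combination -hx
  rcases Int.even_or_odd' β with ⟨i, hi | hi⟩
  · rcases h3 with h | h
    · -- `m ≡ 1`
      by_cases h1 : i % 3 = 1
      · refine step (i - 1) 1 (by omega) ?_
        exact dvd_of_mod (by omega) h
      · refine step i (-1) (by omega) ?_
        have := dvd_of_mod (c := i) h1 h
        rw [show (3 : ℤ) * -1 = -3 by norm_num]
        exact (Int.neg_dvd).2 this
    · have h0 : i % 3 = 0 ∨ i % 3 = 1 ∨ i % 3 = 2 := by omega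
      rcases h0 with h0 | h0 | h0
      · refine step (i - 2) 3 (by omega) ?_
        exact dvd_of_mod9 (by omega) h
      · refine step i (-1) (by omega) ?_
        have := dvd_of_mod9 (c := i) h0 h
        rw [show (3 : ℤ) * -1 = -3 by norm_num]
        refine (Int.neg_dvd).2 ?_
        generalize i ^ 2 + i + 1 - m = z at this
        omega
      · refine step (i - 1) 1 (by omega) ?_
        have := dvd_of_mod9 (c := i - 1) (by omega) h
        generalize (i - 1) ^ 2 + (i - 1) + 1 - m = z at this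
        omega
  · rcases h3 with h | h
    · by_cases h1 : i % 3 = 2
      · refine step (i + 1) (-2) (by omega) ?_
        have a1 := dvd_of_mod (c := i + 1) (by omega) h
        have a2 := dvd_two (c := i + 1) hm
        rw [show (3 : ℤ) * -2 = -6 by norm_num]
        refine (Int.neg_dvd).2 ?_
        generalize (i + 1) ^ 2 + (i + 1) + 1 - m = z at a1 a2
        omega
      · refine step (i - 1) 2 (by omega) ?_
        have a1 := dvd_of_mod (c := i - 1) (by omega) h
        have a2 := dvd_two (c := i - 1) hm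
        generalize (i - 1) ^ 2 + (i - 1) + 1 - m = z at a1 a2
        omega
    · have h0 : i % 3 = 0 ∨ i % 3 = 1 ∨ i % 3 = 2 := by omega
      rcases h0 with h0 | h0 | h0
      · refine step (i + 1) (-2) (by omega) ?_
        have a1 := dvd_of_mod9 (c := i + 1) (by omega) h
        have a2 := dvd_two (c := i + 1) hm
        rw [show (3 : ℤ) * -2 = -6 by norm_num]
        refine (Int.neg_dvd).2 ?_
        generalize (i + 1) ^ 2 + (i + 1) + 1 - m = z at a1 a2
        omega
      · refine step (i - 3) 6 (by omega) ?_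
        have a1 := dvd_of_mod9 (c := i - 3) (by omega) h
        have a2 := dvd_two (c := i - 3) hm
        generalize (i - 3) ^ 2 + (i - 3) + 1 - m = z at a1 a2
        omega
      · refine step (i - 1) 2 (by omega) ?_
        have a1 := dvd_of_mod9 (c := i - 1) (by omega) h
        have a2 := dvd_two (c := i - 1) hm
        generalize (i - 1) ^ 2 + (i - 1) + 1 - m = z at a1 a2
        omega

theorem lemC (N : ℕ) (hN : 0 < N) (h : ∀ p : ℕ, p.Prime → p ∣ N → p % 3 = 1) : N % 3 = 1 := by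
  induction N using Nat.strong_induction_on with
  | _ N ih =>
    by_cases h1 : N = 1
    · rw [h1]
    · obtain ⟨M, hM⟩ := Nat.minFac_dvd N
      have hp := Nat.minFac_prime h1
      have hM0 : 0 < M := by
        rcases Nat.eq_zero_or_pos M with h0 | h0
        · rw [h0, mul_zero] at hM
          omega
        · exact h0
      have hlt : M < N := by
        have := hp.two_le
        calc M < N.minFac * M := by nlinarith
          _ = N := hM.symm
      have h2 := ih M hlt hM0 fun p hp' hpM => h p hp' (hM ▸ hpM.mul_left _)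
      have h3 := h _ hp (Nat.minFac_dvd N)
      rw [hM, Nat.mul_mod, h3, h2]

theorem lemD {m : ℤ} (hm0 : 0 < m) (hm : m % 2 = 1) (h9 : ¬ 9 ∣ m)
    (h : ∀ p : ℕ, p.Prime → p ≠ 2 → (p : ℤ) ∣ m → p % 3 ≠ 2) : m % 3 = 1 ∨ m % 9 = 3 := by
  obtain ⟨N, rfl⟩ : ∃ N : ℕ, m = N := ⟨m.toNat, by omega⟩
  have h2 : ¬ 2 ∣ N := by omega
  have key : ∀ M : ℕ, 0 < M → M ∣ N → ¬ 3 ∣ M → M % 3 = 1 := by
    intro M hM hMN h3
    refine lemC M hM fun p hp hpM => ?_
    have h4 : p ≠ 2 := by
      rintro rfl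
      exact h2 (hpM.trans hMN)
    have h5 := h p hp h4 (by exact_mod_cast hpM.trans hMN)
    have h6 : p % 3 ≠ 0 := by
      intro h0
      have h7 : p = 3 := ((Nat.prime_dvd_prime_iff_eq Nat.prime_three hp).1
        (Nat.dvd_of_mod_eq_zero h0)).symm
      rw [h7] at hpM
      exact h3 hpM
    omega
  by_cases h3 : 3 ∣ N
  · obtain ⟨M, hM⟩ := h3
    have h4 := key M (by omega) ⟨3, by omega⟩ (by
      rintro ⟨K, hK⟩
      apply h9
      exact ⟨K, by rw [hM, hK]; push_cast; ring⟩)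
    right
    omega
  · left
    have := key N (by omega) dvd_rfl h3
    omega

end arith

variable {X : CubicFourfold} {H : H4 X}

/-- the polar form of the discriminant -/
def polar (H : H4 X) (v T : Fin 23 → ℤ) : ℤ := 3 * H.ip v T - H.ip H.h v * H.ip H.h T

theorem disc_add (hH : H.IsCohomology) (v T : Fin 23 → ℤ) (x y : ℤ) :
    H.disc (x • v + y • T) = x ^ 2 * H.disc v + 2 * x * y * polar H v T + y ^ 2 * H.disc T := by
  simp only [disc, polar, ip_add_left, ip_add_right, ip_smul_left, ip_smul_right, hH.comm T v]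
  ring

theorem disc_even (hH : H.IsCohomology) (T : Fin 23 → ℤ) : ∃ m, H.disc T = 2 * m := by
  have h1 := hH.char T
  have h2 : H.ip T H.h = H.ip H.h T := hH.comm _ _
  rw [h2] at h1
  have h3 : H.disc T = 2 * H.ip T T + (H.ip T T - H.ip H.h T) +
      (H.ip H.h T - H.ip H.h T ^ 2) := by
    simp only [disc]; ring
  have h4 : H.ip H.h T - H.ip H.h T ^ 2 = -(H.ip H.h T * (H.ip H.h T - 1)) := by ring
  have h5 : Even (H.disc T) := by
    rw [h3, h4]
    exact ((even_two_mul _).add h1).add (Int.even_mul_pred_self _).neg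
  obtain ⟨m, hm⟩ := h5
  exact ⟨m, by omega⟩

theorem hilbertSquare_of_rep (hH : H.IsCohomology) {v : Fin 23 → ℤ} (hvH : H.IsHodge v) {n : ℤ}
    (hv : H.disc v = 2 * (n ^ 2 + n + 1)) : HasHilbertSquare H := by
  have hpos : 0 < H.disc v := by
    rw [hv]
    nlinarith [sq_nonneg (2 * n + 1)]
  obtain ⟨w, m, l, hm, hsat, hw⟩ := hH.exists_saturated _ hpos
  have hwH : H.IsHodge w := by
    refine H.isHodge_of_smul hm.ne' ?_
    have h1 : m • w = v - l • H.h := by
      rw [hw]
      abel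
    rw [h1]
    exact H.isHodge_sub hvH (H.isHodge_smul _ hH.h_hodge)
  have hmw : m ^ 2 * H.disc w = 2 * n ^ 2 + 2 * n + 2 := by
    have h1 : m ^ 2 * H.disc w = H.disc v := by rw [hw, hH.disc_comb]
    rw [h1, hv]
    ring
  have hw0 : 0 < H.disc w := by
    by_contra hcon
    push Not at hcon
    have h1 : m ^ 2 * H.disc w ≤ 0 := mul_nonpos_of_nonneg_of_nonpos (by positivity) hcon
    nlinarith [sq_nonneg (2 * n + 1)]
  exact ⟨w, hwH, hsat, hH.six_lt hwH hw0, m, n, hm.ne', hmw⟩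

/-- **The condition of Addington implies the condition of Hassett.** -/
theorem hasK3_of_hilbertSquare (h : HasHilbertSquare H) : H.HasK3 := by
  obtain ⟨v, hv, hs, h6, a, n, -, h⟩ := h
  exact ⟨v, hv, hs, h6, four_not_dvd h, nine_not_dvd h, fun p hp hp2 hd => prime_mod h hp hp2 hd⟩

/-- **Trivial Brauer classes**: the discriminant `2 k ^ 2` and a class with a coprime polar
form. -/
theorem hilbertSquare_of_coprime (hH : H.IsCohomology) {v T : Fin 23 → ℤ} (hv : H.IsHodge v)
    (hT : H.IsHodge T) {k : ℤ} (hk : H.disc v = 2 * k ^ 2) (hc : IsCoprime (polar H v T) k) :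
    HasHilbertSquare H := by
  obtain ⟨m, hm⟩ := disc_even hH T
  have h1 : ∃ y c : ℤ, polar H v T * y - k * (2 * c + 1) = 1 := by
    obtain ⟨u, w, huw⟩ := hc
    rcases Int.even_or_odd' w with ⟨r, hr | hr⟩
    · -- `w` is even, the polar form is odd
      rcases Int.even_or_odd' (polar H v T) with ⟨s, hs | hs⟩
      · exfalso
        rw [hr, hs] at huw
        have h2 : 2 * (u * s + r * k) = 1 := by linear_combination huw
        omega
      · refine ⟨u + k, s - r, ?_⟩
        rw [hr] at huw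
        rw [hs] at huw ⊢
        linear_combination huw
    · refine ⟨u, -r - 1, ?_⟩
      rw [hr] at huw
      linear_combination huw
  obtain ⟨y, c, hyc⟩ := h1
  set x : ℤ := c ^ 2 + c + 1 - m * y ^ 2 with hx
  refine hilbertSquare_of_rep hH (v := x • v + y • T) (n := k * x + c)
    (H.isHodge_add (H.isHodge_smul _ hv) (H.isHodge_smul _ hT)) ?_
  rw [disc_add hH, hk, hm]
  linear_combination 2 * x * hyc + 2 * hx

/-- **The discriminant eight**: one discriminant which is not divisible by four suffices. -/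
theorem hilbertSquare_eight (hH : H.IsCohomology) {v T : Fin 23 → ℤ} (hv : H.IsHodge v)
    (hT : H.IsHodge T) (h8 : H.disc v = 8) (h4 : ¬ 4 ∣ H.disc T) : HasHilbertSquare H := by
  obtain ⟨m, hm⟩ := disc_even hH T
  rcases Int.even_or_odd' (polar H v T) with ⟨b, hb | hb⟩
  · obtain ⟨x, n, hxn⟩ := lemA b m (by omega)
    refine hilbertSquare_of_rep hH (v := x • v + (1 : ℤ) • T) (n := n)
      (H.isHodge_add (H.isHodge_smul _ hv) (H.isHodge_smul _ hT)) ?_
    rw [disc_add hH, h8, hb, hm]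
    linear_combination 2 * hxn
  · refine hilbertSquare_of_coprime hH hv hT (k := 2) (by rw [h8]; norm_num) ?_
    rw [hb]
    exact ⟨1, -b, by ring⟩

/-- **The discriminant eighteen.** -/
theorem hilbertSquare_eighteen (hH : H.IsCohomology) {v : Fin 23 → ℤ} (hv : H.IsHodge v)
    (h18 : H.disc v = 18) (hK : H.HasK3) : HasHilbertSquare H := by
  obtain ⟨T, hT, -, h6, h4, h9, hp⟩ := hK
  obtain ⟨m, hm⟩ := disc_even hH T
  have hm2 : m % 2 = 1 := by omega
  have hm3 := lemD (m := m) (by omega) hm2 (by omega) (fun p hp' hp2 hd =>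
    hp p hp' hp2 (hm ▸ hd.mul_left 2))
  by_cases h3 : (3 : ℤ) ∣ polar H v T
  · obtain ⟨β, hβ⟩ := h3
    obtain ⟨x, n, hxn⟩ := lemB β m hm2 hm3
    refine hilbertSquare_of_rep hH (v := x • v + (1 : ℤ) • T) (n := n)
      (H.isHodge_add (H.isHodge_smul _ hv) (H.isHodge_smul _ hT)) ?_
    rw [disc_add hH, h18, hβ, hm]
    linear_combination 2 * hxn
  · refine hilbertSquare_of_coprime hH hv hT (k := 3) (by rw [h18]; norm_num) ?_
    exact ((Int.prime_three.coprime_iff_not_dvd).2 h3).symm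

/-- **In `𝒞_8` and `𝒞_18` the conditions of Hassett and of Addington are equivalent.** -/
theorem hasK3_iff (hH : H.IsCohomology)
    (h : ∃ v, H.IsHodge v ∧ (H.disc v = 8 ∨ H.disc v = 18)) :
    H.HasK3 ↔ HasHilbertSquare H := by
  refine ⟨fun hK => ?_, hasK3_of_hilbertSquare⟩
  obtain ⟨v, hv, h8 | h18⟩ := h
  · obtain ⟨T, hT, -, -, h4, -⟩ := hK
    exact hilbertSquare_eight hH hv hT h8 h4
  · exact hilbertSquare_eighteen hH hv h18 hK

theorem disc_plane (hH : H.IsCohomology) {P : Fin 23 → ℤ} (hP : H.IsPl P) : H.disc P = 8 := by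
  have hhP : H.ip H.h P = 1 := (hH.comm _ _).trans hP.2.1
  rw [disc, hP.2.2, hhP]
  norm_num

/-- **Cubic fourfolds with a plane.** -/
theorem hilbertSquare_iff (hH : H.IsCohomology) (P : X.Plane) :
    HasHilbertSquare H ↔ ∃ T, H.IsHodge T ∧ ¬ 4 ∣ H.disc T := by
  constructor
  · intro h
    obtain ⟨v, hv, -, -, h4, -⟩ := hasK3_of_hilbertSquare h
    exact ⟨v, hv, h4⟩
  · rintro ⟨T, hT, h4⟩
    have hP : H.IsPl (H.cl P) := (hH.cl_range _).1 ⟨P, rfl⟩
    exact hilbertSquare_eight hH hP.1 hT (disc_plane hH hP) h4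

/-- If all discriminants are divisible by four, the form has rank one modulo two. -/
theorem twoRank_of_four_dvd (hH : H.IsCohomology) (h : ∀ T, H.IsHodge T → 4 ∣ H.disc T) :
    twoRank H + 1 = H.rank := by
  classical
  -- the form modulo two
  have hip : ∀ T T', H.IsHodge T → H.IsHodge T' →
      Even (H.ip T T' - H.ip H.h T * H.ip H.h T') := by
    intro T T' hT hT'
    obtain ⟨a, ha⟩ := h T hT
    obtain ⟨b, hb⟩ := h T' hT'
    obtain ⟨c, hc⟩ := h ((1 : ℤ) • T + (1 : ℤ) • T')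
      (H.isHodge_add (H.isHodge_smul _ hT) (H.isHodge_smul _ hT'))
    rw [disc_add hH, ha, hb] at hc
    have h1 : polar H T T' = 2 * (c - a - b) := by linarith
    unfold polar at h1
    exact ⟨c - a - b - H.ip T T', by linarith⟩
  let b := Module.finBasis ℤ H.hodge
  let f : Fin (finrank ℤ H.hodge) → Fin 23 → ZMod 2 := fun i => red (b i : Fin 23 → ℤ)
  let V := Submodule.span (ZMod 2) (Set.range f)
  have hV : finrank (ZMod 2) V = finrank ℤ H.hodge := by
    have := finrank_span_eq_card (H.basis_indep b)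
    rwa [Fintype.card_fin] at this
  have hmemV : ∀ T, H.IsHodge T → red T ∈ V := by
    intro T hT
    let T' : H.hodge := ⟨T, hT⟩
    have h2 : T = ∑ i, (b.repr T' i) • (b i : Fin 23 → ℤ) := by
      have h3 := b.sum_repr T'
      have h4 := congrArg (fun t : H.hodge => (t : Fin 23 → ℤ)) h3
      simp only [Submodule.coe_sum, Submodule.coe_smul] at h4
      exact h4.symm
    rw [h2, map_sum]
    refine Submodule.sum_mem _ fun i _ => ?_
    rw [red_smul]
    exact Submodule.smul_mem _ _ (Submodule.subset_span ⟨i, rfl⟩)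
  have hVred : ∀ x ∈ V, ∃ T, H.IsHodge T ∧ red T = x := by
    intro x hx
    induction hx using Submodule.span_induction with
    | mem x hx =>
      obtain ⟨i, rfl⟩ := hx
      exact ⟨b i, (b i).2, rfl⟩
    | zero => exact ⟨0, H.isHodge_zero, map_zero _⟩
    | add x y _ _ hx hy =>
      obtain ⟨T, hT, rfl⟩ := hx
      obtain ⟨T', hT', rfl⟩ := hy
      exact ⟨T + T', H.isHodge_add hT hT', map_add _ _ _⟩
    | smul c x _ hx =>
      obtain ⟨T, hT, rfl⟩ := hx
      refine ⟨(c.val : ℤ) • T, H.isHodge_smul _ hT, ?_⟩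
      rw [red_smul]
      congr 1
      simp
  -- the functional
  let φ : (Fin 23 → ZMod 2) →ₗ[ZMod 2] ZMod 2 :=
    ∑ j, (∑ i, ((H.h i * H.B i j : ℤ) : ZMod 2)) • LinearMap.proj j
  have hφ : ∀ T, φ (red T) = ((H.ip H.h T : ℤ) : ZMod 2) := by
    intro T
    simp only [φ, LinearMap.sum_apply, LinearMap.smul_apply, LinearMap.proj_apply, smul_eq_mul,
      red_apply, ip]
    push_cast
    rw [sum_comm]
    refine sum_congr rfl fun j _ => ?_
    rw [sum_mul]
  have hrad : radical H = V ⊓ LinearMap.ker φ := by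
    ext x
    rw [Submodule.mem_inf, LinearMap.mem_ker]
    constructor
    · rintro ⟨T, hT, hT', rfl⟩
      refine ⟨hmemV T hT, ?_⟩
      rw [hφ, ZMod.intCast_zmod_eq_zero_iff_dvd, hH.comm]
      exact (hT' _ hH.h_hodge).two_dvd
    · rintro ⟨hx, hx'⟩
      obtain ⟨T, hT, rfl⟩ := hVred x hx
      refine ⟨T, hT, fun T' hT' => ?_, rfl⟩
      rw [hφ, ZMod.intCast_zmod_eq_zero_iff_dvd] at hx'
      have h1 := hip T T' hT hT'
      have h2 : Even (H.ip H.h T * H.ip H.h T') := (even_iff_two_dvd.2 hx').mul_right _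
      have h3 := h1.add h2
      rwa [sub_add_cancel] at h3
  have h1 := LinearMap.finrank_range_add_finrank_ker (φ.domRestrict V)
  have h2 : LinearMap.range (φ.domRestrict V) = ⊤ := by
    rw [LinearMap.range_eq_top]
    intro c
    refine ⟨c • ⟨red H.h, hmemV _ hH.h_hodge⟩, ?_⟩
    rw [map_smul]
    change c • φ (red H.h) = c
    rw [hφ, hH.h_self]
    have : ((3 : ℤ) : ZMod 2) = 1 := by decide
    rw [this, smul_eq_mul, mul_one]
  have h3 : finrank (ZMod 2) (LinearMap.ker (φ.domRestrict V)) = twoRank H := by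
    unfold twoRank
    rw [hrad]
    have h4 : (LinearMap.ker (φ.domRestrict V)).map V.subtype = V ⊓ LinearMap.ker φ := by
      ext x
      rw [Submodule.mem_map, Submodule.mem_inf]
      constructor
      · rintro ⟨y, hy, rfl⟩
        exact ⟨y.2, hy⟩
      · rintro ⟨hx, hx'⟩
        exact ⟨⟨x, hx⟩, hx', rfl⟩
    rw [← h4]
    exact (LinearEquiv.finrank_eq (Submodule.equivMapOfInjective V.subtype
      V.subtype_injective _))
  rw [h2, finrank_top, Module.finrank_self, h3, hV] at h1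
  rw [rank_eq]
  omega

end Pool.Agent.V11211.CF
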