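import Pool.Agent.V11211.CF6

set_option autoImplicit false

/-!
# The conditions of Hassett and of Addington for cubic fourfolds in `𝒞_d`, `d = 2 p ^ 2`
-/

namespace Pool.Agent.V11211.CF

open Pool.Agent.Y95.Q Pool.Agent.Y95.Q.H4 Finset Module

section arith

open Polynomial in
/-- the local points -/
theorem local_point {p : ℕ} [Fact p.Prime] (hp2 : p ≠ 2) (hp3 : p ≠ 3) (β m : ZMod p)
    (h : p % 3 = 1 ∨ m ≠ 0) : ∃ y s : ZMod p, s ^ 2 + 3 = 4 * m * y ^ 2 ∧ y * β - s ≠ 0 := by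
  have hp : p.Prime := Fact.out
  have h20 : (2 : ZMod p) ≠ 0 := by
    intro h4
    have h5 : ((2 : ℕ) : ZMod p) = 0 := by exact_mod_cast h4
    rw [ZMod.natCast_eq_zero_iff] at h5
    exact hp2 ((Nat.prime_dvd_prime_iff_eq hp Nat.prime_two).1 h5)
  have h30 : (3 : ZMod p) ≠ 0 := by
    intro h4
    have h5 : ((3 : ℕ) : ZMod p) = 0 := by exact_mod_cast h4
    rw [ZMod.natCast_eq_zero_iff] at h5
    exact hp3 ((Nat.prime_dvd_prime_iff_eq hp Nat.prime_three).1 h5)
  by_cases h1 : p % 3 = 1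
  · have hdvd : 3 ∣ Fintype.card (ZMod p)ˣ := by
      rw [ZMod.card_units]
      have := hp.two_le
      omega
    obtain ⟨x, hx⟩ := exists_prime_orderOf_dvd_card 3 hdvd
    have hx3 : (x : ZMod p) ^ 3 = 1 := by
      have := pow_orderOf_eq_one x
      rw [hx] at this
      rw [← Units.val_pow_eq_pow_val, this, Units.val_one]
    have hx1 : (x : ZMod p) ≠ 1 := by
      intro h2
      have h3 : x = 1 := Units.ext h2
      rw [h3, orderOf_one] at hx
      omega
    have hq : (x : ZMod p) ^ 2 + x + 1 = 0 := by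
      have h2 : ((x : ZMod p) - 1) * ((x : ZMod p) ^ 2 + x + 1) = 0 := by
        linear_combination hx3
      exact (mul_eq_zero.1 h2).resolve_left (sub_ne_zero.2 hx1)
    refine ⟨0, 2 * x + 1, by linear_combination 4 * hq, ?_⟩
    intro h2
    apply h30
    linear_combination 4 * hq + (2 * (x : ZMod p) + 1) * h2
  · have hm : m ≠ 0 := h.resolve_left h1
    have h40 : (4 : ZMod p) ≠ 0 := by
      have : (4 : ZMod p) = 2 * 2 := by norm_num
      rw [this]
      exact mul_ne_zero h20 h20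
    let f : (ZMod p)[X] := X ^ 2
    let g : (ZMod p)[X] := C (-(4 * m)) * X ^ 2 + C 0 * X + C 3
    obtain ⟨s, y, hsy⟩ : ∃ a b, f.eval a + g.eval b = 0 :=
      FiniteField.exists_root_sum_quadratic (f := f) (g := g) (degree_X_pow 2)
        (degree_quadratic (neg_ne_zero.2 (mul_ne_zero h40 hm))) (by
          rw [ZMod.card]
          rcases hp.eq_two_or_odd with h2 | h2
          · exact absurd h2 hp2
          · exact h2)
    simp only [f, g, eval_add, eval_mul, eval_C, eval_pow, eval_X] at hsy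
    have hs : s ^ 2 + 3 = 4 * m * y ^ 2 := by linear_combination hsy
    by_cases h2 : y * β - s = 0
    · by_cases hs0 : s = 0
      · -- `s = 0`
        have h3 : 4 * m * y ^ 2 = 3 := by rw [← hs, hs0]; ring
        have hy : y ≠ 0 := by
          rintro rfl
          apply h30
          rw [← h3]
          ring
        have hβ : β = 0 := by
          rw [hs0, sub_zero] at h2
          exact (mul_eq_zero.1 h2).resolve_left hy
        obtain ⟨t, ht0, ht⟩ : ∃ t : ZMod p, t ≠ 0 ∧ 1 - m * t ^ 2 ≠ 0 := by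
          by_cases hm1 : m = 1
          · refine ⟨2, h20, ?_⟩
            rw [hm1]
            intro h4
            apply h30
            linear_combination -h4
          · refine ⟨1, one_ne_zero, ?_⟩
            intro h4
            apply hm1
            linear_combination -h4
        refine ⟨y * (1 + m * t ^ 2) / (1 - m * t ^ 2), 4 * y * m * t / (1 - m * t ^ 2), ?_, ?_⟩
        · field_simp
          linear_combination (-(1 - m * t ^ 2) ^ 2 : ZMod p) * h3
        · rw [hβ, mul_zero, zero_sub]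
          refine neg_ne_zero.2 (div_ne_zero ?_ ht)
          exact mul_ne_zero (mul_ne_zero (mul_ne_zero h40 hy) hm) ht0
      · refine ⟨y, -s, by linear_combination hs, ?_⟩
        intro h3
        have h4 : 2 * s = 0 := by linear_combination h3 - h2
        exact (mul_ne_zero h20 hs0) h4
    · exact ⟨y, s, hs, h2⟩

/-- a prime number in a residue class modulo `p` for which `D` is a square -/
theorem exists_prime_sq {p : ℕ} [Fact p.Prime] (hp2 : p ≠ 2) {D : ℕ} (hD : 0 < D) {r : ZMod p}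
    (hr : r ≠ 0) (hr2 : IsSquare r) (N : ℕ) :
    ∃ l > N, l.Prime ∧ l % 4 = 1 ∧ (l : ZMod p) = r ∧ IsSquare ((D : ℤ) : ZMod l) := by
  have hp : p.Prime := Fact.out
  have hpodd : Odd p := hp.odd_of_ne_two hp2
  obtain ⟨a, D', hnd, hDD⟩ := Nat.exists_eq_pow_mul_and_not_dvd hD.ne' p hp.ne_one
  have hD'0 : 0 < D' := by
    rcases Nat.eq_zero_or_pos D' with h | h
    · rw [h] at hnd
      exact absurd (dvd_zero p) hnd
    · exact h
  have hcop : Nat.Coprime (4 * D') p := by
    refine Nat.Coprime.mul_left ?_ ?_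
    · have h4 : (4 : ℕ) = 2 ^ 2 := by norm_num
      rw [h4]
      exact Nat.Coprime.pow_left 2 (Nat.coprime_two_left.2 hpodd)
    · exact ((Nat.Prime.coprime_iff_not_dvd hp).2 hnd).symm
  obtain ⟨c, hc1, hc2⟩ := Nat.chineseRemainder hcop 1 r.val
  have hcc : c.Coprime (4 * D' * p) := by
    refine Nat.Coprime.mul_right ?_ ?_
    · have h1 : Nat.gcd c (4 * D') = Nat.gcd 1 (4 * D') := hc1.gcd_eq
      rw [Nat.Coprime, h1, Nat.gcd_one_left]
    · rw [Nat.coprime_comm]
      refine (Nat.Prime.coprime_iff_not_dvd hp).2 fun h => hr ?_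
      have h1 : ((c : ℕ) : ZMod p) = (r.val : ZMod p) := (ZMod.natCast_eq_natCast_iff _ _ _).2 hc2
      rw [ZMod.natCast_zmod_val] at h1
      rw [← h1]
      exact (ZMod.natCast_eq_zero_iff _ _).2 h
  obtain ⟨l, hl, hlp, hlc⟩ := Nat.forall_exists_prime_gt_and_modEq (max N 2)
    (q := 4 * D' * p) (a := c) (by have := hp.pos; positivity) hcc
  have hlN : N < l := lt_of_le_of_lt (le_max_left _ _) hl
  have hl2 : 2 < l := lt_of_le_of_lt (le_max_right _ _) hl
  have hl1 : l % (4 * D') = 1 := by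
    have h1 : l ≡ 1 [MOD 4 * D'] := (hlc.of_mul_right p).trans hc1
    have h2 : (1 : ℕ) % (4 * D') = 1 := Nat.mod_eq_of_lt (by omega)
    rw [← h2]
    exact h1
  have hl4 : l % 4 = 1 := by
    have h1 : l ≡ 1 [MOD 4] := ((hlc.of_mul_right p).trans hc1).of_mul_right D'
    exact h1
  have hlr : (l : ZMod p) = r := by
    have h1 : l ≡ r.val [MOD p] := (hlc.of_mul_left (4 * D')).trans hc2
    have h2 := (ZMod.natCast_eq_natCast_iff _ _ _).2 h1
    rwa [ZMod.natCast_zmod_val] at h2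
  have hlodd : Odd l := by
    rw [Nat.odd_iff]
    omega
  have : Fact l.Prime := ⟨hlp⟩
  refine ⟨l, hlN, hlp, hl4, hlr, ?_⟩
  have hJ1 : jacobiSym (D' : ℤ) l = 1 := by
    rw [jacobiSym.mod_right' D' hlodd, hl1, jacobiSym.one_right]
  have hJ2 : jacobiSym (p : ℤ) l = 1 := by
    rw [jacobiSym.quadratic_reciprocity_one_mod_four' hpodd hl4, ← jacobiSym.legendreSym.to_jacobiSym]
    rw [legendreSym.eq_one_iff]
    · rw [Int.cast_natCast, hlr]
      exact hr2
    · rw [Int.cast_natCast, hlr]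
      exact hr
  have hJ : jacobiSym (D : ℤ) l = 1 := by
    rw [hDD]
    push_cast
    rw [jacobiSym.mul_left, jacobiSym.pow_left, hJ1, hJ2, one_pow, one_mul]
  rw [← jacobiSym.legendreSym.to_jacobiSym] at hJ
  by_cases h0 : ((D : ℤ) : ZMod l) = 0
  · rw [h0]
    exact ⟨0, by ring⟩
  · exact (legendreSym.eq_one_iff l h0).1 hJ

/-- **The representation**: primes congruent to `3` modulo `4`. -/
theorem lemE {p : ℕ} (hp : p.Prime) (hp4 : p % 4 = 3) (hp3 : p ≠ 3) {β m : ℤ}
    (hpos : 0 < 4 * m - β ^ 2) (h : p % 3 = 1 ∨ ¬ (p : ℤ) ∣ m) :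
    ∃ x y n : ℤ, p ^ 2 * x ^ 2 + p * β * x * y + m * y ^ 2 = n ^ 2 + n + 1 := by
  have : Fact p.Prime := ⟨hp⟩
  have hp2 : p ≠ 2 := by
    rintro rfl
    omega
  obtain ⟨Δ, hΔ⟩ : ∃ Δ : ℕ, (Δ : ℤ) = 4 * m - β ^ 2 := ⟨(4 * m - β ^ 2).toNat, by omega⟩
  have hΔ0 : 0 < Δ := by omega
  obtain ⟨y0, s, hs, hr⟩ := local_point hp2 hp3 (β : ZMod p) (m : ZMod p) (by
    rcases h with h | h
    · exact Or.inl h
    · right
      rwa [Ne, ZMod.intCast_zmod_eq_zero_iff_dvd])
  set r : ZMod p := y0 * β - s with hrdef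
  -- the sign
  obtain ⟨ε, hε, hεr⟩ : ∃ ε : ℤ, ε * ε = 1 ∧ IsSquare ((ε : ZMod p) * r) := by
    by_cases hsq : IsSquare r
    · exact ⟨1, by norm_num, by simpa using hsq⟩
    · refine ⟨-1, by norm_num, ?_⟩
      have h1 : quadraticChar (ZMod p) r = -1 := by
        rw [quadraticChar_neg_one_iff_not_isSquare]
        exact hsq
      have h2 : quadraticChar (ZMod p) (-1) = -1 := by
        rw [quadraticChar_neg_one_iff_not_isSquare, ZMod.exists_sq_eq_neg_one_iff]
        omega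
      have h3 : quadraticChar (ZMod p) ((-1) * r) = 1 := by
        rw [map_mul, h1, h2]
        norm_num
      have h4 : ((-1 : ℤ) : ZMod p) * r = (-1) * r := by push_cast; ring
      rw [h4]
      exact (quadraticChar_one_iff_isSquare (mul_ne_zero (neg_ne_zero.2 one_ne_zero) hr)).1 h3
  have hε0 : (ε : ZMod p) ≠ 0 := by
    intro h0
    have h1 : ((ε * ε : ℤ) : ZMod p) = 0 := by
      push_cast
      rw [h0, zero_mul]
    rw [hε, Int.cast_one] at h1
    exact one_ne_zero h1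
  obtain ⟨l, hl, hlp, hl4, hlr, hlsq⟩ := exists_prime_sq hp2 (D := 3 * Δ) (by omega)
    (mul_ne_zero hε0 hr) hεr (3 * Δ + p)
  have : Fact l.Prime := ⟨hlp⟩
  have hlp' : Nat.Coprime l p := (Nat.coprime_primes hlp hp).2 (by omega)
  have hΔl : ((Δ : ℤ) : ZMod l) ≠ 0 := by
    rw [Int.cast_natCast, Ne, ZMod.natCast_eq_zero_iff]
    intro h1
    have := Nat.le_of_dvd hΔ0 h1
    omega
  obtain ⟨z, hz⟩ := hlsq
  have h2l : (2 : ZMod l) ≠ 0 := by
    intro h4
    have h5 : ((2 : ℕ) : ZMod l) = 0 := by exact_mod_cast h4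
    rw [ZMod.natCast_eq_zero_iff] at h5
    have := Nat.le_of_dvd (by norm_num) h5
    have := hp.two_le
    omega
  have h2p : (2 : ZMod p) ≠ 0 := by
    intro h4
    have h5 : ((2 : ℕ) : ZMod p) = 0 := by exact_mod_cast h4
    rw [ZMod.natCast_eq_zero_iff] at h5
    exact hp2 ((Nat.prime_dvd_prime_iff_eq hp Nat.prime_two).1 h5)
  -- the number `y`
  obtain ⟨u, hu1, hu2⟩ := Nat.chineseRemainder hlp' (z / (2 * ((Δ : ℤ) : ZMod l))).val
    (y0 / 2).val
  have hul : ((2 * (u : ℤ) : ℤ) : ZMod l) = z / ((Δ : ℤ) : ZMod l) := by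
    have h1 := (ZMod.natCast_eq_natCast_iff _ _ _).2 hu1
    rw [ZMod.natCast_zmod_val] at h1
    have h3 : ((2 * (u : ℤ) : ℤ) : ZMod l) = 2 * (u : ZMod l) := by push_cast; ring
    rw [h3, h1]
    field_simp
  have hup : ((2 * (u : ℤ) : ℤ) : ZMod p) = y0 := by
    have h1 := (ZMod.natCast_eq_natCast_iff _ _ _).2 hu2
    rw [ZMod.natCast_zmod_val] at h1
    push_cast
    rw [h1]
    field_simp
  set y : ℤ := 2 * (u : ℤ) with hy
  have hΔy : ((Δ : ℤ) : ZMod l) * (y : ZMod l) ^ 2 = 3 := by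
    rw [hul]
    have h1 : z * z = 3 * ((Δ : ℤ) : ZMod l) := by
      rw [← hz]
      push_cast
      ring
    field_simp
    linear_combination h1
  -- the number `c`
  have hlodd : (l : ℤ) % 2 = 1 := by omega
  have hεodd : ε = 1 ∨ ε = -1 := by
    have h1 : (ε - 1) * (ε + 1) = 0 := by linear_combination hε
    rcases mul_eq_zero.1 h1 with h | h
    · left; omega
    · right; omega
  obtain ⟨g, hg⟩ : ∃ g, ε * l = 2 * g - 1 := by
    rcases hεodd with h | h
    · exact ⟨((l : ℤ) + 1) / 2, by rw [h]; omega⟩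
    · exact ⟨(-(l : ℤ) + 1) / 2, by rw [h]; omega⟩
  have hg1p : ((ε * l : ℤ) : ZMod p) = r := by
    push_cast
    rw [hlr, ← mul_assoc]
    have h1 : ((ε * ε : ℤ) : ZMod p) = 1 := by rw [hε]; simp
    push_cast at h1
    rw [h1, one_mul]
  set c : ℤ := u * β - g with hc
  have hcj : 2 * c + 1 = y * β - ε * l := by
    rw [hg, hc, hy]
    ring
  have hFp : (p : ℤ) ∣ c ^ 2 + c + 1 - m * y ^ 2 := by
    rw [← ZMod.intCast_zmod_eq_zero_iff_dvd]
    have h1 : (((2 * c + 1 : ℤ)) : ZMod p) = s := by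
      rw [hcj]
      push_cast at hg1p ⊢
      rw [hg1p, hup, hrdef]
      ring
    have h2 : (4 : ZMod p) * ((c ^ 2 + c + 1 - m * y ^ 2 : ℤ) : ZMod p) = 0 := by
      push_cast at h1 ⊢
      rw [hup]
      linear_combination (2 * (c : ZMod p) + 1 + s) * h1 + hs
    have h4 : (4 : ZMod p) = 2 * 2 := by norm_num
    rw [h4] at h2
    exact (mul_eq_zero.1 h2).resolve_left (mul_ne_zero h2p h2p)
  have hFl : (l : ℤ) ∣ c ^ 2 + c + 1 - m * y ^ 2 := by
    rw [← ZMod.intCast_zmod_eq_zero_iff_dvd]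
    have h1 : (((2 * c + 1 : ℤ)) : ZMod l) = y * β := by
      rw [hcj]
      push_cast
      rw [ZMod.natCast_self]
      ring
    have h3 : ((Δ : ℤ) : ZMod l) = 4 * m - β ^ 2 := by
      rw [hΔ]
      push_cast
      ring
    rw [h3] at hΔy
    have h2 : (4 : ZMod l) * ((c ^ 2 + c + 1 - m * y ^ 2 : ℤ) : ZMod l) = 0 := by
      push_cast at h1 ⊢
      linear_combination (2 * (c : ZMod l) + 1 + y * β) * h1 - hΔy
    have h4 : (4 : ZMod l) = 2 * 2 := by norm_num
    rw [h4] at h2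
    exact (mul_eq_zero.1 h2).resolve_left (mul_ne_zero h2l h2l)
  obtain ⟨x, hx⟩ : (p : ℤ) * l ∣ c ^ 2 + c + 1 - m * y ^ 2 := by
    refine IsCoprime.mul_dvd ?_ hFp hFl
    exact (Nat.isCoprime_iff_coprime.2 hlp').symm
  refine ⟨ε * x, y, p * (ε * x) + c, ?_⟩
  have h1 : c ^ 2 + c + 1 - m * y ^ 2 = p * (ε * x) * (ε * l) := by
    rw [hx]
    linear_combination -(p * l * x : ℤ) * hε
  linear_combination -h1 - (p * (ε * x) : ℤ) * hcj

end arith

end Pool.Agent.V11211.CF
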