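import Pool.Agent.V11211.CF7

set_option autoImplicit false

/-!
# The conditions of Hassett and of Addington for cubic fourfolds in `𝒞_d`, `d = 2 p ^ 2`
-/

namespace Pool.Agent.V11211.CF

open Pool.Agent.Y95.Q Pool.Agent.Y95.Q.H4 Finset Module

variable {X : CubicFourfold} {H : H4 X}

theorem disc_nonneg (hH : H.IsCohomology) {u : Fin 23 → ℤ} (hu : H.IsHodge u) : 0 ≤ H.disc u := by
  have h1 := hH.nonneg (v := (3 : ℤ) • u - H.ip H.h u • H.h)
    (H.isHodge_sub (H.isHodge_smul _ hu) (H.isHodge_smul _ hH.h_hodge))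
  simp only [ip_sub_left, ip_sub_right, ip_smul_left, ip_smul_right, hH.h_self,
    hH.comm u H.h] at h1
  rw [disc]
  nlinarith

theorem polar_add (v T T' : Fin 23 → ℤ) (z : ℤ) :
    polar H v (T + z • T') = polar H v T + z * polar H v T' := by
  simp only [polar, ip_add_right, ip_smul_right]
  ring

theorem disc_add' (hH : H.IsCohomology) (T T' : Fin 23 → ℤ) (z : ℤ) :
    H.disc (T + z • T') = H.disc T + 2 * z * polar H T T' + z ^ 2 * H.disc T' := by
  have h1 := disc_add hH T T' 1 z
  rw [one_smul] at h1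
  rw [h1]
  ring

theorem cauchy_schwarz (hH : H.IsCohomology) {v T : Fin 23 → ℤ} (hv : H.IsHodge v)
    (hT : H.IsHodge T) (hpos : 0 < H.disc v) : 0 ≤ H.disc v * H.disc T - polar H v T ^ 2 := by
  have h1 := disc_nonneg hH (u := (-polar H v T) • v + (H.disc v) • T)
    (H.isHodge_add (H.isHodge_smul _ hv) (H.isHodge_smul _ hT))
  rw [disc_add hH] at h1
  have h2 : (-polar H v T) ^ 2 * H.disc v + 2 * (-polar H v T) * H.disc v * polar H v T +
      H.disc v ^ 2 * H.disc T = H.disc v * (H.disc v * H.disc T - polar H v T ^ 2) := by ring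
  rw [h2] at h1
  by_contra hcon
  push Not at hcon
  have h3 := mul_neg_of_pos_of_neg hpos hcon
  linarith

theorem exists_indep_disc (hH : H.IsCohomology) {v : Fin 23 → ℤ} (hpos : 0 < H.disc v)
    (h3 : 3 ≤ H.rank) :
    ∃ T, H.IsHodge T ∧ 0 < H.disc v * H.disc T - polar H v T ^ 2 := by
  by_contra hcon
  push Not at hcon
  let φ : H.hodge →ₗ[ℤ] (ℤ × ℤ) :=
    { toFun := fun T => (H.ip T H.h, polar H v T)
      map_add' := fun T T' => by
        refine Prod.ext ?_ ?_
        · exact H.ip_add_left _ _ _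
        · change polar H v (T + T') = polar H v T + polar H v T'
          simp only [polar, ip_add_right]
          ring
      map_smul' := fun n T => by
        refine Prod.ext ?_ ?_
        · exact H.ip_smul_left _ _ _
        · change polar H v (n • (T : Fin 23 → ℤ)) = n * polar H v T
          simp only [polar, ip_smul_right]
          ring }
  have hinj : Function.Injective φ := by
    rw [injective_iff_map_eq_zero]
    rintro ⟨T, hT⟩ h
    have h1 : H.ip T H.h = 0 := congrArg Prod.fst h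
    have h2 : polar H v T = 0 := congrArg Prod.snd h
    have h4 := hcon T hT
    rw [h2] at h4
    have h5 : H.disc T = 3 * H.ip T T := by
      rw [disc, hH.comm H.h T, h1]
      ring
    rw [h5] at h4
    refine Subtype.ext ?_
    by_contra h0
    have h6 := hH.pos T hT h0
    have h7 : 0 < H.disc v * (3 * H.ip T T) := by positivity
    linarith
  have h4 := LinearMap.finrank_le_finrank_of_injective hinj
  rw [finrank_prod, finrank_self, ← rank_eq] at h4
  omega

/-- **The discriminants `2 p ^ 2`.** -/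
theorem hilbertSquare_prime (hH : H.IsCohomology) {p : ℕ} (hp : p.Prime) (hp4 : p % 4 = 3)
    (hp3 : p ≠ 3) {v : Fin 23 → ℤ} (hv : H.IsHodge v) (hd : H.disc v = 2 * (p : ℤ) ^ 2)
    (h3 : 3 ≤ H.rank) (h : p % 3 = 1 ∨ H.HasK3) : HasHilbertSquare H := by
  have hp0 : (0 : ℤ) < p := by exact_mod_cast hp.pos
  have hpos : 0 < H.disc v := by
    rw [hd]
    positivity
  obtain ⟨T', hT', hD'⟩ := exists_indep_disc hH hpos h3
  -- the class
  obtain ⟨T, m, hT, hm, hD, hpm⟩ : ∃ (T : Fin 23 → ℤ) (m : ℤ), H.IsHodge T ∧ H.disc T = 2 * m ∧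
      0 < H.disc v * H.disc T - polar H v T ^ 2 ∧ (p % 3 = 1 ∨ ¬ (p : ℤ) ∣ m) := by
    by_cases h1 : p % 3 = 1
    · obtain ⟨m, hm⟩ := disc_even hH T'
      exact ⟨T', m, hT', hm, hD', Or.inl h1⟩
    · obtain ⟨T, hT, -, h6, h4, h9, hq⟩ := h.resolve_left h1
      obtain ⟨m, hm⟩ := disc_even hH T
      obtain ⟨m', hm'⟩ := disc_even hH T'
      have hpm : ¬ (p : ℤ) ∣ m := by
        intro h5
        have h7 := hq p hp (by omega) (hm ▸ h5.mul_left 2)
        have h8 : p % 3 ≠ 0 := by
          intro h0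
          exact hp3 ((Nat.prime_dvd_prime_iff_eq Nat.prime_three hp).1
            (Nat.dvd_of_mod_eq_zero h0)).symm
        omega
      have hcs := cauchy_schwarz hH hv hT hpos
      -- the sum of the two values
      have key : ∀ z : ℤ, (p : ℤ) ∣ z →
          0 < H.disc v * H.disc (T + z • T') - polar H v (T + z • T') ^ 2 →
          ∃ (T : Fin 23 → ℤ) (m : ℤ), H.IsHodge T ∧ H.disc T = 2 * m ∧
            0 < H.disc v * H.disc T - polar H v T ^ 2 ∧ (p % 3 = 1 ∨ ¬ (p : ℤ) ∣ m) := by
        intro z hz hz'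
        refine ⟨T + z • T', m + z * polar H T T' + z ^ 2 * m',
          H.isHodge_add hT (H.isHodge_smul _ hT'), ?_, hz', Or.inr ?_⟩
        · rw [disc_add' hH, hm, hm']
          ring
        · intro h5
          apply hpm
          have h6 : (p : ℤ) ∣ z * polar H T T' + z ^ 2 * m' :=
            dvd_add (hz.mul_right _) ((hz.trans (dvd_pow_self z two_ne_zero)).mul_right _)
          have h7 := dvd_sub h5 h6
          have h8 : m + z * polar H T T' + z ^ 2 * m' - (z * polar H T T' + z ^ 2 * m') = m := by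
            ring
          rwa [h8] at h7
      by_cases h5 : 0 < H.disc v * H.disc (T + (p : ℤ) • T') - polar H v (T + (p : ℤ) • T') ^ 2
      · exact key p dvd_rfl h5
      · refine key (-p) ⟨-1, by ring⟩ ?_
        rw [disc_add' hH, polar_add] at h5 ⊢
        have h6 : 0 < (p : ℤ) ^ 2 * (H.disc v * H.disc T' - polar H v T' ^ 2) := by positivity
        nlinarith
  by_cases hc : (p : ℤ) ∣ polar H v T
  · obtain ⟨β, hβ⟩ := hc
    rw [hd, hm, hβ] at hD
    have hpos' : 0 < 4 * m - β ^ 2 := by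
      by_contra hcon
      push Not at hcon
      have h1 : 2 * (p : ℤ) ^ 2 * (2 * m) - (p * β) ^ 2 = (p : ℤ) ^ 2 * (4 * m - β ^ 2) := by ring
      rw [h1] at hD
      have h2 : (p : ℤ) ^ 2 * (4 * m - β ^ 2) ≤ 0 :=
        mul_nonpos_of_nonneg_of_nonpos (by positivity) hcon
      linarith
    obtain ⟨x, y, n, hxyn⟩ := lemE hp hp4 hp3 hpos' hpm
    refine hilbertSquare_of_rep hH (v := x • v + y • T) (n := n)
      (H.isHodge_add (H.isHodge_smul _ hv) (H.isHodge_smul _ hT)) ?_
    rw [disc_add hH, hd, hβ, hm]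
    linear_combination 2 * hxyn
  · refine hilbertSquare_of_coprime hH hv hT (k := p) hd ?_
    exact (((Nat.prime_iff_prime_int.1 hp).coprime_iff_not_dvd).2 hc).symm

/-- **In `𝒞_d`, `d = 2 p ^ 2`, the conditions of Hassett and of Addington are equivalent.** -/
theorem hasK3_iff_prime (hH : H.IsCohomology) {p : ℕ} (hp : p.Prime) (hp4 : p = 2 ∨ p % 4 = 3)
    {v : Fin 23 → ℤ} (hv : H.IsHodge v) (hd : H.disc v = 2 * (p : ℤ) ^ 2)
    (h3 : 3 ≤ H.rank ∨ p ≤ 3) : H.HasK3 ↔ HasHilbertSquare H := by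
  refine ⟨fun hK => ?_, hasK3_of_hilbertSquare⟩
  rcases hp4 with rfl | hp4
  · exact (hasK3_iff hH ⟨v, hv, Or.inl (by rw [hd]; norm_num)⟩).1 hK
  · by_cases hp3 : p = 3
    · subst hp3
      exact (hasK3_iff hH ⟨v, hv, Or.inr (by rw [hd]; norm_num)⟩).1 hK
    · have hp5 : ¬ p ≤ 3 := by omega
      exact hilbertSquare_prime hH hp hp4 hp3 hv hd (h3.resolve_right hp5) (Or.inr hK)

end Pool.Agent.V11211.CF
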