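import Mathlib

/-!
# Chains `A` with long chains in `A + A`

For every `n ≥ 1` we construct a convex chain `A` with `n` points in the plane and a convex chain
`X` of `2n - ⌊log₂ n⌋ - 1` points of `A + A`.
-/

set_option autoImplicit false

namespace Pool.Agent.V11211.CI

open Finset

/-- The finite set `X` of points of the plane is convexly independent: no point of `X` lies in the
convex hull of the other ones. -/
def ConvIndep (X : Finset (ℝ × ℝ)) : Prop :=
  ∀ x ∈ X, x ∉ convexHull ℝ ((X : Set (ℝ × ℝ)) \ {x})

/-- The largest size of a convexly independent subset `X` of `A + A`, for a convex `n`-point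
set `A`. -/
noncomputable def g (n : ℕ) : ℕ :=
  sSup {m : ℕ | ∃ A X : Finset (ℝ × ℝ), A.card = n ∧ ConvIndep A ∧
    (∀ x ∈ X, ∃ a ∈ A, ∃ b ∈ A, x = a + b) ∧ ConvIndep X ∧ X.card = m}

/-! ### Chains -/

/-- The steps `(w j, w j * s j)` for `j + 1 < n` go to the right, with decreasing slopes `< c`. -/
def Good (n : ℕ) (w s : ℕ → ℝ) (c : ℝ) : Prop :=
  (∀ j, j + 1 < n → 0 < w j ∧ s j < c) ∧ ∀ j, j + 2 < n → s (j + 1) < s j

/-- The points of the chain with steps `(w j, w j * s j)` which starts at `0`. -/
noncomputable def pt (w s : ℕ → ℝ) (i : ℕ) : ℝ × ℝ :=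
  (∑ j ∈ range i, w j, ∑ j ∈ range i, w j * s j)

lemma pt_zero (w s : ℕ → ℝ) : pt w s 0 = 0 := by
  unfold pt
  simp

lemma pt_succ (w s : ℕ → ℝ) (i : ℕ) : pt w s (i + 1) = pt w s i + (w i, w i * s i) := by
  unfold pt
  rw [sum_range_succ, sum_range_succ]
  rfl

lemma pt_add (w s : ℕ → ℝ) (i j : ℕ) :
    pt w s (i + j) = pt w s i + pt (fun t => w (i + t)) (fun t => s (i + t)) j := by
  induction j with
  | zero => rw [pt_zero, add_zero, add_zero]
  | succ j ih => rw [← add_assoc, pt_succ, ih, pt_succ, add_assoc]

lemma pt_congr {w s w' s' : ℕ → ℝ} {i : ℕ} (h : ∀ j, j < i → w j = w' j ∧ s j = s' j) :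
    pt w s i = pt w' s' i := by
  unfold pt
  have h1 : ∑ j ∈ range i, w j = ∑ j ∈ range i, w' j :=
    sum_congr rfl fun j hj => (h j (mem_range.1 hj)).1
  have h2 : ∑ j ∈ range i, w j * s j = ∑ j ∈ range i, w' j * s' j := by
    refine sum_congr rfl fun j hj => ?_
    rw [(h j (mem_range.1 hj)).1, (h j (mem_range.1 hj)).2]
  rw [h1, h2]

/-- the height above the lines of slope `θ` -/
noncomputable def ht (θ : ℝ) (p : ℝ × ℝ) : ℝ := p.2 - θ * p.1

lemma ht_lin (θ : ℝ) : IsLinearMap ℝ (ht θ) := by
  constructor
  · intro x y
    unfold ht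
    simp only [Prod.fst_add, Prod.snd_add]
    ring
  · intro c x
    unfold ht
    simp only [Prod.smul_fst, Prod.smul_snd, smul_eq_mul]
    ring

lemma ht_succ (θ : ℝ) (w s : ℕ → ℝ) (i : ℕ) :
    ht θ (pt w s (i + 1)) = ht θ (pt w s i) + w i * (s i - θ) := by
  rw [pt_succ]
  unfold ht
  simp only [Prod.fst_add, Prod.snd_add]
  ring

lemma good_mono {n : ℕ} {w s : ℕ → ℝ} {c : ℝ} (h : Good n w s c) {i j : ℕ} (hij : i < j)
    (hj : j + 1 < n) : s j < s i := by
  obtain ⟨d, rfl⟩ : ∃ d, j = i + 1 + d := ⟨j - (i + 1), by omega⟩
  clear hij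
  induction d with
  | zero => exact h.2 i (by omega)
  | succ d ih => exact (h.2 (i + 1 + d) (by omega)).trans (ih (by omega))

/-- every point of a chain is the unique highest one for some slope -/
lemma exists_slope {n : ℕ} {w s : ℕ → ℝ} {c : ℝ} (h : Good n w s c) {i : ℕ} (hi : i < n) :
    ∃ θ : ℝ, ∀ j, j < n → j ≠ i → ht θ (pt w s j) < ht θ (pt w s i) := by
  -- choose the slope
  obtain ⟨θ, h1, h2⟩ : ∃ θ : ℝ, (∀ j, j < i → θ < s j) ∧ ∀ j, i ≤ j → j + 1 < n → s j < θ := by
    rcases Nat.eq_zero_or_pos i with h0 | h0
    · subst h0
      exact ⟨c, fun j hj => absurd hj (by omega), fun j _ hj => (h.1 j hj).2⟩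
    · by_cases h3 : i + 1 < n
      · have h4 : s i < s (i - 1) := good_mono h (by omega) h3
        refine ⟨(s i + s (i - 1)) / 2, ?_, ?_⟩
        · intro j hj
          have h5 : s (i - 1) ≤ s j := by
            rcases Nat.lt_or_ge j (i - 1) with h6 | h6
            · exact (good_mono h h6 (by omega)).le
            · have : j = i - 1 := by omega
              rw [this]
          linarith
        · intro j hj hj'
          have h5 : s j ≤ s i := by
            rcases Nat.lt_or_ge i j with h6 | h6
            · exact (good_mono h h6 hj').le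
            · have : j = i := by omega
              rw [this]
          linarith
      · refine ⟨s (i - 1) - 1, ?_, ?_⟩
        · intro j hj
          have h5 : s (i - 1) ≤ s j := by
            rcases Nat.lt_or_ge j (i - 1) with h6 | h6
            · exact (good_mono h h6 (by omega)).le
            · have : j = i - 1 := by omega
              rw [this]
          linarith
        · intro j hj hj'
          omega
  refine ⟨θ, ?_⟩
  -- to the left
  have hl : ∀ d, d + 1 ≤ i → ht θ (pt w s (i - (d + 1))) < ht θ (pt w s i) := by
    intro d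
    induction d with
    | zero =>
      intro hd
      have e1 : i = (i - 1) + 1 := by omega
      have h3 := ht_succ θ w s (i - 1)
      rw [← e1] at h3
      rw [h3]
      have h4 := (h.1 (i - 1) (by omega)).1
      have h5 := h1 (i - 1) (by omega)
      have h6 := mul_pos h4 (sub_pos.2 h5)
      simp only [Nat.zero_add]
      linarith
    | succ d ih =>
      intro hd
      have h7 := ih (by omega)
      have e1 : i - (d + 1) = (i - (d + 1 + 1)) + 1 := by omega
      have h3 := ht_succ θ w s (i - (d + 1 + 1))
      rw [← e1] at h3
      have h4 := (h.1 (i - (d + 1 + 1)) (by omega)).1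
      have h5 := h1 (i - (d + 1 + 1)) (by omega)
      have h6 := mul_pos h4 (sub_pos.2 h5)
      linarith
  -- to the right
  have hr : ∀ d, i + d + 1 < n → ht θ (pt w s (i + d + 1)) < ht θ (pt w s i) := by
    intro d
    induction d with
    | zero =>
      intro hd
      have h3 := ht_succ θ w s i
      rw [Nat.add_zero, h3]
      have h4 := (h.1 i (by omega)).1
      have h5 := h2 i le_rfl (by omega)
      have h6 := mul_pos h4 (sub_pos.2 h5)
      linarith
    | succ d ih =>
      intro hd
      have h7 := ih (by omega)
      have h3 := ht_succ θ w s (i + d + 1)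
      have h4 := (h.1 (i + d + 1) (by omega)).1
      have h5 := h2 (i + d + 1) (by omega) (by omega)
      have h6 := mul_pos h4 (sub_pos.2 h5)
      rw [show i + (d + 1) + 1 = i + d + 1 + 1 by ring]
      linarith
  intro j hj hji
  rcases Nat.lt_or_ge j i with h8 | h8
  · have := hl (i - j - 1) (by omega)
    rwa [show i - (i - j - 1 + 1) = j by omega] at this
  · have := hr (j - i - 1) (by omega)
    rwa [show i + (j - i - 1) + 1 = j by omega] at this

/-- the points of a chain -/
noncomputable def pts (n : ℕ) (w s : ℕ → ℝ) : Finset (ℝ × ℝ) := (range n).image (pt w s)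

lemma pts_card {n : ℕ} {w s : ℕ → ℝ} {c : ℝ} (h : Good n w s c) : (pts n w s).card = n := by
  unfold pts
  rw [card_image_of_injOn, card_range]
  intro i hi j hj hij
  by_contra hne
  simp only [coe_range, Set.mem_Iio] at hi hj
  obtain ⟨θ, hθ⟩ := exists_slope h hi
  have := hθ j hj (Ne.symm hne)
  rw [hij] at this
  exact lt_irrefl _ this

lemma pts_indep {n : ℕ} {w s : ℕ → ℝ} {c : ℝ} (h : Good n w s c) : ConvIndep (pts n w s) := by
  intro x hx hmem
  unfold pts at hx
  rw [mem_image] at hx
  obtain ⟨i, hi, rfl⟩ := hx
  obtain ⟨θ, hθ⟩ := exists_slope h (mem_range.1 hi)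
  have h1 : ((pts n w s : Set (ℝ × ℝ)) \ {pt w s i}) ⊆
      {y | ht θ y < ht θ (pt w s i)} := by
    rintro y ⟨hy, hne⟩
    unfold pts at hy
    rw [mem_coe, mem_image] at hy
    obtain ⟨j, hj, rfl⟩ := hy
    refine hθ j (mem_range.1 hj) ?_
    rintro rfl
    exact hne rfl
  have h2 := convexHull_min h1 (convex_halfSpace_lt (ht_lin θ) _) hmem
  exact absurd h2 (lt_irrefl (ht θ (pt w s i)))

/-! ### The construction -/

/-- A convex `n`-point chain and a chain of `N` points of `A + A` which starts at `2 a₀`. At most
`ℓ` of these points are given as `a + a`. -/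
def Has (n N ℓ : ℕ) : Prop :=
  ∃ (w s W S : ℕ → ℝ) (c : ℝ) (E : Finset ℕ), Good n w s c ∧ Good N W S c ∧ E.card ≤ ℓ ∧
    ∀ j, j < N → ∃ p q, p < n ∧ q < n ∧ (p = q → j ∈ E) ∧ pt W S j = pt w s p + pt w s q

lemma has_one : Has 1 1 1 := by
  refine ⟨fun _ => 0, fun _ => 0, fun _ => 0, fun _ => 0, 0, {0}, ⟨fun j hj => by omega,
    fun j hj => by omega⟩, ⟨fun j hj => by omega, fun j hj => by omega⟩, by simp, ?_⟩
  intro j hj
  refine ⟨0, 0, by omega, by omega, fun _ => by rw [mem_singleton]; omega, ?_⟩
  have : j = 0 := by omega
  rw [this, pt_zero]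
  simp

lemma has_two : Has 2 2 2 := by
  refine ⟨fun _ => 1, fun _ => 0, fun _ => 2, fun _ => 0, 1, range 2, ⟨fun j hj => by norm_num,
    fun j hj => by omega⟩, ⟨fun j hj => by norm_num, fun j hj => by omega⟩, by simp, ?_⟩
  intro j hj
  rcases Nat.lt_or_ge j 1 with h | h
  · refine ⟨0, 0, by omega, by omega, fun _ => mem_range.2 hj, ?_⟩
    have : j = 0 := by omega
    rw [this, pt_zero, pt_zero]
    simp
  · refine ⟨1, 1, by omega, by omega, fun _ => mem_range.2 hj, ?_⟩
    have : j = 1 := by omega
    rw [this]
    have e1 := pt_succ (fun _ => (2 : ℝ)) (fun _ => 0) 0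
    have e2 := pt_succ (fun _ => (1 : ℝ)) (fun _ => 0) 0
    rw [Nat.zero_add] at e1 e2
    rw [e1, e2, pt_zero, pt_zero]
    ext <;> norm_num

section step

variable (M c X Y : ℝ) (k : ℕ) (w s W S : ℕ → ℝ)

noncomputable def uu (j : ℕ) : ℝ := if j = 0 then M else w (j - 1)

noncomputable def vv (j : ℕ) : ℝ := if j = 0 then c else s (j - 1)

noncomputable def tau (j : ℕ) : ℝ := c + ((k : ℝ) - j) / (k + 1)

noncomputable def sig (j : ℕ) : ℝ := c + 2 + ((k : ℝ) - j)

noncomputable def zz (j : ℕ) : ℝ :=
  uu M w j * (tau c k j - vv c s j) / (sig c k j - tau c k j)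

noncomputable def w1 (j : ℕ) : ℝ := if j < k then zz M c k w s j else uu M w (j - k)

noncomputable def s1 (j : ℕ) : ℝ := if j < k then sig c k j else vv c s (j - k)

noncomputable def W1 (j : ℕ) : ℝ :=
  if j < k then zz M c k w s j else if j < 2 * k then zz M c k w s (j - k) + uu M w (j - k)
  else if j = 2 * k then M - X else W (j - (2 * k + 1))

noncomputable def S1 (j : ℕ) : ℝ :=
  if j < k then sig c k j else if j < 2 * k then tau c k (j - k)
  else if j = 2 * k then (c * M - Y) / (M - X) else S (j - (2 * k + 1))

end step

lemma tau_gt {c : ℝ} {k j : ℕ} (h : j < k) : c < tau c k j := by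
  unfold tau
  have h1 : (j : ℝ) < k := by exact_mod_cast h
  have h2 : (0 : ℝ) < ((k : ℝ) - j) / (k + 1) := div_pos (by linarith) (by positivity)
  linarith

lemma tau_lt {c : ℝ} {k j : ℕ} : tau c k j < c + 1 := by
  unfold tau
  have h2 : ((k : ℝ) - j) / (k + 1) < 1 := by
    rw [div_lt_one (by positivity)]
    have : (0 : ℝ) ≤ j := Nat.cast_nonneg j
    linarith
  linarith

lemma tau_anti {c : ℝ} {k j : ℕ} : tau c k (j + 1) < tau c k j := by
  unfold tau
  have h2 : ((k : ℝ) - (j + 1 : ℕ)) / (k + 1) < ((k : ℝ) - j) / (k + 1) := by
    apply div_lt_div_of_pos_right _ (by positivity)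
    push_cast
    linarith
  linarith

lemma sig_gt {c : ℝ} {k j : ℕ} (h : j < k) : c + 3 ≤ sig c k j := by
  unfold sig
  have h1 : ((j + 1 : ℕ) : ℝ) ≤ k := by exact_mod_cast h
  push_cast at h1
  linarith

lemma has_step {r N k ℓ : ℕ} (hk : 1 ≤ k) (hkr : k ≤ r) (h : Has r N ℓ) :
    Has (k + 1 + r) (2 * k + 1 + N) (ℓ + 1) := by
  obtain ⟨w, s, W, S, c, E, hg, hG, hE, hl⟩ := h
  set X : ℝ := (pt w s (k - 1)).1 with hX
  set Y : ℝ := (pt w s (k - 1)).2 with hY
  have hX0 : 0 ≤ X := by
    have e : X = ∑ j ∈ range (k - 1), w j := rfl
    rw [e]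
    refine sum_nonneg fun j hj => (hg.1 j ?_).1.le
    have := mem_range.1 hj
    omega
  have hV0 : 0 ≤ c * X - Y := by
    have e : c * X - Y = ∑ j ∈ range (k - 1), w j * (c - s j) := by
      rw [hX, hY]
      unfold pt
      simp only
      rw [mul_sum, ← sum_sub_distrib]
      exact sum_congr rfl fun j _ => by ring
    rw [e]
    refine sum_nonneg fun j hj => ?_
    have h1 := mem_range.1 hj
    have h2 := hg.1 j (by omega)
    exact (mul_pos h2.1 (sub_pos.2 h2.2)).le
  have hkp : (0 : ℝ) < (k : ℝ) + 1 := by positivity
  set M : ℝ := X + ((k : ℝ) + 1) * (c * X - Y) + 1 with hM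
  have hMX : 0 < M - X := by
    rw [hM]
    have := mul_nonneg hkp.le hV0
    linarith
  have hM0 : 0 < M := by linarith
  -- the slope of the long step
  have hC : (c * M - Y) / (M - X) = c + (c * X - Y) / (M - X) := by
    field_simp
    ring
  have hC1 : c ≤ (c * M - Y) / (M - X) := by
    rw [hC]
    have := div_nonneg hV0 hMX.le
    linarith
  have hC2 : (c * M - Y) / (M - X) < tau c k (k - 1) := by
    rw [hC]
    unfold tau
    have e1 : ((k - 1 : ℕ) : ℝ) = (k : ℝ) - 1 := by
      rw [Nat.cast_sub hk, Nat.cast_one]
    rw [e1]
    have e2 : (c * X - Y) / (M - X) < ((k : ℝ) - (k - 1)) / (k + 1) := by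
      rw [div_lt_div_iff₀ hMX hkp, hM]
      ring_nf
      linarith
    linarith
  -- positivity
  have hu : ∀ j, j ≤ r → j + 1 ≤ r ∨ j = 0 → 0 < uu M w j := by
    intro j hj hj'
    unfold uu
    split_ifs with h0
    · exact hM0
    · exact (hg.1 (j - 1) (by omega)).1
  have hv : ∀ j, j < r ∨ j = 0 → vv c s j ≤ c := by
    intro j hj
    unfold vv
    split_ifs with h0
    · exact le_rfl
    · exact (hg.1 (j - 1) (by omega)).2.le
  have hz : ∀ j, j < k → 0 < zz M c k w s j := by
    intro j hj
    unfold zz
    have h1 := tau_gt (c := c) hj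
    have h2 := hv j (by omega)
    have h3 := tau_lt (c := c) (k := k) (j := j)
    have h4 := sig_gt (c := c) hj
    exact div_pos (mul_pos (hu j (by omega) (by omega)) (by linarith)) (by linarith)
  refine ⟨w1 M c k w s, s1 c k s, W1 M c X k w s W, S1 M c X Y k S, c + k + 3,
    insert 0 (E.image (· + (2 * k + 1))), ?_, ?_,
    (card_insert_le _ _).trans (Nat.succ_le_succ (card_image_le.trans hE)), ?_⟩
  · -- the new chain is good
    refine ⟨fun j hj => ?_, fun j hj => ?_⟩
    · rcases Nat.lt_or_ge j k with h1 | h1
      · have e1 : w1 M c k w s j = zz M c k w s j := if_pos h1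
        have e2 : s1 c k s j = sig c k j := if_pos h1
        rw [e1, e2]
        refine ⟨hz j h1, ?_⟩
        unfold sig
        have : (0 : ℝ) ≤ j := Nat.cast_nonneg j
        linarith
      · have e1 : w1 M c k w s j = uu M w (j - k) := if_neg (by omega)
        have e2 : s1 c k s j = vv c s (j - k) := if_neg (by omega)
        rw [e1, e2]
        refine ⟨hu _ (by omega) (by omega), ?_⟩
        have h2 := hv (j - k) (by omega)
        linarith
    · rcases Nat.lt_or_ge (j + 1) k with h1 | h1
      · have e1 : s1 c k s (j + 1) = sig c k (j + 1) := if_pos h1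
        have e2 : s1 c k s j = sig c k j := if_pos (by omega)
        rw [e1, e2]
        unfold sig
        push_cast
        linarith
      · rcases Nat.eq_or_lt_of_le h1 with h2 | h2
        · have e1 : s1 c k s (j + 1) = vv c s (j + 1 - k) := if_neg (by omega)
          have e2 : s1 c k s j = sig c k j := if_pos (by omega)
          rw [e1, e2]
          have h3 := hv (j + 1 - k) (by omega)
          have h4 := sig_gt (c := c) (k := k) (j := j) (by omega)
          linarith
        · have e1 : s1 c k s (j + 1) = vv c s (j + 1 - k) := if_neg (by omega)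
          have e2 : s1 c k s j = vv c s (j - k) := if_neg (by omega)
          rw [e1, e2]
          unfold vv
          rw [if_neg (by omega)]
          split_ifs with h3
          · exact (hg.1 _ (by omega)).2
          · have h4 := hg.2 (j - k - 1) (by omega)
            rwa [show j - k - 1 + 1 = j + 1 - k - 1 by omega] at h4
  · -- the new chain of sums is good
    refine ⟨fun j hj => ?_, fun j hj => ?_⟩
    · rcases Nat.lt_or_ge j k with h1 | h1
      · have e1 : W1 M c X k w s W j = zz M c k w s j := if_pos h1
        have e2 : S1 M c X Y k S j = sig c k j := if_pos h1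
        rw [e1, e2]
        refine ⟨hz j h1, ?_⟩
        unfold sig
        have : (0 : ℝ) ≤ j := Nat.cast_nonneg j
        linarith
      · rcases Nat.lt_or_ge j (2 * k) with h2 | h2
        · have e1 : W1 M c X k w s W j = zz M c k w s (j - k) + uu M w (j - k) := by
            unfold W1
            rw [if_neg (by omega), if_pos h2]
          have e2 : S1 M c X Y k S j = tau c k (j - k) := by
            unfold S1
            rw [if_neg (by omega), if_pos h2]
          rw [e1, e2]
          refine ⟨add_pos (hz _ (by omega)) (hu _ (by omega) (by omega)), ?_⟩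
          have := tau_lt (c := c) (k := k) (j := j - k)
          linarith
        · rcases Nat.eq_or_lt_of_le h2 with h3 | h3
          · have e1 : W1 M c X k w s W j = M - X := by
              unfold W1
              rw [if_neg (by omega), if_neg (by omega), if_pos h3.symm]
            have e2 : S1 M c X Y k S j = (c * M - Y) / (M - X) := by
              unfold S1
              rw [if_neg (by omega), if_neg (by omega), if_pos h3.symm]
            rw [e1, e2]
            refine ⟨hMX, ?_⟩
            have := tau_lt (c := c) (k := k) (j := k - 1)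
            linarith
          · have e1 : W1 M c X k w s W j = W (j - (2 * k + 1)) := by
              unfold W1
              rw [if_neg (by omega), if_neg (by omega), if_neg (by omega)]
            have e2 : S1 M c X Y k S j = S (j - (2 * k + 1)) := by
              unfold S1
              rw [if_neg (by omega), if_neg (by omega), if_neg (by omega)]
            rw [e1, e2]
            have h4 := hG.1 (j - (2 * k + 1)) (by omega)
            exact ⟨h4.1, by linarith [h4.2]⟩
    · rcases Nat.lt_or_ge (j + 1) k with h1 | h1
      · have e1 : S1 M c X Y k S (j + 1) = sig c k (j + 1) := if_pos h1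
        have e2 : S1 M c X Y k S j = sig c k j := if_pos (by omega)
        rw [e1, e2]
        unfold sig
        push_cast
        linarith
      · rcases Nat.eq_or_lt_of_le h1 with h2 | h2
        · have e1 : S1 M c X Y k S (j + 1) = tau c k (j + 1 - k) := by
            unfold S1
            rw [if_neg (by omega), if_pos (by omega)]
          have e2 : S1 M c X Y k S j = sig c k j := if_pos (by omega)
          rw [e1, e2]
          have h3 := tau_lt (c := c) (k := k) (j := j + 1 - k)
          have h4 := sig_gt (c := c) (k := k) (j := j) (by omega)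
          linarith
        · rcases Nat.lt_or_ge (j + 1) (2 * k) with h3 | h3
          · have e1 : S1 M c X Y k S (j + 1) = tau c k (j + 1 - k) := by
              unfold S1
              rw [if_neg (by omega), if_pos (by omega)]
            have e2 : S1 M c X Y k S j = tau c k (j - k) := by
              unfold S1
              rw [if_neg (by omega), if_pos (by omega)]
            rw [e1, e2, show j + 1 - k = j - k + 1 by omega]
            exact tau_anti
          · rcases Nat.eq_or_lt_of_le h3 with h4 | h4
            · have e1 : S1 M c X Y k S (j + 1) = (c * M - Y) / (M - X) := by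
                unfold S1
                rw [if_neg (by omega), if_neg (by omega), if_pos h4.symm]
              have e2 : S1 M c X Y k S j = tau c k (j - k) := by
                unfold S1
                rw [if_neg (by omega), if_pos (by omega)]
              rw [e1, e2, show j - k = k - 1 by omega]
              exact hC2
            · have e1 : S1 M c X Y k S (j + 1) = S (j + 1 - (2 * k + 1)) := by
                unfold S1
                rw [if_neg (by omega), if_neg (by omega), if_neg (by omega)]
              rw [e1]
              rcases Nat.eq_or_lt_of_le (show 2 * k ≤ j by omega) with h5 | h5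
              · have e2 : S1 M c X Y k S j = (c * M - Y) / (M - X) := by
                  unfold S1
                  rw [if_neg (by omega), if_neg (by omega), if_pos h5.symm]
                rw [e2]
                exact lt_of_lt_of_le (hG.1 _ (by omega)).2 hC1
              · have e2 : S1 M c X Y k S j = S (j - (2 * k + 1)) := by
                  unfold S1
                  rw [if_neg (by omega), if_neg (by omega), if_neg (by omega)]
                rw [e2]
                have h6 := hG.2 (j - (2 * k + 1)) (by omega)
                rwa [show j - (2 * k + 1) + 1 = j + 1 - (2 * k + 1) by omega] at h6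
  · -- the sums
    set a : ℕ → ℝ × ℝ := pt (w1 M c k w s) (s1 c k s) with ha
    set P : ℕ → ℝ × ℝ := pt (W1 M c X k w s W) (S1 M c X Y k S) with hP
    have ha0 : a 0 = 0 := pt_zero _ _
    have ha1 : a (k + 1) = a k + (M, M * c) := by
      rw [ha, pt_succ]
      have e1 : w1 M c k w s k = M := by
        unfold w1 uu
        rw [if_neg (lt_irrefl _), Nat.sub_self, if_pos rfl]
      have e2 : s1 c k s k = c := by
        unfold s1 vv
        rw [if_neg (lt_irrefl _), Nat.sub_self, if_pos rfl]
      rw [e1, e2]
    have ha2 : ∀ i, a (k + 1 + i) = a (k + 1) + pt w s i := by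
      intro i
      rw [ha, pt_add]
      congr 1
      refine pt_congr fun t _ => ⟨?_, ?_⟩
      · unfold w1 uu
        rw [if_neg (by omega), if_neg (by omega)]
        congr 1
        omega
      · unfold s1 vv
        rw [if_neg (by omega), if_neg (by omega)]
        congr 1
        omega
    have hP1 : ∀ i, i ≤ k → P i = a i := by
      intro i hi
      rw [ha, hP]
      refine pt_congr fun t ht => ⟨?_, ?_⟩
      · unfold W1 w1
        rw [if_pos (by omega), if_pos (by omega)]
      · unfold S1 s1
        rw [if_pos (by omega), if_pos (by omega)]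
    have hP2 : ∀ i, i ≤ k → P (k + i) = a i + a (k + i) := by
      intro i
      induction i with
      | zero =>
        intro _
        rw [ha0, Nat.add_zero, zero_add, hP1 k le_rfl]
      | succ i ih =>
        intro hi
        have h1 := ih (by omega)
        have e1 : P (k + (i + 1)) = P (k + i) + (zz M c k w s i + uu M w i,
            (zz M c k w s i + uu M w i) * tau c k i) := by
          rw [← add_assoc, hP, pt_succ]
          have e3 : W1 M c X k w s W (k + i) = zz M c k w s i + uu M w i := by
            unfold W1
            rw [if_neg (by omega), if_pos (by omega), Nat.add_sub_cancel_left]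
          have e4 : S1 M c X Y k S (k + i) = tau c k i := by
            unfold S1
            rw [if_neg (by omega), if_pos (by omega), Nat.add_sub_cancel_left]
          rw [e3, e4]
        have e2 : a (i + 1) = a i + (zz M c k w s i, zz M c k w s i * sig c k i) := by
          rw [ha, pt_succ]
          have e3 : w1 M c k w s i = zz M c k w s i := if_pos (by omega)
          have e4 : s1 c k s i = sig c k i := if_pos (by omega)
          rw [e3, e4]
        have e5 : a (k + (i + 1)) = a (k + i) + (uu M w i, uu M w i * vv c s i) := by
          rw [← add_assoc, ha, pt_succ]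
          have e3 : w1 M c k w s (k + i) = uu M w i := by
            unfold w1
            rw [if_neg (by omega), Nat.add_sub_cancel_left]
          have e4 : s1 c k s (k + i) = vv c s i := by
            unfold s1
            rw [if_neg (by omega), Nat.add_sub_cancel_left]
          rw [e3, e4]
        have e6 : zz M c k w s i * (sig c k i - tau c k i) =
            uu M w i * (tau c k i - vv c s i) := by
          unfold zz
          have h3 := tau_lt (c := c) (k := k) (j := i)
          have h4 := sig_gt (c := c) (k := k) (j := i) (by omega)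
          rw [div_mul_cancel₀]
          intro h0
          linarith
        rw [e1, e2, e5, h1]
        refine Prod.ext ?_ ?_
        · simp only [Prod.fst_add]
          ring
        · simp only [Prod.snd_add]
          linear_combination -e6
    have hP3 : P (2 * k + 1) = a (k + 1) + a (k + 1) := by
      have e1 : P (2 * k + 1) = P (k + k) + (M - X, c * M - Y) := by
        rw [hP, pt_succ]
        have e3 : W1 M c X k w s W (2 * k) = M - X := by
          unfold W1
          rw [if_neg (by omega), if_neg (by omega), if_pos rfl]
        have e4 : S1 M c X Y k S (2 * k) = (c * M - Y) / (M - X) := by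
          unfold S1
          rw [if_neg (by omega), if_neg (by omega), if_pos rfl]
        rw [e3, e4, mul_div_cancel₀ _ hMX.ne', two_mul]
      have e2 : a (k + k) = a (k + 1) + (X, Y) := by
        have := ha2 (k - 1)
        rw [show k + 1 + (k - 1) = k + k by omega] at this
        rw [this]
      rw [e1, hP2 k le_rfl, e2]
      have e5 : a k = a (k + 1) - (M, M * c) := by
        rw [ha1]
        exact (add_sub_cancel_right _ _).symm
      rw [e5]
      refine Prod.ext ?_ ?_
      · simp only [Prod.fst_add, Prod.fst_sub]
        ring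
      · simp only [Prod.snd_add, Prod.snd_sub]
        ring
    have hP4 : ∀ i, P (2 * k + 1 + i) = P (2 * k + 1) + pt W S i := by
      intro i
      rw [hP, pt_add]
      congr 1
      refine pt_congr fun t _ => ⟨?_, ?_⟩
      · unfold W1
        rw [if_neg (by omega), if_neg (by omega), if_neg (by omega), Nat.add_sub_cancel_left]
      · unfold S1
        rw [if_neg (by omega), if_neg (by omega), if_neg (by omega), Nat.add_sub_cancel_left]
    intro j hj
    rcases Nat.lt_or_ge j k with h1 | h1
    · exact ⟨0, j, by omega, by omega, fun h => by rw [← h]; exact mem_insert_self _ _,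
        by rw [ha0, zero_add]; exact hP1 j h1.le⟩
    · rcases Nat.lt_or_ge j (2 * k + 1) with h2 | h2
      · refine ⟨j - k, j, by omega, by omega, fun h => by omega, ?_⟩
        have := hP2 (j - k) (by omega)
        rwa [show k + (j - k) = j by omega] at this
      · obtain ⟨p, q, hp, hq, hpqE, hpq⟩ := hl (j - (2 * k + 1)) (by omega)
        refine ⟨k + 1 + p, k + 1 + q, by omega, by omega, fun h => ?_, ?_⟩
        · exact mem_insert_of_mem (mem_image.2 ⟨j - (2 * k + 1), hpqE (by omega), by omega⟩)
        have := hP4 (j - (2 * k + 1))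
        rw [show 2 * k + 1 + (j - (2 * k + 1)) = j by omega] at this
        rw [this, hP3, hpq, ha2, ha2]
        abel

/-- For every `n ≥ 1` there are chains with `n` points and `2n - ⌊log₂ n⌋ - 1` points of sums. -/
lemma has_all : ∀ n : ℕ, 1 ≤ n → Has n (2 * n - Nat.log 2 n - 1) (Nat.log 2 n + 1) := by
  intro n
  induction n using Nat.strong_induction_on with
  | _ n ih =>
    intro hn
    rcases Nat.lt_or_ge n 2 with h1 | h1
    · have : n = 1 := by omega
      subst this
      simpa using has_one
    rcases Nat.lt_or_ge n 3 with h2 | h2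
    · have : n = 2 := by omega
      subst this
      have e : Nat.log 2 2 = 1 := by norm_num
      rw [e]
      exact has_two
    · obtain ⟨k, hk⟩ : ∃ k, k = (n - 1) / 2 := ⟨_, rfl⟩
      have hk1 : 1 ≤ k := by omega
      have h3 := ih (n - k - 1) (by omega) (by omega)
      have h4 := has_step hk1 (show k ≤ n - k - 1 by omega) h3
      have e1 : k + 1 + (n - k - 1) = n := by omega
      rw [e1] at h4
      have e2 : Nat.log 2 n = Nat.log 2 (n - k - 1) + 1 := by
        have h5 : n - k - 1 = n / 2 := by omega
        rw [h5, Nat.log_div_base]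
        have h6 : 1 ≤ Nat.log 2 n := Nat.log_pos (by norm_num) (by omega)
        omega
      have e3 : Nat.log 2 n ≤ n - 1 := by
        have := Nat.log_lt_of_lt_pow (b := 2) (x := n) (y := n) (by omega) (Nat.lt_two_pow_self)
        omega
      have e4 : 2 * k + 1 + (2 * (n - k - 1) - Nat.log 2 (n - k - 1) - 1) =
          2 * n - Nat.log 2 n - 1 := by
        omega
      rwa [e4, ← e2] at h4

end Pool.Agent.V11211.CI
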