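import Pool.Agent.V11211.CI

/-!
# Convexly independent subsets of `A + A`: an upper chain and a lower chain

A chain `B` of `b` points with a long chain in `B + B` is completed by points `x` far below it. Each
new point `x` gives the two sums `x + u`, `x + v` for a chord `uv` of `B`; the chords belonging to
different points have different slopes.
-/

set_option autoImplicit false

namespace Pool.Agent.V11211.CI

open Finset Filter Topology

/-- every point of the family is the unique highest one for some slope -/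
def Up {ι : Type} (f : ι → ℝ × ℝ) : Prop :=
  ∀ i, ∃ θ : ℝ, ∀ j, j ≠ i → ht θ (f j) < ht θ (f i)

/-- every point of the family is the unique lowest one for some slope -/
def Dn {ι : Type} (f : ι → ℝ × ℝ) : Prop :=
  ∀ i, ∃ θ : ℝ, ∀ j, j ≠ i → ht θ (f i) < ht θ (f j)

/-- every point of the family is the unique maximum of a linear form -/
def Ex {ι : Type} (f : ι → ℝ × ℝ) : Prop :=
  ∀ i, ∃ l : ℝ × ℝ → ℝ, IsLinearMap ℝ l ∧ ∀ j, j ≠ i → l (f j) < l (f i)

lemma Ex.inj {ι : Type} {f : ι → ℝ × ℝ} (h : Ex f) : Function.Injective f := by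
  intro i j hij
  by_contra hne
  obtain ⟨l, -, hl⟩ := h i
  have := hl j (Ne.symm hne)
  rw [hij] at this
  exact lt_irrefl _ this

lemma Ex.indep {ι : Type} [Fintype ι] {f : ι → ℝ × ℝ} (h : Ex f) :
    ConvIndep (univ.image f) := by
  intro x hx hmem
  rw [mem_image] at hx
  obtain ⟨i, -, rfl⟩ := hx
  obtain ⟨l, hlin, hl⟩ := h i
  have h1 : (((univ.image f : Finset (ℝ × ℝ)) : Set (ℝ × ℝ)) \ {f i}) ⊆
      {y | l y < l (f i)} := by
    rintro y ⟨hy, hne⟩
    rw [mem_coe, mem_image] at hy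
    obtain ⟨j, -, rfl⟩ := hy
    refine hl j ?_
    rintro rfl
    exact hne rfl
  have h2 := convexHull_min h1 (convex_halfSpace_lt hlin _) hmem
  exact absurd h2 (lt_irrefl (l (f i)))

lemma Ex.card {ι : Type} [Fintype ι] {f : ι → ℝ × ℝ} (h : Ex f) :
    (univ.image f).card = Fintype.card ι := by
  rw [card_image_of_injective _ h.inj, card_univ]

lemma ht_sub (θ H : ℝ) (p : ℝ × ℝ) : ht θ (p - (0, H)) = ht θ p - H := by
  unfold ht
  simp only [Prod.fst_sub, Prod.snd_sub]
  ring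

lemma ht_add (θ : ℝ) (p q : ℝ × ℝ) : ht θ (p + q) = ht θ p + ht θ q := (ht_lin θ).map_add p q

lemma ht_neg_lin (θ : ℝ) : IsLinearMap ℝ (fun p => - ht θ p) := by
  constructor
  · intro x y
    rw [(ht_lin θ).map_add]
    ring
  · intro c x
    rw [(ht_lin θ).map_smul]
    simp only [smul_eq_mul]
    ring

/-- an upper chain and a lower chain far below it are together in convex position -/
lemma ex_sum {ι κ : Type} [Finite ι] [Finite κ] {f : ι → ℝ × ℝ} {h : κ → ℝ × ℝ}
    (hf : Up f) (hh : Dn h) :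
    ∀ᶠ H : ℝ in atTop, Ex (Sum.elim f fun k => h k - (0, H)) := by
  unfold Ex
  rw [eventually_all]
  rintro (i | k)
  · obtain ⟨θ, hθ⟩ := hf i
    have h1 : ∀ᶠ H : ℝ in atTop, ∀ k, ht θ (h k) - ht θ (f i) < H :=
      eventually_all.2 fun k => eventually_gt_atTop _
    refine h1.mono fun H hH => ⟨ht θ, ht_lin θ, ?_⟩
    rintro (j | k) hj
    · exact hθ j fun e => hj (by rw [e])
    · simp only [Sum.elim_inr, Sum.elim_inl, ht_sub]
      linarith [hH k]
  · obtain ⟨θ, hθ⟩ := hh k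
    have h1 : ∀ᶠ H : ℝ in atTop, ∀ i, ht θ (h k) - ht θ (f i) < H :=
      eventually_all.2 fun i => eventually_gt_atTop _
    refine h1.mono fun H hH => ⟨fun p => - ht θ p, ht_neg_lin θ, ?_⟩
    rintro (i | j) hj
    · simp only [Sum.elim_inr, Sum.elim_inl, ht_sub]
      linarith [hH i]
    · simp only [Sum.elim_inr, ht_sub]
      linarith [hθ j fun e => hj (by rw [e])]

/-! ### Generic slopes -/

lemma up_ev {ι : Type} [Finite ι] {F : ℝ → ι → ℝ × ℝ} (hc : ∀ i, Continuous fun t => F t i)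
    (h0 : Up (F 0)) : ∀ᶠ t in 𝓝 (0 : ℝ), Up (F t) := by
  unfold Up
  rw [eventually_all]
  intro i
  obtain ⟨θ, hθ⟩ := h0 i
  have h1 : ∀ᶠ t in 𝓝 (0 : ℝ), ∀ j, j ≠ i → ht θ (F t j) < ht θ (F t i) := by
    rw [eventually_all]
    intro j
    by_cases hj : j = i
    · exact Eventually.of_forall fun t h => absurd hj h
    · have h2 : ∀ᶠ t in 𝓝 (0 : ℝ), ht θ (F t j) < ht θ (F t i) := by
        have c : ∀ j, Continuous fun t => ht θ (F t j) := fun j => by
          unfold ht
          exact ((hc j).snd).sub (continuous_const.mul (hc j).fst)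
        exact (c j).continuousAt.eventually_lt (c i).continuousAt (hθ j hj)
      exact h2.mono fun t ht _ => ht
  exact h1.mono fun t ht => ⟨θ, ht⟩

lemma poly_ev {P : Polynomial ℝ} (hP : P ≠ 0) : ∀ᶠ t in 𝓝[>] (0 : ℝ), P.eval t ≠ 0 := by
  have hfin : ({t : ℝ | P.IsRoot t} \ {0}).Finite :=
    (Polynomial.finite_setOfPred_isRoot hP).subset Set.sdiff_subset
  have h1 : ({t : ℝ | P.IsRoot t} \ {0})ᶜ ∈ 𝓝 (0 : ℝ) :=
    hfin.isClosed.isOpen_compl.mem_nhds (by simp)
  filter_upwards [mem_nhdsWithin_of_mem_nhds h1, self_mem_nhdsWithin] with t ht ht0 he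
  exact ht ⟨he, ne_of_gt ht0⟩

/-- the perturbed points -/
noncomputable def pert {b : ℕ} (f : Fin b → ℝ × ℝ) (t : ℝ) (i : Fin b) : ℝ × ℝ :=
  ((f i).1, (f i).2 + t ^ ((i : ℕ) + 1))

lemma pert_zero {b : ℕ} (f : Fin b → ℝ × ℝ) (i : Fin b) : pert f 0 i = f i := by
  unfold pert
  ext <;> simp

lemma pert_cont {b : ℕ} (f : Fin b → ℝ × ℝ) (i : Fin b) : Continuous fun t => pert f t i := by
  unfold pert
  fun_prop

open Polynomial in
lemma slopes_ne {b : ℕ} {f : Fin b → ℝ × ℝ} (hx : Function.Injective fun i => (f i).1)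
    {i j k l : Fin b} (hij : i < j) (hkl : k < l) (hne : ¬ (i = k ∧ j = l)) :
    ∀ᶠ t in 𝓝[>] (0 : ℝ), ((pert f t j).2 - (pert f t i).2) * ((f l).1 - (f k).1) -
      ((pert f t l).2 - (pert f t k).2) * ((f j).1 - (f i).1) ≠ 0 := by
  have hA : (f l).1 - (f k).1 ≠ 0 := sub_ne_zero.2 (hx.ne (ne_of_gt hkl))
  have hB : (f j).1 - (f i).1 ≠ 0 := sub_ne_zero.2 (hx.ne (ne_of_gt hij))
  obtain ⟨P, hPe⟩ : ∃ P : ℝ[X], P =
      C (((f j).2 - (f i).2) * ((f l).1 - (f k).1) - ((f l).2 - (f k).2) * ((f j).1 - (f i).1)) +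
      C ((f l).1 - (f k).1) * (X ^ ((j : ℕ) + 1) - X ^ ((i : ℕ) + 1)) -
      C ((f j).1 - (f i).1) * (X ^ ((l : ℕ) + 1) - X ^ ((k : ℕ) + 1)) := ⟨_, rfl⟩
  have hij' : (i : ℕ) < j := hij
  have hkl' : (k : ℕ) < l := hkl
  have hne' : ¬ ((i : ℕ) = k ∧ (j : ℕ) = l) := fun h => hne ⟨Fin.ext h.1, Fin.ext h.2⟩
  have hcoef : ∀ m : ℕ, P.coeff (m + 1) = ((f l).1 - (f k).1) *
      ((if m = (j : ℕ) then 1 else 0) - (if m = (i : ℕ) then 1 else 0)) -
      ((f j).1 - (f i).1) *
      ((if m = (l : ℕ) then 1 else 0) - (if m = (k : ℕ) then 1 else 0)) := by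
    intro m
    rw [hPe, coeff_sub, coeff_add, coeff_C_succ, coeff_C_mul, coeff_C_mul, coeff_sub, coeff_sub,
      coeff_X_pow, coeff_X_pow, coeff_X_pow, coeff_X_pow]
    simp only [add_left_inj, zero_add]
  have hP : P ≠ 0 := by
    intro h0
    by_cases h1 : (j : ℕ) = k ∨ (j : ℕ) = l
    · have h2 := hcoef i
      rw [h0, coeff_zero, if_neg (by omega), if_pos rfl, if_neg (by omega), if_neg (by omega)] at h2
      apply hA
      linarith
    · have h2 := hcoef j
      rw [h0, coeff_zero, if_pos rfl, if_neg (by omega), if_neg (by omega), if_neg (by omega)] at h2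
      apply hA
      linarith
  refine (poly_ev hP).mono fun t ht he => ht ?_
  rw [← he, hPe]
  unfold pert
  simp only [eval_sub, eval_add, eval_mul, eval_C, eval_pow, eval_X]
  ring

lemma pt_fst_lt {n : ℕ} {w s : ℕ → ℝ} {c : ℝ} (h : Good n w s c) {i j : ℕ} (hij : i < j)
    (hj : j < n) : (pt w s i).1 < (pt w s j).1 := by
  obtain ⟨d, rfl⟩ : ∃ d, j = i + 1 + d := ⟨j - (i + 1), by omega⟩
  clear hij
  induction d with
  | zero =>
    rw [Nat.add_zero, pt_succ, Prod.fst_add]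
    linarith [(h.1 i (by omega)).1]
  | succ d ih =>
    have h1 := ih (by omega)
    rw [show i + 1 + (d + 1) = i + 1 + d + 1 by ring, pt_succ, Prod.fst_add]
    linarith [(h.1 (i + 1 + d) (by omega)).1]

lemma exists_generic {b N ℓ : ℕ} (h : Has b N ℓ) :
    ∃ (f : Fin b → ℝ × ℝ) (p q : Fin N → Fin b) (E : Finset (Fin N)), E.card ≤ ℓ ∧
      (∀ n, p n = q n → n ∈ E) ∧ (∀ i j, i < j → (f i).1 < (f j).1) ∧ Up f ∧
      Up (fun n => f (p n) + f (q n)) ∧
      ∀ i j k l, i < j → k < l → ¬ (i = k ∧ j = l) →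
        ((f j).2 - (f i).2) * ((f l).1 - (f k).1) -
          ((f l).2 - (f k).2) * ((f j).1 - (f i).1) ≠ 0 := by
  obtain ⟨w, s, W, S, c, E, hg, hG, hE, hl⟩ := h
  have hl' : ∀ j : Fin N, ∃ p q : Fin b, (p = q → (j : ℕ) ∈ E) ∧
      pt W S j = pt w s p + pt w s q := fun j => by
    obtain ⟨p, q, hp, hq, hd, e⟩ := hl j j.2
    exact ⟨⟨p, hp⟩, ⟨q, hq⟩, fun h => hd (congrArg Fin.val h), e⟩
  choose p q hd hpq using hl'
  obtain ⟨f, hf⟩ : ∃ f : Fin b → ℝ × ℝ, f = fun i : Fin b => pt w s (i : ℕ) := ⟨_, rfl⟩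
  have hfx : ∀ i j : Fin b, i < j → (f i).1 < (f j).1 := fun i j hij => by
    rw [hf]
    exact pt_fst_lt hg hij j.2
  have hinj : Function.Injective fun i => (f i).1 := by
    intro i j hij
    by_contra hne
    rcases lt_or_gt_of_ne hne with h1 | h1
    · exact absurd hij (hfx i j h1).ne
    · exact absurd hij (hfx j i h1).ne'
  have hUp : Up f := fun i => by
    obtain ⟨θ, hθ⟩ := exists_slope hg i.2
    refine ⟨θ, fun j hj => ?_⟩
    rw [hf]
    exact hθ j j.2 fun e => hj (Fin.ext e)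
  have hUp2 : Up fun n => f (p n) + f (q n) := fun i => by
    obtain ⟨θ, hθ⟩ := exists_slope hG i.2
    refine ⟨θ, fun j hj => ?_⟩
    rw [hf]
    simp only
    rw [← hpq, ← hpq]
    exact hθ j j.2 fun e => hj (Fin.ext e)
  have e1 : ∀ᶠ t in 𝓝[>] (0 : ℝ), Up (pert f t) := by
    refine (up_ev (pert_cont f) ?_).filter_mono nhdsWithin_le_nhds
    have : pert f 0 = f := funext fun i => pert_zero f i
    rwa [this]
  have e2 : ∀ᶠ t in 𝓝[>] (0 : ℝ), Up (fun n => pert f t (p n) + pert f t (q n)) := by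
    refine (up_ev (F := fun t n => pert f t (p n) + pert f t (q n))
      (fun n => (pert_cont f _).add (pert_cont f _)) ?_).filter_mono nhdsWithin_le_nhds
    simp only [pert_zero]
    exact hUp2
  have e3 : ∀ᶠ t in 𝓝[>] (0 : ℝ), ∀ i j k l : Fin b, i < j → k < l → ¬ (i = k ∧ j = l) →
      ((pert f t j).2 - (pert f t i).2) * ((f l).1 - (f k).1) -
        ((pert f t l).2 - (pert f t k).2) * ((f j).1 - (f i).1) ≠ 0 := by
    simp only [eventually_all]
    intro i j k l hij hkl hne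
    exact slopes_ne hinj hij hkl hne
  obtain ⟨t, h1, h2, h3⟩ := (e1.and (e2.and e3)).exists
  refine ⟨pert f t, p, q, univ.filter fun j : Fin N => (j : ℕ) ∈ E, ?_, ?_, hfx, h1, h2, h3⟩
  · refine le_trans ?_ hE
    refine card_le_card_of_injOn (fun j : Fin N => (j : ℕ)) (fun j hj => ?_)
      (fun i _ j _ hij => Fin.ext hij)
    exact (mem_filter.1 hj).2
  · intro n hn
    rw [mem_filter]
    exact ⟨mem_univ _, hd n hn⟩

/-! ### The points below -/

lemma ev_lin {a c : ℝ} (ha : 0 < a) : ∀ᶠ L : ℝ in atTop, 0 < L * a + c := by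
  refine (eventually_gt_atTop (-c / a)).mono fun L hL => ?_
  rw [div_lt_iff₀ ha] at hL
  linarith

/-- The points `L (m, m ^ 2 / 2)` and the ends of the chords with slopes `m`, translated by
these points. -/
lemma lower {b : ℕ} {κ : Type} [Finite κ] {f : Fin b → ℝ × ℝ} {u v : κ → Fin b} {m : κ → ℝ}
    (hx : ∀ k, (f (u k)).1 < (f (v k)).1)
    (hm : ∀ k, (f (v k)).2 - (f (u k)).2 = m k * ((f (v k)).1 - (f (u k)).1))
    (hinj : Function.Injective m) :
    ∃ C : κ → ℝ × ℝ, Dn C ∧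
      Dn (Sum.elim (fun k => C k + f (u k)) (fun k => C k + f (v k))) := by
  -- the choice of `δ`
  obtain ⟨δ, hδ, hδ2⟩ : ∃ δ : ℝ, 0 < δ ∧ ∀ k k', k ≠ k' → 2 * δ < |m k - m k'| := by
    have h1 : ∀ᶠ δ in 𝓝[>] (0 : ℝ), ∀ k k', k ≠ k' → 2 * δ < |m k - m k'| := by
      simp only [eventually_all]
      intro k k' hk
      have h2 : 0 < |m k - m k'| / 2 := by
        have := abs_pos.2 (sub_ne_zero.2 (hinj.ne hk))
        linarith
      refine ((eventually_lt_nhds h2).filter_mono nhdsWithin_le_nhds).mono fun δ hδ => ?_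
      linarith
    obtain ⟨δ, h2, h3⟩ := (h1.and self_mem_nhdsWithin).exists
    exact ⟨δ, h3, h2⟩
  have hsq : ∀ k k', k ≠ k' → 0 < (m k' - m k) * (m k' - m k + 2 * δ) ∧
      0 < (m k' - m k) * (m k' - m k - 2 * δ) := by
    intro k k' hk
    have h1 := hδ2 k k' hk
    rcases lt_or_ge (m k') (m k) with h2 | h2
    · rw [abs_of_pos (by linarith)] at h1
      exact ⟨mul_pos_of_neg_of_neg (by linarith) (by linarith),
        mul_pos_of_neg_of_neg (by linarith) (by linarith)⟩
    · rw [abs_of_nonpos (by linarith)] at h1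
      exact ⟨mul_pos (by linarith) (by linarith), mul_pos (by linarith) (by linarith)⟩
  -- the points
  obtain ⟨C, hC⟩ : ∃ C : ℝ → κ → ℝ × ℝ, C = fun L k => (L * m k, L * (m k ^ 2 / 2)) := ⟨_, rfl⟩
  have hCht : ∀ θ L k k', ht θ (C L k') - ht θ (C L k) =
      L * ((m k' - m k) * (m k' + m k - 2 * θ) / 2) := by
    intro θ L k k'
    rw [hC]
    unfold ht
    ring
  have hDn : ∀ L : ℝ, 0 < L → Dn (C L) := by
    intro L hL k
    refine ⟨m k, fun k' hk' => ?_⟩
    have h1 := hCht (m k) L k k'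
    have h2 : 0 < L * ((m k' - m k) * (m k' + m k - 2 * m k) / 2) := by
      have h3 : m k' - m k ≠ 0 := sub_ne_zero.2 (hinj.ne hk')
      have h4 : (m k' - m k) * (m k' + m k - 2 * m k) / 2 = (m k' - m k) ^ 2 / 2 := by ring
      rw [h4]
      positivity
    linarith
  have hgen : ∀ (θ : ℝ) (k k' : κ) (p q : ℝ × ℝ),
      0 < (m k' - m k) * (m k' + m k - 2 * θ) →
      ∀ᶠ L in atTop, ht θ (C L k + p) < ht θ (C L k' + q) := by
    intro θ k k' p q h
    refine (ev_lin (a := (m k' - m k) * (m k' + m k - 2 * θ) / 2) (c := ht θ q - ht θ p)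
      (by linarith)).mono fun L hL => ?_
    have h1 := hCht θ L k k'
    rw [ht_add, ht_add]
    linarith
  have hD : ∀ᶠ L in atTop, Dn (Sum.elim (fun k => C L k + f (u k)) (fun k => C L k + f (v k))) := by
    unfold Dn
    rw [eventually_all]
    rintro (k | k)
    · have h1 : ∀ᶠ L in atTop, ∀ j : κ ⊕ κ, j ≠ Sum.inl k →
          ht (m k - δ) (C L k + f (u k)) <
            ht (m k - δ) ((Sum.elim (fun k => C L k + f (u k)) (fun k => C L k + f (v k))) j) := by
        rw [eventually_all]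
        rintro (k' | k')
        · by_cases hk : k' = k
          · exact Eventually.of_forall fun L h => absurd (by rw [hk]) h
          · refine (hgen (m k - δ) k k' (f (u k)) (f (u k')) ?_).mono fun L hL _ => hL
            have := (hsq k k' (Ne.symm hk)).1
            rw [show m k' + m k - 2 * (m k - δ) = m k' - m k + 2 * δ by ring]
            exact this
        · by_cases hk : k' = k
          · subst hk
            refine Eventually.of_forall fun L _ => ?_
            simp only [Sum.elim_inr, ht_add]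
            have h3 := hm k'
            have h4 := mul_pos hδ (sub_pos.2 (hx k'))
            unfold ht
            linarith
          · refine (hgen (m k - δ) k k' (f (u k)) (f (v k')) ?_).mono fun L hL _ => hL
            have := (hsq k k' (Ne.symm hk)).1
            rw [show m k' + m k - 2 * (m k - δ) = m k' - m k + 2 * δ by ring]
            exact this
      exact h1.mono fun L hL => ⟨_, hL⟩
    · have h1 : ∀ᶠ L in atTop, ∀ j : κ ⊕ κ, j ≠ Sum.inr k →
          ht (m k + δ) (C L k + f (v k)) <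
            ht (m k + δ) ((Sum.elim (fun k => C L k + f (u k)) (fun k => C L k + f (v k))) j) := by
        rw [eventually_all]
        rintro (k' | k')
        · by_cases hk : k' = k
          · subst hk
            refine Eventually.of_forall fun L _ => ?_
            simp only [Sum.elim_inl, ht_add]
            have h3 := hm k'
            have h4 := mul_pos hδ (sub_pos.2 (hx k'))
            unfold ht
            linarith
          · refine (hgen (m k + δ) k k' (f (v k)) (f (u k')) ?_).mono fun L hL _ => hL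
            have := (hsq k k' (Ne.symm hk)).2
            rw [show m k' + m k - 2 * (m k + δ) = m k' - m k - 2 * δ by ring]
            exact this
        · by_cases hk : k' = k
          · exact Eventually.of_forall fun L h => absurd (by rw [hk]) h
          · refine (hgen (m k + δ) k k' (f (v k)) (f (v k')) ?_).mono fun L hL _ => hL
            have := (hsq k k' (Ne.symm hk)).2
            rw [show m k' + m k - 2 * (m k + δ) = m k' - m k - 2 * δ by ring]
            exact this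
      exact h1.mono fun L hL => ⟨_, hL⟩
  obtain ⟨L, h1, h2⟩ := (hD.and (eventually_gt_atTop 0)).exists
  exact ⟨C L, hDn L h2, h1⟩

/-- **The construction.** -/
theorem exists_sets {b c N ℓ : ℕ} (h : Has b N ℓ) (hc : c ≤ b * (b - 1) / 2) :
    ∃ A X : Finset (ℝ × ℝ), A.card = b + c ∧ ConvIndep A ∧
      (∀ x ∈ X, ∃ a ∈ A, ∃ a' ∈ A, x = a + a') ∧ ConvIndep X ∧ X.card = N + 2 * c := by
  obtain ⟨f, p, q, -, -, -, hfx, hUp, hUp2, hgen⟩ := exists_generic h
  -- the chords
  obtain ⟨T, hT, hTc⟩ : ∃ T ⊆ (range b).sigma (fun j => range j), T.card = c := by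
    refine Finset.exists_subset_card_eq ?_
    rw [card_sigma]
    simp only [card_range]
    rw [Finset.sum_range_id]
    exact hc
  have hTm : ∀ k : T, k.1.2 < k.1.1 ∧ k.1.1 < b := fun k => by
    have := hT k.2
    rw [mem_sigma, mem_range, mem_range] at this
    exact ⟨this.2, this.1⟩
  obtain ⟨u, hu⟩ : ∃ u : T → Fin b, u = fun k => ⟨k.1.2, (hTm k).1.trans (hTm k).2⟩ := ⟨_, rfl⟩
  obtain ⟨v, hv⟩ : ∃ v : T → Fin b, v = fun k => ⟨k.1.1, (hTm k).2⟩ := ⟨_, rfl⟩
  have huv : ∀ k, u k < v k := fun k => by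
    rw [hu, hv]
    exact (hTm k).1
  have hdist : ∀ k k', k ≠ k' → ¬ (u k = u k' ∧ v k = v k') := by
    rintro k k' hk ⟨h1, h2⟩
    rw [hu] at h1
    rw [hv] at h2
    have h3 : k.1.2 = k'.1.2 := congrArg Fin.val h1
    have h4 : k.1.1 = k'.1.1 := congrArg Fin.val h2
    refine hk (Subtype.ext ?_)
    obtain ⟨⟨j, i⟩, hk1⟩ := k
    obtain ⟨⟨j', i'⟩, hk2⟩ := k'
    simp only at h3 h4
    subst h3 h4
    rfl
  have hxlt : ∀ k, (f (u k)).1 < (f (v k)).1 := fun k => hfx _ _ (huv k)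
  obtain ⟨C, hC1, hC2⟩ := lower (f := f) (u := u) (v := v)
    (m := fun k => ((f (v k)).2 - (f (u k)).2) / ((f (v k)).1 - (f (u k)).1)) hxlt
    (fun k => (div_mul_cancel₀ _ (sub_pos.2 (hxlt k)).ne').symm) (by
      intro k k' hkk
      by_contra hne
      have h1 := hgen (u k) (v k) (u k') (v k') (huv k) (huv k') (hdist k k' hne)
      simp only at hkk
      rw [div_eq_div_iff (sub_pos.2 (hxlt k)).ne' (sub_pos.2 (hxlt k')).ne'] at hkk
      exact h1 (sub_eq_zero.2 hkk))
  obtain ⟨H, hA, hX⟩ := ((ex_sum hUp hC1).and (ex_sum hUp2 hC2)).exists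
  refine ⟨_, _, (Ex.card hA).trans ?_, hA.indep, ?_, hX.indep, (Ex.card hX).trans ?_⟩
  · rw [Fintype.card_sum, Fintype.card_fin, Fintype.card_coe, hTc]
  · intro x hx
    rw [mem_image] at hx
    obtain ⟨i, -, rfl⟩ := hx
    rcases i with n | k | k
    · exact ⟨_, mem_image_of_mem _ (mem_univ (Sum.inl (p n))), _,
        mem_image_of_mem _ (mem_univ (Sum.inl (q n))), rfl⟩
    · refine ⟨_, mem_image_of_mem _ (mem_univ (Sum.inr k)), _,
        mem_image_of_mem _ (mem_univ (Sum.inl (u k))), ?_⟩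
      simp only [Sum.elim_inr, Sum.elim_inl]
      abel
    · refine ⟨_, mem_image_of_mem _ (mem_univ (Sum.inr k)), _,
        mem_image_of_mem _ (mem_univ (Sum.inl (v k))), ?_⟩
      simp only [Sum.elim_inr, Sum.elim_inl]
      abel
  · rw [Fintype.card_sum, Fintype.card_fin, Fintype.card_sum, Fintype.card_coe, hTc]
    ring

/-- For `1 ≤ n ≤ 2 ^ (k - 1) * (2 ^ k - 1)` there are sets `A` and `X` with `|A| = n` and
`|X| = 2 * n - k`. -/
theorem exists_sets' {n k : ℕ} (hk : 1 ≤ k) (hn : 1 ≤ n) (hnk : n ≤ 2 ^ (k - 1) * (2 ^ k - 1)) :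
    ∃ A X : Finset (ℝ × ℝ), A.card = n ∧ ConvIndep A ∧
      (∀ x ∈ X, ∃ a ∈ A, ∃ a' ∈ A, x = a + a') ∧ ConvIndep X ∧ 2 * n - k ≤ X.card := by
  obtain ⟨k, rfl⟩ : ∃ k', k = k' + 1 := ⟨k - 1, by omega⟩
  rw [Nat.add_sub_cancel] at hnk
  have hp : 1 ≤ 2 ^ k := Nat.one_le_two_pow
  have hp2 : 2 ^ (k + 1) = 2 * 2 ^ k := by ring
  obtain ⟨P, hP⟩ : ∃ P, P = 2 ^ k := ⟨_, rfl⟩
  rw [hp2, ← hP] at hnk
  rw [← hP] at hp
  rcases Nat.lt_or_ge n (2 * P) with h1 | h1
  · obtain ⟨A, X, h2, h3, h4, h5, h6⟩ := exists_sets (c := 0) (has_all n hn) (Nat.zero_le _)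
    refine ⟨A, X, by omega, h3, h4, h5, ?_⟩
    have h7 : Nat.log 2 n < k + 1 := Nat.log_lt_of_lt_pow (by omega) (by rw [hp2, ← hP]; exact h1)
    omega
  · have hb : 1 ≤ 2 * P - 1 := by omega
    obtain ⟨c, hc⟩ : ∃ c, n = 2 * P - 1 + c := ⟨n - (2 * P - 1), by omega⟩
    have hc2 : c ≤ (2 * P - 1) * (2 * P - 1 - 1) / 2 := by
      rw [Nat.le_div_iff_mul_le (by norm_num)]
      obtain ⟨R, rfl⟩ : ∃ R, P = R + 1 := ⟨P - 1, by omega⟩
      rw [show 2 * (R + 1) - 1 = 2 * R + 1 by omega] at hnk hc ⊢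
      rw [show 2 * R + 1 - 1 = 2 * R by omega]
      nlinarith
    obtain ⟨A, X, h2, h3, h4, h5, h6⟩ := exists_sets (has_all (2 * P - 1) hb) hc2
    refine ⟨A, X, by omega, h3, h4, h5, ?_⟩
    have h7 : Nat.log 2 (2 * P - 1) < k + 1 :=
      Nat.log_lt_of_lt_pow (by omega) (by rw [hp2, ← hP]; omega)
    omega

end Pool.Agent.V11211.CI
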