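import Pool.Agent.V11211.CI2

/-!
# Graphs drawn with vertices and edge midpoints in strictly convex position

The sets of `V11211/CI2.lean`, without the sums `a + a`, as graphs.
-/

set_option autoImplicit false

namespace Pool.Agent.V11211.CI

open Finset Filter Topology

lemma Ex.indepSet {ι : Type} {f : ι → ℝ × ℝ} (h : Ex f) :
    ∀ x ∈ Set.range f, x ∉ convexHull ℝ (Set.range f \ {x}) := by
  rintro x ⟨i, rfl⟩ hmem
  obtain ⟨l, hlin, hl⟩ := h i
  have h1 : (Set.range f \ {f i}) ⊆ {y | l y < l (f i)} := by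
    rintro y ⟨⟨j, rfl⟩, hne⟩
    refine hl j ?_
    rintro rfl
    exact hne rfl
  have h2 := convexHull_min h1 (convex_halfSpace_lt hlin _) hmem
  exact absurd h2 (lt_irrefl (l (f i)))

lemma Ex.half {ι : Type} {f : ι → ℝ × ℝ} (h : Ex f) : Ex fun i => (1 / 2 : ℝ) • f i := by
  intro i
  obtain ⟨l, hlin, hl⟩ := h i
  refine ⟨l, hlin, fun j hj => ?_⟩
  have := hl j hj
  rw [hlin.map_smul, hlin.map_smul, smul_eq_mul, smul_eq_mul]
  linarith

lemma Up.comp {ι κ : Type} {f : ι → ℝ × ℝ} (h : Up f) {g : κ → ι} (hg : Function.Injective g) :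
    Up fun k => f (g k) := fun k => by
  obtain ⟨θ, hθ⟩ := h (g k)
  exact ⟨θ, fun j hj => hθ (g j) (hg.ne hj)⟩

/-- **The construction, without sums `a + a`.** -/
theorem exists_families {b c N ℓ : ℕ} (h : Has b N ℓ) (hc : c ≤ b * (b - 1) / 2) :
    ∃ (V I : Type) (_ : Fintype V) (_ : Fintype I) (F : V → ℝ × ℝ) (X : I → ℝ × ℝ)
      (P Q : I → V), Ex F ∧ Ex X ∧ (∀ i, P i ≠ Q i) ∧ (∀ i, X i = F (P i) + F (Q i)) ∧
      Fintype.card V = b + c ∧ N + 2 * c ≤ Fintype.card I + ℓ := by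
  classical
  obtain ⟨f, p, q, E, hE, hpq, hfx, hUp, hUp2, hgen⟩ := exists_generic h
  have hUp3 : Up (fun n : {n : Fin N // n ∉ E} => f (p n) + f (q n)) :=
    hUp2.comp Subtype.val_injective
  have hcardI : N ≤ Fintype.card {n : Fin N // n ∉ E} + ℓ := by
    have h1 := Fintype.card_subtype_compl (fun n : Fin N => n ∈ E)
    rw [Fintype.card_fin, Fintype.card_coe] at h1
    omega
  -- the chords
  obtain ⟨T, hT, hTc⟩ : ∃ T ⊆ (range b).sigma (fun j => range j), T.card = c := by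
    refine Finset.exists_subset_card_eq ?_
    rw [card_sigma]
    simp only [card_range]
    rw [Finset.sum_range_id]
    exact hc
  have hTm : ∀ k : T, k.1.2 < k.1.1 ∧ k.1.1 < b := fun k => by
    have := hT k.2
    rw [mem_sigma, mem_range, mem_range] at this
    exact ⟨this.2, this.1⟩
  obtain ⟨u, hu⟩ : ∃ u : T → Fin b, u = fun k => ⟨k.1.2, (hTm k).1.trans (hTm k).2⟩ := ⟨_, rfl⟩
  obtain ⟨v, hv⟩ : ∃ v : T → Fin b, v = fun k => ⟨k.1.1, (hTm k).2⟩ := ⟨_, rfl⟩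
  have huv : ∀ k, u k < v k := fun k => by
    rw [hu, hv]
    exact (hTm k).1
  have hdist : ∀ k k', k ≠ k' → ¬ (u k = u k' ∧ v k = v k') := by
    rintro k k' hk ⟨h1, h2⟩
    rw [hu] at h1
    rw [hv] at h2
    have h3 : k.1.2 = k'.1.2 := congrArg Fin.val h1
    have h4 : k.1.1 = k'.1.1 := congrArg Fin.val h2
    refine hk (Subtype.ext ?_)
    obtain ⟨⟨j, i⟩, hk1⟩ := k
    obtain ⟨⟨j', i'⟩, hk2⟩ := k'
    simp only at h3 h4
    subst h3 h4
    rfl
  have hxlt : ∀ k, (f (u k)).1 < (f (v k)).1 := fun k => hfx _ _ (huv k)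
  obtain ⟨C, hC1, hC2⟩ := lower (f := f) (u := u) (v := v)
    (m := fun k => ((f (v k)).2 - (f (u k)).2) / ((f (v k)).1 - (f (u k)).1)) hxlt
    (fun k => (div_mul_cancel₀ _ (sub_pos.2 (hxlt k)).ne').symm) (by
      intro k k' hkk
      by_contra hne
      have h1 := hgen (u k) (v k) (u k') (v k') (huv k) (huv k') (hdist k k' hne)
      simp only at hkk
      rw [div_eq_div_iff (sub_pos.2 (hxlt k)).ne' (sub_pos.2 (hxlt k')).ne'] at hkk
      exact h1 (sub_eq_zero.2 hkk))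
  obtain ⟨H, hA, hX⟩ := ((ex_sum hUp hC1).and (ex_sum hUp3 hC2)).exists
  refine ⟨Fin b ⊕ T, {n : Fin N // n ∉ E} ⊕ (T ⊕ T), inferInstance, inferInstance, _, _,
    Sum.elim (fun n => Sum.inl (p n)) (Sum.elim Sum.inr Sum.inr),
    Sum.elim (fun n => Sum.inl (q n)) (Sum.elim (fun k => Sum.inl (u k)) fun k => Sum.inl (v k)),
    hA, hX, ?_, ?_, ?_, ?_⟩
  · rintro (n | k | k)
    · exact fun h => n.2 (hpq _ (Sum.inl_injective h))
    · exact fun h => by simp at h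
    · exact fun h => by simp at h
  · rintro (n | k | k)
    · rfl
    · simp only [Sum.elim_inr, Sum.elim_inl]
      abel
    · simp only [Sum.elim_inr, Sum.elim_inl]
      abel
  · rw [Fintype.card_sum, Fintype.card_fin, Fintype.card_coe, hTc]
  · rw [Fintype.card_sum, Fintype.card_sum, Fintype.card_coe, hTc]
    omega

/-- The graph of a family of sums. -/
theorem exists_graph {V I : Type} [Fintype V] [Fintype I] {F : V → ℝ × ℝ} {X : I → ℝ × ℝ}
    (hF : Ex F) (hX : Ex X) {P Q : I → V} (hPQ : ∀ i, P i ≠ Q i)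
    (hs : ∀ i, X i = F (P i) + F (Q i)) {n : ℕ} (hn : Fintype.card V = n) :
    ∃ (G : SimpleGraph (Fin n)) (f : Fin n → ℝ × ℝ), Function.Injective f ∧
      (∀ u v u' v', G.Adj u v → G.Adj u' v' →
        (1 / 2 : ℝ) • (f u + f v) = (1 / 2 : ℝ) • (f u' + f v') → s(u, v) = s(u', v')) ∧
      (∀ u v w, G.Adj u v → (1 / 2 : ℝ) • (f u + f v) ≠ f w) ∧
      (∀ x ∈ Set.range f, x ∉ convexHull ℝ (Set.range f \ {x})) ∧
      (∀ x ∈ {x | ∃ u v, G.Adj u v ∧ x = (1 / 2 : ℝ) • (f u + f v)},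
        x ∉ convexHull ℝ ({x | ∃ u v, G.Adj u v ∧ x = (1 / 2 : ℝ) • (f u + f v)} \ {x})) ∧
      G.edgeSet.ncard = Fintype.card I := by
  classical
  obtain ⟨e⟩ : Nonempty (V ≃ Fin n) := ⟨Fintype.equivFinOfCardEq hn⟩
  have hf : Ex fun u => F (e.symm u) := fun u => by
    obtain ⟨l, hlin, hl⟩ := hF (e.symm u)
    exact ⟨l, hlin, fun j hj => hl _ (e.symm.injective.ne hj)⟩
  obtain ⟨S, hS⟩ : ∃ S : Set (Sym2 (Fin n)), S = Set.range fun i => s(e (P i), e (Q i)) := ⟨_, rfl⟩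
  have hdiag : ∀ i, e (P i) ≠ e (Q i) := fun i => e.injective.ne (hPQ i)
  have hadj : ∀ u v, (SimpleGraph.fromEdgeSet S).Adj u v ↔ ∃ i, s(e (P i), e (Q i)) = s(u, v) := by
    intro u v
    rw [SimpleGraph.fromEdgeSet_adj, hS]
    constructor
    · rintro ⟨⟨i, hi⟩, -⟩
      exact ⟨i, hi⟩
    · rintro ⟨i, hi⟩
      refine ⟨⟨i, hi⟩, fun h => hdiag i ?_⟩
      subst h
      rw [Sym2.eq_iff] at hi
      rcases hi with ⟨h1, h2⟩ | ⟨h1, h2⟩ <;> rw [h1, h2]
  have hsum : ∀ i u v, s(e (P i), e (Q i)) = s(u, v) → X i = F (e.symm u) + F (e.symm v) := by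
    intro i u v hi
    rw [hs]
    rw [Sym2.eq_iff] at hi
    rcases hi with ⟨h1, h2⟩ | ⟨h1, h2⟩
    · rw [← h1, ← h2, e.symm_apply_apply, e.symm_apply_apply]
    · rw [← h1, ← h2, e.symm_apply_apply, e.symm_apply_apply, add_comm]
  have hmid : {x | ∃ u v, (SimpleGraph.fromEdgeSet S).Adj u v ∧
      x = (1 / 2 : ℝ) • (F (e.symm u) + F (e.symm v))} = Set.range fun i => (1 / 2 : ℝ) • X i := by
    ext x
    constructor
    · rintro ⟨u, v, huv, rfl⟩
      obtain ⟨i, hi⟩ := (hadj u v).1 huv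
      exact ⟨i, by simp only; rw [hsum i u v hi]⟩
    · rintro ⟨i, rfl⟩
      exact ⟨e (P i), e (Q i), (hadj _ _).2 ⟨i, rfl⟩, by simp only; rw [hsum i _ _ rfl]⟩
  have hedge : (SimpleGraph.fromEdgeSet S).edgeSet = S := by
    rw [SimpleGraph.edgeSet_fromEdgeSet, hS]
    refine Set.Subset.antisymm Set.sdiff_subset ?_
    rintro _ ⟨i, rfl⟩
    exact ⟨⟨i, rfl⟩, fun h => hdiag i (Sym2.mk_isDiag_iff.1 h)⟩
  refine ⟨SimpleGraph.fromEdgeSet S, fun u => F (e.symm u), hf.inj, ?_, ?_, hf.indepSet, ?_, ?_⟩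
  · intro u v u' v' h1 h2 h3
    obtain ⟨i, hi⟩ := (hadj u v).1 h1
    obtain ⟨j, hj⟩ := (hadj u' v').1 h2
    have h4 : X i = X j := by
      rw [hsum i u v hi, hsum j u' v' hj]
      exact smul_right_injective (ℝ × ℝ) (by norm_num : (1 / 2 : ℝ) ≠ 0) h3
    rw [← hi, ← hj, hX.inj h4]
  · intro u v w h1 h2
    have huv : u ≠ v := h1.ne
    obtain ⟨l, hlin, hl⟩ := hf w
    have h3 := congrArg l h2
    rw [hlin.map_smul, hlin.map_add, smul_eq_mul] at h3
    by_cases hu : u = w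
    · subst hu
      have := hl v (Ne.symm huv)
      linarith
    · have h4 := hl u hu
      by_cases hv : v = w
      · subst hv
        linarith
      · have := hl v hv
        linarith
  · rw [hmid]
    exact hX.half.indepSet
  · rw [hedge, hS, ← Set.image_univ, Set.ncard_image_of_injective, Set.ncard_univ,
      Nat.card_eq_fintype_card]
    intro i j hij
    refine hX.inj ?_
    have := hsum i _ _ hij
    rw [this, ← hsum j _ _ rfl]

/-- For `1 ≤ n ≤ 2 ^ (k - 1) * (2 ^ k - 1)` there are families with `n` points and at least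
`2 n - 2 k` sums. -/
theorem exists_families' {n k : ℕ} (hk : 1 ≤ k) (hn : 1 ≤ n)
    (hnk : n ≤ 2 ^ (k - 1) * (2 ^ k - 1)) :
    ∃ (V I : Type) (_ : Fintype V) (_ : Fintype I) (F : V → ℝ × ℝ) (X : I → ℝ × ℝ)
      (P Q : I → V), Ex F ∧ Ex X ∧ (∀ i, P i ≠ Q i) ∧ (∀ i, X i = F (P i) + F (Q i)) ∧
      Fintype.card V = n ∧ 2 * n - 2 * k ≤ Fintype.card I := by
  obtain ⟨k, rfl⟩ : ∃ k', k = k' + 1 := ⟨k - 1, by omega⟩
  rw [Nat.add_sub_cancel] at hnk
  have hp : 1 ≤ 2 ^ k := Nat.one_le_two_pow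
  have hp2 : 2 ^ (k + 1) = 2 * 2 ^ k := by ring
  obtain ⟨P, hP⟩ : ∃ P, P = 2 ^ k := ⟨_, rfl⟩
  rw [hp2, ← hP] at hnk
  rw [← hP] at hp
  rcases Nat.lt_or_ge n (2 * P) with h1 | h1
  · obtain ⟨V, I, i1, i2, F, X, p, q, h2, h3, h4, h5, h6, h7⟩ :=
      exists_families (c := 0) (has_all n hn) (Nat.zero_le _)
    refine ⟨V, I, i1, i2, F, X, p, q, h2, h3, h4, h5, by omega, ?_⟩
    have h8 : Nat.log 2 n < k + 1 := Nat.log_lt_of_lt_pow (by omega) (by rw [hp2, ← hP]; exact h1)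
    omega
  · have hb : 1 ≤ 2 * P - 1 := by omega
    obtain ⟨c, hc⟩ : ∃ c, n = 2 * P - 1 + c := ⟨n - (2 * P - 1), by omega⟩
    have hc2 : c ≤ (2 * P - 1) * (2 * P - 1 - 1) / 2 := by
      rw [Nat.le_div_iff_mul_le (by norm_num)]
      obtain ⟨R, rfl⟩ : ∃ R, P = R + 1 := ⟨P - 1, by omega⟩
      rw [show 2 * (R + 1) - 1 = 2 * R + 1 by omega] at hnk hc ⊢
      rw [show 2 * R + 1 - 1 = 2 * R by omega]
      nlinarith
    obtain ⟨V, I, i1, i2, F, X, p, q, h2, h3, h4, h5, h6, h7⟩ :=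
      exists_families (has_all (2 * P - 1) hb) hc2
    refine ⟨V, I, i1, i2, F, X, p, q, h2, h3, h4, h5, by omega, ?_⟩
    have h8 : Nat.log 2 (2 * P - 1) < k + 1 :=
      Nat.log_lt_of_lt_pow (by omega) (by rw [hp2, ← hP]; omega)
    omega

end Pool.Agent.V11211.CI
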