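import Pool.Agent.V11211.CI3

/-!
# A better bound for half of the sizes
-/

set_option autoImplicit false

namespace Pool.Agent.V11211.CI

open Finset Filter Topology

lemma has_two' : Has 2 2 1 := by
  refine ⟨fun _ => 1, fun _ => 0, fun _ => 1, fun _ => 0, 1, {0}, ⟨fun j hj => by norm_num,
    fun j hj => by omega⟩, ⟨fun j hj => by norm_num, fun j hj => by omega⟩, by simp, ?_⟩
  intro j hj
  rcases Nat.lt_or_ge j 1 with h | h
  · refine ⟨0, 0, by omega, by omega, fun _ => by rw [mem_singleton]; omega, ?_⟩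
    have : j = 0 := by omega
    rw [this, pt_zero]
    simp
  · refine ⟨0, 1, by omega, by omega, fun h => by omega, ?_⟩
    have : j = 1 := by omega
    rw [this, pt_zero, zero_add]

lemma has_loop : ∀ j n : ℕ, 2 ^ (j + 1) ≤ n → n < 3 * 2 ^ j → Has n (2 * n - (j + 2)) (j + 1) := by
  intro j
  induction j with
  | zero =>
    intro n h1 h2
    have : n = 2 := by
      rw [pow_zero] at h2
      rw [zero_add, pow_one] at h1
      omega
    subst this
    exact has_two'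
  | succ j ih =>
    intro n h1 h2
    have e1 : 2 ^ (j + 1 + 1) = 2 * 2 ^ (j + 1) := by ring
    have e2 : 2 ^ (j + 1) = 2 * 2 ^ j := by ring
    have e3 : j + 1 < 2 ^ (j + 1) := Nat.lt_two_pow_self
    obtain ⟨k, hk⟩ : ∃ k, k = (n - 1) / 2 := ⟨_, rfl⟩
    have h3 := ih (n - k - 1) (by omega) (by omega)
    have h4 := has_step (show 1 ≤ k by omega) (show k ≤ n - k - 1 by omega) h3
    have e4 : k + 1 + (n - k - 1) = n := by omega
    have e5 : 2 * k + 1 + (2 * (n - k - 1) - (j + 2)) = 2 * n - (j + 1 + 2) := by omega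
    rwa [e4, e5] at h4

/-- For `1 ≤ n` and `2 n ≤ 3 * 2 ^ j * (3 * 2 ^ j - 1)` there are families with `n` points and at
least `2 n - (2 j + 3)` sums. -/
theorem exists_families'' {n j : ℕ} (hn : 1 ≤ n) (hnj : 2 * n ≤ 3 * 2 ^ j * (3 * 2 ^ j - 1)) :
    ∃ (V I : Type) (_ : Fintype V) (_ : Fintype I) (F : V → ℝ × ℝ) (X : I → ℝ × ℝ)
      (P Q : I → V), Ex F ∧ Ex X ∧ (∀ i, P i ≠ Q i) ∧ (∀ i, X i = F (P i) + F (Q i)) ∧
      Fintype.card V = n ∧ 2 * n - (2 * j + 3) ≤ Fintype.card I := by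
  have hp : 1 ≤ 2 ^ j := Nat.one_le_two_pow
  have e1 : 2 ^ (j + 1) = 2 * 2 ^ j := by ring
  have e3 : j < 2 ^ j := Nat.lt_two_pow_self
  rcases Nat.lt_or_ge n (2 ^ (j + 1)) with h1 | h1
  · obtain ⟨V, I, i1, i2, F, X, p, q, h2, h3, h4, h5, h6, h7⟩ :=
      exists_families (c := 0) (has_all n hn) (Nat.zero_le _)
    refine ⟨V, I, i1, i2, F, X, p, q, h2, h3, h4, h5, by omega, ?_⟩
    have h8 : Nat.log 2 n < j + 1 := Nat.log_lt_of_lt_pow (by omega) h1
    omega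
  rcases Nat.lt_or_ge n (3 * 2 ^ j) with h2 | h2
  · obtain ⟨V, I, i1, i2, F, X, p, q, h2, h3, h4, h5, h6, h7⟩ :=
      exists_families (c := 0) (has_loop j n h1 h2) (Nat.zero_le _)
    refine ⟨V, I, i1, i2, F, X, p, q, h2, h3, h4, h5, by omega, ?_⟩
    omega
  · obtain ⟨P, hP⟩ : ∃ P, P = 2 ^ j := ⟨_, rfl⟩
    have h0 := has_loop j (3 * 2 ^ j - 1) (by omega) (by omega)
    rw [← hP] at hnj hp e1 e3 h0 h2
    obtain ⟨c, hc⟩ : ∃ c, n = 3 * P - 1 + c := ⟨n - (3 * P - 1), by omega⟩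
    have hc2 : c ≤ (3 * P - 1) * (3 * P - 1 - 1) / 2 := by
      rw [Nat.le_div_iff_mul_le (by norm_num)]
      obtain ⟨R, rfl⟩ : ∃ R, P = R + 1 := ⟨P - 1, by omega⟩
      rw [show 3 * (R + 1) - 1 = 3 * R + 2 by omega] at hnj hc ⊢
      rw [show 3 * R + 2 - 1 = 3 * R + 1 by omega]
      nlinarith
    obtain ⟨V, I, i1, i2, F, X, p, q, h2, h3, h4, h5, h6, h7⟩ := exists_families h0 hc2
    refine ⟨V, I, i1, i2, F, X, p, q, h2, h3, h4, h5, by omega, ?_⟩
    omega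

end Pool.Agent.V11211.CI
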