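import Mathlib

/-!
# Systems of parameters are regular sequences in a local ring of maximal depth
-/

set_option autoImplicit false

namespace Pool.Agent.V11211

open IsLocalRing RingTheory.Sequence CategoryTheory Abelian Pointwise

universe u

variable {A : Type u} [CommRing A] [IsLocalRing A] [IsNoetherianRing A]

/-- `M` has a regular sequence of length `d` in the maximal ideal. -/
def Dep (M : Type u) [AddCommGroup M] [Module A M] (d : ℕ) : Prop :=
  ∃ rs : List A, rs.length = d ∧ (∀ r ∈ rs, r ∈ maximalIdeal A) ∧ IsRegular M rs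

lemma Dep.nontrivial {M : Type u} [AddCommGroup M] [Module A M] {d : ℕ} (h : Dep (A := A) M d) :
    Nontrivial M := by
  obtain ⟨rs, -, -, h⟩ := h
  exact h.nontrivial

lemma smul_top_lt {M : Type u} [AddCommGroup M] [Module A M] [Module.Finite A M] [Nontrivial M] :
    maximalIdeal A • (⊤ : Submodule A M) < ⊤ := by
  rw [lt_top_iff_ne_top]
  intro h
  have h1 := Submodule.eq_bot_of_le_smul_of_le_jacobson_bot (maximalIdeal A) (⊤ : Submodule A M)
    Module.Finite.fg_top h.ge (IsLocalRing.maximalIdeal_le_jacobson _)
  exact absurd h1 top_ne_bot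

lemma dep_quot {M : Type u} [AddCommGroup M] [Module A M] [Module.Finite A M] {d : ℕ}
    (h : Dep (A := A) M (d + 1)) {x : A} (hx : x ∈ maximalIdeal A) (hr : IsSMulRegular M x) :
    Dep (A := A) (QuotSMulTop x M) d := by
  have hnt := h.nontrivial
  obtain ⟨rs, hlen, hmem, hreg⟩ := h
  let N : ModuleCat.{u} A := ModuleCat.of A (A ⧸ maximalIdeal A)
  have hsupp : Module.support A N = PrimeSpectrum.zeroLocus (maximalIdeal A) := by
    rw [Module.support_eq_zeroLocus]
    change PrimeSpectrum.zeroLocus (Module.annihilator A (A ⧸ maximalIdeal A) : Set A) = _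
    rw [Ideal.annihilator_quotient]
  have hext := ModuleCat.subsingleton_ext_of_exists_isRegular (maximalIdeal A) N hsupp.subset
    (ModuleCat.of A M) smul_top_lt rs hmem hreg
  rw [hlen] at hext
  have hnt' : Nontrivial (QuotSMulTop x M) := nontrivial_quotSMulTop_of_mem_maximalIdeal M hx
  have hext' : ∀ i < d, Subsingleton (Ext N (ModuleCat.of A (QuotSMulTop x M)) i) := by
    intro i hi
    have zero1 := AddCommGrpCat.isZero_of_iff_subsingleton.mpr (hext i (by omega))
    have zero2 := AddCommGrpCat.isZero_of_iff_subsingleton.mpr (hext (i + 1) (by omega))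
    have hr' : IsSMulRegular (ModuleCat.of A M) x := hr
    exact AddCommGrpCat.subsingleton_of_isZero <| ShortComplex.Exact.isZero_of_both_zeros
      ((Ext.covariant_sequence_exact₃' N hr'.smulShortComplex_shortExact) i (i + 1) rfl)
      (zero1.eq_zero_of_src _) (zero2.eq_zero_of_tgt _)
  obtain ⟨rs', h1, h2, h3⟩ := ModuleCat.exists_isRegular_of_exists_subsingleton_ext
    (maximalIdeal A) d (ModuleCat.of A (QuotSMulTop x M)) smul_top_lt N hsupp hext'
  exact ⟨rs', h1, h2, h3⟩

/-! ### Generic elements -/

section generic

variable {k : Type*} [Field k] [Algebra k A]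

/-- `u₁ + t (u₂ + t (u₃ + ...))` -/
def hgen (t : k) : List A → A
  | [] => 0
  | u :: us => u + t • hgen t us

/-- the polynomial whose value at `t` is the class of `hgen t us` -/
noncomputable def pgen (P : Ideal A) : List A → Polynomial (A ⧸ P)
  | [] => 0
  | u :: us => Polynomial.C (Ideal.Quotient.mk P u) + Polynomial.X * pgen P us

omit [IsLocalRing A] [IsNoetherianRing A] in
lemma eval_pgen (P : Ideal A) (t : k) (us : List A) :
    (pgen P us).eval (algebraMap k (A ⧸ P) t) = Ideal.Quotient.mk P (hgen t us) := by
  induction us with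
  | nil => simp [pgen, hgen]
  | cons u us ih =>
    rw [pgen, hgen, Polynomial.eval_add, Polynomial.eval_mul, Polynomial.eval_X,
      Polynomial.eval_C, ih, map_add, Algebra.smul_def, map_mul]
    rfl

omit [IsLocalRing A] [IsNoetherianRing A] in
lemma pgen_ne_zero (P : Ideal A) (us : List A) (h : ∃ u ∈ us, u ∉ P) : pgen P us ≠ 0 := by
  induction us with
  | nil => simp at h
  | cons u us ih =>
    intro h0
    rw [pgen] at h0
    have h1 := congrArg (fun p => Polynomial.coeff p 0) h0
    simp only [Polynomial.coeff_add, Polynomial.coeff_C_zero, Polynomial.mul_coeff_zero,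
      Polynomial.coeff_X_zero, zero_mul, add_zero, Polynomial.coeff_zero] at h1
    rw [h1, map_zero, zero_add] at h0
    obtain ⟨v, hv, hvP⟩ := h
    rw [List.mem_cons] at hv
    rcases hv with rfl | hv
    · exact hvP (Ideal.Quotient.eq_zero_iff_mem.1 h1)
    · refine ih ⟨v, hv, hvP⟩ ?_
      ext n
      have h2 := congrArg (fun p => Polynomial.coeff p (n + 1)) h0
      simpa [Polynomial.coeff_X_mul] using h2

omit [IsLocalRing A] [IsNoetherianRing A] in
lemma finite_bad (P : Ideal A) [P.IsPrime] (us : List A) (h : ∃ u ∈ us, u ∉ P) :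
    {t : k | hgen t us ∈ P}.Finite := by
  classical
  have h1 : ((pgen P us).roots.toFinset : Set (A ⧸ P)).Finite := Finset.finite_toSet _
  refine (h1.preimage (f := algebraMap k (A ⧸ P)) (RingHom.injective _).injOn).subset ?_
  intro t ht
  rw [Set.mem_preimage, Finset.mem_coe, Multiset.mem_toFinset,
    Polynomial.mem_roots (pgen_ne_zero P us h), Polynomial.IsRoot, eval_pgen]
  exact Ideal.Quotient.eq_zero_iff_mem.2 ht

omit [IsLocalRing A] [IsNoetherianRing A] in
lemma exists_generic [Infinite k] (F : Set (Ideal A)) (hF : F.Finite)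
    (hP : ∀ P ∈ F, P.IsPrime) (us : List A) (h : ∀ P ∈ F, ∃ u ∈ us, u ∉ P) :
    ∃ t : k, ∀ P ∈ F, hgen t us ∉ P := by
  have h1 : (⋃ P ∈ F, {t : k | hgen t us ∈ P}).Finite := by
    refine hF.biUnion (fun P hPF => ?_)
    have := hP P hPF
    exact finite_bad P us (h P hPF)
  obtain ⟨t, ht⟩ := h1.infinite_compl.nonempty
  refine ⟨t, fun P hPF hmem => ht ?_⟩
  simp only [Set.mem_iUnion]
  exact ⟨P, hPF, hmem⟩

omit [IsNoetherianRing A] in
lemma hgen_mem (t : k) (us : List A) (I : Ideal A) (h : ∀ u ∈ us, u ∈ I) : hgen t us ∈ I := by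
  induction us with
  | nil => exact I.zero_mem
  | cons u us ih =>
    rw [hgen]
    refine I.add_mem (h u List.mem_cons_self) ?_
    rw [Algebra.smul_def]
    exact I.mul_mem_left _ (ih (fun v hv => h v (List.mem_cons_of_mem _ hv)))

/-- **Main result.** In a local ring, a sequence of `d` elements generating an ideal primary to the
maximal ideal, modulo the annihilator of a module of depth at least `d`, is regular. -/
theorem isRegular_of_dep [Infinite k] (d : ℕ) (M : Type u) [AddCommGroup M] [Module A M]
    [Module.Finite A M] (us : List A) (hlen : us.length = d)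
    (hmem : ∀ u ∈ us, u ∈ maximalIdeal A) (hdep : Dep (A := A) M d)
    (hrad : maximalIdeal A ≤ (Ideal.ofList us ⊔ Module.annihilator A M).radical) :
    IsRegular M us := by
  induction d generalizing M us with
  | zero =>
    have := hdep.nontrivial
    obtain rfl := List.length_eq_zero_iff.1 hlen
    exact IsRegular.nil A M
  | succ d ih =>
    obtain ⟨u, vs, rfl⟩ := List.exists_of_length_succ us hlen
    have hnt := hdep.nontrivial
    have hvlen : vs.length = d := by simpa using hlen
    have hu : u ∈ maximalIdeal A := hmem u List.mem_cons_self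
    have hvs : ∀ v ∈ vs, v ∈ maximalIdeal A := fun v hv => hmem v (List.mem_cons_of_mem _ hv)
    -- the maximal ideal is not associated
    have hnot : maximalIdeal A ∉ associatedPrimes A M := by
      obtain ⟨rs, hl, hrs, hreg⟩ := hdep
      obtain ⟨r, rs', rfl⟩ := List.exists_of_length_succ rs hl
      have hr : IsSMulRegular M r := ((isRegular_cons_iff M r rs').1 hreg).1
      intro hass
      have h1 : r ∈ ⋃ p ∈ associatedPrimes A M, (p : Set A) := by
        simp only [Set.mem_iUnion]
        exact ⟨_, hass, hrs r List.mem_cons_self⟩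
      rw [biUnion_associatedPrimes_eq_compl_regular] at h1
      exact h1 hr
    obtain ⟨t, ht⟩ := exists_generic (k := k) (associatedPrimes A M) (associatedPrimes.finite A M)
      (fun P hP => hP.isPrime) (u :: vs) (by
        intro P hP
        by_contra hcon
        push Not at hcon
        have hPp : P.IsPrime := hP.isPrime
        have h1 : Ideal.ofList (u :: vs) ⊔ Module.annihilator A M ≤ P := by
          refine sup_le (Ideal.span_le.2 hcon) ?_
          have h0 := hP.annihilator_le
          rwa [Submodule.annihilator_top] at h0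
        have h2 : maximalIdeal A ≤ P := hrad.trans (hPp.radical_le_iff.2 h1)
        have h3 : P = maximalIdeal A := le_antisymm (IsLocalRing.le_maximalIdeal hPp.ne_top) h2
        exact hnot (h3 ▸ hP))
    set h : A := hgen t (u :: vs) with hh
    have hhm : h ∈ maximalIdeal A := hgen_mem t _ _ hmem
    have hreg : IsSMulRegular M h := by
      by_contra hcon
      have h1 : h ∈ {r : A | IsSMulRegular M r}ᶜ := hcon
      rw [← biUnion_associatedPrimes_eq_compl_regular] at h1
      simp only [Set.mem_iUnion] at h1
      obtain ⟨P, hP, hmemP⟩ := h1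
      exact ht P hP hmemP
    have hdiff : h - u ∈ Ideal.ofList vs := by
      have h1 : h - u = t • hgen t vs := by
        rw [hh, hgen]
        ring
      rw [h1, Algebra.smul_def]
      exact Ideal.mul_mem_left _ _ (hgen_mem t vs _ (fun v hv => Ideal.subset_span hv))
    have hdep' : Dep (A := A) (QuotSMulTop h M) d := dep_quot hdep hhm hreg
    have hann : h ∈ Module.annihilator A (QuotSMulTop h M) := by
      rw [Module.mem_annihilator]
      intro m
      obtain ⟨m, rfl⟩ := Submodule.Quotient.mk_surjective _ m
      rw [← Submodule.Quotient.mk_smul, Submodule.Quotient.mk_eq_zero]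
      exact Submodule.smul_mem_pointwise_smul m h ⊤ Submodule.mem_top
    have hann' : Module.annihilator A M ≤ Module.annihilator A (QuotSMulTop h M) :=
      LinearMap.annihilator_le_of_surjective (Submodule.mkQ _) (Submodule.mkQ_surjective _)
    have hrad' : maximalIdeal A ≤
        (Ideal.ofList vs ⊔ Module.annihilator A (QuotSMulTop h M)).radical := by
      refine hrad.trans (Ideal.radical_mono ?_)
      refine sup_le ?_ (hann'.trans le_sup_right)
      rw [Ideal.ofList_cons]
      refine sup_le ?_ le_sup_left
      rw [Ideal.span_singleton_le_iff_mem]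
      have h1 : u = h - (h - u) := by ring
      rw [h1]
      exact Ideal.sub_mem _ (Ideal.mem_sup_right hann) (Ideal.mem_sup_left hdiff)
    have hreg' : IsRegular (QuotSMulTop h M) vs :=
      ih (QuotSMulTop h M) vs hvlen hvs hdep' hrad'
    have h1 : IsRegular M (h :: vs) := (isRegular_cons_iff M h vs).2 ⟨hreg, hreg'⟩
    have h2 : IsRegular M (vs ++ [h]) := IsLocalRing.isRegular_of_perm h1
      (List.perm_append_singleton h vs).symm
    have h3 : IsWeaklyRegular M (vs ++ [u]) := by
      have h4 := (isWeaklyRegular_append_iff M vs [h]).1 h2.toIsWeaklyRegular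
      refine (isWeaklyRegular_append_iff M vs [u]).2 ⟨h4.1, ?_⟩
      have h5 := (isWeaklyRegular_singleton_iff _ h).1 h4.2
      refine (isWeaklyRegular_singleton_iff _ u).2 ?_
      have h6 : ∀ m : M ⧸ (Ideal.ofList vs • ⊤ : Submodule A M), u • m = h • m := by
        intro m
        obtain ⟨m, rfl⟩ := Submodule.Quotient.mk_surjective _ m
        rw [← Submodule.Quotient.mk_smul, ← Submodule.Quotient.mk_smul, eq_comm,
          Submodule.Quotient.eq, ← sub_smul]
        exact Submodule.smul_mem_smul hdiff Submodule.mem_top
      intro m m' hmm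
      simp only [h6] at hmm
      exact h5 hmm
    have h7 : IsWeaklyRegular M (u :: vs) :=
      IsLocalRing.isWeaklyRegular_of_perm_of_subset_maximalIdeal h3
        (List.perm_append_singleton u vs) (by
          intro r hr
          rw [List.mem_append, List.mem_singleton] at hr
          rcases hr with hr | rfl
          · exact hvs r hr
          · exact hu)
    exact (IsLocalRing.isRegular_iff_isWeaklyRegular_of_subset_maximalIdeal hmem).2 h7

end generic

end Pool.Agent.V11211
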