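import Mathlib

/-!
Matching measures of graphs through the path tree: definitions.
-/

open MeasureTheory

namespace V11211.MM

/-- The finite paths of `G` starting at `o`; a path is recorded as the list of its vertices read
from its last vertex back to `o`. -/
abbrev PathFrom {V : Type} (G : SimpleGraph V) (o : V) : Type :=
  {l : List V // l.Nodup ∧ l.IsChain G.Adj ∧ l.getLast? = some o}

/-- The one-vertex path `o`. -/
def root {V : Type} (G : SimpleGraph V) (o : V) : PathFrom G o := ⟨[o], by simp⟩

/-- The path tree `T(G,o)`: two paths are adjacent when one is obtained from the other by deleting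
its last vertex (the head of the list). -/
def pathTree {V : Type} (G : SimpleGraph V) (o : V) : SimpleGraph (PathFrom G o) where
  Adj P Q := (∃ w, Q.1 = w :: P.1) ∨ (∃ w, P.1 = w :: Q.1)
  symm := ⟨fun _ _ h => h.symm⟩
  loopless := ⟨fun P h => by
    rcases h with ⟨w, h⟩ | ⟨w, h⟩ <;>
    · have := congrArg List.length h
      simp at this⟩

/-- The adjacency operator of a (locally finite) graph acting on functions:
`(A f)(p)` is the sum of `f` over the neighbours of `p`. -/
noncomputable def adjOp {P : Type} (T : SimpleGraph P) (f : P → ℝ) (p : P) : ℝ :=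
  ∑' q : T.neighborSet p, f q

open Classical in
/-- `⟨A^n χ, χ⟩ = (A^n χ)(o)`, with `A` the adjacency operator of the path tree of `(G,o)` and `χ`
the indicator function of the one-vertex path `o`. -/
noncomputable def moment {V : Type} (G : SimpleGraph V) (o : V) (n : ℕ) : ℝ :=
  (adjOp (pathTree G o))^[n] (Pi.single (root G o) 1) (root G o)

/-- `ν` is a matching measure of `(G,o)`: a probability measure on `ℝ` with compact support whose
`n`-th moment is `⟨A^n χ, χ⟩` for every `n`. (Such a measure is unique.) -/
def IsMatchingMeasure {V : Type} (G : SimpleGraph V) (o : V) (ν : Measure ℝ) : Prop :=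
  IsProbabilityMeasure ν ∧ (∃ R : ℝ, ν (Set.Icc (-R) R)ᶜ = 0) ∧
    ∀ n : ℕ, ∫ x, x ^ n ∂ν = moment G o n

open Classical in
/-- The matching measure `ν_{G,o}` (the zero measure if there is none). -/
noncomputable def matchingMeasure {V : Type} (G : SimpleGraph V) (o : V) : Measure ℝ :=
  if h : ∃ ν, IsMatchingMeasure G o ν then h.choose else 0

/-- `u` is `0`-positive in `G`: the sum over the neighbours `v` of `u` of `ν_{G-u,v}({0})` is
positive. -/
def ZeroPositive {V : Type} (G : SimpleGraph V) (u : V) : Prop :=
  0 < ∑' v : G.neighborSet u, matchingMeasure (G.deleteIncidenceSet u) v {0}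

end V11211.MM
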