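import Pool.Agent.V11211.MM0
import Pool.Agent.H54R3.Spec508

/-!
Matching measures of graphs through the path tree; adjacency operators; atoms from kernel vectors.
-/

open MeasureTheory Filter Topology
open scoped ENNReal InnerProductSpace

namespace V11211.MM

variable {V : Type}

/-- `A` is the adjacency operator of the graph `T` on `ℓ²`. -/
def IsAdjacencyOperator {P : Type} (T : SimpleGraph P)
    (A : lp (fun _ : P => ℂ) 2 →L[ℂ] lp (fun _ : P => ℂ) 2) : Prop :=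
  ∀ (f : lp (fun _ : P => ℂ) 2) (p : P), A f p = ∑' q : T.neighborSet p, f q

/-! ### the adjacency operator -/

section Op

variable {P : Type}

theorem two_ne_top' : (2 : ℝ≥0∞) ≠ ⊤ := by norm_num

theorem sum_sq_le_norm (f : lp (fun _ : P => ℂ) 2) (F : Finset P) :
    ∑ q ∈ F, ‖f q‖ ^ 2 ≤ ‖f‖ ^ 2 := by
  have h := lp.sum_rpow_le_norm_rpow (p := 2) (by norm_num) f F
  simpa using h

theorem nbr_sum_le [DecidableEq P] (N : P → Finset P) (hsymm : ∀ p q, q ∈ N p ↔ p ∈ N q) (D : ℕ)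
    (hD : ∀ p, (N p).card ≤ D) (f : lp (fun _ : P => ℂ) 2) (F : Finset P) :
    ∑ p ∈ F, ‖∑ q ∈ N p, f q‖ ^ 2 ≤ (D * ‖f‖) ^ 2 := by
  have h1 : ∀ p, ‖∑ q ∈ N p, f q‖ ^ 2 ≤ D * ∑ q ∈ N p, ‖f q‖ ^ 2 := by
    intro p
    calc ‖∑ q ∈ N p, f q‖ ^ 2 ≤ (∑ q ∈ N p, ‖f q‖) ^ 2 := by
          gcongr
          exact norm_sum_le _ _
      _ ≤ (N p).card * ∑ q ∈ N p, ‖f q‖ ^ 2 := sq_sum_le_card_mul_sum_sq
      _ ≤ D * ∑ q ∈ N p, ‖f q‖ ^ 2 := by
          have := hD p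
          gcongr
  calc ∑ p ∈ F, ‖∑ q ∈ N p, f q‖ ^ 2 ≤ ∑ p ∈ F, D * ∑ q ∈ N p, ‖f q‖ ^ 2 :=
        Finset.sum_le_sum (fun p _ => h1 p)
    _ = D * ∑ p ∈ F, ∑ q ∈ N p, ‖f q‖ ^ 2 := by rw [Finset.mul_sum]
    _ = D * ∑ q ∈ F.biUnion N, ∑ p ∈ F.filter (fun p => q ∈ N p), ‖f q‖ ^ 2 := by
        congr 1
        apply Finset.sum_comm'
        intro p q
        simp only [Finset.mem_biUnion, Finset.mem_filter]
        constructor
        · rintro ⟨h, h'⟩; exact ⟨⟨h, h'⟩, p, h, h'⟩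
        · rintro ⟨⟨h, h'⟩, _⟩; exact ⟨h, h'⟩
    _ ≤ D * ∑ q ∈ F.biUnion N, D * ‖f q‖ ^ 2 := by
        gcongr with q _
        rw [Finset.sum_const, nsmul_eq_mul]
        have hc : (F.filter (fun p => q ∈ N p)).card ≤ D := by
          refine (Finset.card_le_card ?_).trans (hD q)
          intro p hp
          rw [Finset.mem_filter] at hp
          exact (hsymm p q).1 hp.2
        gcongr
    _ = D ^ 2 * ∑ q ∈ F.biUnion N, ‖f q‖ ^ 2 := by rw [← Finset.mul_sum]; ring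
    _ ≤ D ^ 2 * ‖f‖ ^ 2 := by
        gcongr
        exact sum_sq_le_norm f _
    _ = _ := by ring

theorem nbr_sum_le' [DecidableEq P] (N : P → Finset P) (hsymm : ∀ p q, q ∈ N p ↔ p ∈ N q)
    (D : ℕ) (hD : ∀ p, (N p).card ≤ D) (f : lp (fun _ : P => ℂ) 2) (F : Finset P) :
    ∑ p ∈ F, ‖∑ q ∈ N p, f q‖ ^ (2 : ℝ≥0∞).toReal ≤ (D * ‖f‖) ^ (2 : ℝ≥0∞).toReal := by
  simpa using nbr_sum_le N hsymm D hD f F

theorem exists_op [DecidableEq P] (N : P → Finset P) (hsymm : ∀ p q, q ∈ N p ↔ p ∈ N q) (D : ℕ)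
    (hD : ∀ p, (N p).card ≤ D) :
    ∃ A : lp (fun _ : P => ℂ) 2 →L[ℂ] lp (fun _ : P => ℂ) 2,
      ∀ (f : lp (fun _ : P => ℂ) 2) (p : P), A f p = ∑ q ∈ N p, f q := by
  refine ⟨LinearMap.mkContinuous
    { toFun := fun f => ⟨fun p => ∑ q ∈ N p, f q,
        memℓp_gen' (nbr_sum_le' N hsymm D hD f)⟩
      map_add' := fun f g => by
        ext p
        change ∑ q ∈ N p, (f + g : lp (fun _ : P => ℂ) 2) q = ∑ q ∈ N p, f q + ∑ q ∈ N p, g q
        rw [← Finset.sum_add_distrib]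
        rfl
      map_smul' := fun c f => by
        ext p
        change ∑ q ∈ N p, (c • f : lp (fun _ : P => ℂ) 2) q = c * ∑ q ∈ N p, f q
        rw [Finset.mul_sum]
        rfl } D ?_, fun f p => rfl⟩
  intro f
  apply lp.norm_le_of_forall_sum_le (by norm_num) (by positivity)
  intro F
  exact nbr_sum_le' N hsymm D hD f F

theorem inner_single_left [DecidableEq P] (p : P) (f : lp (fun _ : P => ℂ) 2) :
    inner ℂ (lp.single 2 p (1 : ℂ)) f = f p := by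
  rw [lp.inner_single_left]
  simp

theorem op_selfAdjoint [DecidableEq P] (N : P → Finset P) (hsymm : ∀ p q, q ∈ N p ↔ p ∈ N q)
    (A : lp (fun _ : P => ℂ) 2 →L[ℂ] lp (fun _ : P => ℂ) 2)
    (hA : ∀ (f : lp (fun _ : P => ℂ) 2) (p : P), A f p = ∑ q ∈ N p, f q) :
    IsSelfAdjoint A := by
  rw [ContinuousLinearMap.isSelfAdjoint_iff']
  ext f p
  rw [hA, ← inner_single_left p, ContinuousLinearMap.adjoint_inner_right]
  have h1 : A (lp.single 2 p (1 : ℂ)) = ∑ q ∈ N p, lp.single 2 q (1 : ℂ) := by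
    ext r
    have e1 : ∀ q r : P, (lp.single 2 q (1 : ℂ) : lp (fun _ : P => ℂ) 2) r =
        if r = q then 1 else 0 := by
      intro q r
      by_cases h : r = q
      · subst h; simp
      · simp [h]
    rw [hA, lp.coeFn_sum, Finset.sum_apply]
    simp only [e1]
    rw [Finset.sum_ite_eq', Finset.sum_ite_eq]
    by_cases h : p ∈ N r
    · rw [if_pos h, if_pos ((hsymm r p).1 h)]
    · rw [if_neg h, if_neg (fun h' => h ((hsymm r p).2 h'))]
  rw [h1, sum_inner]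
  apply Finset.sum_congr rfl
  intro q _
  exact inner_single_left q f

end Op

end V11211.MM
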