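import Pool.Agent.V11211.MM1

open MeasureTheory Filter Topology Polynomial
open scoped ENNReal InnerProductSpace

namespace V11211.MM

variable {V : Type}

section Abstract

variable {X : Type} [NormedAddCommGroup X] [InnerProductSpace ℂ X] [CompleteSpace X]

theorem poly_moment (A : X →L[ℂ] X) (χ : X) (ν : Measure ℝ) [IsFiniteMeasure ν] (R : ℝ)
    (hR : ν (Set.Icc (-R) R)ᶜ = 0)
    (hm : ∀ n : ℕ, ((∫ x, x ^ n ∂ν : ℝ) : ℂ) = inner ℂ χ ((A ^ n) χ)) (p : ℝ[X]) :
    Integrable (fun x => p.eval x) ν ∧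
      ((∫ x, p.eval x ∂ν : ℝ) : ℂ) = inner ℂ χ ((aeval A p) χ) := by
  have hint : ∀ q : ℝ[X], Integrable (fun x => q.eval x) ν := by
    intro q
    obtain ⟨C, hC⟩ := (isCompact_Icc (a := -R) (b := R)).exists_bound_of_continuousOn
      (f := fun x => q.eval x) q.continuous.continuousOn
    refine Integrable.of_bound q.continuous.aestronglyMeasurable C ?_
    have : ∀ᵐ x ∂ν, x ∈ Set.Icc (-R) R := by
      rw [ae_iff]; exact hR
    filter_upwards [this] with x hx
    exact hC x hx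
  refine ⟨hint p, ?_⟩
  induction p using Polynomial.induction_on' with
  | add p q hp hq =>
    simp only [eval_add]
    rw [integral_add (hint p) (hint q)]
    push_cast
    rw [hp, hq, map_add, _root_.add_apply, inner_add_right]
  | monomial n a =>
    simp only [eval_monomial]
    rw [integral_const_mul]
    push_cast
    rw [hm n, aeval_monomial]
    rw [mul_apply_eq_comp]
    have : (algebraMap ℝ (X →L[ℂ] X)) a ((A ^ n) χ) = (a : ℂ) • ((A ^ n) χ) := by
      rw [Algebra.algebraMap_eq_smul_one]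
      simp
    rw [this, inner_smul_right]

theorem atom_of_kernel (A : X →L[ℂ] X) (hA : IsSelfAdjoint A) (χ f : X) (ν : Measure ℝ)
    [IsFiniteMeasure ν] (R : ℝ) (hR : ν (Set.Icc (-R) R)ᶜ = 0)
    (hm : ∀ n : ℕ, ((∫ x, x ^ n ∂ν : ℝ) : ℂ) = inner ℂ χ ((A ^ n) χ))
    (hf : A f = 0) (hχ : inner ℂ f χ ≠ 0) : ν {0} ≠ 0 := by
  intro h0
  set S : ℝ := max R 1 with hS
  have hSpos : 0 < S := lt_max_of_lt_right one_pos
  have hSR : ν (Set.Icc (-S) S)ᶜ = 0 := by
    refine measure_mono_null ?_ hR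
    apply Set.compl_subset_compl.2
    apply Set.Icc_subset_Icc
    · exact neg_le_neg (le_max_left _ _)
    · exact le_max_left _ _
  set c : ℝ := (S ^ 2)⁻¹ with hc
  have hcpos : 0 < c := by positivity
  set q : ℕ → ℝ[X] := fun k => (1 - C c * Polynomial.X ^ 2) ^ k with hq
  set B : ℕ → (X →L[ℂ] X) := fun k => aeval A (q k) with hB
  have hB1 : ∀ k, B k = (1 - (c : ℝ) • A ^ 2) ^ k := by
    intro k
    simp only [hB, hq, map_pow, map_sub, map_one, map_mul, aeval_C, aeval_X,
      Algebra.algebraMap_eq_smul_one, smul_mul_assoc, one_mul]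
  have hBsa : ∀ k, IsSelfAdjoint (B k) := by
    intro k
    rw [hB1]
    apply IsSelfAdjoint.pow
    apply IsSelfAdjoint.sub (IsSelfAdjoint.one _)
    exact IsSelfAdjoint.smul (IsSelfAdjoint.all c) (hA.pow 2)
  have hBf : ∀ k, B k f = f := by
    intro k
    rw [hB1]
    induction k with
    | zero => simp
    | succ k ih =>
      rw [pow_succ, mul_apply_eq_comp]
      have : (1 - (c : ℝ) • A ^ 2 : X →L[ℂ] X) f = f := by
        rw [_root_.sub_apply, _root_.smul_apply, pow_two,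
          mul_apply_eq_comp, hf]
        simp
      rw [this, ih]
  -- lower bound of the integrals
  have hlow : ∀ k, ‖inner ℂ f χ‖ ^ 2 ≤ (∫ x, (q k).eval x * (q k).eval x ∂ν) * ‖f‖ ^ 2 := by
    intro k
    have h1 := (poly_moment A χ ν R hR hm (q k * q k)).2
    simp only [eval_mul, map_mul] at h1
    have hsym := (ContinuousLinearMap.isSelfAdjoint_iff_isSymmetric.mp (hBsa k))
    have h2 : inner ℂ χ ((B k * B k) χ) = ((‖B k χ‖ ^ 2 : ℝ) : ℂ) := by
      rw [mul_apply_eq_comp]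
      have : inner ℂ (B k χ) (B k χ) = inner ℂ χ (B k (B k χ)) := hsym χ (B k χ)
      rw [← this, inner_self_eq_norm_sq_to_K]
      norm_cast
    have h3 : (∫ x, (q k).eval x * (q k).eval x ∂ν) = ‖B k χ‖ ^ 2 := by
      have : ((∫ x, (q k).eval x * (q k).eval x ∂ν : ℝ) : ℂ) = ((‖B k χ‖ ^ 2 : ℝ) : ℂ) := by
        rw [h1]; exact h2
      exact_mod_cast this
    rw [h3]
    have h4 : inner ℂ f χ = inner ℂ f (B k χ) := by
      have : inner ℂ (B k f) χ = inner ℂ f (B k χ) := hsym f χ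
      rw [hBf] at this
      exact this
    rw [h4]
    have h5 : ‖inner ℂ f (B k χ)‖ ≤ ‖f‖ * ‖B k χ‖ := norm_inner_le_norm _ _
    calc ‖inner ℂ f (B k χ)‖ ^ 2 ≤ (‖f‖ * ‖B k χ‖) ^ 2 := by gcongr
      _ = _ := by ring
  -- the integrals tend to 0
  have hlim : Tendsto (fun k => ∫ x, (q k).eval x * (q k).eval x ∂ν) atTop (𝓝 0) := by
    have hae : ∀ᵐ x ∂ν, x ∈ Set.Icc (-S) S ∧ x ≠ 0 := by
      have a1 : ∀ᵐ x ∂ν, x ∈ Set.Icc (-S) S := by rw [ae_iff]; exact hSR
      have a2 : ∀ᵐ x ∂ν, x ≠ 0 := by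
        rw [ae_iff]
        convert h0 using 2
        ext x; simp
      filter_upwards [a1, a2] with x h1 h2 using ⟨h1, h2⟩
    have hev : ∀ k x, (q k).eval x * (q k).eval x = ((1 - c * x ^ 2) ^ 2) ^ k := by
      intro k x
      simp only [hq, eval_pow, eval_sub, eval_one, eval_mul, eval_C, eval_X]
      rw [← mul_pow, ← pow_two]
    have hb : ∀ x, x ∈ Set.Icc (-S) S → 0 ≤ c * x ^ 2 ∧ c * x ^ 2 ≤ 1 := by
      intro x hx
      constructor
      · positivity
      · rw [hc, inv_mul_le_iff₀ (by positivity), mul_one]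
        exact sq_le_sq' hx.1 hx.2
    have := tendsto_integral_of_dominated_convergence (μ := ν)
      (F := fun k x => (q k).eval x * (q k).eval x) (f := fun _ => (0 : ℝ)) (fun _ => (1 : ℝ))
      ?_ (integrable_const _) ?_ ?_
    · simpa using this
    · intro k
      exact ((q k).continuous.mul (q k).continuous).aestronglyMeasurable
    · intro k
      filter_upwards [hae] with x hx
      rw [hev]
      have := hb x hx.1
      rw [Real.norm_eq_abs, abs_of_nonneg (by positivity)]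
      apply pow_le_one₀ (by positivity)
      have h1 : 0 ≤ 1 - c * x ^ 2 := by linarith
      have h2 : 1 - c * x ^ 2 ≤ 1 := by linarith
      exact pow_le_one₀ h1 h2
    · filter_upwards [hae] with x hx
      simp only [hev]
      apply tendsto_pow_atTop_nhds_zero_of_lt_one (by positivity)
      have := hb x hx.1
      have hx2 : 0 < c * x ^ 2 := by
        have := hx.2
        positivity
      nlinarith
  have hfin : ‖inner ℂ f χ‖ ^ 2 ≤ 0 * ‖f‖ ^ 2 :=
    ge_of_tendsto' (hlim.mul_const _) hlow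
  rw [zero_mul] at hfin
  have : 0 < ‖inner ℂ f χ‖ ^ 2 := by
    have := norm_pos_iff.2 hχ
    positivity
  linarith

theorem moment_mu (A : X →L[ℂ] X) (hA : IsSelfAdjoint A) (χ : X) (n : ℕ) :
    ((∫ x, x ^ n ∂(Pool.Agent.H54R3.Spec508.mu A χ) : ℝ) : ℂ) = inner ℂ χ ((A ^ n) χ) := by
  rw [(Pool.Agent.H54R3.Spec508.key2 A χ (fun x => x ^ n) (continuous_pow n)).2,
    cfc_pow_id (R := ℝ) A n]

end Abstract

theorem tsum_nbr {P : Type} (T : SimpleGraph P) (N : P → Finset P)
    (hN : ∀ p, T.neighborSet p = (N p : Set P)) (f : P → ℂ) (p : P) :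
    ∑' q : T.neighborSet p, f q = ∑ q ∈ N p, f q := by
  rw [hN p]
  exact Finset.tsum_subtype' (N p) f

theorem nbr_symm {P : Type} (T : SimpleGraph P) (N : P → Finset P)
    (hN : ∀ p, T.neighborSet p = (N p : Set P)) (p q : P) : q ∈ N p ↔ p ∈ N q := by
  have h1 : q ∈ N p ↔ T.Adj p q := by
    rw [← SimpleGraph.mem_neighborSet, hN p]; rfl
  have h2 : p ∈ N q ↔ T.Adj q p := by
    rw [← SimpleGraph.mem_neighborSet, hN q]; rfl
  rw [h1, h2]
  exact T.adj_comm p q

/-- powers of a bounded adjacency operator act as the iterated adjacency operator -/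
theorem pow_apply_eq {P : Type} [DecidableEq P] (T : SimpleGraph P) (N : P → Finset P)
    (hN : ∀ p, T.neighborSet p = (N p : Set P))
    (A : lp (fun _ : P => ℂ) 2 →L[ℂ] lp (fun _ : P => ℂ) 2)
    (hA : ∀ (f : lp (fun _ : P => ℂ) 2) (p : P), A f p = ∑ q ∈ N p, f q) (r : P) (n : ℕ) (p : P) :
    ((A ^ n) (lp.single 2 r (1 : ℂ))) p = (((adjOp T)^[n] (Pi.single r 1) p : ℝ) : ℂ) := by
  induction n generalizing p with
  | zero =>
    by_cases h : p = r
    · subst h; simp
    · simp [h]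
  | succ n ih =>
    rw [pow_succ', mul_apply_eq_comp, hA, Function.iterate_succ_apply']
    have : adjOp T ((adjOp T)^[n] (Pi.single r 1)) p =
        ∑ q ∈ N p, (adjOp T)^[n] (Pi.single r 1) q := by
      unfold adjOp
      rw [hN p]
      exact Finset.tsum_subtype' (N p) _
    rw [this, Complex.ofReal_sum]
    exact Finset.sum_congr rfl (fun q _ => ih q)

theorem exists_matching (G : SimpleGraph V) (o : V) (N : PathFrom G o → Finset (PathFrom G o))
    (hN : ∀ p, (pathTree G o).neighborSet p = (N p : Set (PathFrom G o))) (D : ℕ)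
    (hD : ∀ p, (N p).card ≤ D) : ∃ ν, IsMatchingMeasure G o ν := by
  classical
  obtain ⟨A, hA⟩ := exists_op N (nbr_symm _ N hN) D hD
  set χ : lp (fun _ : PathFrom G o => ℂ) 2 := lp.single 2 (root G o) (1 : ℂ) with hχ
  have hm : ∀ n : ℕ, ((∫ x, x ^ n ∂(Pool.Agent.H54R3.Spec508.mu A χ) : ℝ) : ℂ) =
      inner ℂ χ ((A ^ n) χ) := by
    intro n
    have hAsa := op_selfAdjoint N (nbr_symm _ N hN) A hA
    exact moment_mu A hAsa χ n
  refine ⟨Pool.Agent.H54R3.Spec508.mu A χ, ⟨?_⟩, ⟨‖A‖, ?_⟩, ?_⟩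
  · have h0 := hm 0
    simp only [pow_zero, integral_const, smul_eq_mul, mul_one] at h0
    have h1 : inner ℂ χ ((1 : lp (fun _ : PathFrom G o => ℂ) 2 →L[ℂ] _) χ) = (1 : ℂ) := by
      rw [one_apply_eq_self, hχ, inner_single_left]
      simp
    rw [h1] at h0
    have h2 : (Pool.Agent.H54R3.Spec508.mu A χ).real Set.univ = 1 := by exact_mod_cast h0
    rw [measureReal_def] at h2
    have h3 := (ENNReal.toReal_eq_one_iff _).1 h2
    exact h3
  · refine measure_mono_null ?_ (Pool.Agent.H54R3.Spec508.mu_out A χ)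
    intro x hx
    rw [Set.mem_compl_iff, Set.mem_Icc, ← abs_le] at hx
    exact not_le.1 hx
  · intro n
    have h1 := hm n
    rw [hχ, inner_single_left, pow_apply_eq _ N hN A hA] at h1
    have h2 : ∫ x, x ^ n ∂(Pool.Agent.H54R3.Spec508.mu A χ) =
        (adjOp (pathTree G o))^[n] (Pi.single (root G o) 1) (root G o) := by
      exact_mod_cast h1
    rw [h2]
    unfold moment
    congr!

theorem matching_atom (G : SimpleGraph V) (o : V) (N : PathFrom G o → Finset (PathFrom G o))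
    (hN : ∀ p, (pathTree G o).neighborSet p = (N p : Set (PathFrom G o))) (D : ℕ)
    (hD : ∀ p, (N p).card ≤ D)
    (ν : Measure ℝ) (hν : IsMatchingMeasure G o ν)
    (f : lp (fun _ : PathFrom G o => ℂ) 2) (hf : ∀ p, ∑ q ∈ N p, f q = 0)
    (h0 : f (root G o) ≠ 0) : ν {0} ≠ 0 := by
  classical
  obtain ⟨hp, ⟨R, hR⟩, hm⟩ := hν
  obtain ⟨A, hA⟩ := exists_op N (nbr_symm _ N hN) D hD
  have hsa := op_selfAdjoint N (nbr_symm _ N hN) A hA
  set χ : lp (fun _ : PathFrom G o => ℂ) 2 := lp.single 2 (root G o) (1 : ℂ) with hχ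
  have hm' : ∀ n : ℕ, ((∫ x, x ^ n ∂ν : ℝ) : ℂ) = inner ℂ χ ((A ^ n) χ) := by
    intro n
    rw [hχ, inner_single_left, pow_apply_eq _ N hN A hA, hm n]
    unfold moment
    congr!
  refine atom_of_kernel A hsa χ f ν R hR hm' ?_ ?_
  · ext p
    rw [hA, hf]
    rfl
  · rw [← inner_conj_symm, hχ, inner_single_left]
    simpa using h0

end V11211.MM
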