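import Mathlib

/-!
Paths in the ladder with one vertex removed: a state machine.
-/

set_option autoImplicit false

namespace V11211.MM

/-- vertices of the ladder -/
abbrev LV := ℤ × Bool

/-- The infinite ladder: `(x,s)` and `(y,t)` are adjacent iff `s = t` and `|x - y| = 1`, or
`x = y` and `s ≠ t`. -/
def ladder : SimpleGraph LV where
  Adj p q := (p.2 = q.2 ∧ (q.1 = p.1 + 1 ∨ p.1 = q.1 + 1)) ∨ (p.1 = q.1 ∧ p.2 ≠ q.2)
  symm := ⟨fun p q h => by
    rcases h with ⟨h1, h2⟩ | ⟨h1, h2⟩
    · exact Or.inl ⟨h1.symm, h2.symm⟩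
    · exact Or.inr ⟨h1.symm, h2.symm⟩⟩
  loopless := ⟨fun p h => by
    rcases h with ⟨_, h | h⟩ | ⟨_, h⟩
    · omega
    · omega
    · exact h rfl⟩

inductive Kd
  | start | ahead | turned | back | bad

structure St where
  kd : Kd
  k : ℕ
  g : ℝ
  p : ℝ

inductive Mv
  | V | F | B

noncomputable def badS : St := ⟨Kd.bad, 0, 0, 0⟩

noncomputable def next : St → Mv → St
  | ⟨Kd.start, _, _, _⟩, Mv.F => ⟨Kd.ahead, 0, 0, 1⟩
  | ⟨Kd.ahead, k, g, p⟩, Mv.V => ⟨Kd.turned, k, -p / 2, g⟩
  | ⟨Kd.ahead, k, g, p⟩, Mv.F => ⟨Kd.ahead, k + 1, -p / 2, g⟩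
  | ⟨Kd.turned, _, g, _⟩, Mv.F => ⟨Kd.ahead, 0, 0, g⟩
  | ⟨Kd.turned, k + 1, g, p⟩, Mv.B => ⟨Kd.back, k, -p, g⟩
  | ⟨Kd.back, k + 1, g, p⟩, Mv.B => ⟨Kd.back, k, -p, g⟩
  | _, _ => badS

/-- the direction of a step -/
def mv (a : ℤ) (x w : LV) : Mv :=
  if x.1 = w.1 then Mv.V else if |x.1 - a| < |w.1 - a| then Mv.F else Mv.B

/-- the state of a path -/
noncomputable def st (a : ℤ) : List LV → St
  | [] => badS
  | [_] => ⟨Kd.start, 0, 1, 0⟩
  | w :: x :: rest => next (st a (x :: rest)) (mv a x w)

/-- potential -/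
noncomputable def Cst (S : St) : ℝ :=
  match S.kd with
  | Kd.start => 6
  | Kd.ahead => S.g ^ 2 * (9 / 2 + 2 * S.k) + S.p ^ 2 * (5 / 2 + S.k)
  | Kd.turned => S.g ^ 2 * (7 / 2 + S.k) + S.p ^ 2 * S.k
  | Kd.back => (S.g ^ 2 + S.p ^ 2) * (S.k + 1)
  | Kd.bad => 0

theorem Cst_nonneg (S : St) : 0 ≤ Cst S := by
  obtain ⟨kd, k, g, p⟩ := S
  cases kd <;> simp only [Cst] <;> positivity

theorem energy_step (S : St) (h : S.kd ≠ Kd.start) (hbad : S.kd = Kd.bad → S.g = 0) :
    S.g ^ 2 + Cst (next S Mv.V) + Cst (next S Mv.F) + Cst (next S Mv.B) ≤ Cst S := by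
  obtain ⟨kd, k, g, p⟩ := S
  cases kd with
  | start => exact absurd rfl h
  | ahead =>
    simp only [next, Cst, badS]
    push_cast
    have : 0 ≤ p ^ 2 * k := by positivity
    nlinarith
  | turned =>
    cases k with
    | zero => simp only [next, Cst, badS]; push_cast; nlinarith
    | succ k => simp only [next, Cst, badS]; push_cast; nlinarith
  | back =>
    cases k with
    | zero => simp only [next, Cst, badS]; push_cast; nlinarith [sq_nonneg p]
    | succ k => simp only [next, Cst, badS]; push_cast; nlinarith [sq_nonneg p]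
  | bad =>
    have : g = 0 := hbad rfl
    subst this
    cases k <;> simp [next, Cst, badS]

/-- parity -/
def Par (S : St) : Prop :=
  match S.kd with
  | Kd.start => S.p = 0 ∧ S.g = 1
  | Kd.ahead => (Even S.k → S.g = 0) ∧ (¬ Even S.k → S.p = 0)
  | Kd.turned => (¬ Even S.k → S.g = 0) ∧ (Even S.k → S.p = 0)
  | Kd.back => (Even S.k → S.p = 0) ∧ (¬ Even S.k → S.g = 0)
  | Kd.bad => S.g = 0

theorem Par_next (S : St) (m : Mv) (h : Par S) : Par (next S m) := by
  obtain ⟨kd, k, g, p⟩ := S
  cases kd with
  | start => cases m <;> simp [next, Par, badS]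
  | ahead =>
    obtain ⟨h1, h2⟩ := h
    simp only at h1 h2
    cases m with
    | V =>
      simp only [next, Par]
      exact ⟨fun hk => by rw [h2 hk]; simp, h1⟩
    | F =>
      simp only [next, Par]
      constructor
      · intro hk
        have : ¬ Even k := by rw [Nat.even_add_one] at hk; exact hk
        rw [h2 this]; simp
      · intro hk
        have : Even k := by rw [Nat.even_add_one, not_not] at hk; exact hk
        exact h1 this
    | B => simp [next, Par, badS]
  | turned =>
    obtain ⟨h1, h2⟩ := h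
    simp only at h1 h2
    cases m with
    | V => cases k <;> simp [next, Par, badS]
    | F => cases k <;> simp [next, Par]
    | B =>
      cases k with
      | zero => simp [next, Par, badS]
      | succ k =>
        simp only [next, Par]
        constructor
        · intro hk; apply h1; rw [Nat.even_add_one, not_not]; exact hk
        · intro hk; rw [h2 (by rw [Nat.even_add_one]; exact hk)]; simp
  | back =>
    obtain ⟨h1, h2⟩ := h
    simp only at h1 h2
    cases m with
    | V => cases k <;> simp [next, Par, badS]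
    | F => cases k <;> simp [next, Par, badS]
    | B =>
      cases k with
      | zero => simp [next, Par, badS]
      | succ k =>
        simp only [next, Par]
        constructor
        · intro hk; apply h2; rw [Nat.even_add_one, not_not]; exact hk
        · intro hk; rw [h1 (by rw [Nat.even_add_one]; exact hk)]; simp
  | bad => cases m <;> cases k <;> simp [next, Par, badS]

theorem Par_st (a : ℤ) (l : List LV) : Par (st a l) := by
  induction l with
  | nil => simp [st, Par, badS]
  | cons w l ih =>
    cases l with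
    | nil => simp [st, Par]
    | cons x rest =>
      rw [st]
      exact Par_next _ _ ih

theorem bad_g (a : ℤ) (l : List LV) (h : (st a l).kd = Kd.bad) : (st a l).g = 0 := by
  have := Par_st a l
  unfold Par at this
  rw [h] at this
  exact this

/-- the parent value is recorded -/
theorem next_p (S : St) (m : Mv) (h : (next S m).kd ≠ Kd.bad) (hp : Par S) :
    (next S m).p = S.g := by
  obtain ⟨kd, k, g, p⟩ := S
  cases kd with
  | start =>
    cases m
    · exact absurd rfl h
    · simp only [next]
      exact hp.2.symm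
    · exact absurd rfl h
  | ahead =>
    cases m
    · rfl
    · rfl
    · exact absurd rfl h
  | turned =>
    cases m
    · cases k <;> exact absurd rfl h
    · cases k <;> rfl
    · cases k
      · exact absurd rfl h
      · rfl
  | back =>
    cases m
    · cases k <;> exact absurd rfl h
    · cases k <;> exact absurd rfl h
    · cases k
      · exact absurd rfl h
      · rfl
  | bad => cases m <;> cases k <;> exact absurd rfl h

theorem mv_V (a x : ℤ) (s t : Bool) : mv a (x, s) (x, t) = Mv.V := by simp [mv]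

theorem mv_F (a x σ : ℤ) (s t : Bool) (hσ : σ = 1 ∨ σ = -1) (h : 0 ≤ σ * (x - a)) :
    mv a (x, s) (x + σ, t) = Mv.F := by
  unfold mv
  rw [if_neg (by simp only; omega), if_pos]
  simp only
  rcases hσ with rfl | rfl
  · rw [abs_of_nonneg (by omega), abs_of_nonneg (by omega)]; omega
  · rw [abs_of_nonpos (by omega), abs_of_nonpos (by omega)]; omega

theorem mv_B (a x σ : ℤ) (s t : Bool) (hσ : σ = 1 ∨ σ = -1) (h : 1 ≤ σ * (x - a)) :
    mv a (x, s) (x - σ, t) = Mv.B := by
  unfold mv
  rw [if_neg (by simp only; omega), if_neg]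
  simp only
  rcases hσ with rfl | rfl
  · rw [abs_of_nonneg (by omega), abs_of_nonneg (by omega)]; omega
  · rw [abs_of_nonpos (by omega), abs_of_nonpos (by omega)]; omega

end V11211.MM
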