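import Pool.Agent.V11211.MM3

set_option autoImplicit false

namespace V11211.MM

variable (a : ℤ) (b : Bool)

def AheadI (l : List LV) (x : ℤ) (s : Bool) (k : ℕ) : Prop :=
  ∃ σ : ℤ, (σ = 1 ∨ σ = -1) ∧ (k : ℤ) + 1 ≤ σ * (x - a) ∧
    (∀ y t, ((y, t) : LV) ∈ l → σ * (y - a) ≤ σ * (x - a)) ∧
    (∀ i : ℤ, 1 ≤ i → i ≤ k + 1 → ((x - i * σ, s) : LV) ∈ l) ∧
    (∀ i : ℤ, 0 ≤ i → i ≤ k → ((x - i * σ, !s) : LV) ∉ l) ∧
    (((x - (k + 1) * σ, !s) : LV) ∈ l ∨ ((x - (k + 1) * σ, !s) : LV) = (a, b))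

def TurnedI (l : List LV) (x : ℤ) (s : Bool) (k : ℕ) : Prop :=
  ∃ σ : ℤ, (σ = 1 ∨ σ = -1) ∧ (k : ℤ) + 1 ≤ σ * (x - a) ∧
    (∀ y t, ((y, t) : LV) ∈ l → σ * (y - a) ≤ σ * (x - a)) ∧
    (∀ i : ℤ, 0 ≤ i → i ≤ k + 1 → ((x - i * σ, !s) : LV) ∈ l) ∧
    (∀ i : ℤ, 1 ≤ i → i ≤ k → ((x - i * σ, s) : LV) ∉ l) ∧
    (((x - (k + 1) * σ, s) : LV) ∈ l ∨ ((x - (k + 1) * σ, s) : LV) = (a, b))

def BackI (l : List LV) (x : ℤ) (s : Bool) (k : ℕ) : Prop :=
  ∃ σ : ℤ, (σ = 1 ∨ σ = -1) ∧ (k : ℤ) + 1 ≤ σ * (x - a) ∧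
    ((x + σ, s) : LV) ∈ l ∧
    (∀ i : ℤ, 0 ≤ i → i ≤ k + 1 → ((x - i * σ, !s) : LV) ∈ l) ∧
    (∀ i : ℤ, 1 ≤ i → i ≤ k → ((x - i * σ, s) : LV) ∉ l) ∧
    (((x - (k + 1) * σ, s) : LV) ∈ l ∨ ((x - (k + 1) * σ, s) : LV) = (a, b))

/-- the invariant -/
def Inv (l : List LV) (x : ℤ) (s : Bool) (S : St) : Prop :=
  match S.kd with
  | Kd.start => l = [(a, !b)] ∧ x = a ∧ s = !b
  | Kd.ahead => AheadI a b l x s S.k
  | Kd.turned => TurnedI a b l x s S.k
  | Kd.back => BackI a b l x s S.k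
  | Kd.bad => False

variable {a b}

theorem nb_cases {σ x : ℤ} {s : Bool} (hσ : σ = 1 ∨ σ = -1) {w : LV}
    (h : ladder.Adj w (x, s)) : w = (x + σ, s) ∨ w = (x - σ, s) ∨ w = (x, !s) := by
  obtain ⟨y, t⟩ := w
  rcases h with ⟨h1, h2⟩ | ⟨h1, h2⟩
  · simp only at h1 h2
    subst h1
    rcases hσ with rfl | rfl
    · rcases h2 with h2 | h2
      · right; left; ext <;> simp; omega
      · left; ext <;> simp; omega
    · rcases h2 with h2 | h2
      · left; ext <;> simp; omega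
      · right; left; ext <;> simp; omega
  · simp only at h1 h2
    right; right
    subst h1
    ext
    · rfl
    · simp only
      cases s <;> cases t <;> simp_all

theorem ahead_V {l : List LV} {x : ℤ} {s : Bool} {k : ℕ} (hx : ((x, s) : LV) ∈ l)
    (h : AheadI a b l x s k) : TurnedI a b ((x, !s) :: l) x (!s) k := by
  obtain ⟨σ, hσ, h1, h2, h3, h4, h5⟩ := h
  refine ⟨σ, hσ, h1, ?_, ?_, ?_, ?_⟩
  · intro y t hy
    rcases List.mem_cons.1 hy with hy | hy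
    · simp only [Prod.mk.injEq] at hy; rw [hy.1]
    · exact h2 y t hy
  · intro i hi0 hi1
    rw [Bool.not_not]
    rcases eq_or_lt_of_le hi0 with hi | hi
    · subst hi
      simpa using hx
    · exact List.mem_cons_of_mem _ (h3 i (by omega) hi1)
  · intro i hi0 hi1 hmem
    rcases List.mem_cons.1 hmem with hy | hy
    · simp only [Prod.mk.injEq] at hy
      rcases hσ with rfl | rfl <;> omega
    · exact h4 i (by omega) hi1 hy
  · rcases h5 with h5 | h5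
    · exact Or.inl (List.mem_cons_of_mem _ h5)
    · exact Or.inr h5

theorem ahead_F {l : List LV} {x : ℤ} {s : Bool} {k : ℕ} (hx : ((x, s) : LV) ∈ l)
    {σ : ℤ} (hσ : σ = 1 ∨ σ = -1) (h1 : (k : ℤ) + 1 ≤ σ * (x - a))
    (h2 : ∀ y t, ((y, t) : LV) ∈ l → σ * (y - a) ≤ σ * (x - a))
    (h3 : ∀ i : ℤ, 1 ≤ i → i ≤ k + 1 → ((x - i * σ, s) : LV) ∈ l)
    (h4 : ∀ i : ℤ, 0 ≤ i → i ≤ k → ((x - i * σ, !s) : LV) ∉ l)
    (h5 : ((x - (k + 1) * σ, !s) : LV) ∈ l ∨ ((x - (k + 1) * σ, !s) : LV) = (a, b)) :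
    AheadI a b ((x + σ, s) :: l) (x + σ) s (k + 1) := by
  have hss : σ * σ = 1 := by rcases hσ with rfl | rfl <;> rfl
  have hstep : σ * (x + σ - a) = σ * (x - a) + 1 := by
    rw [show σ * (x + σ - a) = σ * (x - a) + σ * σ by ring, hss]
  refine ⟨σ, hσ, ?_, ?_, ?_, ?_, ?_⟩
  · push_cast; omega
  · intro y t hy
    rcases List.mem_cons.1 hy with hy | hy
    · simp only [Prod.mk.injEq] at hy; rw [hy.1]
    · have := h2 y t hy; omega
  · intro i hi0 hi1
    rw [show x + σ - i * σ = x - (i - 1) * σ by ring]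
    rcases eq_or_lt_of_le hi0 with hi | hi
    · subst hi
      simpa using Or.inr hx
    · exact List.mem_cons_of_mem _ (h3 (i - 1) (by omega) (by push_cast at hi1; omega))
  · intro i hi0 hi1 hmem
    rcases List.mem_cons.1 hmem with hy | hy
    · simp only [Prod.mk.injEq] at hy
      exact Bool.not_ne_self s hy.2
    · rcases eq_or_lt_of_le hi0 with hi | hi
      · subst hi
        have := h2 _ _ hy
        rw [zero_mul, sub_zero, hstep] at this
        omega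
      · rw [show x + σ - i * σ = x - (i - 1) * σ by ring] at hy
        exact h4 (i - 1) (by omega) (by push_cast at hi1; omega) hy
  · have e : x + σ - ((k + 1 : ℕ) + 1) * σ = x - (k + 1) * σ := by push_cast; ring
    rw [e]
    rcases h5 with h5 | h5
    · exact Or.inl (List.mem_cons_of_mem _ h5)
    · exact Or.inr h5

theorem turned_F {l : List LV} {x : ℤ} {s : Bool} {k : ℕ} (hx : ((x, s) : LV) ∈ l)
    {σ : ℤ} (hσ : σ = 1 ∨ σ = -1) (h1 : (k : ℤ) + 1 ≤ σ * (x - a))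
    (h2 : ∀ y t, ((y, t) : LV) ∈ l → σ * (y - a) ≤ σ * (x - a))
    (h3 : ((x, !s) : LV) ∈ l) :
    AheadI a b ((x + σ, s) :: l) (x + σ) s 0 := by
  have hss : σ * σ = 1 := by rcases hσ with rfl | rfl <;> rfl
  have hstep : σ * (x + σ - a) = σ * (x - a) + 1 := by
    rw [show σ * (x + σ - a) = σ * (x - a) + σ * σ by ring, hss]
  refine ⟨σ, hσ, ?_, ?_, ?_, ?_, ?_⟩
  · push_cast; omega
  · intro y t hy
    rcases List.mem_cons.1 hy with hy | hy
    · simp only [Prod.mk.injEq] at hy; rw [hy.1]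
    · have := h2 y t hy; omega
  · intro i hi0 hi1
    have hi : i = 1 := by push_cast at hi1; omega
    subst hi
    rw [show x + σ - 1 * σ = x by ring]
    exact List.mem_cons_of_mem _ hx
  · intro i hi0 hi1 hmem
    have hi : i = 0 := by push_cast at hi1; omega
    subst hi
    rcases List.mem_cons.1 hmem with hy | hy
    · simp only [Prod.mk.injEq] at hy
      exact Bool.not_ne_self s hy.2
    · have := h2 _ _ hy
      rw [zero_mul, sub_zero, hstep] at this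
      omega
  · left
    rw [show x + σ - ((0 : ℕ) + 1) * σ = x by push_cast; ring]
    exact List.mem_cons_of_mem _ h3

theorem back_B {l : List LV} {x : ℤ} {s : Bool} {k : ℕ} (hx : ((x, s) : LV) ∈ l)
    {σ : ℤ} (hσ : σ = 1 ∨ σ = -1) (h1 : ((k + 1 : ℕ) : ℤ) + 1 ≤ σ * (x - a))
    (h3 : ∀ i : ℤ, 0 ≤ i → i ≤ (k + 1 : ℕ) + 1 → ((x - i * σ, !s) : LV) ∈ l)
    (h4 : ∀ i : ℤ, 1 ≤ i → i ≤ (k + 1 : ℕ) → ((x - i * σ, s) : LV) ∉ l)
    (h5 : ((x - ((k + 1 : ℕ) + 1) * σ, s) : LV) ∈ l ∨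
      ((x - ((k + 1 : ℕ) + 1) * σ, s) : LV) = (a, b)) :
    BackI a b ((x - σ, s) :: l) (x - σ) s k := by
  have hss : σ * σ = 1 := by rcases hσ with rfl | rfl <;> rfl
  have hstep : σ * (x - σ - a) = σ * (x - a) - 1 := by
    rw [show σ * (x - σ - a) = σ * (x - a) - σ * σ by ring, hss]
  refine ⟨σ, hσ, ?_, ?_, ?_, ?_, ?_⟩
  · push_cast at h1; omega
  · rw [sub_add_cancel]; exact List.mem_cons_of_mem _ hx
  · intro i hi0 hi1
    rw [show x - σ - i * σ = x - (i + 1) * σ by ring]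
    exact List.mem_cons_of_mem _ (h3 (i + 1) (by omega) (by push_cast; omega))
  · intro i hi0 hi1 hmem
    rw [show x - σ - i * σ = x - (i + 1) * σ by ring] at hmem
    rcases List.mem_cons.1 hmem with hy | hy
    · simp only [Prod.mk.injEq] at hy
      rcases hσ with rfl | rfl <;> omega
    · exact h4 (i + 1) (by omega) (by push_cast; omega) hy
  · have e : x - σ - (k + 1) * σ = x - ((k + 1 : ℕ) + 1) * σ := by push_cast; ring
    rw [e]
    rcases h5 with h5 | h5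
    · exact Or.inl (List.mem_cons_of_mem _ h5)
    · exact Or.inr h5

theorem start_F {σ : ℤ} (hσ : σ = 1 ∨ σ = -1) :
    AheadI a b [(a + σ, !b), (a, !b)] (a + σ) (!b) 0 := by
  have hss : σ * σ = 1 := by rcases hσ with rfl | rfl <;> rfl
  have hstep : σ * (a + σ - a) = 1 := by
    rw [show σ * (a + σ - a) = σ * σ by ring, hss]
  refine ⟨σ, hσ, ?_, ?_, ?_, ?_, ?_⟩
  · rw [hstep]; simp
  · intro y t hy
    rw [hstep]
    simp only [List.mem_cons, Prod.mk.injEq, List.not_mem_nil, or_false] at hy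
    rcases hy with hy | hy
    · rw [hy.1, hstep]
    · rw [hy.1]; simp
  · intro i hi0 hi1
    have hi : i = 1 := by push_cast at hi1; omega
    subst hi
    simp
  · intro i hi0 hi1 hmem
    have hi : i = 0 := by push_cast at hi1; omega
    subst hi
    simp at hmem
  · right; simp

end V11211.MM
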