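import Pool.Agent.V11211.Trace
import Pool.Agent.V11211.Depth

/-!
# Equivariant systems of parameters and the trace on the quotient
-/

set_option autoImplicit false

namespace Pool.Agent.V11211

open IsLocalRing RingTheory.Sequence Pointwise

universe u

section generic

variable {k : Type*} [Field k] {A : Type u} [CommRing A] [IsLocalRing A] [IsNoetherianRing A]
  [Algebra k A]

omit [IsNoetherianRing A] in
lemma radical_ge_iff (I : Ideal A) :
    maximalIdeal A ≤ I.radical ↔ ∀ P : Ideal A, P.IsPrime → I ≤ P → P = ⊤ ∨ P = maximalIdeal A := by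
  constructor
  · intro h P hP hI
    right
    exact le_antisymm (IsLocalRing.le_maximalIdeal hP.ne_top) (h.trans (hP.radical_le_iff.2 hI))
  · intro h
    rw [Ideal.radical_eq_sInf]
    refine le_sInf ?_
    rintro P ⟨hI, hP⟩
    rcases h P hP hI with h1 | h1
    · rw [h1]; exact le_top
    · rw [h1]

lemma minimal_of_nonmax (I : Ideal A) (c : A) (hc : maximalIdeal A ≤ (I ⊔ Ideal.span {c}).radical)
    (hI : I ≤ maximalIdeal A) (hcm : c ∈ maximalIdeal A)
    (P : Ideal A) [hP : P.IsPrime] (hIP : I ≤ P) (hne : P ≠ maximalIdeal A) :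
    P ∈ I.minimalPrimes := by
  have hlt : P < maximalIdeal A :=
    lt_of_le_of_ne (IsLocalRing.le_maximalIdeal hP.ne_top) hne
  have hspan : Ideal.span (insert c (I : Set A)) = I ⊔ Ideal.span {c} := by
    rw [Ideal.span_insert, Ideal.span_eq, sup_comm]
  have h1 := Ideal.mem_minimalPrimes_span_of_mem_minimalPrimes_span_insert hlt c (I : Set A)
    (by
      rw [hspan]
      refine ⟨⟨inferInstance, sup_le hI ((Ideal.span_singleton_le_iff_mem _).2 hcm)⟩, ?_⟩
      rintro Q ⟨hQ, hQI⟩ -
      exact hc.trans (hQ.radical_le_iff.2 hQI)) (I : Set A) hIP (by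
      rw [hspan]
      exact fun x hx => Ideal.le_radical (Ideal.mem_sup_left hx))
  rwa [Ideal.span_eq] at h1

/-- all but finitely many members of the pencil `a + t b` complete `I` to an ideal primary to the
maximal ideal, if one of `a`, `b` does -/
lemma finite_pencil (I : Ideal A) (a b c : A) (hI : I ≤ maximalIdeal A)
    (hcm : c ∈ maximalIdeal A)
    (hc : maximalIdeal A ≤ (I ⊔ Ideal.span {c}).radical)
    (hab : ∀ s t : k, s ≠ t → ∀ P : Ideal A, a + s • b ∈ P → a + t • b ∈ P → c ∈ P) :
    {t : k | ¬ maximalIdeal A ≤ (I ⊔ Ideal.span {a + t • b}).radical}.Finite := by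
  have hsub : {t : k | ¬ maximalIdeal A ≤ (I ⊔ Ideal.span {a + t • b}).radical} ⊆
      ⋃ P ∈ {P ∈ I.minimalPrimes | P ≠ maximalIdeal A}, {t : k | a + t • b ∈ P} := by
    intro t ht
    rw [Set.mem_ofPred_eq, radical_ge_iff] at ht
    push Not at ht
    obtain ⟨P, hP, hIP, -, hne⟩ := ht
    simp only [Set.mem_iUnion]
    refine ⟨P, ⟨minimal_of_nonmax I c hc hI hcm P (le_sup_left.trans hIP) hne, hne⟩, ?_⟩
    exact hIP (Ideal.mem_sup_right (Ideal.mem_span_singleton_self _))
  refine Set.Finite.subset ?_ hsub
  refine Set.Finite.biUnion ?_ ?_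
  · exact (Ideal.finite_minimalPrimes_of_isNoetherianRing A I).subset (fun P hP => hP.1)
  · rintro P ⟨hP, hne⟩
    refine Set.Subsingleton.finite ?_
    intro s hs t ht
    by_contra hst
    have hcP : c ∈ P := hab s t hst P hs ht
    have hPp : P.IsPrime := hP.1.1
    have h2 : maximalIdeal A ≤ P := hc.trans (hPp.radical_le_iff.2
      (sup_le hP.1.2 ((Ideal.span_singleton_le_iff_mem _).2 hcP)))
    exact hne (le_antisymm (IsLocalRing.le_maximalIdeal hPp.ne_top) h2)

lemma exists_pencil [Infinite k] (I J : Ideal A) (a b : A) (hI : I ≤ maximalIdeal A)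
    (hJ : J ≤ maximalIdeal A)
    (ham : a ∈ maximalIdeal A) (hbm : b ∈ maximalIdeal A)
    (ha : maximalIdeal A ≤ (I ⊔ Ideal.span {a}).radical)
    (hb : maximalIdeal A ≤ (J ⊔ Ideal.span {b}).radical) :
    ∃ t : k, maximalIdeal A ≤ (I ⊔ Ideal.span {a + t • b}).radical ∧
      maximalIdeal A ≤ (J ⊔ Ideal.span {a + t • b}).radical := by
  have hbP : ∀ s t : k, s ≠ t → ∀ P : Ideal A, a + s • b ∈ P → a + t • b ∈ P → b ∈ P := by
    intro s t hst P h1 h2
    have h3 : (s - t) • b ∈ P := by
      have h4 := P.sub_mem h1 h2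
      rwa [add_sub_add_left_eq_sub, ← sub_smul] at h4
    have h4 : b = algebraMap k A (s - t)⁻¹ * ((s - t) • b) := by
      rw [← Algebra.smul_def, smul_smul, inv_mul_cancel₀ (sub_ne_zero.2 hst), one_smul]
    rw [h4]
    exact P.mul_mem_left _ h3
  have haP : ∀ s t : k, s ≠ t → ∀ P : Ideal A, a + s • b ∈ P → a + t • b ∈ P → a ∈ P := by
    intro s t hst P h1 h2
    have h3 := hbP s t hst P h1 h2
    have h4 : a = (a + s • b) - algebraMap k A s * b := by
      rw [← Algebra.smul_def, add_sub_cancel_right]
    rw [h4]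
    exact P.sub_mem h1 (P.mul_mem_left _ h3)
  have h1 := finite_pencil (k := k) I a b a hI ham ha haP
  have h2 := finite_pencil (k := k) J a b b hJ hbm hb hbP
  obtain ⟨t, ht⟩ := (h1.union h2).infinite_compl.nonempty
  refine ⟨t, ?_, ?_⟩
  · by_contra hcon
    exact ht (Or.inl hcon)
  · by_contra hcon
    exact ht (Or.inr hcon)

end generic

section systems

variable {k : Type*} [Field k] [Infinite k] {A : Type u} [CommRing A] [IsLocalRing A]
  [IsNoetherianRing A] [Algebra k A] {n : ℕ}

/-- the ideal generated by all but the `j`-th entry -/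
def others (w : Fin n → A) (j : Fin n) : Ideal A := Ideal.span (w '' {i | i ≠ j})

omit [IsLocalRing A] [IsNoetherianRing A] in
lemma span_range_eq (w : Fin n → A) (j : Fin n) :
    Ideal.span (Set.range w) = others w j ⊔ Ideal.span {w j} := by
  rw [others, ← Ideal.span_union]
  congr 1
  ext x
  constructor
  · rintro ⟨i, rfl⟩
    by_cases h : i = j
    · exact Or.inr (by rw [h]; rfl)
    · exact Or.inl ⟨i, h, rfl⟩
  · rintro (⟨i, -, rfl⟩ | h)
    · exact ⟨i, rfl⟩
    · exact ⟨j, h.symm⟩

omit [IsLocalRing A] [IsNoetherianRing A] in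
lemma others_congr (w w' : Fin n → A) (j : Fin n) (h : ∀ i, i ≠ j → w i = w' i) :
    others w j = others w' j := by
  rw [others, others]
  congr 1
  exact Set.image_congr (fun i hi => h i hi)

/-- In a local ring of depth at least `n`, the last member of a system of `n` parameters is a
nonzerodivisor modulo the others. -/
lemma regular_last (k : Type*) [Field k] [Infinite k] [Algebra k A] (hdep : Dep (A := A) A n) (w : Fin n → A) (hm : ∀ i, w i ∈ maximalIdeal A)
    (hrad : maximalIdeal A ≤ (Ideal.span (Set.range w)).radical) (j : Fin n) (y : A)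
    (hy : w j * y ∈ others w j) : y ∈ others w j := by
  classical
  let vs : List A := ((Finset.univ.erase j).toList.map w)
  have hvs : Ideal.ofList vs = others w j := by
    rw [Ideal.ofList, others]
    congr 1
    ext x
    simp only [vs, List.mem_map, Finset.mem_toList, Finset.mem_erase, Finset.mem_univ, and_true,
      Set.mem_image, Set.mem_ofPred_eq]
  have hlen : (vs ++ [w j]).length = n := by
    simp only [vs, List.length_append, List.length_map, Finset.length_toList, List.length_singleton]
    rw [Finset.card_erase_of_mem (Finset.mem_univ j), Finset.card_univ, Fintype.card_fin]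
    have := j.pos
    omega
  have hmem : ∀ x ∈ vs ++ [w j], x ∈ maximalIdeal A := by
    intro x hx
    rw [List.mem_append, List.mem_singleton] at hx
    rcases hx with hx | rfl
    · simp only [vs, List.mem_map] at hx
      obtain ⟨i, -, rfl⟩ := hx
      exact hm i
    · exact hm j
  have hreg := isRegular_of_dep (k := k) n A (vs ++ [w j]) hlen hmem hdep (by
    refine hrad.trans (Ideal.radical_mono ?_)
    rw [Ideal.ofList_append, hvs, Ideal.ofList_singleton, ← span_range_eq]
    exact le_sup_left)
  have h1 := ((isWeaklyRegular_append_iff A vs [w j]).1 hreg.toIsWeaklyRegular).2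
  have h2 := (isWeaklyRegular_singleton_iff _ (w j)).1 h1
  have h3 : (Ideal.ofList vs • ⊤ : Submodule A A) = others w j := by
    rw [hvs, Ideal.smul_eq_mul, Ideal.mul_top]
  have h4 : (Submodule.Quotient.mk y : A ⧸ (Ideal.ofList vs • ⊤ : Submodule A A)) = 0 := by
    apply h2
    change (w j) • (Submodule.Quotient.mk y : A ⧸ (Ideal.ofList vs • ⊤ : Submodule A A)) =
      (w j) • 0
    rw [smul_zero, ← Submodule.Quotient.mk_smul, Submodule.Quotient.mk_eq_zero, h3]
    exact hy
  rwa [Submodule.Quotient.mk_eq_zero, h3] at h4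

variable (φ : A →ₐ[k] A) (ζ : Fin n → k)

/-- an equivariant system of parameters -/
structure Sys (w : Fin n → A) : Prop where
  mem : ∀ i, w i ∈ maximalIdeal A
  eig : ∀ i, φ (w i) = ζ i • w i
  rad : maximalIdeal A ≤ (Ideal.span (Set.range w)).radical

variable {φ ζ}

omit [Infinite k] [IsNoetherianRing A] in
lemma Sys.inv {w : Fin n → A} (h : Sys φ ζ w) :
    Ideal.span (Set.range w) ≤ (Ideal.span (Set.range w)).comap φ := by
  rw [Ideal.span_le]
  rintro _ ⟨i, rfl⟩
  rw [SetLike.mem_coe, Ideal.mem_comap, h.eig, Algebra.smul_def]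
  exact Ideal.mul_mem_left _ _ (Ideal.subset_span ⟨i, rfl⟩)

omit [Infinite k] [IsLocalRing A] [IsNoetherianRing A] in
lemma others_inv {w : Fin n → A} (h : ∀ i, φ (w i) = ζ i • w i) (j : Fin n) :
    others w j ≤ (others w j).comap φ := by
  rw [others, Ideal.span_le]
  rintro _ ⟨i, hi, rfl⟩
  rw [SetLike.mem_coe, Ideal.mem_comap, h, Algebra.smul_def]
  exact Ideal.mul_mem_left _ _ (Ideal.subset_span ⟨i, hi, rfl⟩)

omit [Infinite k] [IsLocalRing A] [IsNoetherianRing A] in
lemma tau_congr (I J : Ideal A) (h : I = J) (hI : I ≤ I.comap φ) (hJ : J ≤ J.comap φ) :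
    tau φ I hI = tau φ J hJ := by
  subst h
  rfl

/-- changing one member of an equivariant system of parameters, the eigenvalue of which is not one,
does not change the trace -/
lemma swap_step (hfin : ∀ I : Ideal A, maximalIdeal A ≤ I.radical → Module.Finite k (A ⧸ I))
    (hdep : Dep (A := A) A n) (hζ : ∀ i, ζ i ≠ 0) {u w : Fin n → A} (hu : Sys φ ζ u)
    (hw : Sys φ ζ w) (j : Fin n) (hj : ζ j ≠ 1) (huw : ∀ i, i ≠ j → u i = w i) :
    tau φ _ hu.inv = tau φ _ hw.inv := by
  set I := others u j with hI
  have hIw : others w j = I := (others_congr u w j huw).symm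
  have hinv : I ≤ I.comap φ := others_inv hu.eig j
  let ψ : (A ⧸ I) →ₐ[k] (A ⧸ I) := Ideal.quotientMapₐ I φ hinv
  have hψ : ∀ x, ψ (Ideal.Quotient.mk I x) = Ideal.Quotient.mk I (φ x) := fun x => rfl
  -- the comparison
  have key : ∀ (v : Fin n → A) (hv : Sys φ ζ v) (hIv : others v j = I),
      ∃ (h1 : Ideal.span {Ideal.Quotient.mk I (v j)} ≤
        (Ideal.span {Ideal.Quotient.mk I (v j)}).comap ψ)
        (_ : Module.Finite k ((A ⧸ I) ⧸ Ideal.span {Ideal.Quotient.mk I (v j)})),
        ψ (Ideal.Quotient.mk I (v j)) = ζ j • Ideal.Quotient.mk I (v j) ∧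
        (∀ x, Ideal.Quotient.mk I (v j) * x = 0 → x = 0) ∧
        tau ψ _ h1 = tau φ _ hv.inv := by
    intro v hv hIv
    have e1 : ψ (Ideal.Quotient.mk I (v j)) = ζ j • Ideal.Quotient.mk I (v j) := by
      rw [hψ, hv.eig]
      rfl
    have h1 : Ideal.span {Ideal.Quotient.mk I (v j)} ≤
        (Ideal.span {Ideal.Quotient.mk I (v j)}).comap ψ := by
      rw [Ideal.span_singleton_le_iff_mem, Ideal.mem_comap, e1, Algebra.smul_def]
      exact Ideal.mul_mem_left _ _ (Ideal.mem_span_singleton_self _)
    let q : A →ₗ[k] ((A ⧸ I) ⧸ Ideal.span {Ideal.Quotient.mk I (v j)}) :=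
      (Ideal.Quotient.mkₐ k (Ideal.span {Ideal.Quotient.mk I (v j)})).toLinearMap ∘ₗ
        (Ideal.Quotient.mkₐ k I).toLinearMap
    have hq : Function.Surjective q :=
      (Ideal.Quotient.mk_surjective).comp (Ideal.Quotient.mk_surjective)
    have hqk : ∀ x, q x = 0 ↔ x ∈ Ideal.span (Set.range v) := by
      intro x
      have h2 : q x = 0 ↔ Ideal.Quotient.mk I x ∈ Ideal.span {Ideal.Quotient.mk I (v j)} :=
        Ideal.Quotient.eq_zero_iff_mem
      rw [h2, span_range_eq v j, hIv, Ideal.mem_span_singleton']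
      constructor
      · rintro ⟨y, hy⟩
        obtain ⟨y, rfl⟩ := Ideal.Quotient.mk_surjective y
        rw [← map_mul, Ideal.Quotient.eq] at hy
        have h3 : x = -(y * v j - x) + y * v j := by ring
        rw [h3]
        exact Ideal.add_mem _ (Ideal.mem_sup_left (I.neg_mem hy))
          (Ideal.mem_sup_right (Ideal.mul_mem_left _ _ (Ideal.mem_span_singleton_self _)))
      · intro hx
        obtain ⟨y, hy, z, hz, rfl⟩ := Submodule.mem_sup.1 hx
        obtain ⟨t, rfl⟩ := Ideal.mem_span_singleton'.1 hz
        refine ⟨Ideal.Quotient.mk I t, ?_⟩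
        rw [map_add, Ideal.Quotient.eq_zero_iff_mem.2 hy, zero_add, map_mul]
    have hfv : Module.Finite k (A ⧸ Ideal.span (Set.range v)) := hfin _ hv.rad
    have hker : LinearMap.ker (Ideal.Quotient.mkₐ k (Ideal.span (Set.range v))).toLinearMap =
        LinearMap.ker q := by
      ext x
      rw [LinearMap.mem_ker, LinearMap.mem_ker, hqk]
      exact Ideal.Quotient.eq_zero_iff_mem
    have h2 : Module.Finite k ((A ⧸ I) ⧸ Ideal.span {Ideal.Quotient.mk I (v j)}) := by
      have e2 : (A ⧸ LinearMap.ker (Ideal.Quotient.mkₐ k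
          (Ideal.span (Set.range v))).toLinearMap) ≃ₗ[k] (A ⧸ LinearMap.ker q) :=
        Submodule.quotEquivOfEq _ _ hker
      let e3 := LinearMap.quotKerEquivOfSurjective
        (Ideal.Quotient.mkₐ k (Ideal.span (Set.range v))).toLinearMap
        Ideal.Quotient.mk_surjective
      let e4 := LinearMap.quotKerEquivOfSurjective q hq
      exact Module.Finite.equiv (e3.symm ≪≫ₗ e2 ≪≫ₗ e4)
    refine ⟨h1, h2, e1, ?_, ?_⟩
    · intro x hx
      obtain ⟨x, rfl⟩ := Ideal.Quotient.mk_surjective x
      rw [← map_mul, Ideal.Quotient.eq_zero_iff_mem, ← hIv] at hx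
      rw [Ideal.Quotient.eq_zero_iff_mem, ← hIv]
      exact regular_last k hdep v hv.mem hv.rad j x hx
    · symm
      exact trace_eq_of_surj φ.toLinearMap _ _
        (Ideal.Quotient.mkₐ k (Ideal.span (Set.range v))).toLinearMap q
        Ideal.Quotient.mk_surjective hq hker (fun x => rfl) (fun x => rfl)
  obtain ⟨hu1, hu2, hu3, hu4, hu5⟩ := key u hu rfl
  obtain ⟨hw1, hw2, hw3, hw4, hw5⟩ := key w hw hIw
  rw [← hu5, ← hw5]
  exact swap ψ _ _ (ζ j) (hζ j) hj hu3 hw3 hu4 hw4 hu1 hw1

/-- **Connectedness.** The trace of `φ` on the quotient by an equivariant system of parameters only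
depends on the members with eigenvalue one. -/
theorem tau_eq (hfin : ∀ I : Ideal A, maximalIdeal A ≤ I.radical → Module.Finite k (A ⧸ I))
    (hdep : Dep (A := A) A n) (hζ : ∀ i, ζ i ≠ 0) {u w : Fin n → A} (hu : Sys φ ζ u)
    (hw : Sys φ ζ w) (huw : ∀ i, ζ i = 1 → u i = w i) :
    tau φ _ hu.inv = tau φ _ hw.inv := by
  classical
  obtain ⟨N, hN⟩ : ∃ N, (Finset.univ.filter (fun i => u i ≠ w i)).card = N := ⟨_, rfl⟩
  induction N generalizing u w with
  | zero =>
    rw [Finset.card_eq_zero, Finset.filter_eq_empty_iff] at hN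
    have h : u = w := by
      funext i
      by_contra hcon
      exact hN (Finset.mem_univ i) hcon
    subst h
    rfl
  | succ N ih =>
    obtain ⟨j, hj⟩ : (Finset.univ.filter (fun i => u i ≠ w i)).Nonempty := by
      rw [← Finset.card_pos, hN]
      exact N.succ_pos
    have hjne : u j ≠ w j := (Finset.mem_filter.1 hj).2
    have hj1 : ζ j ≠ 1 := fun h => hjne (huw j h)
    have hle : ∀ v : Fin n → A, Sys φ ζ v → others v j ≤ maximalIdeal A := by
      intro v hv
      rw [others, Ideal.span_le]
      rintro _ ⟨i, -, rfl⟩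
      exact hv.mem i
    obtain ⟨t, ht1, ht2⟩ := exists_pencil (k := k) (others u j) (others w j) (u j) (w j)
      (hle u hu) (hle w hw) (hu.mem j) (hw.mem j)
      (by rw [← span_range_eq]; exact hu.rad) (by rw [← span_range_eq]; exact hw.rad)
    set y := u j + t • w j with hy
    have hym : y ∈ maximalIdeal A := by
      rw [hy, Algebra.smul_def]
      exact Ideal.add_mem _ (hu.mem j) (Ideal.mul_mem_left _ _ (hw.mem j))
    have hye : φ y = ζ j • y := by
      rw [hy, map_add, map_smul, hu.eig, hw.eig, smul_add, smul_comm]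
    have hsys : ∀ v : Fin n → A, Sys φ ζ v →
        maximalIdeal A ≤ (others v j ⊔ Ideal.span {y}).radical →
        Sys φ ζ (Function.update v j y) := by
      intro v hv hrad
      refine ⟨?_, ?_, ?_⟩
      · intro i
        by_cases hi : i = j
        · rw [hi, Function.update_self]; exact hym
        · rw [Function.update_of_ne hi]; exact hv.mem i
      · intro i
        by_cases hi : i = j
        · rw [hi, Function.update_self]; exact hye
        · rw [Function.update_of_ne hi]; exact hv.eig i
      · rw [span_range_eq _ j, Function.update_self,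
          others_congr (Function.update v j y) v j (fun i hi => Function.update_of_ne hi _ _)]
        exact hrad
    have hu' := hsys u hu ht1
    have hw' := hsys w hw ht2
    have e1 := swap_step hfin hdep hζ hu hu' j hj1 (fun i hi => (Function.update_of_ne hi _ _).symm)
    have e2 := swap_step hfin hdep hζ hw hw' j hj1 (fun i hi => (Function.update_of_ne hi _ _).symm)
    rw [e1, e2]
    refine ih hu' hw' ?_ ?_
    · intro i hi
      have hij : i ≠ j := fun h => hj1 (h ▸ hi)
      rw [Function.update_of_ne hij, Function.update_of_ne hij]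
      exact huw i hi
    · have h5 : Finset.univ.filter (fun i => Function.update u j y i ≠ Function.update w j y i) =
          (Finset.univ.filter (fun i => u i ≠ w i)).erase j := by
        ext i
        simp only [Finset.mem_filter, Finset.mem_univ, true_and, Finset.mem_erase]
        by_cases hi : i = j
        · subst hi
          simp
        · rw [Function.update_of_ne hi, Function.update_of_ne hi]
          simp [hi]
      rw [h5, Finset.card_erase_of_mem hj, hN]
      rfl

end systems

end Pool.Agent.V11211
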