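import Pool.Agent.H986R3.SOAFinal

/-!
# `Sigma^1_1-AC_0` and closures of its axioms
-/

set_option autoImplicit false

namespace Pool.Agent.V11211.SR

open Function Pool.Agent.H986R3.SOA

/-- `X_j = (X_z)_n` for `n = x_i`: every number `u` is in `X_j` if and only if the pair `(x_i, u)`
is in `X_z`. -/
def secEq (i j z u : ℕ) : Fm := .all u (.iff (.mem (.var u) j) (.mem (prT (.var i) (.var u)) z))

/-- The axiom of choice for the formula `η(x_i, X_j)`:
`∀ x_i ∃ X_j η → ∃ X_z ∀ x_i ∃ X_j (X_j = (X_z)_(x_i) ∧ η)`. -/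
def choiceAx (η : Fm) (i j z u : ℕ) : Fm :=
  .imp (.all i (.exS j η)) (.exS z (.all i (.exS j (.and (secEq i j z u) η))))

/-- The axioms of `Sigma^1_1-AC_0`: those of `ACA_0` and the choice axioms for the `Sigma^1_1`
formulas `η` in which the set variable `X_z` is not free. -/
inductive SigmaAC0 : Fm → Prop
  | aca (φ : Fm) : ACA0 φ → SigmaAC0 φ
  | choice (η : Fm) (i j z u : ℕ) : η.IsSigma11 → z ∉ η.fvS → z ≠ j → u ≠ i →
      SigmaAC0 (choiceAx η i j z u)

theorem Sat_choiceAx (M : Model) (v : ℕ → M.Num) (V : ℕ → Set M.Num) (η : Fm) (i j z u : ℕ)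
    (hz : z ∉ η.fvS) (hzj : z ≠ j) (hu : u ≠ i) :
    Sat M v V (choiceAx η i j z u) ↔
      ((∀ n, ∃ A ∈ M.sets, Sat M (update v i n) (update V j A) η) →
        ∃ Z ∈ M.sets, ∀ n, ∃ A ∈ M.sets, (∀ w, w ∈ A ↔ M.pr n w ∈ Z) ∧
          Sat M (update v i n) (update V j A) η) := by
  unfold choiceAx secEq
  simp only [Sat_imp, Sat, Sat_exS, Sat_iff, val_prT, Tm.val, update_self]
  refine imp_congr Iff.rfl (exists_congr fun Z => and_congr Iff.rfl (forall_congr' fun n =>
    exists_congr fun A => and_congr Iff.rfl (and_congr (forall_congr' fun w => ?_) ?_)))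
  · rw [update_of_ne hu.symm, update_self, update_of_ne hzj, update_self]
  · refine Sat_congr M η _ _ _ _ (fun _ _ => rfl) fun k hk => ?_
    have hkz : k ≠ z := fun h => hz (h ▸ hk)
    by_cases hkj : k = j
    · subst hkj; simp
    · rw [update_of_ne hkj, update_of_ne hkz, update_of_ne hkj]

theorem Sat_comp (M : Model) (v : ℕ → M.Num) (V : ℕ → Set M.Num) (φ : Fm) (i j : ℕ)
    (hj : j ∉ φ.fvS) :
    Sat M v V (.exS j (.all i (.iff (.mem (.var i) j) φ))) ↔
      ∃ A ∈ M.sets, ∀ a, (a ∈ A ↔ Sat M (update v i a) V φ) := by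
  simp only [Sat_exS, Sat, Sat_iff, Tm.val, update_self]
  refine exists_congr fun A => and_congr Iff.rfl (forall_congr' fun a => iff_congr Iff.rfl ?_)
  refine Sat_congr M φ _ _ _ _ (fun _ _ => rfl) fun k hk => ?_
  have hkj : k ≠ j := fun h => hj (by rw [← h]; exact hk)
  exact update_of_ne hkj _ _

/-! ### Closures -/

def closN : ℕ → Fm → Fm
  | 0, φ => φ
  | k + 1, φ => .all k (closN k φ)

def closS : ℕ → Fm → Fm
  | 0, φ => φ
  | k + 1, φ => .allS k (closS k φ)

/-- The universal closure with respect to all variables with indices less than `k`. -/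
def clos (k : ℕ) (φ : Fm) : Fm := closN k (closS k φ)

theorem holds_all (M : Model) (i : ℕ) (φ : Fm) : M.Holds (.all i φ) ↔ M.Holds φ := by
  constructor
  · intro h v V hV
    have := h v V hV (v i)
    rwa [update_eq_self] at this
  · intro h v V hV a
    exact h _ V hV

theorem holds_allS (M : Model) (i : ℕ) (φ : Fm) : M.Holds (.allS i φ) ↔ M.Holds φ := by
  constructor
  · intro h v V hV
    have := h v V hV (V i) (hV i)
    rwa [update_eq_self] at this
  · intro h v V hV A hA
    refine h v _ fun j => ?_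
    by_cases hj : j = i
    · subst hj; simpa using hA
    · rw [update_of_ne hj]; exact hV j

theorem holds_closN (M : Model) (k : ℕ) (φ : Fm) : M.Holds (closN k φ) ↔ M.Holds φ := by
  induction k with
  | zero => rfl
  | succ k ih => rw [closN, holds_all, ih]

theorem holds_closS (M : Model) (k : ℕ) (φ : Fm) : M.Holds (closS k φ) ↔ M.Holds φ := by
  induction k with
  | zero => rfl
  | succ k ih => rw [closS, holds_allS, ih]

theorem holds_clos (M : Model) (k : ℕ) (φ : Fm) : M.Holds (clos k φ) ↔ M.Holds φ := by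
  rw [clos, holds_closN, holds_closS]

theorem fvN_closN (k : ℕ) (φ : Fm) (x : ℕ) : x ∈ (closN k φ).fvN ↔ x ∈ φ.fvN ∧ k ≤ x := by
  induction k with
  | zero => simp [closN]
  | succ k ih =>
    simp only [closN, Fm.fvN, Set.mem_sdiff, Set.mem_singleton_iff, ih]
    constructor
    · rintro ⟨⟨h1, h2⟩, h3⟩; exact ⟨h1, by omega⟩
    · rintro ⟨h1, h2⟩; exact ⟨⟨h1, by omega⟩, by omega⟩

theorem fvS_closN (k : ℕ) (φ : Fm) : (closN k φ).fvS = φ.fvS := by
  induction k with
  | zero => rfl
  | succ k ih => simpa only [closN, Fm.fvS] using ih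

theorem fvN_closS (k : ℕ) (φ : Fm) : (closS k φ).fvN = φ.fvN := by
  induction k with
  | zero => rfl
  | succ k ih => simpa only [closS, Fm.fvN] using ih

theorem fvS_closS (k : ℕ) (φ : Fm) (x : ℕ) : x ∈ (closS k φ).fvS ↔ x ∈ φ.fvS ∧ k ≤ x := by
  induction k with
  | zero => simp [closS]
  | succ k ih =>
    simp only [closS, Fm.fvS, Set.mem_sdiff, Set.mem_singleton_iff, ih]
    constructor
    · rintro ⟨⟨h1, h2⟩, h3⟩; exact ⟨h1, by omega⟩
    · rintro ⟨h1, h2⟩; exact ⟨⟨h1, by omega⟩, by omega⟩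

/-! ### Indices of variables are bounded by codes -/

theorem le_pr_left (a b : ℕ) : a ≤ pr a b := Nat.le_add_left _ _

theorem le_pr_right (a b : ℕ) : b ≤ pr a b := by
  unfold pr
  have : a + b ≤ (a + b) * (a + b) := Nat.le_mul_self _
  omega

theorem Tm.fv_le (t : Tm) : ∀ i ∈ t.fv, i ≤ t.code := by
  induction t with
  | var j =>
    intro i hi
    simp only [Tm.fv, Set.mem_singleton_iff] at hi
    subst hi
    exact le_pr_right 0 i
  | zero => intro i hi; exact absurd hi (by simp [Tm.fv])
  | one => intro i hi; exact absurd hi (by simp [Tm.fv])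
  | add s t hs ht =>
    intro i hi
    rcases hi with hi | hi
    · exact ((hs i hi).trans (le_pr_left _ _)).trans (le_pr_right 3 _)
    · exact ((ht i hi).trans (le_pr_right _ _)).trans (le_pr_right 3 _)
  | mul s t hs ht =>
    intro i hi
    rcases hi with hi | hi
    · exact ((hs i hi).trans (le_pr_left _ _)).trans (le_pr_right 4 _)
    · exact ((ht i hi).trans (le_pr_right _ _)).trans (le_pr_right 4 _)

theorem Fm.fvN_le (φ : Fm) : ∀ i ∈ φ.fvN, i ≤ φ.code := by
  induction φ with
  | eq s t =>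
    intro i hi
    rcases hi with hi | hi
    · exact ((Tm.fv_le s i hi).trans (le_pr_left _ _)).trans (le_pr_right 0 _)
    · exact ((Tm.fv_le t i hi).trans (le_pr_right _ _)).trans (le_pr_right 0 _)
  | lt s t =>
    intro i hi
    rcases hi with hi | hi
    · exact ((Tm.fv_le s i hi).trans (le_pr_left _ _)).trans (le_pr_right 1 _)
    · exact ((Tm.fv_le t i hi).trans (le_pr_right _ _)).trans (le_pr_right 1 _)
  | mem t j =>
    intro i hi
    exact ((Tm.fv_le t i hi).trans (le_pr_left _ _)).trans (le_pr_right 2 _)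
  | neg φ ih => intro i hi; exact (ih i hi).trans (le_pr_right 3 _)
  | and φ ψ h1 h2 =>
    intro i hi
    rcases hi with hi | hi
    · exact ((h1 i hi).trans (le_pr_left _ _)).trans (le_pr_right 4 _)
    · exact ((h2 i hi).trans (le_pr_right _ _)).trans (le_pr_right 4 _)
  | all j φ ih => intro i hi; exact ((ih i hi.1).trans (le_pr_right _ _)).trans (le_pr_right 5 _)
  | allS j φ ih => intro i hi; exact ((ih i hi).trans (le_pr_right _ _)).trans (le_pr_right 6 _)

theorem Fm.fvS_le (φ : Fm) : ∀ i ∈ φ.fvS, i ≤ φ.code := by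
  induction φ with
  | eq s t => intro i hi; exact absurd hi (by simp [Fm.fvS])
  | lt s t => intro i hi; exact absurd hi (by simp [Fm.fvS])
  | mem t j =>
    intro i hi
    simp only [Fm.fvS, Set.mem_singleton_iff] at hi
    subst hi
    exact (le_pr_right _ _).trans (le_pr_right 2 _)
  | neg φ ih => intro i hi; exact (ih i hi).trans (le_pr_right 3 _)
  | and φ ψ h1 h2 =>
    intro i hi
    rcases hi with hi | hi
    · exact ((h1 i hi).trans (le_pr_left _ _)).trans (le_pr_right 4 _)
    · exact ((h2 i hi).trans (le_pr_right _ _)).trans (le_pr_right 4 _)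
  | all j φ ih => intro i hi; exact ((ih i hi).trans (le_pr_right _ _)).trans (le_pr_right 5 _)
  | allS j φ ih =>
    intro i hi
    exact ((ih i hi.1).trans (le_pr_right _ _)).trans (le_pr_right 6 _)

theorem clos_sentence (φ : Fm) : (clos (φ.code + 1) φ).IsSentence := by
  constructor
  · refine Set.eq_empty_iff_forall_notMem.mpr fun x hx => ?_
    rw [clos, fvN_closN, fvN_closS] at hx
    have := Fm.fvN_le φ x hx.1
    omega
  · refine Set.eq_empty_iff_forall_notMem.mpr fun x hx => ?_
    rw [clos, fvS_closN, fvS_closS] at hx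
    have := Fm.fvS_le φ x hx.1
    omega

/-! ### A recursive axiomatization by sentences -/

/-- the nine basic axioms and the induction axiom -/
def base : List Fm :=
  [.neg (.eq (.add (.var 0) .one) .zero),
   .imp (.eq (.add (.var 0) .one) (.add (.var 1) .one)) (.eq (.var 0) (.var 1)),
   .eq (.add (.var 0) .zero) (.var 0),
   .eq (.add (.var 0) (.add (.var 1) .one)) (.add (.add (.var 0) (.var 1)) .one),
   .eq (.mul (.var 0) .zero) .zero,
   .eq (.mul (.var 0) (.add (.var 1) .one)) (.add (.mul (.var 0) (.var 1)) (.var 0)),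
   .neg (.lt (.var 0) .zero),
   .iff (.lt (.var 0) (.add (.var 1) .one)) (.or (.lt (.var 0) (.var 1)) (.eq (.var 0) (.var 1))),
   .imp (.and (.mem .zero 0)
      (.all 0 (.imp (.mem (.var 0) 0) (.mem (.add (.var 0) .one) 0)))) (.all 0 (.mem (.var 0) 0))]

/-- the comprehension axiom with a fresh set variable -/
def compAx (φ : Fm) (i : ℕ) : Fm :=
  .exS (φ.code + 1) (.all i (.iff (.mem (.var i) (φ.code + 1)) φ))

/-- a fresh index -/
def fresh (θ : Fm) (i j m : ℕ) : ℕ := θ.code + i + j + m + 1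

/-- the choice axiom for `∃ X_m θ` with fresh variables -/
def chAx (θ : Fm) (i j m : ℕ) : Fm :=
  choiceAx (.exS m θ) i j (fresh θ i j m) (fresh θ i j m)

inductive Ax : Fm → Prop
  | base (φ : Fm) : φ ∈ base → Ax φ
  | comp (φ : Fm) (i : ℕ) : φ.Arithmetical → Ax (compAx φ i)
  | choice (θ : Fm) (i j m : ℕ) : θ.Arithmetical → Ax (chAx θ i j m)

/-- the universal closures of the axioms -/
def Th : Set Fm := {ψ | ∃ φ, Ax φ ∧ ψ = clos (φ.code + 1) φ}

theorem th_sentence : ∀ ψ ∈ Th, ψ.IsSentence := by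
  rintro ψ ⟨φ, _, rfl⟩
  exact clos_sentence φ

theorem base_aca {φ : Fm} (h : φ ∈ base) : ACA0 φ := by
  simp only [base, List.mem_cons, List.not_mem_nil, or_false] at h
  rcases h with rfl | rfl | rfl | rfl | rfl | rfl | rfl | rfl | rfl
  · exact ACA0.succ_ne_zero
  · exact ACA0.succ_inj
  · exact ACA0.add_zero
  · exact ACA0.add_succ
  · exact ACA0.mul_zero
  · exact ACA0.mul_succ
  · exact ACA0.not_lt_zero
  · exact ACA0.lt_succ
  · exact ACA0.induction

theorem holds_ax (M : Model) (hM : ∀ ψ ∈ Th, M.Holds ψ) {φ : Fm} (h : Ax φ) : M.Holds φ :=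
  (holds_clos M _ φ).1 (hM _ ⟨φ, h, rfl⟩)

theorem fresh_props (θ : Fm) (i j m : ℕ) : fresh θ i j m ∉ (Fm.exS m θ).fvS ∧
    fresh θ i j m ≠ j ∧ fresh θ i j m ≠ i := by
  unfold fresh
  refine ⟨fun h => ?_, by omega, by omega⟩
  have : θ.code + i + j + m + 1 ∈ θ.fvS := h.1
  have := Fm.fvS_le θ _ this
  omega

/-- `Th` proves all axioms of `Sigma^1_1-AC_0`. -/
theorem th_proves (φ : Fm) (h : SigmaAC0 φ) : Proves Th φ := by
  intro M hM
  cases h with
  | aca _ h =>
    cases h with
    | comprehension φ i j hφ hj =>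
      intro v V hV
      rw [Sat_comp M v V φ i j hj]
      have h1 := holds_ax M hM (Ax.comp φ i hφ) v V hV
      rwa [compAx, Sat_comp M v V φ i (φ.code + 1) (fun h => by
        have := Fm.fvS_le φ _ h; omega)] at h1
    | succ_ne_zero => exact holds_ax M hM (Ax.base _ (by simp [base]))
    | succ_inj => exact holds_ax M hM (Ax.base _ (by simp [base]))
    | add_zero => exact holds_ax M hM (Ax.base _ (by simp [base]))
    | add_succ => exact holds_ax M hM (Ax.base _ (by simp [base]))
    | mul_zero => exact holds_ax M hM (Ax.base _ (by simp [base]))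
    | mul_succ => exact holds_ax M hM (Ax.base _ (by simp [base]))
    | not_lt_zero => exact holds_ax M hM (Ax.base _ (by simp [base]))
    | lt_succ => exact holds_ax M hM (Ax.base _ (by simp [base]))
    | induction => exact holds_ax M hM (Ax.base _ (by simp [base]))
  | choice η i j z u hη hz hzj hu =>
    obtain ⟨m, θ, rfl, hθ⟩ := hη
    intro v V hV
    rw [Sat_choiceAx M v V _ i j z u hz hzj hu]
    obtain ⟨f1, f2, f3⟩ := fresh_props θ i j m
    have h1 := holds_ax M hM (Ax.choice θ i j m hθ) v V hV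
    rwa [chAx, Sat_choiceAx M v V _ i j _ _ f1 f2 f3] at h1

theorem std_aca (φ : Fm) (h : ACA0 φ) : std.Holds φ := by
  intro v V hV
  cases h with
  | comprehension φ i j hφ hj =>
    rw [Sat_comp std v V φ i j hj]
    exact ⟨{a | Sat std (update v i a) V φ}, trivial, fun a => Iff.rfl⟩
  | succ_ne_zero =>
    simp only [Sat, Tm.val]
    exact Nat.succ_ne_zero _
  | succ_inj =>
    simp only [Sat_imp, Sat, Tm.val]
    exact fun h => Nat.succ_injective h
  | add_zero =>
    simp only [Sat, Tm.val]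
    rfl
  | add_succ =>
    simp only [Sat, Tm.val]
    rfl
  | mul_zero =>
    simp only [Sat, Tm.val]
    rfl
  | mul_succ =>
    simp only [Sat, Tm.val]
    rfl
  | not_lt_zero =>
    simp only [Sat, Tm.val]
    exact Nat.not_lt_zero _
  | lt_succ =>
    simp only [Sat_iff, Sat_or, Sat, Tm.val]
    exact Nat.lt_succ_iff_lt_or_eq
  | induction =>
    simp only [Sat_imp, Sat, Tm.val, update_self]
    rintro ⟨h0, h1⟩ n
    exact Nat.rec (motive := fun n => n ∈ V 0) h0 (fun n ih => h1 n ih) n

/-- The standard model satisfies `Sigma^1_1-AC_0`. -/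
theorem std_sigma (φ : Fm) (h : SigmaAC0 φ) : std.Holds φ := by
  cases h with
  | aca _ h => exact std_aca _ h
  | choice η i j z u hη hz hzj hu =>
    intro v V hV
    rw [Sat_choiceAx std v V _ i j z u hz hzj hu]
    intro h
    choose A hA hA' using h
    refine ⟨{w | ∃ n x : ℕ, w = pr n x ∧ x ∈ A n}, trivial, fun n => ⟨A n, trivial, fun w => ?_,
      hA' n⟩⟩
    constructor
    · intro hw
      exact ⟨n, w, rfl, hw⟩
    · rintro ⟨n', x, h1, h2⟩
      have h3 : pr n w = pr n' x := h1
      obtain ⟨h4, h5⟩ := pr_inj h3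
      subst h4 h5
      exact h2

theorem std_ax {φ : Fm} (h : Ax φ) : std.Holds φ := by
  cases h with
  | base _ h => exact std_sigma _ (.aca _ (base_aca h))
  | comp φ i h =>
    exact std_sigma _ (.aca _ (.comprehension φ i _ h (fun h => by
      have := Fm.fvS_le φ _ h; omega)))
  | choice θ i j m h =>
    obtain ⟨f1, f2, f3⟩ := fresh_props θ i j m
    exact std_sigma _ (.choice _ i j _ _ ⟨m, θ, rfl, h⟩ f1 f2 f3)

theorem std_th : ∀ ψ ∈ Th, std.Holds ψ := by
  rintro ψ ⟨φ, h, rfl⟩
  exact (holds_clos std _ φ).2 (std_ax h)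

end Pool.Agent.V11211.SR
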