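import Pool.Agent.V11211.SR1

/-!
# Arithmetical theories that prove their own `Pi^1_1`-soundness
-/

set_option autoImplicit false

namespace Pool.Agent.V11211.SR

open Function Pool.Agent.H986R3.SOA

/-- The `Pi^1_1` formula `τ(a)` defines (the set of Goedel numbers of the members of) `T` in the
standard model. -/
def Pi11Defines (τ : Fm) (T : Set Fm) : Prop :=
  τ.IsPi11 ∧ τ.FreeIn {0} ∧ ∀ n : ℕ, SatN n 0 0 τ ↔ ∃ φ ∈ T, φ.code = n

variable (𝒜 : Arithmetization)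

/-- soundness of proofs without non-logical axioms, with the matrix `θ` and the set variable `i` of
the truth predicate -/
def PLf (i : ℕ) (θ : Fm) : Fm :=
  .allS i (.all 1 (.all 2 (.imp (.and (.and 𝒜.prf 𝒜.isPi) (.all 0 (.neg 𝒜.axIn))) θ)))

/-- the definition of the theory -/
def tauf (α : Fm) (i : ℕ) (θ : Fm) : Fm :=
  .allS i (.and α (.all 1 (.all 2 (.imp (.and (.and 𝒜.prf 𝒜.isPi)
    (.and 𝒜.axIn (.all 0 (.imp 𝒜.axIn α)))) θ))))

variable {𝒜} {α θ : Fm} {i : ℕ}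

theorem tr_matrix (htr : 𝒜.tr = .allS i θ) : θ.fvN ⊆ {2} ∧ θ.fvS ⊆ {i} := by
  have h := 𝒜.tr_free
  rw [htr] at h
  refine ⟨h.1, fun x hx => ?_⟩
  by_contra hne
  have : x ∈ (Fm.allS i θ).fvS := ⟨hx, hne⟩
  rw [h.2] at this
  exact this

theorem PLf_pi (htr : 𝒜.tr = .allS i θ) (hθ : θ.Arithmetical) : (PLf 𝒜 i θ).IsPi11Sentence := by
  obtain ⟨h1, h2⟩ := tr_matrix htr
  refine ⟨⟨i, _, rfl, ?_⟩, ?_, ?_⟩
  · simp only [Fm.Arithmetical, Fm.imp]
    exact ⟨⟨⟨𝒜.prf_arith, 𝒜.isPi_arith⟩, 𝒜.axIn_arith⟩, hθ⟩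
  · refine Set.eq_empty_iff_forall_notMem.mpr fun x hx => ?_
    simp only [PLf, Fm.fvN, Fm.imp, Set.mem_union, Set.mem_sdiff, Set.mem_singleton_iff] at hx
    have e1 : x ∈ 𝒜.prf.fvN → x ∈ ({1, 2} : Set ℕ) := fun h => 𝒜.prf_free.1 h
    have e2 : x ∈ 𝒜.isPi.fvN → x ∈ ({2} : Set ℕ) := fun h => 𝒜.isPi_free.1 h
    have e3 : x ∈ 𝒜.axIn.fvN → x ∈ ({0, 1} : Set ℕ) := fun h => 𝒜.axIn_free.1 h
    have e4 : x ∈ θ.fvN → x ∈ ({2} : Set ℕ) := fun h => h1 h
    simp only [Set.mem_insert_iff, Set.mem_singleton_iff] at e1 e2 e3 e4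
    tauto
  · refine Set.eq_empty_iff_forall_notMem.mpr fun x hx => ?_
    simp only [PLf, Fm.fvS, Fm.imp, Set.mem_union, Set.mem_sdiff, Set.mem_singleton_iff,
      𝒜.prf_free.2, 𝒜.isPi_free.2, 𝒜.axIn_free.2, Set.mem_empty_iff_false, false_or] at hx
    exact hx.2 (h2 hx.1)

theorem tauf_free (htr : 𝒜.tr = .allS i θ) (hα : α.FreeIn {0}) : (tauf 𝒜 α i θ).FreeIn {0} := by
  obtain ⟨h1, h2⟩ := tr_matrix htr
  refine ⟨fun x hx => ?_, ?_⟩
  · simp only [tauf, Fm.fvN, Fm.imp, Set.mem_union, Set.mem_sdiff, Set.mem_singleton_iff] at hx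
    have e1 : x ∈ 𝒜.prf.fvN → x ∈ ({1, 2} : Set ℕ) := fun h => 𝒜.prf_free.1 h
    have e2 : x ∈ 𝒜.isPi.fvN → x ∈ ({2} : Set ℕ) := fun h => 𝒜.isPi_free.1 h
    have e3 : x ∈ 𝒜.axIn.fvN → x ∈ ({0, 1} : Set ℕ) := fun h => 𝒜.axIn_free.1 h
    have e4 : x ∈ θ.fvN → x ∈ ({2} : Set ℕ) := fun h => h1 h
    have e5 : x ∈ α.fvN → x ∈ ({0} : Set ℕ) := fun h => hα.1 h
    simp only [Set.mem_insert_iff, Set.mem_singleton_iff] at e1 e2 e3 e4 e5 ⊢
    tauto
  · refine Set.eq_empty_iff_forall_notMem.mpr fun x hx => ?_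
    simp only [tauf, Fm.fvS, Fm.imp, Set.mem_union, Set.mem_sdiff, Set.mem_singleton_iff,
      𝒜.prf_free.2, 𝒜.isPi_free.2, 𝒜.axIn_free.2, hα.2, Set.mem_empty_iff_false, false_or] at hx
    exact hx.2 (h2 hx.1)

theorem tauf_pi (hα : α.Arithmetical) (hθ : θ.Arithmetical) : (tauf 𝒜 α i θ).IsPi11 := by
  refine ⟨i, _, rfl, ?_⟩
  simp only [Fm.Arithmetical, Fm.imp]
  exact ⟨hα, ⟨⟨𝒜.prf_arith, 𝒜.isPi_arith⟩, 𝒜.axIn_arith, 𝒜.axIn_arith, hα⟩, hθ⟩

/-- The formula `τ(a)`, evaluated in a model. -/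
theorem Sat_tauf (M : Model) (hα : α.FreeIn {0}) (htr : 𝒜.tr = .allS i θ) (v : ℕ → M.Num)
    (V : ℕ → Set M.Num) :
    Sat M v V (tauf 𝒜 α i θ) ↔ ∀ A ∈ M.sets,
      Sat M (asg (v 0) M.zero M.zero) (fun _ => ∅) α ∧ ∀ p x,
        Sat M (asg M.zero p x) (fun _ => ∅) 𝒜.prf → Sat M (asg M.zero M.zero x) (fun _ => ∅) 𝒜.isPi →
        Sat M (asg (v 0) p M.zero) (fun _ => ∅) 𝒜.axIn →
        (∀ b, Sat M (asg b p M.zero) (fun _ => ∅) 𝒜.axIn →
          Sat M (asg b M.zero M.zero) (fun _ => ∅) α) →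
        Sat M (asg M.zero M.zero x) (fun _ => A) θ := by
  obtain ⟨h1, h2⟩ := tr_matrix htr
  have key : ∀ (φ : Fm) (s : Set ℕ) (w w' : ℕ → M.Num) (W W' : ℕ → Set M.Num), φ.FreeIn s →
      (∀ k ∈ s, w k = w' k) → (Sat M w W φ ↔ Sat M w' W' φ) := by
    intro φ s w w' W W' hf hk
    refine Sat_congr M φ _ _ _ _ (fun k hk' => hk k (hf.1 hk')) fun k hk' => ?_
    rw [hf.2] at hk'
    exact hk'.elim
  simp only [tauf, Sat, Sat_imp]
  refine forall_congr' fun A => imp_congr Iff.rfl (and_congr ?_ (forall_congr' fun p =>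
    forall_congr' fun x => ?_))
  · exact key α {0} _ _ _ _ hα (by simp [asg])
  · rw [key 𝒜.prf {1, 2} _ (asg M.zero p x) _ (fun _ => ∅) 𝒜.prf_free (by simp [asg]),
      key 𝒜.isPi {2} _ (asg M.zero M.zero x) _ (fun _ => ∅) 𝒜.isPi_free (by simp [asg]),
      key 𝒜.axIn {0, 1} _ (asg (v 0) p M.zero) _ (fun _ => ∅) 𝒜.axIn_free (by simp [asg])]
    have e1 : (∀ a, Sat M (update (update (update v 1 p) 2 x) 0 a) (update V i A) 𝒜.axIn →
        Sat M (update (update (update v 1 p) 2 x) 0 a) (update V i A) α) ↔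
        ∀ b, Sat M (asg b p M.zero) (fun _ => ∅) 𝒜.axIn →
          Sat M (asg b M.zero M.zero) (fun _ => ∅) α := by
      refine forall_congr' fun b => imp_congr ?_ ?_
      · exact key 𝒜.axIn {0, 1} _ _ _ _ 𝒜.axIn_free (by simp [asg])
      · exact key α {0} _ _ _ _ hα (by simp [asg])
    rw [e1]
    have e2 : Sat M (update (update v 1 p) 2 x) (update V i A) θ ↔
        Sat M (asg M.zero M.zero x) (fun _ => A) θ := by
      refine Sat_congr M θ _ _ _ _ (fun k hk => ?_) fun k hk => ?_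
      · have := h1 hk
        rw [Set.mem_singleton_iff] at this
        subst this
        simp [asg]
      · have := h2 hk
        rw [Set.mem_singleton_iff] at this
        subst this
        simp
    rw [e2]
    tauto

theorem Sat_PLf (M : Model) (htr : 𝒜.tr = .allS i θ) (v : ℕ → M.Num) (V : ℕ → Set M.Num) :
    Sat M v V (PLf 𝒜 i θ) ↔ ∀ A ∈ M.sets, ∀ p x,
        Sat M (asg M.zero p x) (fun _ => ∅) 𝒜.prf → Sat M (asg M.zero M.zero x) (fun _ => ∅) 𝒜.isPi →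
        (∀ b, ¬ Sat M (asg b p M.zero) (fun _ => ∅) 𝒜.axIn) →
        Sat M (asg M.zero M.zero x) (fun _ => A) θ := by
  obtain ⟨h1, h2⟩ := tr_matrix htr
  have key : ∀ (φ : Fm) (s : Set ℕ) (w w' : ℕ → M.Num) (W W' : ℕ → Set M.Num), φ.FreeIn s →
      (∀ k ∈ s, w k = w' k) → (Sat M w W φ ↔ Sat M w' W' φ) := by
    intro φ s w w' W W' hf hk
    refine Sat_congr M φ _ _ _ _ (fun k hk' => hk k (hf.1 hk')) fun k hk' => ?_
    rw [hf.2] at hk'
    exact hk'.elim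
  simp only [PLf, Sat, Sat_imp]
  refine forall_congr' fun A => imp_congr Iff.rfl (forall_congr' fun p =>
    forall_congr' fun x => ?_)
  rw [key 𝒜.prf {1, 2} _ (asg M.zero p x) _ (fun _ => ∅) 𝒜.prf_free (by simp [asg]),
    key 𝒜.isPi {2} _ (asg M.zero M.zero x) _ (fun _ => ∅) 𝒜.isPi_free (by simp [asg])]
  have e1 : (∀ a, ¬ Sat M (update (update (update v 1 p) 2 x) 0 a) (update V i A) 𝒜.axIn) ↔
      ∀ b, ¬ Sat M (asg b p M.zero) (fun _ => ∅) 𝒜.axIn := by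
    refine forall_congr' fun b => not_congr ?_
    exact key 𝒜.axIn {0, 1} _ _ _ _ 𝒜.axIn_free (by simp [asg])
  rw [e1]
  have e2 : Sat M (update (update v 1 p) 2 x) (update V i A) θ ↔
      Sat M (asg M.zero M.zero x) (fun _ => A) θ := by
    refine Sat_congr M θ _ _ _ _ (fun k hk => ?_) fun k hk => ?_
    · have := h1 hk
      rw [Set.mem_singleton_iff] at this
      subst this
      simp [asg]
    · have := h2 hk
      rw [Set.mem_singleton_iff] at this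
      subst this
      simp
  rw [e2]
  tauto

/-- The truth predicate is correct in the standard model. -/
theorem tr_std (htr : 𝒜.tr = .allS i θ) {φ : Fm} (hφ : φ.IsPi11Sentence) (h : std.Holds φ)
    (A : Set ℕ) : Sat std (asg (A := ℕ) 0 0 φ.code) (fun _ => A) θ := by
  obtain ⟨h1, h2⟩ := tr_matrix htr
  have h3 := 𝒜.tr_proves φ hφ std (fun ψ hψ => std_aca ψ hψ) (fun _ => (0 : ℕ)) (fun _ => ∅)
    (fun _ => trivial)
  have h4 := ((Sat_iff std _ _ _ _).1 h3).2 (h _ _ (fun _ => trivial))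
  rw [htr] at h4
  simp only [Fm.inst, Sat, Sat_imp, Tm.val, val_numeral] at h4
  have h5 := h4 φ.code (by exact (update_self _ _ _).trans (std_num _).symm) A trivial
  refine (Sat_congr std θ _ _ _ _ (fun k hk => ?_) fun k hk => ?_).1 h5
  · have := h1 hk
    rw [Set.mem_singleton_iff] at this
    subst this
    exact update_self _ _ _
  · have := h2 hk
    rw [Set.mem_singleton_iff] at this
    subst this
    exact update_self _ _ _

/-- The sentence `PLf` is true. -/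
theorem PLf_true (htr : 𝒜.tr = .allS i θ) : std.Holds (PLf 𝒜 i θ) := by
  intro v V _
  rw [Sat_PLf std htr]
  intro A _ p x h1 h2 h3
  obtain ⟨φ, hφ, hx⟩ := (𝒜.isPi_std x).1 h2
  have hx' : φ.code = x := hx
  subst hx'
  refine tr_std htr hφ ?_ A
  have h4 : Proves ∅ φ := (𝒜.prf_correct ∅ (by simp) φ hφ.2).2 ⟨p, h1, fun a ha => (h3 a ha).elim⟩
  exact h4 std (by simp)

/-- Every `Pi^1_1`-sound theory which has an arithmetical definition and proves `PLf` proves its own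
`Pi^1_1`-soundness, for a suitable `Pi^1_1` definition. -/
theorem own (htr : 𝒜.tr = .allS i θ) (hθ : θ.Arithmetical) (T : Set Fm)
    (hT : ∀ ψ ∈ T, ψ.IsSentence) (hS : Pi11Sound T) (hPL : Proves T (PLf 𝒜 i θ))
    (hα : α.Arithmetical) (hαf : α.FreeIn {0})
    (hdef : ∀ n : ℕ, SatN n 0 0 α ↔ ∃ φ ∈ T, φ.code = n) :
    ∃ τ : Fm, Pi11Defines τ T ∧ Proves T (𝒜.reflection τ) := by
  refine ⟨tauf 𝒜 α i θ, ⟨tauf_pi hα hθ, tauf_free htr hαf, fun n => ?_⟩, fun M hM v V hV => ?_⟩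
  · refine (Sat_tauf std hαf htr (asg (A := ℕ) n 0 0) (fun _ => ∅)).trans ?_
    constructor
    · intro h
      exact (hdef n).1 (h ∅ trivial).1
    · intro h A _
      refine ⟨(hdef n).2 h, fun p x h1 h2 _ h4 => ?_⟩
      obtain ⟨φ, hφ, hx⟩ := (𝒜.isPi_std x).1 h2
      have hx' : φ.code = x := hx
      subst hx'
      refine tr_std htr hφ (hS φ hφ ?_) A
      exact (𝒜.prf_correct T hT φ hφ.2).2 ⟨p, h1, fun a ha => (hdef a).1 (h4 a ha)⟩
  · simp only [Arithmetization.reflection, Arithmetization.Pr, Sat, Sat_imp, Sat_ex]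
    rintro x ⟨hx, p, hp, hax⟩
    have hPL' := (Sat_PLf M htr v V).1 (hPL M hM v V hV)
    have key : ∀ (φ : Fm) (s : Set ℕ) (w w' : ℕ → M.Num) (W W' : ℕ → Set M.Num), φ.FreeIn s →
        (∀ k ∈ s, w k = w' k) → (Sat M w W φ ↔ Sat M w' W' φ) := by
      intro φ s w w' W W' hf hk
      refine Sat_congr M φ _ _ _ _ (fun k hk' => hk k (hf.1 hk')) fun k hk' => ?_
      rw [hf.2] at hk'
      exact hk'.elim
    rw [key 𝒜.isPi {2} _ (asg M.zero M.zero x) _ (fun _ => ∅) 𝒜.isPi_free (by simp [asg])] at hx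
    rw [key 𝒜.prf {1, 2} _ (asg M.zero p x) _ (fun _ => ∅) 𝒜.prf_free (by simp [asg])] at hp
    have hax' : ∀ b, Sat M (asg b p M.zero) (fun _ => ∅) 𝒜.axIn →
        Sat M (fun _ => b) (fun _ => ∅) (tauf 𝒜 α i θ) := by
      intro b hb
      refine (key (tauf 𝒜 α i θ) {0} _ _ _ _ (tauf_free htr hαf) ?_).1 (hax b
        ((key 𝒜.axIn {0, 1} _ _ _ _ 𝒜.axIn_free (by simp [asg])).2 hb))
      simp
    have fin : ∀ A ∈ M.sets, Sat M (asg M.zero M.zero x) (fun _ => A) θ := by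
      intro A hA
      by_cases hex : ∃ b, Sat M (asg b p M.zero) (fun _ => ∅) 𝒜.axIn
      · obtain ⟨b, hb⟩ := hex
        have h5 := (Sat_tauf M hαf htr _ _).1 (hax' b hb) A hA
        refine h5.2 p x hp hx hb fun c hc => ?_
        exact ((Sat_tauf M hαf htr _ _).1 (hax' c hc) A hA).1
      · push Not at hex
        exact hPL' A hA p x hp hx hex
    rw [htr]
    intro A hA
    obtain ⟨h1, h2⟩ := tr_matrix htr
    refine (Sat_congr M θ _ _ _ _ (fun k hk => ?_) fun k hk => ?_).1 (fin A hA)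
    · have := h1 hk
      rw [Set.mem_singleton_iff] at this
      subst this
      simp [asg]
    · have := h2 hk
      rw [Set.mem_singleton_iff] at this
      subst this
      simp

end Pool.Agent.V11211.SR
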