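import Mathlib

namespace Pool.Agent.V11211.TS
open Finset

variable {V : Type*} [DecidableEq V]

lemma cnt1 (I : Finset V) (k : ℕ) {v : V} (hv : v ∈ I) :
    (I.card : ℝ) * ((I.powersetCard k).filter (fun J => v ∈ J)).card
      = k * (I.card.choose k : ℕ) := by
  rcases Nat.eq_zero_or_pos k with rfl | hk
  · simp
  · have h1 : ((I.powersetCard k).filter (fun J => v ∈ J)).card
        = (I.card - 1).choose (k - 1) := by
      have := Finset.card_filter_powersetCard_subset {v} I k (by simpa using hv)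
        (by rw [Finset.card_singleton]; omega)
      simpa using this
    rw [h1]
    have hI : 0 < I.card := Finset.card_pos.2 ⟨v, hv⟩
    obtain ⟨m, hm⟩ : ∃ m, I.card = m + 1 := ⟨I.card - 1, by omega⟩
    obtain ⟨l, hl⟩ : ∃ l, k = l + 1 := ⟨k - 1, by omega⟩
    rw [hm, hl]
    have := Nat.add_one_mul_choose_eq m l
    simp only [Nat.add_sub_cancel]
    have h2 : ((m + 1 : ℕ) : ℝ) * (m.choose l : ℕ) = ((m+1).choose (l+1) : ℕ) * ((l + 1 : ℕ) : ℝ) := by
      exact_mod_cast this
    rw [h2]; ring

lemma cnt2 (I : Finset V) (k : ℕ) {v w : V} (hv : v ∈ I) (hw : w ∈ I) (hvw : v ≠ w) :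
    (I.card : ℝ) * (I.card - 1) * ((I.powersetCard k).filter (fun J => v ∈ J ∧ w ∈ J)).card
      = k * (k - 1) * (I.card.choose k : ℕ) := by
  rcases Nat.lt_or_ge k 2 with hk | hk
  · have h0 : ((I.powersetCard k).filter (fun J => v ∈ J ∧ w ∈ J)) = ∅ := by
      apply Finset.filter_eq_empty_iff.2
      rintro J hJ ⟨h1, h2⟩
      have hc := (Finset.mem_powersetCard.1 hJ).2
      have : 1 < J.card := Finset.one_lt_card.2 ⟨v, h1, w, h2, hvw⟩
      omega
    rw [h0]
    interval_cases k <;> simp
  · have h1 : ((I.powersetCard k).filter (fun J => v ∈ J ∧ w ∈ J)).card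
        = (I.card - 2).choose (k - 2) := by
      have hs : ({v, w} : Finset V) ⊆ I := by
        intro x hx
        simp only [mem_insert, mem_singleton] at hx
        rcases hx with rfl | rfl <;> assumption
      have hc : ({v, w} : Finset V).card = 2 := Finset.card_pair hvw
      have := Finset.card_filter_powersetCard_subset {v, w} I k hs (by omega)
      rw [hc] at this
      rw [← this]
      congr 1
      apply Finset.filter_congr
      intro J _
      simp [Finset.insert_subset_iff]
    rw [h1]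
    have hI : 1 < I.card := Finset.one_lt_card.2 ⟨v, hv, w, hw, hvw⟩
    obtain ⟨m, hm⟩ : ∃ m, I.card = m + 2 := ⟨I.card - 2, by omega⟩
    obtain ⟨l, hl⟩ : ∃ l, k = l + 2 := ⟨k - 2, by omega⟩
    rw [hm, hl]
    have e1 := Nat.add_one_mul_choose_eq m l
    have e2 := Nat.add_one_mul_choose_eq (m+1) (l+1)
    simp only [Nat.add_sub_cancel]
    have f1 : ((m : ℝ) + 1) * (m.choose l : ℕ) = ((m+1).choose (l+1) : ℕ) * ((l : ℝ) + 1) := by
      exact_mod_cast e1
    have f2 : ((m : ℝ) + 1 + 1) * ((m+1).choose (l+1) : ℕ)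
        = ((m+1+1).choose (l+1+1) : ℕ) * ((l : ℝ) + 1 + 1) := by
      exact_mod_cast e2
    push_cast
    have : ((m : ℝ) + 2) * (m + 2 - 1) * (m.choose l : ℕ)
        = ((m : ℝ) + 1 + 1) * (((m : ℝ) + 1) * (m.choose l : ℕ)) := by ring
    rw [this, f1]
    have : ((m : ℝ) + 1 + 1) * (((m+1).choose (l+1) : ℕ) * ((l : ℝ) + 1))
        = (((m : ℝ) + 1 + 1) * ((m+1).choose (l+1) : ℕ)) * ((l : ℝ) + 1) := by ring
    rw [this, f2]
    ring

/-- first moment -/
lemma S1 (I T : Finset V) (hT : T ⊆ I) (k : ℕ) :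
    (I.card : ℝ) * ∑ J ∈ I.powersetCard k, ((T ∩ J).card : ℝ)
      = T.card * k * (I.card.choose k : ℕ) := by
  have h : ∑ J ∈ I.powersetCard k, ((T ∩ J).card : ℝ)
      = ∑ v ∈ T, (((I.powersetCard k).filter (fun J => v ∈ J)).card : ℝ) := by
    have : ∀ J : Finset V, ((T ∩ J).card : ℝ) = ∑ v ∈ T, if v ∈ J then (1:ℝ) else 0 := by
      intro J
      rw [Finset.sum_ite, Finset.sum_const_zero, add_zero, Finset.sum_const]
      simp [Finset.filter_mem_eq_inter]
    simp_rw [this]
    rw [Finset.sum_comm]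
    apply Finset.sum_congr rfl
    intro v _
    rw [Finset.sum_ite, Finset.sum_const_zero, add_zero, Finset.sum_const]
    simp
  rw [h, Finset.mul_sum]
  rw [Finset.sum_congr rfl (fun v hv => cnt1 I k (hT hv))]
  simp
  ring

/-- second factorial moment -/
lemma S2 (I T : Finset V) (hT : T ⊆ I) (k : ℕ) :
    (I.card : ℝ) * (I.card - 1) *
      ∑ J ∈ I.powersetCard k, (((T ∩ J).card : ℝ) * ((T ∩ J).card - 1))
      = T.card * (T.card - 1) * (k * (k - 1)) * (I.card.choose k : ℕ) := by
  have h : ∑ J ∈ I.powersetCard k, (((T ∩ J).card : ℝ) * ((T ∩ J).card - 1))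
      = ∑ p ∈ T.offDiag, (((I.powersetCard k).filter (fun J => p.1 ∈ J ∧ p.2 ∈ J)).card : ℝ) := by
    have : ∀ J : Finset V, (((T ∩ J).card : ℝ) * ((T ∩ J).card - 1))
        = ∑ p ∈ T.offDiag, if (p.1 ∈ J ∧ p.2 ∈ J) then (1:ℝ) else 0 := by
      intro J
      rw [Finset.sum_ite, Finset.sum_const_zero, add_zero, Finset.sum_const]
      have e : (T.offDiag.filter (fun p => p.1 ∈ J ∧ p.2 ∈ J)) = (T ∩ J).offDiag := by
        ext ⟨a, b⟩
        simp only [mem_filter, mem_offDiag, mem_inter]
        tauto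
      rw [e, Finset.offDiag_card]
      have : (T ∩ J).card ≤ (T ∩ J).card * (T ∩ J).card := Nat.le_mul_self _
      simp only [nsmul_eq_mul, mul_one]
      push_cast [Nat.cast_sub this]
      ring
    simp_rw [this]
    rw [Finset.sum_comm]
    apply Finset.sum_congr rfl
    intro v _
    rw [Finset.sum_ite, Finset.sum_const_zero, add_zero, Finset.sum_const]
    simp
  rw [h, Finset.mul_sum]
  have h2 : ∀ p ∈ T.offDiag, (I.card : ℝ) * (I.card - 1) *
      (((I.powersetCard k).filter (fun J => p.1 ∈ J ∧ p.2 ∈ J)).card : ℝ)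
      = k * (k - 1) * (I.card.choose k : ℕ) := by
    intro p hp
    rw [mem_offDiag] at hp
    exact cnt2 I k (hT hp.1) (hT hp.2.1) hp.2.2
  rw [Finset.sum_congr rfl h2, Finset.sum_const, Finset.offDiag_card]
  have : T.card ≤ T.card * T.card := Nat.le_mul_self _
  simp only [nsmul_eq_mul]
  push_cast [Nat.cast_sub this]
  ring

/-- expansion of the second moment -/
lemma expand (I T : Finset V) (k : ℕ) (lam : ℝ) :
    ∑ J ∈ I.powersetCard k, ((T.card : ℝ) - lam * (T ∩ J).card)^2
      = (T.card : ℝ)^2 * (I.card.choose k : ℕ)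
        + (lam^2 - 2 * lam * T.card) * ∑ J ∈ I.powersetCard k, ((T ∩ J).card : ℝ)
        + lam^2 * ∑ J ∈ I.powersetCard k, (((T ∩ J).card : ℝ) * ((T ∩ J).card - 1)) := by
  have : ∀ J ∈ I.powersetCard k, ((T.card : ℝ) - lam * (T ∩ J).card)^2
      = (T.card : ℝ)^2 + (lam^2 - 2 * lam * T.card) * ((T ∩ J).card : ℝ)
        + lam^2 * (((T ∩ J).card : ℝ) * ((T ∩ J).card - 1)) := by
    intro J _; ring
  rw [Finset.sum_congr rfl this, Finset.sum_add_distrib, Finset.sum_add_distrib,
    ← Finset.mul_sum, ← Finset.mul_sum, Finset.sum_const, Finset.card_powersetCard]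
  simp only [nsmul_eq_mul]
  ring

/-- conditional second moment bound -/
lemma momA (B T : Finset V) (hT : T ⊆ B) (q : ℕ) (hq : q ≤ B.card) (lam : ℝ) :
    ∑ Q ∈ B.powersetCard q, ((T.card : ℝ) - lam * (T ∩ Q).card)^2
      ≤ (B.card.choose q : ℕ) * (T.card * (((B.card : ℝ) - lam * q)^2 / B.card + lam^2)) := by
  rcases Nat.eq_zero_or_pos T.card with ht | ht
  · have hT0 : T = ∅ := Finset.card_eq_zero.1 ht
    subst hT0
    simp
  · set b : ℝ := (B.card : ℝ) with hb
    set t : ℝ := (T.card : ℝ) with htt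
    set C : ℝ := ((B.card.choose q : ℕ) : ℝ) with hC
    have hbt : T.card ≤ B.card := Finset.card_le_card hT
    have hbpos : 0 < b := by rw [hb]; exact_mod_cast (lt_of_lt_of_le ht hbt)
    have htpos : 0 < t := by rw [htt]; exact_mod_cast ht
    have htb : t ≤ b := by rw [hb, htt]; exact_mod_cast hbt
    have hC0 : 0 ≤ C := by rw [hC]; positivity
    have hqb : (q : ℝ) ≤ b := by rw [hb]; exact_mod_cast hq
    have e1 := S1 B T hT q
    have e2 := S2 B T hT q
    rw [expand]
    set s1 := ∑ J ∈ B.powersetCard q, ((T ∩ J).card : ℝ) with hs1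
    set s2 := ∑ J ∈ B.powersetCard q, (((T ∩ J).card : ℝ) * ((T ∩ J).card - 1)) with hs2
    rw [← hb, ← htt, ← hC] at e1 e2
    -- s2 bound
    have hs2b : b^2 * s2 ≤ t * (t - 1) * q^2 * C := by
      rcases Nat.lt_or_ge B.card 2 with hB | hB
      · have hB1 : B.card = 1 := by
          have : 0 < B.card := lt_of_lt_of_le ht hbt
          omega
        have hT1 : T.card = 1 := by omega
        have hz : s2 = 0 := by
          rw [hs2]
          apply Finset.sum_eq_zero
          intro J _
          have : (T ∩ J).card ≤ 1 := by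
            calc (T ∩ J).card ≤ T.card := Finset.card_le_card Finset.inter_subset_left
              _ = 1 := hT1
          interval_cases h : (T ∩ J).card <;> simp
        rw [hz, htt, hT1]; simp
      · have hb2 : (2:ℝ) ≤ b := by rw [hb]; exact_mod_cast hB
        have hs2' : s2 = t * (t - 1) * (q * (q - 1)) * C / (b * (b - 1)) := by
          have : b * (b - 1) ≠ 0 := by
            have : 0 < b * (b - 1) := mul_pos hbpos (by linarith)
            exact ne_of_gt this
          rw [eq_div_iff this]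
          linarith
        have ht1 : 1 ≤ t := by rw [htt]; exact_mod_cast ht
        rw [hs2']
        have h1 : b^2 * (t * (t - 1) * (q * (q - 1)) * C / (b * (b - 1)))
            = (t * (t-1) * q * C) * (b * (q - 1) / (b - 1)) := by
          have : b ≠ 0 := by positivity
          have : b - 1 ≠ 0 := by linarith
          field_simp
        rw [h1]
        have h2 : b * ((q:ℝ) - 1) / (b - 1) ≤ q := by
          rw [div_le_iff₀ (by linarith)]
          nlinarith
        have h3 : 0 ≤ t * (t-1) * q * C := by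
          have : 0 ≤ t - 1 := by linarith
          positivity
        calc (t * (t-1) * q * C) * (b * (q - 1) / (b - 1)) ≤ (t * (t-1) * q * C) * q :=
              mul_le_mul_of_nonneg_left h2 h3
          _ = t * (t - 1) * q^2 * C := by ring
    have hs1' : s1 = t * q * C / b := by
      field_simp
      linarith
    have key : b^2 * (t^2 * C + (lam^2 - 2*lam*t) * s1 + lam^2 * s2)
        ≤ b^2 * (C * (t * ((b - lam * q)^2 / b + lam^2))) := by
      have h1 : b^2 * (t^2 * C + (lam^2 - 2*lam*t) * s1 + lam^2 * s2)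
          ≤ C * (t^2 * (b - lam * q)^2 + lam^2 * t * q * (b - q)) := by
        have e : b^2 * (t^2 * C + (lam^2 - 2*lam*t) * s1 + lam^2 * s2)
            = b^2 * t^2 * C + (lam^2 - 2*lam*t) * (b * (t * q * C)) + lam^2 * (b^2 * s2) := by
          rw [hs1']
          field_simp
        rw [e]
        have := mul_le_mul_of_nonneg_left hs2b (sq_nonneg lam)
        nlinarith
      have h2 : b^2 * (C * (t * ((b - lam * q)^2 / b + lam^2)))
          = C * (t * b * (b - lam*q)^2 + lam^2 * t * b^2) := by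
        field_simp
      rw [h2]
      refine h1.trans (mul_le_mul_of_nonneg_left ?_ hC0)
      have h3 : t^2 * (b - lam * q)^2 ≤ t * b * (b - lam*q)^2 := by
        apply mul_le_mul_of_nonneg_right _ (sq_nonneg _)
        nlinarith
      have h4 : lam^2 * t * q * (b - q) ≤ lam^2 * t * b^2 := by
        have : (q:ℝ) * (b - q) ≤ b^2 := by
          have : (0:ℝ) ≤ q := by positivity
          nlinarith
        have h5 : 0 ≤ lam^2 * t := by positivity
        nlinarith
      linarith
    exact le_of_mul_le_mul_left key (by positivity)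

/-- second moment for uniform subsets of the whole set with the critical factor -/
lemma momB (I T : Finset V) (hT : T ⊆ I) (k : ℕ) (hk : 2 ≤ k) (hkn : k ≤ I.card) (lam : ℝ)
    (hlam : lam = ((I.card : ℝ) - 1) / (k - 1)) :
    ∑ Q ∈ I.powersetCard k, ((T.card : ℝ) - lam * (T ∩ Q).card)^2
      ≤ (I.card.choose k : ℕ) * (T.card * lam^2) := by
  have e1 := S1 I T hT k
  have e2 := S2 I T hT k
  rw [expand]
  set s1 := ∑ J ∈ I.powersetCard k, ((T ∩ J).card : ℝ) with hs1
  set s2 := ∑ J ∈ I.powersetCard k, (((T ∩ J).card : ℝ) * ((T ∩ J).card - 1)) with hs2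
  set b : ℝ := (I.card : ℝ) with hb
  set t : ℝ := (T.card : ℝ) with htt
  set C : ℝ := ((I.card.choose k : ℕ) : ℝ) with hC
  have hk2 : (2:ℝ) ≤ k := by exact_mod_cast hk
  have hkb : (k:ℝ) ≤ b := by rw [hb]; exact_mod_cast hkn
  have hC0 : 0 ≤ C := by rw [hC]; positivity
  have ht0 : 0 ≤ t := by rw [htt]; positivity
  have hlk : lam * (k - 1) = b - 1 := by
    rw [hlam]; field_simp [show (k:ℝ) - 1 ≠ 0 by linarith]
  have hlam0 : 0 ≤ lam := by
    rw [hlam]; apply div_nonneg <;> linarith
  have hlb : b ≤ lam * k := by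
    have : lam * k = b - 1 + lam := by linarith
    have h1 : 1 ≤ lam := by
      rw [hlam, le_div_iff₀ (by linarith)]; linarith
    linarith
  have key : (b * (b - 1)) * (t^2 * C + (lam^2 - 2*lam*t) * s1 + lam^2 * s2)
      ≤ (b * (b - 1)) * (C * (t * lam^2)) := by
    have e : (b * (b - 1)) * (t^2 * C + (lam^2 - 2*lam*t) * s1 + lam^2 * s2)
        = (b*(b-1)) * t^2 * C + (lam^2 - 2*lam*t) * ((b-1) * (b * s1)) + lam^2 * (b * (b-1) * s2) := by
      ring
    rw [e, e1, e2]
    have e3 : lam^2 * (t * (t - 1) * (k * (k - 1)) * C) = lam * (t * (t-1) * k * C) * (b - 1) := by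
      rw [← hlk]; ring
    rw [e3]
    have e4 : (b*(b-1)) * t^2 * C + (lam^2 - 2*lam*t) * ((b-1) * (t * k * C))
        + lam * (t * (t-1) * k * C) * (b - 1)
        = (b - 1) * C * (t^2 * (b - lam * k) + lam^2 * t * k - lam * t * k) := by ring
    rw [e4]
    have e5 : (b * (b - 1)) * (C * (t * lam^2)) = (b - 1) * C * (lam^2 * t * b) := by ring
    rw [e5]
    apply mul_le_mul_of_nonneg_left _ (mul_nonneg (by linarith) hC0)
    have h1 : t^2 * (b - lam * k) ≤ 0 := by
      apply mul_nonpos_of_nonneg_of_nonpos (sq_nonneg _) (by linarith)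
    have h2 : 0 ≤ lam * t * k := by positivity
    have h3 : lam^2 * t * k ≤ lam^2 * t * b := by
      apply mul_le_mul_of_nonneg_left hkb (by positivity)
    linarith
  exact le_of_mul_le_mul_left key (by nlinarith)

end Pool.Agent.V11211.TS
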