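import Pool.Agent.V11211.TS1

namespace Pool.Agent.V11211.TS
open Finset

variable {V : Type*} [DecidableEq V]

/-- number of `v ∈ X` whose parent is in `J` -/
noncomputable def rr (X : Finset V) (p : V → V) (J : Finset V) : ℝ :=
  ((X.filter (fun v => p v ∈ J)).card : ℝ)

/-- number of `v ∈ X` in `J` whose parent is in `J` -/
noncomputable def ee (X : Finset V) (p : V → V) (J : Finset V) : ℝ :=
  ((X.filter (fun v => p v ∈ J ∧ v ∈ J)).card : ℝ)

noncomputable def phi (X : Finset V) (p : V → V) (lam : ℝ) (J : Finset V) : ℝ :=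
  (rr X p J - lam * ee X p J)^2 / rr X p J

lemma rr_nonneg (X : Finset V) (p : V → V) (J : Finset V) : 0 ≤ rr X p J := by
  unfold rr; positivity
lemma ee_nonneg (X : Finset V) (p : V → V) (J : Finset V) : 0 ≤ ee X p J := by
  unfold ee; positivity
lemma ee_le_rr (X : Finset V) (p : V → V) (J : Finset V) : ee X p J ≤ rr X p J := by
  unfold ee rr
  have : (X.filter (fun v => p v ∈ J ∧ v ∈ J)).card ≤ (X.filter (fun v => p v ∈ J)).card := by
    apply Finset.card_le_card
    intro v hv
    simp only [mem_filter] at hv ⊢
    exact ⟨hv.1, hv.2.1⟩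
  exact_mod_cast this
lemma phi_nonneg (X : Finset V) (p : V → V) (lam : ℝ) (J : Finset V) : 0 ≤ phi X p lam J :=
  div_nonneg (sq_nonneg _) (rr_nonneg _ _ _)

lemma rr_union (X Y : Finset V) (h : Disjoint X Y) (p : V → V) (J : Finset V) :
    rr (X ∪ Y) p J = rr X p J + rr Y p J := by
  unfold rr
  rw [Finset.filter_union, Finset.card_union_of_disjoint (Finset.disjoint_filter_filter h)]
  push_cast; ring
lemma ee_union (X Y : Finset V) (h : Disjoint X Y) (p : V → V) (J : Finset V) :
    ee (X ∪ Y) p J = ee X p J + ee Y p J := by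
  unfold ee
  rw [Finset.filter_union, Finset.card_union_of_disjoint (Finset.disjoint_filter_filter h)]
  push_cast; ring

lemma titu (a b x y : ℝ) (hx : 0 ≤ x) (hy : 0 ≤ y) (ha : x = 0 → a = 0) (hb : y = 0 → b = 0) :
    (a + b)^2 / (x + y) ≤ a^2 / x + b^2 / y := by
  rcases eq_or_lt_of_le hx with h | h
  · rw [← h, ha h.symm]; simp
  rcases eq_or_lt_of_le hy with h' | h'
  · rw [← h', hb h'.symm]; simp
  rw [div_add_div _ _ h.ne' h'.ne', div_le_div_iff₀ (by linarith) (by positivity)]
  nlinarith [sq_nonneg (a * y - b * x), mul_pos h h']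

lemma phi_union (X Y : Finset V) (h : Disjoint X Y) (p : V → V) (lam : ℝ) (J : Finset V) :
    phi (X ∪ Y) p lam J ≤ phi X p lam J + phi Y p lam J := by
  unfold phi
  rw [rr_union X Y h, ee_union X Y h]
  have e : rr X p J + rr Y p J - lam * (ee X p J + ee Y p J)
      = (rr X p J - lam * ee X p J) + (rr Y p J - lam * ee Y p J) := by ring
  rw [e]
  apply titu
  · exact rr_nonneg _ _ _
  · exact rr_nonneg _ _ _
  · intro h0
    have h1 := ee_le_rr X p J
    have h2 := ee_nonneg X p J
    have : ee X p J = 0 := by linarith
    rw [h0, this]; ring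
  · intro h0
    have h1 := ee_le_rr Y p J
    have h2 := ee_nonneg Y p J
    have : ee Y p J = 0 := by linarith
    rw [h0, this]; ring

variable [Fintype V]

/-- the average of `phi` -/
lemma avg_phi (B : Finset V) (p : V → V) (hp : ∀ v ∈ B, p v ∉ B) (k : ℕ) (hk : 2 ≤ k)
    (hkn : k ≤ Fintype.card V) (lam : ℝ)
    (hlam : lam = ((Fintype.card V : ℝ) - 1) / (k - 1)) :
    ∑ J ∈ (univ : Finset V).powersetCard k, phi B p lam J
      ≤ ((Fintype.card V).choose k : ℕ) * (2 * lam^2) := by
  classical
  -- bound by fibres
  have hfib : ∑ J ∈ (univ : Finset V).powersetCard k, phi B p lam J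
      ≤ ∑ J ∈ (univ : Finset V).powersetCard k,
        (((B.card : ℝ) - lam * (B ∩ J).card)^2 / B.card + lam^2) := by
    have hmap : ∀ J ∈ (univ : Finset V).powersetCard k,
        J \ B ∈ ((univ : Finset V).powersetCard k).image (fun J => J \ B) := by
      intro J hJ; exact Finset.mem_image_of_mem _ hJ
    rw [← Finset.sum_fiberwise_of_maps_to hmap (fun J => phi B p lam J),
      ← Finset.sum_fiberwise_of_maps_to hmap
        (fun J => (((B.card : ℝ) - lam * (B ∩ J).card)^2 / B.card + lam^2))]
    apply Finset.sum_le_sum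
    intro P hP
    obtain ⟨J0, hJ0, hJP⟩ := Finset.mem_image.1 hP
    have hJ0c : J0.card = k := (Finset.mem_powersetCard.1 hJ0).2
    have hPB : Disjoint P B := by rw [← hJP]; exact Finset.sdiff_disjoint
    have hPk : P.card ≤ k := by
      rw [← hJP, ← hJ0c]; exact Finset.card_le_card Finset.sdiff_subset
    have hcard0 : P.card + (B ∩ J0).card = k := by
      rw [← hJP, ← hJ0c, Finset.inter_comm]
      exact Finset.card_sdiff_add_card_inter J0 B
    set q := k - P.card with hq
    have hqB : q ≤ B.card := by
      have : (B ∩ J0).card ≤ B.card := Finset.card_le_card Finset.inter_subset_left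
      omega
    -- T
    set T := B.filter (fun v => p v ∈ P) with hT
    have hTB : T ⊆ B := Finset.filter_subset _ _
    -- reindex
    have hre : ∀ f : Finset V → ℝ, (∑ J ∈ (univ : Finset V).powersetCard k with J \ B = P, f J)
        = ∑ Q ∈ B.powersetCard q, f (P ∪ Q) := by
      intro f
      symm
      apply Finset.sum_bij (fun Q _ => P ∪ Q)
      · intro Q hQ
        obtain ⟨hQB, hQc⟩ := Finset.mem_powersetCard.1 hQ
        simp only [mem_filter, mem_powersetCard, subset_univ, true_and]
        constructor
        · rw [Finset.card_union_of_disjoint (Finset.disjoint_of_subset_right hQB hPB), hQc]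
          omega
        · rw [Finset.union_sdiff_distrib, Finset.sdiff_eq_empty_iff_subset.2 hQB,
            Finset.union_empty, Finset.sdiff_eq_self_of_disjoint hPB]
      · intro Q1 h1 Q2 h2 he
        have hQ1 := (Finset.mem_powersetCard.1 h1).1
        have hQ2 := (Finset.mem_powersetCard.1 h2).1
        have : ∀ Q, Q ⊆ B → (P ∪ Q) ∩ B = Q := by
          intro Q hQ
          ext x
          simp only [mem_inter, mem_union]
          constructor
          · rintro ⟨h | h, hb⟩
            · exact absurd hb (Finset.disjoint_left.1 hPB h)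
            · exact h
          · intro h; exact ⟨Or.inr h, hQ h⟩
        rw [← this Q1 hQ1, ← this Q2 hQ2, he]
      · intro J hJ
        simp only [mem_filter, mem_powersetCard, subset_univ, true_and] at hJ
        refine ⟨B ∩ J, ?_, ?_⟩
        · rw [Finset.mem_powersetCard]
          refine ⟨Finset.inter_subset_left, ?_⟩
          have := Finset.card_sdiff_add_card_inter J B
          rw [hJ.2, hJ.1, Finset.inter_comm] at this
          omega
        · rw [← hJ.2, Finset.inter_comm]
          exact Finset.sdiff_union_inter J B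
      · intro Q _; rfl
    rw [hre, hre]
    have hphi : ∀ Q ∈ B.powersetCard q, phi B p lam (P ∪ Q)
        = ((T.card : ℝ) - lam * (T ∩ Q).card)^2 / T.card := by
      intro Q hQ
      have hQB := (Finset.mem_powersetCard.1 hQ).1
      have h1 : B.filter (fun v => p v ∈ P ∪ Q) = T := by
        rw [hT]
        apply Finset.filter_congr
        intro v hv
        simp only [mem_union]
        constructor
        · rintro (h | h)
          · exact h
          · exact absurd (hQB h) (hp v hv)
        · intro h; exact Or.inl h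
      have h2 : B.filter (fun v => p v ∈ P ∪ Q ∧ v ∈ P ∪ Q) = T ∩ Q := by
        ext v
        rw [hT]
        simp only [mem_filter, mem_inter, mem_union]
        constructor
        · rintro ⟨hv, h3 | h3, h4 | h4⟩
          · exact absurd hv (Finset.disjoint_left.1 hPB h4)
          · exact ⟨⟨hv, h3⟩, h4⟩
          · exact absurd (hQB h3) (hp v hv)
          · exact absurd (hQB h3) (hp v hv)
        · rintro ⟨⟨hv, h3⟩, h4⟩
          exact ⟨hv, Or.inl h3, Or.inr h4⟩
      unfold phi rr ee
      rw [h1, h2]
    have hBQ : ∀ Q ∈ B.powersetCard q,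
        (((B.card : ℝ) - lam * (B ∩ (P ∪ Q)).card)^2 / B.card + lam^2)
        = (((B.card : ℝ) - lam * q)^2 / B.card + lam^2) := by
      intro Q hQ
      obtain ⟨hQB, hQc⟩ := Finset.mem_powersetCard.1 hQ
      have : B ∩ (P ∪ Q) = Q := by
        ext x
        simp only [mem_inter, mem_union]
        constructor
        · rintro ⟨hb, h | h⟩
          · exact absurd hb (Finset.disjoint_left.1 hPB h)
          · exact h
        · intro h; exact ⟨hQB h, Or.inr h⟩
      rw [this, hQc]
    rw [Finset.sum_congr rfl hphi, Finset.sum_congr rfl hBQ, Finset.sum_const,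
      Finset.card_powersetCard, ← Finset.sum_div]
    have hm := momA B T hTB q hqB lam
    rcases Nat.eq_zero_or_pos T.card with ht | ht
    · rw [ht]; simp only [Nat.cast_zero, div_zero, nsmul_eq_mul]; positivity
    · have htpos : (0:ℝ) < T.card := by exact_mod_cast ht
      rw [div_le_iff₀ htpos, nsmul_eq_mul]
      refine hm.trans (le_of_eq ?_)
      ring
  refine hfib.trans ?_
  rw [Finset.sum_add_distrib, Finset.sum_const, Finset.card_powersetCard, ← Finset.sum_div]
  have hm := momB (univ : Finset V) B (Finset.subset_univ _) k hk (by simpa using hkn) lam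
    (by simpa using hlam)
  simp only [Finset.card_univ, nsmul_eq_mul] at hm ⊢
  have : (∑ Q ∈ (univ : Finset V).powersetCard k, ((B.card : ℝ) - lam * (B ∩ Q).card)^2) / B.card
      ≤ ((Fintype.card V).choose k : ℕ) * lam^2 := by
    rcases Nat.eq_zero_or_pos B.card with hb | hb
    · rw [hb]; simp only [Nat.cast_zero, div_zero]; positivity
    · have hbpos : (0:ℝ) < B.card := by exact_mod_cast hb
      rw [div_le_iff₀ hbpos]
      refine hm.trans (le_of_eq ?_)
      ring
  linarith

end Pool.Agent.V11211.TS
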