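import Pool.Agent.V11211.TS2

namespace Pool.Agent.V11211.TS
open Finset

/-- inactive set at time `t` -/
def inact {n : ℕ} (σ : Equiv.Perm (Fin n)) (t : ℕ) : Finset (Fin n) :=
  univ.filter (fun v => t ≤ (σ.symm v : ℕ))

lemma inact_zero {n : ℕ} (σ : Equiv.Perm (Fin n)) : inact σ 0 = univ := by
  simp [inact]

lemma inact_image {n : ℕ} (σ : Equiv.Perm (Fin n)) (t : ℕ) :
    inact σ t = (univ.filter (fun j : Fin n => t ≤ (j : ℕ))).map σ.toEmbedding := by
  ext v
  simp only [inact, mem_filter, mem_univ, true_and, mem_map, Equiv.coe_toEmbedding]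
  constructor
  · intro h; exact ⟨σ.symm v, h, by simp⟩
  · rintro ⟨j, hj, rfl⟩; simpa using hj

lemma card_ge {n t : ℕ} (_ht : t ≤ n) : (univ.filter (fun j : Fin n => t ≤ (j : ℕ))).card = n - t := by
  have h : (univ.filter (fun j : Fin n => t ≤ (j : ℕ))).map Fin.valEmbedding = Finset.Ico t n := by
    ext i
    simp only [mem_map, mem_filter, mem_univ, true_and, Fin.valEmbedding_apply, mem_Ico]
    constructor
    · rintro ⟨j, hj, rfl⟩; exact ⟨hj, j.2⟩
    · rintro ⟨h1, h2⟩; exact ⟨⟨i, h2⟩, h1, rfl⟩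
  rw [← Finset.card_map Fin.valEmbedding, h, Nat.card_Ico]

lemma card_inact {n : ℕ} (σ : Equiv.Perm (Fin n)) (t : ℕ) (ht : t ≤ n) :
    (inact σ t).card = n - t := by
  rw [inact_image, Finset.card_map, card_ge ht]

lemma inact_swap {n : ℕ} (σ : Equiv.Perm (Fin n)) (t : ℕ) (ht : t < n) (j : Fin n)
    (hj : t ≤ (j : ℕ)) :
    inact (σ * Equiv.swap ⟨t, ht⟩ j) (t + 1) = (inact σ t).erase (σ j) := by
  ext v
  simp only [inact, mem_filter, mem_univ, true_and, mem_erase]
  have e : (σ * Equiv.swap ⟨t, ht⟩ j).symm v = Equiv.swap ⟨t, ht⟩ j (σ.symm v) := by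
    rw [Equiv.symm_apply_eq]; simp
  rw [e]
  obtain ⟨i, rfl⟩ : ∃ i, v = σ i := ⟨σ.symm v, by simp⟩
  simp only [Equiv.symm_apply_apply, ne_eq, EmbeddingLike.apply_eq_iff_eq]
  by_cases h1 : i = ⟨t, ht⟩
  · subst h1
    rw [Equiv.swap_apply_left]
    constructor
    · intro h
      refine ⟨?_, le_rfl⟩
      rintro rfl
      simp at h
    · rintro ⟨h, _⟩
      have : (j : ℕ) ≠ t := by
        intro h'
        apply h
        apply Fin.ext; simp [h']
      omega
  · by_cases h2 : i = j
    · subst h2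
      rw [Equiv.swap_apply_right]
      simp
    · rw [Equiv.swap_apply_of_ne_of_ne h1 h2]
      have : (i : ℕ) ≠ t := by
        intro h'
        apply h1
        apply Fin.ext; simp [h']
      constructor
      · intro h; exact ⟨h2, by omega⟩
      · rintro ⟨_, h⟩; omega

theorem optional_stopping {n : ℕ} (g : Finset (Fin n) → ℝ)
    (hg : ∀ I : Finset (Fin n), I.Nonempty → ∑ u ∈ I, g (I.erase u) ≤ I.card * g I)
    (A : Equiv.Perm (Fin n) → ℕ) (hle : ∀ σ, A σ ≤ n)
    (had : ∀ σ τ : Equiv.Perm (Fin n), (∀ i : Fin n, (i : ℕ) < A σ → σ i = τ i) → A τ = A σ) :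
    ∑ σ, g (inact σ (A σ)) ≤ (n.factorial : ℝ) * g univ := by
  classical
  have step : ∀ t, t < n → ∑ σ, g (inact σ (min (A σ) (t + 1))) ≤ ∑ σ, g (inact σ (min (A σ) t)) := by
    intro t ht
    set ind : Equiv.Perm (Fin n) → ℝ := fun σ => if t < A σ then 1 else 0 with hind
    have hdiff : ∀ σ, g (inact σ (min (A σ) (t + 1))) - g (inact σ (min (A σ) t))
        = ind σ * g (inact σ (t + 1)) - ind σ * g (inact σ t) := by
      intro σ
      simp only [hind]
      by_cases h : t < A σ
      · rw [if_pos h, min_eq_right h, min_eq_right h.le]; ring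
      · rw [if_neg h, min_eq_left (by omega), min_eq_left (by omega)]; ring
    set J := univ.filter (fun j : Fin n => t ≤ (j : ℕ)) with hJ
    have hJc : (J.card : ℝ) = n - t := by
      rw [hJ, card_ge ht.le]; push_cast [Nat.cast_sub ht.le]; ring
    have hswapt : ∀ j ∈ J, ∀ σ : Equiv.Perm (Fin n),
        ind (σ * Equiv.swap ⟨t, ht⟩ j) = ind σ := by
      intro j hj σ
      have hj' : t ≤ (j : ℕ) := by simpa [hJ] using hj
      have hag : ∀ i : Fin n, (i : ℕ) < t → (σ * Equiv.swap ⟨t, ht⟩ j) i = σ i := by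
        intro i hi
        rw [Equiv.Perm.mul_apply, Equiv.swap_apply_of_ne_of_ne]
        · intro h; rw [h] at hi; simp at hi
        · intro h; rw [h] at hi; omega
      simp only [hind]
      by_cases h : t < A σ
      · have : t < A (σ * Equiv.swap ⟨t, ht⟩ j) := by
          by_contra hcon
          have := had (σ * Equiv.swap ⟨t, ht⟩ j) σ (fun i hi => hag i (by omega))
          omega
        rw [if_pos h, if_pos this]
      · have : ¬ t < A (σ * Equiv.swap ⟨t, ht⟩ j) := by
          intro hcon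
          have := had σ (σ * Equiv.swap ⟨t, ht⟩ j) (fun i hi => (hag i (by omega)).symm)
          omega
        rw [if_neg h, if_neg this]
    have hmain : ((n : ℝ) - t) * ∑ σ, ind σ * g (inact σ (t + 1))
        ≤ ((n : ℝ) - t) * ∑ σ, ind σ * g (inact σ t) := by
      have h1 : ((n : ℝ) - t) * ∑ σ, ind σ * g (inact σ (t + 1))
          = ∑ j ∈ J, ∑ σ, ind σ * g ((inact σ t).erase (σ j)) := by
        have : ∀ j ∈ J, ∑ σ, ind σ * g ((inact σ t).erase (σ j))
            = ∑ σ, ind σ * g (inact σ (t + 1)) := by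
          intro j hj
          have hj' : t ≤ (j : ℕ) := by simpa [hJ] using hj
          rw [← Equiv.sum_comp (Equiv.mulRight (Equiv.swap ⟨t, ht⟩ j))
            (fun σ => ind σ * g (inact σ (t + 1)))]
          apply Finset.sum_congr rfl
          intro σ _
          simp only [Equiv.coe_mulRight]
          rw [hswapt j hj σ, inact_swap σ t ht j hj']
        rw [Finset.sum_congr rfl this, Finset.sum_const, nsmul_eq_mul, hJc]
      rw [h1, Finset.sum_comm, Finset.mul_sum]
      apply Finset.sum_le_sum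
      intro σ _
      rw [← Finset.mul_sum]
      have h2 : ∑ j ∈ J, g ((inact σ t).erase (σ j)) = ∑ u ∈ inact σ t, g ((inact σ t).erase u) := by
        conv_rhs => rw [inact_image σ t]
        rw [Finset.sum_map]
        rw [inact_image σ t]
        rfl
      rw [h2]
      have hne : (inact σ t).Nonempty := by
        rw [← Finset.card_pos, card_inact σ t ht.le]; omega
      have h3 := hg _ hne
      rw [card_inact σ t ht.le] at h3
      push_cast [Nat.cast_sub ht.le] at h3
      have h4 : 0 ≤ ind σ := by simp only [hind]; split_ifs <;> norm_num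
      calc ind σ * ∑ u ∈ inact σ t, g ((inact σ t).erase u)
          ≤ ind σ * (((n : ℝ) - t) * g (inact σ t)) := mul_le_mul_of_nonneg_left h3 h4
        _ = ((n : ℝ) - t) * (ind σ * g (inact σ t)) := by ring
    have hpos : (0 : ℝ) < (n : ℝ) - t := by
      have : (t : ℝ) < n := by exact_mod_cast ht
      linarith
    have h5 := le_of_mul_le_mul_left hmain hpos
    have h6 : ∑ σ, g (inact σ (min (A σ) (t + 1))) - ∑ σ, g (inact σ (min (A σ) t))
        = ∑ σ, ind σ * g (inact σ (t + 1)) - ∑ σ, ind σ * g (inact σ t) := by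
      rw [← Finset.sum_sub_distrib, ← Finset.sum_sub_distrib]
      exact Finset.sum_congr rfl (fun σ _ => hdiff σ)
    linarith
  have hall : ∀ t, t ≤ n → ∑ σ, g (inact σ (min (A σ) t)) ≤ (n.factorial : ℝ) * g univ := by
    intro t
    induction t with
    | zero =>
      intro _
      simp [inact_zero, Fintype.card_perm]
    | succ t ih =>
      intro h
      exact (step t (by omega)).trans (ih (by omega))
  have := hall n le_rfl
  refine le_trans (le_of_eq ?_) this
  apply Finset.sum_congr rfl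
  intro σ _
  rw [min_eq_left (hle σ)]

section harm
variable {V : Type*} [DecidableEq V]

lemma harm_sum (f : Finset V → ℝ) (k : ℕ) (I : Finset V) :
    ∑ u ∈ I, ∑ J ∈ (I.erase u).powersetCard k, f J
      = ((I.card : ℝ) - k) * ∑ J ∈ I.powersetCard k, f J := by
  have h : ∀ u ∈ I, ∑ J ∈ (I.erase u).powersetCard k, f J
      = ∑ J ∈ I.powersetCard k, if u ∈ J then 0 else f J := by
    intro u hu
    have e : (I.erase u).powersetCard k = (I.powersetCard k).filter (fun J => u ∉ J) := by
      ext J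
      simp only [mem_powersetCard, mem_filter, Finset.subset_erase]
      tauto
    rw [e, Finset.sum_filter]
    apply Finset.sum_congr rfl
    intro J _
    by_cases hJ : u ∈ J <;> simp [hJ]
  rw [Finset.sum_congr rfl h, Finset.sum_comm, Finset.mul_sum]
  apply Finset.sum_congr rfl
  intro J hJ
  obtain ⟨hJI, hJc⟩ := Finset.mem_powersetCard.1 hJ
  rw [Finset.sum_ite, Finset.sum_const_zero, zero_add, Finset.sum_const, nsmul_eq_mul]
  have e : I.filter (fun u => u ∉ J) = I \ J := by
    ext u; simp [Finset.mem_sdiff]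
  rw [e, Finset.card_sdiff_of_subset hJI, Nat.cast_sub (Finset.card_le_card hJI), hJc]

lemma harm_r (X : Finset V) (p : V → V) (I : Finset V) :
    ∑ u ∈ I, rr X p (I.erase u) = ((I.card : ℝ) - 1) * rr X p I := by
  have h : ∀ J : Finset V, rr X p J = ∑ v ∈ X, if p v ∈ J then (1:ℝ) else 0 := by
    intro J
    unfold rr
    rw [Finset.card_filter]; push_cast; rfl
  simp_rw [h]
  rw [Finset.sum_comm, Finset.mul_sum]
  apply Finset.sum_congr rfl
  intro v _
  by_cases hv : p v ∈ I
  · rw [if_pos hv]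
    have : ∀ u ∈ I, (if p v ∈ I.erase u then (1:ℝ) else 0) = 1 - if u = p v then 1 else 0 := by
      intro u _
      by_cases h1 : u = p v
      · simp [h1]
      · have : p v ∈ I.erase u := Finset.mem_erase.2 ⟨fun h => h1 h.symm, hv⟩
        simp [h1, this]
    rw [Finset.sum_congr rfl this, Finset.sum_sub_distrib]
    simp [hv]
  · rw [if_neg hv]
    rw [Finset.sum_eq_zero]
    · ring
    · intro u _
      rw [if_neg]
      intro h; exact hv (Finset.mem_of_mem_erase h)

lemma harm_e (X : Finset V) (p : V → V) (hp : ∀ v ∈ X, p v ≠ v) (I : Finset V) :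
    ∑ u ∈ I, ee X p (I.erase u) = ((I.card : ℝ) - 2) * ee X p I := by
  have h : ∀ J : Finset V, ee X p J = ∑ v ∈ X, if (p v ∈ J ∧ v ∈ J) then (1:ℝ) else 0 := by
    intro J
    unfold ee
    rw [Finset.card_filter]; push_cast; rfl
  simp_rw [h]
  rw [Finset.sum_comm, Finset.mul_sum]
  apply Finset.sum_congr rfl
  intro v hvX
  by_cases hv : p v ∈ I ∧ v ∈ I
  · rw [if_pos hv]
    have : ∀ u ∈ I, (if (p v ∈ I.erase u ∧ v ∈ I.erase u) then (1:ℝ) else 0)
        = 1 - (if u = p v then 1 else 0) - if u = v then 1 else 0 := by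
      intro u _
      by_cases h1 : u = p v
      · have h2 : u ≠ v := fun h => hp v hvX (h1.symm.trans h)
        subst h1
        simp [h2]
      · by_cases h2 : u = v
        · subst h2
          simp [h1]
        · have e1 : p v ∈ I.erase u := Finset.mem_erase.2 ⟨fun h => h1 h.symm, hv.1⟩
          have e2 : v ∈ I.erase u := Finset.mem_erase.2 ⟨fun h => h2 h.symm, hv.2⟩
          simp [h1, h2, e1, e2]
    rw [Finset.sum_congr rfl this, Finset.sum_sub_distrib, Finset.sum_sub_distrib]
    simp [hv.1, hv.2]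
    ring
  · rw [if_neg hv]
    rw [Finset.sum_eq_zero]
    · ring
    · intro u _
      rw [if_neg]
      rintro ⟨h1, h2⟩; exact hv ⟨Finset.mem_of_mem_erase h1, Finset.mem_of_mem_erase h2⟩

/-- sums over `k`-subsets -/
lemma sum_r (X : Finset V) (p : V → V) (k : ℕ) (I : Finset V) :
    (I.card : ℝ) * ∑ J ∈ I.powersetCard k, rr X p J
      = k * (I.card.choose k : ℕ) * rr X p I := by
  have h : ∀ J : Finset V, rr X p J = ∑ v ∈ X, if p v ∈ J then (1:ℝ) else 0 := by
    intro J
    unfold rr
    rw [Finset.card_filter]; push_cast; rfl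
  simp_rw [h]
  rw [Finset.sum_comm, Finset.mul_sum, Finset.mul_sum]
  apply Finset.sum_congr rfl
  intro v _
  have e : ∑ J ∈ I.powersetCard k, (if p v ∈ J then (1:ℝ) else 0)
      = (((I.powersetCard k).filter (fun J => p v ∈ J)).card : ℝ) := by
    rw [Finset.card_filter]; push_cast; rfl
  rw [e]
  by_cases hv : p v ∈ I
  · rw [cnt1 I k hv, if_pos hv]; ring
  · rw [if_neg hv]
    have : (I.powersetCard k).filter (fun J => p v ∈ J) = ∅ := by
      apply Finset.filter_eq_empty_iff.2
      intro J hJ hpJ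
      exact hv ((Finset.mem_powersetCard.1 hJ).1 hpJ)
    rw [this]; simp

lemma sum_e (X : Finset V) (p : V → V) (hp : ∀ v ∈ X, p v ≠ v) (k : ℕ) (I : Finset V) :
    (I.card : ℝ) * (I.card - 1) * ∑ J ∈ I.powersetCard k, ee X p J
      = k * (k - 1) * (I.card.choose k : ℕ) * ee X p I := by
  have h : ∀ J : Finset V, ee X p J = ∑ v ∈ X, if (p v ∈ J ∧ v ∈ J) then (1:ℝ) else 0 := by
    intro J
    unfold ee
    rw [Finset.card_filter]; push_cast; rfl
  simp_rw [h]
  rw [Finset.sum_comm, Finset.mul_sum, Finset.mul_sum]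
  apply Finset.sum_congr rfl
  intro v hvX
  have e : ∑ J ∈ I.powersetCard k, (if (p v ∈ J ∧ v ∈ J) then (1:ℝ) else 0)
      = (((I.powersetCard k).filter (fun J => p v ∈ J ∧ v ∈ J)).card : ℝ) := by
    rw [Finset.card_filter]; push_cast; rfl
  rw [e]
  by_cases hv : p v ∈ I ∧ v ∈ I
  · rw [cnt2 I k hv.1 hv.2 (hp v hvX), if_pos hv]; ring
  · rw [if_neg hv]
    have : (I.powersetCard k).filter (fun J => p v ∈ J ∧ v ∈ J) = ∅ := by
      apply Finset.filter_eq_empty_iff.2
      rintro J hJ ⟨h1, h2⟩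
      exact hv ⟨(Finset.mem_powersetCard.1 hJ).1 h1, (Finset.mem_powersetCard.1 hJ).1 h2⟩
    rw [this]; simp

end harm

end Pool.Agent.V11211.TS
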