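import Pool.Agent.V11211.TS3

namespace Pool.Agent.V11211.TS
open Finset

lemma coef (n m : ℝ) (hn : 2 ≤ n) (hm0 : 0 ≤ m) (hmn : m ≤ n) :
    m / n - m * (m - 1) / (n * (n - 1)) - 1/4 + (m * (m - 1) / (n * (n - 1)) - 1/4)^2 / 32
      ≤ 1 / (n - 1) := by
  set x := m / n with hx
  have hn1 : 0 < n - 1 := by linarith
  have hn0 : 0 < n := by linarith
  set d := x * (1 - x) / (n - 1) with hd
  have hs : m * (m - 1) / (n * (n - 1)) = x^2 - d := by
    rw [hd, hx]; field_simp; ring
  have hx0 : 0 ≤ x := by rw [hx]; positivity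
  have hx1 : x ≤ 1 := by rw [hx, div_le_one hn0]; exact hmn
  have hxx : x * (1 - x) ≤ 1/4 := by nlinarith [sq_nonneg (x - 1/2)]
  have hd0 : 0 ≤ d := by
    rw [hd]; apply div_nonneg _ hn1.le
    exact mul_nonneg hx0 (by linarith)
  have hd1 : d ≤ (1/4) / (n - 1) := by
    rw [hd]; exact div_le_div_of_nonneg_right hxx hn1.le
  have hd2 : d ≤ 1/4 := by
    refine hd1.trans ?_
    rw [div_le_iff₀ hn1]; nlinarith
  rw [hs]
  have h1 : (x^2 - d - 1/4)^2 ≤ 2 * (x^2 - 1/4)^2 + 2 * d^2 := by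
    nlinarith [sq_nonneg (x^2 - 1/4 + d)]
  have h2 : (x^2 - 1/4)^2 ≤ (9/4) * (x - 1/2)^2 := by
    have : (x^2 - 1/4)^2 = (x - 1/2)^2 * (x + 1/2)^2 := by ring
    rw [this]
    have h3 : (x + 1/2)^2 ≤ 9/4 := by nlinarith
    nlinarith [sq_nonneg (x - 1/2)]
  have h4 : d^2 ≤ d := by nlinarith
  have h5 : 1 / (n - 1) = 4 * ((1/4) / (n-1)) := by field_simp
  nlinarith [sq_nonneg (x - 1/2)]

lemma value (n m D F Q : ℝ) (hn : 2 ≤ n) (hm0 : 0 ≤ m) (hmn : m ≤ n)
    (hD : 0 ≤ D) (hD2 : D ≤ 8 * (n - 1)) (hQ : 0 ≤ Q) (hF : F^2 ≤ D * Q) :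
    m / n * D - m * (m - 1) / (n * (n - 1)) * (D - F) ≤ 16 + D / 4 + F / 4 + 8 * Q := by
  set s := m * (m - 1) / (n * (n - 1)) with hs
  have hc := coef n m hn hm0 hmn
  rw [← hs] at hc
  have hn1 : 0 < n - 1 := by linarith
  have h1 : (s - 1/4) * F ≤ 8 * Q + (s - 1/4)^2 * D / 32 := by
    by_contra hcon
    push Not at hcon
    have hA : 0 ≤ 8 * Q + (s - 1/4)^2 * D / 32 := by positivity
    have h1 : (8 * Q + (s - 1/4)^2 * D / 32)^2 < ((s - 1/4) * F)^2 := by
      apply pow_lt_pow_left₀ hcon hA (by norm_num)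
    have h2 : (s - 1/4)^2 * F^2 ≤ (s - 1/4)^2 * (D * Q) :=
      mul_le_mul_of_nonneg_left hF (sq_nonneg _)
    have h3 : (s-1/4)^2 * (D * Q) ≤ (8 * Q + (s - 1/4)^2 * D / 32)^2 := by
      nlinarith [sq_nonneg (8 * Q - (s - 1/4)^2 * D / 32)]
    have h4 : ((s - 1/4) * F)^2 = (s-1/4)^2 * F^2 := by ring
    linarith
  have h2 : (m / n - s - 1/4 + (s - 1/4)^2/32) * D ≤ (1 / (n-1)) * D :=
    mul_le_mul_of_nonneg_right hc hD
  have h3 : (1 / (n-1)) * D ≤ 8 := by
    rw [div_mul_eq_mul_div, one_mul, div_le_iff₀ hn1]; linarith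
  nlinarith

section pot
variable {n : ℕ} (X : Finset (Fin n)) (p : Fin n → Fin n)

noncomputable def lamOf (n k1 : ℕ) : ℝ := ((n : ℝ) - 1) / ((k1 : ℝ) - 1)
noncomputable def DD (I : Finset (Fin n)) : ℝ := ((n : ℝ) / I.card) * rr X p I
noncomputable def FF (I : Finset (Fin n)) : ℝ :=
  ((n : ℝ) / I.card) * rr X p I - (n : ℝ) * (n - 1) / (I.card * (I.card - 1)) * ee X p I
noncomputable def PP (k1 : ℕ) (I : Finset (Fin n)) : ℝ :=
  ((n : ℝ) / k1) * ((∑ J ∈ I.powersetCard k1, phi X p (lamOf n k1) J) / (I.card.choose k1 : ℕ))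
noncomputable def gg (k1 : ℕ) (I : Finset (Fin n)) : ℝ :=
  if I.card < k1 then 1 + ((n : ℝ) / 8) * (rr X p I / I.card)
  else 17 + DD X p I / 4 + FF X p I / 4 + 8 * PP X p k1 I

lemma PP_nonneg (k1 : ℕ) (I : Finset (Fin n)) : 0 ≤ PP X p k1 I := by
  unfold PP
  apply mul_nonneg (by positivity)
  apply div_nonneg _ (by positivity)
  exact Finset.sum_nonneg (fun J _ => phi_nonneg _ _ _ _)
lemma DD_nonneg (I : Finset (Fin n)) : 0 ≤ DD X p I := by
  unfold DD
  exact mul_nonneg (by positivity) (rr_nonneg _ _ _)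

lemma jensen (hp : ∀ v ∈ X, p v ≠ v) (k1 : ℕ) (hk : 2 ≤ k1) (I : Finset (Fin n))
    (hI : k1 ≤ I.card) : (FF X p I)^2 ≤ DD X p I * PP X p k1 I := by
  set m : ℝ := (I.card : ℝ) with hm
  set C : ℝ := ((I.card.choose k1 : ℕ) : ℝ) with hC
  set k : ℝ := (k1 : ℝ) with hkk
  have hIn : I.card ≤ n := by simpa using Finset.card_le_univ I
  have hk2 : (2:ℝ) ≤ k := by rw [hkk]; exact_mod_cast hk
  have hmk : k ≤ m := by rw [hm, hkk]; exact_mod_cast hI
  have hnm : m ≤ n := by rw [hm]; exact_mod_cast hIn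
  have hCpos : 0 < C := by
    rw [hC]; exact_mod_cast Nat.choose_pos hI
  have er := sum_r X p k1 I
  have ee' := sum_e X p hp k1 I
  set Sr := ∑ J ∈ I.powersetCard k1, rr X p J with hSr
  set Se := ∑ J ∈ I.powersetCard k1, ee X p J with hSe
  set Sp := ∑ J ∈ I.powersetCard k1, phi X p (lamOf n k1) J with hSp
  rw [← hm, ← hC, ← hkk] at er ee'
  have hcs : (∑ J ∈ I.powersetCard k1, (rr X p J - lamOf n k1 * ee X p J))^2 ≤ Sr * Sp := by
    apply Finset.sum_sq_le_sum_mul_sum_of_sq_le_mul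
    · intro J _; exact rr_nonneg _ _ _
    · intro J _; exact phi_nonneg _ _ _ _
    · intro J _
      unfold phi
      by_cases h : rr X p J = 0
      · have h1 := ee_le_rr X p J
        have h2 := ee_nonneg X p J
        have : ee X p J = 0 := by linarith
        rw [h, this]; simp
      · apply le_of_eq; field_simp
  rw [Finset.sum_sub_distrib, ← Finset.mul_sum, ← hSr, ← hSe] at hcs
  have hnpos : (0:ℝ) < n := by linarith
  have hm1 : 0 < m - 1 := by linarith
  have hmpos : 0 < m := by linarith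
  have hk1 : 0 < k - 1 := by linarith
  have hSr' : Sr = k * C * rr X p I / m := by field_simp; linarith
  have hSe' : Se = k * (k - 1) * C * ee X p I / (m * (m - 1)) := by
    rw [eq_div_iff (by positivity)]; linarith
  have hlam : lamOf n k1 * (k - 1) = n - 1 := by
    unfold lamOf; rw [← hkk]; field_simp
  have hlin : Sr - lamOf n k1 * Se = (k * C / n) * FF X p I := by
    rw [hSr', hSe']
    have : lamOf n k1 * (k * (k - 1) * C * ee X p I / (m * (m - 1)))
        = (lamOf n k1 * (k - 1)) * (k * C * ee X p I / (m * (m-1))) := by ring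
    rw [this, hlam]
    unfold FF
    rw [← hm]
    field_simp
  rw [hlin] at hcs
  have hkc : 0 < k * C / n := by positivity
  have key : (k * C / n)^2 * (FF X p I)^2 ≤ (k * C / n)^2 * (DD X p I * PP X p k1 I) := by
    have e1 : (k * C / n)^2 * (DD X p I * PP X p k1 I) = Sr * Sp := by
      rw [hSr']
      unfold DD PP
      rw [← hm, ← hC, ← hkk, ← hSp]
      field_simp
    rw [e1, ← mul_pow]
    exact hcs
  exact le_of_mul_le_mul_left key (by positivity)

lemma choose_ratio (m k : ℕ) (hk : k ≤ m) :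
    ((m + 1 : ℕ) : ℝ) * (m.choose k : ℕ) = (((m + 1 : ℕ) : ℝ) - k) * ((m+1).choose k : ℕ) := by
  have := Nat.choose_mul_succ_eq m k
  have h : ((m.choose k * (m+1) : ℕ) : ℝ) = (((m+1).choose k * (m + 1 - k) : ℕ) : ℝ) := by
    exact_mod_cast this
  push_cast [Nat.cast_sub (show k ≤ m + 1 by omega)] at h
  push_cast
  linarith

theorem superharm (hp : ∀ v ∈ X, p v ≠ v) (k1 : ℕ) (hk : 2 ≤ k1) (hn : 2 ≤ n)
    (I : Finset (Fin n)) (hne : I.Nonempty) :
    ∑ u ∈ I, gg X p k1 (I.erase u) ≤ I.card * gg X p k1 I := by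
  have hIn : I.card ≤ n := by simpa using Finset.card_le_univ I
  have hIpos : 0 < I.card := Finset.card_pos.2 hne
  have hmpos : (0:ℝ) < I.card := by exact_mod_cast hIpos
  have hcu : ∀ u ∈ I, (I.erase u).card = I.card - 1 := fun u hu => Finset.card_erase_of_mem hu
  rcases Nat.lt_or_ge k1 I.card with hbig | hsmall
  · -- I.card > k1 : harmonic
    obtain ⟨m, hm⟩ : ∃ m, I.card = m + 1 := ⟨I.card - 1, by omega⟩
    have hmk : k1 ≤ m := by omega
    have hm2 : 2 ≤ m := by omega
    have hm2' : (2:ℝ) ≤ m := by exact_mod_cast hm2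
    have hg : ∀ u ∈ I, gg X p k1 (I.erase u)
        = 17 + ((n : ℝ) / m / 2) * rr X p (I.erase u)
          - ((n : ℝ) * (n - 1) / (m * (m - 1)) / 4) * ee X p (I.erase u)
          + (8 * ((n : ℝ) / k1) / (m.choose k1 : ℕ)) *
              ∑ J ∈ (I.erase u).powersetCard k1, phi X p (lamOf n k1) J := by
      intro u hu
      have hc : (I.erase u).card = m := by rw [hcu u hu]; omega
      unfold gg
      rw [if_neg (by omega)]
      unfold DD FF PP
      rw [hc]
      ring
    rw [Finset.sum_congr rfl hg, Finset.sum_add_distrib, Finset.sum_sub_distrib,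
      Finset.sum_add_distrib, ← Finset.mul_sum, ← Finset.mul_sum, ← Finset.mul_sum,
      harm_r, harm_e X p hp, harm_sum, Finset.sum_const, nsmul_eq_mul]
    unfold gg
    rw [if_neg (by omega)]
    unfold DD FF PP
    have hch := choose_ratio m k1 hmk
    have hc1 : (0:ℝ) < (m.choose k1 : ℕ) := by exact_mod_cast Nat.choose_pos hmk
    have hc2 : (0:ℝ) < ((m+1).choose k1 : ℕ) := by exact_mod_cast Nat.choose_pos (by omega)
    have hk1pos : (0:ℝ) < k1 := by exact_mod_cast (by omega : 0 < k1)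
    rw [hm]
    push_cast at hch ⊢
    set P := ∑ J ∈ I.powersetCard k1, phi X p (lamOf n k1) J with hP
    apply le_of_eq
    have hm1 : (0:ℝ) < (m:ℝ) - 1 := by linarith
    have hm0 : (0:ℝ) < (m:ℝ) := by linarith
    have t1 : (n : ℝ) / m / 2 * (((m:ℝ) + 1 - 1) * rr X p I) = (n:ℝ)/2 * rr X p I := by
      field_simp; ring
    have t2 : (n : ℝ) * (n - 1) / (m * (m - 1)) / 4 * (((m:ℝ) + 1 - 2) * ee X p I)
        = (n:ℝ) * (n-1) / m / 4 * ee X p I := by
      have : (m:ℝ) + 1 - 2 = m - 1 := by ring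
      rw [this]; field_simp
    have t3 : 8 * ((n : ℝ) / k1) / (m.choose k1 : ℕ) * (((m:ℝ) + 1 - k1) * P)
        = (m + 1) * (8 * ((n : ℝ) / k1 * (P / ((m+1).choose k1 : ℕ)))) := by
      field_simp
      linear_combination (-P) * hch
    rw [t1, t2, t3]
    have hm1' : (m:ℝ) + 1 ≠ 0 := by linarith
    have hss : (m:ℝ) + 1 - 1 = m := by ring
    rw [hss]
    field_simp
    ring
  · -- all erasures are below k1
    have hg : ∀ u ∈ I, gg X p k1 (I.erase u)
        = 1 + ((n : ℝ) / 8) * (rr X p (I.erase u) / ((I.card - 1 : ℕ) : ℝ)) := by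
      intro u hu
      unfold gg
      rw [hcu u hu, if_pos (by omega)]
    have hsum : ∑ u ∈ I, gg X p k1 (I.erase u) ≤ I.card * (1 + (n : ℝ) / 8 * (rr X p I / I.card)) := by
      rw [Finset.sum_congr rfl hg, Finset.sum_add_distrib, ← Finset.mul_sum, ← Finset.sum_div,
        harm_r, Finset.sum_const, nsmul_eq_mul]
      rcases Nat.lt_or_ge I.card 2 with h1 | h2
      · have : I.card = 1 := by omega
        rw [this]
        have := rr_nonneg X p I
        simp
        positivity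
      · push_cast [Nat.cast_sub (show 1 ≤ I.card by omega)]
        have h2' : (2:ℝ) ≤ I.card := by exact_mod_cast h2
        have : (I.card : ℝ) - 1 ≠ 0 := by linarith
        apply le_of_eq
        field_simp
    rcases Nat.lt_or_ge I.card k1 with h1 | h2
    · refine hsum.trans (le_of_eq ?_)
      unfold gg
      rw [if_pos h1]
    · have hIk : I.card = k1 := by omega
      refine hsum.trans ?_
      apply mul_le_mul_of_nonneg_left _ hmpos.le
      unfold gg
      rw [if_neg (by omega)]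
      have hj := jensen X p hp k1 hk I h2
      have hD := DD_nonneg X p I
      have hP := PP_nonneg X p k1 I
      have e : (n : ℝ) / 8 * (rr X p I / I.card) = DD X p I / 8 := by
        unfold DD; ring
      rw [e]
      -- need  - F/4 ≤ 16 + D/8 + 8 P
      set F := FF X p I
      set D := DD X p I
      set Q := PP X p k1 I
      have h3 : -F ≤ D / 2 + 2 * Q := by
        by_contra hcon
        push Not at hcon
        have : (D/2 + 2*Q)^2 < F^2 := by nlinarith
        nlinarith [sq_nonneg (D/2 - 2*Q), mul_nonneg hD hP]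
      linarith

end pot

end Pool.Agent.V11211.TS
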