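import Mathlib

/-!
# Additivity of the trace and a twisted swap lemma
-/

set_option autoImplicit false

namespace Pool.Agent.V11211

open LinearMap

section

variable {R V : Type*} [CommRing R] [AddCommGroup V]
    [Module R V] [Module.Finite R V]
    (W : Submodule R V) [Module.Free R W] [Module.Finite R W] [Module.Free R (V ⧸ W)]

open Module.Basis in
theorem trace_eq_add (e : V →ₗ[R] V) (he : W ≤ W.comap e) :
    LinearMap.trace R V e = LinearMap.trace R W (e.restrict he) +
      LinearMap.trace R (V ⧸ W) (W.mapQ W e he) := by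
  classical
  let m := Module.Free.ChooseBasisIndex R W
  let bW : Module.Basis m R W := Module.Free.chooseBasis R W
  let n := Module.Free.ChooseBasisIndex R (V ⧸ W)
  let bQ : Module.Basis n R (V ⧸ W) := Module.Free.chooseBasis R (V ⧸ W)
  let b := sumQuot bW bQ
  let A : Matrix m m R := LinearMap.toMatrix bW bW (e.restrict he)
  let B : Matrix m n R := Matrix.of fun i l ↦
    ((sumQuot bW bQ).repr (e ((sumQuot bW bQ) (Sum.inr l)))) (Sum.inl i)
  let D : Matrix n n R := LinearMap.toMatrix bQ bQ (W.mapQ W e he)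
  suffices LinearMap.toMatrix b b e = Matrix.fromBlocks A B 0 D by
    rw [LinearMap.trace_eq_matrix_trace R b, this, LinearMap.trace_eq_matrix_trace R bW,
      LinearMap.trace_eq_matrix_trace R bQ]
    simp [Matrix.trace, Fintype.sum_sum_type, A, D]
  ext u v
  cases u with
  | inl i =>
    cases v with
    | inl k =>
      simp only [b, sumQuot_inl, Matrix.fromBlocks_apply₁₁, A, LinearMap.toMatrix_apply]
      apply sumQuot_repr_inl_of_mem
    | inr l => simp [b, LinearMap.toMatrix_apply, Matrix.fromBlocks_apply₁₂, B]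
  | inr j =>
    cases v with
    | inl k =>
      suffices W.mkQ (e (bW k)) = 0 by simp [LinearMap.toMatrix_apply, b, this]
      rw [← LinearMap.mem_ker, Submodule.ker_mkQ]
      exact he (Submodule.coe_mem (bW k))
    | inr l =>
      simp only [LinearMap.toMatrix_apply, sumQuot_repr_inr,
        Matrix.fromBlocks_apply₂₂, b, D]
      rw [← sumQuot_inr bW bQ l, W.mapQ_apply]
      simp

end

section Field

variable {k : Type*} [Field k]

/-- Equivariantly isomorphic spaces have the same trace. -/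
theorem trace_eq_of_equiv {V W : Type*} [AddCommGroup V] [Module k V] [AddCommGroup W] [Module k W]
    (φ : V →ₗ[k] V) (ψ : W →ₗ[k] W) (e : V ≃ₗ[k] W) (h : ∀ v, e (φ v) = ψ (e v)) :
    trace k V φ = trace k W ψ := by
  rw [← trace_conj' φ e]
  congr 1
  ext w
  rw [LinearEquiv.conj_apply_apply, h, e.apply_symm_apply]

/-- If `φ β = c β φ` then `(1 - c) tr φ = tr (φ | coker β) - c tr (φ | ker β)`. -/
theorem trace_twist {V : Type*} [AddCommGroup V] [Module k V] [FiniteDimensional k V]
    (φ β : V →ₗ[k] V) (c : k) (hc : ∀ v, φ (β v) = c • β (φ v))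
    (hk : ker β ≤ (ker β).comap φ) (hr : range β ≤ (range β).comap φ) :
    (1 - c) * trace k V φ = trace k (V ⧸ range β) ((range β).mapQ (range β) φ hr) -
      c * trace k (ker β) (φ.restrict hk) := by
  have h1 := trace_eq_add (ker β) φ hk
  have h2 := trace_eq_add (range β) φ hr
  have h3 : trace k (range β) (φ.restrict hr) =
      c * trace k (V ⧸ ker β) ((ker β).mapQ (ker β) φ hk) := by
    rw [← smul_eq_mul, ← map_smul]
    refine (trace_eq_of_equiv _ _ β.quotKerEquivRange ?_).symm
    intro v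
    obtain ⟨v, rfl⟩ := Submodule.Quotient.mk_surjective _ v
    apply Subtype.ext
    rw [LinearMap.smul_apply, Submodule.mapQ_apply, map_smul]
    change c • β (φ v) = φ (β v)
    rw [hc]
  rw [h3] at h2
  linear_combination (1 : k) * h2 - c * h1

/-- A variant of `trace_eq_of_equiv`: both spaces are quotients of a third one by the same
subspace. -/
theorem trace_eq_of_surj {N V W : Type*} [AddCommGroup N] [Module k N] [AddCommGroup V] [Module k V]
    [AddCommGroup W] [Module k W] (ν : N →ₗ[k] N) (φ : V →ₗ[k] V) (ψ : W →ₗ[k] W)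
    (p : N →ₗ[k] V) (q : N →ₗ[k] W) (hp : Function.Surjective p) (hq : Function.Surjective q)
    (hker : ker p = ker q) (h : ∀ x, p (ν x) = φ (p x)) (h' : ∀ x, q (ν x) = ψ (q x)) :
    trace k V φ = trace k W ψ := by
  let e : V ≃ₗ[k] W := (p.quotKerEquivOfSurjective hp).symm ≪≫ₗ
    Submodule.quotEquivOfEq _ _ hker ≪≫ₗ q.quotKerEquivOfSurjective hq
  have he : ∀ x, e (p x) = q x := by
    intro x
    have h1 : (p.quotKerEquivOfSurjective hp).symm (p x) = Submodule.Quotient.mk x := by
      rw [LinearEquiv.symm_apply_eq]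
      rfl
    change q.quotKerEquivOfSurjective hq (Submodule.quotEquivOfEq _ _ hker
      ((p.quotKerEquivOfSurjective hp).symm (p x))) = q x
    rw [h1]
    rfl
  refine trace_eq_of_equiv φ ψ e ?_
  intro v
  obtain ⟨x, rfl⟩ := hp v
  rw [← h, he, he, h']

end Field

section Ring

variable {k : Type*} [Field k] {B : Type*} [CommRing B] [Algebra k B]

/-- The trace of the endomorphism of `B ⧸ I` induced by an algebra endomorphism of `B`. -/
noncomputable def tau (φ : B →ₐ[k] B) (I : Ideal B) (h : I ≤ I.comap φ) : k :=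
  trace k (B ⧸ I) (Ideal.quotientMapₐ I φ h).toLinearMap

/-- **Swap lemma.** -/
theorem swap (φ : B →ₐ[k] B) (a b : B) (c : k) (hc0 : c ≠ 0) (hc1 : c ≠ 1)
    (ha : φ a = c • a) (hb : φ b = c • b)
    (ra : ∀ x, a * x = 0 → x = 0) (rb : ∀ x, b * x = 0 → x = 0)
    (hIa : Ideal.span {a} ≤ (Ideal.span {a}).comap φ)
    (hIb : Ideal.span {b} ≤ (Ideal.span {b}).comap φ)
    [Module.Finite k (B ⧸ Ideal.span {a})] [Module.Finite k (B ⧸ Ideal.span {b})] :
    tau φ (Ideal.span {a}) hIa = tau φ (Ideal.span {b}) hIb := by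
  -- multiplication operators on quotients
  have key : ∀ (a b : B) (ha : φ a = c • a) (hb : φ b = c • b)
      (hIa : Ideal.span {a} ≤ (Ideal.span {a}).comap φ)
      [Module.Finite k (B ⧸ Ideal.span {a})],
      ∃ (β : (B ⧸ Ideal.span {a}) →ₗ[k] (B ⧸ Ideal.span {a})), 
        (∀ v, β v = Ideal.Quotient.mk _ b * v) ∧ 
        (∀ v, (Ideal.quotientMapₐ (Ideal.span {a}) φ hIa).toLinearMap (β v) =
          c • β ((Ideal.quotientMapₐ (Ideal.span {a}) φ hIa).toLinearMap v)) := by
    intro a b ha hb hIa _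
    refine ⟨LinearMap.mulLeft k (Ideal.Quotient.mk (Ideal.span {a}) b), fun v => rfl, fun v => ?_⟩
    simp only [LinearMap.mulLeft_apply, AlgHom.toLinearMap_apply, map_mul]
    have h1 : (Ideal.quotientMapₐ (Ideal.span {a}) φ hIa) (Ideal.Quotient.mk (Ideal.span {a}) b) =
        c • Ideal.Quotient.mk (Ideal.span {a}) b := by
      change Ideal.Quotient.mk (Ideal.span {a}) (φ b) = _
      rw [hb]
      rfl
    rw [h1, smul_mul_assoc]
  obtain ⟨β, hβ, hcβ⟩ := key a b ha hb hIa
  obtain ⟨γ, hγ, hcγ⟩ := key b a hb ha hIb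
  set Φ := (Ideal.quotientMapₐ (Ideal.span {a}) φ hIa).toLinearMap with hΦ
  set Ψ := (Ideal.quotientMapₐ (Ideal.span {b}) φ hIb).toLinearMap with hΨ
  have hΦ' : ∀ x, Φ (Ideal.Quotient.mk _ x) = Ideal.Quotient.mk _ (φ x) := fun x => rfl
  have hΨ' : ∀ x, Ψ (Ideal.Quotient.mk _ x) = Ideal.Quotient.mk _ (φ x) := fun x => rfl
  have hkβ : ker β ≤ (ker β).comap Φ := by
    intro v hv
    rw [Submodule.mem_comap, mem_ker]
    rw [mem_ker] at hv
    have h1 := hcβ v
    rw [hv, map_zero] at h1
    exact (smul_eq_zero.1 h1.symm).resolve_left hc0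
  have hkγ : ker γ ≤ (ker γ).comap Ψ := by
    intro v hv
    rw [Submodule.mem_comap, mem_ker]
    rw [mem_ker] at hv
    have h1 := hcγ v
    rw [hv, map_zero] at h1
    exact (smul_eq_zero.1 h1.symm).resolve_left hc0
  have hrβ : range β ≤ (range β).comap Φ := by
    rintro _ ⟨v, rfl⟩
    exact ⟨c • Φ v, by rw [map_smul, hcβ]⟩
  have hrγ : range γ ≤ (range γ).comap Ψ := by
    rintro _ ⟨v, rfl⟩
    exact ⟨c • Ψ v, by rw [map_smul, hcγ]⟩
  have h1 := trace_twist Φ β c hcβ hkβ hrβ
  have h2 := trace_twist Ψ γ c hcγ hkγ hrγ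
  have mem_ab : ∀ (a b x : B) (β : (B ⧸ Ideal.span {a}) →ₗ[k] (B ⧸ Ideal.span {a})) 
      (_ : ∀ v, β v = Ideal.Quotient.mk _ b * v),
      Ideal.Quotient.mk (Ideal.span {a}) x ∈ range β ↔ ∃ y z, x = a * y + b * z := by
    intro a b x β hβ
    constructor
    · rintro ⟨v, hv⟩
      obtain ⟨z, rfl⟩ := Ideal.Quotient.mk_surjective v
      rw [hβ, ← map_mul, eq_comm, Ideal.Quotient.eq, Ideal.mem_span_singleton'] at hv
      obtain ⟨y, hy⟩ := hv
      exact ⟨y, z, by linear_combination -hy⟩
    · rintro ⟨y, z, rfl⟩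
      refine ⟨Ideal.Quotient.mk _ z, ?_⟩
      rw [hβ, ← map_mul, eq_comm, Ideal.Quotient.eq, Ideal.mem_span_singleton']
      exact ⟨y, by ring⟩
  -- the cokernels
  have hcoker : trace k ((B ⧸ Ideal.span {a}) ⧸ range β) ((range β).mapQ (range β) Φ hrβ) =
      trace k ((B ⧸ Ideal.span {b}) ⧸ range γ) ((range γ).mapQ (range γ) Ψ hrγ) := by
    refine trace_eq_of_surj φ.toLinearMap _ _
      ((range β).mkQ ∘ₗ (Ideal.Quotient.mkₐ k (Ideal.span {a})).toLinearMap)
      ((range γ).mkQ ∘ₗ (Ideal.Quotient.mkₐ k (Ideal.span {b})).toLinearMap)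
      ?_ ?_ ?_ (fun x => rfl) (fun x => rfl)
    · exact (Submodule.mkQ_surjective _).comp Ideal.Quotient.mk_surjective
    · exact (Submodule.mkQ_surjective _).comp Ideal.Quotient.mk_surjective
    · ext x
      rw [mem_ker, mem_ker]
      change (Submodule.Quotient.mk (Ideal.Quotient.mk (Ideal.span {a}) x) :
          (B ⧸ Ideal.span {a}) ⧸ range β) = 0 ↔
        (Submodule.Quotient.mk (Ideal.Quotient.mk (Ideal.span {b}) x) :
          (B ⧸ Ideal.span {b}) ⧸ range γ) = 0
      rw [Submodule.Quotient.mk_eq_zero, Submodule.Quotient.mk_eq_zero, mem_ab a b x β hβ,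
        mem_ab b a x γ hγ]
      constructor
      · rintro ⟨y, z, rfl⟩
        exact ⟨z, y, by ring⟩
      · rintro ⟨y, z, rfl⟩
        exact ⟨z, y, by ring⟩
  -- the kernels
  have hker : trace k (ker β) (Φ.restrict hkβ) = trace k (ker γ) (Ψ.restrict hkγ) := by
    let N : Submodule k (B × B) :=
      { carrier := {x | b * x.1 = a * x.2}
        add_mem' := by
          intro x y hx hy
          simp only [Set.mem_setOf_eq] at hx hy ⊢
          rw [Prod.fst_add, Prod.snd_add, mul_add, mul_add, hx, hy]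
        zero_mem' := by simp
        smul_mem' := by
          intro r x hx
          simp only [Set.mem_setOf_eq] at hx ⊢
          rw [Prod.smul_fst, Prod.smul_snd, mul_smul_comm, mul_smul_comm, hx] }
    have hN : ∀ x : B × B, x ∈ N ↔ b * x.1 = a * x.2 := fun x => Iff.rfl
    have hNφ : ∀ x ∈ N, (φ.toLinearMap.prodMap φ.toLinearMap) x ∈ N := by
      intro x hx
      rw [hN] at hx ⊢
      have h3 := congrArg φ hx
      rw [map_mul, map_mul, ha, hb, smul_mul_assoc, smul_mul_assoc] at h3
      exact (smul_right_injective B hc0) h3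
    let p : N →ₗ[k] ker β :=
      { toFun := fun x => ⟨Ideal.Quotient.mk _ x.1.1, by
          rw [mem_ker, hβ, ← map_mul, Ideal.Quotient.eq_zero_iff_mem, Ideal.mem_span_singleton']
          exact ⟨x.1.2, by rw [mul_comm]; exact x.2.symm⟩⟩
        map_add' := fun x y => rfl
        map_smul' := fun r x => rfl }
    let q : N →ₗ[k] ker γ :=
      { toFun := fun x => ⟨Ideal.Quotient.mk _ x.1.2, by
          rw [mem_ker, hγ, ← map_mul, Ideal.Quotient.eq_zero_iff_mem, Ideal.mem_span_singleton']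
          exact ⟨x.1.1, by rw [mul_comm]; exact x.2⟩⟩
        map_add' := fun x y => rfl
        map_smul' := fun r x => rfl }
    refine trace_eq_of_surj ((φ.toLinearMap.prodMap φ.toLinearMap).restrict hNφ) _ _ p q
      ?_ ?_ ?_ (fun x => rfl) (fun x => rfl)
    · rintro ⟨v, hv⟩
      obtain ⟨x, rfl⟩ := Ideal.Quotient.mk_surjective v
      have hv' := hv
      rw [mem_ker, hβ, ← map_mul, Ideal.Quotient.eq_zero_iff_mem, Ideal.mem_span_singleton'] at hv'
      obtain ⟨y, hy⟩ := hv'
      exact ⟨⟨(x, y), by rw [hN]; rw [← hy, mul_comm]⟩, rfl⟩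
    · rintro ⟨v, hv⟩
      obtain ⟨x, rfl⟩ := Ideal.Quotient.mk_surjective v
      have hv' := hv
      rw [mem_ker, hγ, ← map_mul, Ideal.Quotient.eq_zero_iff_mem, Ideal.mem_span_singleton'] at hv'
      obtain ⟨y, hy⟩ := hv'
      exact ⟨⟨(y, x), by rw [hN]; rw [← hy, mul_comm]⟩, rfl⟩
    · ext ⟨⟨x, y⟩, hxy⟩
      rw [hN] at hxy
      simp only at hxy
      rw [mem_ker, mem_ker]
      have e1 : p ⟨(x, y), hxy⟩ = 0 ↔ x ∈ Ideal.span {a} := by
        rw [← Ideal.Quotient.eq_zero_iff_mem]
        exact Subtype.ext_iff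
      have e2 : q ⟨(x, y), hxy⟩ = 0 ↔ y ∈ Ideal.span {b} := by
        rw [← Ideal.Quotient.eq_zero_iff_mem]
        exact Subtype.ext_iff
      rw [e1, e2, Ideal.mem_span_singleton', Ideal.mem_span_singleton']
      constructor
      · rintro ⟨z, rfl⟩
        refine ⟨z, ?_⟩
        have h4 : a * (z * b - y) = 0 := by linear_combination hxy
        exact sub_eq_zero.1 (ra _ h4)
      · rintro ⟨z, rfl⟩
        refine ⟨z, ?_⟩
        have h4 : b * (z * a - x) = 0 := by linear_combination -hxy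
        exact sub_eq_zero.1 (rb _ h4)
  rw [hcoker, hker, ← h2] at h1
  exact mul_left_cancel₀ (sub_ne_zero.2 hc1.symm) h1

end Ring

end Pool.Agent.V11211
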